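import Pool.Agent.H87.LE.Base

open MeasureTheory Complex Set Filter Topology
open scoped ContDiff Laplacian

namespace Pool.Agent.H87.LE

/-! # A16: chain rule and positive parts for limits of test functions -/

/-- `(v, G)` is the limit in `L²` of `(φ n, ∇ φ n)` -/
def Lim (φ : ℕ → ℂ → ℝ) (v : ℂ → ℝ) (G : ℂ → ℂ) : Prop :=
  AEStronglyMeasurable v volume ∧ AEStronglyMeasurable G volume ∧
  Tendsto (fun n => eLpNorm (fun z => φ n z - v z) 2 volume) atTop (𝓝 0) ∧
  Tendsto (fun n => eLpNorm (fun z => gradient (φ n) z - G z) 2 volume) atTop (𝓝 0)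

section aux

theorem a16_grad_eq (f : ℂ → ℝ) (z : ℂ) :
    gradient f z = (InnerProductSpace.toDual ℝ ℂ).symm (fderiv ℝ f z) := rfl

theorem a16_norm_grad (f : ℂ → ℝ) (z : ℂ) : ‖gradient f z‖ = ‖fderiv ℝ f z‖ := by
  rw [a16_grad_eq, LinearIsometryEquiv.norm_map]

theorem a16_grad_cont {f : ℂ → ℝ} (hf : ContDiff ℝ ∞ f) : Continuous (gradient f) := by
  have h := hf.continuous_fderiv (by simp)
  exact (InnerProductSpace.toDual ℝ ℂ).symm.continuous.comp h

theorem a16_grad_zero {f : ℂ → ℝ} {z : ℂ} (h : z ∉ tsupport f) : gradient f z = 0 := by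
  rw [a16_grad_eq]
  have : fderiv ℝ f z = 0 := by
    by_contra h2
    exact h (support_fderiv_subset ℝ h2)
  rw [this, map_zero]

theorem a16_grad_hcs {f : ℂ → ℝ} (hf : HasCompactSupport f) : HasCompactSupport (gradient f) := by
  apply HasCompactSupport.intro hf
  intro z hz
  exact a16_grad_zero hz

theorem a16_grad_comp {F : ℝ → ℝ} {f : ℂ → ℝ} {z : ℂ} (hF : DifferentiableAt ℝ F (f z))
    (hf : DifferentiableAt ℝ f z) :
    gradient (fun z => F (f z)) z = deriv F (f z) • gradient f z := by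
  have h := hF.hasDerivAt.comp_hasFDerivAt z hf.hasFDerivAt
  rw [a16_grad_eq, a16_grad_eq]
  have : fderiv ℝ (fun z => F (f z)) z = deriv F (f z) • fderiv ℝ f z := h.fderiv
  rw [this, map_smul]

theorem a16_grad_sub {f g : ℂ → ℝ} {z : ℂ} (hf : DifferentiableAt ℝ f z)
    (hg : DifferentiableAt ℝ g z) :
    gradient (fun z => f z - g z) z = gradient f z - gradient g z := by
  have h := hf.hasFDerivAt.sub hg.hasFDerivAt
  rw [a16_grad_eq, a16_grad_eq, a16_grad_eq]
  have : fderiv ℝ (fun z => f z - g z) z = fderiv ℝ f z - fderiv ℝ g z := h.fderiv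
  rw [this, map_sub]

theorem a16_grad_mul {f g : ℂ → ℝ} {z : ℂ} (hf : DifferentiableAt ℝ f z)
    (hg : DifferentiableAt ℝ g z) :
    gradient (fun z => f z * g z) z = g z • gradient f z + f z • gradient g z := by
  have h := hf.hasFDerivAt.mul hg.hasFDerivAt
  rw [a16_grad_eq, a16_grad_eq, a16_grad_eq]
  have : fderiv ℝ (fun z => f z * g z) z = f z • fderiv ℝ g z + g z • fderiv ℝ f z := h.fderiv
  rw [this, map_add, map_smul, map_smul, add_comm]

theorem a16_memLp {f : ℂ → ℝ} (h : ContDiff ℝ ∞ f) (hc : HasCompactSupport f) :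
    MemLp f 2 volume := h.continuous.memLp_of_hasCompactSupport hc

theorem a16_memLp_grad {f : ℂ → ℝ} (h : ContDiff ℝ ∞ f) (hc : HasCompactSupport f) :
    MemLp (gradient f) 2 volume :=
  (a16_grad_cont h).memLp_of_hasCompactSupport (a16_grad_hcs hc)

variable {E : Type*} [NormedAddCommGroup E]

/-- `L²` limits of functions in `L²` are in `L²` -/
theorem a16_limLp {f : ℕ → ℂ → E} {g : ℂ → E} (hf : ∀ n, MemLp (f n) 2 volume)
    (hg : AEStronglyMeasurable g volume)
    (h : Tendsto (fun n => eLpNorm (fun z => f n z - g z) 2 volume) atTop (𝓝 0)) :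
    MemLp g 2 volume := by
  have h1 : ∀ᶠ n in atTop, eLpNorm (fun z => f n z - g z) 2 volume < 1 :=
    h.eventually (gt_mem_nhds (by norm_num))
  obtain ⟨n, hn⟩ := h1.exists
  have h2 : MemLp (fun z => f n z - g z) 2 volume :=
    ⟨(hf n).1.sub hg, hn.trans (by norm_num)⟩
  have h3 := (hf n).sub h2
  refine h3.ae_eq (Eventually.of_forall fun z => ?_)
  simp

/-- a limit of functions vanishing off `Ω` vanishes off `Ω` -/
theorem a16_limOff {Ω : Set ℂ} (hΩ : MeasurableSet Ω) {f : ℕ → ℂ → E} {g : ℂ → E}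
    (hf : ∀ n, ∀ z ∉ Ω, f n z = 0) (hg : AEStronglyMeasurable g volume)
    (h : Tendsto (fun n => eLpNorm (fun z => f n z - g z) 2 volume) atTop (𝓝 0)) :
    ∀ᵐ z, z ∉ Ω → g z = 0 := by
  have h1 : ∀ n, eLpNorm g 2 (volume.restrict Ωᶜ) ≤ eLpNorm (fun z => f n z - g z) 2 volume := by
    intro n
    calc eLpNorm g 2 (volume.restrict Ωᶜ)
        = eLpNorm (fun z => f n z - g z) 2 (volume.restrict Ωᶜ) := by
          apply eLpNorm_congr_norm_ae
          refine (ae_restrict_iff' hΩ.compl).mpr (Eventually.of_forall fun z hz => ?_)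
          rw [hf n z hz, zero_sub, norm_neg]
      _ ≤ eLpNorm (fun z => f n z - g z) 2 volume := eLpNorm_mono_measure _ Measure.restrict_le_self
  have h2 : eLpNorm g 2 (volume.restrict Ωᶜ) = 0 := by
    apply le_antisymm _ bot_le
    exact ge_of_tendsto h (Eventually.of_forall h1)
  rw [eLpNorm_eq_zero_iff hg.restrict (by norm_num)] at h2
  have h3 := (ae_restrict_iff' hΩ.compl).mp h2
  filter_upwards [h3] with z hz hz'
  exact hz hz'

/-- dominated convergence in `L²` -/
theorem a16_dom {f : ℕ → ℂ → E} {b : ℂ → ℝ} (hf : ∀ n, AEStronglyMeasurable (f n) volume)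
    (hb : MemLp b 2 volume) (hle : ∀ n, ∀ᵐ z, ‖f n z‖ ≤ b z)
    (hlim : ∀ᵐ z, Tendsto (fun n => f n z) atTop (𝓝 0)) :
    Tendsto (fun n => eLpNorm (f n) 2 volume) atTop (𝓝 0) := by
  have key : Tendsto (fun n => ∫⁻ z, ‖f n z‖ₑ ^ (2:ℝ)) atTop (𝓝 0) := by
    have := tendsto_lintegral_of_dominated_convergence' (μ := (volume : Measure ℂ))
      (F := fun n z => ‖f n z‖ₑ ^ (2:ℝ)) (f := fun _ => 0) (fun z => ‖b z‖ₑ ^ (2:ℝ))
      (fun n => ((hf n).enorm).pow_const _) (fun n => by
        filter_upwards [hle n] with z hz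
        gcongr
        rw [enorm_le_iff_norm_le]
        exact hz.trans (le_abs_self _)) (by
        have := lintegral_rpow_enorm_lt_top_of_eLpNorm_lt_top (by norm_num) (by norm_num) hb.2
        simpa using this.ne) (by
        filter_upwards [hlim] with z hz
        have h1 : Tendsto (fun n => ‖f n z‖ₑ) atTop (𝓝 0) := by
          have := hz.enorm
          simpa using this
        have h2 := (ENNReal.continuous_rpow_const (y := 2)).tendsto (0 : ENNReal)
        have h3 := h2.comp h1
        simpa [Function.comp_def] using h3)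
    simpa using this
  have h3 : ∀ n, eLpNorm (f n) 2 volume = (∫⁻ z, ‖f n z‖ₑ ^ (2:ℝ)) ^ ((1:ℝ) / 2) := by
    intro n
    rw [eLpNorm_eq_lintegral_rpow_enorm_toReal (by norm_num) (by norm_num)]
    simp
  simp_rw [h3]
  have h4 := (ENNReal.continuous_rpow_const (y := (1:ℝ) / 2)).tendsto (0 : ENNReal)
  have h5 := h4.comp key
  simpa [Function.comp_def] using h5

/-- products with a bounded continuous function of a converging sequence -/
theorem a16_prod {s : ℕ → ℂ → ℝ} {t : ℂ → ℝ} {g : ℂ → ℂ} {S : ℝ → ℝ} {C : ℝ}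
    (hs : ∀ n, AEStronglyMeasurable (s n) volume) (ht : AEStronglyMeasurable t volume)
    (hg : MemLp g 2 volume) (hS : Continuous S) (hC : ∀ x, |S x| ≤ C)
    (h : Tendsto (fun n => eLpNorm (fun z => s n z - t z) 2 volume) atTop (𝓝 0)) :
    Tendsto (fun n => eLpNorm (fun z => (S (s n z) - S (t z)) • g z) 2 volume) atTop (𝓝 0) := by
  apply tendsto_of_subseq_tendsto
  intro ns hns
  have hm : TendstoInMeasure volume s atTop t :=
    tendstoInMeasure_of_tendsto_eLpNorm (p := 2) (by norm_num) hs ht h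
  have hm2 : TendstoInMeasure volume (fun n => s (ns n)) atTop t :=
    fun ε hε => (hm ε hε).comp hns
  obtain ⟨ms, _, hms⟩ := hm2.exists_seq_tendsto_ae
  refine ⟨ms, ?_⟩
  apply a16_dom (b := fun z => 2 * C * ‖g z‖)
  · intro n
    exact ((hS.comp_aestronglyMeasurable (hs _)).sub (hS.comp_aestronglyMeasurable ht)).smul hg.1
  · exact hg.norm.const_mul _
  · intro n
    refine Eventually.of_forall fun z => ?_
    rw [norm_smul]
    gcongr
    rw [Real.norm_eq_abs]
    calc |S (s (ns (ms n)) z) - S (t z)| ≤ |S (s (ns (ms n)) z)| + |S (t z)| := abs_sub _ _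
      _ ≤ 2 * C := by linarith [hC (s (ns (ms n)) z), hC (t z)]
  · filter_upwards [hms] with z hz
    have h1 : Tendsto (fun n => S (s (ns (ms n)) z)) atTop (𝓝 (S (t z))) :=
      (hS.tendsto _).comp hz
    have h2 := (h1.sub_const (S (t z))).smul_const (g z)
    simpa using h2

/-- squeeze for `L²` norms -/
theorem a16_squeeze {E' : Type*} [NormedAddCommGroup E'] {f : ℕ → ℂ → E} {g : ℕ → ℂ → E'} {C : ℝ}
    (h : ∀ n, ∀ᵐ z, ‖f n z‖ ≤ C * ‖g n z‖)
    (hg : Tendsto (fun n => eLpNorm (g n) 2 volume) atTop (𝓝 0)) :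
    Tendsto (fun n => eLpNorm (f n) 2 volume) atTop (𝓝 0) := by
  have h1 : ∀ n, eLpNorm (f n) 2 volume ≤ ENNReal.ofReal C * eLpNorm (g n) 2 volume :=
    fun n => eLpNorm_le_mul_eLpNorm_of_ae_le_mul (h n) 2
  have h2 : Tendsto (fun n => ENNReal.ofReal C * eLpNorm (g n) 2 volume) atTop (𝓝 0) := by
    have := ENNReal.Tendsto.const_mul hg (Or.inr (ENNReal.ofReal_ne_top (r := C)))
    simpa using this
  exact tendsto_of_tendsto_of_tendsto_of_le_of_le tendsto_const_nhds h2 (fun _ => bot_le) h1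

theorem a16_add {f g : ℕ → ℂ → E} (hf : ∀ n, AEStronglyMeasurable (f n) volume)
    (hg : ∀ n, AEStronglyMeasurable (g n) volume)
    (h1 : Tendsto (fun n => eLpNorm (f n) 2 volume) atTop (𝓝 0))
    (h2 : Tendsto (fun n => eLpNorm (g n) 2 volume) atTop (𝓝 0)) :
    Tendsto (fun n => eLpNorm (fun z => f n z + g n z) 2 volume) atTop (𝓝 0) := by
  have h3 : ∀ n, eLpNorm (fun z => f n z + g n z) 2 volume
      ≤ eLpNorm (f n) 2 volume + eLpNorm (g n) 2 volume :=
    fun n => eLpNorm_add_le (hf n) (hg n) (by norm_num)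
  have h4 : Tendsto (fun n => eLpNorm (f n) 2 volume + eLpNorm (g n) 2 volume) atTop (𝓝 0) := by
    simpa using h1.add h2
  exact tendsto_of_tendsto_of_tendsto_of_le_of_le tendsto_const_nhds h4 (fun _ => bot_le) h3

end aux

theorem a16m_bound {E : Type*} [NormedAddCommGroup E] {χ : ℂ → E} (hχ : Continuous χ) :
    ∃ C : ℝ, 0 ≤ C ∧ ∀ z ∈ DD, ‖χ z‖ ≤ C := by
  have hb : Bornology.IsBounded DD := by
    refine (Metric.isBounded_ball (x := (0 : ℂ)) (r := 2)).subset fun z hz => ?_
    rw [mem_ball_zero_iff]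
    have h1 := Complex.norm_le_abs_re_add_abs_im z
    have h2 := hz.1
    have h3 := hz.2
    linarith
  obtain ⟨C, hC⟩ := hb.isCompact_closure.exists_bound_of_continuousOn hχ.continuousOn
  refine ⟨max C 0, le_max_right _ _, fun z hz => (hC z (subset_closure hz)).trans (le_max_left _ _)⟩

theorem a16m_tend {C : ℝ} {a b : ℕ → ENNReal} (ha : Tendsto a atTop (𝓝 0))
    (h : ∀ n, b n ≤ ENNReal.ofReal C * a n) : Tendsto b atTop (𝓝 0) := by
  have h1 : Tendsto (fun n => ENNReal.ofReal C * a n) atTop (𝓝 (ENNReal.ofReal C * 0)) :=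
    ENNReal.Tendsto.const_mul ha (Or.inr ENNReal.ofReal_ne_top)
  rw [mul_zero] at h1
  exact tendsto_of_tendsto_of_tendsto_of_le_of_le tendsto_const_nhds h1 (fun _ => zero_le) h

/-- multiplication by a smooth function `χ`, with change of domain -/
theorem mul_lim {Ω Ω' : Set ℂ} (hΩ : IsOpen Ω) (hD : Ω ⊆ DD) {φ : ℕ → ℂ → ℝ}
    (hφ : ∀ n, Tst Ω (φ n)) {v : ℂ → ℝ} {G : ℂ → ℂ} (h : Lim φ v G) {χ : ℂ → ℝ}
    (hχ : ContDiff ℝ ∞ χ) (hs : tsupport χ ∩ Ω ⊆ Ω') :
    (∀ n, Tst Ω' (fun z => χ z * φ n z)) ∧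
      Lim (fun n z => χ z * φ n z) (fun z => χ z * v z)
        (fun z => v z • gradient χ z + χ z • G z) := by
  have hgc := a16_grad_cont hχ
  obtain ⟨C, hC0, hC⟩ := a16m_bound hχ.continuous
  obtain ⟨C', hC0', hC'⟩ := a16m_bound hgc
  have hφd : ∀ n z, DifferentiableAt ℝ (φ n) z := fun n z =>
    (hφ n).1.contDiffAt.differentiableAt (by simp)
  have hχd : ∀ z, DifferentiableAt ℝ χ z := fun z => hχ.contDiffAt.differentiableAt (by simp)
  have hoff : ∀ n, ∀ z ∉ Ω, φ n z = 0 := fun n z hz =>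
    image_eq_zero_of_notMem_tsupport fun h' => hz ((hφ n).2.2 h')
  have hoff' : ∀ n, ∀ z ∉ Ω, gradient (φ n) z = 0 := fun n z hz =>
    a16_grad_zero fun h' => hz ((hφ n).2.2 h')
  have hv0 := a16_limOff hΩ.measurableSet hoff h.1 h.2.2.1
  have hG0 := a16_limOff hΩ.measurableSet hoff' h.2.1 h.2.2.2
  refine ⟨fun n => ⟨hχ.mul (hφ n).1, (hφ n).2.1.mul_left, ?_⟩, ?_, ?_, ?_, ?_⟩
  · refine fun z hz => hs ⟨?_, (hφ n).2.2 ?_⟩
    · exact (tsupport_mul_subset_left (f := χ) (g := φ n)) hz
    · exact (tsupport_mul_subset_right (f := χ) (g := φ n)) hz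
  · exact hχ.continuous.aestronglyMeasurable.mul h.1
  · exact (h.1.smul hgc.aestronglyMeasurable).add
      (hχ.continuous.aestronglyMeasurable.smul h.2.1)
  · refine a16m_tend (C := C) h.2.2.1 fun n => ?_
    apply eLpNorm_le_mul_eLpNorm_of_ae_le_mul
    filter_upwards [hv0] with z hz
    by_cases hzΩ : z ∈ Ω
    · rw [← mul_sub, norm_mul]
      exact mul_le_mul_of_nonneg_right (hC z (hD hzΩ)) (norm_nonneg _)
    · simp [hz hzΩ, hoff n z hzΩ]
  · have e : ∀ n, (fun z => gradient (fun z => χ z * φ n z) z -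
        (v z • gradient χ z + χ z • G z)) = (fun z => (φ n z - v z) • gradient χ z) +
          fun z => χ z • (gradient (φ n) z - G z) := by
      intro n
      funext z
      rw [a16_grad_mul (hχd z) (hφd n z)]
      simp only [Pi.add_apply]
      module
    have h1 : Tendsto (fun n => eLpNorm (fun z => (φ n z - v z) • gradient χ z) 2 volume)
        atTop (𝓝 0) := by
      refine a16m_tend (C := C') h.2.2.1 fun n => ?_
      apply eLpNorm_le_mul_eLpNorm_of_ae_le_mul
      filter_upwards [hv0] with z hz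
      by_cases hzΩ : z ∈ Ω
      · rw [norm_smul, mul_comm]
        exact mul_le_mul_of_nonneg_right (hC' z (hD hzΩ)) (norm_nonneg _)
      · simp [hz hzΩ, hoff n z hzΩ]
    have h2 : Tendsto (fun n => eLpNorm (fun z => χ z • (gradient (φ n) z - G z)) 2 volume)
        atTop (𝓝 0) := by
      refine a16m_tend (C := C) h.2.2.2 fun n => ?_
      apply eLpNorm_le_mul_eLpNorm_of_ae_le_mul
      filter_upwards [hG0] with z hz
      by_cases hzΩ : z ∈ Ω
      · rw [norm_smul]
        exact mul_le_mul_of_nonneg_right (hC z (hD hzΩ)) (norm_nonneg _)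
      · simp [hz hzΩ, hoff' n z hzΩ]
    have h3 := h1.add h2
    rw [add_zero] at h3
    refine tendsto_of_tendsto_of_tendsto_of_le_of_le tendsto_const_nhds h3 (fun _ => zero_le)
      fun n => ?_
    simp only
    rw [e n]
    refine eLpNorm_add_le ?_ ?_ (by norm_num)
    · exact (((hφ n).1.continuous.aestronglyMeasurable).sub h.1).smul hgc.aestronglyMeasurable
    · exact hχ.continuous.aestronglyMeasurable.smul
        ((a16_grad_cont (hφ n).1).aestronglyMeasurable.sub h.2.1)

theorem lim_off {Ω : Set ℂ} (hΩ : MeasurableSet Ω) {φ : ℕ → ℂ → ℝ} (hφ : ∀ n, Tst Ω (φ n))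
    {v : ℂ → ℝ} {G : ℂ → ℂ} (h : Lim φ v G) :
    MemLp v 2 volume ∧ MemLp G 2 volume ∧ ∀ᵐ z, z ∉ Ω → v z = 0 ∧ G z = 0 := by
  obtain ⟨hv, hG, h1, h2⟩ := h
  have m1 : ∀ n, MemLp (φ n) 2 volume := fun n => a16_memLp (hφ n).1 (hφ n).2.1
  have m2 : ∀ n, MemLp (gradient (φ n)) 2 volume := fun n => a16_memLp_grad (hφ n).1 (hφ n).2.1
  have z1 : ∀ n, ∀ z ∉ Ω, φ n z = 0 := fun n z hz =>
    image_eq_zero_of_notMem_tsupport fun h => hz ((hφ n).2.2 h)
  have z2 : ∀ n, ∀ z ∉ Ω, gradient (φ n) z = 0 := fun n z hz =>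
    a16_grad_zero fun h => hz ((hφ n).2.2 h)
  refine ⟨a16_limLp m1 hv h1, a16_limLp m2 hG h2, ?_⟩
  filter_upwards [a16_limOff hΩ z1 hv h1, a16_limOff hΩ z2 hG h2] with z h3 h4 hz
  exact ⟨h3 hz, h4 hz⟩

theorem chain_lim {Ω : Set ℂ} (hΩ : IsOpen Ω) {φ : ℕ → ℂ → ℝ} (hφ : ∀ n, Tst Ω (φ n))
    {v : ℂ → ℝ} {G : ℂ → ℂ} (h : Lim φ v G) {F : ℝ → ℝ} (hF : ContDiff ℝ ∞ F) (hF0 : F 0 = 0)
    {C : ℝ} (hC : ∀ t, |deriv F t| ≤ C) :
    (∀ n, Tst Ω (fun z => F (φ n z))) ∧
      Lim (fun n z => F (φ n z)) (fun z => F (v z)) (fun z => deriv F (v z) • G z) := by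
  obtain ⟨hv2, hG2, -⟩ := lim_off hΩ.measurableSet hφ h
  obtain ⟨hv, hG, h1, h2⟩ := h
  have hFc : Continuous F := hF.continuous
  have hFd : Continuous (deriv F) := hF.continuous_deriv (by simp)
  have hdiff : Differentiable ℝ F := hF.differentiable (by simp)
  have hC0 : 0 ≤ C := (abs_nonneg _).trans (hC 0)
  have lip : ∀ a b, |F a - F b| ≤ C * |a - b| := by
    intro a b
    have := Convex.norm_image_sub_le_of_norm_deriv_le (𝕜 := ℝ) (f := F) (C := C) (s := Set.univ)
      (fun x _ => hdiff x) (fun x _ => by simpa using hC x) convex_univ (mem_univ b) (mem_univ a)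
    simpa using this
  have gr : ∀ n z, gradient (fun z => F (φ n z)) z = deriv F (φ n z) • gradient (φ n) z :=
    fun n z => a16_grad_comp (hdiff _) (((hφ n).1.differentiable (by simp)) z)
  constructor
  · intro n
    have hs : tsupport (fun z => F (φ n z)) ⊆ tsupport (φ n) := by
      apply closure_mono
      intro z hz
      rw [Function.mem_support] at hz ⊢
      intro h0
      exact hz (by rw [h0, hF0])
    refine ⟨hF.comp (hφ n).1, ?_, hs.trans (hφ n).2.2⟩
    exact (hφ n).2.1.mono' (subset_tsupport _ |>.trans hs)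
  · refine ⟨hFc.comp_aestronglyMeasurable hv, (hFd.comp_aestronglyMeasurable hv).smul hG, ?_, ?_⟩
    · exact a16_squeeze (C := C) (fun n => Eventually.of_forall fun z => by
        simpa using lip (φ n z) (v z)) h1
    · have e : ∀ n, (fun z => gradient (fun z => F (φ n z)) z - deriv F (v z) • G z)
          = fun z => deriv F (φ n z) • (gradient (φ n) z - G z)
            + (deriv F (φ n z) - deriv F (v z)) • G z := by
        intro n
        funext z
        rw [gr n z, smul_sub, sub_smul]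
        abel
      simp_rw [e]
      have c1 : ∀ n, AEStronglyMeasurable (fun z => deriv F (φ n z)) volume := fun n =>
        (hFd.comp (hφ n).1.continuous).aestronglyMeasurable
      apply a16_add
      · exact fun n => (c1 n).smul ((a16_grad_cont (hφ n).1).aestronglyMeasurable.sub hG)
      · exact fun n => ((c1 n).sub (hFd.comp_aestronglyMeasurable hv)).smul hG
      · exact a16_squeeze (C := C) (fun n => Eventually.of_forall fun z => by
          rw [norm_smul]
          gcongr
          simpa using hC (φ n z)) h2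
      · exact a16_prod (fun n => (hφ n).1.continuous.aestronglyMeasurable) hv hG2 hFd hC h1

section trunc

/-- smooth cutoff of the derivative -/
noncomputable def a16_S (k : ℕ) (t : ℝ) : ℝ := Real.smoothTransition (k * t - 1)

/-- smooth truncation of the positive part -/
noncomputable def a16_F (k : ℕ) (t : ℝ) : ℝ := ∫ s in (0:ℝ)..t, a16_S k s

theorem a16_S_smooth (k : ℕ) : ContDiff ℝ ∞ (a16_S k) := by
  unfold a16_S
  exact Real.smoothTransition.contDiff.comp (by fun_prop)

theorem a16_S_cont (k : ℕ) : Continuous (a16_S k) := (a16_S_smooth k).continuous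

theorem a16_S_nonneg (k : ℕ) (t : ℝ) : 0 ≤ a16_S k t := Real.smoothTransition.nonneg _

theorem a16_S_le (k : ℕ) (t : ℝ) : a16_S k t ≤ 1 := Real.smoothTransition.le_one _

theorem a16_S_abs (k : ℕ) (t : ℝ) : |a16_S k t| ≤ 1 := by
  rw [abs_of_nonneg (a16_S_nonneg k t)]; exact a16_S_le k t

theorem a16_S_zero {k : ℕ} {t : ℝ} (h : k * t ≤ 1) : a16_S k t = 0 :=
  Real.smoothTransition.zero_of_nonpos (by linarith)

theorem a16_S_zero' {k : ℕ} {t : ℝ} (h : t ≤ 0) : a16_S k t = 0 := by
  apply a16_S_zero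
  have : (k:ℝ) * t ≤ 0 := mul_nonpos_of_nonneg_of_nonpos (Nat.cast_nonneg k) h
  linarith

theorem a16_S_one {k : ℕ} {t : ℝ} (h : 2 ≤ k * t) : a16_S k t = 1 :=
  Real.smoothTransition.one_of_one_le (by linarith)

theorem a16_F_hasDeriv (k : ℕ) (t : ℝ) : HasDerivAt (a16_F k) (a16_S k t) t :=
  ((a16_S_cont k).integral_hasStrictDerivAt 0 t).hasDerivAt

theorem a16_F_deriv (k : ℕ) : deriv (a16_F k) = a16_S k :=
  funext fun t => (a16_F_hasDeriv k t).deriv

theorem a16_F_smooth (k : ℕ) : ContDiff ℝ ∞ (a16_F k) := by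
  rw [contDiff_infty_iff_deriv]
  refine ⟨fun t => (a16_F_hasDeriv k t).differentiableAt, ?_⟩
  rw [a16_F_deriv]
  exact a16_S_smooth k

theorem a16_F_at_zero (k : ℕ) : a16_F k 0 = 0 := by simp [a16_F]

theorem a16_F_zero {k : ℕ} {t : ℝ} (h : k * t ≤ 1) : a16_F k t = 0 := by
  unfold a16_F
  rw [intervalIntegral.integral_congr (g := fun _ => 0), intervalIntegral.integral_zero]
  intro s hs
  apply a16_S_zero
  rcases le_total 0 t with h0 | h0
  · rw [uIcc_of_le h0] at hs
    have : (k:ℝ) * s ≤ k * t := mul_le_mul_of_nonneg_left hs.2 (Nat.cast_nonneg k)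
    linarith
  · rw [uIcc_of_ge h0] at hs
    have : (k:ℝ) * s ≤ 0 := mul_nonpos_of_nonneg_of_nonpos (Nat.cast_nonneg k) hs.2
    linarith

theorem a16_F_zero' {k : ℕ} {t : ℝ} (h : t ≤ 0) : a16_F k t = 0 := by
  apply a16_F_zero
  have : (k:ℝ) * t ≤ 0 := mul_nonpos_of_nonneg_of_nonpos (Nat.cast_nonneg k) h
  linarith

theorem a16_F_nonneg (k : ℕ) (t : ℝ) : 0 ≤ a16_F k t := by
  rcases le_total t 0 with h | h
  · rw [a16_F_zero' h]
  · exact intervalIntegral.integral_nonneg h fun s _ => a16_S_nonneg k s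

theorem a16_F_le {k : ℕ} {t : ℝ} (h : 0 ≤ t) : a16_F k t ≤ t := by
  unfold a16_F
  calc ∫ s in (0:ℝ)..t, a16_S k s ≤ ∫ s in (0:ℝ)..t, (1:ℝ) :=
        intervalIntegral.integral_mono_on h ((a16_S_cont k).intervalIntegrable _ _)
          (by simp) fun s _ => a16_S_le k s
    _ = t := by simp

theorem a16_F_le' (k : ℕ) (t : ℝ) : a16_F k t ≤ max t 0 := by
  rcases le_total t 0 with h | h
  · rw [a16_F_zero' h]; exact le_max_right _ _
  · exact (a16_F_le h).trans (le_max_left _ _)

theorem a16_F_close {k : ℕ} (hk : 0 < k) (t : ℝ) : |a16_F k t - max t 0| ≤ 2 / k := by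
  have hk' : (0:ℝ) < k := Nat.cast_pos.mpr hk
  have hp : (0:ℝ) < 2 / k := by positivity
  rcases le_total t 0 with h | h
  · rw [a16_F_zero' h, max_eq_right h]; simp; positivity
  · rw [max_eq_left h]
    have key : ∀ t, 0 ≤ t → t - 2 / k ≤ a16_F k t := by
      intro t ht
      rcases le_total t (2 / k) with h1 | h1
      · linarith [a16_F_nonneg k t]
      · have h2 : a16_F k t = a16_F k (2 / k) + ∫ s in (2 / k)..t, a16_S k s := by
          unfold a16_F
          rw [intervalIntegral.integral_add_adjacent_intervals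
            ((a16_S_cont k).intervalIntegrable _ _) ((a16_S_cont k).intervalIntegrable _ _)]
        have h3 : ∫ s in (2 / (k:ℝ))..t, a16_S k s = t - 2 / k := by
          rw [intervalIntegral.integral_congr (g := fun _ => 1)]
          · simp
          · intro s hs
            rw [uIcc_of_le h1] at hs
            apply a16_S_one
            have := mul_le_mul_of_nonneg_left hs.1 hk'.le
            rwa [mul_div_cancel₀ _ hk'.ne'] at this
        rw [h2, h3]
        linarith [a16_F_nonneg k (2 / k)]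
    rw [abs_le]
    constructor
    · linarith [key t h]
    · linarith [a16_F_le (k := k) h]

theorem a16_S_lim (t : ℝ) :
    Tendsto (fun k : ℕ => a16_S k t) atTop (𝓝 (if 0 < t then 1 else 0)) := by
  split_ifs with h
  · apply tendsto_const_nhds.congr'
    have h1 : Tendsto (fun k : ℕ => (k:ℝ) * t) atTop atTop :=
      tendsto_natCast_atTop_atTop.atTop_mul_const h
    filter_upwards [h1.eventually_ge_atTop 2] with k hk
    exact (a16_S_one hk).symm
  · apply tendsto_const_nhds.congr
    intro k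
    exact (a16_S_zero' (not_lt.mp h)).symm

theorem a16_F_lim (t : ℝ) : Tendsto (fun k : ℕ => a16_F k t - max t 0) atTop (𝓝 0) := by
  have h1 : Tendsto (fun k : ℕ => 2 / (k:ℝ)) atTop (𝓝 0) :=
    tendsto_const_nhds.div_atTop tendsto_natCast_atTop_atTop
  apply squeeze_zero_norm' _ h1
  filter_upwards [eventually_gt_atTop 0] with k hk
  exact a16_F_close hk t

/-- extension by zero of a smooth function of a smooth function -/
theorem a16_ext {Ω K : Set ℂ} (hΩ : IsOpen Ω) (hK : IsCompact K) (hKΩ : K ⊆ Ω) {f : ℂ → ℝ}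
    (hf : ContDiffOn ℝ ∞ f Ω) {F : ℝ → ℝ} (hF : ContDiff ℝ ∞ F)
    (h0 : ∀ z ∈ Ω, z ∉ K → F (f z) = 0) :
    Tst Ω (indicator Ω fun z => F (f z)) ∧
      ∀ z, gradient (indicator Ω fun z => F (f z)) z
        = indicator Ω (fun z => deriv F (f z) • gradient f z) z := by
  set g := indicator Ω fun z => F (f z) with hg
  have e1 : ∀ z ∈ Ω, g =ᶠ[𝓝 z] fun z => F (f z) := by
    intro z hz
    filter_upwards [hΩ.mem_nhds hz] with x hx
    rw [hg, indicator_of_mem hx]
  have e2 : ∀ z ∉ K, g =ᶠ[𝓝 z] fun _ => 0 := by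
    intro z hz
    filter_upwards [hK.isClosed.isOpen_compl.mem_nhds hz] with x hx
    by_cases hx' : x ∈ Ω
    · rw [hg, indicator_of_mem hx']; exact h0 x hx' hx
    · rw [hg, indicator_of_notMem hx']
  have hsup : Function.support g ⊆ K := by
    intro z hz
    by_contra hz'
    exact hz ((e2 z hz').self_of_nhds)
  have hts : tsupport g ⊆ K := closure_minimal hsup hK.isClosed
  constructor
  · refine ⟨contDiff_iff_contDiffAt.mpr fun z => ?_, ?_, hts.trans hKΩ⟩
    · by_cases hz : z ∈ Ω
      · have h1 : ContDiffAt ℝ ∞ f z := hf.contDiffAt (hΩ.mem_nhds hz)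
        exact (hF.contDiffAt.comp z h1).congr_of_eventuallyEq (e1 z hz)
      · exact contDiffAt_const.congr_of_eventuallyEq (e2 z fun h => hz (hKΩ h))
    · exact HasCompactSupport.intro hK fun z hz => (e2 z hz).self_of_nhds
  · intro z
    by_cases hz : z ∈ Ω
    · rw [indicator_of_mem hz, (e1 z hz).gradient_eq]
      exact a16_grad_comp (hF.differentiable (by simp) _)
        ((hf.contDiffAt (hΩ.mem_nhds hz)).differentiableAt (by simp))
    · rw [indicator_of_notMem hz, a16_grad_zero fun h => hz (hKΩ (hts h))]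

end trunc

section limits

/-- diagonal sequence -/
theorem a16_diag {P : (ℂ → ℝ) → Prop} {χ : ℕ → ℕ → ℂ → ℝ} {v : ℕ → ℂ → ℝ} {G : ℕ → ℂ → ℂ}
    {v' : ℂ → ℝ} {G' : ℂ → ℂ} (hc : ∀ k n, ContDiff ℝ ∞ (χ k n)) (hP : ∀ k n, P (χ k n))
    (hL : ∀ k, Lim (χ k) (v k) (G k)) (hv : AEStronglyMeasurable v' volume)
    (hG : AEStronglyMeasurable G' volume)
    (h1 : Tendsto (fun k => eLpNorm (fun z => v k z - v' z) 2 volume) atTop (𝓝 0))
    (h2 : Tendsto (fun k => eLpNorm (fun z => G k z - G' z) 2 volume) atTop (𝓝 0)) :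
    ∃ χ' : ℕ → ℂ → ℝ, (∀ k, P (χ' k)) ∧ (∀ k, ∃ n, χ' k = χ k n) ∧ Lim χ' v' G' := by
  have h3 : ∀ k : ℕ, ∃ n, eLpNorm (fun z => χ k n z - v k z) 2 volume ≤ ((k:ENNReal) + 1)⁻¹ ∧
      eLpNorm (fun z => gradient (χ k n) z - G k z) 2 volume ≤ ((k:ENNReal) + 1)⁻¹ := by
    intro k
    have hp : (0:ENNReal) < ((k:ENNReal) + 1)⁻¹ := by
      simp
    obtain ⟨_, _, a, b⟩ := hL k
    exact ((a.eventually (ge_mem_nhds hp)).and (b.eventually (ge_mem_nhds hp))).exists
  choose n hn1 hn2 using h3
  have h4 : Tendsto (fun k : ℕ => ((k:ENNReal) + 1)⁻¹) atTop (𝓝 0) := by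
    have := ENNReal.tendsto_inv_nat_nhds_zero
    have := (tendsto_add_atTop_iff_nat 1).mpr this
    simpa using this
  refine ⟨fun k => χ k (n k), fun k => hP k (n k), fun k => ⟨n k, rfl⟩, hv, hG, ?_, ?_⟩
  · have e : (fun k => eLpNorm (fun z => χ k (n k) z - v' z) 2 volume)
        = fun k => eLpNorm (fun z => (χ k (n k) z - v k z) + (v k z - v' z)) 2 volume := by
      funext k; congr 1; funext z; ring
    rw [e]
    apply a16_add
    · exact fun k => (hc k (n k)).continuous.aestronglyMeasurable.sub (hL k).1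
    · exact fun k => (hL k).1.sub hv
    · exact tendsto_of_tendsto_of_tendsto_of_le_of_le tendsto_const_nhds h4 (fun _ => bot_le) hn1
    · exact h1
  · have e : (fun k => eLpNorm (fun z => gradient (χ k (n k)) z - G' z) 2 volume)
        = fun k => eLpNorm (fun z => (gradient (χ k (n k)) z - G k z) + (G k z - G' z)) 2
          volume := by
      funext k; congr 1; funext z; abel
    rw [e]
    apply a16_add
    · exact fun k => (a16_grad_cont (hc k (n k))).aestronglyMeasurable.sub (hL k).2.1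
    · exact fun k => (hL k).2.1.sub hG
    · exact tendsto_of_tendsto_of_tendsto_of_le_of_le tendsto_const_nhds h4 (fun _ => bot_le) hn2
    · exact h2

theorem a16_congr {φ : ℕ → ℂ → ℝ} {v v' : ℂ → ℝ} {G G' : ℂ → ℂ} (h : Lim φ v G)
    (hv : v =ᵐ[volume] v') (hG : G =ᵐ[volume] G') : Lim φ v' G' := by
  obtain ⟨a, b, c, d⟩ := h
  refine ⟨a.congr hv, b.congr hG, c.congr fun n => ?_, d.congr fun n => ?_⟩
  · apply eLpNorm_congr_ae
    filter_upwards [hv] with z hz
    rw [hz]
  · apply eLpNorm_congr_ae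
    filter_upwards [hG] with z hz
    rw [hz]

/-- limits of nonnegative functions are nonnegative -/
theorem a16_limNonneg {f : ℕ → ℂ → ℝ} {g : ℂ → ℝ} (hf : ∀ n z, 0 ≤ f n z)
    (hfm : ∀ n, AEStronglyMeasurable (f n) volume) (hg : AEStronglyMeasurable g volume)
    (h : Tendsto (fun n => eLpNorm (fun z => f n z - g z) 2 volume) atTop (𝓝 0)) :
    ∀ᵐ z, 0 ≤ g z := by
  have hm : TendstoInMeasure volume f atTop g :=
    tendstoInMeasure_of_tendsto_eLpNorm (p := 2) (by norm_num) hfm hg h
  obtain ⟨ms, _, hms⟩ := hm.exists_seq_tendsto_ae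
  filter_upwards [hms] with z hz
  exact ge_of_tendsto' hz fun n => hf _ z

/-- one step: truncation at level `k` -/
theorem a16_step {sn : ℕ → ℂ → ℝ} {Hn : ℕ → ℂ → ℂ} {s : ℂ → ℝ} {H : ℂ → ℂ} (k : ℕ)
    (hsn : ∀ n, AEStronglyMeasurable (sn n) volume) (hs : AEStronglyMeasurable s volume)
    (hHn : ∀ n, AEStronglyMeasurable (Hn n) volume) (hH : MemLp H 2 volume)
    (h1 : Tendsto (fun n => eLpNorm (fun z => sn n z - s z) 2 volume) atTop (𝓝 0))
    (h2 : Tendsto (fun n => eLpNorm (fun z => Hn n z - H z) 2 volume) atTop (𝓝 0)) :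
    Tendsto (fun n => eLpNorm (fun z => a16_F k (sn n z) - a16_F k (s z)) 2 volume) atTop (𝓝 0) ∧
    Tendsto (fun n => eLpNorm (fun z => a16_S k (sn n z) • Hn n z - a16_S k (s z) • H z) 2 volume)
      atTop (𝓝 0) := by
  have lip : ∀ a b, |a16_F k a - a16_F k b| ≤ 1 * |a - b| := by
    intro a b
    have := Convex.norm_image_sub_le_of_norm_deriv_le (𝕜 := ℝ) (f := a16_F k) (C := 1)
      (s := Set.univ) (fun x _ => (a16_F_hasDeriv k x).differentiableAt)
      (fun x _ => by rw [a16_F_deriv]; exact a16_S_abs k x) convex_univ (mem_univ b) (mem_univ a)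
    simpa using this
  constructor
  · exact a16_squeeze (C := 1) (fun n => Eventually.of_forall fun z => lip (sn n z) (s z)) h1
  · have e : ∀ n, (fun z => a16_S k (sn n z) • Hn n z - a16_S k (s z) • H z)
        = fun z => a16_S k (sn n z) • (Hn n z - H z) + (a16_S k (sn n z) - a16_S k (s z)) • H z := by
      intro n
      funext z
      rw [smul_sub, sub_smul]
      abel
    simp_rw [e]
    have hSc := a16_S_cont k
    apply a16_add
    · exact fun n => (hSc.comp_aestronglyMeasurable (hsn n)).smul ((hHn n).sub hH.1)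
    · exact fun n => ((hSc.comp_aestronglyMeasurable (hsn n)).sub
        (hSc.comp_aestronglyMeasurable hs)).smul hH.1
    · exact a16_squeeze (C := 1) (fun n => Eventually.of_forall fun z => by
        rw [norm_smul]
        gcongr
        exact a16_S_abs k _) h2
    · exact a16_prod hsn hs hH hSc (a16_S_abs k) h1

/-- the limit `k → ∞` -/
theorem a16_toPos {s b : ℂ → ℝ} {H : ℂ → ℂ} (hs : AEStronglyMeasurable s volume)
    (hb : MemLp b 2 volume) (hsb : ∀ᵐ z, max (s z) 0 ≤ b z) (hH : MemLp H 2 volume) :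
    Tendsto (fun k => eLpNorm (fun z => a16_F k (s z) - max (s z) 0) 2 volume) atTop (𝓝 0) ∧
    Tendsto (fun k => eLpNorm (fun z => a16_S k (s z) • H z
      - (if 0 < s z then (1:ℝ) else 0) • H z) 2 volume) atTop (𝓝 0) := by
  have hms : AEStronglyMeasurable (fun z => max (s z) 0) volume :=
    (continuous_id.max continuous_const).comp_aestronglyMeasurable hs
  have hmi : AEStronglyMeasurable (fun z => (if 0 < s z then (1:ℝ) else 0)) volume := by
    have : Measurable fun t : ℝ => (if 0 < t then (1:ℝ) else 0) :=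
      Measurable.ite measurableSet_Ioi measurable_const measurable_const
    exact (this.comp_aemeasurable hs.aemeasurable).aestronglyMeasurable
  constructor
  · apply a16_dom (b := b)
    · exact fun k => ((a16_F_smooth k).continuous.comp_aestronglyMeasurable hs).sub hms
    · exact hb
    · intro k
      filter_upwards [hsb] with z hz
      refine le_trans ?_ hz
      rw [Real.norm_eq_abs, abs_le]
      have h1 := a16_F_nonneg k (s z)
      have h2 := a16_F_le' k (s z)
      have h3 : 0 ≤ max (s z) 0 := le_max_right _ _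
      constructor <;> linarith
    · exact Eventually.of_forall fun z => a16_F_lim (s z)
  · apply a16_dom (b := fun z => 1 * ‖H z‖)
    · exact fun k => (((a16_S_cont k).comp_aestronglyMeasurable hs).smul hH.1).sub
        (hmi.smul hH.1)
    · exact hH.norm.const_mul _
    · intro k
      refine Eventually.of_forall fun z => ?_
      rw [← sub_smul, norm_smul]
      gcongr
      rw [Real.norm_eq_abs, abs_le]
      have h1 := a16_S_nonneg k (s z)
      have h2 := a16_S_le k (s z)
      split_ifs <;> constructor <;> linarith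
    · refine Eventually.of_forall fun z => ?_
      have h1 := ((a16_S_lim (s z)).sub_const (if 0 < s z then (1:ℝ) else 0)).smul_const (H z)
      simpa [sub_smul] using h1

end limits

theorem pos_lim {Ω : Set ℂ} (hΩ : IsOpen Ω) (hD : Ω ⊆ DD) {φ ζ : ℕ → ℂ → ℝ}
    (hφ : ∀ n, Tst Ω (φ n)) (hζ : ∀ n, Tst DD (ζ n) ∧ ∀ z, 0 ≤ ζ n z)
    {v w : ℂ → ℝ} {G K : ℂ → ℂ} (h : Lim φ v G) (h' : Lim ζ w K)
    {ψ : ℂ → ℝ} (hψ : ContDiffOn ℝ ∞ ψ Ω) (hψ0 : ∀ z ∈ Ω, 0 ≤ ψ z)
    (hψg : IntegrableOn (fun z => ‖gradient ψ z‖ ^ 2) Ω) :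
    ∃ χ : ℕ → ℂ → ℝ, (∀ n, Tst Ω (χ n) ∧ ∀ z, 0 ≤ χ n z) ∧
      Lim χ (fun z => indicator Ω (fun z => max (v z - w z - ψ z) 0) z)
        (fun z => indicator (Ω ∩ {z | ψ z < v z - w z}) (fun z => G z - K z - gradient ψ z) z) ∧
      ((∀ n, Rot (φ n)) → (∀ n, Rot (ζ n)) → (∀ z ∈ Ω, I * z ∈ Ω ∧ ψ (I * z) = ψ z) →
        ∀ n, Rot (χ n)) ∧
      ((∀ n, Cnj (φ n)) → (∀ n, Cnj (ζ n)) →
        (∀ z ∈ Ω, starRingEnd ℂ z ∈ Ω ∧ ψ (starRingEnd ℂ z) = ψ z) → ∀ n, Cnj (χ n)) := by
  have hmΩ := hΩ.measurableSet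
  have hDo : IsOpen DD := by
    have : DD = {z : ℂ | |z.re| < 1} ∩ {z : ℂ | |z.im| < 1} := rfl
    rw [this]
    exact (isOpen_lt (by fun_prop) continuous_const).inter (isOpen_lt (by fun_prop) continuous_const)
  obtain ⟨hv2, hG2, hoff⟩ := lim_off hmΩ hφ h
  obtain ⟨hw2, hK2, hoff'⟩ := lim_off hDo.measurableSet (fun n => (hζ n).1) h'
  have hw0 : ∀ᵐ z, 0 ≤ w z := a16_limNonneg (fun n z => (hζ n).2 z)
    (fun n => (hζ n).1.1.continuous.aestronglyMeasurable) h'.1 h'.2.2.1
  -- the barrier, extended by zero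
  set p : ℂ → ℝ := indicator Ω ψ with hp
  set g : ℂ → ℂ := indicator Ω (gradient ψ) with hg
  have hpm : AEStronglyMeasurable p volume := by
    rw [hp, aestronglyMeasurable_indicator_iff hmΩ]
    exact hψ.continuousOn.aestronglyMeasurable hmΩ
  have hgc : ContinuousOn (gradient ψ) Ω := by
    have h1 : ContinuousOn (fderiv ℝ ψ) Ω := hψ.continuousOn_fderiv_of_isOpen hΩ (by simp)
    exact (InnerProductSpace.toDual ℝ ℂ).symm.continuous.comp_continuousOn h1
  have hgm : AEStronglyMeasurable g volume := by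
    rw [hg, aestronglyMeasurable_indicator_iff hmΩ]
    exact hgc.aestronglyMeasurable hmΩ
  have hg2 : MemLp g 2 volume := by
    rw [hg, memLp_indicator_iff_restrict hmΩ]
    rw [memLp_two_iff_integrable_sq_norm (hgc.aestronglyMeasurable hmΩ)]
    exact hψg
  have hp0 : ∀ z, 0 ≤ p z := fun z => by
    by_cases hz : z ∈ Ω
    · rw [hp, indicator_of_mem hz]; exact hψ0 z hz
    · rw [hp, indicator_of_notMem hz]
  -- sequences
  set sn : ℕ → ℂ → ℝ := fun n z => φ n z - ζ n z - p z with hsn
  set Hn : ℕ → ℂ → ℂ := fun n z => gradient (φ n) z - gradient (ζ n) z - g z with hHn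
  set s : ℂ → ℝ := fun z => v z - w z - p z with hs
  set H : ℂ → ℂ := fun z => G z - K z - g z with hH
  have m1 : ∀ n, AEStronglyMeasurable (sn n) volume := fun n =>
    ((hφ n).1.continuous.aestronglyMeasurable.sub
      (hζ n).1.1.continuous.aestronglyMeasurable).sub hpm
  have m2 : AEStronglyMeasurable s volume := (hv2.1.sub hw2.1).sub hpm
  have m3 : ∀ n, AEStronglyMeasurable (Hn n) volume := fun n =>
    ((a16_grad_cont (hφ n).1).aestronglyMeasurable.sub
      (a16_grad_cont (hζ n).1.1).aestronglyMeasurable).sub hgm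
  have m4 : MemLp H 2 volume := (hG2.sub hK2).sub hg2
  have t1 : Tendsto (fun n => eLpNorm (fun z => sn n z - s z) 2 volume) atTop (𝓝 0) := by
    have e : (fun n => eLpNorm (fun z => sn n z - s z) 2 volume)
        = fun n => eLpNorm (fun z => (φ n z - v z) + -(ζ n z - w z)) 2 volume := by
      funext n; congr 1; funext z; simp only [hsn, hs]; ring
    rw [e]
    apply a16_add
    · exact fun n => (hφ n).1.continuous.aestronglyMeasurable.sub hv2.1
    · exact fun n => ((hζ n).1.1.continuous.aestronglyMeasurable.sub hw2.1).neg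
    · exact h.2.2.1
    · have := h'.2.2.1
      refine this.congr fun n => ?_
      exact (eLpNorm_neg (fun z => ζ n z - w z) 2 volume).symm
  have t2 : Tendsto (fun n => eLpNorm (fun z => Hn n z - H z) 2 volume) atTop (𝓝 0) := by
    have e : (fun n => eLpNorm (fun z => Hn n z - H z) 2 volume)
        = fun n => eLpNorm (fun z => (gradient (φ n) z - G z) + -(gradient (ζ n) z - K z)) 2
          volume := by
      funext n; congr 1; funext z; simp only [hHn, hH]; abel
    rw [e]
    apply a16_add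
    · exact fun n => (a16_grad_cont (hφ n).1).aestronglyMeasurable.sub hG2.1
    · exact fun n => ((a16_grad_cont (hζ n).1.1).aestronglyMeasurable.sub hK2.1).neg
    · exact h.2.2.2
    · have := h'.2.2.2
      refine this.congr fun n => ?_
      exact (eLpNorm_neg (fun z => gradient (ζ n) z - K z) 2 volume).symm
  -- the truncated functions
  set X : ℕ → ℕ → ℂ → ℝ := fun k n => indicator Ω fun z => a16_F k (φ n z - ζ n z - ψ z) with hX
  have hext : ∀ k n, Tst Ω (X k n) ∧ ∀ z, gradient (X k n) z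
      = indicator Ω (fun z => deriv (a16_F k) (φ n z - ζ n z - ψ z) •
        gradient (fun z => φ n z - ζ n z - ψ z) z) z := by
    intro k n
    refine a16_ext hΩ (hφ n).2.1.isCompact (hφ n).2.2 (f := fun z => φ n z - ζ n z - ψ z) ?_
      (a16_F_smooth k) ?_
    · exact ((hφ n).1.contDiffOn.sub (hζ n).1.1.contDiffOn).sub hψ
    · intro z hz hz'
      apply a16_F_zero'
      have h1 : φ n z = 0 := image_eq_zero_of_notMem_tsupport hz'
      have h2 := (hζ n).2 z
      have h3 := hψ0 z hz
      rw [h1]; linarith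
  have hXF : ∀ k n z, X k n z = a16_F k (sn n z) := by
    intro k n z
    by_cases hz : z ∈ Ω
    · simp only [hX, hsn, hp, indicator_of_mem hz]
    · simp only [hX, hsn, hp, indicator_of_notMem hz]
      have h1 : φ n z = 0 := image_eq_zero_of_notMem_tsupport fun h => hz ((hφ n).2.2 h)
      have h2 := (hζ n).2 z
      rw [h1, a16_F_zero' (by linarith)]
  have hXS : ∀ k n z, gradient (X k n) z = a16_S k (sn n z) • Hn n z := by
    intro k n z
    rw [(hext k n).2 z]
    by_cases hz : z ∈ Ω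
    · have d1 : DifferentiableAt ℝ (φ n) z := (hφ n).1.differentiable (by simp) z
      have d2 : DifferentiableAt ℝ (ζ n) z := (hζ n).1.1.differentiable (by simp) z
      have d3 : DifferentiableAt ℝ ψ z :=
        (hψ.contDiffAt (hΩ.mem_nhds hz)).differentiableAt (by simp)
      have e1 : gradient (fun z => φ n z - ζ n z - ψ z) z
          = gradient (φ n) z - gradient (ζ n) z - gradient ψ z := by
        rw [a16_grad_sub (f := fun z => φ n z - ζ n z) (d1.sub d2) d3, a16_grad_sub d1 d2]
      simp only [hsn, hHn, hp, hg, indicator_of_mem hz]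
      rw [a16_F_deriv, e1]
    · simp only [hsn, hHn, hp, hg, indicator_of_notMem hz]
      have h1 : φ n z = 0 := image_eq_zero_of_notMem_tsupport fun h => hz ((hφ n).2.2 h)
      have h2 := (hζ n).2 z
      rw [h1, a16_S_zero' (by linarith), zero_smul]
  have hL : ∀ k, Lim (X k) (fun z => a16_F k (s z)) (fun z => a16_S k (s z) • H z) := by
    intro k
    obtain ⟨u1, u2⟩ := a16_step k m1 m2 m3 m4 t1 t2
    refine ⟨(a16_F_smooth k).continuous.comp_aestronglyMeasurable m2,
      ((a16_S_cont k).comp_aestronglyMeasurable m2).smul m4.1, ?_, ?_⟩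
    · refine u1.congr fun n => ?_
      congr 1; funext z; rw [hXF]
    · refine u2.congr fun n => ?_
      congr 1; funext z; rw [hXS]
  have hsb : ∀ᵐ z, max (s z) 0 ≤ ‖v z‖ := by
    filter_upwards [hw0] with z hz
    have h1 := hp0 z
    have h2 := le_abs_self (v z)
    rw [Real.norm_eq_abs]
    apply max_le _ (abs_nonneg _)
    simp only [hs]; linarith
  obtain ⟨l1, l2⟩ := a16_toPos m2 hv2.norm hsb m4
  have hms : AEStronglyMeasurable (fun z => max (s z) 0) volume :=
    (continuous_id.max continuous_const).comp_aestronglyMeasurable m2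
  have hmi : AEStronglyMeasurable (fun z => (if 0 < s z then (1:ℝ) else 0)) volume := by
    have : Measurable fun t : ℝ => (if 0 < t then (1:ℝ) else 0) :=
      Measurable.ite measurableSet_Ioi measurable_const measurable_const
    exact (this.comp_aemeasurable m2.aemeasurable).aestronglyMeasurable
  obtain ⟨χ, hχ1, hχ2, hχ3⟩ := a16_diag (P := fun χ => Tst Ω χ ∧ ∀ z, 0 ≤ χ z)
    (fun k n => (hext k n).1.1) (fun k n => ⟨(hext k n).1, fun z => by
      rw [hXF]; exact a16_F_nonneg k _⟩) hL hms (hmi.smul m4.1) l1 l2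
  have hneg : ∀ᵐ z, z ∉ Ω → s z ≤ 0 := by
    filter_upwards [hoff, hw0] with z h1 h2 hz
    simp only [hs, hp, indicator_of_notMem hz]
    rw [(h1 hz).1]; linarith
  refine ⟨χ, hχ1, ?_, ?_, ?_⟩
  · apply a16_congr hχ3
    · filter_upwards [hneg] with z hz
      by_cases hz' : z ∈ Ω
      · simp only [hs, hp, indicator_of_mem hz']
      · rw [indicator_of_notMem hz', max_eq_right (hz hz')]
    · filter_upwards [hneg] with z hz
      by_cases hz' : z ∈ Ω
      · by_cases hlt : ψ z < v z - w z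
        · have hmem : z ∈ Ω ∩ {z | ψ z < v z - w z} := ⟨hz', hlt⟩
          have hpos : 0 < s z := by simp only [hs, hp, indicator_of_mem hz']; linarith
          simp only [Pi.smul_apply', if_pos hpos, indicator_of_mem hmem, one_smul]
          simp only [hH, hg, indicator_of_mem hz']
        · have hmem : z ∉ Ω ∩ {z | ψ z < v z - w z} := fun h => hlt h.2
          have hpos : ¬ 0 < s z := by simp only [hs, hp, indicator_of_mem hz']; linarith
          simp only [Pi.smul_apply', if_neg hpos, indicator_of_notMem hmem, zero_smul]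
      · have hmem : z ∉ Ω ∩ {z | ψ z < v z - w z} := fun h => hz' h.1
        have hpos : ¬ 0 < s z := not_lt.mpr (hz hz')
        simp only [Pi.smul_apply', if_neg hpos, indicator_of_notMem hmem, zero_smul]
  · intro r1 r2 r3 k z
    obtain ⟨n, hn⟩ := hχ2 k
    rw [hn]
    by_cases hz : z ∈ Ω
    · simp only [hX, indicator_of_mem hz, indicator_of_mem (r3 z hz).1]
      rw [r1 n z, r2 n z, (r3 z hz).2]
    · have hz' : I * z ∉ Ω := by
        intro h4
        have h5 := (r3 _ (r3 _ (r3 _ h4).1).1).1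
        have e : I * (I * (I * (I * z))) = z := by
          rw [← mul_assoc, ← mul_assoc, ← mul_assoc]
          simp
        rw [e] at h5
        exact hz h5
      simp only [hX, indicator_of_notMem hz, indicator_of_notMem hz']
  · intro r1 r2 r3 k z
    obtain ⟨n, hn⟩ := hχ2 k
    rw [hn]
    by_cases hz : z ∈ Ω
    · simp only [hX, indicator_of_mem hz, indicator_of_mem (r3 z hz).1]
      rw [r1 n z, r2 n z, (r3 z hz).2]
    · have hz' : starRingEnd ℂ z ∉ Ω := by
        intro h4
        have h5 := (r3 _ h4).1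
        rw [Complex.conj_conj] at h5
        exact hz h5
      simp only [hX, indicator_of_notMem hz, indicator_of_notMem hz']

/-- functions smooth in `Ω`, small near the boundary of `Ω`, with finite Dirichlet integral, nonzero
almost everywhere; `F n` are smooth odd truncations -/
theorem vanish_lim {Ω : Set ℂ} (hΩ : IsOpen Ω) (hD : Ω ⊆ DD) {ψ : ℂ → ℝ}
    (hψ : ContDiffOn ℝ ∞ ψ Ω) (hc : ∀ ε > 0, IsCompact {z ∈ Ω | ε ≤ |ψ z|})
    (hψg : IntegrableOn (fun z => ‖gradient ψ z‖ ^ 2) Ω) (h0 : volume {z ∈ Ω | ψ z = 0} = 0) :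
    ∃ F : ℕ → ℝ → ℝ, (∀ n t, F n (-t) = - F n t) ∧
      (∀ n, Tst Ω (indicator Ω (fun z => F n (ψ z)))) ∧
      Lim (fun n => indicator Ω (fun z => F n (ψ z))) (indicator Ω ψ)
        (indicator Ω (gradient ψ)) := by
  have hmΩ := hΩ.measurableSet
  set F : ℕ → ℝ → ℝ := fun n t => a16_F (n + 1) t - a16_F (n + 1) (-t) with hF
  have hFs : ∀ n, ContDiff ℝ ∞ (F n) := fun n =>
    (a16_F_smooth (n + 1)).sub ((a16_F_smooth (n + 1)).comp contDiff_neg)
  have hFd : ∀ n t, deriv (F n) t = a16_S (n + 1) t + a16_S (n + 1) (-t) := by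
    intro n t
    have h1 := a16_F_hasDeriv (n + 1) t
    have h2 : HasDerivAt (fun t => a16_F (n + 1) (-t)) (a16_S (n + 1) (-t) * (-1)) t :=
      (a16_F_hasDeriv (n + 1) (-t)).comp t (hasDerivAt_neg t)
    have h3 : HasDerivAt (F n) (a16_S (n + 1) t - a16_S (n + 1) (-t) * (-1)) t := h1.sub h2
    rw [h3.deriv]
    ring
  have hz : ∀ (n : ℕ) z, z ∈ Ω → z ∉ {z ∈ Ω | 1 / ((n:ℝ) + 1) ≤ |ψ z|} → F n (ψ z) = 0 := by
    intro n z hz hz'
    have h1 : |ψ z| < 1 / ((n:ℝ) + 1) := by
      by_contra h2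
      exact hz' ⟨hz, not_lt.mp h2⟩
    have hn : (0:ℝ) < (n:ℝ) + 1 := by positivity
    rw [lt_div_iff₀ hn] at h1
    have h2 : (((n + 1 : ℕ)) : ℝ) * ψ z ≤ 1 := by
      push_cast
      nlinarith [le_abs_self (ψ z)]
    have h3 : (((n + 1 : ℕ)) : ℝ) * (-ψ z) ≤ 1 := by
      push_cast
      nlinarith [neg_abs_le (ψ z)]
    simp only [hF]
    rw [a16_F_zero h2, a16_F_zero h3, sub_zero]
  have hext : ∀ n, Tst Ω (indicator Ω fun z => F n (ψ z)) ∧
      ∀ z, gradient (indicator Ω fun z => F n (ψ z)) z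
        = indicator Ω (fun z => deriv (F n) (ψ z) • gradient ψ z) z := fun n =>
    a16_ext hΩ (hc _ (by positivity)) (fun z hz => hz.1) hψ (hFs n) (hz n)
  have hpm : AEStronglyMeasurable (indicator Ω ψ) volume := by
    rw [aestronglyMeasurable_indicator_iff hmΩ]
    exact hψ.continuousOn.aestronglyMeasurable hmΩ
  have hgc : ContinuousOn (gradient ψ) Ω := by
    have h1 : ContinuousOn (fderiv ℝ ψ) Ω := hψ.continuousOn_fderiv_of_isOpen hΩ (by simp)
    exact (InnerProductSpace.toDual ℝ ℂ).symm.continuous.comp_continuousOn h1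
  have hgm : AEStronglyMeasurable (indicator Ω (gradient ψ)) volume := by
    rw [aestronglyMeasurable_indicator_iff hmΩ]
    exact hgc.aestronglyMeasurable hmΩ
  have hg2 : MemLp (indicator Ω (gradient ψ)) 2 volume := by
    rw [memLp_indicator_iff_restrict hmΩ]
    rw [memLp_two_iff_integrable_sq_norm (hgc.aestronglyMeasurable hmΩ)]
    exact hψg
  have hD2 : MemLp (indicator DD fun _ => (4:ℝ)) 2 volume := by
    have hb : Bornology.IsBounded DD := by
      refine (Metric.isBounded_closedBall (x := (0:ℂ)) (r := 2)).subset ?_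
      intro z hz
      rw [mem_closedBall_zero_iff]
      have h1 := Complex.norm_le_abs_re_add_abs_im z
      have h2 := hz.1
      have h3 := hz.2
      linarith
    have hDo : IsOpen DD := by
      have : DD = {z : ℂ | |z.re| < 1} ∩ {z : ℂ | |z.im| < 1} := rfl
      rw [this]
      exact (isOpen_lt (by fun_prop) continuous_const).inter
        (isOpen_lt (by fun_prop) continuous_const)
    exact memLp_indicator_const 2 hDo.measurableSet 4 (Or.inr hb.measure_lt_top.ne)
  refine ⟨F, ?_, fun n => (hext n).1, hpm, hgm, ?_, ?_⟩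
  · intro n t
    simp only [hF, neg_neg]; ring
  · apply a16_dom (b := indicator DD fun _ => (4:ℝ))
    · exact fun n => (hext n).1.1.continuous.aestronglyMeasurable.sub hpm
    · exact hD2
    · intro n
      refine Eventually.of_forall fun z => ?_
      show ‖indicator Ω (fun z => F n (ψ z)) z - indicator Ω ψ z‖ ≤ _
      by_cases hzΩ : z ∈ Ω
      · rw [indicator_of_mem hzΩ, indicator_of_mem hzΩ, indicator_of_mem (hD hzΩ)]
        have h1 := a16_F_close (k := n + 1) (by omega) (ψ z)
        have h2 := a16_F_close (k := n + 1) (by omega) (-ψ z)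
        have h3 : (2:ℝ) / ((n + 1 : ℕ) : ℝ) ≤ 2 := by
          apply div_le_self (by norm_num)
          push_cast
          linarith [Nat.cast_nonneg (α := ℝ) n]
        have h4 : ψ z = max (ψ z) 0 - max (-ψ z) 0 := by
          rcases le_total 0 (ψ z) with h | h
          · rw [max_eq_left h, max_eq_right (by linarith)]; ring
          · rw [max_eq_right h, max_eq_left (by linarith)]; ring
        have e : F n (ψ z) - ψ z = (a16_F (n + 1) (ψ z) - max (ψ z) 0)
            - (a16_F (n + 1) (-ψ z) - max (-ψ z) 0) := by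
          simp only [hF]
          linarith
        rw [Real.norm_eq_abs, e]
        refine (abs_sub _ _).trans ?_
        linarith
      · rw [indicator_of_notMem hzΩ, indicator_of_notMem hzΩ, sub_zero, norm_zero]
        exact indicator_nonneg (fun _ _ => by norm_num) z
    · refine Eventually.of_forall fun z => ?_
      by_cases hzΩ : z ∈ Ω
      · simp only [indicator_of_mem hzΩ]
        have h1 := (a16_F_lim (ψ z)).comp (tendsto_add_atTop_nat 1)
        have h2 := (a16_F_lim (-ψ z)).comp (tendsto_add_atTop_nat 1)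
        have h4 : ψ z = max (ψ z) 0 - max (-ψ z) 0 := by
          rcases le_total 0 (ψ z) with h | h
          · rw [max_eq_left h, max_eq_right (by linarith)]; ring
          · rw [max_eq_right h, max_eq_left (by linarith)]; ring
        have h5 := h1.sub h2
        rw [sub_zero] at h5
        refine h5.congr fun n => ?_
        simp only [Function.comp_apply, hF]
        linarith
      · simp only [indicator_of_notMem hzΩ, sub_zero]
        exact tendsto_const_nhds
  · apply a16_dom (b := fun z => 3 * ‖indicator Ω (gradient ψ) z‖)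
    · exact fun n => (a16_grad_cont (hext n).1.1).aestronglyMeasurable.sub hgm
    · exact hg2.norm.const_mul _
    · intro n
      refine Eventually.of_forall fun z => ?_
      rw [(hext n).2 z]
      by_cases hzΩ : z ∈ Ω
      · simp only [indicator_of_mem hzΩ]
        rw [hFd]
        have e : (a16_S (n + 1) (ψ z) + a16_S (n + 1) (-ψ z)) • gradient ψ z - gradient ψ z
            = (a16_S (n + 1) (ψ z) + a16_S (n + 1) (-ψ z) - 1) • gradient ψ z := by
          rw [sub_smul _ (1:ℝ), one_smul]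
        rw [e, norm_smul]
        gcongr
        have h1 := a16_S_nonneg (n + 1) (ψ z)
        have h2 := a16_S_le (n + 1) (ψ z)
        have h3 := a16_S_nonneg (n + 1) (-ψ z)
        have h4 := a16_S_le (n + 1) (-ψ z)
        rw [Real.norm_eq_abs, abs_le]
        constructor <;> linarith
      · simp only [indicator_of_notMem hzΩ]
        simp
    · have h0' : ∀ᵐ z, z ∉ {z ∈ Ω | ψ z = 0} := measure_eq_zero_iff_ae_notMem.mp h0
      filter_upwards [h0'] with z hz0
      by_cases hzΩ : z ∈ Ω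
      · have hne : ψ z ≠ 0 := fun h => hz0 ⟨hzΩ, h⟩
        have e : ∀ n, gradient (indicator Ω fun z => F n (ψ z)) z - indicator Ω (gradient ψ) z
            = (a16_S (n + 1) (ψ z) + a16_S (n + 1) (-ψ z) - 1) • gradient ψ z := by
          intro n
          rw [(hext n).2 z]
          simp only [indicator_of_mem hzΩ]
          rw [hFd, sub_smul _ (1:ℝ), one_smul]
        simp_rw [e]
        have h1 := (a16_S_lim (ψ z)).comp (tendsto_add_atTop_nat 1)
        have h2 := (a16_S_lim (-ψ z)).comp (tendsto_add_atTop_nat 1)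
        have h3 : (if 0 < ψ z then (1:ℝ) else 0) + (if 0 < -ψ z then (1:ℝ) else 0) - 1 = 0 := by
          rcases lt_or_gt_of_ne hne with h | h
          · rw [if_neg (by linarith), if_pos (by linarith)]; ring
          · rw [if_pos h, if_neg (by linarith)]; ring
        have h4 := ((h1.add h2).sub_const 1).smul_const (gradient ψ z)
        rw [h3, zero_smul] at h4
        exact h4
      · have e : ∀ n, gradient (indicator Ω fun z => F n (ψ z)) z
            - indicator Ω (gradient ψ) z = 0 := by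
          intro n
          rw [(hext n).2 z]
          simp only [indicator_of_notMem hzΩ]
          simp
        simp_rw [e]
        exact tendsto_const_nhds

end Pool.Agent.H87.LE
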