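import Pool.Agent.H87.LE.Base

open MeasureTheory Complex Set Filter Topology
open scoped ContDiff Laplacian

namespace Pool.Agent.H87.LE

/-! # A3: Poincaré inequality with constant, and the `L⁴` inequality -/

/-- polynomial lower replacement of `tan`: `P' - P² ≥ 1` on `[-1,1]` -/
noncomputable def embP (t : ℝ) : ℝ := t + t ^ 3 / 3 + t ^ 5 / 2

theorem embP_hasDerivAt (t : ℝ) : HasDerivAt embP (1 + t ^ 2 + 5 * t ^ 4 / 2) t := by
  have h := ((hasDerivAt_id' t).fun_add ((hasDerivAt_pow 3 t).div_const 3)).fun_add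
    ((hasDerivAt_pow 5 t).div_const 2)
  have e : (1 + t ^ 2 + 5 * t ^ 4 / 2) =
      1 + (3 : ℕ) * t ^ (3 - 1) / 3 + (5 : ℕ) * t ^ (5 - 1) / 2 := by
    norm_num
  rw [e]
  exact h

theorem embP_riccati {t : ℝ} (ht : |t| ≤ 1) : 1 ≤ (1 + t ^ 2 + 5 * t ^ 4 / 2) - embP t ^ 2 := by
  have h1 : t ^ 2 ≤ 1 := by
    rw [← sq_abs]
    exact pow_le_one₀ (abs_nonneg t) ht
  have h0 : 0 ≤ t ^ 2 := sq_nonneg t
  have h2 : (1 + t ^ 2 + 5 * t ^ 4 / 2) - embP t ^ 2 - 1 =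
      (t ^ 2) ^ 2 * (11 / 6 - 10 / 9 * t ^ 2 - (t ^ 2) ^ 2 / 3 - (t ^ 2) ^ 3 / 4) := by
    unfold embP
    ring
  have h3 : (t ^ 2) ^ 2 ≤ 1 := pow_le_one₀ h0 h1
  have h4 : (t ^ 2) ^ 3 ≤ 1 := pow_le_one₀ h0 h1
  have h5 : 0 ≤ (t ^ 2) ^ 2 * (11 / 6 - 10 / 9 * t ^ 2 - (t ^ 2) ^ 2 / 3 - (t ^ 2) ^ 3 / 4) := by
    apply mul_nonneg (by positivity)
    linarith
  linarith

theorem emb_cont_fderiv {φ : ℂ → ℝ} (h1 : ContDiff ℝ ∞ φ) (v : ℂ) :
    Continuous (fun z => fderiv ℝ φ z v) :=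
  (h1.continuous_fderiv (by simp)).clm_apply continuous_const

theorem emb_fderiv_zero {φ : ℂ → ℝ} {z : ℂ} (hz : z ∉ tsupport φ) (v : ℂ) :
    fderiv ℝ φ z v = 0 := by
  rw [fderiv_of_notMem_tsupport ℝ hz]
  rfl

theorem emb_zero {φ : ℂ → ℝ} {z : ℂ} (hz : z ∉ tsupport φ) : φ z = 0 :=
  image_eq_zero_of_notMem_tsupport hz

theorem emb_int {φ f : ℂ → ℝ} (hc : HasCompactSupport φ) (hf : Continuous f)
    (h : ∀ z, z ∉ tsupport φ → f z = 0) : Integrable f :=
  hf.integrable_of_hasCompactSupport (hc.mono' (fun z hz => by_contra fun h' => hz (h z h')))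

/-- one directional Poincaré inequality -/
theorem emb_dir {ρ : ℝ} (hρ : 0 < ρ) {φ : ℂ → ℝ} (h1 : ContDiff ℝ ∞ φ)
    (hc : HasCompactSupport φ) (L : ℂ →L[ℝ] ℝ) (v : ℂ) (hv : L v = 1)
    (h2 : ∀ z ∈ tsupport φ, |L z| ≤ ρ) :
    ∫ z, φ z ^ 2 ≤ ρ ^ 2 * ∫ z, (fderiv ℝ φ z v) ^ 2 := by
  set a : ℂ → ℝ := fun z => ρ⁻¹ * embP (L z / ρ) with ha
  set a' : ℂ → ℝ := fun z => ρ⁻¹ ^ 2 * (1 + (L z / ρ) ^ 2 + 5 * (L z / ρ) ^ 4 / 2) with ha'
  have hsm : ContDiff ℝ ∞ a := by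
    have : ContDiff ℝ ∞ embP := by unfold embP; fun_prop
    exact contDiff_const.mul (this.comp (L.contDiff.div_const ρ))
  have hac : Continuous a := hsm.continuous
  have ha'c : Continuous a' := by
    have := L.continuous
    fun_prop
  have hφc : Continuous φ := h1.continuous
  have hdc : Continuous (fun z => fderiv ℝ φ z v) := emb_cont_fderiv h1 v
  have hd : ∀ z, fderiv ℝ a z v = a' z := by
    intro z
    have e1 : HasFDerivAt (fun w => L w / ρ) (ρ⁻¹ • L) z := by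
      have e0 : (fun w => L w / ρ) = fun w => ρ⁻¹ * L w := by
        funext w; ring
      rw [e0]
      exact (L.hasFDerivAt (x := z)).const_mul ρ⁻¹
    have e2 := (embP_hasDerivAt (L z / ρ)).comp_hasFDerivAt z e1
    have e3 := e2.const_mul ρ⁻¹
    have e4 : fderiv ℝ a z = _ := e3.fderiv
    rw [e4]
    simp only [_root_.smul_apply, smul_eq_mul, hv, ha']
    ring
  have hdp : ∀ z, fderiv ℝ (fun w => a w * φ w) z v = a z * fderiv ℝ φ z v + a' z * φ z := by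
    intro z
    have e1 : HasFDerivAt (fun w => a w * φ w) _ z :=
      ((hsm.differentiable (by simp)).differentiableAt.hasFDerivAt).mul
      ((h1.differentiable (by simp)).differentiableAt.hasFDerivAt)
    rw [e1.fderiv]
    simp only [_root_.add_apply, _root_.smul_apply, smul_eq_mul, hd]
    ring
  -- integrability
  have i1 : Integrable (fun z => φ z ^ 2) :=
    emb_int hc (hφc.pow 2) (fun z hz => by rw [emb_zero hz]; ring)
  have i2 : Integrable (fun z => (fderiv ℝ φ z v) ^ 2) :=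
    emb_int hc (hdc.pow 2) (fun z hz => by rw [emb_fderiv_zero hz]; ring)
  have i3 : Integrable (fun z => a z * φ z * fderiv ℝ φ z v) :=
    emb_int hc ((hac.mul hφc).mul hdc) (fun z hz => by rw [emb_zero hz]; ring)
  have i4 : Integrable (fun z => a' z * φ z ^ 2) :=
    emb_int hc (ha'c.mul (hφc.pow 2)) (fun z hz => by rw [emb_zero hz]; ring)
  have i5 : Integrable (fun z => a z ^ 2 * φ z ^ 2) :=
    emb_int hc ((hac.pow 2).mul (hφc.pow 2)) (fun z hz => by rw [emb_zero hz]; ring)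
  have hibp : ∫ z, (a z * φ z) * fderiv ℝ φ z v =
      - ∫ z, (a z * φ z * fderiv ℝ φ z v + a' z * φ z ^ 2) := by
    have e := integral_mul_fderiv_eq_neg_fderiv_mul_of_integrable (μ := (volume : Measure ℂ))
      (f := fun z => a z * φ z) (g := φ) (v := v) ?_ ?_ ?_ ?_ ?_
    · rw [e]
      congr 1
      apply integral_congr_ae
      filter_upwards with z
      rw [hdp]
      ring
    · have : (fun z => fderiv ℝ (fun w => a w * φ w) z v * φ z) =
        fun z => a z * φ z * fderiv ℝ φ z v + a' z * φ z ^ 2 := by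
        funext z
        rw [hdp]
        ring
      rw [this]
      exact i3.add i4
    · exact i3
    · exact emb_int hc ((hac.mul hφc).mul hφc) (fun z hz => by rw [emb_zero hz]; ring)
    · intro z _
      exact ((hsm.mul h1).differentiable (by simp)).differentiableAt
    · intro z _
      exact (h1.differentiable (by simp)).differentiableAt
  rw [integral_add i3 i4] at hibp
  have hkey : 0 ≤ ∫ z, (fderiv ℝ φ z v + a z * φ z) ^ 2 := integral_nonneg (fun z => sq_nonneg _)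
  have hexp : ∫ z, (fderiv ℝ φ z v + a z * φ z) ^ 2 =
      (∫ z, (fderiv ℝ φ z v) ^ 2) + 2 * (∫ z, a z * φ z * fderiv ℝ φ z v) +
        ∫ z, a z ^ 2 * φ z ^ 2 := by
    have : (fun z => (fderiv ℝ φ z v + a z * φ z) ^ 2) = fun z =>
        (fderiv ℝ φ z v) ^ 2 + 2 * (a z * φ z * fderiv ℝ φ z v) + a z ^ 2 * φ z ^ 2 := by
      funext z; ring
    have i6 : Integrable (fun z => (fderiv ℝ φ z v) ^ 2 + 2 * (a z * φ z * fderiv ℝ φ z v)) :=
      i2.add (i3.const_mul 2)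
    rw [this, integral_add i6 i5, integral_add i2 (i3.const_mul 2), integral_const_mul]
  have hpt : ∀ z, ρ⁻¹ ^ 2 * φ z ^ 2 ≤ a' z * φ z ^ 2 - a z ^ 2 * φ z ^ 2 := by
    intro z
    by_cases hz : z ∈ tsupport φ
    · have h3 : |L z / ρ| ≤ 1 := by
        rw [abs_div, abs_of_pos hρ, div_le_one hρ]
        exact h2 z hz
      have h4 := embP_riccati h3
      have h5 : a' z - a z ^ 2 = ρ⁻¹ ^ 2 *
          ((1 + (L z / ρ) ^ 2 + 5 * (L z / ρ) ^ 4 / 2) - embP (L z / ρ) ^ 2) := by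
        simp only [ha, ha']
        ring
      have h6 : ρ⁻¹ ^ 2 ≤ a' z - a z ^ 2 := by
        rw [h5]
        have : 0 ≤ ρ⁻¹ ^ 2 := by positivity
        nlinarith
      have h7 : 0 ≤ φ z ^ 2 := sq_nonneg _
      nlinarith
    · rw [image_eq_zero_of_notMem_tsupport hz]
      simp
  have hint : ρ⁻¹ ^ 2 * ∫ z, φ z ^ 2 ≤ (∫ z, a' z * φ z ^ 2) - ∫ z, a z ^ 2 * φ z ^ 2 := by
    rw [← integral_const_mul, ← integral_sub i4 i5]
    exact integral_mono (i1.const_mul _) (i4.sub i5) hpt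
  have hfin : ρ⁻¹ ^ 2 * ∫ z, φ z ^ 2 ≤ ∫ z, (fderiv ℝ φ z v) ^ 2 := by
    rw [hexp] at hkey
    linarith
  calc ∫ z, φ z ^ 2 = ρ ^ 2 * (ρ⁻¹ ^ 2 * ∫ z, φ z ^ 2) := by
        rw [← mul_assoc, ← mul_pow, mul_inv_cancel₀ hρ.ne', one_pow, one_mul]
    _ ≤ ρ ^ 2 * ∫ z, (fderiv ℝ φ z v) ^ 2 := by gcongr

theorem emb_grad_sq {φ : ℂ → ℝ} (z : ℂ) :
    ‖gradient φ z‖ ^ 2 = (fderiv ℝ φ z 1) ^ 2 + (fderiv ℝ φ z I) ^ 2 := by
  rw [← inner_gradient_left, ← inner_gradient_left, ← Complex.normSq_eq_norm_sq,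
    Complex.normSq_apply, Complex.inner, Complex.inner]
  simp
  ring

/-- strip Poincaré inequality: `2|φ(x,y)| ≤ ∫ |∂x φ|` in both directions -/
theorem strip_test {ρ : ℝ} (hρ : 0 < ρ) {φ : ℂ → ℝ} (h1 : ContDiff ℝ ∞ φ)
    (h2 : tsupport φ ⊆ {z | |z.re| ≤ ρ ∧ |z.im| ≤ ρ}) :
    ∫ z, φ z ^ 2 ≤ ρ ^ 2 / 2 * ∫ z, ‖gradient φ z‖ ^ 2 := by
  have hc : HasCompactSupport φ := by
    have hcomp : IsCompact {z : ℂ | |z.re| ≤ ρ ∧ |z.im| ≤ ρ} := by
      apply Metric.isCompact_of_isClosed_isBounded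
      · apply IsClosed.inter
        · exact isClosed_le (continuous_abs.comp continuous_re) continuous_const
        · exact isClosed_le (continuous_abs.comp continuous_im) continuous_const
      · rw [isBounded_iff_forall_norm_le]
        refine ⟨ρ + ρ, fun z hz => (norm_le_abs_re_add_abs_im z).trans ?_⟩
        exact add_le_add hz.1 hz.2
    exact HasCompactSupport.of_support_subset_isCompact hcomp ((subset_tsupport φ).trans h2)
  have e1 := emb_dir hρ h1 hc reCLM 1 (by simp) (fun z hz => (h2 hz).1)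
  have e2 := emb_dir hρ h1 hc imCLM I (by simp) (fun z hz => (h2 hz).2)
  have hi : ∀ v : ℂ, Integrable (fun z => (fderiv ℝ φ z v) ^ 2) := by
    intro v
    exact emb_int hc ((emb_cont_fderiv h1 v).pow 2)
      (fun z hz => by rw [emb_fderiv_zero hz]; ring)
  have e3 : ∫ z, ‖gradient φ z‖ ^ 2 =
      (∫ z, (fderiv ℝ φ z 1) ^ 2) + ∫ z, (fderiv ℝ φ z I) ^ 2 := by
    rw [← integral_add (hi 1) (hi I)]
    congr 1
    funext z
    exact emb_grad_sq z
  rw [e3]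
  linarith

theorem emb_grad_cont {φ : ℂ → ℝ} (h1 : ContDiff ℝ ∞ φ) :
    Continuous (fun z => ‖gradient φ z‖ ^ 2) := by
  have : (fun z => ‖gradient φ z‖ ^ 2) =
      fun z => (fderiv ℝ φ z 1) ^ 2 + (fderiv ℝ φ z I) ^ 2 := funext fun z => emb_grad_sq z
  rw [this]
  exact ((emb_cont_fderiv h1 1).pow 2).add ((emb_cont_fderiv h1 I).pow 2)

theorem emb_norm_grad (f : ℂ → ℝ) (z : ℂ) : ‖gradient f z‖ = ‖fderiv ℝ f z‖ := by
  rw [← toDual_gradient, LinearIsometryEquiv.norm_map]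

/-- from Mathlib's Gagliardo-Nirenberg-Sobolev inequality (p = 4/3) or by Ladyzhenskaya's proof -/
theorem l4_test : ∃ C : ℝ, 0 < C ∧ ∀ φ : ℂ → ℝ, Tst DD φ →
    ∫ z, φ z ^ 4 ≤ C * (∫ z, ‖gradient φ z‖ ^ 2) ^ 2 := by
  set K : NNReal := MeasureTheory.lintegralPowLePowLIntegralFDerivConst
    (volume : Measure ℂ) (2 : ℝ) with hK
  refine ⟨(K : ℝ) * (9 / 4) + 1, by positivity, ?_⟩
  rintro φ ⟨h1, hc, hsub⟩
  have hφc : Continuous φ := h1.continuous
  set G : ℝ := ∫ z, ‖gradient φ z‖ ^ 2 with hG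
  have hG0 : 0 ≤ G := integral_nonneg fun z => by positivity
  have hP : ∫ z, φ z ^ 2 ≤ 1 / 2 * G := by
    have := strip_test (ρ := 1) one_pos h1 (hsub.trans (fun z hz => ⟨hz.1.le, hz.2.le⟩))
    simpa using this
  have i1 : Integrable (fun z => φ z ^ 2) :=
    emb_int hc (hφc.pow 2) (fun z hz => by rw [emb_zero hz]; ring)
  have i2 : Integrable (fun z => ‖gradient φ z‖ ^ 2) :=
    emb_int hc (emb_grad_cont h1) (fun z hz => by
      rw [emb_grad_sq, emb_fderiv_zero hz, emb_fderiv_zero hz]; ring)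
  have i4 : Integrable (fun z => φ z ^ 4) :=
    emb_int hc (hφc.pow 4) (fun z hz => by rw [emb_zero hz]; ring)
  have hu : ContDiff ℝ 1 (fun z => φ z ^ 2) := (h1.of_le (by simp)).pow 2
  have h2u : HasCompactSupport (fun z => φ z ^ 2) :=
    hc.comp_left (g := fun x : ℝ => x ^ 2) (by simp)
  have hp : Real.HolderConjugate ((Module.finrank ℝ ℂ : ℕ) : ℝ) 2 := by
    rw [Complex.finrank_real_complex]
    rw [Real.holderConjugate_iff]
    norm_num
  have hgns := MeasureTheory.lintegral_pow_le_pow_lintegral_fderiv (volume : Measure ℂ) hu h2u hp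
  have hL : ∫⁻ z, ‖φ z ^ 2‖ₑ ^ (2 : ℝ) = ENNReal.ofReal (∫ z, φ z ^ 4) := by
    rw [ofReal_integral_eq_lintegral_ofReal i4 (Eventually.of_forall fun z => by positivity)]
    congr 1
    funext z
    rw [Real.enorm_eq_ofReal (by positivity), ENNReal.ofReal_rpow_of_nonneg (by positivity)
      (by norm_num), Real.rpow_two, ← pow_mul]
  have hR : ∫⁻ z, ‖fderiv ℝ (fun z => φ z ^ 2) z‖ₑ ≤ ENNReal.ofReal (3 / 2 * G) := by
    calc ∫⁻ z, ‖fderiv ℝ (fun z => φ z ^ 2) z‖ₑ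
        ≤ ∫⁻ z, ENNReal.ofReal (φ z ^ 2 + ‖gradient φ z‖ ^ 2) := by
          apply lintegral_mono
          intro z
          have e1 : HasFDerivAt (fun z => φ z ^ 2) ((2 * φ z) • fderiv ℝ φ z) z := by
            have e0 := ((h1.differentiable (by simp)).differentiableAt (x := z)).hasFDerivAt.pow 2
            simpa using e0
          show ‖fderiv ℝ (fun z => φ z ^ 2) z‖ₑ ≤ ENNReal.ofReal (φ z ^ 2 + ‖gradient φ z‖ ^ 2)
          rw [e1.fderiv, ← ofReal_norm, norm_smul, ← emb_norm_grad]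
          apply ENNReal.ofReal_le_ofReal
          rw [Real.norm_eq_abs, abs_mul, abs_of_pos (show (0 : ℝ) < 2 by norm_num)]
          nlinarith [sq_nonneg (|φ z| - ‖gradient φ z‖), sq_abs (φ z)]
      _ = ENNReal.ofReal (∫ z, (φ z ^ 2 + ‖gradient φ z‖ ^ 2)) := by
          have i6 : Integrable (fun z => φ z ^ 2 + ‖gradient φ z‖ ^ 2) := i1.add i2
          rw [ofReal_integral_eq_lintegral_ofReal i6
            (Eventually.of_forall fun z => by positivity)]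
      _ ≤ ENNReal.ofReal (3 / 2 * G) := by
          apply ENNReal.ofReal_le_ofReal
          rw [integral_add i1 i2]
          linarith
  rw [hL] at hgns
  have h3 : ENNReal.ofReal (∫ z, φ z ^ 4) ≤ ENNReal.ofReal (K * (3 / 2 * G) ^ 2) := by
    refine hgns.trans ?_
    rw [ENNReal.ofReal_mul (NNReal.coe_nonneg K), ENNReal.ofReal_coe_nnreal, ← hK]
    refine mul_le_mul' le_rfl ?_
    calc (∫⁻ z, ‖fderiv ℝ (fun z => φ z ^ 2) z‖ₑ) ^ (2 : ℝ)
        ≤ (ENNReal.ofReal (3 / 2 * G)) ^ (2 : ℝ) := ENNReal.rpow_le_rpow hR (by norm_num)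
      _ = ENNReal.ofReal ((3 / 2 * G) ^ 2) := by
          rw [ENNReal.ofReal_rpow_of_nonneg (by positivity) (by norm_num)]
          norm_cast
  have h4 := (ENNReal.ofReal_le_ofReal_iff (by positivity)).1 h3
  have h5 : 0 ≤ G ^ 2 := sq_nonneg G
  calc ∫ z, φ z ^ 4 ≤ K * (3 / 2 * G) ^ 2 := h4
    _ = (K : ℝ) * (9 / 4) * G ^ 2 := by ring
    _ ≤ ((K : ℝ) * (9 / 4) + 1) * G ^ 2 := by nlinarith

end Pool.Agent.H87.LE
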