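import Pool.Agent.H87.LE.A03_Emb
import Pool.Agent.H87.LE.A16_Chain
import Pool.Agent.H30.LE.Lim

open MeasureTheory Complex Set Filter Topology
open scoped ContDiff Laplacian

namespace Pool.Agent.H87.LE

/-! # A17: the toolkit for functions in `H¹₀` (rotation invariant): comparison and sup bounds -/

/-- rotation invariant functions of `H¹₀(Ω)` with their gradients -/
def W1 (Ω : Set ℂ) (v : ℂ → ℝ) (G : ℂ → ℂ) : Prop :=
  ∃ φ : ℕ → ℂ → ℝ, (∀ n, Tst Ω (φ n) ∧ Rot (φ n)) ∧ Lim φ v G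

/-- `- div G ≤ f` weakly in `Ω` (rotation invariant nonnegative tests) -/
def SubS (Ω : Set ℂ) (G : ℂ → ℂ) (f : ℂ → ℝ) : Prop :=
  ∀ ζ, Tst Ω ζ → Rot ζ → (∀ z, 0 ≤ ζ z) →
    ∫ z, inner ℝ (G z) (gradient ζ z) ≤ ∫ z, f z * ζ z

/-- `- div G ≥ f` weakly in `Ω` (rotation invariant nonnegative tests) -/
def SupS (Ω : Set ℂ) (G : ℂ → ℂ) (f : ℂ → ℝ) : Prop :=
  ∀ ζ, Tst Ω ζ → Rot ζ → (∀ z, 0 ≤ ζ z) →
    ∫ z, f z * ζ z ≤ ∫ z, inner ℝ (G z) (gradient ζ z)

/-- `- div G = f` weakly in `Ω` (rotation invariant tests) -/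
def EqnS (Ω : Set ℂ) (G : ℂ → ℂ) (f : ℂ → ℝ) : Prop :=
  ∀ ζ, Tst Ω ζ → Rot ζ → ∫ z, inner ℝ (G z) (gradient ζ z) = ∫ z, f z * ζ z

theorem a17_W1_memLp {Ω : Set ℂ} {v : ℂ → ℝ} {G : ℂ → ℂ} (h : W1 Ω v G) :
    MemLp v 2 volume ∧ MemLp G 2 volume := by
  obtain ⟨φ, hφ, hL⟩ := h
  exact a17_lim_memLp (fun n => (hφ n).1) hL

/-- replace `(v, G)` by an a.e. equal pair -/
theorem a17_lim_congr {φ : ℕ → ℂ → ℝ} {v v' : ℂ → ℝ} {G G' : ℂ → ℂ} (h : Lim φ v G)
    (hv : v =ᵐ[volume] v') (hG : G =ᵐ[volume] G') : Lim φ v' G' := by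
  refine ⟨h.1.congr hv, h.2.1.congr hG, ?_, ?_⟩
  · refine h.2.2.1.congr fun n => eLpNorm_congr_ae ?_
    filter_upwards [hv] with z hz; rw [hz]
  · refine h.2.2.2.congr fun n => eLpNorm_congr_ae ?_
    filter_upwards [hG] with z hz; rw [hz]

theorem a17_lim_zero : Lim (fun _ _ => (0:ℝ)) (fun _ => (0:ℝ)) (fun _ => (0:ℂ)) := by
  have hg : ∀ z : ℂ, gradient (fun _ : ℂ => (0:ℝ)) z = 0 := by
    intro z
    unfold gradient
    simp
  refine ⟨aestronglyMeasurable_const, aestronglyMeasurable_const, ?_, ?_⟩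
  · simp
  · simp [hg]

theorem a17_tst_zero (Ω : Set ℂ) : Tst Ω (fun _ => (0:ℝ)) := by
  refine ⟨contDiff_const, HasCompactSupport.zero, ?_⟩
  have : tsupport (fun _ : ℂ => (0:ℝ)) = ∅ := by
    rw [tsupport_eq_empty_iff]; rfl
  rw [this]
  exact empty_subset _

/-- positive part of `v - w - ψ` in `W1` -/
theorem a17_pos {Ω : Set ℂ} (hΩ : IsOpen Ω) (hD : Ω ⊆ DD) (hI : ∀ z ∈ Ω, I * z ∈ Ω)
    {v w : ℂ → ℝ} {G K : ℂ → ℂ} (h : W1 Ω v G)
    (hw : ∃ ζ : ℕ → ℂ → ℝ, (∀ n, Tst DD (ζ n) ∧ Rot (ζ n) ∧ ∀ z, 0 ≤ ζ n z) ∧ Lim ζ w K)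
    {ψ : ℂ → ℝ} (hψ : ContDiffOn ℝ ∞ ψ Ω) (hψ0 : ∀ z ∈ Ω, 0 ≤ ψ z)
    (hψR : ∀ z ∈ Ω, ψ (I * z) = ψ z)
    (hψg : IntegrableOn (fun z => ‖gradient ψ z‖ ^ 2) Ω) :
    ∃ χ : ℕ → ℂ → ℝ, (∀ n, Tst Ω (χ n) ∧ Rot (χ n) ∧ ∀ z, 0 ≤ χ n z) ∧
      Lim χ (fun z => indicator Ω (fun z => max (v z - w z - ψ z) 0) z)
        (fun z => indicator (Ω ∩ {z | ψ z < v z - w z}) (fun z => G z - K z - gradient ψ z) z) := by
  obtain ⟨φ, hφ, hL⟩ := h
  obtain ⟨ζ, hζ, hL'⟩ := hw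
  obtain ⟨χ, h1, h2, h3, -⟩ := pos_lim hΩ hD (fun n => (hφ n).1)
    (fun n => ⟨(hζ n).1, (hζ n).2.2⟩) hL hL' hψ hψ0 hψg
  refine ⟨χ, fun n => ⟨(h1 n).1, ?_, (h1 n).2⟩, h2⟩
  exact h3 (fun n => (hφ n).2) (fun n => (hζ n).2.1) (fun z hz => ⟨hI z hz, hψR z hz⟩) n

theorem a17_zero_approx : ∃ ζ : ℕ → ℂ → ℝ, (∀ n, Tst DD (ζ n) ∧ Rot (ζ n) ∧ ∀ z, 0 ≤ ζ n z) ∧
    Lim ζ (fun _ => (0:ℝ)) (fun _ => (0:ℂ)) :=
  ⟨fun _ _ => 0, fun _ => ⟨a17_tst_zero _, fun _ => rfl, fun _ => le_refl _⟩, a17_lim_zero⟩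

theorem a17_grad_const (k : ℝ) (z : ℂ) : gradient (fun _ : ℂ => k) z = 0 := by
  unfold gradient
  simp

/-- positive functions of `W1` are limits of positive test functions -/
theorem W1_nonneg_approx {Ω : Set ℂ} (hΩ : IsOpen Ω) (hD : Ω ⊆ DD) (hI : ∀ z ∈ Ω, I * z ∈ Ω)
    {v : ℂ → ℝ} {G : ℂ → ℂ} (h : W1 Ω v G) (h0 : ∀ᵐ z, 0 ≤ v z) :
    ∃ φ : ℕ → ℂ → ℝ, (∀ n, Tst Ω (φ n) ∧ Rot (φ n) ∧ ∀ z, 0 ≤ φ n z) ∧ Lim φ v G := by
  obtain ⟨χ, h1, h2⟩ := a17_pos hΩ hD hI h a17_zero_approx (ψ := fun _ => 0) contDiffOn_const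
    (fun _ _ => le_refl _) (fun _ _ => rfl) (by simp [a17_grad_const])
  obtain ⟨φ, hφ, hL⟩ := h
  have hoff := (lim_off hΩ.measurableSet (fun n => (hφ n).1) hL).2.2
  have hv : (fun z => indicator Ω (fun z => max (v z - 0 - 0) 0) z) =ᵐ[volume] v := by
    filter_upwards [hoff, h0] with z h3 h4
    by_cases hz : z ∈ Ω
    · rw [indicator_of_mem hz, sub_zero, sub_zero, max_eq_left h4]
    · rw [indicator_of_notMem hz, (h3 hz).1]
  have hG := a17_lim_unique (fun n => (h1 n).1) (fun n => (hφ n).1) h2 hL hv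
  exact ⟨χ, h1, a17_lim_congr h2 hv hG⟩

theorem a17_setIntegral {Ω : Set ℂ} {F : ℂ → ℝ} (h : ∀ z, z ∉ Ω → F z = 0) :
    ∫ z in Ω, F z = ∫ z, F z :=
  setIntegral_eq_integral_of_forall_compl_eq_zero h

/-- the two sides of the weak formulation pass to the limit -/
theorem a17_weak_lim {Ω : Set ℂ} {φ : ℕ → ℂ → ℝ} (hφ : ∀ n, Tst Ω (φ n)) {v : ℂ → ℝ}
    {K : ℂ → ℂ} (h : Lim φ v K) {G : ℂ → ℂ} {f : ℂ → ℝ} (hG : MemLp G 2 (volume.restrict Ω))
    (hf : MemLp f 2 (volume.restrict Ω)) :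
    Tendsto (fun n => ∫ z, inner ℝ (G z) (gradient (φ n) z)) atTop
      (𝓝 (∫ z in Ω, inner ℝ (G z) (K z))) ∧
    Tendsto (fun n => ∫ z, f z * φ n z) atTop (𝓝 (∫ z in Ω, f z * v z)) := by
  obtain ⟨hv, hK⟩ := a17_lim_memLp hφ h
  constructor
  · have := H30.LE.tendsto_integral_inner_left hG
      (fun n => (a17_tst_memLp_grad (hφ n) 2).restrict Ω) (hK.restrict Ω)
      (a17_restrict Ω h.2.2.2)
    refine this.congr fun n => a17_setIntegral fun z hz => ?_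
    rw [(a17_tst_off (hφ n) hz).2, inner_zero_right]
  · have := H30.LE.tendsto_integral_inner_left hf
      (fun n => (a17_tst_memLp (hφ n) 2).restrict Ω) (hv.restrict Ω)
      (a17_restrict Ω h.2.2.1)
    have e : ∀ a b : ℝ, inner ℝ a b = a * b := by
      intro a b
      rw [real_inner_eq_re_inner ℝ]
      simp [mul_comm]
    simp only [e] at this
    refine this.congr fun n => a17_setIntegral fun z hz => ?_
    rw [(a17_tst_off (hφ n) hz).1, mul_zero]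

/-- weak inequalities and equations may be tested with elements of `W1` -/
theorem SubS_test {Ω : Set ℂ} (hΩ : IsOpen Ω) (hD : Ω ⊆ DD) (hI : ∀ z ∈ Ω, I * z ∈ Ω)
    {G : ℂ → ℂ} {f : ℂ → ℝ} (hG : MemLp G 2 (volume.restrict Ω))
    (hf : MemLp f 2 (volume.restrict Ω)) (h : SubS Ω G f) {v : ℂ → ℝ} {K : ℂ → ℂ}
    (hv : W1 Ω v K) (h0 : ∀ᵐ z, 0 ≤ v z) :
    ∫ z in Ω, inner ℝ (G z) (K z) ≤ ∫ z in Ω, f z * v z := by
  obtain ⟨φ, hφ, hL⟩ := W1_nonneg_approx hΩ hD hI hv h0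
  obtain ⟨t1, t2⟩ := a17_weak_lim (fun n => (hφ n).1) hL hG hf
  exact le_of_tendsto_of_tendsto' t1 t2 fun n => h _ (hφ n).1 (hφ n).2.1 (hφ n).2.2

theorem a17_SupS_test {Ω : Set ℂ} (hΩ : IsOpen Ω) (hD : Ω ⊆ DD) (hI : ∀ z ∈ Ω, I * z ∈ Ω)
    {G : ℂ → ℂ} {f : ℂ → ℝ} (hG : MemLp G 2 (volume.restrict Ω))
    (hf : MemLp f 2 (volume.restrict Ω)) (h : SupS Ω G f) {v : ℂ → ℝ} {K : ℂ → ℂ}
    (hv : W1 Ω v K) (h0 : ∀ᵐ z, 0 ≤ v z) :
    ∫ z in Ω, f z * v z ≤ ∫ z in Ω, inner ℝ (G z) (K z) := by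
  obtain ⟨φ, hφ, hL⟩ := W1_nonneg_approx hΩ hD hI hv h0
  obtain ⟨t1, t2⟩ := a17_weak_lim (fun n => (hφ n).1) hL hG hf
  exact le_of_tendsto_of_tendsto' t2 t1 fun n => h _ (hφ n).1 (hφ n).2.1 (hφ n).2.2

theorem EqnS_test {Ω : Set ℂ} (hΩ : IsOpen Ω) (hD : Ω ⊆ DD) {G : ℂ → ℂ} {f : ℂ → ℝ}
    (hG : MemLp G 2 (volume.restrict Ω)) (hf : MemLp f 2 (volume.restrict Ω)) (h : EqnS Ω G f)
    {v : ℂ → ℝ} {K : ℂ → ℂ} (hv : W1 Ω v K) :
    ∫ z in Ω, inner ℝ (G z) (K z) = ∫ z in Ω, f z * v z := by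
  obtain ⟨φ, hφ, hL⟩ := hv
  obtain ⟨t1, t2⟩ := a17_weak_lim (fun n => (hφ n).1) hL hG hf
  exact tendsto_nhds_unique (t1.congr fun n => h _ (hφ n).1 (hφ n).2) t2

/-- capacity zero of points: a function of `W1` which is, for every `η > 0`, in `W1` of the domain
enlarged by `η`-balls around the finite set `F`, is in `W1` of the smaller domain. See B-level. -/
theorem W1_off {Ω : Set ℂ} (hΩ : MeasurableSet Ω) {v : ℂ → ℝ} {G : ℂ → ℂ} (h : W1 Ω v G) :
    MemLp v 2 volume ∧ MemLp G 2 volume ∧ ∀ᵐ z, z ∉ Ω → v z = 0 ∧ G z = 0 := by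
  obtain ⟨φ, hφ, hL⟩ := h
  exact lim_off hΩ (fun n => (hφ n).1) hL


theorem a17_real_inner (a b : ℝ) : inner ℝ a b = a * b := by
  rw [real_inner_eq_re_inner ℝ]
  simp [mul_comm]

/-- cutoff equal to `1` on the square of half side `ρ'` and supported in the one of half side `ρ` -/
theorem a17_cutoff {ρ ρ' : ℝ} (h0 : 0 < ρ') (hρ : ρ' < ρ) : ∃ χ : ℂ → ℝ, ContDiff ℝ ∞ χ ∧
    tsupport χ ⊆ {z | |z.re| ≤ ρ ∧ |z.im| ≤ ρ} ∧
    (∀ z : ℂ, |z.re| ≤ ρ' → |z.im| ≤ ρ' → χ z = 1) := by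
  have hd : 0 < ρ ^ 2 - ρ' ^ 2 := by nlinarith
  refine ⟨fun z => Real.smoothTransition ((ρ ^ 2 - z.re ^ 2) / (ρ ^ 2 - ρ' ^ 2)) *
    Real.smoothTransition ((ρ ^ 2 - z.im ^ 2) / (ρ ^ 2 - ρ' ^ 2)), ?_, ?_, ?_⟩
  · have hre : ContDiff ℝ ∞ (fun z : ℂ => z.re) := Complex.reCLM.contDiff
    have him : ContDiff ℝ ∞ (fun z : ℂ => z.im) := Complex.imCLM.contDiff
    have h1 : ContDiff ℝ ∞ (fun z : ℂ => (ρ ^ 2 - z.re ^ 2) / (ρ ^ 2 - ρ' ^ 2)) :=
      (contDiff_const.sub (hre.pow 2)).div_const _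
    have h2 : ContDiff ℝ ∞ (fun z : ℂ => (ρ ^ 2 - z.im ^ 2) / (ρ ^ 2 - ρ' ^ 2)) :=
      (contDiff_const.sub (him.pow 2)).div_const _
    exact (Real.smoothTransition.contDiff.comp h1).mul (Real.smoothTransition.contDiff.comp h2)
  · apply closure_minimal
    · intro z hz
      rw [Function.mem_support] at hz
      have hz1 := left_ne_zero_of_mul hz
      have hz2 := right_ne_zero_of_mul hz
      have key : ∀ t : ℝ, Real.smoothTransition ((ρ ^ 2 - t ^ 2) / (ρ ^ 2 - ρ' ^ 2)) ≠ 0 →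
          |t| ≤ ρ := by
        intro t ht
        by_contra hcon
        push Not at hcon
        apply ht
        apply Real.smoothTransition.zero_of_nonpos
        apply div_nonpos_of_nonpos_of_nonneg _ hd.le
        have : ρ ^ 2 ≤ |t| ^ 2 := pow_le_pow_left₀ (by linarith) hcon.le 2
        rw [sq_abs] at this
        linarith
      exact ⟨key _ hz1, key _ hz2⟩
    · exact (isClosed_le (continuous_abs.comp Complex.continuous_re) continuous_const).inter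
        (isClosed_le (continuous_abs.comp Complex.continuous_im) continuous_const)
  · intro z h1 h2
    have key : ∀ t : ℝ, |t| ≤ ρ' → Real.smoothTransition ((ρ ^ 2 - t ^ 2) / (ρ ^ 2 - ρ' ^ 2)) = 1 := by
      intro t ht
      apply Real.smoothTransition.one_of_one_le
      rw [le_div_iff₀ hd]
      have : |t| ^ 2 ≤ ρ' ^ 2 := pow_le_pow_left₀ (abs_nonneg t) ht 2
      rw [sq_abs] at this
      linarith
    simp only
    rw [key _ h1, key _ h2, one_mul]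

theorem a17_isOpen_DD : IsOpen DD := by
  have : DD = {z : ℂ | |z.re| < 1} ∩ {z | |z.im| < 1} := rfl
  rw [this]
  exact (isOpen_lt (continuous_abs.comp Complex.continuous_re) continuous_const).inter
    (isOpen_lt (continuous_abs.comp Complex.continuous_im) continuous_const)

theorem a17_DD_rot : ∀ z ∈ DD, I * z ∈ DD := by
  rintro z ⟨h1, h2⟩
  refine ⟨?_, ?_⟩
  · simpa using h2
  · simpa using h1

theorem a17_W1_mono {Ω Ω' : Set ℂ} (hs : Ω ⊆ Ω') {v : ℂ → ℝ} {G : ℂ → ℂ} (h : W1 Ω v G) :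
    W1 Ω' v G := by
  obtain ⟨φ, hφ, hL⟩ := h
  exact ⟨φ, fun n => ⟨a17_tst_mono hs (hφ n).1, (hφ n).2⟩, hL⟩

/-- Poincaré inequality in `W1` for functions supported in a square -/
theorem W1_poincare {v : ℂ → ℝ} {G : ℂ → ℂ} (h : W1 DD v G) {ρ ρ' : ℝ} (h0 : 0 < ρ') (hρ : ρ' < ρ)
    (hs : ∀ᵐ z : ℂ, v z ≠ 0 → |z.re| ≤ ρ' ∧ |z.im| ≤ ρ') :
    ∫ z, v z ^ 2 ≤ ρ ^ 2 / 2 * ∫ z, ‖G z‖ ^ 2 := by
  obtain ⟨φ, hφ, hL⟩ := h
  obtain ⟨χ, hχ, hχs, hχ1⟩ := a17_cutoff h0 hρ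
  obtain ⟨hT, hL2⟩ := mul_lim (Ω' := {z | |z.re| ≤ ρ ∧ |z.im| ≤ ρ}) a17_isOpen_DD subset_rfl
    (fun n => (hφ n).1) hL hχ (inter_subset_left.trans hχs)
  have hv : (fun z => χ z * v z) =ᵐ[volume] v := by
    filter_upwards [hs] with z hz
    by_cases h1 : v z = 0
    · rw [h1, mul_zero]
    · rw [hχ1 z (hz h1).1 (hz h1).2, one_mul]
  have hG := a17_lim_unique hT (fun n => (hφ n).1) hL2 hL hv
  have hL3 := a17_lim_congr hL2 hv hG
  obtain ⟨m1, m2⟩ := a17_lim_memLp hT hL3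
  have t1 := H30.LE.tendsto_integral_norm_sq (fun n => a17_tst_memLp (hT n) 2) m1 hL3.2.2.1
  have t2 := H30.LE.tendsto_integral_norm_sq (fun n => a17_tst_memLp_grad (hT n) 2) m2 hL3.2.2.2
  have := le_of_tendsto_of_tendsto' t1 (t2.const_mul (ρ ^ 2 / 2)) (fun n => by
    have := strip_test (h0.trans hρ) (hT n).1 (hT n).2.2
    simpa only [Real.norm_eq_abs, sq_abs] using this)
  simpa only [Real.norm_eq_abs, sq_abs] using this

theorem a17_subseq {b : ℕ → ℂ → ℝ} {b' : ℂ → ℝ} (hb : ∀ n, AEStronglyMeasurable (b n) volume)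
    (hb' : AEStronglyMeasurable b' volume)
    (h : Tendsto (fun n => eLpNorm (fun x => b n x - b' x) 2 volume) atTop (𝓝 0)) :
    ∃ ns : ℕ → ℕ, StrictMono ns ∧ ∀ᵐ z, Tendsto (fun i => b (ns i) z) atTop (𝓝 (b' z)) := by
  have h1 : TendstoInMeasure volume b atTop b' :=
    tendstoInMeasure_of_tendsto_eLpNorm (by norm_num) hb hb' h
  exact h1.exists_seq_tendsto_ae

theorem W1_l4 : ∃ C : ℝ, 0 < C ∧ ∀ (v : ℂ → ℝ) (G : ℂ → ℂ), W1 DD v G →
    MemLp v 4 volume ∧ ∫ z, v z ^ 4 ≤ C * (∫ z, ‖G z‖ ^ 2) ^ 2 := by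
  obtain ⟨C, hC0, hC⟩ := l4_test
  refine ⟨C, hC0, ?_⟩
  rintro v G ⟨φ, hφ, hL⟩
  obtain ⟨mv, mG⟩ := a17_lim_memLp (fun n => (hφ n).1) hL
  obtain ⟨ns, hns, hae⟩ := a17_subseq (fun n => (a17_tst_memLp (hφ n).1 2).aestronglyMeasurable)
    mv.aestronglyMeasurable hL.2.2.1
  have t2 := H30.LE.tendsto_integral_norm_sq (fun n => a17_tst_memLp_grad (hφ n).1 2) mG hL.2.2.2
  have t3 : Tendsto (fun i => ENNReal.ofReal (C * (∫ z, ‖gradient (φ (ns i)) z‖ ^ 2) ^ 2)) atTop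
      (𝓝 (ENNReal.ofReal (C * (∫ z, ‖G z‖ ^ 2) ^ 2))) :=
    ENNReal.tendsto_ofReal (((t2.comp hns.tendsto_atTop).pow 2).const_mul C)
  have hF : ∫⁻ z, ENNReal.ofReal (v z ^ 4) ≤ ENNReal.ofReal (C * (∫ z, ‖G z‖ ^ 2) ^ 2) := by
    have e1 : ∫⁻ z, ENNReal.ofReal (v z ^ 4) =
        ∫⁻ z, liminf (fun i => ENNReal.ofReal (φ (ns i) z ^ 4)) atTop := by
      refine lintegral_congr_ae ?_
      filter_upwards [hae] with z hz
      exact ((ENNReal.tendsto_ofReal (hz.pow 4)).liminf_eq).symm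
    rw [e1]
    have hm : ∀ i, Measurable (fun z => ENNReal.ofReal (φ (ns i) z ^ 4)) := fun i =>
      ((hφ (ns i)).1.1.continuous.pow 4).measurable.ennreal_ofReal
    refine (lintegral_liminf_le hm).trans ?_
    rw [← t3.liminf_eq]
    refine liminf_le_liminf (Eventually.of_forall fun i => ?_)
    have hc : Continuous fun z => φ (ns i) z ^ 4 := (hφ (ns i)).1.1.continuous.pow 4
    have hi : Integrable (fun z => φ (ns i) z ^ 4) := by
      refine hc.integrable_of_hasCompactSupport ?_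
      refine HasCompactSupport.intro (hφ (ns i)).1.2.1 ?_
      intro z hz
      rw [image_eq_zero_of_notMem_tsupport hz]; norm_num
    rw [← ofReal_integral_eq_lintegral_ofReal hi (Eventually.of_forall fun z => by positivity)]
    exact ENNReal.ofReal_le_ofReal (hC _ (hφ (ns i)).1)
  have hm4 : AEStronglyMeasurable (fun z => v z ^ 4) volume :=
    mv.aestronglyMeasurable.pow 4
  have hfin : ∫⁻ z, ENNReal.ofReal (v z ^ 4) < ⊤ := lt_of_le_of_lt hF ENNReal.ofReal_lt_top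
  refine ⟨?_, ?_⟩
  · refine ⟨mv.aestronglyMeasurable, ?_⟩
    rw [eLpNorm_lt_top_iff_lintegral_rpow_enorm_lt_top (by norm_num) (by norm_num)]
    refine lt_of_eq_of_lt (lintegral_congr fun z => ?_) hfin
    rw [Real.enorm_eq_ofReal_abs]
    have : (4 : ENNReal).toReal = 4 := by norm_num
    rw [this, ENNReal.ofReal_rpow_of_nonneg (abs_nonneg _) (by norm_num)]
    congr 1
    rw [show (4:ℝ) = ((4:ℕ) : ℝ) by norm_num, Real.rpow_natCast]
    have : |v z| ^ 4 = (|v z| ^ 2) ^ 2 := by ring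
    rw [this, sq_abs]; ring
  · rw [integral_eq_lintegral_of_nonneg_ae (Eventually.of_forall fun z => by positivity) hm4]
    exact ENNReal.toReal_le_of_le_ofReal (by positivity) hF


theorem a17_mul_int {Ω : Set ℂ} {a b : ℂ → ℝ} (ha : MemLp a 2 (volume.restrict Ω))
    (hb : MemLp b 2 (volume.restrict Ω)) : IntegrableOn (fun z => a z * b z) Ω := by
  have := H30.LE.integrable_inner ha hb
  simp only [a17_real_inner] at this
  exact this

theorem a17_int_sub3 {μ : Measure ℂ} {F1 F2 F3 : ℂ → ℝ} (h1 : Integrable F1 μ)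
    (h2 : Integrable F2 μ) (h3 : Integrable F3 μ) :
    (∫ z, F1 z ∂μ) - (∫ z, F2 z ∂μ) - (∫ z, F3 z ∂μ) = ∫ z, (F1 z - F2 z - F3 z) ∂μ := by
  have h12 : Integrable (fun z => F1 z - F2 z) μ := h1.sub h2
  rw [integral_sub h12 h3, integral_sub h1 h2]

theorem a17_norm_sq_int {G : ℂ → ℂ} (hG : MemLp G 2 volume) :
    Integrable (fun z => ‖G z‖ ^ 2) := by
  have := H30.LE.integrable_inner hG hG
  simpa only [real_inner_self_eq_norm_sq] using this

theorem a17_sq_int {v : ℂ → ℝ} (hv : MemLp v 2 volume) :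
    Integrable (fun z => v z ^ 2) := by
  have := H30.LE.integrable_inner hv hv
  simpa only [real_inner_self_eq_norm_sq, Real.norm_eq_abs, sq_abs] using this

theorem a17_gradient_memLp {Ω : Set ℂ} {ψ : ℂ → ℝ}
    (h : IntegrableOn (fun z => ‖gradient ψ z‖ ^ 2) Ω) :
    MemLp (gradient ψ) 2 (volume.restrict Ω) := by
  have hm : Measurable (gradient ψ) := by
    unfold gradient
    exact (LinearIsometryEquiv.continuous _).measurable.comp (measurable_fderiv ℝ ψ)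
  rw [memLp_two_iff_integrable_sq_norm hm.aestronglyMeasurable]
  exact h

theorem a17_zero_of_grad {Ω : Set ℂ} (hΩ : MeasurableSet Ω) {P : ℂ → ℝ} {H : ℂ → ℂ}
    (hP : W1 Ω P H) (hD : W1 DD P H) {μ ρ ρ' : ℝ} (hμ : 0 ≤ μ) (hρ' : 0 < ρ') (hρ : ρ' < ρ)
    (hμρ : μ * (ρ ^ 2 / 2) < 1) (hs : ∀ᵐ z : ℂ, P z ≠ 0 → |z.re| ≤ ρ' ∧ |z.im| ≤ ρ')
    (hle : ∫ z in Ω, ‖H z‖ ^ 2 ≤ μ * ∫ z in Ω, P z ^ 2) : ∀ᵐ z, P z = 0 := by
  obtain ⟨mP, mH⟩ := a17_W1_memLp hP
  obtain ⟨-, -, hoff⟩ := W1_off hΩ hP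
  have e1 : ∫ z in Ω, ‖H z‖ ^ 2 = ∫ z, ‖H z‖ ^ 2 := by
    refine setIntegral_eq_integral_of_ae_compl_eq_zero ?_
    filter_upwards [hoff] with z hz hz'
    rw [(hz hz').2]; simp
  have e2 : ∫ z in Ω, P z ^ 2 ≤ ∫ z, P z ^ 2 :=
    setIntegral_le_integral (a17_sq_int mP) (Eventually.of_forall fun z => by positivity)
  have h1 := W1_poincare hD hρ' hρ hs
  have hH0 : 0 ≤ ∫ z, ‖H z‖ ^ 2 := integral_nonneg fun z => by positivity
  have h2 : ∫ z, ‖H z‖ ^ 2 ≤ μ * (ρ ^ 2 / 2) * ∫ z, ‖H z‖ ^ 2 := by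
    calc ∫ z, ‖H z‖ ^ 2 = ∫ z in Ω, ‖H z‖ ^ 2 := e1.symm
      _ ≤ μ * ∫ z in Ω, P z ^ 2 := hle
      _ ≤ μ * ∫ z, P z ^ 2 := by gcongr
      _ ≤ μ * (ρ ^ 2 / 2 * ∫ z, ‖H z‖ ^ 2) := by gcongr
      _ = _ := by ring
  have h3 : ∫ z, ‖H z‖ ^ 2 = 0 := by
    by_contra hne
    have hpos : 0 < ∫ z, ‖H z‖ ^ 2 := lt_of_le_of_ne hH0 (Ne.symm hne)
    nlinarith
  have h4 : ∫ z, P z ^ 2 = 0 := by
    have h5 : 0 ≤ ∫ z, P z ^ 2 := integral_nonneg fun z => by positivity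
    rw [h3, mul_zero] at h1
    linarith
  rw [integral_eq_zero_iff_of_nonneg (fun z => by positivity) (a17_sq_int mP)] at h4
  filter_upwards [h4] with z hz
  simpa using hz

/-- comparison, general form: `v ∈ W1 Ω₁` is a subsolution in `Ω₂`, `w ∈ W1 DD` and the smooth
barrier `ψ` are supersolutions in `Ω₂`, and `{v > w + ψ}` stays in the region where the cutoff `χ`
(supported in `Ω₂`) is `1`. -/
theorem comp_strong {Ω₁ Ω₂ : Set ℂ} (h₁ : IsOpen Ω₁) (h₂ : IsOpen Ω₂) (hD₁ : Ω₁ ⊆ DD)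
    (hD₂ : Ω₂ ⊆ DD) (hI₁ : ∀ z ∈ Ω₁, I * z ∈ Ω₁) (hI₂ : ∀ z ∈ Ω₂, I * z ∈ Ω₂)
    {v w ψ χ f g₁ g₂ : ℂ → ℝ} {G K : ℂ → ℂ} (hv : W1 Ω₁ v G) (hw : W1 DD w K)
    (hw0 : ∀ᵐ z, 0 ≤ w z) (hψ : ContDiffOn ℝ ∞ ψ Ω₁) (hψ0 : ∀ z ∈ Ω₁, 0 ≤ ψ z)
    (hψR : ∀ z ∈ Ω₁, ψ (I * z) = ψ z) (hψg : IntegrableOn (fun z => ‖gradient ψ z‖ ^ 2) Ω₁)
    (hf : MemLp f 2 (volume.restrict Ω₂)) (hg₁ : MemLp g₁ 2 (volume.restrict Ω₂))
    (hg₂ : MemLp g₂ 2 (volume.restrict Ω₂))
    (hsub : SubS Ω₂ G f) (hsup₁ : SupS Ω₂ K g₁) (hsup₂ : SupS Ω₂ (gradient ψ) g₂)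
    (hψ₂ : IntegrableOn (fun z => ‖gradient ψ z‖ ^ 2) Ω₂)
    (hχ : ContDiff ℝ ∞ χ) (hχR : Rot χ) (hs : tsupport χ ∩ Ω₁ ⊆ Ω₂)
    (hχ1 : ∀ᵐ z, z ∈ Ω₁ → ψ z < v z - w z → χ z = 1)
    {μ ρ ρ' : ℝ} (hμ : 0 ≤ μ) (hρ' : 0 < ρ') (hρ : ρ' < ρ) (hμρ : μ * (ρ ^ 2 / 2) < 1)
    (hfg : ∀ᵐ z : ℂ, z ∈ Ω₁ → ψ z < v z - w z →
      f z ≤ g₁ z + g₂ z + μ * (v z - w z - ψ z) ∧ |z.re| ≤ ρ' ∧ |z.im| ≤ ρ') :
    ∀ᵐ z, z ∈ Ω₁ → v z - w z ≤ ψ z := by
  obtain ⟨ζ, hζ, hLζ⟩ := W1_nonneg_approx a17_isOpen_DD subset_rfl a17_DD_rot hw hw0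
  obtain ⟨κ, hκ, hLκ⟩ := a17_pos h₁ hD₁ hI₁ hv ⟨ζ, hζ, hLζ⟩ hψ hψ0 hψR hψg
  set P : ℂ → ℝ := fun z => indicator Ω₁ (fun z => max (v z - w z - ψ z) 0) z with hP
  set H : ℂ → ℂ := fun z =>
    indicator (Ω₁ ∩ {z | ψ z < v z - w z}) (fun z => G z - K z - gradient ψ z) z with hH
  have hP0 : ∀ z, 0 ≤ P z := by
    intro z
    rw [hP]
    exact indicator_nonneg (fun z _ => le_max_right _ _) z
  have hPne : ∀ z, P z ≠ 0 → z ∈ Ω₁ ∧ ψ z < v z - w z ∧ P z = v z - w z - ψ z := by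
    intro z hz
    by_cases h : z ∈ Ω₁
    · rw [hP] at hz ⊢
      simp only [indicator_of_mem h] at hz ⊢
      have hpos : 0 < v z - w z - ψ z := by
        by_contra hcon
        push Not at hcon
        exact hz (max_eq_right hcon)
      exact ⟨h, by linarith, max_eq_left hpos.le⟩
    · rw [hP] at hz
      simp only [indicator_of_notMem h] at hz
      exact absurd rfl hz
  obtain ⟨hT, hL2⟩ := mul_lim (Ω' := Ω₂) h₁ hD₁ (fun n => (hκ n).1) hLκ hχ hs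
  have hPχ : (fun z => χ z * P z) =ᵐ[volume] P := by
    filter_upwards [hχ1] with z hz
    by_cases h : P z = 0
    · rw [h, mul_zero]
    · obtain ⟨a, b, -⟩ := hPne z h
      rw [hz a b, one_mul]
  have hHχ := a17_lim_unique hT (fun n => (hκ n).1) hL2 hLκ hPχ
  have hL3 := a17_lim_congr hL2 hPχ hHχ
  have hW2 : W1 Ω₂ P H := by
    refine ⟨_, fun n => ⟨hT n, ?_⟩, hL3⟩
    intro z
    simp only
    rw [hχR z, (hκ n).2.1 z]
  have hW1 : W1 Ω₁ P H := ⟨κ, fun n => ⟨(hκ n).1, (hκ n).2.1⟩, hLκ⟩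
  have hWD : W1 DD P H := a17_W1_mono hD₁ hW1
  obtain ⟨mP, mH⟩ := a17_W1_memLp hWD
  obtain ⟨mv, mG⟩ := a17_W1_memLp hv
  obtain ⟨mw, mK⟩ := a17_W1_memLp hw
  have mψ := a17_gradient_memLp hψ₂
  have hPae : ∀ᵐ z, 0 ≤ P z := Eventually.of_forall hP0
  have i1 := SubS_test h₂ hD₂ hI₂ (mG.restrict Ω₂) hf hsub hW2 hPae
  have i2 := a17_SupS_test h₂ hD₂ hI₂ (mK.restrict Ω₂) hg₁ hsup₁ hW2 hPae
  have i3 := a17_SupS_test h₂ hD₂ hI₂ mψ hg₂ hsup₂ hW2 hPae
  have q1 := H30.LE.integrable_inner (mG.restrict Ω₂) (mH.restrict Ω₂)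
  have q2 := H30.LE.integrable_inner (mK.restrict Ω₂) (mH.restrict Ω₂)
  have q3 := H30.LE.integrable_inner mψ (mH.restrict Ω₂)
  have r1 := a17_mul_int hf (mP.restrict Ω₂)
  have r2 := a17_mul_int hg₁ (mP.restrict Ω₂)
  have r3 := a17_mul_int hg₂ (mP.restrict Ω₂)
  have hle : ∫ z in Ω₂, ‖H z‖ ^ 2 ≤ μ * ∫ z in Ω₂, P z ^ 2 := by
    have e1 : ∫ z in Ω₂, ‖H z‖ ^ 2 = (∫ z in Ω₂, inner ℝ (G z) (H z)) -
        (∫ z in Ω₂, inner ℝ (K z) (H z)) - ∫ z in Ω₂, inner ℝ (gradient ψ z) (H z) := by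
      rw [a17_int_sub3 q1 q2 q3]
      congr 1
      funext z
      rw [← inner_sub_left, ← inner_sub_left]
      by_cases h : z ∈ Ω₁ ∩ {z | ψ z < v z - w z}
      · have : H z = G z - K z - gradient ψ z := by
          rw [hH]; simp only [indicator_of_mem h]
        rw [← this, real_inner_self_eq_norm_sq]
      · have : H z = 0 := by
          rw [hH]; simp only [indicator_of_notMem h]
        rw [this]; simp
    have e2 : (∫ z in Ω₂, f z * P z) - (∫ z in Ω₂, g₁ z * P z) - (∫ z in Ω₂, g₂ z * P z) ≤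
        μ * ∫ z in Ω₂, P z ^ 2 := by
      rw [a17_int_sub3 r1 r2 r3, ← integral_const_mul]
      refine setIntegral_mono_ae ((r1.sub r2).sub r3) ((a17_sq_int mP).integrableOn.const_mul μ) ?_
      filter_upwards [hfg] with z hz
      by_cases h : P z = 0
      · rw [h]; simp
      · obtain ⟨a, b, c⟩ := hPne z h
        have h1 := (hz a b).1
        rw [← c] at h1
        have h2 := hP0 z
        nlinarith
    linarith
  have hsupp : ∀ᵐ z : ℂ, P z ≠ 0 → |z.re| ≤ ρ' ∧ |z.im| ≤ ρ' := by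
    filter_upwards [hfg] with z hz h
    obtain ⟨a, b, -⟩ := hPne z h
    exact (hz a b).2
  have hfin := a17_zero_of_grad h₂.measurableSet hW2 hWD hμ hρ' hρ hμρ hsupp hle
  filter_upwards [hfin] with z hz hzΩ
  rw [hP] at hz
  simp only [indicator_of_mem hzΩ] at hz
  have := le_max_left (v z - w z - ψ z) 0
  linarith


theorem a17_rot_tsupport {φ : ℂ → ℝ} (h : Rot φ) {z : ℂ} (hz : z ∈ tsupport φ) :
    I * z ∈ tsupport φ := by
  refine map_mem_closure (f := fun z => I * z) (by fun_prop) hz ?_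
  intro y hy
  rw [Function.mem_support] at hy ⊢
  rw [h y]; exact hy

/-- a rotation invariant open neighbourhood with compact closure -/
theorem a17_nbhd {Ω : Set ℂ} (hΩ : IsOpen Ω) {φ : ℂ → ℝ} (h : Tst Ω φ) (hR : Rot φ) :
    ∃ U K : Set ℂ, IsOpen U ∧ IsCompact K ∧ tsupport φ ⊆ U ∧ U ⊆ K ∧ K ⊆ Ω ∧
      ∀ z ∈ U, I * z ∈ U := by
  have hc : IsCompact (tsupport φ) := h.2.1
  obtain ⟨δ, hδ, hsub⟩ := hc.exists_cthickening_subset_open hΩ h.2.2
  refine ⟨Metric.thickening δ (tsupport φ), Metric.cthickening δ (tsupport φ),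
    Metric.isOpen_thickening, hc.cthickening, Metric.self_subset_thickening hδ _,
    Metric.thickening_subset_cthickening _ _, hsub, ?_⟩
  intro z hz
  rw [Metric.mem_thickening_iff] at hz ⊢
  obtain ⟨y, hy, hd⟩ := hz
  refine ⟨I * y, a17_rot_tsupport hR hy, ?_⟩
  rw [dist_eq_norm] at hd ⊢
  rw [← mul_sub, norm_mul, norm_I, one_mul]
  exact hd

theorem a17_lim_const {Ω : Set ℂ} {φ : ℂ → ℝ} (h : Tst Ω φ) :
    Lim (fun _ => φ) φ (gradient φ) := by
  refine ⟨(a17_tst_memLp h 2).aestronglyMeasurable, (a17_tst_memLp_grad h 2).aestronglyMeasurable,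
    ?_, ?_⟩
  · simp
  · simp

theorem a17_bdd_memLp {E : Type*} [NormedAddCommGroup E] {U K : Set ℂ} (hU : IsOpen U)
    (hK : IsCompact K) (hUK : U ⊆ K) {F : ℂ → E} [SecondCountableTopologyEither ℂ E]
    (hF : ContinuousOn F K) : MemLp F 2 (volume.restrict U) := by
  obtain ⟨C, hC⟩ := hK.exists_bound_of_continuousOn hF
  have : IsFiniteMeasure (volume.restrict U) :=
    ⟨by rw [Measure.restrict_apply_univ]; exact lt_of_le_of_lt (measure_mono hUK) hK.measure_lt_top⟩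
  refine MemLp.of_bound ((hF.mono hUK).aestronglyMeasurable hU.measurableSet) C ?_
  exact (ae_restrict_mem hU.measurableSet).mono fun z hz => hC z (hUK hz)

theorem a17_grad_contOn {Ω : Set ℂ} (hΩ : IsOpen Ω) {ψ : ℂ → ℝ} (hψ : ContDiffOn ℝ ∞ ψ Ω) :
    ContinuousOn (gradient ψ) Ω := by
  unfold gradient
  exact (LinearIsometryEquiv.continuous _).comp_continuousOn
    (hψ.continuousOn_fderiv_of_isOpen hΩ (by simp))

/-- comparison with a smooth barrier whose gradient need not be square integrable -/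
theorem comp_weak {Ω : Set ℂ} (hΩ : IsOpen Ω) (hD : Ω ⊆ DD) (hI : ∀ z ∈ Ω, I * z ∈ Ω)
    {v ψ f g : ℂ → ℝ} {G : ℂ → ℂ} (hv : W1 Ω v G) (hf : MemLp f 2 (volume.restrict Ω))
    (hsub : SubS Ω G f) (hψ : ContDiffOn ℝ ∞ ψ Ω) (hψ0 : ∀ z ∈ Ω, 0 ≤ ψ z)
    (hψR : ∀ z ∈ Ω, ψ (I * z) = ψ z) (hg : ContinuousOn g Ω) (hsup : SupS Ω (gradient ψ) g)
    (hfg : ∀ᵐ z, z ∈ Ω → f z ≤ g z) :
    ∀ᵐ z, z ∈ Ω → v z ≤ ψ z := by
  obtain ⟨φ, hφ, hL⟩ := hv
  obtain ⟨mv, mG⟩ := a17_lim_memLp (fun n => (hφ n).1) hL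
  set P : ℕ → ℂ → ℝ := fun n => indicator Ω (fun z => max (φ n z - ψ z) 0) with hP
  -- key estimate
  have key : ∀ n, MemLp (P n) 2 volume ∧
      ∫ z, P n z ^ 2 ≤ 2 * ∫ z, ‖gradient (φ n) z - G z‖ ^ 2 := by
    intro n
    obtain ⟨U, K, hU, hK, hsU, hUK, hKΩ, hUI⟩ := a17_nbhd hΩ (hφ n).1 (hφ n).2
    have hUΩ : U ⊆ Ω := hUK.trans hKΩ
    have hTU : Tst U (φ n) := ⟨(hφ n).1.1, (hφ n).1.2.1, hsU⟩
    have hW : W1 U (φ n) (gradient (φ n)) := ⟨fun _ => φ n, fun _ => ⟨hTU, (hφ n).2⟩,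
      a17_lim_const hTU⟩
    have mψ : MemLp (gradient ψ) 2 (volume.restrict U) :=
      a17_bdd_memLp hU hK hUK ((a17_grad_contOn hΩ hψ).mono hKΩ)
    have mg : MemLp g 2 (volume.restrict U) := a17_bdd_memLp hU hK hUK (hg.mono hKΩ)
    have hψg : IntegrableOn (fun z => ‖gradient ψ z‖ ^ 2) U := by
      have := H30.LE.integrable_inner mψ mψ
      simp only [real_inner_self_eq_norm_sq] at this
      exact this
    obtain ⟨κ, hκ, hLκ⟩ := a17_pos hU (hUΩ.trans hD) hUI hW a17_zero_approx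
      (hψ.mono hUΩ) (fun z hz => hψ0 z (hUΩ hz)) (fun z hz => hψR z (hUΩ hz)) hψg
    set H : ℂ → ℂ := fun z =>
      indicator (U ∩ {z | ψ z < φ n z - 0}) (fun z => gradient (φ n) z - 0 - gradient ψ z) z with hH
    have hPe : (fun z => indicator U (fun z => max (φ n z - 0 - ψ z) 0) z) = P n := by
      funext z
      rw [hP]
      by_cases hzU : z ∈ U
      · simp only [indicator_of_mem hzU, indicator_of_mem (hUΩ hzU), sub_zero]
      · simp only [indicator_of_notMem hzU]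
        by_cases hzΩ : z ∈ Ω
        · rw [indicator_of_mem hzΩ]
          have : φ n z = 0 := (a17_tst_off hTU hzU).1
          rw [this]
          have := hψ0 z hzΩ
          rw [max_eq_right (by linarith)]
        · rw [indicator_of_notMem hzΩ]
    rw [hPe] at hLκ
    have hWP : W1 U (P n) H := ⟨κ, fun m => ⟨(hκ m).1, (hκ m).2.1⟩, hLκ⟩
    obtain ⟨mP, mH⟩ := a17_W1_memLp hWP
    refine ⟨mP, ?_⟩
    have hP0 : ∀ z, 0 ≤ P n z := by
      intro z
      rw [hP]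
      exact indicator_nonneg (fun z _ => le_max_right _ _) z
    have hsubU : SubS U G f := fun ζ hζ hR h0 => hsub ζ (a17_tst_mono hUΩ hζ) hR h0
    have hsupU : SupS U (gradient ψ) g := fun ζ hζ hR h0 => hsup ζ (a17_tst_mono hUΩ hζ) hR h0
    have mfU : MemLp f 2 (volume.restrict U) := hf.mono_measure (Measure.restrict_mono hUΩ le_rfl)
    have i1 := SubS_test hU (hUΩ.trans hD) hUI (mG.restrict U) mfU hsubU hWP
      (Eventually.of_forall hP0)
    have i2 := a17_SupS_test hU (hUΩ.trans hD) hUI mψ mg hsupU hWP (Eventually.of_forall hP0)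
    have mφ := (a17_tst_memLp_grad hTU 2)
    have hfgP : ∫ z in U, f z * P n z ≤ ∫ z in U, g z * P n z := by
      refine setIntegral_mono_ae (a17_mul_int mfU (mP.restrict U)) (a17_mul_int mg (mP.restrict U)) ?_
      filter_upwards [hfg] with z hz
      by_cases hzΩ : z ∈ Ω
      · exact mul_le_mul_of_nonneg_right (hz hzΩ) (hP0 z)
      · have : P n z = 0 := by rw [hP]; simp only [indicator_of_notMem hzΩ]
        rw [this, mul_zero, mul_zero]
    have q1 := H30.LE.integrable_inner (mφ.restrict U) (mH.restrict U)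
    have q2 := H30.LE.integrable_inner (mG.restrict U) (mH.restrict U)
    have q3 := H30.LE.integrable_inner mψ (mH.restrict U)
    have hoff := (W1_off hU.measurableSet hWP).2.2
    have e0 : ∫ z in U, ‖H z‖ ^ 2 = ∫ z, ‖H z‖ ^ 2 := by
      refine setIntegral_eq_integral_of_ae_compl_eq_zero ?_
      filter_upwards [hoff] with z hz hz'
      rw [(hz hz').2]; simp
    have e1 : ∫ z in U, ‖H z‖ ^ 2 = (∫ z in U, inner ℝ (gradient (φ n) z) (H z)) -
        ∫ z in U, inner ℝ (gradient ψ z) (H z) := by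
      rw [← integral_sub q1 q3]
      congr 1
      funext z
      rw [← inner_sub_left]
      by_cases h : z ∈ U ∩ {z | ψ z < φ n z - 0}
      · have : H z = gradient (φ n) z - gradient ψ z := by
          rw [hH]; simp only; rw [indicator_of_mem h, sub_zero]
        rw [← this, real_inner_self_eq_norm_sq]
      · have : H z = 0 := by
          rw [hH]; simp only [indicator_of_notMem h]
        rw [this]; simp
    have e2 : (∫ z in U, inner ℝ (gradient (φ n) z) (H z)) - (∫ z in U, inner ℝ (G z) (H z)) =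
        ∫ z in U, inner ℝ (gradient (φ n) z - G z) (H z) := by
      rw [← integral_sub q1 q2]
      congr 1
      funext z
      rw [← inner_sub_left]
    have md : MemLp (fun z => gradient (φ n) z - G z) 2 volume := mφ.sub mG
    have cs := H30.LE.integral_inner_le (md.restrict U) (mH.restrict U)
    have hle : ∫ z, ‖H z‖ ^ 2 ≤ √(∫ z, ‖gradient (φ n) z - G z‖ ^ 2) * √(∫ z, ‖H z‖ ^ 2) := by
      have h1 : ∫ z in U, inner ℝ (gradient (φ n) z - G z) (H z) ≤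
          √(∫ z in U, ‖gradient (φ n) z - G z‖ ^ 2) * √(∫ z in U, ‖H z‖ ^ 2) :=
        (le_abs_self _).trans cs
      have h2 : ∫ z in U, ‖gradient (φ n) z - G z‖ ^ 2 ≤ ∫ z, ‖gradient (φ n) z - G z‖ ^ 2 :=
        setIntegral_le_integral (a17_norm_sq_int md) (Eventually.of_forall fun z => by positivity)
      have h3 : √(∫ z in U, ‖gradient (φ n) z - G z‖ ^ 2) * √(∫ z in U, ‖H z‖ ^ 2) ≤
          √(∫ z, ‖gradient (φ n) z - G z‖ ^ 2) * √(∫ z, ‖H z‖ ^ 2) := by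
        rw [e0]
        exact mul_le_mul_of_nonneg_right (Real.sqrt_le_sqrt h2) (Real.sqrt_nonneg _)
      rw [← e0]
      rw [← e0] at h3
      linarith
    have hH0 : 0 ≤ ∫ z, ‖H z‖ ^ 2 := integral_nonneg fun z => by positivity
    have hd0 : 0 ≤ ∫ z, ‖gradient (φ n) z - G z‖ ^ 2 := integral_nonneg fun z => by positivity
    have hle2 : ∫ z, ‖H z‖ ^ 2 ≤ ∫ z, ‖gradient (φ n) z - G z‖ ^ 2 := by
      set a := √(∫ z, ‖gradient (φ n) z - G z‖ ^ 2) with ha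
      set b := √(∫ z, ‖H z‖ ^ 2) with hb
      have ea : ∫ z, ‖gradient (φ n) z - G z‖ ^ 2 = a ^ 2 := (Real.sq_sqrt hd0).symm
      have eb : ∫ z, ‖H z‖ ^ 2 = b ^ 2 := (Real.sq_sqrt hH0).symm
      have a0 : 0 ≤ a := Real.sqrt_nonneg _
      have b0 : 0 ≤ b := Real.sqrt_nonneg _
      rw [ea, eb]
      rw [eb] at hle
      rcases eq_or_lt_of_le b0 with h | h
      · rw [← h]; nlinarith [sq_nonneg a]
      · have : b ≤ a := by nlinarith
        nlinarith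
    have hWD : W1 DD (P n) H := a17_W1_mono (hUΩ.trans hD) hWP
    have hsupp : ∀ᵐ z : ℂ, P n z ≠ 0 → |z.re| ≤ 1 ∧ |z.im| ≤ 1 := by
      refine Eventually.of_forall fun z hz => ?_
      by_cases hzΩ : z ∈ Ω
      · have := hD hzΩ
        exact ⟨this.1.le, this.2.le⟩
      · exfalso; apply hz; rw [hP]; simp only [indicator_of_notMem hzΩ]
    have := W1_poincare hWD one_pos one_lt_two hsupp
    calc ∫ z, P n z ^ 2 ≤ 2 ^ 2 / 2 * ∫ z, ‖H z‖ ^ 2 := this
      _ = 2 * ∫ z, ‖H z‖ ^ 2 := by norm_num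
      _ ≤ _ := by gcongr
  have tG : Tendsto (fun n => ∫ z, ‖gradient (φ n) z - G z‖ ^ 2) atTop (𝓝 0) := by
    have := H30.LE.tendsto_integral_norm_sq (b := fun n z => gradient (φ n) z - G z)
      (b' := fun _ => (0:ℂ)) (fun n => (a17_tst_memLp_grad (hφ n).1 2).sub mG) MemLp.zero
      (by simpa using hL.2.2.2)
    simpa using this
  have tP : Tendsto (fun n => ∫ z, P n z ^ 2) atTop (𝓝 0) := by
    refine squeeze_zero (fun n => integral_nonneg fun z => by positivity) (fun n => (key n).2) ?_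
    simpa using tG.const_mul 2
  have tP' : Tendsto (fun n => eLpNorm (fun z => P n z - (fun _ => (0:ℝ)) z) 2 volume) atTop
      (𝓝 0) := by
    have e : ∀ n, eLpNorm (fun z => P n z - (fun _ => (0:ℝ)) z) 2 volume =
        ENNReal.ofReal (√(∫ z, P n z ^ 2)) := by
      intro n
      simp only [sub_zero]
      have h1 := (key n).1.eLpNorm_eq_integral_rpow_norm (by norm_num) (by norm_num)
      rw [show (fun z => P n z) = P n from rfl, h1]
      congr 1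
      rw [Real.sqrt_eq_rpow]
      norm_num
    simp only [e]
    have : Tendsto (fun n => ENNReal.ofReal (√(∫ z, P n z ^ 2))) atTop
        (𝓝 (ENNReal.ofReal (√0))) :=
      ENNReal.tendsto_ofReal ((Real.continuous_sqrt.tendsto 0).comp tP)
    simpa using this
  obtain ⟨ns, hns, hae⟩ := a17_subseq (fun n => (a17_tst_memLp (hφ n).1 2).aestronglyMeasurable)
    mv.aestronglyMeasurable hL.2.2.1
  obtain ⟨ms, hms, hae2⟩ := a17_subseq (b := fun n => P (ns n)) (b' := fun _ => (0:ℝ))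
    (fun n => (key (ns n)).1.aestronglyMeasurable) aestronglyMeasurable_const
    (tP'.comp hns.tendsto_atTop)
  filter_upwards [hae, hae2] with z h1 h2 hz
  have h3 : Tendsto (fun i => max (φ (ns (ms i)) z - ψ z) 0) atTop (𝓝 (max (v z - ψ z) 0)) := by
    have := h1.comp hms.tendsto_atTop
    exact ((this.sub_const (ψ z)).max tendsto_const_nhds)
  have h4 : Tendsto (fun i => max (φ (ns (ms i)) z - ψ z) 0) atTop (𝓝 0) := by
    refine h2.congr fun i => ?_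
    rw [hP]
    simp only [indicator_of_mem hz]
  have h5 := tendsto_nhds_unique h3 h4
  have := le_max_left (v z - ψ z) 0
  linarith


/-- Stampacchia's iteration -/
theorem a17_stampacchia {a : ℝ → ℝ} {M : ℝ} (hM : 0 < M) (ha : ∀ k, 0 ≤ a k)
    (h0 : a 0 ≤ 8) (hmono : ∀ h k, h ≤ k → a k ≤ a h)
    (hstep : ∀ k h, 0 ≤ k → k < h → a h * (h - k) ^ 4 ≤ M ^ 4 * a k ^ ((5:ℝ) / 3)) :
    a (8 * M) = 0 := by
  have key : ∀ n : ℕ, a (8 * M * (1 - (1 / 2) ^ n)) ≤ 8 * (1 / 64) ^ n := by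
    intro n
    induction n with
    | zero => simpa using h0
    | succ n ih =>
      have hp : (0:ℝ) < (1 / 2) ^ n := by positivity
      have hp1 : ((1:ℝ) / 2) ^ n ≤ 1 := pow_le_one₀ (by norm_num) (by norm_num)
      have hs := hstep (8 * M * (1 - (1 / 2) ^ n)) (8 * M * (1 - (1 / 2) ^ (n + 1)))
        (by apply mul_nonneg (by linarith); linarith)
        (by apply mul_lt_mul_of_pos_left _ (by linarith); rw [pow_succ]; linarith)
      have e1 : 8 * M * (1 - (1 / 2) ^ (n + 1)) - 8 * M * (1 - (1 / 2) ^ n) =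
          4 * M * (1 / 2) ^ n := by rw [pow_succ]; ring
      rw [e1] at hs
      have h2 : a (8 * M * (1 - (1 / 2) ^ n)) ^ ((5:ℝ) / 3) ≤ 32 * (1 / 1024) ^ n := by
        calc a (8 * M * (1 - (1 / 2) ^ n)) ^ ((5:ℝ) / 3) ≤ (8 * (1 / 64) ^ n) ^ ((5:ℝ) / 3) :=
              Real.rpow_le_rpow (ha _) ih (by norm_num)
          _ = 32 * (1 / 1024) ^ n := by
              have e8 : (8:ℝ) = 2 ^ (3:ℝ) := by norm_num
              have e64 : ((1:ℝ) / 64) ^ n = ((1 / 4) ^ n) ^ (3:ℝ) := by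
                rw [show (3:ℝ) = ((3:ℕ):ℝ) by norm_num, Real.rpow_natCast, ← pow_mul, mul_comm n 3,
                  pow_mul]
                norm_num
              have e1024 : ((1:ℝ) / 1024) ^ n = ((1 / 4) ^ n) ^ (5:ℝ) := by
                rw [show (5:ℝ) = ((5:ℕ):ℝ) by norm_num, Real.rpow_natCast, ← pow_mul, mul_comm n 5,
                  pow_mul]
                norm_num
              rw [e64, e1024, e8, ← Real.mul_rpow (by norm_num) (by positivity),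
                ← Real.rpow_mul (by positivity), Real.mul_rpow (by norm_num) (by positivity)]
              norm_num
      have h3 : a (8 * M * (1 - (1 / 2) ^ (n + 1))) * (4 * M * (1 / 2) ^ n) ^ 4 ≤
          M ^ 4 * (32 * (1 / 1024) ^ n) := hs.trans (by gcongr)
      have e2 : (4 * M * (1 / 2) ^ n) ^ 4 = M ^ 4 * (256 * (1 / 16) ^ n) := by
        have : ((1:ℝ) / 16) ^ n = ((1 / 2) ^ n) ^ 4 := by
          rw [← pow_mul, mul_comm n 4, pow_mul]; norm_num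
        rw [this]; ring
      have e3 : ((1:ℝ) / 1024) ^ n = (1 / 64) ^ n * (1 / 16) ^ n := by
        rw [← mul_pow]; norm_num
      rw [e2, e3] at h3
      have hM4 : 0 < M ^ 4 := by positivity
      have hq : (0:ℝ) < (1 / 16) ^ n := by positivity
      have h4 : a (8 * M * (1 - (1 / 2) ^ (n + 1))) * 256 * (M ^ 4 * (1 / 16) ^ n) ≤
          32 * (1 / 64) ^ n * (M ^ 4 * (1 / 16) ^ n) := by linarith
      have h5 := le_of_mul_le_mul_right h4 (by positivity)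
      rw [show ((1:ℝ) / 64) ^ (n + 1) = (1 / 64) ^ n * (1 / 64) from pow_succ _ _]
      linarith
  have hle : ∀ n : ℕ, a (8 * M) ≤ 8 * (1 / 64) ^ n := fun n =>
    (hmono _ _ (by
      have hp : (0:ℝ) < (1 / 2) ^ n := by positivity
      nlinarith)).trans (key n)
  have ht : Tendsto (fun n : ℕ => (8:ℝ) * (1 / 64) ^ n) atTop (𝓝 (8 * 0)) :=
    (tendsto_pow_atTop_nhds_zero_of_lt_one (by norm_num) (by norm_num)).const_mul 8
  rw [mul_zero] at ht
  exact le_antisymm (ge_of_tendsto' ht hle) (ha _)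

theorem a17_vol_DD : volume DD ≤ 8 := by
  have hsub : DD ⊆ Metric.ball (0:ℂ) (3 / 2) := by
    intro z hz
    rw [mem_ball_zero_iff]
    have h1 := abs_lt.mp hz.1
    have h2 := abs_lt.mp hz.2
    have : ‖z‖ ^ 2 < (3 / 2) ^ 2 := by
      rw [Complex.sq_norm, Complex.normSq_apply]
      nlinarith
    exact lt_of_pow_lt_pow_left₀ 2 (by norm_num) this
  refine (measure_mono hsub).trans ?_
  rw [Complex.volume_ball]
  have h1 : (NNReal.pi : ENNReal) ≤ ENNReal.ofReal 3.15 := by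
    have : (NNReal.pi : ENNReal) = ENNReal.ofReal Real.pi := by
      rw [ENNReal.ofReal, NNReal.pi, Real.toNNReal_of_nonneg Real.pi_pos.le]
      rfl
    rw [this]
    exact ENNReal.ofReal_le_ofReal Real.pi_lt_d2.le
  calc ENNReal.ofReal (3 / 2) ^ 2 * (NNReal.pi : ENNReal) ≤
      ENNReal.ofReal (3 / 2) ^ 2 * ENNReal.ofReal 3.15 := by gcongr
    _ = ENNReal.ofReal ((3 / 2) ^ 2 * 3.15) := by
        rw [← ENNReal.ofReal_pow (by norm_num), ← ENNReal.ofReal_mul (by norm_num)]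
    _ ≤ ENNReal.ofReal 8 := ENNReal.ofReal_le_ofReal (by norm_num)
    _ = 8 := by norm_num


theorem a17_eLpNorm_two {μ : Measure ℂ} {P : ℂ → ℝ} (hP : MemLp P 2 μ) :
    (eLpNorm P 2 μ).toReal = √(∫ z, ‖P z‖ ^ 2 ∂μ) := by
  have h1 := hP.eLpNorm_eq_integral_rpow_norm (by norm_num) (by norm_num)
  rw [h1, ENNReal.toReal_ofReal (by positivity), Real.sqrt_eq_rpow]
  norm_num

theorem a17_eLpNorm_four {μ : Measure ℂ} {P : ℂ → ℝ} (hP : MemLp P 4 μ) :
    (eLpNorm P 4 μ).toReal ^ 4 = ∫ z, P z ^ 4 ∂μ := by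
  have h1 := hP.eLpNorm_eq_integral_rpow_norm (by norm_num) (by norm_num)
  have h0 : 0 ≤ ∫ z, ‖P z‖ ^ (4:ENNReal).toReal ∂μ := integral_nonneg fun z => by positivity
  rw [h1, ENNReal.toReal_ofReal (by positivity), ← Real.rpow_natCast, ← Real.rpow_mul h0]
  norm_num
  congr 1
  funext z
  have : |P z| ^ 4 = (|P z| ^ 2) ^ 2 := by ring
  rw [this, sq_abs]; ring

theorem a17_level {C4 : ℝ} (hC4 : 0 < C4) (h4 : ∀ (v : ℂ → ℝ) (G : ℂ → ℂ), W1 DD v G →
    MemLp v 4 volume ∧ ∫ z, v z ^ 4 ≤ C4 * (∫ z, ‖G z‖ ^ 2) ^ 2)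
    {Ω : Set ℂ} (hΩ : IsOpen Ω) (hD : Ω ⊆ DD) (hI : ∀ z ∈ Ω, I * z ∈ Ω)
    {v f : ℂ → ℝ} {G : ℂ → ℂ} (hv : W1 Ω v G) (hvm : Measurable v)
    (hf : MemLp f 3 (volume.restrict Ω)) (hsub : SubS Ω G f) {k h : ℝ} (hk : 0 ≤ k) (hkh : k < h) :
    (volume (Ω ∩ {z | h < v z})).toReal * (h - k) ^ 4 ≤
      (√C4 * (eLpNorm f 3 (volume.restrict Ω)).toReal) ^ 4 *
        (volume (Ω ∩ {z | k < v z})).toReal ^ ((5:ℝ) / 3) := by
  have hfin : volume Ω < ⊤ := (measure_mono hD).trans_lt (a17_vol_DD.trans_lt (by norm_num))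
  have : IsFiniteMeasure (volume.restrict Ω) := ⟨by rwa [Measure.restrict_apply_univ]⟩
  set F := (eLpNorm f 3 (volume.restrict Ω)).toReal with hF
  have hF0 : 0 ≤ F := ENNReal.toReal_nonneg
  have hmA : ∀ k : ℝ, MeasurableSet (Ω ∩ {z | k < v z}) := fun k =>
    hΩ.measurableSet.inter (measurableSet_lt measurable_const hvm)
  set A := Ω ∩ {z | k < v z} with hA
  have hAΩ : A ⊆ Ω := inter_subset_left
  have hAfin : volume A < ⊤ := (measure_mono hAΩ).trans_lt hfin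
  have : IsFiniteMeasure (volume.restrict A) := ⟨by rwa [Measure.restrict_apply_univ]⟩
  obtain ⟨κ, hκ, hLκ⟩ := a17_pos hΩ hD hI hv a17_zero_approx (ψ := fun _ => k) contDiffOn_const
    (fun _ _ => hk) (fun _ _ => rfl) (by simp [a17_grad_const])
  set P : ℂ → ℝ := fun z => indicator Ω (fun z => max (v z - 0 - k) 0) z with hP
  set H : ℂ → ℂ := fun z =>
    indicator (Ω ∩ {z | k < v z - 0}) (fun z => G z - 0 - gradient (fun _ => k) z) z with hH
  have hWP : W1 Ω P H := ⟨κ, fun m => ⟨(hκ m).1, (hκ m).2.1⟩, hLκ⟩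
  obtain ⟨mP, mH⟩ := a17_W1_memLp hWP
  obtain ⟨mv, mG⟩ := a17_W1_memLp hv
  have hWD := a17_W1_mono hD hWP
  obtain ⟨mP4, hP4⟩ := h4 _ _ hWD
  have hP0 : ∀ z, 0 ≤ P z := fun z => by
    rw [hP]; exact indicator_nonneg (fun z _ => le_max_right _ _) z
  have hPoff : ∀ z, z ∉ A → P z = 0 := by
    intro z hz
    rw [hP]
    by_cases hzΩ : z ∈ Ω
    · simp only [indicator_of_mem hzΩ, sub_zero]
      have : ¬ k < v z := fun h => hz ⟨hzΩ, h⟩
      push Not at this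
      exact max_eq_right (by linarith)
    · simp only [indicator_of_notMem hzΩ]
  have hPA : ∀ z ∈ A, P z = v z - k := by
    intro z hz
    rw [hP]
    simp only [indicator_of_mem hz.1, sub_zero]
    have := hz.2
    simp only [mem_ofPred_eq] at this
    exact max_eq_left (by linarith)
  have mf2 : MemLp f 2 (volume.restrict Ω) := hf.mono_exponent (by norm_num)
  have i1 := SubS_test hΩ hD hI (mG.restrict Ω) mf2 hsub hWP (Eventually.of_forall hP0)
  set D := ∫ z, ‖H z‖ ^ 2 with hDdef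
  have hD0 : 0 ≤ D := integral_nonneg fun z => by positivity
  have e1 : ∫ z in Ω, inner ℝ (G z) (H z) = D := by
    rw [hDdef]
    have : ∀ z, inner ℝ (G z) (H z) = ‖H z‖ ^ 2 := by
      intro z
      by_cases hz : z ∈ Ω ∩ {z | k < v z - 0}
      · have : H z = G z := by
          rw [hH]; simp only; rw [indicator_of_mem hz, a17_grad_const, sub_zero, sub_zero]
        rw [this, real_inner_self_eq_norm_sq]
      · have : H z = 0 := by
          rw [hH]; simp only [indicator_of_notMem hz]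
        rw [this]; simp
    simp only [this]
    refine setIntegral_eq_integral_of_forall_compl_eq_zero fun z hz => ?_
    have : H z = 0 := by
      rw [hH]; simp only; rw [indicator_of_notMem (fun h => hz h.1)]
    rw [this]; simp
  have e2 : ∫ z in Ω, f z * P z = ∫ z in A, f z * P z := by
    refine setIntegral_eq_of_subset_of_forall_sdiff_eq_zero hΩ.measurableSet hAΩ fun z hz => ?_
    rw [hPoff z hz.2, mul_zero]
  have mfA : MemLp f 2 (volume.restrict A) := mf2.mono_measure (Measure.restrict_mono hAΩ le_rfl)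
  have mf3A : MemLp f 3 (volume.restrict A) := hf.mono_measure (Measure.restrict_mono hAΩ le_rfl)
  have mPA : MemLp P 2 (volume.restrict A) := mP.restrict A
  have mP4A : MemLp P 4 (volume.restrict A) := mP4.restrict A
  have cs := H30.LE.integral_inner_le mfA mPA
  simp only [a17_real_inner] at cs
  rw [← a17_eLpNorm_two mfA, ← a17_eLpNorm_two mPA] at cs
  set α := (volume A).toReal with hα
  have hα0 : 0 ≤ α := ENNReal.toReal_nonneg
  have b1 : (eLpNorm f 2 (volume.restrict A)).toReal ≤ F * α ^ ((1:ℝ) / 6) := by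
    have h1 := eLpNorm_le_eLpNorm_mul_rpow_measure_univ (p := 2) (q := 3) (by norm_num)
      mf3A.aestronglyMeasurable
    rw [Measure.restrict_apply_univ] at h1
    have h2 : eLpNorm f 3 (volume.restrict A) ≤ eLpNorm f 3 (volume.restrict Ω) :=
      eLpNorm_mono_measure _ (Measure.restrict_mono hAΩ le_rfl)
    have h3 : eLpNorm f 2 (volume.restrict A) ≤
        eLpNorm f 3 (volume.restrict Ω) * volume A ^ ((1:ℝ) / 6) := by
      refine h1.trans ?_
      have : (1 / (2:ENNReal).toReal - 1 / (3:ENNReal).toReal) = (1:ℝ) / 6 := by norm_num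
      rw [this]
      gcongr
    have h4 := ENNReal.toReal_mono (ENNReal.mul_ne_top hf.eLpNorm_ne_top
      (ENNReal.rpow_ne_top_of_nonneg (by norm_num) hAfin.ne)) h3
    rw [ENNReal.toReal_mul, ← ENNReal.toReal_rpow] at h4
    exact h4
  have b2 : (eLpNorm P 2 (volume.restrict A)).toReal ≤
      (eLpNorm P 4 (volume.restrict A)).toReal * α ^ ((1:ℝ) / 4) := by
    have h1 := eLpNorm_le_eLpNorm_mul_rpow_measure_univ (p := 2) (q := 4) (by norm_num)
      mP4A.aestronglyMeasurable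
    rw [Measure.restrict_apply_univ] at h1
    have : (1 / (2:ENNReal).toReal - 1 / (4:ENNReal).toReal) = (1:ℝ) / 4 := by norm_num
    rw [this] at h1
    have h4 := ENNReal.toReal_mono (ENNReal.mul_ne_top mP4A.eLpNorm_ne_top
      (ENNReal.rpow_ne_top_of_nonneg (by norm_num) hAfin.ne)) h1
    rw [ENNReal.toReal_mul, ← ENNReal.toReal_rpow] at h4
    exact h4
  set x := (eLpNorm P 4 (volume.restrict A)).toReal with hx
  have hx0 : 0 ≤ x := ENNReal.toReal_nonneg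
  have hx4 : x ^ 4 ≤ C4 * D ^ 2 := by
    rw [hx, a17_eLpNorm_four mP4A]
    refine le_trans ?_ hP4
    refine setIntegral_le_integral ?_ (Eventually.of_forall fun z => by positivity)
    have := mP4.integrable_norm_rpow (by norm_num) (by norm_num)
    refine this.congr (Eventually.of_forall fun z => ?_)
    simp only
    rw [show (4:ENNReal).toReal = ((4:ℕ):ℝ) by norm_num, Real.rpow_natCast, Real.norm_eq_abs]
    have : |P z| ^ 4 = (|P z| ^ 2) ^ 2 := by ring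
    rw [this, sq_abs]; ring
  have hDle : D ≤ F * x * α ^ ((5:ℝ) / 12) := by
    have e3 : α ^ ((1:ℝ) / 6) * α ^ ((1:ℝ) / 4) = α ^ ((5:ℝ) / 12) := by
      rw [← Real.rpow_add_of_nonneg hα0 (by norm_num) (by norm_num)]; norm_num
    calc D ≤ |∫ z in A, f z * P z| := by
          rw [← e1]; rw [e2] at i1; exact i1.trans (le_abs_self _)
      _ ≤ _ := cs
      _ ≤ (F * α ^ ((1:ℝ) / 6)) * (x * α ^ ((1:ℝ) / 4)) := by gcongr
      _ = F * x * (α ^ ((1:ℝ) / 6) * α ^ ((1:ℝ) / 4)) := by ring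
      _ = _ := by rw [e3]
  -- x^2 ≤ C4 F^2 α^{5/6}
  have hx2 : x ^ 2 ≤ C4 * F ^ 2 * α ^ ((5:ℝ) / 6) := by
    set β := α ^ ((5:ℝ) / 12) with hβ
    have hβ0 : 0 ≤ β := Real.rpow_nonneg hα0 _
    have eβ : α ^ ((5:ℝ) / 6) = β ^ 2 := by
      rw [hβ, ← Real.rpow_natCast, ← Real.rpow_mul hα0]; norm_num
    rw [eβ]
    have h1 : x ^ 4 ≤ C4 * (F * x * β) ^ 2 := hx4.trans (by gcongr)
    rcases eq_or_lt_of_le hx0 with h | h
    · rw [← h]
      have : 0 ≤ C4 * F ^ 2 * β ^ 2 := by positivity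
      nlinarith
    · have h2 : 0 < x ^ 2 := by positivity
      have h3 : x ^ 2 * x ^ 2 ≤ C4 * F ^ 2 * β ^ 2 * x ^ 2 := by nlinarith
      exact le_of_mul_le_mul_right h3 h2
  have hx4' : x ^ 4 ≤ (√C4 * F) ^ 4 * α ^ ((5:ℝ) / 3) := by
    have eα : α ^ ((5:ℝ) / 3) = (α ^ ((5:ℝ) / 6)) ^ 2 := by
      rw [← Real.rpow_natCast, ← Real.rpow_mul hα0]; norm_num
    have eC : (√C4 * F) ^ 4 = (C4 * F ^ 2) ^ 2 := by
      rw [mul_pow]
      have : √C4 ^ 4 = (√C4 ^ 2) ^ 2 := by ring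
      rw [this, Real.sq_sqrt hC4.le]; ring
    rw [eα, eC, ← mul_pow]
    have := pow_le_pow_left₀ (by positivity) hx2 2
    calc x ^ 4 = (x ^ 2) ^ 2 := by ring
      _ ≤ _ := this
  -- Chebyshev
  have hBA : Ω ∩ {z | h < v z} ⊆ A := fun z hz => ⟨hz.1, lt_trans hkh hz.2⟩
  have cheb : (volume (Ω ∩ {z | h < v z})).toReal * (h - k) ^ 4 ≤ x ^ 4 := by
    rw [hx, a17_eLpNorm_four mP4A]
    have hint : IntegrableOn (fun z => P z ^ 4) A := by
      have := mP4A.integrable_norm_rpow (by norm_num) (by norm_num)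
      refine this.congr (Eventually.of_forall fun z => ?_)
      simp only
      rw [show (4:ENNReal).toReal = ((4:ℕ):ℝ) by norm_num, Real.rpow_natCast, Real.norm_eq_abs]
      have : |P z| ^ 4 = (|P z| ^ 2) ^ 2 := by ring
      rw [this, sq_abs]; ring
    calc (volume (Ω ∩ {z | h < v z})).toReal * (h - k) ^ 4 =
        ∫ z in Ω ∩ {z | h < v z}, (h - k) ^ 4 := by
          rw [setIntegral_const, smul_eq_mul]; rfl
      _ ≤ ∫ z in Ω ∩ {z | h < v z}, P z ^ 4 := by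
          refine setIntegral_mono_on ?_ (hint.mono_set hBA) (hmA h) fun z hz => ?_
          · exact integrableOn_const ((measure_mono inter_subset_left).trans_lt hfin).ne (by simp)
          · rw [hPA z (hBA hz)]
            have h1 : h < v z := hz.2
            exact pow_le_pow_left₀ (by linarith) (by linarith) 4
      _ ≤ ∫ z in A, P z ^ 4 :=
          setIntegral_mono_set hint (Eventually.of_forall fun z => by positivity)
            (Eventually.of_forall hBA)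
  exact cheb.trans hx4'

/-- sup bound (truncations and the `L⁴` inequality, De Giorgi iteration) -/
theorem sup_bound : ∃ C : ℝ, 0 < C ∧ ∀ (Ω : Set ℂ), IsOpen Ω → Ω ⊆ DD → (∀ z ∈ Ω, I * z ∈ Ω) →
    ∀ (v f : ℂ → ℝ) (G : ℂ → ℂ), W1 Ω v G → MemLp f 3 (volume.restrict Ω) → SubS Ω G f →
      ∀ᵐ z, v z ≤ C * (eLpNorm f 3 (volume.restrict Ω)).toReal := by
  obtain ⟨C4, hC4, h4⟩ := W1_l4
  refine ⟨8 * √C4, by positivity, ?_⟩
  intro Ω hΩ hD hI v₀ f G hv₀ hf hsub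
  -- measurable representative
  obtain ⟨mv₀, -⟩ := a17_W1_memLp hv₀
  set v := mv₀.aestronglyMeasurable.mk v₀ with hvdef
  have hvv : v₀ =ᵐ[volume] v := mv₀.aestronglyMeasurable.ae_eq_mk
  have hvm : Measurable v := mv₀.aestronglyMeasurable.stronglyMeasurable_mk.measurable
  have hv : W1 Ω v G := by
    obtain ⟨φ, hφ, hL⟩ := hv₀
    exact ⟨φ, hφ, a17_lim_congr hL hvv (ae_eq_refl _)⟩
  have hfin : volume Ω < ⊤ := (measure_mono hD).trans_lt (a17_vol_DD.trans_lt (by norm_num))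
  set F := (eLpNorm f 3 (volume.restrict Ω)).toReal with hF
  have hF0 : 0 ≤ F := ENNReal.toReal_nonneg
  have hoff := (W1_off hΩ.measurableSet hv).2.2
  have key : ∀ M : ℝ, √C4 * F < M → ∀ᵐ z, v z ≤ 8 * M := by
    intro M hM
    have hM0 : 0 < M := lt_of_le_of_lt (by positivity) hM
    have hz := a17_stampacchia (a := fun k => (volume (Ω ∩ {z | k < v z})).toReal) hM0
      (fun k => ENNReal.toReal_nonneg)
      (by
        have h1 : volume (Ω ∩ {z | 0 < v z}) ≤ 8 :=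
          (measure_mono (inter_subset_left.trans hD)).trans a17_vol_DD
        have := ENNReal.toReal_mono (by norm_num) h1
        simpa using this)
      (fun h k hhk => ENNReal.toReal_mono
        ((measure_mono inter_subset_left).trans_lt hfin).ne
        (measure_mono fun z hz => ⟨hz.1, lt_of_le_of_lt hhk hz.2⟩))
      (fun k h hk hkh => by
        have := a17_level hC4 h4 hΩ hD hI hv hvm hf hsub hk hkh
        refine this.trans ?_
        have h5 : (√C4 * F) ^ 4 ≤ M ^ 4 := pow_le_pow_left₀ (by positivity) hM.le 4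
        gcongr)
    have hnull : volume (Ω ∩ {z | 8 * M < v z}) = 0 := by
      have h1 := (ENNReal.toReal_eq_zero_iff _).mp hz
      rcases h1 with h1 | h1
      · exact h1
      · exact absurd h1 ((measure_mono inter_subset_left).trans_lt hfin).ne
    have hae : ∀ᵐ z, z ∉ Ω ∩ {z | 8 * M < v z} := compl_mem_ae_iff.mpr hnull
    filter_upwards [hae, hoff] with z h1 h2
    by_cases hzΩ : z ∈ Ω
    · by_contra hcon
      push Not at hcon
      exact h1 ⟨hzΩ, hcon⟩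
    · rw [(h2 hzΩ).1]; positivity
  have hall : ∀ᵐ z, ∀ n : ℕ, v z ≤ 8 * (√C4 * F + 1 / ((n:ℝ) + 1)) := by
    rw [ae_all_iff]
    intro n
    exact key _ (by have : (0:ℝ) < 1 / ((n:ℝ) + 1) := by positivity
                    linarith)
  filter_upwards [hall, hvv] with z hz hz'
  rw [hz']
  have ht : Tendsto (fun n : ℕ => 8 * (√C4 * F + 1 / ((n:ℝ) + 1))) atTop
      (𝓝 (8 * (√C4 * F + 0))) :=
    (tendsto_one_div_add_atTop_nhds_zero_nat.const_add _).const_mul 8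
  have := ge_of_tendsto' ht hz
  linarith

end Pool.Agent.H87.LE
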