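import Pool.Agent.H87.LE.Base

open MeasureTheory Complex Set Filter Topology
open scoped ContDiff Laplacian

namespace Pool.Agent.H87.LE

/-! # A11 definitions: universal integrals -/

/-- the universal function -/
noncomputable def Th (q x : ℝ) : ℝ := ∫ z : ℂ, Mq q (hh z) (x * xi z)

/-- majorant -/
noncomputable def maj (q x : ℝ) (z : ℂ) : ℝ :=
  hh z ^ q * min ((x * xi z / hh z) ^ 4) ((x * xi z / hh z) ^ (5 / 2 : ℝ))

/-- the Jacobian of `z⁴ = cosh (ξ + iη)` -/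
noncomputable def Jac (ξ η : ℝ) : ℝ :=
  (Real.sinh ξ ^ 2 + Real.sin η ^ 2) / (16 * (Real.sinh ξ ^ 2 + Real.cos η ^ 2) ^ (3 / 4 : ℝ))

/-- the half strip -/
def Strip : Set (ℝ × ℝ) := {p | 0 < p.1 ∧ 0 < p.2 ∧ p.2 < Real.pi}

/-- `g y = ((1+y)² log|1+y| + (1-y)² log|1-y|)/2 - 3y²/2` -/
noncomputable def gg (y : ℝ) : ℝ :=
  ((1 + y) ^ 2 * Real.log |1 + y| + (1 - y) ^ 2 * Real.log |1 - y|) / 2 - 3 / 2 * y ^ 2

/-- integrand of the limit function -/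
noncomputable def Tin (x : ℝ) (p : ℝ × ℝ) : ℝ :=
  Jac p.1 p.2 * (Real.sinh p.1 * Real.sin p.2) ^ 2 *
    gg (x * p.1 / (Real.sinh p.1 * Real.sin p.2))

/-- the limit function -/
noncomputable def TT (x : ℝ) : ℝ := ∫ p in Strip, Tin x p

end Pool.Agent.H87.LE
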