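import Pool.Agent.H87.LE.Base

open MeasureTheory Complex Set Filter Topology
open scoped ContDiff Laplacian

namespace Pool.Agent.H87.LE

/-! # A1: Green's formula against test functions -/

theorem a01_inner_gradient {f : ℂ → ℝ} (z w : ℂ) :
    inner ℝ (gradient f z) w = fderiv ℝ f z w := by
  unfold gradient
  exact InnerProductSpace.toDual_symm_apply

theorem a01_inner (f φ : ℂ → ℝ) (z : ℂ) :
    inner ℝ (gradient f z) (gradient φ z) =
      fderiv ℝ f z 1 * fderiv ℝ φ z 1 + fderiv ℝ f z I * fderiv ℝ φ z I := by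
  rw [a01_inner_gradient]
  have h1 : (gradient φ z).re = fderiv ℝ φ z 1 := by
    rw [← a01_inner_gradient, Complex.inner]
    simp
  have h2 : (gradient φ z).im = fderiv ℝ φ z I := by
    rw [← a01_inner_gradient, Complex.inner]
    simp
  have h3 : gradient φ z = (gradient φ z).re • (1 : ℂ) + (gradient φ z).im • I := by
    apply Complex.ext <;> simp
  rw [h3, map_add, map_smul, map_smul, h1, h2]
  simp only [smul_eq_mul]
  ring

/-- a product of a function continuous on `Ω` with a test function is continuous -/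
theorem a01_cont_mul {Ω : Set ℂ} (hΩ : IsOpen Ω) {u φ : ℂ → ℝ} (hu : ContinuousOn u Ω)
    (hφ : Continuous φ) (hs : tsupport φ ⊆ Ω) : Continuous (fun z => u z * φ z) := by
  rw [continuous_iff_continuousAt]
  intro z
  by_cases hz : z ∈ Ω
  · exact (hu.continuousAt (hΩ.mem_nhds hz)).mul hφ.continuousAt
  · have hz' : z ∉ tsupport φ := fun h => hz (hs h)
    have h1 : (fun z => u z * φ z) =ᶠ[𝓝 z] fun _ => 0 := by
      have h2 : φ =ᶠ[𝓝 z] 0 := notMem_tsupport_iff_eventuallyEq.mp hz'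
      filter_upwards [h2] with w hw
      rw [hw]
      simp
    exact (continuousAt_const.congr h1.symm)

theorem a01_int_mul {Ω : Set ℂ} (hΩ : IsOpen Ω) {u φ : ℂ → ℝ} (hu : ContinuousOn u Ω)
    (hφ : Continuous φ) (hc : HasCompactSupport φ) (hs : tsupport φ ⊆ Ω) :
    Integrable (fun z => u z * φ z) :=
  (a01_cont_mul hΩ hu hφ hs).integrable_of_hasCompactSupport hc.mul_left

theorem a01_parts {Ω : Set ℂ} (hΩ : IsOpen Ω) {f φ : ℂ → ℝ} (hf : ContDiffOn ℝ 2 f Ω)
    (hφ : Tst Ω φ) (v : ℂ) :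
    Integrable (fun z => fderiv ℝ f z v * fderiv ℝ φ z v) ∧
    Integrable (fun z => fderiv ℝ (fderiv ℝ f) z v v * φ z) ∧
      ∫ z, fderiv ℝ f z v * fderiv ℝ φ z v = - ∫ z, fderiv ℝ (fderiv ℝ f) z v v * φ z := by
  obtain ⟨hφ1, hφ2, hφ3⟩ := hφ
  have h1 : ContDiffOn ℝ 1 (fderiv ℝ f) Ω := hf.fderiv_of_isOpen hΩ (by norm_num)
  have h2 : ContinuousOn (fderiv ℝ (fderiv ℝ f)) Ω :=
    (h1.fderiv_of_isOpen hΩ (m := 0) (by norm_num)).continuousOn
  have c1 : ContinuousOn (fun z => fderiv ℝ f z v) Ω := h1.continuousOn.clm_apply continuousOn_const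
  have c2 : ContinuousOn (fun z => fderiv ℝ (fderiv ℝ f) z v v) Ω :=
    (h2.clm_apply continuousOn_const).clm_apply continuousOn_const
  have c3 : Continuous (fun z => fderiv ℝ φ z v) :=
    ((hφ1.continuous_fderiv (by norm_num)).clm_apply continuous_const)
  have s3 : tsupport (fun z => fderiv ℝ φ z v) ⊆ Ω :=
    (tsupport_fderiv_apply_subset ℝ v).trans hφ3
  have k3 : HasCompactSupport (fun z => fderiv ℝ φ z v) := hφ2.fderiv_apply ℝ v
  have i1 : Integrable (fun z => fderiv ℝ f z v * fderiv ℝ φ z v) :=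
    a01_int_mul hΩ c1 c3 k3 s3
  have i2 : Integrable (fun z => fderiv ℝ (fderiv ℝ f) z v v * φ z) :=
    a01_int_mul hΩ c2 hφ1.continuous hφ2 hφ3
  have i3 : Integrable (fun z => fderiv ℝ f z v * φ z) :=
    a01_int_mul hΩ c1 hφ1.continuous hφ2 hφ3
  have hdiff : ∀ z ∈ Ω, DifferentiableAt ℝ (fderiv ℝ f) z := fun z hz =>
    (h1.contDiffAt (hΩ.mem_nhds hz)).differentiableAt (by norm_num)
  have hfd : ∀ z ∈ Ω, fderiv ℝ (fun w => fderiv ℝ f w v) z v = fderiv ℝ (fderiv ℝ f) z v v := by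
    intro z hz
    rw [fderiv_clm_apply (hdiff z hz) (differentiableAt_const v)]
    simp
  have heq : (fun z => fderiv ℝ (fun w => fderiv ℝ f w v) z v * φ z) =
      fun z => fderiv ℝ (fderiv ℝ f) z v v * φ z := by
    funext z
    by_cases hz : z ∈ Ω
    · rw [hfd z hz]
    · have : φ z = 0 := image_eq_zero_of_notMem_tsupport (fun h => hz (hφ3 h))
      rw [this, mul_zero, mul_zero]
  refine ⟨i1, i2, ?_⟩
  have := integral_mul_fderiv_eq_neg_fderiv_mul_of_integrable (μ := (volume : Measure ℂ))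
    (f := fun w => fderiv ℝ f w v) (g := φ) (v := v) (by rw [heq]; exact i2) i1 i3
    (fun z hz => (hdiff z (hφ3 hz)).clm_apply (differentiableAt_const v))
    (fun z _ => (hφ1.differentiable (by norm_num)).differentiableAt)
  rw [this, heq]

theorem a01_lap (f : ℂ → ℝ) (z : ℂ) :
    Δ f z = fderiv ℝ (fderiv ℝ f) z 1 1 + fderiv ℝ (fderiv ℝ f) z I I := by
  rw [InnerProductSpace.laplacian_eq_iteratedFDeriv_complexPlane]
  simp only [iteratedFDeriv_two_apply]
  simp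

theorem green {Ω : Set ℂ} (hΩ : IsOpen Ω) {f φ : ℂ → ℝ} (hf : ContDiffOn ℝ 2 f Ω)
    (hφ : Tst Ω φ) :
    Integrable (fun z => inner ℝ (gradient f z) (gradient φ z)) ∧
    Integrable (fun z => Δ f z * φ z) ∧
      ∫ z, inner ℝ (gradient f z) (gradient φ z) = - ∫ z, Δ f z * φ z := by
  obtain ⟨p1, p2, p3⟩ := a01_parts hΩ hf hφ 1
  obtain ⟨q1, q2, q3⟩ := a01_parts hΩ hf hφ I
  have e1 : (fun z => inner ℝ (gradient f z) (gradient φ z)) =
      fun z => fderiv ℝ f z 1 * fderiv ℝ φ z 1 + fderiv ℝ f z I * fderiv ℝ φ z I := by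
    funext z
    exact a01_inner f φ z
  have e2 : (fun z => Δ f z * φ z) = fun z => fderiv ℝ (fderiv ℝ f) z 1 1 * φ z +
      fderiv ℝ (fderiv ℝ f) z I I * φ z := by
    funext z
    rw [a01_lap, add_mul]
  refine ⟨by rw [e1]; exact p1.add q1, by rw [e2]; exact p2.add q2, ?_⟩
  rw [e1, e2, integral_add p1 q1, integral_add p2 q2, p3, q3]
  ring

theorem wsup_of_laplacian {Ω : Set ℂ} (hΩ : IsOpen Ω) {ψ g : ℂ → ℝ} (hψ : ContDiffOn ℝ 2 ψ Ω)
    (hg : ContinuousOn g Ω) (h : ∀ z ∈ Ω, g z ≤ - Δ ψ z) : WSup Ω ψ g := by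
  intro φ hφ hφ0
  obtain ⟨_, g2, g3⟩ := green hΩ hψ hφ
  rw [g3, ← integral_neg]
  refine integral_mono (a01_int_mul hΩ hg hφ.1.continuous hφ.2.1 hφ.2.2) g2.neg ?_
  intro z
  by_cases hz : z ∈ Ω
  · have := mul_le_mul_of_nonneg_right (h z hz) (hφ0 z)
    show g z * φ z ≤ -(Δ ψ z * φ z)
    linarith
  · have : φ z = 0 := image_eq_zero_of_notMem_tsupport (fun h => hz (hφ.2.2 h))
    show g z * φ z ≤ -(Δ ψ z * φ z)
    rw [this]
    simp

end Pool.Agent.H87.LE
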