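import Pool.Agent.H87.LE.Base
import Pool.Agent.H87.LE.A01_Green

open MeasureTheory Complex Set Filter Topology
open scoped ContDiff Laplacian

namespace Pool.Agent.H87.LE

/-! # A10: the elliptic coordinate `xib b z = xi (z/b)`
If `w = (F + 1/F)/2` then `|w-1| + |w+1| = |F| + 1/|F|`, so `xi = |log |F||` is locally
`± log |F|` with `F = w + √(w²-1)` holomorphic: harmonic off the star. -/

/-- hyperbolic cosine of the elliptic coordinate of `w` -/
noncomputable def a10_c (w : ℂ) : ℝ := (‖w - 1‖ + ‖w + 1‖) / 2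

theorem a10_xib_eq (b : ℝ) (z : ℂ) : xib b z = Real.arcosh (a10_c ((z / b) ^ 4)) := rfl

theorem a10_one_le (w : ℂ) : 1 ≤ a10_c w := by
  unfold a10_c
  have h : ‖(2:ℂ)‖ ≤ ‖w - 1‖ + ‖w + 1‖ := by
    calc ‖(2:ℂ)‖ = ‖(w + 1) - (w - 1)‖ := by congr 1; ring
      _ ≤ ‖w + 1‖ + ‖w - 1‖ := norm_sub_le _ _
      _ = _ := add_comm _ _
  have h2 : ‖(2:ℂ)‖ = 2 := by simp
  linarith

theorem a10_c_cont : Continuous a10_c := by
  unfold a10_c
  fun_prop

theorem xib_cont {b : ℝ} (hb : 0 < b) : Continuous (xib b) := by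
  have h : Continuous (fun z : ℂ => a10_c ((z / b) ^ 4)) :=
    a10_c_cont.comp (by fun_prop)
  exact Real.continuousOn_arcosh.comp_continuous h (fun z => a10_one_le _)

theorem xib_nonneg (b : ℝ) (z : ℂ) : 0 ≤ xib b z := by
  rw [a10_xib_eq]
  exact Real.arcosh_nonneg (a10_one_le _)

theorem a10_cosh_xib (b : ℝ) (z : ℂ) : Real.cosh (xib b z) = a10_c ((z / b) ^ 4) := by
  rw [a10_xib_eq, Real.cosh_arcosh (a10_one_le _)]

theorem a10_norm_sq (w : ℂ) : ‖w‖ ^ 2 = w.re ^ 2 + w.im ^ 2 := by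
  rw [Complex.sq_norm, Complex.normSq_apply]; ring

theorem a10_c_eq_one (w : ℂ) : a10_c w = 1 ↔ w.im = 0 ∧ |w.re| ≤ 1 := by
  unfold a10_c
  constructor
  · intro h
    have h1 : ‖w - 1‖ = 2 - ‖w + 1‖ := by linarith
    have h2 := a10_norm_sq (w - 1)
    have h3 := a10_norm_sq (w + 1)
    simp only [Complex.sub_re, Complex.sub_im, Complex.one_re, Complex.one_im, sub_zero,
      Complex.add_re, Complex.add_im, add_zero] at h2 h3
    have h4 : ‖w + 1‖ = 1 + w.re := by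
      rw [h1] at h2
      nlinarith
    have h5 : w.im ^ 2 = 0 := by
      rw [h4] at h3
      nlinarith
    have h6 := norm_nonneg (w + 1)
    have h7 := norm_nonneg (w - 1)
    refine ⟨by simpa using h5, ?_⟩
    rw [abs_le]
    constructor <;> linarith
  · rintro ⟨h1, h2⟩
    obtain ⟨h3, h4⟩ := abs_le.1 h2
    have h5 : w = (w.re : ℂ) := by
      apply Complex.ext <;> simp [h1]
    have h6 : ‖w - 1‖ = 1 - w.re := by
      rw [h5, ← Complex.ofReal_one, ← Complex.ofReal_sub, Complex.norm_real, Real.norm_eq_abs,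
        abs_of_nonpos (by simpa using h4)]
      simp
    have h7 : ‖w + 1‖ = 1 + w.re := by
      rw [h5, ← Complex.ofReal_one, ← Complex.ofReal_add, Complex.norm_real, Real.norm_eq_abs,
        abs_of_nonneg (by linarith)]
      simp [add_comm]
    rw [h6, h7]
    ring

theorem a10_star_iff {b : ℝ} (hb : 0 < b) (z : ℂ) :
    z ∈ star b ↔ (((z / b) ^ 4).im = 0 ∧ |((z / b) ^ 4).re| ≤ 1) := by
  have hz : z / (b : ℂ) = ((1 / b : ℝ) : ℂ) * z := by
    push_cast; ring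
  have him : ((z / b) ^ 4).im = 4 * (z.re * z.im * (z.re ^ 2 - z.im ^ 2)) / b ^ 4 := by
    rw [hz]
    have : (((1 / b : ℝ) : ℂ) * z) ^ 4 = (((1 / b) ^ 4 : ℝ) : ℂ) * z ^ 4 := by
      push_cast; ring
    rw [this, Complex.im_ofReal_mul]
    have h4 : (z ^ 4).im = 4 * (z.re * z.im * (z.re ^ 2 - z.im ^ 2)) := by
      have : z ^ 4 = (z * z) * (z * z) := by ring
      rw [this]
      simp only [Complex.mul_im, Complex.mul_re]
      ring
    rw [h4]
    field_simp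
  have hn : ‖(z / b) ^ 4‖ = (‖z‖ / b) ^ 4 := by
    rw [norm_pow, norm_div, Complex.norm_real, Real.norm_eq_abs, abs_of_pos hb]
  have hre : ((z / b) ^ 4).im = 0 → |((z / b) ^ 4).re| = (‖z‖ / b) ^ 4 := by
    intro h
    rw [← hn]
    set w := (z / (b : ℂ)) ^ 4
    have h5 : w = (w.re : ℂ) := by
      apply Complex.ext <;> simp [h]
    conv_rhs => rw [h5, Complex.norm_real, Real.norm_eq_abs]
  have him0 : ((z / b) ^ 4).im = 0 ↔ z ∈ Mir := by
    rw [him]
    show _ ↔ z.re * z.im * (z.re ^ 2 - z.im ^ 2) = 0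
    rw [div_eq_zero_iff]
    constructor
    · rintro (h | h)
      · linarith
      · exact absurd h (by positivity)
    · intro h
      left
      rw [h, mul_zero]
  have hle : (‖z‖ / b) ^ 4 ≤ 1 ↔ ‖z‖ ≤ b := by
    rw [pow_le_one_iff_of_nonneg (by positivity) (by norm_num), div_le_one hb]
  constructor
  · rintro ⟨h1, h2⟩
    have h3 := him0.2 h1
    exact ⟨h3, by rw [hre h3]; exact hle.2 h2⟩
  · rintro ⟨h1, h2⟩
    exact ⟨him0.1 h1, hle.1 (by rw [← hre h1]; exact h2)⟩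

theorem xib_eq_zero {b : ℝ} (hb : 0 < b) (z : ℂ) : xib b z = 0 ↔ z ∈ star b := by
  rw [a10_xib_eq, Real.arcosh_eq_zero_iff (a10_one_le _), a10_c_eq_one, a10_star_iff hb]

theorem xib_rot (b : ℝ) : Rot (xib b) := by
  intro z
  rw [a10_xib_eq, a10_xib_eq]
  congr 2
  have : (I * z / b) ^ 4 = I ^ 4 * (z / b) ^ 4 := by ring
  rw [this, Complex.I_pow_four, one_mul]

theorem xib_cnj (b : ℝ) : Cnj (xib b) := by
  intro z
  rw [a10_xib_eq, a10_xib_eq]
  congr 1
  have h : ((starRingEnd ℂ) z / b) ^ 4 = (starRingEnd ℂ) ((z / b) ^ 4) := by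
    simp [map_div₀, map_pow]
  rw [h]
  unfold a10_c
  have h1 : (starRingEnd ℂ) ((z / b) ^ 4) - 1 = (starRingEnd ℂ) ((z / b) ^ 4 - 1) := by
    simp
  have h2 : (starRingEnd ℂ) ((z / b) ^ 4) + 1 = (starRingEnd ℂ) ((z / b) ^ 4 + 1) := by
    simp
  rw [h1, h2, Complex.norm_conj, Complex.norm_conj]

theorem star_closed (b : ℝ) : IsClosed (star b) := by
  have h1 : IsClosed Mir := by
    have : Mir = (fun z : ℂ => z.re * z.im * (z.re ^ 2 - z.im ^ 2)) ⁻¹' {0} := by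
      ext z; simp [Mir]
    rw [this]
    exact IsClosed.preimage (by fun_prop) isClosed_singleton
  have h2 : IsClosed {z : ℂ | ‖z‖ ≤ b} := isClosed_le continuous_norm continuous_const
  exact h1.inter h2

theorem a10_one_lt {b : ℝ} (hb : 0 < b) {z : ℂ} (hz : z ∉ star b) :
    1 < a10_c ((z / b) ^ 4) := by
  refine lt_of_le_of_ne (a10_one_le _) ?_
  intro h
  apply hz
  rw [a10_star_iff hb, ← a10_c_eq_one]
  exact h.symm

theorem a10_ne {b : ℝ} (hb : 0 < b) {z : ℂ} (hz : z ∉ star b) :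
    (z / b) ^ 4 - 1 ≠ 0 ∧ (z / b) ^ 4 + 1 ≠ 0 := by
  rw [a10_star_iff hb] at hz
  constructor
  · intro h
    apply hz
    have : (z / (b : ℂ)) ^ 4 = 1 := by linear_combination h
    rw [this]
    simp
  · intro h
    apply hz
    have : (z / (b : ℂ)) ^ 4 = -1 := by linear_combination h
    rw [this]
    simp

theorem xib_smooth {b : ℝ} (hb : 0 < b) : ContDiffOn ℝ ∞ (xib b) (star b)ᶜ := by
  intro z hz
  obtain ⟨h1, h2⟩ := a10_ne hb hz
  have h3 := a10_one_lt hb hz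
  apply ContDiffAt.contDiffWithinAt
  have hp : ContDiffAt ℝ ∞ (fun z : ℂ => (z / b) ^ 4) z := by fun_prop
  have hc : ContDiffAt ℝ ∞ (fun z : ℂ => a10_c ((z / b) ^ 4)) z := by
    unfold a10_c
    exact (((hp.sub contDiffAt_const).norm ℝ h1).add ((hp.add contDiffAt_const).norm ℝ h2)).div_const 2
  have hcomp : ContDiffAt ℝ ∞ (Real.arcosh ∘ fun z : ℂ => a10_c ((z / b) ^ 4)) z :=
    ContDiffAt.comp z (Real.contDiffAt_arcosh h3) hc
  exact hcomp

theorem xib_lower {b : ℝ} (hb : 0 < b) {z : ℂ} (hz : b ≤ ‖z‖) :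
    Real.log (‖z‖ ^ 4 / b ^ 4) ≤ xib b z := by
  have hpos : 0 < ‖z‖ := lt_of_lt_of_le hb hz
  rw [Real.log_le_iff_le_exp (by positivity)]
  have hn : ‖(z / b) ^ 4‖ = ‖z‖ ^ 4 / b ^ 4 := by
    rw [norm_pow, norm_div, Complex.norm_real, Real.norm_eq_abs, abs_of_pos hb, div_pow]
  have h1 : ‖(z / b) ^ 4‖ ≤ a10_c ((z / b) ^ 4) := by
    unfold a10_c
    set w := (z / (b : ℂ)) ^ 4
    have : ‖(2 : ℂ) * w‖ ≤ ‖w - 1‖ + ‖w + 1‖ := by
      calc ‖(2 : ℂ) * w‖ = ‖(w - 1) + (w + 1)‖ := by congr 1; ring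
        _ ≤ _ := norm_add_le _ _
    rw [norm_mul] at this
    simp only [Complex.norm_ofNat] at this
    linarith
  rw [← hn]
  refine h1.trans ?_
  rw [← a10_cosh_xib]
  rw [Real.cosh_eq]
  have h0 := xib_nonneg b z
  have h2 : Real.exp (-xib b z) ≤ Real.exp (xib b z) := Real.exp_le_exp.2 (by linarith)
  linarith

theorem xib_upper {b : ℝ} (hb : 0 < b) (z : ℂ) :
    xib b z ≤ Real.log (2 * (‖z‖ ^ 4 / b ^ 4 + 1)) := by
  rw [Real.le_log_iff_exp_le (by positivity)]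
  have hn : ‖(z / b) ^ 4‖ = ‖z‖ ^ 4 / b ^ 4 := by
    rw [norm_pow, norm_div, Complex.norm_real, Real.norm_eq_abs, abs_of_pos hb, div_pow]
  have h1 : a10_c ((z / b) ^ 4) ≤ ‖(z / b) ^ 4‖ + 1 := by
    unfold a10_c
    set w := (z / (b : ℂ)) ^ 4
    have h2 := norm_sub_le w 1
    have h3 := norm_add_le w 1
    simp only [norm_one] at h2 h3
    linarith
  rw [← hn]
  rw [← a10_cosh_xib, Real.cosh_eq] at h1
  have := Real.exp_pos (-xib b z)
  linarith

/-! ## Local holomorphic description -/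

/-- if `F + F⁻¹ = 2 w` then `|w-1| + |w+1| = |F| + 1/|F|` -/
theorem a10_joukowski {F w : ℂ} (hF : F ≠ 0) (hw : F + F⁻¹ = 2 * w) :
    a10_c w = Real.cosh (Real.log ‖F‖) := by
  have hpos : 0 < ‖F‖ := norm_pos_iff.2 hF
  rw [Real.cosh_log hpos]
  unfold a10_c
  have h1 : w - 1 = (F - 1) ^ 2 / (2 * F) := by
    field_simp at hw ⊢
    linear_combination -hw
  have h2 : w + 1 = (F + 1) ^ 2 / (2 * F) := by
    field_simp at hw ⊢
    linear_combination -hw
  have h3 := parallelogram_law_with_norm ℝ F 1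
  rw [h1, h2, norm_div, norm_div, norm_pow, norm_pow, norm_mul, Complex.norm_ofNat]
  simp only [norm_one] at h3
  have h4 : ‖F - 1‖ ^ 2 / (2 * ‖F‖) + ‖F + 1‖ ^ 2 / (2 * ‖F‖)
      = (2 * (‖F‖ ^ 2 + 1 ^ 2)) / (2 * ‖F‖) := by
    rw [← h3]; ring
  rw [h4]
  field_simp

/-- local holomorphic function `F` with `F + 1/F = 2 (z/b)^4` -/
theorem a10_local {b : ℝ} (hb : 0 < b) {z₀ : ℂ} (hz : z₀ ∉ star b) :
    ∃ (F : ℂ → ℂ) (F' s : ℂ), AnalyticAt ℂ F z₀ ∧ HasDerivAt F F' z₀ ∧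
      s ^ 2 = (z₀ / b) ^ 8 - 1 ∧ s ≠ 0 ∧ F' * s = F z₀ * (4 * z₀ ^ 3 / b ^ 4) ∧
      F z₀ ≠ 0 ∧ ∀ᶠ z in 𝓝 z₀, F z ≠ 0 ∧ F z + (F z)⁻¹ = 2 * (z / b) ^ 4 := by
  obtain ⟨h1, h2⟩ := a10_ne hb hz
  have hbc : (b : ℂ) ≠ 0 := by exact_mod_cast hb.ne'
  have hh0 : (z₀ / (b : ℂ)) ^ 8 - 1 ≠ 0 := by
    have : (z₀ / (b : ℂ)) ^ 8 - 1 = ((z₀ / b) ^ 4 - 1) * ((z₀ / b) ^ 4 + 1) := by ring
    rw [this]
    exact mul_ne_zero h1 h2
  obtain ⟨c, hc⟩ := IsAlgClosed.exists_pow_nat_eq ((z₀ / (b : ℂ)) ^ 8 - 1) (n := 2) (by norm_num)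
  have hc0 : c ≠ 0 := by
    rintro rfl
    apply hh0
    rw [← hc]
    simp
  set h : ℂ → ℂ := fun z => (z / (b : ℂ)) ^ 8 - 1 with hh
  set L : ℂ → ℂ := fun z => Complex.log (h z / c ^ 2) with hL
  set S : ℂ → ℂ := fun z => c * Complex.exp (1 / 2 * L z) with hS
  have hhz : h z₀ = c ^ 2 := by rw [hc]
  have hq : h z₀ / c ^ 2 = 1 := by rw [hhz]; field_simp
  have hL0 : L z₀ = 0 := by
    simp only [hL]
    rw [hq, Complex.log_one]
  have hS0 : S z₀ = c := by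
    simp only [hS]
    rw [hL0]
    simp
  have hSsq : ∀ z, h z ≠ 0 → S z ^ 2 = h z := by
    intro z hz
    simp only [hS]
    rw [mul_pow, ← Complex.exp_nat_mul]
    have : ((2 : ℕ) : ℂ) * (1 / 2 * L z) = L z := by push_cast; ring
    rw [this]
    simp only [hL]
    rw [Complex.exp_log (div_ne_zero hz (pow_ne_zero 2 hc0))]
    field_simp
  have hslit : h z₀ / c ^ 2 ∈ slitPlane := by rw [hq]; exact one_mem_slitPlane
  have hha : AnalyticAt ℂ h z₀ := by
    simp only [hh]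
    fun_prop
  have hLa : AnalyticAt ℂ L z₀ := by
    simp only [hL]
    exact (hha.div_const).clog hslit
  have hSa : AnalyticAt ℂ S z₀ := by
    simp only [hS]
    exact analyticAt_const.mul ((analyticAt_const.mul hLa).cexp)
  have hwa : AnalyticAt ℂ (fun z : ℂ => (z / (b : ℂ)) ^ 4) z₀ := by fun_prop
  have hdh : HasDerivAt h (8 * (z₀ / b) ^ 7 * (1 / b)) z₀ := by
    have := ((((hasDerivAt_id z₀).div_const (b : ℂ)).pow 8).sub_const 1)
    refine this.congr_deriv ?_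
    simp
  have hdw : HasDerivAt (fun z : ℂ => (z / (b : ℂ)) ^ 4) (4 * (z₀ / b) ^ 3 * (1 / b)) z₀ := by
    have := (((hasDerivAt_id z₀).div_const (b : ℂ)).pow 4)
    refine this.congr_deriv ?_
    simp
  have hdL : HasDerivAt L ((8 * (z₀ / b) ^ 7 * (1 / b)) / c ^ 2 / (h z₀ / c ^ 2)) z₀ := by
    exact (hdh.div_const (c ^ 2)).clog hslit
  have hdS : HasDerivAt S (c * (Complex.exp (1 / 2 * L z₀) *
      (1 / 2 * ((8 * (z₀ / b) ^ 7 * (1 / b)) / c ^ 2 / (h z₀ / c ^ 2))))) z₀ := by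
    exact ((hdL.const_mul (1 / 2)).cexp).const_mul c
  refine ⟨fun z => (z / (b : ℂ)) ^ 4 + S z, _, c, hwa.add hSa, hdw.add hdS, hc, hc0, ?_, ?_, ?_⟩
  · rw [hq, hL0]
    beta_reduce
    rw [hS0]
    simp only [mul_zero, Complex.exp_zero, div_one, one_mul]
    field_simp
    ring
  · beta_reduce
    intro h0
    have h3 : ((z₀ / (b : ℂ)) ^ 4 + S z₀) * ((z₀ / (b : ℂ)) ^ 4 - S z₀) = 1 := by
      have h4 : S z₀ ^ 2 = (z₀ / (b : ℂ)) ^ 8 - 1 := hSsq z₀ (by rw [hhz]; exact pow_ne_zero 2 hc0)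
      linear_combination -h4
    rw [h0, zero_mul] at h3
    exact zero_ne_one h3
  · have hcont : ContinuousAt h z₀ := hha.continuousAt
    have hne : ∀ᶠ z in 𝓝 z₀, h z ≠ 0 := hcont.eventually_ne hh0
    filter_upwards [hne] with z hz
    have h4 : S z ^ 2 = (z / (b : ℂ)) ^ 8 - 1 := hSsq z hz
    have h3 : ((z / (b : ℂ)) ^ 4 + S z) * ((z / (b : ℂ)) ^ 4 - S z) = 1 := by
      linear_combination -h4
    have h5 : (z / (b : ℂ)) ^ 4 + S z ≠ 0 := by
      intro h0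
      rw [h0, zero_mul] at h3
      exact zero_ne_one h3
    refine ⟨h5, ?_⟩
    rw [inv_eq_of_mul_eq_one_right h3]
    ring

/-- locally `xib b = ± log |F|` -/
theorem a10_xib_local {b : ℝ} (hb : 0 < b) {z₀ : ℂ} (hz : z₀ ∉ star b) :
    ∃ (F : ℂ → ℂ) (F' s : ℂ) (σ : ℝ), AnalyticAt ℂ F z₀ ∧ HasDerivAt F F' z₀ ∧
      s ^ 2 = (z₀ / b) ^ 8 - 1 ∧ s ≠ 0 ∧ F' * s = F z₀ * (4 * z₀ ^ 3 / b ^ 4) ∧
      F z₀ ≠ 0 ∧ |σ| = 1 ∧ xib b =ᶠ[𝓝 z₀] fun z => σ * Real.log ‖F z‖ := by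
  obtain ⟨F, F', s, h1, h2, h3, h4, h5, h6, h7⟩ := a10_local hb hz
  have habs : ∀ᶠ z in 𝓝 z₀, xib b z = |Real.log ‖F z‖| := by
    filter_upwards [h7] with z hz
    rw [a10_xib_eq, a10_joukowski hz.1 hz.2, ← Real.cosh_abs, Real.arcosh_cosh (abs_nonneg _)]
  have hne : Real.log ‖F z₀‖ ≠ 0 := by
    intro h0
    have h8 := habs.self_of_nhds
    rw [h0, abs_zero] at h8
    exact hz ((xib_eq_zero hb z₀).1 h8)
  have hcont : ContinuousAt (fun z => Real.log ‖F z‖) z₀ :=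
    (h1.continuousAt.norm).log (norm_ne_zero_iff.2 h6)
  rcases lt_or_gt_of_ne hne with h | h
  · have hev : ∀ᶠ z in 𝓝 z₀, Real.log ‖F z‖ < 0 := hcont.eventually_lt_const h
    refine ⟨F, F', s, -1, h1, h2, h3, h4, h5, h6, by simp, ?_⟩
    filter_upwards [habs, hev] with z h8 h9
    rw [h8, abs_of_neg h9]
    ring
  · have hev : ∀ᶠ z in 𝓝 z₀, 0 < Real.log ‖F z‖ := hcont.eventually_const_lt h
    refine ⟨F, F', s, 1, h1, h2, h3, h4, h5, h6, by simp, ?_⟩
    filter_upwards [habs, hev] with z h8 h9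
    rw [h8, abs_of_pos h9]
    ring

theorem a10_harmonic {b : ℝ} (hb : 0 < b) {z : ℂ} (hz : z ∉ star b) :
    InnerProductSpace.HarmonicAt (xib b) z := by
  obtain ⟨F, F', s, σ, h1, h2, h3, h4, h5, h6, h7, h8⟩ := a10_xib_local hb hz
  rw [InnerProductSpace.harmonicAt_congr_nhds h8]
  exact (h1.harmonicAt_log_norm h6).const_smul (c := σ)

theorem xib_lap {b : ℝ} (hb : 0 < b) {z : ℂ} (hz : z ∉ star b) : Δ (xib b) z = 0 :=
  (a10_harmonic hb hz).2.self_of_nhds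

/-- derivative of `log |F|` -/
theorem a10_log_norm_fderiv {F : ℂ → ℂ} {F' z₀ : ℂ} (hF : HasDerivAt F F' z₀) (h0 : F z₀ ≠ 0) :
    HasFDerivAt (fun z => Real.log ‖F z‖)
      (Complex.reCLM.comp ((ContinuousLinearMap.toSpanSingleton ℂ (F' / F z₀)).restrictScalars ℝ))
      z₀ := by
  have hq : F z₀ / F z₀ = 1 := div_self h0
  have hd : HasDerivAt (fun z => Complex.log (F z / F z₀)) (F' / F z₀) z₀ := by
    have := (hF.div_const (F z₀)).clog (by rw [hq]; exact one_mem_slitPlane)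
    refine this.congr_deriv ?_
    rw [hq, div_one]
  have hd2 := (hd.hasFDerivAt.restrictScalars ℝ)
  have hd3 := Complex.reCLM.hasFDerivAt.comp z₀ hd2
  have hd4 := hd3.add_const (Real.log ‖F z₀‖)
  have hd5 : HasFDerivAt (fun z => Real.log ‖F z‖) _ z₀ := hd4.congr_of_eventuallyEq (by
    have hne : ∀ᶠ z in 𝓝 z₀, F z ≠ 0 := hF.continuousAt.eventually_ne h0
    filter_upwards [hne] with z hz
    simp only [Function.comp_apply, Complex.reCLM_apply, Complex.log_re, norm_div]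
    rw [Real.log_div (norm_ne_zero_iff.2 hz) (norm_ne_zero_iff.2 h0)]
    ring)
  exact hd5

theorem a10_fderiv_le {b : ℝ} (hb : 0 < b) {z : ℂ} (hz : z ∉ star b) :
    ‖fderiv ℝ (xib b) z‖ ^ 2 ≤ 16 * ‖z‖ ^ 6 / b ^ 8 * ‖((z / b) ^ 8 - 1)⁻¹‖ := by
  obtain ⟨F, F', s, σ, h1, h2, h3, h4, h5, h6, h7, h8⟩ := a10_xib_local hb hz
  have hd := ((a10_log_norm_fderiv h2 h6).const_mul σ).congr_of_eventuallyEq h8
  rw [hd.fderiv]
  have hn1 : ‖σ • (Complex.reCLM.comp
      ((ContinuousLinearMap.toSpanSingleton ℂ (F' / F z)).restrictScalars ℝ))‖ ≤ ‖F' / F z‖ := by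
    apply ContinuousLinearMap.opNorm_le_bound _ (norm_nonneg _)
    intro v
    simp only [_root_.smul_apply, ContinuousLinearMap.comp_apply,
      ContinuousLinearMap.coe_restrictScalars', ContinuousLinearMap.toSpanSingleton_apply,
      Complex.reCLM_apply, norm_smul, Real.norm_eq_abs, h7, one_mul]
    refine (Complex.abs_re_le_norm _).trans ?_
    rw [smul_eq_mul, norm_mul, mul_comm]
  have hs : F' / F z = 4 * z ^ 3 / b ^ 4 / s := by
    field_simp
    field_simp at h5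
    linear_combination h5
  have hn2 : ‖F' / F z‖ ^ 2 = 16 * ‖z‖ ^ 6 / b ^ 8 * ‖((z / b) ^ 8 - 1)⁻¹‖ := by
    rw [hs, ← h3, norm_div, norm_div, norm_mul, norm_pow, norm_pow, norm_inv, norm_pow,
      Complex.norm_real, Real.norm_eq_abs, abs_of_pos hb]
    simp only [Complex.norm_ofNat]
    have : 0 < ‖s‖ := norm_pos_iff.2 h4
    field_simp
    ring
  rw [← hn2]
  exact pow_le_pow_left₀ (norm_nonneg _) hn1 2

/-! ## Square integrability of the gradient -/

theorem a10_norm_gradient (f : ℂ → ℝ) (z : ℂ) : ‖gradient f z‖ = ‖fderiv ℝ f z‖ := by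
  unfold gradient
  exact LinearIsometryEquiv.norm_map _ _

theorem a10_grad_le {b : ℝ} (hb : 0 < b) (z : ℂ) :
    ‖gradient (xib b) z‖ ^ 2 ≤ 16 * ‖z‖ ^ 6 / b ^ 8 * ‖((z / b) ^ 8 - 1)⁻¹‖ := by
  rw [a10_norm_gradient]
  by_cases hz : z ∈ star b
  · have hmin : IsLocalMin (xib b) z := by
      refine Eventually.of_forall (fun y => ?_)
      rw [(xib_eq_zero hb z).2 hz]
      exact xib_nonneg b y
    rw [hmin.fderiv_eq_zero, norm_zero]
    have : (0:ℝ) ^ 2 = 0 := by norm_num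
    rw [this]
    positivity
  · exact a10_fderiv_le hb hz

theorem a10_sing_base {b : ℝ} (hb : 0 < b) (c : ℂ) (R : ℝ) :
    IntegrableOn (fun z : ℂ => ‖(z / b - c)⁻¹‖) (Metric.ball 0 R) := by
  have h0 : LocallyIntegrable (fun z : ℂ => b * ‖z‖⁻¹) volume := by
    refine locallyIntegrable_of_norm_le_rpow (C := b) (α := 1) (by simp) (by simp) ?_ ?_
    · refine Eventually.of_forall fun x => ?_
      rw [Real.rpow_neg_one, Real.norm_eq_abs, abs_of_nonneg (by positivity)]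
    · exact (measurable_norm.inv.const_mul b).aestronglyMeasurable
  have h1 : IntegrableOn (fun z : ℂ => b * ‖z‖⁻¹) (Metric.closedBall 0 (R + ‖(b : ℂ) * c‖)) :=
    h0.integrableOn_isCompact (isCompact_closedBall _ _)
  have h2 := ((measurePreserving_sub_right (volume : Measure ℂ) ((b : ℂ) * c)).integrableOn_comp_preimage
    (MeasurableEquiv.subRight ((b : ℂ) * c)).measurableEmbedding).2 h1
  refine (h2.mono_set ?_).congr_fun ?_ Metric.isOpen_ball.measurableSet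
  · intro z hz
    simp only [mem_preimage, Metric.mem_closedBall, dist_zero_right]
    have := norm_sub_le z ((b : ℂ) * c)
    have h3 : ‖z‖ < R := by simpa using hz
    linarith
  · intro z _
    simp only [Function.comp_apply]
    have hbc : (b : ℂ) ≠ 0 := by exact_mod_cast hb.ne'
    have : z / (b : ℂ) - c = (z - b * c) / b := by field_simp
    rw [this, norm_inv, norm_div, Complex.norm_real, Real.norm_eq_abs, abs_of_pos hb, inv_div]
    rw [div_eq_mul_inv]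

theorem a10_inv_sq_le (v a : ℂ) (ha : a ≠ 0) :
    ‖(v ^ 2 - a ^ 2)⁻¹‖ ≤ (2 * ‖a‖)⁻¹ * (‖(v - a)⁻¹‖ + ‖(v - -a)⁻¹‖) := by
  by_cases h1 : v - a = 0
  · have : v ^ 2 - a ^ 2 = 0 := by linear_combination (v + a) * h1
    rw [this, inv_zero, norm_zero]
    positivity
  by_cases h2 : v - -a = 0
  · have : v ^ 2 - a ^ 2 = 0 := by linear_combination (v - a) * h2
    rw [this, inv_zero, norm_zero]
    positivity
  have h3 : (v ^ 2 - a ^ 2)⁻¹ = (2 * a)⁻¹ * ((v - a)⁻¹ - (v - -a)⁻¹) := by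
    have h4 : v ^ 2 - a ^ 2 = (v - a) * (v - -a) := by ring
    rw [h4]
    field_simp
    ring
  rw [h3, norm_mul, norm_inv, norm_mul, Complex.norm_ofNat]
  gcongr
  exact norm_sub_le _ _

theorem a10_sing {b : ℝ} (hb : 0 < b) (R : ℝ) (n : ℕ) : ∀ c : ℂ, c ≠ 0 →
    IntegrableOn (fun z : ℂ => ‖((z / b) ^ (2 ^ n) - c)⁻¹‖) (Metric.ball 0 R) := by
  induction n with
  | zero =>
    intro c _
    simpa using a10_sing_base hb c R
  | succ n ih =>
    intro c hc
    obtain ⟨a, ha⟩ := IsAlgClosed.exists_pow_nat_eq c (n := 2) (by norm_num)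
    have ha0 : a ≠ 0 := by
      rintro rfl
      apply hc
      rw [← ha]; simp
    have h1 := ih a ha0
    have h2 := ih (-a) (neg_ne_zero.2 ha0)
    refine Integrable.mono' ((h1.add h2).const_mul (2 * ‖a‖)⁻¹) ?_ ?_
    · apply Measurable.aestronglyMeasurable
      exact ((((measurable_id.div_const (b : ℂ)).pow_const (2 ^ (n + 1))).sub_const c).inv).norm
    · refine Eventually.of_forall fun z => ?_
      rw [norm_norm]
      have h3 := a10_inv_sq_le ((z / (b : ℂ)) ^ (2 ^ n)) a ha0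
      rw [ha, ← pow_mul, ← pow_succ] at h3
      exact h3

theorem xib_grad {b : ℝ} (hb : 0 < b) (R : ℝ) :
    IntegrableOn (fun z => ‖gradient (xib b) z‖ ^ 2) (Metric.ball 0 R) := by
  have h1 := a10_sing hb R 3 1 one_ne_zero
  refine Integrable.mono' (h1.const_mul (16 * R ^ 6 / b ^ 8)) ?_ ?_
  · apply Measurable.aestronglyMeasurable
    have : (fun z => ‖gradient (xib b) z‖ ^ 2) = fun z => ‖fderiv ℝ (xib b) z‖ ^ 2 := by
      funext z
      rw [a10_norm_gradient]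
    rw [this]
    exact (measurable_fderiv ℝ (xib b)).norm.pow_const 2
  · refine (ae_restrict_iff' Metric.isOpen_ball.measurableSet).2 (Eventually.of_forall fun z hz => ?_)
    have hz' : ‖z‖ < R := by simpa using hz
    rw [Real.norm_eq_abs, abs_of_nonneg (by positivity)]
    refine (a10_grad_le hb z).trans ?_
    have : (2:ℕ) ^ 3 = 8 := by norm_num
    rw [this]
    gcongr

/-! ## Radial monotonicity -/

theorem a10_c_mono (w : ℂ) {s t : ℝ} (hs : 0 ≤ s) (hst : s ≤ t) :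
    a10_c ((s : ℂ) * w) ≤ a10_c ((t : ℂ) * w) := by
  rcases eq_or_lt_of_le (hs.trans hst) with ht | ht
  · have : s = t := by linarith
    rw [this]
  set l := s / t with hl
  have hl0 : 0 ≤ l := by positivity
  have hl1 : l ≤ 1 := by rw [hl, div_le_one ht]; exact hst
  have hsl : s = l * t := by rw [hl]; field_simp
  have hA : (s : ℂ) * w - 1 = (((1 + l) / 2 : ℝ) : ℂ) * ((t : ℂ) * w - 1)
      - (((1 - l) / 2 : ℝ) : ℂ) * ((t : ℂ) * w + 1) := by
    rw [hsl]; push_cast; ring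
  have hB : (s : ℂ) * w + 1 = (((1 + l) / 2 : ℝ) : ℂ) * ((t : ℂ) * w + 1)
      - (((1 - l) / 2 : ℝ) : ℂ) * ((t : ℂ) * w - 1) := by
    rw [hsl]; push_cast; ring
  have h1 : ‖(((1 + l) / 2 : ℝ) : ℂ)‖ = (1 + l) / 2 := by
    rw [Complex.norm_real, Real.norm_eq_abs, abs_of_nonneg (by linarith)]
  have h2 : ‖(((1 - l) / 2 : ℝ) : ℂ)‖ = (1 - l) / 2 := by
    rw [Complex.norm_real, Real.norm_eq_abs, abs_of_nonneg (by linarith)]
  have hA' : ‖(s : ℂ) * w - 1‖ ≤ (1 + l) / 2 * ‖(t : ℂ) * w - 1‖ + (1 - l) / 2 * ‖(t : ℂ) * w + 1‖ := by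
    rw [hA]
    refine (norm_sub_le _ _).trans ?_
    rw [norm_mul, norm_mul, h1, h2]
  have hB' : ‖(s : ℂ) * w + 1‖ ≤ (1 + l) / 2 * ‖(t : ℂ) * w + 1‖ + (1 - l) / 2 * ‖(t : ℂ) * w - 1‖ := by
    rw [hB]
    refine (norm_sub_le _ _).trans ?_
    rw [norm_mul, norm_mul, h1, h2]
  unfold a10_c
  linarith

theorem a10_xib_mono (b : ℝ) (z : ℂ) {s t : ℝ} (hs : 0 ≤ s) (hst : s ≤ t) :
    xib b ((s : ℂ) * z) ≤ xib b ((t : ℂ) * z) := by
  have h : ∀ r : ℝ, ((r : ℂ) * z / b) ^ 4 = ((r ^ 4 : ℝ) : ℂ) * (z / b) ^ 4 := by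
    intro r; push_cast; ring
  rw [a10_xib_eq, a10_xib_eq, h, h]
  have hp := fun w => lt_of_lt_of_le one_pos (a10_one_le w)
  rw [Real.arcosh_le_arcosh (hp _) (hp _)]
  exact a10_c_mono _ (by positivity) (pow_le_pow_left₀ hs hst 4)

theorem a10_radial {b : ℝ} (hb : 0 < b) {z : ℂ} (hz : z ∉ star b) :
    0 ≤ fderiv ℝ (xib b) z z := by
  have hdiff : DifferentiableAt ℝ (xib b) z :=
    (a10_harmonic hb hz).1.differentiableAt (by norm_num)
  have hline : HasDerivAt (fun t : ℝ => (t : ℂ) * z) z (1 : ℝ) := by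
    have := (Complex.ofRealCLM.hasDerivAt (x := (1:ℝ))).mul_const z
    simpa using this
  have hd : HasDerivAt (fun t : ℝ => xib b ((t : ℂ) * z)) (fderiv ℝ (xib b) z z) (1 : ℝ) := by
    have h1 : HasFDerivAt (xib b) (fderiv ℝ (xib b) z) (((1:ℝ) : ℂ) * z) := by
      simpa using hdiff.hasFDerivAt
    exact HasFDerivAt.comp_hasDerivAt (f := fun t : ℝ => (t : ℂ) * z) (1:ℝ) h1 hline
  have hmono : MonotoneOn (fun t : ℝ => xib b ((t : ℂ) * z)) (Ioi 0) := by
    intro s hs t ht hst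
    exact a10_xib_mono b z (le_of_lt hs) hst
  have hw := hmono.derivWithin_nonneg (x := (1:ℝ))
  rw [derivWithin_of_isOpen isOpen_Ioi (by simp), hd.deriv] at hw
  exact hw

/-! ## Second derivatives of products -/

theorem a10_fderiv2_mul {f g : ℂ → ℝ} {z : ℂ} (hf : ContDiffAt ℝ 2 f z) (hg : ContDiffAt ℝ 2 g z)
    (v : ℂ) : fderiv ℝ (fderiv ℝ (fun y => f y * g y)) z v v =
      f z * fderiv ℝ (fderiv ℝ g) z v v + 2 * (fderiv ℝ f z v * fderiv ℝ g z v)
        + g z * fderiv ℝ (fderiv ℝ f) z v v := by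
  have hfd : ∀ᶠ y in 𝓝 z, DifferentiableAt ℝ f y :=
    (hf.eventually (by simp)).mono fun y hy => hy.differentiableAt (by norm_num)
  have hgd : ∀ᶠ y in 𝓝 z, DifferentiableAt ℝ g y :=
    (hg.eventually (by simp)).mono fun y hy => hy.differentiableAt (by norm_num)
  have hev : fderiv ℝ (fun y => f y * g y) =ᶠ[𝓝 z] fun y => f y • fderiv ℝ g y + g y • fderiv ℝ f y := by
    filter_upwards [hfd, hgd] with y h1 h2
    exact (h1.hasFDerivAt.mul h2.hasFDerivAt).fderiv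
  have hf1 : DifferentiableAt ℝ f z := hfd.self_of_nhds
  have hg1 : DifferentiableAt ℝ g z := hgd.self_of_nhds
  have hf2 : DifferentiableAt ℝ (fderiv ℝ f) z :=
    (hf.fderiv_right (m := 1) (by norm_num)).differentiableAt (by norm_num)
  have hg2 : DifferentiableAt ℝ (fderiv ℝ g) z :=
    (hg.fderiv_right (m := 1) (by norm_num)).differentiableAt (by norm_num)
  have h3 := ((hf1.hasFDerivAt.smul hg2.hasFDerivAt).add (hg1.hasFDerivAt.smul hf2.hasFDerivAt))
  have h4 := (h3.congr_of_eventuallyEq hev).fderiv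
  rw [h4]
  simp
  ring

theorem a10_laplacian_eq (f : ℂ → ℝ) (z : ℂ) :
    Δ f z = fderiv ℝ (fderiv ℝ f) z 1 1 + fderiv ℝ (fderiv ℝ f) z I I := by
  rw [InnerProductSpace.laplacian_eq_iteratedFDeriv_complexPlane]
  simp only [iteratedFDeriv_two_apply]
  simp

/-- the gaussian factor -/
noncomputable def a10_e (K : ℝ) (z : ℂ) : ℝ := Real.exp (-(K * ‖z‖ ^ 2))

theorem a10_e_smooth (K : ℝ) : ContDiff ℝ ∞ (a10_e K) := by
  unfold a10_e
  have : ContDiff ℝ ∞ (fun z : ℂ => ‖z‖ ^ 2) := contDiff_norm_sq ℝ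
  fun_prop

theorem a10_e_fderiv (K : ℝ) (z : ℂ) :
    HasFDerivAt (a10_e K) ((-(2 * K) * a10_e K z) • (innerSL ℝ z)) z := by
  have h1 : HasFDerivAt (fun z : ℂ => ‖z‖ ^ 2) (2 • (innerSL ℝ z)) z :=
    (hasStrictFDerivAt_norm_sq z).hasFDerivAt
  have h2 := ((h1.const_mul K).neg).exp
  refine h2.congr_fderiv ?_
  ext v
  simp [a10_e]
  ring

theorem a10_e_fderiv2 (K : ℝ) (z v : ℂ) :
    fderiv ℝ (fderiv ℝ (a10_e K)) z v v =
      a10_e K z * (4 * K ^ 2 * (inner ℝ z v) ^ 2 - 2 * K * ‖v‖ ^ 2) := by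
  have hev : fderiv ℝ (a10_e K) = fun y => (-(2 * K) * a10_e K y) • (innerSL ℝ y) := by
    funext y
    exact (a10_e_fderiv K y).fderiv
  rw [hev]
  have h1 := ((a10_e_fderiv K z).const_mul (-(2 * K)))
  have h2 : HasFDerivAt (fun y : ℂ => innerSL ℝ y) (innerSL ℝ) z := (innerSL ℝ).hasFDerivAt
  have h3 : HasFDerivAt (fun y : ℂ => (-(2 * K) * a10_e K y) • (innerSL ℝ) y) _ z := h1.smul h2
  rw [h3.fderiv]
  simp only [_root_.add_apply, _root_.smul_apply, ContinuousLinearMap.smulRight_apply,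
    innerSL_apply_apply, smul_eq_mul]
  have h5 : ((innerSL ℝ) v) v = ‖v‖ ^ 2 := by
    rw [← real_inner_self_eq_norm_sq]; rfl
  rw [h5]
  ring

theorem xib_super {b K ρ : ℝ} (hb : 0 < b) (hK : 0 < K) (hρ : K * ρ ^ 2 ≤ 1 / 2) :
    WSup (Metric.ball 0 ρ \ star b) (fun z => xib b z * Real.exp (-(K * ‖z‖ ^ 2)))
      (fun z => 2 * K * (xib b z * Real.exp (-(K * ‖z‖ ^ 2)))) := by
  have hopen : IsOpen (Metric.ball (0:ℂ) ρ \ star b) :=
    Metric.isOpen_ball.sdiff (star_closed b)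
  have he : ∀ z : ℂ, Real.exp (-(K * ‖z‖ ^ 2)) = a10_e K z := fun z => rfl
  simp only [he]
  have hsm : ContDiffOn ℝ 2 (xib b) (star b)ᶜ := (xib_smooth hb).of_le (by norm_cast)
  have hsme : ContDiff ℝ 2 (a10_e K) := (a10_e_smooth K).of_le (by norm_cast)
  apply wsup_of_laplacian hopen
  · refine (hsm.mono ?_).mul hsme.contDiffOn
    exact fun z hz => hz.2
  · exact (continuous_const.mul ((xib_cont hb).mul (a10_e_smooth K).continuous)).continuousOn
  · rintro z ⟨hz1, hz2⟩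
    have hz1' : ‖z‖ < ρ := by simpa using hz1
    have hc1 : ContDiffAt ℝ 2 (xib b) z := (a10_harmonic hb hz2).1
    have hc2 : ContDiffAt ℝ 2 (a10_e K) z := hsme.contDiffAt
    have hlap := xib_lap hb hz2
    rw [a10_laplacian_eq] at hlap ⊢
    rw [a10_fderiv2_mul hc1 hc2, a10_fderiv2_mul hc1 hc2, a10_e_fderiv2, a10_e_fderiv2,
      (a10_e_fderiv K z).fderiv]
    have hr := a10_radial hb hz2
    have hzz : fderiv ℝ (xib b) z z = z.re * fderiv ℝ (xib b) z 1 + z.im * fderiv ℝ (xib b) z I := by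
      conv_lhs => rw [show z = z.re • (1:ℂ) + z.im • I by simp [Complex.re_add_im]]
      rw [map_add, map_smul, map_smul]
      simp
    have hi1 : inner ℝ z 1 = z.re := by simp [Complex.inner]
    have hiI : inner ℝ z I = z.im := by simp [Complex.inner]
    have hx := xib_nonneg b z
    have hex : 0 < a10_e K z := Real.exp_pos _
    have hns := a10_norm_sq z
    simp only [_root_.smul_apply, innerSL_apply_apply, smul_eq_mul, hi1, hiI,
      norm_one, Complex.norm_I]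
    set D1 := fderiv ℝ (xib b) z 1
    set DI := fderiv ℝ (xib b) z I
    set H1 := fderiv ℝ (fderiv ℝ (xib b)) z 1 1
    set HI := fderiv ℝ (fderiv ℝ (xib b)) z I I
    rw [hzz] at hr
    have hsq : ‖z‖ ^ 2 ≤ ρ ^ 2 := by
      have := norm_nonneg z
      nlinarith
    have hKz : K * (z.re ^ 2 + z.im ^ 2) ≤ 1 / 2 := by
      rw [← hns]
      nlinarith
    have hkey : -(xib b z * (a10_e K z * (4 * K ^ 2 * z.re ^ 2 - 2 * K * 1 ^ 2)) +
          2 * (D1 * (-(2 * K) * a10_e K z * z.re)) + a10_e K z * H1 +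
        (xib b z * (a10_e K z * (4 * K ^ 2 * z.im ^ 2 - 2 * K * 1 ^ 2)) +
          2 * (DI * (-(2 * K) * a10_e K z * z.im)) + a10_e K z * HI))
        - 2 * K * (xib b z * a10_e K z)
        = 4 * K * a10_e K z * (z.re * D1 + z.im * DI)
          + 4 * K * xib b z * a10_e K z * (1 / 2 - K * (z.re ^ 2 + z.im ^ 2))
          - a10_e K z * (H1 + HI) := by
      ring
    have h1 : 0 ≤ 4 * K * a10_e K z * (z.re * D1 + z.im * DI) := by positivity
    have h2 : 0 ≤ 4 * K * xib b z * a10_e K z * (1 / 2 - K * (z.re ^ 2 + z.im ^ 2)) :=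
      mul_nonneg (by positivity) (by linarith)
    rw [hlap, mul_zero] at hkey
    linarith

/-- `xib` is weakly harmonic off the star -/
theorem xib_weak {b : ℝ} (hb : 0 < b) {φ : ℂ → ℝ} (hφ : Tst (star b)ᶜ φ) :
    ∫ z, inner ℝ (gradient (xib b) z) (gradient φ z) = 0 := by
  have hsm : ContDiffOn ℝ 2 (xib b) (star b)ᶜ := (xib_smooth hb).of_le (by norm_cast)
  rw [(green (star_closed b).isOpen_compl hsm hφ).2.2]
  have : ∀ z, Δ (xib b) z * φ z = 0 := by
    intro z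
    by_cases hz : z ∈ star b
    · have : φ z = 0 := by
        by_contra h
        exact (hφ.2.2 (subset_tsupport φ h)) hz
      rw [this, mul_zero]
    · rw [xib_lap hb hz, zero_mul]
  simp [this]

end Pool.Agent.H87.LE
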