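import Pool.Agent.H87.LE.Base
import Pool.Agent.H87.LE.A11_Defs

open MeasureTheory Complex Set Filter Topology
open scoped ContDiff Laplacian

namespace Pool.Agent.H87.LE

/-! # A11a: change of variables `z⁴ = cosh (ξ + iη)`
The eight open tiles of `ℂ \\ Mir` have equal integrals of `f (hh z) (xi z)`; on the tile
`0 < arg z < π/4` use `z = (cosh v)^(1/4)`, `v ∈ Strip`, injective holomorphic, Jacobian `Jac`. -/

/-! ## elliptic coordinates in the upper half plane -/

theorem a11a_cosh_re (v : ℂ) : (Complex.cosh v).re = Real.cosh v.re * Real.cos v.im := by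
  conv_lhs => rw [← Complex.re_add_im v]
  rw [Complex.cosh_add, Complex.cosh_mul_I, Complex.sinh_mul_I]
  simp [← Complex.ofReal_cosh, ← Complex.ofReal_sinh, ← Complex.ofReal_cos, ← Complex.ofReal_sin]

theorem a11a_cosh_im (v : ℂ) : (Complex.cosh v).im = Real.sinh v.re * Real.sin v.im := by
  conv_lhs => rw [← Complex.re_add_im v]
  rw [Complex.cosh_add, Complex.cosh_mul_I, Complex.sinh_mul_I]
  simp [← Complex.ofReal_cosh, ← Complex.ofReal_sinh, ← Complex.ofReal_cos, ← Complex.ofReal_sin]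

theorem a11a_sinh_re (v : ℂ) : (Complex.sinh v).re = Real.sinh v.re * Real.cos v.im := by
  conv_lhs => rw [← Complex.re_add_im v]
  rw [Complex.sinh_add, Complex.cosh_mul_I, Complex.sinh_mul_I]
  simp [← Complex.ofReal_cosh, ← Complex.ofReal_sinh, ← Complex.ofReal_cos, ← Complex.ofReal_sin]

theorem a11a_sinh_im (v : ℂ) : (Complex.sinh v).im = Real.cosh v.re * Real.sin v.im := by
  conv_lhs => rw [← Complex.re_add_im v]
  rw [Complex.sinh_add, Complex.cosh_mul_I, Complex.sinh_mul_I]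
  simp [← Complex.ofReal_cosh, ← Complex.ofReal_sinh, ← Complex.ofReal_cos, ← Complex.ofReal_sin]

theorem a11a_norm_cosh_sq (v : ℂ) :
    ‖Complex.cosh v‖ ^ 2 = Real.sinh v.re ^ 2 + Real.cos v.im ^ 2 := by
  rw [← Complex.normSq_eq_norm_sq, Complex.normSq_apply, a11a_cosh_re, a11a_cosh_im]
  have h1 := Real.cosh_sq v.re
  have h2 := Real.sin_sq_add_cos_sq v.im
  have : Real.cosh v.re * Real.cos v.im * (Real.cosh v.re * Real.cos v.im) +
      Real.sinh v.re * Real.sin v.im * (Real.sinh v.re * Real.sin v.im) =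
      Real.cosh v.re ^ 2 * Real.cos v.im ^ 2 + Real.sinh v.re ^ 2 * Real.sin v.im ^ 2 := by ring
  rw [this, h1]
  linear_combination Real.sinh v.re ^ 2 * h2

theorem a11a_norm_sinh_sq (v : ℂ) :
    ‖Complex.sinh v‖ ^ 2 = Real.sinh v.re ^ 2 + Real.sin v.im ^ 2 := by
  rw [← Complex.normSq_eq_norm_sq, Complex.normSq_apply, a11a_sinh_re, a11a_sinh_im]
  have h1 := Real.cosh_sq v.re
  have h2 := Real.sin_sq_add_cos_sq v.im
  have : Real.sinh v.re * Real.cos v.im * (Real.sinh v.re * Real.cos v.im) +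
      Real.cosh v.re * Real.sin v.im * (Real.cosh v.re * Real.sin v.im) =
      Real.sinh v.re ^ 2 * Real.cos v.im ^ 2 + Real.cosh v.re ^ 2 * Real.sin v.im ^ 2 := by ring
  rw [this, h1]
  linear_combination Real.sinh v.re ^ 2 * h2

/-- `|cosh v - 1| = cosh ξ - cos η` -/
theorem a11a_norm_cosh_sub (v : ℂ) :
    ‖Complex.cosh v - 1‖ = Real.cosh v.re - Real.cos v.im := by
  have h0 : 0 ≤ Real.cosh v.re - Real.cos v.im := by
    have := Real.one_le_cosh v.re
    have := Real.cos_le_one v.im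
    linarith
  rw [← Real.sqrt_sq (norm_nonneg (Complex.cosh v - 1)), ← Real.sqrt_sq h0,
    ← Complex.normSq_eq_norm_sq, Complex.normSq_apply, Complex.sub_re, Complex.sub_im,
    a11a_cosh_re, a11a_cosh_im, Complex.one_re, Complex.one_im]
  congr 1
  have h1 := Real.cosh_sq v.re
  have h2 := Real.sin_sq_add_cos_sq v.im
  have e1 : Real.sinh v.re ^ 2 = Real.cosh v.re ^ 2 - 1 := by linarith
  have e2 : Real.sin v.im ^ 2 = 1 - Real.cos v.im ^ 2 := by linarith
  have : (Real.cosh v.re * Real.cos v.im - 1) * (Real.cosh v.re * Real.cos v.im - 1) +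
      (Real.sinh v.re * Real.sin v.im - 0) * (Real.sinh v.re * Real.sin v.im - 0) =
      (Real.cosh v.re * Real.cos v.im - 1) ^ 2 + Real.sinh v.re ^ 2 * Real.sin v.im ^ 2 := by ring
  rw [this, e1, e2]
  ring

theorem a11a_norm_cosh_add (v : ℂ) :
    ‖Complex.cosh v + 1‖ = Real.cosh v.re + Real.cos v.im := by
  have h0 : 0 ≤ Real.cosh v.re + Real.cos v.im := by
    have := Real.one_le_cosh v.re
    have := Real.neg_one_le_cos v.im
    linarith
  rw [← Real.sqrt_sq (norm_nonneg (Complex.cosh v + 1)), ← Real.sqrt_sq h0,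
    ← Complex.normSq_eq_norm_sq, Complex.normSq_apply, Complex.add_re, Complex.add_im,
    a11a_cosh_re, a11a_cosh_im, Complex.one_re, Complex.one_im]
  congr 1
  have h1 := Real.cosh_sq v.re
  have h2 := Real.sin_sq_add_cos_sq v.im
  have e1 : Real.sinh v.re ^ 2 = Real.cosh v.re ^ 2 - 1 := by linarith
  have e2 : Real.sin v.im ^ 2 = 1 - Real.cos v.im ^ 2 := by linarith
  have : (Real.cosh v.re * Real.cos v.im + 1) * (Real.cosh v.re * Real.cos v.im + 1) +
      (Real.sinh v.re * Real.sin v.im + 0) * (Real.sinh v.re * Real.sin v.im + 0) =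
      (Real.cosh v.re * Real.cos v.im + 1) ^ 2 + Real.sinh v.re ^ 2 * Real.sin v.im ^ 2 := by ring
  rw [this, e1, e2]
  ring

/-- the strip in `ℂ` -/
def a11a_S : Set ℂ := {v | 0 < v.re ∧ 0 < v.im ∧ v.im < Real.pi}

/-- the parametrisation of the tile -/
noncomputable def a11a_P (v : ℂ) : ℂ := (Complex.cosh v) ^ ((4 : ℕ) : ℂ)⁻¹

theorem a11a_cosh_im_pos {v : ℂ} (h : v ∈ a11a_S) : 0 < (Complex.cosh v).im := by
  rw [a11a_cosh_im]
  exact mul_pos (Real.sinh_pos_iff.2 h.1) (Real.sin_pos_of_pos_of_lt_pi h.2.1 h.2.2)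

/-- surjectivity of `cosh` on the upper half plane -/
theorem a11a_cosh_surj {w : ℂ} (h : 0 < w.im) : ∃ v ∈ a11a_S, Complex.cosh v = w := by
  set a := ‖w + 1‖ with ha
  set b := ‖w - 1‖ with hb
  have ha2 : a ^ 2 = (w.re + 1) ^ 2 + w.im ^ 2 := by
    rw [ha, ← Complex.normSq_eq_norm_sq, Complex.normSq_apply]; simp; ring
  have hb2 : b ^ 2 = (w.re - 1) ^ 2 + w.im ^ 2 := by
    rw [hb, ← Complex.normSq_eq_norm_sq, Complex.normSq_apply]; simp; ring
  have ha0 : 0 ≤ a := norm_nonneg _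
  have hb0 : 0 ≤ b := norm_nonneg _
  have hab : 2 ≤ a + b := by
    have : ‖(w + 1) - (w - 1)‖ ≤ ‖w + 1‖ + ‖w - 1‖ := norm_sub_le _ _
    have e : (w + 1) - (w - 1) = 2 := by ring
    rw [e] at this
    simpa using this
  have hba : |a - b| ≤ 2 := by
    have := abs_norm_sub_norm_le (w + 1) (w - 1)
    have e : (w + 1) - (w - 1) = 2 := by ring
    rw [e] at this
    simpa using this
  set C := (a + b) / 2 with hC
  set c := (a - b) / 2 with hc
  have hC1 : 1 ≤ C := by rw [hC]; linarith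
  have hc1 : c ^ 2 ≤ 1 := by
    rw [hc]; have := abs_le.1 hba; nlinarith
  have hCc : C * c = w.re := by rw [hC, hc]; nlinarith
  have hprod : (C ^ 2 - 1) * (1 - c ^ 2) = w.im ^ 2 := by
    have : C ^ 2 + c ^ 2 = w.re ^ 2 + w.im ^ 2 + 1 := by rw [hC, hc]; nlinarith
    have h3 : C ^ 2 * c ^ 2 = w.re ^ 2 := by rw [← hCc]; ring
    nlinarith
  have hpos : 0 < (C ^ 2 - 1) * (1 - c ^ 2) := by rw [hprod]; positivity
  have hC2 : 0 ≤ C ^ 2 - 1 := by nlinarith
  have hc2 : 0 ≤ 1 - c ^ 2 := by linarith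
  have hC3 : 0 < C ^ 2 - 1 := lt_of_le_of_ne hC2 (fun h => by rw [← h] at hpos; simp at hpos)
  have hc3 : 0 < 1 - c ^ 2 := lt_of_le_of_ne hc2 (fun h => by rw [← h] at hpos; simp at hpos)
  have hC4 : 1 < C := by nlinarith
  have hcm : -1 < c := by nlinarith
  have hcp : c < 1 := by nlinarith
  refine ⟨⟨Real.arcosh C, Real.arccos c⟩, ⟨Real.arcosh_pos hC4, Real.arccos_pos.2 hcp, ?_⟩, ?_⟩
  · show Real.arccos c < Real.pi
    rcases (Real.arccos_le_pi c).lt_or_eq with h' | h'
    · exact h'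
    · exact absurd (Real.arccos_eq_pi.1 h') (not_le.2 hcm)
  · have hs : Real.sinh (Real.arcosh C) * Real.sin (Real.arccos c) = w.im := by
      rw [Real.sinh_arcosh hC1, Real.sin_arccos, ← Real.sqrt_mul hC2, hprod, Real.sqrt_sq h.le]
    apply Complex.ext
    · rw [a11a_cosh_re]
      show Real.cosh (Real.arcosh C) * Real.cos (Real.arccos c) = w.re
      rw [Real.cosh_arcosh hC1, Real.cos_arccos hcm.le hcp.le, hCc]
    · rw [a11a_cosh_im]
      exact hs

theorem a11a_P_pow (v : ℂ) : a11a_P v ^ 4 = Complex.cosh v := by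
  rw [a11a_P]
  exact Complex.cpow_nat_inv_pow _ (by norm_num)

theorem a11a_xi_P {v : ℂ} (h : v ∈ a11a_S) : xi (a11a_P v) = v.re := by
  rw [xi, a11a_P_pow, a11a_norm_cosh_sub, a11a_norm_cosh_add]
  rw [show (Real.cosh v.re - Real.cos v.im + (Real.cosh v.re + Real.cos v.im)) / 2 =
    Real.cosh v.re by ring]
  exact Real.arcosh_cosh h.1.le

theorem a11a_hh_P {v : ℂ} (h : v ∈ a11a_S) :
    hh (a11a_P v) = Real.sinh v.re * Real.sin v.im := by
  rw [hh, a11a_P_pow, abs_of_pos (a11a_cosh_im_pos h), a11a_cosh_im]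

theorem a11a_P_inj : InjOn a11a_P a11a_S := by
  intro v hv v₂ hv₂ he
  have h1 : v.re = v₂.re := by rw [← a11a_xi_P hv, ← a11a_xi_P hv₂, he]
  have h2 : Complex.cosh v = Complex.cosh v₂ := by rw [← a11a_P_pow, ← a11a_P_pow, he]
  have h3 : Real.cosh v.re * Real.cos v.im = Real.cosh v₂.re * Real.cos v₂.im := by
    rw [← a11a_cosh_re, ← a11a_cosh_re, h2]
  rw [h1] at h3
  have h4 : Real.cos v.im = Real.cos v₂.im := by
    have := Real.cosh_pos v₂.re
    exact mul_left_cancel₀ this.ne' h3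
  have h5 : v.im = v₂.im :=
    Real.injOn_cos ⟨hv.2.1.le, hv.2.2.le⟩ ⟨hv₂.2.1.le, hv₂.2.2.le⟩ h4
  exact Complex.ext h1 h5

theorem a11a_P_deriv {v : ℂ} (h : v ∈ a11a_S) :
    HasDerivAt a11a_P (((4 : ℕ) : ℂ)⁻¹ * (Complex.cosh v) ^ (((4 : ℕ) : ℂ)⁻¹ - 1) * Complex.sinh v)
      v := by
  have h1 : Complex.cosh v ∈ slitPlane := Or.inr (a11a_cosh_im_pos h).ne'
  exact (Complex.hasDerivAt_cosh v).cpow_const h1

/-! ## the tile -/

/-- the tile `0 < arg z < π/4` -/
def a11a_T : Set ℂ := {z | 0 < z.im ∧ z.im < z.re}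

theorem a11a_P_re {v : ℂ} (h : v ∈ a11a_S) :
    (a11a_P v).re = Real.exp (Real.log ‖Complex.cosh v‖ / 4) * Real.cos ((Complex.cosh v).arg / 4) ∧
    (a11a_P v).im = Real.exp (Real.log ‖Complex.cosh v‖ / 4) * Real.sin ((Complex.cosh v).arg / 4) := by
  have h0 : Complex.cosh v ≠ 0 := by
    intro h1
    have := a11a_cosh_im_pos h
    rw [h1] at this
    simp at this
  have e : Complex.log (Complex.cosh v) * ((4 : ℕ) : ℂ)⁻¹ =
      ((Real.log ‖Complex.cosh v‖ / 4 : ℝ) : ℂ) + (((Complex.cosh v).arg / 4 : ℝ) : ℂ) * I := by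
    rw [Complex.log]
    push_cast
    ring
  rw [a11a_P, Complex.cpow_def_of_ne_zero h0, e]
  constructor
  · rw [Complex.exp_re]; simp
  · rw [Complex.exp_im]; simp

theorem a11a_image : a11a_P '' a11a_S = a11a_T := by
  apply Set.Subset.antisymm
  · rintro z ⟨v, hv, rfl⟩
    have h1 := a11a_P_re hv
    have harg : 0 < (Complex.cosh v).arg := by
      have h2 : 0 ≤ (Complex.cosh v).arg := Complex.arg_nonneg_iff.2 (a11a_cosh_im_pos hv).le
      refine lt_of_le_of_ne h2 (fun h3 => ?_)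
      have h4 := (Complex.arg_eq_zero_iff.1 h3.symm).2
      exact (a11a_cosh_im_pos hv).ne' h4
    have harg2 : (Complex.cosh v).arg < Real.pi :=
      Complex.arg_lt_pi_iff.2 (Or.inr (a11a_cosh_im_pos hv).ne')
    set t := (Complex.cosh v).arg / 4 with ht
    have ht0 : 0 < t := by rw [ht]; linarith
    have ht1 : t < Real.pi / 4 := by rw [ht]; linarith
    have hpi := Real.pi_pos
    have hsin : 0 < Real.sin t := Real.sin_pos_of_pos_of_lt_pi ht0 (by linarith)
    have hlt : Real.sin t < Real.cos t := by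
      rw [← Real.sin_pi_div_two_sub]
      exact Real.sin_lt_sin_of_lt_of_le_pi_div_two (by linarith) (by linarith) (by linarith)
    have hexp := Real.exp_pos (Real.log ‖Complex.cosh v‖ / 4)
    refine ⟨?_, ?_⟩
    · rw [h1.2]; exact mul_pos hexp hsin
    · rw [h1.1, h1.2]; exact mul_lt_mul_of_pos_left hlt hexp
  · rintro z ⟨h0, h1⟩
    have him : 0 < (z ^ 4).im := by
      have e : (z ^ 4).im = 4 * z.re * z.im * ((z.re - z.im) * (z.re + z.im)) := by
        have : z = ⟨z.re, z.im⟩ := rfl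
        simp only [pow_succ, pow_zero, one_mul, Complex.mul_im, Complex.mul_re]
        ring
      rw [e]
      have h2 : 0 < z.re := by linarith
      have h3 : 0 < z.re - z.im := by linarith
      positivity
    obtain ⟨v, hv, hc⟩ := a11a_cosh_surj him
    refine ⟨v, hv, ?_⟩
    have hre : 0 < z.re := by linarith
    have ha1 : |z.arg| < Real.pi / 2 := Complex.abs_arg_lt_pi_div_two_iff.2 (Or.inl hre)
    have ha2 := abs_lt.1 ha1
    have ha3 : 0 ≤ z.arg := Complex.arg_nonneg_iff.2 h0.le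
    have ha4 : z.arg ≤ Real.pi / 4 := by
      by_contra hcon
      push Not at hcon
      have hs : Real.cos z.arg < Real.sin z.arg := by
        rw [← Real.sin_pi_div_two_sub]
        exact Real.sin_lt_sin_of_lt_of_le_pi_div_two (by linarith) (by linarith) (by linarith)
      have hz : z ≠ 0 := by
        intro h2
        rw [h2] at hre
        simp at hre
      have hn : 0 < ‖z‖ := norm_pos_iff.2 hz
      have h5 := Complex.norm_mul_cos_arg z
      have h6 := Complex.norm_mul_sin_arg z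
      have h7 := mul_lt_mul_of_pos_left hs hn
      rw [h5, h6] at h7
      linarith
    have hpi := Real.pi_pos
    rw [a11a_P, hc]
    refine Complex.pow_cpow_nat_inv (by norm_num) ?_ ?_
    · push_cast
      linarith
    · push_cast
      exact ha4

theorem a11a_det (a : ℂ) :
    ((ContinuousLinearMap.toSpanSingleton ℂ a).restrictScalars ℝ).det = ‖a‖ ^ 2 := by
  simp [ContinuousLinearMap.det, LinearMap.det_restrictScalars,
      Algebra.norm_complex_eq, Complex.normSq_eq_norm_sq]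

theorem a11a_jac {v : ℂ} (h : v ∈ a11a_S) :
    ‖((4 : ℕ) : ℂ)⁻¹ * (Complex.cosh v) ^ (((4 : ℕ) : ℂ)⁻¹ - 1) * Complex.sinh v‖ ^ 2 =
      Jac v.re v.im := by
  have h0 : Complex.cosh v ≠ 0 := by
    intro h1
    have := a11a_cosh_im_pos h
    rw [h1] at this
    simp at this
  have hn : 0 < ‖Complex.cosh v‖ := norm_pos_iff.2 h0
  have e : (((4 : ℕ) : ℂ)⁻¹ - 1) = ((-(3 / 4) : ℝ) : ℂ) := by push_cast; norm_num
  rw [norm_mul, norm_mul, e, Complex.norm_cpow_real, mul_pow, mul_pow, a11a_norm_sinh_sq, Jac,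
    ← a11a_norm_cosh_sq]
  have h2 : (‖Complex.cosh v‖ ^ (-(3 / 4) : ℝ)) ^ 2 = ((‖Complex.cosh v‖ ^ 2) ^ (3 / 4 : ℝ))⁻¹ := by
    rw [← Real.rpow_natCast, ← Real.rpow_mul hn.le, ← Real.rpow_natCast, ← Real.rpow_mul hn.le,
      ← Real.rpow_neg hn.le]
    norm_num
  rw [h2]
  have h3 : ‖((4 : ℕ) : ℂ)⁻¹‖ ^ 2 = 1 / 16 := by norm_num
  rw [h3]
  field_simp

theorem a11a_S_meas : MeasurableSet a11a_S := by
  have : a11a_S = {v : ℂ | 0 < v.re} ∩ ({v : ℂ | 0 < v.im} ∩ {v : ℂ | v.im < Real.pi}) := rfl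
  rw [this]
  exact (measurableSet_lt measurable_const Complex.measurable_re).inter
    ((measurableSet_lt measurable_const Complex.measurable_im).inter
      (measurableSet_lt Complex.measurable_im measurable_const))

/-- the integral over the tile -/
theorem a11a_tile (f : ℝ → ℝ → ENNReal) :
    ∫⁻ z in a11a_T, f (hh z) (xi z) =
      ∫⁻ p in Strip, f (Real.sinh p.1 * Real.sin p.2) p.1 * ENNReal.ofReal (Jac p.1 p.2) := by
  rw [← a11a_image]
  have h1 := lintegral_image_eq_lintegral_abs_det_fderiv_mul (μ := (volume : Measure ℂ))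
    a11a_S_meas (fun v hv => ((a11a_P_deriv hv).hasFDerivAt.restrictScalars ℝ).hasFDerivWithinAt)
    a11a_P_inj (fun z => f (hh z) (xi z))
  rw [h1]
  have h2 : ∀ v ∈ a11a_S, ENNReal.ofReal |((ContinuousLinearMap.toSpanSingleton ℂ
      (((4 : ℕ) : ℂ)⁻¹ * (Complex.cosh v) ^ (((4 : ℕ) : ℂ)⁻¹ - 1) *
        Complex.sinh v)).restrictScalars ℝ).det| * f (hh (a11a_P v)) (xi (a11a_P v)) =
      (fun p : ℝ × ℝ => f (Real.sinh p.1 * Real.sin p.2) p.1 * ENNReal.ofReal (Jac p.1 p.2))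
        (Complex.measurableEquivRealProd v) := by
    intro v hv
    rw [a11a_det, abs_of_nonneg (by positivity), a11a_jac hv, a11a_hh_P hv, a11a_xi_P hv, mul_comm]
    rfl
  rw [setLIntegral_congr_fun a11a_S_meas h2]
  have h3 : a11a_S = Complex.measurableEquivRealProd ⁻¹' Strip := rfl
  rw [h3]
  exact Complex.volume_preserving_equiv_real_prod.setLIntegral_comp_preimage_emb
    Complex.measurableEquivRealProd.measurableEmbedding
    (fun p : ℝ × ℝ => f (Real.sinh p.1 * Real.sin p.2) p.1 * ENNReal.ofReal (Jac p.1 p.2)) Strip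

/-! ## eight tiles -/

theorem a11a_line (a b : ℝ) (hab : a ≠ 0 ∨ b ≠ 0) :
    volume {z : ℂ | a * z.re + b * z.im = 0} = 0 := by
  let L : ℂ →ₗ[ℝ] ℝ := a • Complex.reLm + b • Complex.imLm
  have h1 : {z : ℂ | a * z.re + b * z.im = 0} = (LinearMap.ker L : Set ℂ) := by
    ext z
    simp [L]
  rw [h1]
  apply Measure.addHaar_submodule
  intro h2
  rw [LinearMap.ker_eq_top] at h2
  rcases hab with h | h
  · have : L 1 = 0 := by rw [h2]; rfl
    simp [L] at this
    exact h this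
  · have : L I = 0 := by rw [h2]; rfl
    simp [L] at this
    exact h this

theorem a11a_half (A B S N : Set ℂ) (hB : MeasurableSet B)
    (e : ℂ ≃ₗᵢ[ℝ] ℂ) (hpre : e ⁻¹' A = B) (hdisj : Disjoint A B) (hN : volume N = 0)
    (h1 : A ∪ B ⊆ S) (h2 : S ⊆ (A ∪ B) ∪ N) (F : ℂ → ENNReal) (hF : ∀ z, F (e z) = F z) :
    ∫⁻ z in S, F z = 2 * ∫⁻ z in A, F z := by
  have hS : S =ᵐ[volume] (A ∪ B : Set ℂ) := by
    refine (ae_eq_set).2 ⟨?_, ?_⟩
    · refine measure_mono_null ?_ hN
      intro z hz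
      rcases h2 hz.1 with h | h
      · exact absurd h hz.2
      · exact h
    · rw [Set.sdiff_eq_empty.2 h1]; simp
  rw [setLIntegral_congr hS, lintegral_union hB hdisj, two_mul]
  congr 1
  rw [← hpre]
  have h3 := e.measurePreserving.setLIntegral_comp_preimage_emb
    e.toHomeomorph.measurableEmbedding F A
  rw [← h3]
  exact lintegral_congr (fun z => (hF z).symm)

theorem a11a_sym {z z' : ℂ} (h : z' ^ 4 = (starRingEnd ℂ) (z ^ 4)) : hh z' = hh z ∧ xi z' = xi z := by
  constructor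
  · rw [hh, hh, h, Complex.conj_im, abs_neg]
  · have h1 : ‖z' ^ 4 - 1‖ = ‖z ^ 4 - 1‖ := by
      rw [h, ← Complex.norm_conj (z ^ 4 - 1)]
      congr 1
      simp
    have h2 : ‖z' ^ 4 + 1‖ = ‖z ^ 4 + 1‖ := by
      rw [h, ← Complex.norm_conj (z ^ 4 + 1)]
      congr 1
      simp
    rw [xi, xi, h1, h2]

/-- the swap of real and imaginary part -/
noncomputable def a11a_swap : ℂ ≃ₗᵢ[ℝ] ℂ :=
  Complex.conjLIE.trans (rotation ⟨I, by simp [Submonoid.unitSphere]⟩)

theorem a11a_swap_apply (z : ℂ) : a11a_swap z = I * (starRingEnd ℂ) z := rfl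

theorem tile_lintegral (f : ℝ → ℝ → ENNReal) (hf : Measurable (Function.uncurry f)) :
    ∫⁻ z : ℂ, f (hh z) (xi z) =
      8 * ∫⁻ p in Strip, f (Real.sinh p.1 * Real.sin p.2) p.1 * ENNReal.ofReal (Jac p.1 p.2) := by
  have hF : ∀ e : ℂ ≃ₗᵢ[ℝ] ℂ, (∀ z, e z ^ 4 = (starRingEnd ℂ) (z ^ 4)) →
      ∀ z, (fun z => f (hh z) (xi z)) (e z) = (fun z => f (hh z) (xi z)) z := by
    intro e he z
    have := a11a_sym (he z)
    simp only [this.1, this.2]
  have m1 : MeasurableSet {z : ℂ | z.im < 0} :=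
    measurableSet_lt Complex.measurable_im measurable_const
  have m2 : MeasurableSet {z : ℂ | 0 < z.im ∧ z.re < 0} :=
    (measurableSet_lt measurable_const Complex.measurable_im).inter
      (measurableSet_lt Complex.measurable_re measurable_const)
  have m3 : MeasurableSet {z : ℂ | 0 < z.re ∧ z.re < z.im} :=
    (measurableSet_lt measurable_const Complex.measurable_re).inter
      (measurableSet_lt Complex.measurable_re Complex.measurable_im)
  have s1 : ∫⁻ z in (univ : Set ℂ), f (hh z) (xi z) =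
      2 * ∫⁻ z in {z : ℂ | 0 < z.im}, f (hh z) (xi z) := by
    refine a11a_half {z : ℂ | 0 < z.im} {z : ℂ | z.im < 0} univ
      {z : ℂ | 0 * z.re + 1 * z.im = 0} m1 Complex.conjLIE ?_ ?_
      (a11a_line 0 1 (Or.inr one_ne_zero)) (subset_univ _) ?_ _ (hF _ ?_)
    · ext z; simp
    · rw [Set.disjoint_left]; intro z hz hz'
      simp only [mem_ofPred_eq] at hz hz'
      linarith
    · intro z _
      simp only [mem_union, mem_ofPred_eq]
      rcases lt_trichotomy 0 z.im with h | h | h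
      · left; left; exact h
      · right; rw [← h]; ring
      · left; right; exact h
    · intro z; simp
  have s2 : ∫⁻ z in {z : ℂ | 0 < z.im}, f (hh z) (xi z) =
      2 * ∫⁻ z in {z : ℂ | 0 < z.im ∧ 0 < z.re}, f (hh z) (xi z) := by
    refine a11a_half {z : ℂ | 0 < z.im ∧ 0 < z.re} {z : ℂ | 0 < z.im ∧ z.re < 0} {z : ℂ | 0 < z.im}
      {z : ℂ | 1 * z.re + 0 * z.im = 0} m2
      (Complex.conjLIE.trans (LinearIsometryEquiv.neg ℝ)) ?_ ?_
      (a11a_line 1 0 (Or.inl one_ne_zero)) ?_ ?_ _ (hF _ ?_)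
    · ext z; simp
    · rw [Set.disjoint_left]; intro z hz hz'
      simp only [mem_ofPred_eq] at hz hz'
      linarith [hz.2, hz'.2]
    · rintro z (h | h)
      · exact h.1
      · exact h.1
    · intro z hz
      simp only [mem_union, mem_ofPred_eq] at hz ⊢
      rcases lt_trichotomy 0 z.re with h | h | h
      · left; left; exact ⟨hz, h⟩
      · right; rw [← h]; ring
      · left; right; exact ⟨hz, h⟩
    · intro z
      simp only [LinearIsometryEquiv.trans_apply, LinearIsometryEquiv.coe_neg, Complex.conjLIE_apply]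
      rw [map_pow]
      ring
  have s3 : ∫⁻ z in {z : ℂ | 0 < z.im ∧ 0 < z.re}, f (hh z) (xi z) =
      2 * ∫⁻ z in a11a_T, f (hh z) (xi z) := by
    refine a11a_half a11a_T {z : ℂ | 0 < z.re ∧ z.re < z.im} {z : ℂ | 0 < z.im ∧ 0 < z.re}
      {z : ℂ | 1 * z.re + (-1) * z.im = 0} m3 a11a_swap ?_ ?_
      (a11a_line 1 (-1) (Or.inl one_ne_zero)) ?_ ?_ _ (hF _ ?_)
    · ext z
      simp [a11a_T, a11a_swap_apply]
    · rw [Set.disjoint_left]; intro z hz hz'
      simp only [a11a_T, mem_ofPred_eq] at hz hz'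
      linarith [hz.2, hz'.2]
    · rintro z (h | h)
      · exact ⟨h.1, h.1.trans h.2⟩
      · exact ⟨h.1.trans h.2, h.1⟩
    · intro z hz
      simp only [mem_union, mem_ofPred_eq, a11a_T] at hz ⊢
      rcases lt_trichotomy z.im z.re with h | h | h
      · left; left; exact ⟨hz.1, h⟩
      · right; rw [h]; ring
      · left; right; exact ⟨hz.2, h⟩
    · intro z
      rw [a11a_swap_apply, mul_pow, map_pow, Complex.I_pow_four, one_mul]
  have s0 : ∫⁻ z : ℂ, f (hh z) (xi z) = ∫⁻ z in (univ : Set ℂ), f (hh z) (xi z) := by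
    rw [Measure.restrict_univ]
  rw [s0, s1, s2, s3, a11a_tile, ← mul_assoc, ← mul_assoc]
  norm_num

theorem a11a_hh_meas : Measurable hh := by
  unfold hh
  fun_prop

theorem a11a_xi_meas : Measurable xi := by
  unfold xi Real.arcosh
  fun_prop

theorem a11a_Jac_meas : Measurable (fun p : ℝ × ℝ => Jac p.1 p.2) := by
  unfold Jac
  fun_prop

theorem a11a_Jac_nonneg (a b : ℝ) : 0 ≤ Jac a b := by
  unfold Jac
  positivity

theorem tile_integrable (f : ℝ → ℝ → ℝ) (hf : Measurable (Function.uncurry f)) :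
    Integrable (fun z : ℂ => f (hh z) (xi z)) ↔
      IntegrableOn (fun p : ℝ × ℝ => Jac p.1 p.2 * f (Real.sinh p.1 * Real.sin p.2) p.1) Strip := by
  have hm1 : Measurable (fun z : ℂ => f (hh z) (xi z)) :=
    hf.comp (a11a_hh_meas.prodMk a11a_xi_meas)
  have hm2 : Measurable (fun p : ℝ × ℝ => f (Real.sinh p.1 * Real.sin p.2) p.1) := by
    have : Measurable (fun p : ℝ × ℝ => (Real.sinh p.1 * Real.sin p.2, p.1)) := by fun_prop
    exact hf.comp this
  have hm3 := a11a_Jac_meas.mul hm2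
  rw [IntegrableOn, Integrable, Integrable]
  have e := tile_lintegral (fun a b => ‖f a b‖ₑ) (by
    show Measurable (fun p : ℝ × ℝ => ‖Function.uncurry f p‖ₑ)
    exact hf.enorm)
  have e2 : ∫⁻ p in Strip, ‖Jac p.1 p.2 * f (Real.sinh p.1 * Real.sin p.2) p.1‖ₑ =
      ∫⁻ p in Strip, ‖f (Real.sinh p.1 * Real.sin p.2) p.1‖ₑ * ENNReal.ofReal (Jac p.1 p.2) := by
    refine lintegral_congr (fun p => ?_)
    rw [enorm_mul, mul_comm, Real.enorm_of_nonneg (a11a_Jac_nonneg _ _)]
  constructor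
  · rintro ⟨-, h⟩
    refine ⟨hm3.aestronglyMeasurable, ?_⟩
    rw [hasFiniteIntegral_iff_enorm] at h ⊢
    rw [e2]
    rw [e] at h
    exact lt_of_le_of_lt (le_mul_of_one_le_left zero_le (by norm_num)) h
  · rintro ⟨-, h⟩
    refine ⟨hm1.aestronglyMeasurable, ?_⟩
    rw [hasFiniteIntegral_iff_enorm] at h ⊢
    rw [e]
    rw [e2] at h
    exact ENNReal.mul_lt_top (by norm_num) h

theorem tile_integral (f : ℝ → ℝ → ℝ) (hf : Measurable (Function.uncurry f))
    (hi : Integrable (fun z : ℂ => f (hh z) (xi z))) :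
    ∫ z : ℂ, f (hh z) (xi z) =
      8 * ∫ p in Strip, Jac p.1 p.2 * f (Real.sinh p.1 * Real.sin p.2) p.1 := by
  have hi2 := (tile_integrable f hf).1 hi
  rw [integral_eq_lintegral_pos_part_sub_lintegral_neg_part hi,
    integral_eq_lintegral_pos_part_sub_lintegral_neg_part hi2]
  have e1 := tile_lintegral (fun a b => ENNReal.ofReal (f a b)) (by
    show Measurable (fun p : ℝ × ℝ => ENNReal.ofReal (Function.uncurry f p))
    exact hf.ennreal_ofReal)
  have e2 := tile_lintegral (fun a b => ENNReal.ofReal (-f a b)) (by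
    show Measurable (fun p : ℝ × ℝ => ENNReal.ofReal (-Function.uncurry f p))
    exact hf.neg.ennreal_ofReal)
  have e3 : ∫⁻ p in Strip, ENNReal.ofReal (Jac p.1 p.2 * f (Real.sinh p.1 * Real.sin p.2) p.1) =
      ∫⁻ p in Strip, ENNReal.ofReal (f (Real.sinh p.1 * Real.sin p.2) p.1) *
        ENNReal.ofReal (Jac p.1 p.2) := by
    refine lintegral_congr (fun p => ?_)
    rw [ENNReal.ofReal_mul (a11a_Jac_nonneg _ _), mul_comm]
  have e4 : ∫⁻ p in Strip, ENNReal.ofReal (-(Jac p.1 p.2 * f (Real.sinh p.1 * Real.sin p.2) p.1)) =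
      ∫⁻ p in Strip, ENNReal.ofReal (-f (Real.sinh p.1 * Real.sin p.2) p.1) *
        ENNReal.ofReal (Jac p.1 p.2) := by
    refine lintegral_congr (fun p => ?_)
    rw [← mul_neg, ENNReal.ofReal_mul (a11a_Jac_nonneg _ _), mul_comm]
  rw [e3, e4, e1, e2, ENNReal.toReal_mul, ENNReal.toReal_mul]
  norm_num
  ring

end Pool.Agent.H87.LE
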