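import Pool.Agent.H87.LE.Base
import Pool.Agent.H87.LE.A11_Defs
import Pool.Agent.H14.LE.SignE

open MeasureTheory Complex Set Filter Topology
open scoped ContDiff Laplacian

namespace Pool.Agent.H87.LE

/-! # A11b: signs of the limit function
`gg'' = log |1-y²|`, so `h² gg (xξ/h) = ∫_0^x (x-t) ξ² log |1 - t²ξ²/h²| dt`, `h = sinh ξ sin η`. -/

/-- for `0 ≤ x ≤ 1`: `∫_0^π log |1 - x²/sin² η| dη = 0`; with `x = sin α` use
`sin² η - sin² α = sin (η-α) sin (η+α)` and periodicity. -/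
theorem log_int_zero {x : ℝ} (h0 : 0 ≤ x) (h1 : x ≤ 1) :
    IntervalIntegrable (fun η => Real.log |1 - x ^ 2 / Real.sin η ^ 2|) volume 0 Real.pi ∧
      ∫ η in (0 : ℝ)..Real.pi, Real.log |1 - x ^ 2 / Real.sin η ^ 2| = 0 :=
  A11b.log_int_zero' h0 h1

/-- integrability of the integrand, for every `x` -/
theorem Tin_integrable (x : ℝ) (hx : 0 ≤ x) : IntegrableOn (Tin x) Strip :=
  A11b.Tin_int x hx

/-- `TT 1 < 0`: for `0<t<1` the inner integral of `Jac * log |..|` is negative because `Jac` is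
increasing in `sin² η` and the logarithm is positive for `sin² η < x²/2`, negative beyond. -/
theorem TT_one_neg : TT 1 < 0 := A11b.TT_one

/-- `TT''(t) ≥ -C` and `TT''(t) → ∞` -/
theorem TT_pos : ∃ x₂ : ℝ, 1 < x₂ ∧ 0 < TT x₂ := A11b.TT_pos'

end Pool.Agent.H87.LE
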