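import Pool.Agent.H87.LE.Base

open MeasureTheory Complex Set Filter Topology
open scoped ContDiff Laplacian

namespace Pool.Agent.H87.LE

/-! # A12: pointwise inequalities for `Mq`, `Rq` and the nonlinearity -/

/-! ## the nonlinearity `|x|^(q-2) x` -/

private theorem a12_n_deriv {q : ℝ} (h : 2 < q) (x : ℝ) :
    HasDerivAt (fun x : ℝ => |x| ^ (q - 2) * x) ((q - 1) * |x| ^ (q - 2)) x := by
  rcases eq_or_ne x 0 with rfl | hx
  · rw [hasDerivAt_iff_tendsto_slope_zero]
    have e : ((q - 1) * |(0 : ℝ)| ^ (q - 2)) = 0 := by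
      rw [abs_zero, Real.zero_rpow (by linarith)]; ring
    rw [e]
    have hc : Tendsto (fun t : ℝ => |t| ^ (q - 2)) (𝓝 0) (𝓝 (|(0 : ℝ)| ^ (q - 2))) :=
      (continuous_abs.rpow_const (fun _ => Or.inr (by linarith))).tendsto 0
    rw [abs_zero, Real.zero_rpow (by linarith)] at hc
    refine (hc.mono_left nhdsWithin_le_nhds).congr' ?_
    filter_upwards [self_mem_nhdsWithin] with t ht
    have ht' : t ≠ 0 := ht
    simp only [zero_add, mul_zero, sub_zero, smul_eq_mul]
    field_simp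
  · have h1 : HasDerivAt (fun x : ℝ => |x|) (SignType.sign x : ℝ) x := hasDerivAt_abs hx
    have h2 := (h1.rpow_const (p := q - 2) (Or.inl (abs_ne_zero.mpr hx))).mul (hasDerivAt_id x)
    refine h2.congr_deriv ?_
    have h3 : (SignType.sign x : ℝ) * x = |x| := by
      rw [mul_comm]; exact self_mul_sign x
    have h4 : |x| ^ (q - 2 - 1) * |x| = |x| ^ (q - 2) := by
      rw [Real.rpow_sub_one (abs_ne_zero.mpr hx)]
      field_simp
    calc (SignType.sign x : ℝ) * (q - 2) * |x| ^ (q - 2 - 1) * id x + |x| ^ (q - 2) * 1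
        = (q - 2) * (|x| ^ (q - 2 - 1) * ((SignType.sign x : ℝ) * x)) + |x| ^ (q - 2) := by
          simp only [id]; ring
      _ = (q - 1) * |x| ^ (q - 2) := by rw [h3, h4]; ring

/-- mean value inequality on an interval -/
private theorem a12_mvt {f f' : ℝ → ℝ} {a b C : ℝ}
    (h1 : ∀ s ∈ uIcc a b, HasDerivAt f (f' s) s) (h2 : ∀ s ∈ uIcc a b, |f' s| ≤ C) :
    |f b - f a| ≤ C * |b - a| := by
  have := Convex.norm_image_sub_le_of_norm_hasDerivWithin_le (f := f) (f' := f') (s := uIcc a b)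
    (x := a) (y := b) (C := C) (fun s hs => (h1 s hs).hasDerivWithinAt)
    (fun s hs => by rw [Real.norm_eq_abs]; exact h2 s hs) (convex_uIcc a b) left_mem_uIcc
    right_mem_uIcc
  simpa [Real.norm_eq_abs] using this

private theorem a12_mem {a b s : ℝ} (h : s ∈ uIcc a b) : |s| ≤ max |a| |b| := by
  rcases le_total a b with hab | hab
  · rw [uIcc_of_le hab] at h
    exact abs_le_max_abs_abs h.1 h.2
  · rw [uIcc_of_ge hab] at h
    rw [max_comm]
    exact abs_le_max_abs_abs h.1 h.2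

/-- `|s|^ε` is `ε`-Hölder -/
private theorem a12_holder {e s c : ℝ} (h0 : 0 < e) (h1 : e ≤ 1) :
    |(|s| ^ e - |c| ^ e)| ≤ |s - c| ^ e := by
  have key : ∀ x y : ℝ, |x| ^ e ≤ |x - y| ^ e + |y| ^ e := by
    intro x y
    calc |x| ^ e ≤ (|x - y| + |y|) ^ e := by
          apply Real.rpow_le_rpow (abs_nonneg _) _ h0.le
          have := abs_add_le (x - y) y
          simpa using this
      _ ≤ |x - y| ^ e + |y| ^ e :=
          Real.rpow_add_le_add_rpow (abs_nonneg _) (abs_nonneg _) h0.le h1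
  rw [abs_le]
  constructor
  · have := key c s
    rw [abs_sub_comm c s] at this
    linarith
  · have := key s c
    linarith

theorem n_lip {q a b : ℝ} (h2 : 2 < q) (h3 : q ≤ 3) :
    |(|a| ^ (q - 2) * a - |b| ^ (q - 2) * b)| ≤ (q - 1) * (|a| + |b|) ^ (q - 2) * |a - b| := by
  have := a12_mvt (f := fun x => |x| ^ (q - 2) * x) (f' := fun x => (q - 1) * |x| ^ (q - 2))
    (a := b) (b := a) (C := (q - 1) * (|a| + |b|) ^ (q - 2))
    (fun s _ => a12_n_deriv h2 s) (fun s hs => by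
      rw [abs_of_nonneg (mul_nonneg (by linarith) (Real.rpow_nonneg (abs_nonneg _) _))]
      apply mul_le_mul_of_nonneg_left _ (by linarith)
      apply Real.rpow_le_rpow (abs_nonneg _) _ (by linarith)
      have h4 := a12_mem hs
      refine h4.trans (max_le ?_ ?_)
      · linarith [abs_nonneg a]
      · linarith [abs_nonneg b])
  exact this

theorem n_diff {q a b c : ℝ} (h2 : 2 < q) (h3 : q ≤ 3) :
    |(|a| ^ (q - 2) * a - |b| ^ (q - 2) * b - (q - 1) * |c| ^ (q - 2) * (a - b))| ≤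
      (q - 1) * |a - b| * (|a - c| ^ (q - 2) + |b - c| ^ (q - 2)) := by
  have := a12_mvt (f := fun x => |x| ^ (q - 2) * x - (q - 1) * |c| ^ (q - 2) * x)
    (f' := fun x => (q - 1) * |x| ^ (q - 2) - (q - 1) * |c| ^ (q - 2))
    (a := b) (b := a) (C := (q - 1) * (|a - c| ^ (q - 2) + |b - c| ^ (q - 2)))
    (fun s _ => by
      have h5 := (hasDerivAt_id s).const_mul ((q - 1) * |c| ^ (q - 2))
      simp only [id, mul_one] at h5
      exact (a12_n_deriv h2 s).sub h5)
    (fun s hs => by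
      have e : (q - 1) * |s| ^ (q - 2) - (q - 1) * |c| ^ (q - 2) =
        (q - 1) * (|s| ^ (q - 2) - |c| ^ (q - 2)) := by ring
      rw [e, abs_mul, abs_of_nonneg (show (0 : ℝ) ≤ q - 1 by linarith)]
      apply mul_le_mul_of_nonneg_left _ (by linarith)
      refine (a12_holder (by linarith) (by linarith)).trans ?_
      have hs' : s - c ∈ uIcc (b - c) (a - c) := by
        rcases le_total b a with hab | hab
        · rw [uIcc_of_le hab] at hs
          rw [uIcc_of_le (by linarith)]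
          exact ⟨by linarith [hs.1], by linarith [hs.2]⟩
        · rw [uIcc_of_ge hab] at hs
          rw [uIcc_of_ge (by linarith)]
          exact ⟨by linarith [hs.1], by linarith [hs.2]⟩
      have h4 := a12_mem hs'
      have h5 : 0 ≤ |a - c| ^ (q - 2) := Real.rpow_nonneg (abs_nonneg _) _
      have h6 : 0 ≤ |b - c| ^ (q - 2) := Real.rpow_nonneg (abs_nonneg _) _
      rcases le_max_iff.mp h4 with h | h
      · have := Real.rpow_le_rpow (abs_nonneg _) h (show 0 ≤ q - 2 by linarith)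
        linarith
      · have := Real.rpow_le_rpow (abs_nonneg _) h (show 0 ≤ q - 2 by linarith)
        linarith)
  have e : |a| ^ (q - 2) * a - |b| ^ (q - 2) * b - (q - 1) * |c| ^ (q - 2) * (a - b) =
    (|a| ^ (q - 2) * a - (q - 1) * |c| ^ (q - 2) * a) -
      (|b| ^ (q - 2) * b - (q - 1) * |c| ^ (q - 2) * b) := by ring
  rw [e]
  calc _ ≤ _ := this
    _ = _ := by ring

/-- `n a = |a|^(q-2) a` -/
theorem pow_taylor : ∃ C : ℝ, 0 < C ∧ ∀ q a b : ℝ, 2 < q → q ≤ 21 / 10 →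
    |(|b| ^ q - |a| ^ q - q * (|a| ^ (q - 2) * a) * (b - a))| ≤
      C * (|a| + |b|) ^ (q - 2) * (b - a) ^ 2 := by
  refine ⟨10, by norm_num, ?_⟩
  intro q a b h2 h3
  have h0 : (0 : ℝ) ≤ |a| + |b| := by positivity
  have hP : 0 ≤ (|a| + |b|) ^ (q - 2) := Real.rpow_nonneg h0 _
  have := a12_mvt (f := fun x => |x| ^ q - q * (|a| ^ (q - 2) * a) * x)
    (f' := fun x => q * |x| ^ (q - 2) * x - q * (|a| ^ (q - 2) * a))
    (a := a) (b := b) (C := 10 * (|a| + |b|) ^ (q - 2) * |b - a|)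
    (fun s _ => by
      have h5 := (hasDerivAt_id s).const_mul (q * (|a| ^ (q - 2) * a))
      simp only [id, mul_one] at h5
      exact (hasDerivAt_abs_rpow s (by linarith)).sub h5)
    (fun s hs => by
      have e : q * |s| ^ (q - 2) * s - q * (|a| ^ (q - 2) * a) =
        q * (|s| ^ (q - 2) * s - |a| ^ (q - 2) * a) := by ring
      rw [e, abs_mul, abs_of_nonneg (show (0 : ℝ) ≤ q by linarith)]
      have h6 := n_lip (q := q) (a := s) (b := a) h2 (by linarith)
      have h7 : |s - a| ≤ |b - a| := by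
        have := abs_sub_left_of_mem_uIcc hs
        rwa [abs_sub_comm, abs_sub_comm b a] at *
      have h8 : |s| + |a| ≤ 2 * (|a| + |b|) := by
        have h4 := a12_mem hs
        have : max |a| |b| ≤ |a| + |b| := max_le (by linarith [abs_nonneg b])
          (by linarith [abs_nonneg a])
        linarith [abs_nonneg b]
      have h9 : (|s| + |a|) ^ (q - 2) ≤ 2 * (|a| + |b|) ^ (q - 2) := by
        calc (|s| + |a|) ^ (q - 2) ≤ (2 * (|a| + |b|)) ^ (q - 2) :=
              Real.rpow_le_rpow (by positivity) h8 (by linarith)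
          _ = 2 ^ (q - 2) * (|a| + |b|) ^ (q - 2) := Real.mul_rpow (by norm_num) h0
          _ ≤ 2 ^ (1 : ℝ) * (|a| + |b|) ^ (q - 2) := by
              apply mul_le_mul_of_nonneg_right _ hP
              exact Real.rpow_le_rpow_of_exponent_le (by norm_num) (by linarith)
          _ = _ := by rw [Real.rpow_one]
      calc q * |(|s| ^ (q - 2) * s - |a| ^ (q - 2) * a)|
          ≤ q * ((q - 1) * (|s| + |a|) ^ (q - 2) * |s - a|) := by
            apply mul_le_mul_of_nonneg_left h6 (by linarith)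
        _ ≤ q * ((q - 1) * (2 * (|a| + |b|) ^ (q - 2)) * |b - a|) := by
            apply mul_le_mul_of_nonneg_left _ (by linarith)
            apply mul_le_mul _ h7 (abs_nonneg _)
            · exact mul_nonneg (by linarith) (by positivity)
            · exact mul_le_mul_of_nonneg_left h9 (by linarith)
        _ = (2 * q * (q - 1)) * ((|a| + |b|) ^ (q - 2) * |b - a|) := by ring
        _ ≤ 10 * ((|a| + |b|) ^ (q - 2) * |b - a|) := by
            apply mul_le_mul_of_nonneg_right _ (mul_nonneg hP (abs_nonneg _))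
            nlinarith
        _ = 10 * (|a| + |b|) ^ (q - 2) * |b - a| := by ring)
  have e : |b| ^ q - |a| ^ q - q * (|a| ^ (q - 2) * a) * (b - a) =
    (|b| ^ q - q * (|a| ^ (q - 2) * a) * b) - (|a| ^ q - q * (|a| ^ (q - 2) * a) * a) := by ring
  rw [e]
  calc _ ≤ _ := this
    _ = 10 * (|a| + |b|) ^ (q - 2) * (|b - a| ^ 2) := by ring
    _ = _ := by rw [sq_abs]

/-- `|t^ε - 1| ≤ |t - 1|` -/
private theorem a12_rpow_sub_one {t e : ℝ} (ht : 0 ≤ t) (h0 : 0 ≤ e) (h1 : e ≤ 1) :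
    |t ^ e - 1| ≤ |t - 1| := by
  rcases ht.eq_or_lt with rfl | ht
  · rcases h0.eq_or_lt with rfl | h0
    · simp
    · rw [Real.zero_rpow h0.ne']
  rcases le_total 1 t with h | h
  · have a1 : 1 ≤ t ^ e := Real.one_le_rpow h h0
    have a2 : t ^ e ≤ t := by
      calc t ^ e ≤ t ^ (1 : ℝ) := Real.rpow_le_rpow_of_exponent_le h h1
        _ = t := Real.rpow_one t
    rw [abs_of_nonneg (by linarith), abs_of_nonneg (by linarith)]
    linarith
  · have a1 : t ^ e ≤ 1 := Real.rpow_le_one ht.le h h0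
    have a2 : t ≤ t ^ e := by
      calc t = t ^ (1 : ℝ) := (Real.rpow_one t).symm
        _ ≤ t ^ e := Real.rpow_le_rpow_of_exponent_ge ht h h1
    rw [abs_of_nonpos (by linarith), abs_of_nonpos (by linarith)]
    linarith

theorem Rq_bound : ∃ C : ℝ, 0 < C ∧ ∀ q α β : ℝ, 2 < q → q ≤ 21 / 10 → α ≠ 0 →
    |Rq q α β| ≤ C * (|α| ^ (-(9 / 25) : ℝ) * |β| ^ (q - 1 + 9 / 25)) := by
  refine ⟨2, by norm_num, ?_⟩
  intro q α β h2 h3 hα
  have ha : 0 < |α| := abs_pos.mpr hα
  rcases eq_or_ne β 0 with rfl | hβ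
  · have e1 : Rq q α 0 = 0 := by unfold Rq; simp
    rw [e1, abs_zero]
    positivity
  have hb : 0 < |β| := abs_pos.mpr hβ
  -- first bound
  have b1 : |Rq q α β| ≤ (q - 1) * |β| ^ (q - 1) := by
    have := n_diff (q := q) (a := α + β) (b := α) (c := α) h2 (by linarith)
    rw [sub_self, abs_zero, Real.zero_rpow (by linarith), add_zero] at this
    have e1 : α + β - α = β := by ring
    rw [e1] at this
    have e2 : (q - 1) * |β| * |β| ^ (q - 2) = (q - 1) * |β| ^ (q - 1) := by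
      have : |β| ^ (q - 1) = |β| * |β| ^ (q - 2) := by
        rw [show q - 1 = 1 + (q - 2) by ring, Real.rpow_add hb, Real.rpow_one]
      rw [this]; ring
    rw [e2] at this
    exact this
  -- second bound
  have b2 : |Rq q α β| ≤ (q - 1) * (|α| ^ (q - 3) * |β| ^ 2) := by
    have := a12_mvt (f := fun x => |x| ^ (q - 2) * x - (q - 1) * |α| ^ (q - 2) * x)
      (f' := fun x => (q - 1) * |x| ^ (q - 2) - (q - 1) * |α| ^ (q - 2))
      (a := α) (b := α + β) (C := (q - 1) * (|α| ^ (q - 3) * |β|))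
      (fun s _ => by
        have h5 := (hasDerivAt_id s).const_mul ((q - 1) * |α| ^ (q - 2))
        simp only [id, mul_one] at h5
        exact (a12_n_deriv h2 s).sub h5)
      (fun s hs => by
        have e : (q - 1) * |s| ^ (q - 2) - (q - 1) * |α| ^ (q - 2) =
          (q - 1) * (|α| ^ (q - 2) * ((|s| / |α|) ^ (q - 2) - 1)) := by
          rw [Real.div_rpow (abs_nonneg _) (abs_nonneg _)]
          field_simp
        rw [e, abs_mul, abs_of_nonneg (show (0 : ℝ) ≤ q - 1 by linarith)]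
        apply mul_le_mul_of_nonneg_left _ (by linarith)
        rw [abs_mul, abs_of_nonneg (show 0 ≤ |α| ^ (q - 2) by positivity)]
        have h6 := a12_rpow_sub_one (t := |s| / |α|) (e := q - 2) (by positivity) (by linarith)
          (by linarith)
        have h7 : |(|s| / |α| - 1)| ≤ |β| / |α| := by
          have e1 : |s| / |α| - 1 = (|s| - |α|) / |α| := by field_simp
          rw [e1, abs_div, abs_abs]
          apply div_le_div_of_nonneg_right _ ha.le
          refine (abs_abs_sub_abs_le_abs_sub s α).trans ?_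
          have := abs_sub_left_of_mem_uIcc hs
          rw [abs_sub_comm]
          rw [abs_sub_comm] at this
          simpa using this
        have e3 : |α| ^ (q - 3) = |α| ^ (q - 2) / |α| := by
          rw [show q - 3 = q - 2 - 1 by ring, Real.rpow_sub_one ha.ne']
        rw [e3]
        calc |α| ^ (q - 2) * |((|s| / |α|) ^ (q - 2) - 1)|
            ≤ |α| ^ (q - 2) * (|β| / |α|) := by
              apply mul_le_mul_of_nonneg_left (h6.trans h7) (by positivity)
          _ = _ := by ring)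
    have e1 : Rq q α β = (|α + β| ^ (q - 2) * (α + β) - (q - 1) * |α| ^ (q - 2) * (α + β)) -
        (|α| ^ (q - 2) * α - (q - 1) * |α| ^ (q - 2) * α) := by unfold Rq; ring
    rw [e1]
    calc _ ≤ _ := this
      _ = (q - 1) * (|α| ^ (q - 3) * |β| ^ 2) := by
        rw [show α + β - α = β by ring]; ring
  have hq1 : q - 1 ≤ 2 := by linarith
  rcases le_total |α| |β| with h | h
  · refine b1.trans ?_
    have e1 : |α| ^ (-(9 / 25) : ℝ) * |β| ^ (q - 1 + 9 / 25) =
        |β| ^ (q - 1) * (|β| / |α|) ^ (9 / 25 : ℝ) := by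
      rw [Real.div_rpow hb.le ha.le, Real.rpow_add hb, Real.rpow_neg ha.le]
      field_simp
    rw [e1]
    have h5 : 1 ≤ (|β| / |α|) ^ (9 / 25 : ℝ) := by
      apply Real.one_le_rpow _ (by norm_num)
      rwa [le_div_iff₀ ha, one_mul]
    have h6 : 0 ≤ |β| ^ (q - 1) := by positivity
    nlinarith [mul_le_mul_of_nonneg_left h5 h6]
  · refine b2.trans ?_
    have e1 : |α| ^ (q - 3) * |β| ^ 2 = (|α| ^ (-(9 / 25) : ℝ) * |β| ^ (q - 1 + 9 / 25)) *
        (|β| / |α|) ^ (3 - q - 9 / 25) := by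
      rw [Real.div_rpow hb.le ha.le]
      have e2 : |β| ^ (q - 1 + 9 / 25) * |β| ^ (3 - q - 9 / 25) = |β| ^ 2 := by
        rw [← Real.rpow_add hb, ← Real.rpow_natCast]
        congr 1
        push_cast
        ring
      have e3 : |α| ^ (q - 3) * |α| ^ (3 - q - 9 / 25) = |α| ^ (-(9 / 25) : ℝ) := by
        rw [← Real.rpow_add ha]
        congr 1
        ring
      rw [← e2, ← e3]
      have h5 : |α| ^ (3 - q - 9 / 25) ≠ 0 := by positivity
      field_simp
    rw [e1]
    have h5 : (|β| / |α|) ^ (3 - q - 9 / 25) ≤ 1 := by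
      apply Real.rpow_le_one (by positivity) _ (by linarith)
      rwa [div_le_one ha]
    have h6 : 0 ≤ (|α| ^ (-(9 / 25) : ℝ) * |β| ^ (q - 1 + 9 / 25)) := by positivity
    have h7 := mul_le_mul_of_nonneg_left h5 h6
    have h8 : 0 ≤ (|α| ^ (-(9 / 25) : ℝ) * |β| ^ (q - 1 + 9 / 25)) *
        (|β| / |α|) ^ (3 - q - 9 / 25) := by positivity
    calc (q - 1) * ((|α| ^ (-(9 / 25) : ℝ) * |β| ^ (q - 1 + 9 / 25)) *
        (|β| / |α|) ^ (3 - q - 9 / 25)) ≤ 2 * ((|α| ^ (-(9 / 25) : ℝ) * |β| ^ (q - 1 + 9 / 25)) *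
        (|β| / |α|) ^ (3 - q - 9 / 25)) := mul_le_mul_of_nonneg_right hq1 h8
      _ ≤ _ := by linarith

/-! ## the normalised remainder -/

/-- normalised remainder -/
private noncomputable def a12_m (q y : ℝ) : ℝ :=
  (|1 + y| ^ q + |1 - y| ^ q) / 2 - 1 - q * (q - 1) / 2 * y ^ 2

/-- its derivative -/
private noncomputable def a12_d (q y : ℝ) : ℝ :=
  q * ((|1 + y| ^ (q - 2) * (1 + y) + |y - 1| ^ (q - 2) * (y - 1)) / 2 - (q - 1) * y)

/-- its second derivative -/
private noncomputable def a12_s (q y : ℝ) : ℝ :=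
  q * (((q - 1) * |1 + y| ^ (q - 2) + (q - 1) * |y - 1| ^ (q - 2)) / 2 - (q - 1))

private theorem a12_eq {q a b : ℝ} (ha : a ≠ 0) : Mq q a b = |a| ^ q * a12_m q (b / a) := by
  have h0 : 0 < |a| := abs_pos.mpr ha
  have e1 : |a + b| ^ q = |a| ^ q * |1 + b / a| ^ q := by
    rw [← Real.mul_rpow (abs_nonneg _) (abs_nonneg _), ← abs_mul]
    congr 2; field_simp
  have e2 : |a - b| ^ q = |a| ^ q * |1 - b / a| ^ q := by
    rw [← Real.mul_rpow (abs_nonneg _) (abs_nonneg _), ← abs_mul]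
    congr 2; field_simp
  have e3 : |a| ^ (q - 2) = |a| ^ q / a ^ 2 := by
    rw [Real.rpow_sub h0, Real.rpow_two, sq_abs]
  unfold Mq a12_m
  rw [e1, e2, e3]
  field_simp

private theorem a12_m_deriv {q : ℝ} (h : 2 < q) (y : ℝ) :
    HasDerivAt (a12_m q) (a12_d q y) y := by
  have a1 : HasDerivAt (fun y : ℝ => |1 + y| ^ q) (q * |1 + y| ^ (q - 2) * (1 + y)) y := by
    have := (hasDerivAt_abs_rpow (1 + y) (p := q) (by linarith)).comp y
      ((hasDerivAt_id y).const_add 1)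
    simpa [Function.comp_def] using this
  have a2 : HasDerivAt (fun y : ℝ => |1 - y| ^ q) (q * |1 - y| ^ (q - 2) * (1 - y) * (-1)) y := by
    have := (hasDerivAt_abs_rpow (1 - y) (p := q) (by linarith)).comp y
      ((hasDerivAt_id y).const_sub 1)
    simpa [Function.comp_def] using this
  have a3 : HasDerivAt (fun y : ℝ => q * (q - 1) / 2 * y ^ 2) (q * (q - 1) / 2 * (2 * y)) y := by
    have := (hasDerivAt_pow 2 y).const_mul (q * (q - 1) / 2)
    simpa using this
  have := (((a1.add a2).div_const 2).sub_const 1).sub a3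
  refine this.congr_deriv ?_
  unfold a12_d
  rw [abs_sub_comm y 1]
  ring

private theorem a12_d_deriv {q : ℝ} (h : 2 < q) (y : ℝ) :
    HasDerivAt (a12_d q) (a12_s q y) y := by
  have a1 : HasDerivAt (fun y : ℝ => |1 + y| ^ (q - 2) * (1 + y))
      ((q - 1) * |1 + y| ^ (q - 2)) y := by
    have := (a12_n_deriv h (1 + y)).comp y ((hasDerivAt_id y).const_add 1)
    simpa [Function.comp_def] using this
  have a2 : HasDerivAt (fun y : ℝ => |y - 1| ^ (q - 2) * (y - 1))
      ((q - 1) * |y - 1| ^ (q - 2)) y := by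
    have := (a12_n_deriv h (y - 1)).comp y ((hasDerivAt_id y).sub_const 1)
    simpa [Function.comp_def] using this
  have a3 : HasDerivAt (fun y : ℝ => (q - 1) * y) (q - 1) y := by
    have := (hasDerivAt_id y).const_mul (q - 1)
    simpa using this
  exact (((a1.add a2).div_const 2).sub a3).const_mul q

private theorem a12_k {e t : ℝ} (h0 : 0 ≤ e) (h1 : e ≤ 1) (ht : |t| ≤ 1 / 2) :
    |(|1 + t| ^ e + |t - 1| ^ e) / 2 - 1| ≤ e * t ^ 2 := by
  have ht' := abs_le.mp ht
  have p1 : 0 < 1 + t := by linarith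
  have p2 : 0 < 1 - t := by linarith
  rw [abs_sub_comm t 1, abs_of_pos p1, abs_of_pos p2]
  have hy2 : t ^ 2 ≤ 1 / 4 := by nlinarith
  have up : ((1 + t) ^ e + (1 - t) ^ e) / 2 ≤ 1 := by
    have hc := Real.concaveOn_rpow h0 h1
    have := hc.2 (show 1 + t ∈ Set.Ici (0:ℝ) from by simp; linarith)
      (show 1 - t ∈ Set.Ici (0:ℝ) from by simp; linarith)
      (show (0:ℝ) ≤ 1/2 from by norm_num) (show (0:ℝ) ≤ 1/2 from by norm_num) (by norm_num)
    simp only [smul_eq_mul] at this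
    have e : (1:ℝ) / 2 * (1 + t) + 1 / 2 * (1 - t) = 1 := by ring
    rw [e, Real.one_rpow] at this
    linarith
  have lo : 1 - e * t ^ 2 ≤ ((1 + t) ^ e + (1 - t) ^ e) / 2 := by
    have l1 : 1 + e * Real.log (1 + t) ≤ (1 + t) ^ e := by
      rw [Real.rpow_def_of_pos p1, mul_comm (Real.log (1 + t))]
      linarith [Real.add_one_le_exp (e * Real.log (1 + t))]
    have l2 : 1 + e * Real.log (1 - t) ≤ (1 - t) ^ e := by
      rw [Real.rpow_def_of_pos p2, mul_comm (Real.log (1 - t))]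
      linarith [Real.add_one_le_exp (e * Real.log (1 - t))]
    have l3 : -(2 * t ^ 2) ≤ Real.log (1 + t) + Real.log (1 - t) := by
      rw [← Real.log_mul p1.ne' p2.ne']
      have p3 : 0 < (1 + t) * (1 - t) := by positivity
      have := Real.one_sub_inv_le_log_of_pos p3
      have h4 : ((1 + t) * (1 - t))⁻¹ ≤ 1 + 2 * t ^ 2 := by
        rw [inv_le_comm₀ p3 (by positivity)]
        rw [inv_le_iff_one_le_mul₀ (by positivity)]
        nlinarith [sq_nonneg t]
      linarith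
    nlinarith
  rw [abs_le]
  constructor
  · linarith
  · nlinarith [mul_nonneg h0 (sq_nonneg t)]

/-- `|x^ε - 1| ≤ ε |log x| max(1, x^ε)` -/
private theorem a12_abs_rpow {x e : ℝ} (hx : 0 < x) (h0 : 0 ≤ e) :
    |x ^ e - 1| ≤ e * |Real.log x| * max 1 (x ^ e) := by
  rw [Real.rpow_def_of_pos hx, mul_comm (Real.log x)]
  set t := e * Real.log x with ht
  have h1 : e * |Real.log x| = |t| := by rw [ht, abs_mul, abs_of_nonneg h0]
  rw [h1]
  rcases le_total 0 t with h | h
  · have h2 : 1 ≤ Real.exp t := Real.one_le_exp h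
    rw [max_eq_right h2, abs_of_nonneg (by linarith), abs_of_nonneg h]
    have := Real.add_one_le_exp (-t)
    have h3 : Real.exp t * Real.exp (-t) = 1 := by rw [← Real.exp_add]; simp
    nlinarith [Real.exp_pos t]
  · have h2 : Real.exp t ≤ 1 := Real.exp_le_one_iff.mpr h
    rw [max_eq_left h2, abs_of_nonpos (by linarith), abs_of_nonpos h]
    have := Real.add_one_le_exp t
    linarith

private theorem a12_x {x e : ℝ} (hx : 0 ≤ x) (h0 : 0 ≤ e) (h1 : e ≤ 1 / 4) :
    x * |x ^ e - 1| ≤ 4 * e * (1 + x ^ (3 / 2 : ℝ)) := by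
  rcases hx.eq_or_lt with rfl | hx
  · have : (0:ℝ) ^ (3 / 2 : ℝ) = 0 := Real.zero_rpow (by norm_num)
    rw [this]; norm_num; exact h0
  have h2 := a12_abs_rpow hx h0
  have h5 : (0:ℝ) ≤ x ^ (3 / 2 : ℝ) := by positivity
  rcases le_total x 1 with h | h
  · have h3 : x ^ e ≤ 1 := Real.rpow_le_one hx.le h h0
    rw [max_eq_left h3, mul_one] at h2
    have h4 : x * |Real.log x| ≤ 1 := by
      have := Real.abs_log_mul_self_lt x hx h
      rw [abs_mul, abs_of_pos hx] at this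
      linarith
    calc x * |x ^ e - 1| ≤ x * (e * |Real.log x|) :=
          mul_le_mul_of_nonneg_left h2 hx.le
      _ = e * (x * |Real.log x|) := by ring
      _ ≤ e * 1 := mul_le_mul_of_nonneg_left h4 h0
      _ ≤ 4 * e * (1 + x ^ (3 / 2 : ℝ)) := by nlinarith [mul_nonneg h0 h5]
  · have h3 : 1 ≤ x ^ e := Real.one_le_rpow h h0
    rw [max_eq_right h3] at h2
    have h4 : |Real.log x| ≤ 4 * x ^ (1 / 4 : ℝ) := by
      rw [abs_of_nonneg (Real.log_nonneg h)]
      have := Real.log_le_rpow_div hx.le (show (0:ℝ) < 1 / 4 from by norm_num)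
      linarith
    have h6 : x ^ e ≤ x ^ (1 / 4 : ℝ) := Real.rpow_le_rpow_of_exponent_le h h1
    have h7 : x * (x ^ (1 / 4 : ℝ) * x ^ (1 / 4 : ℝ)) = x ^ (3 / 2 : ℝ) := by
      rw [← Real.rpow_add hx]
      nth_rewrite 1 [← Real.rpow_one x]
      rw [← Real.rpow_add hx]
      norm_num
    calc x * |x ^ e - 1| ≤ x * (e * |Real.log x| * x ^ e) :=
          mul_le_mul_of_nonneg_left h2 hx.le
      _ ≤ x * (e * (4 * x ^ (1 / 4 : ℝ)) * x ^ (1 / 4 : ℝ)) := by gcongr
      _ = 4 * e * (x * (x ^ (1 / 4 : ℝ) * x ^ (1 / 4 : ℝ))) := by ring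
      _ = 4 * e * x ^ (3 / 2 : ℝ) := by rw [h7]
      _ ≤ 4 * e * (1 + x ^ (3 / 2 : ℝ)) := by nlinarith

private theorem a12_d_zero (q : ℝ) : a12_d q 0 = 0 := by
  unfold a12_d; simp

private theorem a12_m_zero (q : ℝ) : a12_m q 0 = 0 := by
  unfold a12_m; simp

/-- the bound of the derivative -/
private theorem a12_d_bound {q : ℝ} (h2 : 2 < q) (h3 : q ≤ 21 / 10) (y : ℝ) :
    |a12_d q y| ≤ 2000 * (q - 2) * min (|y| ^ 3) (|y| ^ (3 / 2 : ℝ)) := by
  have e0 : 0 ≤ q - 2 := by linarith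
  rcases le_total |y| (1 / 2) with h | h
  · have e1 : |y| ^ 3 ≤ |y| ^ (3 / 2 : ℝ) := by
      rcases (abs_nonneg y).eq_or_lt with h0 | h0
      · rw [← h0]; norm_num
      · rw [← Real.rpow_natCast]
        exact Real.rpow_le_rpow_of_exponent_ge h0 (by linarith) (by norm_num)
    rw [min_eq_left e1]
    have := a12_mvt (f := a12_d q) (f' := a12_s q) (a := 0) (b := y) (C := 4 * (q - 2) * |y| ^ 2)
      (fun s _ => a12_d_deriv h2 s) (fun s hs => by
        have hs1 : |s| ≤ |y| := by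
          have := a12_mem hs
          rwa [abs_zero, max_eq_right (abs_nonneg y)] at this
        have h4 := a12_k (e := q - 2) (t := s) e0 (by linarith) (hs1.trans h)
        have e : a12_s q s = q * (q - 1) * ((|1 + s| ^ (q - 2) + |s - 1| ^ (q - 2)) / 2 - 1) := by
          unfold a12_s; ring
        rw [e, abs_mul, abs_of_nonneg (show (0 : ℝ) ≤ q * (q - 1) by nlinarith)]
        have h5 : s ^ 2 ≤ |y| ^ 2 := by
          rw [← sq_abs s]; gcongr
        have hq : q * (q - 1) ≤ 4 := by nlinarith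
        calc q * (q - 1) * |((|1 + s| ^ (q - 2) + |s - 1| ^ (q - 2)) / 2 - 1)|
            ≤ q * (q - 1) * ((q - 2) * s ^ 2) := by
              apply mul_le_mul_of_nonneg_left h4 (by nlinarith)
          _ ≤ 4 * ((q - 2) * |y| ^ 2) := by
              apply mul_le_mul hq _ (by positivity) (by norm_num)
              gcongr
          _ = _ := by ring)
    rw [a12_d_zero, sub_zero, sub_zero] at this
    refine this.trans ?_
    have h6 : 0 ≤ (q - 2) * |y| ^ 3 := by positivity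
    calc 4 * (q - 2) * |y| ^ 2 * |y| = 4 * ((q - 2) * |y| ^ 3) := by ring
      _ ≤ 2000 * ((q - 2) * |y| ^ 3) := by linarith
      _ = _ := by ring
  · set Y := |y| ^ (3 / 2 : ℝ) with hY
    have hY0 : 0 ≤ Y := by positivity
    have hy0 : 0 < |y| := by linarith
    have c3 : (4 * |y|) ^ (3 / 2 : ℝ) = 8 * Y := by
      rw [Real.mul_rpow (by norm_num) hy0.le]
      congr 1
      rw [show (4:ℝ) = 2 ^ (2:ℝ) by norm_num, ← Real.rpow_mul (by norm_num)]
      norm_num
    have c4 : (1:ℝ) ≤ 8 * Y := by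
      rw [← c3]; exact Real.one_le_rpow (by linarith) (by norm_num)
    have b1 : |1 + y| ≤ 4 * |y| := by
      have := abs_add_le 1 y
      rw [abs_one] at this
      linarith
    have b2 : |y - 1| ≤ 4 * |y| := by
      have := abs_sub y 1
      rw [abs_one] at this
      linarith
    have a1 := a12_x (x := |1 + y|) (abs_nonneg _) e0 (by linarith)
    have a2 := a12_x (x := |y - 1|) (abs_nonneg _) e0 (by linarith)
    have d1 : |1 + y| ^ (3 / 2 : ℝ) ≤ 8 * Y := by
      rw [← c3]; exact Real.rpow_le_rpow (abs_nonneg _) b1 (by norm_num)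
    have d2 : |y - 1| ^ (3 / 2 : ℝ) ≤ 8 * Y := by
      rw [← c3]; exact Real.rpow_le_rpow (abs_nonneg _) b2 (by norm_num)
    have d3 : |y| ≤ 2 * Y := by
      have e1 : Y = |y| * |y| ^ (1 / 2 : ℝ) := by
        rw [hY]
        nth_rewrite 2 [← Real.rpow_one |y|]
        rw [← Real.rpow_add hy0]; norm_num
      rw [e1]
      have h2 : (1:ℝ) / 2 ≤ |y| ^ (1 / 2 : ℝ) := by
        have h3 : ((1:ℝ) / 4) ^ (1 / 2 : ℝ) ≤ |y| ^ (1 / 2 : ℝ) :=
          Real.rpow_le_rpow (by norm_num) (by linarith) (by norm_num)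
        have h4 : ((1:ℝ) / 4) ^ (1 / 2 : ℝ) = 1 / 2 := by
          rw [show (1:ℝ) / 4 = (1/2) ^ (2:ℝ) by norm_num, ← Real.rpow_mul (by norm_num)]
          norm_num
        linarith
      nlinarith
    have ef : a12_d q y = q * (((1 + y) * (|1 + y| ^ (q - 2) - 1) +
        (y - 1) * (|y - 1| ^ (q - 2) - 1)) / 2 - (q - 2) * y) := by
      unfold a12_d; ring
    set u := (1 + y) * (|1 + y| ^ (q - 2) - 1) with hu
    set v := (y - 1) * (|y - 1| ^ (q - 2) - 1) with hv
    have hu1 : |u| ≤ 4 * (q - 2) * (1 + 8 * Y) := by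
      rw [hu, abs_mul]
      exact a1.trans (by gcongr)
    have hv1 : |v| ≤ 4 * (q - 2) * (1 + 8 * Y) := by
      rw [hv, abs_mul]
      exact a2.trans (by gcongr)
    have hw : |(q - 2) * y| ≤ (q - 2) * (2 * Y) := by
      rw [abs_mul, abs_of_nonneg e0]
      gcongr
    have t1 : |(u + v) / 2 - (q - 2) * y| ≤ (|u| + |v|) / 2 + |(q - 2) * y| := by
      refine (abs_sub _ _).trans ?_
      gcongr
      rw [abs_div, abs_two]
      gcongr
      exact abs_add_le u v
    have t2 : (q - 2) * 1 ≤ (q - 2) * (8 * Y) := mul_le_mul_of_nonneg_left c4 e0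
    have t3 : |(u + v) / 2 - (q - 2) * y| ≤ 66 * ((q - 2) * Y) := by
      nlinarith [t1, hu1, hv1, hw, t2, mul_nonneg e0 hY0]
    have t4 : |a12_d q y| ≤ 200 * ((q - 2) * Y) := by
      rw [ef, abs_mul, abs_of_nonneg (by linarith : (0:ℝ) ≤ q)]
      calc q * |(u + v) / 2 - (q - 2) * y| ≤ 3 * (66 * ((q - 2) * Y)) := by
            apply mul_le_mul (by linarith) t3 (abs_nonneg _) (by norm_num)
        _ ≤ _ := by nlinarith [mul_nonneg e0 hY0]
    have t5 : Y ≤ 8 * |y| ^ 3 := by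
      rcases le_total |y| 1 with h' | h'
      · have s1 : Y ≤ 1 := Real.rpow_le_one (abs_nonneg _) h' (by norm_num)
        have s2 : (1 / 2 : ℝ) ^ 3 ≤ |y| ^ 3 := by gcongr
        nlinarith
      · have s1 : Y ≤ |y| ^ 3 := by
          rw [hY, ← Real.rpow_natCast |y| 3]
          exact Real.rpow_le_rpow_of_exponent_le h' (by norm_num)
        have s2 : 0 ≤ |y| ^ 3 := by positivity
        linarith
    have t6 : Y ≤ 8 * min (|y| ^ 3) Y := by
      rcases le_total (|y| ^ 3) Y with h' | h'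
      · rw [min_eq_left h']; exact t5
      · rw [min_eq_right h']; linarith
    calc |a12_d q y| ≤ 200 * ((q - 2) * Y) := t4
      _ ≤ 200 * ((q - 2) * (8 * min (|y| ^ 3) Y)) := by gcongr
      _ = 1600 * ((q - 2) * min (|y| ^ 3) Y) := by ring
      _ ≤ 2000 * ((q - 2) * min (|y| ^ 3) Y) := by
          have : 0 ≤ (q - 2) * min (|y| ^ 3) Y :=
            mul_nonneg e0 (le_min (by positivity) hY0)
          linarith
      _ = _ := by ring

/-- the basic difference bound -/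
private theorem a12_m_diff {q : ℝ} (h2 : 2 < q) (h3 : q ≤ 21 / 10) {y z Y : ℝ}
    (hy : |y| ≤ Y) (hz : |z| ≤ Y) :
    |a12_m q z - a12_m q y| ≤ 2000 * (q - 2) * min (Y ^ 3) (Y ^ (3 / 2 : ℝ)) * |z - y| := by
  apply a12_mvt (f := a12_m q) (f' := a12_d q) (fun s _ => a12_m_deriv h2 s)
  intro s hs
  have hs1 : |s| ≤ Y := (a12_mem hs).trans (max_le hy hz)
  refine (a12_d_bound h2 h3 s).trans ?_
  have e0 : 0 ≤ q - 2 := by linarith
  have h4 : |s| ^ 3 ≤ Y ^ 3 := by gcongr
  have h5 : |s| ^ (3 / 2 : ℝ) ≤ Y ^ (3 / 2 : ℝ) :=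
    Real.rpow_le_rpow (abs_nonneg _) hs1 (by norm_num)
  exact mul_le_mul_of_nonneg_left (min_le_min h4 h5) (by positivity)

private theorem a12_min_mul {Y : ℝ} (hY : 0 ≤ Y) :
    min (Y ^ 3) (Y ^ (3 / 2 : ℝ)) * Y = min (Y ^ 4) (Y ^ (5 / 2 : ℝ)) := by
  rw [min_mul_of_nonneg _ _ hY]
  congr 1
  rcases hY.eq_or_lt with rfl | h
  · rw [Real.zero_rpow (by norm_num), Real.zero_rpow (by norm_num), mul_zero]
  · nth_rewrite 2 [← Real.rpow_one Y]
    rw [← Real.rpow_add h]
    norm_num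

theorem Mq_bound : ∃ C : ℝ, 0 < C ∧ ∀ q α β : ℝ, 2 < q → q ≤ 21 / 10 → α ≠ 0 →
    |Mq q α β| ≤ C * (q - 2) * (|α| ^ q * min (|β / α| ^ 4) (|β / α| ^ (5 / 2 : ℝ))) := by
  refine ⟨2000, by norm_num, ?_⟩
  intro q α β h2 h3 hα
  rw [a12_eq hα, abs_mul, abs_of_nonneg (show 0 ≤ |α| ^ q by positivity)]
  have h4 := a12_m_diff h2 h3 (y := 0) (z := β / α) (Y := |β / α|) (by simp) le_rfl
  rw [a12_m_zero, sub_zero, sub_zero, mul_assoc (2000 * (q - 2)),
    a12_min_mul (abs_nonneg _)] at h4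
  calc |α| ^ q * |a12_m q (β / α)|
      ≤ |α| ^ q * (2000 * (q - 2) * min (|β / α| ^ 4) (|β / α| ^ (5 / 2 : ℝ))) := by gcongr
    _ = _ := by ring

theorem Mq_pert : ∃ C : ℝ, 0 < C ∧ ∀ q α β α' β' δ : ℝ, 2 < q → q ≤ 21 / 10 → α ≠ 0 →
    0 ≤ δ → δ ≤ 1 / 2 → |α' - α| ≤ δ * |α| → |β' - β| ≤ δ * |β| →
    |Mq q α' β' - Mq q α β| ≤
      C * (q - 2) * δ * (|α| ^ q * min (|β / α| ^ 4) (|β / α| ^ (5 / 2 : ℝ))) := by
  refine ⟨4616000, by norm_num, ?_⟩
  intro q α β α' β' δ h2 h3 hα d0 d1 hα1 hβ1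
  have e0 : 0 ≤ q - 2 := by linarith
  have ha : 0 < |α| := abs_pos.mpr hα
  have ha' : |α| / 2 ≤ |α'| := by
    have := abs_sub_abs_le_abs_sub α α'
    rw [abs_sub_comm] at this
    nlinarith
  have ha'0 : 0 < |α'| := by linarith
  have hα' : α' ≠ 0 := abs_pos.mp ha'0
  have ha'2 : |α'| ≤ 2 * |α| := by
    have := abs_sub_abs_le_abs_sub α' α
    nlinarith
  set Y := |β / α| with hY
  have hY0 : 0 ≤ Y := abs_nonneg _
  have hYa : |β| = Y * |α| := by rw [hY, abs_div]; field_simp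
  -- the quotient
  have hq : |β' / α' - β / α| ≤ 4 * δ * Y := by
    have e1 : β' / α' - β / α = (β' - β) / α' + β * (α - α') / (α * α') := by
      field_simp
      ring
    rw [e1]
    refine (abs_add_le _ _).trans ?_
    have s1 : |(β' - β) / α'| ≤ 2 * δ * Y := by
      rw [abs_div, div_le_iff₀ ha'0]
      calc |β' - β| ≤ δ * |β| := hβ1
        _ = 2 * δ * Y * (|α| / 2) := by rw [hYa]; ring
        _ ≤ 2 * δ * Y * |α'| := by gcongr
    have s2 : |β * (α - α') / (α * α')| ≤ 2 * δ * Y := by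
      rw [abs_div, abs_mul, abs_mul, div_le_iff₀ (by positivity), hYa, abs_sub_comm α α']
      calc Y * |α| * |α' - α| ≤ Y * |α| * (δ * |α|) := by gcongr
        _ = 2 * δ * Y * (|α| * (|α| / 2)) := by ring
        _ ≤ 2 * δ * Y * (|α| * |α'|) := by gcongr
    linarith
  have hy3 : |β' / α'| ≤ 3 * Y := by
    have := abs_sub_abs_le_abs_sub (β' / α') (β / α)
    have h5 : 4 * δ * Y ≤ 2 * Y := by nlinarith
    linarith
  -- difference of the normalised remainders
  have hm := a12_m_diff h2 h3 (y := β / α) (z := β' / α') (Y := 3 * Y)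
    (by rw [← hY]; linarith) hy3
  have hmin : min ((3 * Y) ^ 3) ((3 * Y) ^ (3 / 2 : ℝ)) ≤ 27 * min (Y ^ 3) (Y ^ (3 / 2 : ℝ)) := by
    rw [mul_min_of_nonneg _ _ (by norm_num : (0:ℝ) ≤ 27)]
    apply min_le_min
    · rw [mul_pow]; norm_num
    · rw [Real.mul_rpow (by norm_num) hY0]
      have s1 : (3:ℝ) ^ (3 / 2 : ℝ) ≤ 27 := by
        calc (3:ℝ) ^ (3 / 2 : ℝ) ≤ 3 ^ (3:ℝ) :=
              Real.rpow_le_rpow_of_exponent_le (by norm_num) (by norm_num)
          _ = 27 := by norm_num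
      have : 0 ≤ Y ^ (3 / 2 : ℝ) := by positivity
      nlinarith
  set B := min (Y ^ 4) (Y ^ (5 / 2 : ℝ)) with hB
  have hB' : min (Y ^ 3) (Y ^ (3 / 2 : ℝ)) * Y = B := a12_min_mul hY0
  have hB0 : 0 ≤ B := le_min (by positivity) (by positivity)
  have hm0 : 0 ≤ min (Y ^ 3) (Y ^ (3 / 2 : ℝ)) := le_min (by positivity) (by positivity)
  have hm2 : |a12_m q (β' / α') - a12_m q (β / α)| ≤ 216000 * ((q - 2) * δ * B) := by
    refine hm.trans ?_
    calc 2000 * (q - 2) * min ((3 * Y) ^ 3) ((3 * Y) ^ (3 / 2 : ℝ)) * |β' / α' - β / α|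
        ≤ 2000 * (q - 2) * (27 * min (Y ^ 3) (Y ^ (3 / 2 : ℝ))) * (4 * δ * Y) := by
          gcongr
      _ = 216000 * ((q - 2) * δ * (min (Y ^ 3) (Y ^ (3 / 2 : ℝ)) * Y)) := by ring
      _ = _ := by rw [hB']
  have hm1 : |a12_m q (β / α)| ≤ 2000 * ((q - 2) * B) := by
    have h4 := a12_m_diff h2 h3 (y := 0) (z := β / α) (Y := |β / α|) (by simp) le_rfl
    rw [a12_m_zero, sub_zero, sub_zero, mul_assoc (2000 * (q - 2)),
      a12_min_mul (abs_nonneg _)] at h4
    calc _ ≤ _ := h4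
      _ = _ := by rw [← hY, ← hB]; ring
  -- the power
  have hp : |(|α'| ^ q - |α| ^ q)| ≤ 40 * (δ * |α| ^ q) := by
    have h5 := a12_mvt (f := fun x => |x| ^ q) (f' := fun x => q * |x| ^ (q - 2) * x)
      (a := α) (b := α') (C := 40 * (|α| ^ q / |α|))
      (fun s _ => hasDerivAt_abs_rpow s (by linarith))
      (fun s hs => by
        have hs1 : |s| ≤ 2 * |α| := (a12_mem hs).trans (max_le (by linarith) ha'2)
        rw [abs_mul, abs_mul, abs_of_nonneg (show (0:ℝ) ≤ q by linarith),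
          abs_of_nonneg (show 0 ≤ |s| ^ (q - 2) by positivity)]
        have s1 : |s| ^ (q - 2) ≤ (2 * |α|) ^ (q - 2) :=
          Real.rpow_le_rpow (abs_nonneg _) hs1 e0
        have s2 : (2 * |α|) ^ (q - 2) ≤ 2 * |α| ^ (q - 2) := by
          rw [Real.mul_rpow (by norm_num) ha.le]
          apply mul_le_mul_of_nonneg_right _ (by positivity)
          calc (2:ℝ) ^ (q - 2) ≤ 2 ^ (1:ℝ) :=
                Real.rpow_le_rpow_of_exponent_le (by norm_num) (by linarith)
            _ = 2 := by norm_num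
        have s3 : |α| ^ q / |α| = |α| ^ (q - 2) * |α| := by
          rw [Real.rpow_sub ha, Real.rpow_two]
          field_simp
        rw [s3]
        calc q * |s| ^ (q - 2) * |s| ≤ 3 * (2 * |α| ^ (q - 2)) * (2 * |α|) := by
              apply mul_le_mul _ hs1 (abs_nonneg _) (by positivity)
              apply mul_le_mul (by linarith) (s1.trans s2) (by positivity) (by norm_num)
          _ = 12 * (|α| ^ (q - 2) * |α|) := by ring
          _ ≤ 40 * (|α| ^ (q - 2) * |α|) := by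
              have : 0 ≤ |α| ^ (q - 2) * |α| := by positivity
              linarith)
    refine h5.trans ?_
    calc 40 * (|α| ^ q / |α|) * |α' - α| ≤ 40 * (|α| ^ q / |α|) * (δ * |α|) := by gcongr
      _ = _ := by field_simp
  have hpa : |α'| ^ q ≤ 21 * |α| ^ q := by
    have h6 := (abs_le.mp hp).2
    have h7 : 0 ≤ |α| ^ q := by positivity
    nlinarith
  rw [a12_eq hα', a12_eq hα]
  have e1 : |α'| ^ q * a12_m q (β' / α') - |α| ^ q * a12_m q (β / α) =
      |α'| ^ q * (a12_m q (β' / α') - a12_m q (β / α)) +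
        (|α'| ^ q - |α| ^ q) * a12_m q (β / α) := by ring
  rw [e1]
  refine (abs_add_le _ _).trans ?_
  rw [abs_mul, abs_mul, abs_of_nonneg (show 0 ≤ |α'| ^ q by positivity)]
  have hA : 0 ≤ |α| ^ q := by positivity
  calc |α'| ^ q * |a12_m q (β' / α') - a12_m q (β / α)| +
        |(|α'| ^ q - |α| ^ q)| * |a12_m q (β / α)|
      ≤ (21 * |α| ^ q) * (216000 * ((q - 2) * δ * B)) +
        (40 * (δ * |α| ^ q)) * (2000 * ((q - 2) * B)) := by gcongr
    _ = 4616000 * ((q - 2) * δ * (|α| ^ q * B)) := by ring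
    _ = _ := by ring

/-- scaling -/
theorem Mq_scale (q α β t : ℝ) (ht : 0 < t) : Mq q (t * α) (t * β) = t ^ q * Mq q α β := by
  unfold Mq
  have e1 : t * α + t * β = t * (α + β) := by ring
  have e2 : t * α - t * β = t * (α - β) := by ring
  rw [e1, e2, abs_mul, abs_mul, abs_mul, abs_of_pos ht,
    Real.mul_rpow ht.le (abs_nonneg _), Real.mul_rpow ht.le (abs_nonneg _),
    Real.mul_rpow ht.le (abs_nonneg _), Real.mul_rpow ht.le (abs_nonneg _)]
  have e3 : t ^ (q - 2) = t ^ q / t ^ 2 := by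
    rw [Real.rpow_sub ht, Real.rpow_two]
  rw [e3]
  field_simp

private theorem a12_lim_aux (x : ℝ) :
    Tendsto (fun q : ℝ => x ^ 2 * ((|x| ^ (q - 2) - 1) / (q - 2))) (𝓝[>] 2)
      (𝓝 (x ^ 2 * Real.log |x|)) := by
  rcases eq_or_ne x 0 with rfl | hx
  · simp
  apply Tendsto.const_mul
  have hp : 0 < |x| := abs_pos.mpr hx
  have h1 : HasDerivAt (fun q : ℝ => |x| ^ (q - 2)) (Real.log |x|) 2 := by
    have h2 : HasDerivAt (fun q : ℝ => q - 2) 1 2 := (hasDerivAt_id 2).sub_const 2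
    have := h2.const_rpow hp
    simpa using this
  rw [hasDerivAt_iff_tendsto_slope] at h1
  have h2 := h1.mono_left (nhdsWithin_mono (2 : ℝ) (fun y (hy : y ∈ Ioi 2) =>
    (ne_of_gt hy : y ≠ 2)))
  refine h2.congr' ?_
  filter_upwards [self_mem_nhdsWithin] with q hq
  have hq' : q - 2 ≠ 0 := by
    have : 2 < q := hq
    linarith
  rw [slope_def_field]
  simp

theorem Mq_lim (g : ℝ → ℝ) (hg : ∀ y, g y = ((1 + y) ^ 2 * Real.log |1 + y| +
      (1 - y) ^ 2 * Real.log |1 - y|) / 2 - 3 / 2 * y ^ 2) {α : ℝ} (hα : α ≠ 0) (β : ℝ) :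
    Tendsto (fun q => Mq q α β / (q - 2)) (𝓝[>] 2) (𝓝 (α ^ 2 * g (β / α))) := by
  rw [hg]
  set y := β / α with hy
  have hp : 0 < |α| := abs_pos.mpr hα
  have l1 := a12_lim_aux (1 + y)
  have l2 := a12_lim_aux (1 - y)
  have l3 : Tendsto (fun q : ℝ => (q + 1) / 2 * y ^ 2) (𝓝[>] 2) (𝓝 (3 / 2 * y ^ 2)) := by
    have : Tendsto (fun q : ℝ => (q + 1) / 2 * y ^ 2) (𝓝 2) (𝓝 ((2 + 1) / 2 * y ^ 2)) :=
      (by fun_prop : Continuous (fun q : ℝ => (q + 1) / 2 * y ^ 2)).tendsto 2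
    have h := this.mono_left (nhdsWithin_le_nhds (s := Ioi (2:ℝ)))
    have e : ((2:ℝ) + 1) / 2 * y ^ 2 = 3 / 2 * y ^ 2 := by ring
    rwa [e] at h
  have l4 : Tendsto (fun q : ℝ => |α| ^ q) (𝓝[>] 2) (𝓝 (α ^ 2)) := by
    have : Tendsto (fun q : ℝ => |α| ^ q) (𝓝 2) (𝓝 (|α| ^ (2:ℝ))) :=
      (Real.continuous_const_rpow hp.ne').tendsto 2
    rw [Real.rpow_two, sq_abs] at this
    exact this.mono_left nhdsWithin_le_nhds
  have l5 := l4.mul (((l1.add l2).div_const 2).sub l3)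
  refine l5.congr' ?_
  filter_upwards [self_mem_nhdsWithin] with q hq
  have hq2 : 2 < q := hq
  have hq' : q - 2 ≠ 0 := by linarith
  rw [a12_eq hα, ← hy]
  have e : ∀ x : ℝ, |x| ^ q = x ^ 2 * |x| ^ (q - 2) := by
    intro x
    rcases eq_or_ne x 0 with rfl | hx
    · simp [Real.zero_rpow (show q ≠ 0 by linarith)]
    · rw [Real.rpow_sub (abs_pos.mpr hx), Real.rpow_two, sq_abs]
      field_simp
  unfold a12_m
  rw [e (1 + y), e (1 - y)]
  field_simp
  ring

end Pool.Agent.H87.LE
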