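import Pool.Agent.H87.LE.Base
import Pool.Agent.H87.LE.A11_Defs
import Pool.Agent.H87.LE.A11a_Tile
import Pool.Agent.H87.LE.A11b_Sign
import Pool.Agent.H87.LE.A12_Ineq
import Pool.Agent.H86.LE.Sing

open MeasureTheory Complex Set Filter Topology
open scoped ContDiff Laplacian

namespace Pool.Agent.H87.LE

/-! # A11c: the limit `q → 2` (uses A11a, A11b, A12) -/

/-- radial part of the dominating function -/
noncomputable def domR (ξ : ℝ) : ℝ :=
  ξ ^ (14 / 5 : ℝ) * Real.cosh ξ ^ 2 *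
    (Real.sinh ξ ^ (-(23 / 10) : ℝ) + Real.sinh ξ ^ (-(11 / 5) : ℝ))

/-- angular part of the dominating function -/
noncomputable def domA (η : ℝ) : ℝ := Real.sin η ^ (-(4 / 5) : ℝ)

open Pool.Agent.H86.LE in
theorem domA_int : IntegrableOn domA (Ioo 0 Real.pi) := by
  have hG := sG_int (r := 4 / 5) (by norm_num) (by norm_num)
  have hF : Integrable (fun t => sG (4 / 5) (2 / Real.pi * t)) :=
    hG.comp_mul_left' (by positivity)
  refine (hF.integrableOn (s := Ioo 0 Real.pi)).congr_fun ?_ measurableSet_Ioo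
  intro t ht
  have h1 : 2 / Real.pi * t < 2 := by
    rw [div_mul_eq_mul_div, div_lt_iff₀ Real.pi_pos]; linarith [ht.2]
  have h0 : 0 < 2 / Real.pi * t := mul_pos (by positivity) ht.1
  have hs : 0 < Real.sin t := Real.sin_pos_of_pos_of_lt_pi ht.1 ht.2
  simp only [sG]
  rw [indicator_of_mem (show 2 / Real.pi * t ∈ Ioo (-2 : ℝ) 2 from ⟨by linarith, h1⟩)]
  have e : Real.pi / 2 * (2 / Real.pi * t) = t := by field_simp
  rw [e, abs_of_pos hs]
  rfl

theorem domR_meas : Measurable domR := by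
  unfold domR
  have h1 : Measurable fun ξ : ℝ => Real.sinh ξ := Real.measurable_sinh
  have h2 : Measurable fun ξ : ℝ => Real.cosh ξ := Real.measurable_cosh
  exact ((measurable_id.pow_const _).mul (h2.pow_const _)).mul ((h1.pow_const _).add (h1.pow_const _))

theorem domR_nonneg {ξ : ℝ} (h : 0 < ξ) : 0 ≤ domR ξ := by
  have hs : 0 < Real.sinh ξ := Real.sinh_pos_iff.mpr h
  unfold domR
  exact mul_nonneg (mul_nonneg (Real.rpow_nonneg h.le _) (sq_nonneg _))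
    (add_nonneg (Real.rpow_nonneg hs.le _) (Real.rpow_nonneg hs.le _))

theorem domR_int : IntegrableOn domR (Ioi 0) := by
  have h01 : IntegrableOn domR (Ioc 0 1) := by
    refine Measure.integrableOn_of_bounded (M := Real.cosh 1 ^ 2 * 2) (by simp)
      domR_meas.aestronglyMeasurable ?_
    refine (ae_restrict_iff' measurableSet_Ioc).mpr (Eventually.of_forall fun ξ hξ => ?_)
    have h1 : 0 < ξ := hξ.1
    rw [Real.norm_of_nonneg (domR_nonneg h1)]
    have hs : ξ ≤ Real.sinh ξ := Real.self_le_sinh_iff.mpr h1.le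
    have hc : Real.cosh ξ ≤ Real.cosh 1 :=
      Real.cosh_le_cosh.mpr (by rw [abs_of_pos h1, abs_one]; exact hξ.2)
    have a1 : ξ ^ (14 / 5 : ℝ) * Real.sinh ξ ^ (-(23 / 10) : ℝ) ≤ 1 := by
      calc _ ≤ ξ ^ (14 / 5 : ℝ) * ξ ^ (-(23 / 10) : ℝ) :=
            mul_le_mul_of_nonneg_left (Real.rpow_le_rpow_of_nonpos h1 hs (by norm_num))
              (Real.rpow_nonneg h1.le _)
        _ = ξ ^ (1 / 2 : ℝ) := by rw [← Real.rpow_add h1]; norm_num
        _ ≤ 1 := Real.rpow_le_one h1.le hξ.2 (by norm_num)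
    have a2 : ξ ^ (14 / 5 : ℝ) * Real.sinh ξ ^ (-(11 / 5) : ℝ) ≤ 1 := by
      calc _ ≤ ξ ^ (14 / 5 : ℝ) * ξ ^ (-(11 / 5) : ℝ) :=
            mul_le_mul_of_nonneg_left (Real.rpow_le_rpow_of_nonpos h1 hs (by norm_num))
              (Real.rpow_nonneg h1.le _)
        _ = ξ ^ (3 / 5 : ℝ) := by rw [← Real.rpow_add h1]; norm_num
        _ ≤ 1 := Real.rpow_le_one h1.le hξ.2 (by norm_num)
    have a3 : Real.cosh ξ ^ 2 ≤ Real.cosh 1 ^ 2 :=
      pow_le_pow_left₀ (by linarith [Real.one_le_cosh ξ]) hc 2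
    unfold domR
    calc _ = Real.cosh ξ ^ 2 * (ξ ^ (14 / 5 : ℝ) * Real.sinh ξ ^ (-(23 / 10) : ℝ) +
          ξ ^ (14 / 5 : ℝ) * Real.sinh ξ ^ (-(11 / 5) : ℝ)) := by ring
      _ ≤ Real.cosh ξ ^ 2 * 2 := mul_le_mul_of_nonneg_left (by linarith) (sq_nonneg _)
      _ ≤ _ := mul_le_mul_of_nonneg_right a3 (by norm_num)
  have h1 : IntegrableOn domR (Ioi 1) := by
    have hi := (integrableOn_rpow_mul_exp_neg_mul_rpow (p := 1) (s := 14 / 5) (b := 1 / 5)
      (by norm_num) (by norm_num) (by norm_num)).mono_set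
        (Ioi_subset_Ioi (zero_le_one : (0:ℝ) ≤ 1))
    refine Integrable.mono' (hi.const_mul 24) domR_meas.aestronglyMeasurable ?_
    refine (ae_restrict_iff' measurableSet_Ioi).mpr (Eventually.of_forall fun ξ hξ => ?_)
    have hξ1 : 1 < ξ := hξ
    have h0 : 0 < ξ := by linarith
    rw [Real.norm_of_nonneg (domR_nonneg h0), Real.rpow_one]
    have hexp : 3 * Real.exp (-ξ) ≤ Real.exp ξ := by
      have h2 := Real.add_one_le_exp (2 * ξ)
      have h3 : Real.exp ξ = Real.exp (2 * ξ) * Real.exp (-ξ) := by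
        rw [← Real.exp_add]; ring_nf
      rw [h3]
      exact mul_le_mul_of_nonneg_right (by linarith) (Real.exp_pos _).le
    have hs : Real.exp ξ / 3 ≤ Real.sinh ξ := by
      rw [Real.sinh_eq]; linarith
    have hc : Real.cosh ξ ≤ 2 * Real.sinh ξ := by
      rw [Real.sinh_eq, Real.cosh_eq]; linarith
    have hs0 : 0 < Real.sinh ξ := Real.sinh_pos_iff.mpr h0
    have hE : 0 < Real.exp ξ / 3 := by positivity
    have hc2 : Real.cosh ξ ^ 2 ≤ 4 * Real.sinh ξ ^ 2 := by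
      nlinarith [Real.one_le_cosh ξ]
    have k : ∀ m : ℝ, Real.sinh ξ ^ 2 * Real.sinh ξ ^ (m - 2) = Real.sinh ξ ^ m := by
      intro m
      rw [← Real.rpow_natCast, ← Real.rpow_add hs0]; norm_num
    have b1 : Real.sinh ξ ^ (-(3 / 10) : ℝ) ≤ 3 * Real.exp (-(1 / 5) * ξ) := by
      calc _ ≤ (Real.exp ξ / 3) ^ (-(3 / 10) : ℝ) :=
            Real.rpow_le_rpow_of_nonpos hE hs (by norm_num)
        _ = 3 ^ (3 / 10 : ℝ) * Real.exp (-(3 / 10) * ξ) := by
            rw [Real.div_rpow (Real.exp_pos _).le (by norm_num), ← Real.exp_mul,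
              Real.rpow_neg (by norm_num : (0:ℝ) ≤ 3), div_inv_eq_mul, mul_comm, mul_comm ξ]
        _ ≤ 3 * Real.exp (-(1 / 5) * ξ) := by
            refine mul_le_mul ?_ (Real.exp_le_exp.mpr (by nlinarith)) (Real.exp_pos _).le (by norm_num)
            calc (3:ℝ) ^ (3 / 10 : ℝ) ≤ 3 ^ (1 : ℝ) :=
                  Real.rpow_le_rpow_of_exponent_le (by norm_num) (by norm_num)
              _ = 3 := Real.rpow_one _
    have b2 : Real.sinh ξ ^ (-(1 / 5) : ℝ) ≤ 3 * Real.exp (-(1 / 5) * ξ) := by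
      calc _ ≤ (Real.exp ξ / 3) ^ (-(1 / 5) : ℝ) :=
            Real.rpow_le_rpow_of_nonpos hE hs (by norm_num)
        _ = 3 ^ (1 / 5 : ℝ) * Real.exp (-(1 / 5) * ξ) := by
            rw [Real.div_rpow (Real.exp_pos _).le (by norm_num), ← Real.exp_mul,
              Real.rpow_neg (by norm_num : (0:ℝ) ≤ 3), div_inv_eq_mul, mul_comm, mul_comm ξ]
        _ ≤ 3 * Real.exp (-(1 / 5) * ξ) := by
            refine mul_le_mul_of_nonneg_right ?_ (Real.exp_pos _).le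
            calc (3:ℝ) ^ (1 / 5 : ℝ) ≤ 3 ^ (1 : ℝ) :=
                  Real.rpow_le_rpow_of_exponent_le (by norm_num) (by norm_num)
              _ = 3 := Real.rpow_one _
    have k1 := k (-(3 / 10))
    have k2 := k (-(1 / 5))
    rw [show (-(3 / 10) - 2 : ℝ) = -(23 / 10) by norm_num] at k1
    rw [show (-(1 / 5) - 2 : ℝ) = -(11 / 5) by norm_num] at k2
    have p0 : 0 ≤ ξ ^ (14 / 5 : ℝ) := Real.rpow_nonneg h0.le _
    unfold domR
    calc _ ≤ ξ ^ (14 / 5 : ℝ) * (4 * Real.sinh ξ ^ 2) *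
          (Real.sinh ξ ^ (-(23 / 10) : ℝ) + Real.sinh ξ ^ (-(11 / 5) : ℝ)) := by
            refine mul_le_mul_of_nonneg_right (mul_le_mul_of_nonneg_left hc2 p0) ?_
            exact add_nonneg (Real.rpow_nonneg hs0.le _) (Real.rpow_nonneg hs0.le _)
      _ = 4 * ξ ^ (14 / 5 : ℝ) * (Real.sinh ξ ^ (-(3 / 10) : ℝ) + Real.sinh ξ ^ (-(1 / 5) : ℝ)) := by
            rw [← k1, ← k2]; ring
      _ ≤ 4 * ξ ^ (14 / 5 : ℝ) * (3 * Real.exp (-(1 / 5) * ξ) + 3 * Real.exp (-(1 / 5) * ξ)) :=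
            mul_le_mul_of_nonneg_left (add_le_add b1 b2) (by positivity)
      _ = _ := by ring
  have := h01.union h1
  rwa [Ioc_union_Ioi_eq_Ioi zero_le_one] at this

theorem dom_int (K : ℝ) : IntegrableOn (fun p : ℝ × ℝ => K * (domR p.1 * domA p.2)) Strip := by
  have h : Strip = Ioi (0 : ℝ) ×ˢ Ioo 0 Real.pi := by
    ext p; simp [Strip]
  rw [h, IntegrableOn, Measure.volume_eq_prod, ← Measure.prod_restrict]
  exact (domR_int.mul_prod domA_int).const_mul K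

/-- the profile of the majorant -/
noncomputable def majF (q x h ξ : ℝ) : ℝ :=
  h ^ q * min ((x * ξ / h) ^ 4) ((x * ξ / h) ^ (5 / 2 : ℝ))

theorem majF_meas (q x : ℝ) : Measurable (Function.uncurry (majF q x)) := by
  unfold majF Function.uncurry
  have h1 : Measurable fun p : ℝ × ℝ => x * p.2 / p.1 := by fun_prop
  exact (measurable_fst.pow_const q).mul ((h1.pow_const 4).min (h1.pow_const _))

/-- pointwise domination on the strip -/
theorem majF_le {q x : ℝ} (hq : 2 ≤ q) (hq' : q ≤ 21 / 10) (hx : 0 < x) {p : ℝ × ℝ} (hp : p ∈ Strip) :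
    0 ≤ Jac p.1 p.2 ∧ 0 ≤ majF q x (Real.sinh p.1 * Real.sin p.2) p.1 ∧
    Jac p.1 p.2 * majF q x (Real.sinh p.1 * Real.sin p.2) p.1 ≤
      x ^ (14 / 5 : ℝ) * (domR p.1 * domA p.2) := by
  obtain ⟨h1, h2, h3⟩ := hp
  set ξ := p.1
  set η := p.2
  have hs : 0 < Real.sinh ξ := Real.sinh_pos_iff.mpr h1
  have ht : 0 < Real.sin η := Real.sin_pos_of_pos_of_lt_pi h2 h3
  have ht1 : Real.sin η ≤ 1 := Real.sin_le_one _
  have hc : 1 ≤ Real.cosh ξ := Real.one_le_cosh _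
  have hh : 0 < Real.sinh ξ * Real.sin η := mul_pos hs ht
  have hy : 0 < x * ξ / (Real.sinh ξ * Real.sin η) := div_pos (mul_pos hx h1) hh
  -- the Jacobian
  have hden : Real.sinh ξ ^ (3 / 2 : ℝ) ≤ (Real.sinh ξ ^ 2 + Real.cos η ^ 2) ^ (3 / 4 : ℝ) := by
    have : Real.sinh ξ ^ (3 / 2 : ℝ) = (Real.sinh ξ ^ 2) ^ (3 / 4 : ℝ) := by
      rw [← Real.rpow_natCast, ← Real.rpow_mul hs.le]; norm_num
    rw [this]
    exact Real.rpow_le_rpow (sq_nonneg _) (by nlinarith [sq_nonneg (Real.cos η)]) (by norm_num)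
  have hsp : 0 < Real.sinh ξ ^ (3 / 2 : ℝ) := Real.rpow_pos_of_pos hs _
  have hJ0 : 0 ≤ Jac ξ η := by
    unfold Jac
    exact div_nonneg (by positivity) (mul_nonneg (by norm_num) (Real.rpow_nonneg (by positivity) _))
  have hJ : Jac ξ η ≤ Real.cosh ξ ^ 2 * Real.sinh ξ ^ (-(3 / 2) : ℝ) := by
    unfold Jac
    rw [div_le_iff₀ (mul_pos (by norm_num) (lt_of_lt_of_le hsp hden))]
    have e1 : Real.sinh ξ ^ 2 + Real.sin η ^ 2 ≤ Real.cosh ξ ^ 2 := by
      have := Real.cosh_sq ξ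
      nlinarith
    have e2 : Real.sinh ξ ^ (-(3 / 2) : ℝ) * Real.sinh ξ ^ (3 / 2 : ℝ) = 1 := by
      rw [← Real.rpow_add hs]; norm_num
    have e3 : 1 ≤ Real.sinh ξ ^ (-(3 / 2) : ℝ) *
        (16 * (Real.sinh ξ ^ 2 + Real.cos η ^ 2) ^ (3 / 4 : ℝ)) := by
      have h5 : 0 ≤ Real.sinh ξ ^ (-(3 / 2) : ℝ) := Real.rpow_nonneg hs.le _
      nlinarith [mul_le_mul_of_nonneg_left hden h5]
    calc _ ≤ Real.cosh ξ ^ 2 * 1 := by rw [mul_one]; exact e1
      _ ≤ Real.cosh ξ ^ 2 * (Real.sinh ξ ^ (-(3 / 2) : ℝ) *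
        (16 * (Real.sinh ξ ^ 2 + Real.cos η ^ 2) ^ (3 / 4 : ℝ))) :=
          mul_le_mul_of_nonneg_left e3 (sq_nonneg _)
      _ = _ := by ring
  -- the profile
  have hm : min ((x * ξ / (Real.sinh ξ * Real.sin η)) ^ 4)
      ((x * ξ / (Real.sinh ξ * Real.sin η)) ^ (5 / 2 : ℝ)) ≤
      (x * ξ / (Real.sinh ξ * Real.sin η)) ^ (14 / 5 : ℝ) := by
    rcases le_total (x * ξ / (Real.sinh ξ * Real.sin η)) 1 with h | h
    · refine (min_le_left _ _).trans ?_
      rw [← Real.rpow_natCast]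
      exact Real.rpow_le_rpow_of_exponent_ge hy h (by norm_num)
    · refine (min_le_right _ _).trans ?_
      exact Real.rpow_le_rpow_of_exponent_le h (by norm_num)
  have hm0 : 0 ≤ min ((x * ξ / (Real.sinh ξ * Real.sin η)) ^ 4)
      ((x * ξ / (Real.sinh ξ * Real.sin η)) ^ (5 / 2 : ℝ)) :=
    le_min (by positivity) (Real.rpow_nonneg hy.le _)
  have hF0 : 0 ≤ majF q x (Real.sinh ξ * Real.sin η) ξ := by
    unfold majF
    exact mul_nonneg (Real.rpow_nonneg hh.le _) hm0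
  refine ⟨hJ0, hF0, ?_⟩
  have hF : majF q x (Real.sinh ξ * Real.sin η) ξ ≤
      x ^ (14 / 5 : ℝ) * ξ ^ (14 / 5 : ℝ) *
        (Real.sinh ξ ^ (-(4 / 5) : ℝ) + Real.sinh ξ ^ (-(7 / 10) : ℝ)) * Real.sin η ^ (-(4 / 5) : ℝ) := by
    unfold majF
    refine (mul_le_mul_of_nonneg_left hm (Real.rpow_nonneg hh.le _)).trans ?_
    have e1 : (Real.sinh ξ * Real.sin η) ^ q *
        (x * ξ / (Real.sinh ξ * Real.sin η)) ^ (14 / 5 : ℝ) =
        x ^ (14 / 5 : ℝ) * ξ ^ (14 / 5 : ℝ) *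
          (Real.sinh ξ ^ (q - 14 / 5) * Real.sin η ^ (q - 14 / 5)) := by
      rw [Real.div_rpow (by positivity) hh.le, Real.mul_rpow hx.le h1.le,
        ← Real.mul_rpow hs.le ht.le, Real.rpow_sub hh]
      ring
    rw [e1]
    have e2 : Real.sin η ^ (q - 14 / 5) ≤ Real.sin η ^ (-(4 / 5) : ℝ) :=
      Real.rpow_le_rpow_of_exponent_ge ht ht1 (by linarith)
    have e3 : Real.sinh ξ ^ (q - 14 / 5) ≤ Real.sinh ξ ^ (-(4 / 5) : ℝ) + Real.sinh ξ ^ (-(7 / 10) : ℝ) := by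
      have g1 : 0 ≤ Real.sinh ξ ^ (-(4 / 5) : ℝ) := Real.rpow_nonneg hs.le _
      have g2 : 0 ≤ Real.sinh ξ ^ (-(7 / 10) : ℝ) := Real.rpow_nonneg hs.le _
      rcases le_total (Real.sinh ξ) 1 with h | h
      · have : Real.sinh ξ ^ (q - 14 / 5) ≤ Real.sinh ξ ^ (-(4 / 5) : ℝ) :=
          Real.rpow_le_rpow_of_exponent_ge hs h (by linarith)
        linarith
      · have : Real.sinh ξ ^ (q - 14 / 5) ≤ Real.sinh ξ ^ (-(7 / 10) : ℝ) :=
          Real.rpow_le_rpow_of_exponent_le h (by linarith)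
        linarith
    have g3 : 0 ≤ Real.sin η ^ (q - 14 / 5) := Real.rpow_nonneg ht.le _
    have g4 : 0 ≤ Real.sinh ξ ^ (-(4 / 5) : ℝ) + Real.sinh ξ ^ (-(7 / 10) : ℝ) :=
      add_nonneg (Real.rpow_nonneg hs.le _) (Real.rpow_nonneg hs.le _)
    have g5 : 0 ≤ x ^ (14 / 5 : ℝ) * ξ ^ (14 / 5 : ℝ) :=
      mul_nonneg (Real.rpow_nonneg hx.le _) (Real.rpow_nonneg h1.le _)
    calc _ ≤ x ^ (14 / 5 : ℝ) * ξ ^ (14 / 5 : ℝ) *
        ((Real.sinh ξ ^ (-(4 / 5) : ℝ) + Real.sinh ξ ^ (-(7 / 10) : ℝ)) * Real.sin η ^ (-(4 / 5) : ℝ)) :=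
          mul_le_mul_of_nonneg_left (mul_le_mul e3 e2 g3 g4) g5
      _ = _ := by ring
  have hC0 : 0 ≤ Real.cosh ξ ^ 2 * Real.sinh ξ ^ (-(3 / 2) : ℝ) :=
    mul_nonneg (sq_nonneg _) (Real.rpow_nonneg hs.le _)
  refine (mul_le_mul hJ hF hF0 hC0).trans (le_of_eq ?_)
  unfold domR domA
  have k1 : Real.sinh ξ ^ (-(3 / 2) : ℝ) * Real.sinh ξ ^ (-(4 / 5) : ℝ) =
      Real.sinh ξ ^ (-(23 / 10) : ℝ) := by
    rw [← Real.rpow_add hs]; norm_num
  have k2 : Real.sinh ξ ^ (-(3 / 2) : ℝ) * Real.sinh ξ ^ (-(7 / 10) : ℝ) =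
      Real.sinh ξ ^ (-(11 / 5) : ℝ) := by
    rw [← Real.rpow_add hs]; norm_num
  rw [← k1, ← k2]
  ring

theorem measurableSet_Strip : MeasurableSet Strip := by
  have h : Strip = Ioi (0 : ℝ) ×ˢ Ioo 0 Real.pi := by
    ext p; simp [Strip]
  rw [h]
  exact measurableSet_Ioi.prod measurableSet_Ioo

theorem Jac_meas : Measurable fun p : ℝ × ℝ => Jac p.1 p.2 := by
  unfold Jac
  have h1 : Measurable fun p : ℝ × ℝ => Real.sinh p.1 := Real.measurable_sinh.comp measurable_fst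
  have h2 : Measurable fun p : ℝ × ℝ => Real.sin p.2 := Real.measurable_sin.comp measurable_snd
  have h3 : Measurable fun p : ℝ × ℝ => Real.cos p.2 := Real.measurable_cos.comp measurable_snd
  exact ((h1.pow_const 2).add (h2.pow_const 2)).div
    ((((h1.pow_const 2).add (h3.pow_const 2)).pow_const (3 / 4 : ℝ)).const_mul 16)

theorem sub_meas {F : ℝ → ℝ → ℝ} (hF : Measurable (Function.uncurry F)) :
    Measurable fun p : ℝ × ℝ => F (Real.sinh p.1 * Real.sin p.2) p.1 := by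
  have h1 : Measurable fun p : ℝ × ℝ => Real.sinh p.1 := Real.measurable_sinh.comp measurable_fst
  have h2 : Measurable fun p : ℝ × ℝ => Real.sin p.2 := Real.measurable_sin.comp measurable_snd
  exact hF.comp ((h1.mul h2).prodMk measurable_fst)

/-- the majorant is integrable, uniformly in `q` -/
theorem maj_int (x : ℝ) (hx : 0 < x) : ∃ C : ℝ, ∀ q : ℝ, 2 ≤ q → q ≤ 21 / 10 →
    Integrable (maj q x) ∧ ∫ z, maj q x z ≤ C := by
  refine ⟨8 * ∫ p in Strip, x ^ (14 / 5 : ℝ) * (domR p.1 * domA p.2), fun q hq hq' => ?_⟩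
  have hI : IntegrableOn (fun p : ℝ × ℝ => Jac p.1 p.2 *
      majF q x (Real.sinh p.1 * Real.sin p.2) p.1) Strip := by
    refine Integrable.mono' (dom_int (x ^ (14 / 5 : ℝ)))
      (Jac_meas.mul (sub_meas (majF_meas q x))).aestronglyMeasurable ?_
    refine (ae_restrict_iff' measurableSet_Strip).mpr (Eventually.of_forall fun p hp => ?_)
    obtain ⟨h1, h2, h3⟩ := majF_le hq hq' hx hp
    rw [Real.norm_of_nonneg (mul_nonneg h1 h2)]
    exact h3
  have e : maj q x = fun z : ℂ => majF q x (hh z) (xi z) := by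
    funext z; rfl
  have hint : Integrable (fun z : ℂ => majF q x (hh z) (xi z)) :=
    (tile_integrable (majF q x) (majF_meas q x)).mpr hI
  rw [e]
  refine ⟨hint, ?_⟩
  rw [tile_integral (majF q x) (majF_meas q x) hint]
  refine mul_le_mul_of_nonneg_left ?_ (by norm_num)
  exact setIntegral_mono_on hI (dom_int _) measurableSet_Strip fun p hp => (majF_le hq hq' hx hp).2.2

theorem Mq_meas (q x : ℝ) : Measurable (Function.uncurry fun h ξ : ℝ => Mq q h (x * ξ)) := by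
  unfold Mq Function.uncurry
  have h1 : Measurable fun p : ℝ × ℝ => x * p.2 := by fun_prop
  have h2 : Measurable fun p : ℝ × ℝ => p.1 := measurable_fst
  exact ((((((h2.add h1).norm).pow_const q).add (((h2.sub h1).norm).pow_const q)).div_const 2).sub
    (h2.norm.pow_const q)).sub (((h2.norm.pow_const (q - 2)).const_mul (q * (q - 1) / 2)).mul
      (h1.pow_const 2))

theorem Mq_dom {C : ℝ} (hC0 : 0 < C) (hC : ∀ q α β : ℝ, 2 < q → q ≤ 21 / 10 → α ≠ 0 →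
    |Mq q α β| ≤ C * (q - 2) * (|α| ^ q * min (|β / α| ^ 4) (|β / α| ^ (5 / 2 : ℝ))))
    {q x : ℝ} (hq : 2 < q) (hq' : q ≤ 21 / 10) (hx : 0 < x) {p : ℝ × ℝ} (hp : p ∈ Strip) :
    |Jac p.1 p.2 * Mq q (Real.sinh p.1 * Real.sin p.2) (x * p.1)| ≤
      (q - 2) * (C * x ^ (14 / 5 : ℝ) * (domR p.1 * domA p.2)) := by
  obtain ⟨h1, h2, h3⟩ := majF_le hq.le hq' hx hp
  have hs : 0 < Real.sinh p.1 := Real.sinh_pos_iff.mpr hp.1
  have ht : 0 < Real.sin p.2 := Real.sin_pos_of_pos_of_lt_pi hp.2.1 hp.2.2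
  have hh : 0 < Real.sinh p.1 * Real.sin p.2 := mul_pos hs ht
  have hy : 0 < x * p.1 / (Real.sinh p.1 * Real.sin p.2) := div_pos (mul_pos hx hp.1) hh
  have h4 := hC q (Real.sinh p.1 * Real.sin p.2) (x * p.1) hq hq' hh.ne'
  rw [abs_of_pos hh, abs_of_pos hy] at h4
  rw [abs_mul, abs_of_nonneg h1]
  calc _ ≤ Jac p.1 p.2 * (C * (q - 2) * majF q x (Real.sinh p.1 * Real.sin p.2) p.1) :=
        mul_le_mul_of_nonneg_left h4 h1
    _ = C * (q - 2) * (Jac p.1 p.2 * majF q x (Real.sinh p.1 * Real.sin p.2) p.1) := by ring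
    _ ≤ C * (q - 2) * (x ^ (14 / 5 : ℝ) * (domR p.1 * domA p.2)) :=
        mul_le_mul_of_nonneg_left h3 (mul_nonneg hC0.le (by linarith))
    _ = _ := by ring

/-- integrability and the limit of `Th q x / (q - 2)` -/
theorem Th_lim {x : ℝ} (hx : 0 < x) :
    (∀ q : ℝ, 2 < q → q ≤ 21 / 10 → Integrable (fun z : ℂ => Mq q (hh z) (x * xi z))) ∧
    Tendsto (fun q => Th q x / (q - 2)) (𝓝[>] 2) (𝓝 (8 * TT x)) := by
  obtain ⟨C, hC0, hC⟩ := Mq_bound
  have hmeas : ∀ q : ℝ, Measurable fun p : ℝ × ℝ =>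
      Jac p.1 p.2 * Mq q (Real.sinh p.1 * Real.sin p.2) (x * p.1) := fun q =>
    Jac_meas.mul (sub_meas (Mq_meas q x))
  have hI : ∀ q : ℝ, 2 < q → q ≤ 21 / 10 → IntegrableOn (fun p : ℝ × ℝ =>
      Jac p.1 p.2 * Mq q (Real.sinh p.1 * Real.sin p.2) (x * p.1)) Strip := by
    intro q hq hq'
    refine Integrable.mono' ((dom_int (C * x ^ (14 / 5 : ℝ))).const_mul (q - 2))
      (hmeas q).aestronglyMeasurable ?_
    refine (ae_restrict_iff' measurableSet_Strip).mpr (Eventually.of_forall fun p hp => ?_)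
    exact Mq_dom hC0 hC hq hq' hx hp
  have hint : ∀ q : ℝ, 2 < q → q ≤ 21 / 10 → Integrable (fun z : ℂ => Mq q (hh z) (x * xi z)) :=
    fun q hq hq' => (tile_integrable (fun h ξ => Mq q h (x * ξ)) (Mq_meas q x)).mpr (hI q hq hq')
  refine ⟨hint, ?_⟩
  have hev : ∀ᶠ q in 𝓝[>] (2 : ℝ), 2 < q ∧ q ≤ 21 / 10 := by
    have h1 : ∀ᶠ q in 𝓝[>] (2 : ℝ), 2 < q := self_mem_nhdsWithin
    have h2 : ∀ᶠ q in 𝓝[>] (2 : ℝ), q ≤ 21 / 10 :=
      (eventually_le_nhds (by norm_num : (2:ℝ) < 21 / 10)).filter_mono nhdsWithin_le_nhds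
    exact h1.and h2
  have hT : Tendsto (fun q => ∫ p in Strip, (Jac p.1 p.2 *
      Mq q (Real.sinh p.1 * Real.sin p.2) (x * p.1)) / (q - 2)) (𝓝[>] 2) (𝓝 (TT x)) := by
    unfold TT
    refine tendsto_integral_filter_of_dominated_convergence
      (fun p : ℝ × ℝ => C * x ^ (14 / 5 : ℝ) * (domR p.1 * domA p.2)) ?_ ?_ (dom_int _) ?_
    · exact Eventually.of_forall fun q => ((hmeas q).div_const _).aestronglyMeasurable
    · filter_upwards [hev] with q hq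
      refine (ae_restrict_iff' measurableSet_Strip).mpr (Eventually.of_forall fun p hp => ?_)
      have h0 : 0 < q - 2 := by linarith [hq.1]
      rw [norm_div, Real.norm_eq_abs, Real.norm_eq_abs, abs_of_pos h0, div_le_iff₀ h0, mul_comm _ (q - 2)]
      exact Mq_dom hC0 hC hq.1 hq.2 hx hp
    · refine (ae_restrict_iff' measurableSet_Strip).mpr (Eventually.of_forall fun p hp => ?_)
      have hs : 0 < Real.sinh p.1 := Real.sinh_pos_iff.mpr hp.1
      have ht : 0 < Real.sin p.2 := Real.sin_pos_of_pos_of_lt_pi hp.2.1 hp.2.2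
      have hh : 0 < Real.sinh p.1 * Real.sin p.2 := mul_pos hs ht
      have := (Mq_lim gg (fun y => rfl) hh.ne' (β := x * p.1)).const_mul (Jac p.1 p.2)
      unfold Tin
      simp only [mul_div_assoc] at this ⊢
      rw [mul_assoc]
      exact this
  have hEq : ∀ᶠ q in 𝓝[>] (2 : ℝ), 8 * (∫ p in Strip, (Jac p.1 p.2 *
      Mq q (Real.sinh p.1 * Real.sin p.2) (x * p.1)) / (q - 2)) = Th q x / (q - 2) := by
    filter_upwards [hev] with q hq
    unfold Th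
    rw [tile_integral (fun h ξ => Mq q h (x * ξ)) (Mq_meas q x) (hint q hq.1 hq.2)]
    simp only [div_eq_mul_inv]
    rw [integral_mul_const]
    ring
  exact (hT.const_mul 8).congr' hEq

/-- the universal sign statement -/
theorem univ_sign : ∃ x₂ μ q₀ : ℝ, 1 < x₂ ∧ 0 < μ ∧ 2 < q₀ ∧ q₀ ≤ 21 / 10 ∧
    ∀ q : ℝ, 2 < q → q < q₀ →
      Integrable (fun z : ℂ => Mq q (hh z) (1 * xi z)) ∧
      Integrable (fun z : ℂ => Mq q (hh z) (x₂ * xi z)) ∧
      Th q 1 ≤ - μ * (q - 2) ∧ μ * (q - 2) ≤ Th q x₂ := by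
  obtain ⟨x₂, hx₂, hT2⟩ := TT_pos
  have hT1 := TT_one_neg
  obtain ⟨i1, l1⟩ := Th_lim one_pos
  obtain ⟨i2, l2⟩ := Th_lim (zero_lt_one.trans hx₂)
  set μ := min (-(4 * TT 1)) (4 * TT x₂) with hμ
  have hμ0 : 0 < μ := lt_min (by linarith) (by linarith)
  have e1 : ∀ᶠ q in 𝓝[>] (2 : ℝ), Th q 1 / (q - 2) ≤ -μ := by
    refine (l1.eventually_le_const (u := -μ) ?_)
    have : μ ≤ -(4 * TT 1) := min_le_left _ _
    linarith
  have e2 : ∀ᶠ q in 𝓝[>] (2 : ℝ), μ ≤ Th q x₂ / (q - 2) := by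
    refine (l2.eventually_const_le (u := μ) ?_)
    have : μ ≤ 4 * TT x₂ := min_le_right _ _
    linarith
  obtain ⟨u, hu, hsub⟩ := mem_nhdsGT_iff_exists_Ioo_subset.mp (e1.and e2)
  refine ⟨x₂, μ, min u (21 / 10), hx₂, hμ0, lt_min hu (by norm_num), min_le_right _ _, fun q hq hq' => ?_⟩
  have hqu : q < u := hq'.trans_le (min_le_left _ _)
  have hq1 : q ≤ 21 / 10 := hq'.le.trans (min_le_right _ _)
  obtain ⟨s1, s2⟩ := hsub ⟨hq, hqu⟩
  have h0 : 0 < q - 2 := by linarith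
  refine ⟨i1 q hq hq1, i2 q hq hq1, ?_, ?_⟩
  · rwa [div_le_iff₀ h0] at s1
  · rwa [le_div_iff₀ h0] at s2

end Pool.Agent.H87.LE
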