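import Pool.Agent.H87.LE.Base
import Pool.Agent.H86.LE.Sing

open MeasureTheory Complex Set Filter Topology
open scoped ContDiff Laplacian

namespace Pool.Agent.H87.LE

/-! # A14: integrability of negative powers of `w0`
`|w0| = 4 |sin a sin b sin((a+b)/2) sin((a-b)/2)|`; pair the factors by Cauchy-Schwarz for the first;
`|sin a sin b| = 4 |sin(a/2) sin(b/2)| bet` for the second. -/

open Pool.Agent.H86.LE in
theorem w0_fac1 (z : ℂ) : w0 z = 4 * (Real.sin (Real.pi / 2 * (2 * z.re)) *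
    Real.sin (Real.pi / 2 * (z.re + z.im))) * (Real.sin (Real.pi / 2 * (2 * z.im)) *
    Real.sin (Real.pi / 2 * (z.re - z.im))) := by
  have h1 : Real.sin (2 * Real.pi * z.im) =
      2 * Real.sin (Real.pi * z.im) * Real.cos (Real.pi * z.im) := by
    rw [show 2 * Real.pi * z.im = 2 * (Real.pi * z.im) by ring, Real.sin_two_mul]
  have h2 : Real.sin (2 * Real.pi * z.re) =
      2 * Real.sin (Real.pi * z.re) * Real.cos (Real.pi * z.re) := by
    rw [show 2 * Real.pi * z.re = 2 * (Real.pi * z.re) by ring, Real.sin_two_mul]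
  have h3 : Real.cos (Real.pi * z.im) - Real.cos (Real.pi * z.re) =
      2 * (Real.sin (Real.pi / 2 * (z.re + z.im)) * Real.sin (Real.pi / 2 * (z.re - z.im))) := by
    rw [Real.cos_sub_cos, show (Real.pi * z.im + Real.pi * z.re) / 2 = Real.pi / 2 * (z.re + z.im) by ring,
      show (Real.pi * z.im - Real.pi * z.re) / 2 = -(Real.pi / 2 * (z.re - z.im)) by ring, Real.sin_neg]
    ring
  unfold w0
  rw [h1, h2, show Real.pi / 2 * (2 * z.re) = Real.pi * z.re by ring,
    show Real.pi / 2 * (2 * z.im) = Real.pi * z.im by ring]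
  linear_combination (2 * Real.sin (Real.pi * z.re) * Real.sin (Real.pi * z.im)) * h3

theorem w0_fac2 (z : ℂ) : w0 z = 16 * Real.sin (Real.pi / 2 * z.re) * Real.sin (Real.pi / 2 * z.im) *
    bet z * Real.sin (Real.pi / 2 * (z.re + z.im)) * Real.sin (Real.pi / 2 * (z.re - z.im)) := by
  rw [w0_fac1]
  have h1 : Real.sin (Real.pi / 2 * (2 * z.re)) =
      2 * Real.sin (Real.pi / 2 * z.re) * Real.cos (Real.pi / 2 * z.re) := by
    rw [show Real.pi / 2 * (2 * z.re) = 2 * (Real.pi / 2 * z.re) by ring, Real.sin_two_mul]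
  have h2 : Real.sin (Real.pi / 2 * (2 * z.im)) =
      2 * Real.sin (Real.pi / 2 * z.im) * Real.cos (Real.pi / 2 * z.im) := by
    rw [show Real.pi / 2 * (2 * z.im) = 2 * (Real.pi / 2 * z.im) by ring, Real.sin_two_mul]
  rw [h1, h2]
  unfold bet
  ring

theorem measurableSet_DD : MeasurableSet DD := by
  have : DD = {z : ℂ | |z.re| < 1} ∩ {z : ℂ | |z.im| < 1} := by ext; simp [DD]
  rw [this]
  exact (measurableSet_lt (by fun_prop) (by fun_prop)).inter (measurableSet_lt (by fun_prop) (by fun_prop))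

theorem measurable_w0 : Measurable w0 := by unfold w0; fun_prop

theorem measurable_bet : Measurable bet := by unfold bet; fun_prop

open Pool.Agent.H86.LE in
theorem w0_int1 : IntegrableOn (fun z => |w0 z| ^ (-(12 / 25) : ℝ)) DD := by
  have hG := sG_int (r := 24 / 25) (by norm_num) (by norm_num)
  have hF : Integrable (fun t => sG (24 / 25) (2 * t)) := hG.comp_mul_left' two_ne_zero
  have h := ((prod1 hF hG).add (prod2 hF hG)).integrableOn (s := DD)
  refine Integrable.mono' h ?_ ?_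
  · exact (measurable_w0.abs.pow_const _).aestronglyMeasurable
  · refine (ae_restrict_iff' measurableSet_DD).mpr (Eventually.of_forall fun z hz => ?_)
    obtain ⟨hx, hy⟩ := hz
    rw [abs_lt] at hx hy
    rw [Real.norm_of_nonneg (Real.rpow_nonneg (abs_nonneg _) _), w0_fac1]
    simp only [Pi.add_apply, sG]
    rw [indicator_of_mem (show (2 * z.re) ∈ Ioo (-2 : ℝ) 2 from ⟨by linarith, by linarith⟩),
      indicator_of_mem (show (z.re + z.im) ∈ Ioo (-2 : ℝ) 2 from ⟨by linarith, by linarith⟩),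
      indicator_of_mem (show (2 * z.im) ∈ Ioo (-2 : ℝ) 2 from ⟨by linarith, by linarith⟩),
      indicator_of_mem (show (z.re - z.im) ∈ Ioo (-2 : ℝ) 2 from ⟨by linarith, by linarith⟩)]
    rw [abs_mul, abs_mul, abs_mul, abs_mul, abs_of_pos (by norm_num : (0:ℝ) < 4),
      ← Real.mul_rpow (abs_nonneg _) (abs_nonneg _), ← Real.mul_rpow (abs_nonneg _) (abs_nonneg _)]
    set P := |Real.sin (Real.pi / 2 * (2 * z.re))| * |Real.sin (Real.pi / 2 * (z.re + z.im))|
    set Q := |Real.sin (Real.pi / 2 * (2 * z.im))| * |Real.sin (Real.pi / 2 * (z.re - z.im))|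
    have hP : 0 ≤ P := by positivity
    have hQ : 0 ≤ Q := by positivity
    rw [Real.mul_rpow (by positivity) hQ, Real.mul_rpow (by norm_num) hP]
    have e : ∀ T : ℝ, 0 ≤ T → T ^ (-(24 / 25) : ℝ) = T ^ (-(12 / 25) : ℝ) * T ^ (-(12 / 25) : ℝ) := by
      intro T hT
      rcases hT.eq_or_lt with h | h
      · rw [← h, Real.zero_rpow (by norm_num), Real.zero_rpow (by norm_num), mul_zero]
      · rw [← Real.rpow_add h]; norm_num
    rw [e P hP, e Q hQ]
    have h4 : (4 : ℝ) ^ (-(12 / 25) : ℝ) ≤ 1 :=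
      Real.rpow_le_one_of_one_le_of_nonpos (by norm_num) (by norm_num)
    have hp : 0 ≤ P ^ (-(12 / 25) : ℝ) := Real.rpow_nonneg hP _
    have hq : 0 ≤ Q ^ (-(12 / 25) : ℝ) := Real.rpow_nonneg hQ _
    have h5 : 4 ^ (-(12 / 25) : ℝ) * P ^ (-(12 / 25) : ℝ) * Q ^ (-(12 / 25) : ℝ) ≤
        P ^ (-(12 / 25) : ℝ) * Q ^ (-(12 / 25) : ℝ) := by
      rw [mul_assoc]
      exact mul_le_of_le_one_left (mul_nonneg hp hq) h4
    nlinarith [sq_nonneg (P ^ (-(12 / 25) : ℝ) - Q ^ (-(12 / 25) : ℝ))]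

theorem cos_half_pos {t : ℝ} (h1 : -1 < t) (h2 : t < 1) : 0 < Real.cos (Real.pi / 2 * t) :=
  Real.cos_pos_of_mem_Ioo ⟨by nlinarith [Real.pi_pos], by nlinarith [Real.pi_pos]⟩

/-- `P ≥ (|x| + |y|) bet` if `x, y` have the same sign -/
theorem sin_add_lower {x y : ℝ} (hx1 : -1 < x) (hx2 : x < 1) (hy1 : -1 < y) (hy2 : y < 1)
    (hxy : 0 ≤ x * y) :
    (|x| + |y|) * (Real.cos (Real.pi / 2 * x) * Real.cos (Real.pi / 2 * y)) ≤
      |Real.sin (Real.pi / 2 * (x + y))| := by
  have hcx := cos_half_pos hx1 hx2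
  have hcy := cos_half_pos hy1 hy2
  have hcx1 := Real.cos_le_one (Real.pi / 2 * x)
  have hcy1 := Real.cos_le_one (Real.pi / 2 * y)
  have hA := Pool.Agent.H86.LE.abs_sin_lower (t := x) (abs_le.mpr ⟨hx1.le, hx2.le⟩)
  have hB := Pool.Agent.H86.LE.abs_sin_lower (t := y) (abs_le.mpr ⟨hy1.le, hy2.le⟩)
  have key : ∀ x y : ℝ, 0 ≤ x → 0 ≤ y → x < 1 → y < 1 →
      (x + y) * (Real.cos (Real.pi / 2 * x) * Real.cos (Real.pi / 2 * y)) ≤
      Real.sin (Real.pi / 2 * (x + y)) := by
    intro x y hx hy hx1 hy1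
    have hcx := cos_half_pos (by linarith) hx1
    have hcy := cos_half_pos (by linarith) hy1
    have hcx1 := Real.cos_le_one (Real.pi / 2 * x)
    have hcy1 := Real.cos_le_one (Real.pi / 2 * y)
    have hA := Pool.Agent.H86.LE.sin_lower hx hx1.le
    have hB := Pool.Agent.H86.LE.sin_lower hy hy1.le
    rw [mul_add, Real.sin_add]
    have h1 : x * (Real.cos (Real.pi / 2 * x) * Real.cos (Real.pi / 2 * y)) ≤
        Real.sin (Real.pi / 2 * x) * Real.cos (Real.pi / 2 * y) := by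
      calc _ = (x * Real.cos (Real.pi / 2 * x)) * Real.cos (Real.pi / 2 * y) := by ring
        _ ≤ _ := by
          refine mul_le_mul_of_nonneg_right ?_ hcy.le
          nlinarith
    have h2 : y * (Real.cos (Real.pi / 2 * x) * Real.cos (Real.pi / 2 * y)) ≤
        Real.cos (Real.pi / 2 * x) * Real.sin (Real.pi / 2 * y) := by
      calc _ = Real.cos (Real.pi / 2 * x) * (y * Real.cos (Real.pi / 2 * y)) := by ring
        _ ≤ _ := by
          refine mul_le_mul_of_nonneg_left ?_ hcx.le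
          nlinarith
    nlinarith
  by_cases h : 0 ≤ x ∧ 0 ≤ y
  · rw [abs_of_nonneg h.1, abs_of_nonneg h.2]
    exact (key x y h.1 h.2 hx2 hy2).trans (le_abs_self _)
  · have h' : x ≤ 0 ∧ y ≤ 0 := by
      by_contra hc
      rcases not_and_or.mp h with h1 | h1 <;> rcases not_and_or.mp hc with h2 | h2
      · push Not at h1 h2; linarith
      · push Not at h1 h2; nlinarith
      · push Not at h1 h2; nlinarith
      · push Not at h1 h2; linarith
    rw [abs_of_nonpos h'.1, abs_of_nonpos h'.2]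
    have := key (-x) (-y) (by linarith [h'.1]) (by linarith [h'.2]) (by linarith) (by linarith)
    rw [mul_neg, mul_neg, Real.cos_neg, Real.cos_neg, show Real.pi / 2 * (-x + -y) =
      -(Real.pi / 2 * (x + y)) by ring, Real.sin_neg] at this
    exact this.trans (neg_le_abs _)

/-- lower bound for `|w0|` -/
theorem w0_lower {z : ℂ} (hz : z ∈ DD) {a : ℝ} (ha : 0 < a) (hza : a ≤ ‖z‖) :
    (0 ≤ z.re * z.im → 16 * a * (|z.re| * |z.im| * |z.re - z.im|) * bet z ^ 2 ≤ |w0 z|) ∧
    (z.re * z.im ≤ 0 → 16 * a * (|z.re| * |z.im| * |z.re + z.im|) * bet z ^ 2 ≤ |w0 z|) := by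
  obtain ⟨hx, hy⟩ := hz
  rw [abs_lt] at hx hy
  have hbet : 0 < bet z := mul_pos (cos_half_pos hx.1 hx.2) (cos_half_pos hy.1 hy.2)
  have hA := Pool.Agent.H86.LE.abs_sin_lower (t := z.re) (abs_le.mpr ⟨hx.1.le, hx.2.le⟩)
  have hB := Pool.Agent.H86.LE.abs_sin_lower (t := z.im) (abs_le.mpr ⟨hy.1.le, hy.2.le⟩)
  have hab : a ≤ |z.re| + |z.im| := hza.trans (Complex.norm_le_abs_re_add_abs_im z)
  rw [w0_fac2]
  simp only [abs_mul, abs_of_pos hbet]
  rw [abs_of_pos (by norm_num : (0:ℝ) < 16)]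
  constructor
  · intro h
    have hP : (|z.re| + |z.im|) * bet z ≤ |Real.sin (Real.pi / 2 * (z.re + z.im))| :=
      sin_add_lower hx.1 hx.2 hy.1 hy.2 h
    have hM : |z.re - z.im| ≤ |Real.sin (Real.pi / 2 * (z.re - z.im))| := by
      apply Pool.Agent.H86.LE.abs_sin_lower
      rcases le_total 0 z.re with h1 | h1 <;> rcases le_total 0 z.im with h2 | h2
      · rw [abs_le]; constructor <;> linarith
      · have : z.re = 0 ∨ z.im = 0 := by
          rcases mul_eq_zero.mp (le_antisymm (mul_nonpos_of_nonneg_of_nonpos h1 h2) h) with h | h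
          exacts [Or.inl h, Or.inr h]
        rw [abs_le]; rcases this with h | h <;> constructor <;> linarith
      · have : z.re = 0 ∨ z.im = 0 := by
          rcases mul_eq_zero.mp (le_antisymm (mul_nonpos_of_nonpos_of_nonneg h1 h2) h) with h | h
          exacts [Or.inl h, Or.inr h]
        rw [abs_le]; rcases this with h | h <;> constructor <;> linarith
      · rw [abs_le]; constructor <;> linarith
    have hP' : a * bet z ≤ |Real.sin (Real.pi / 2 * (z.re + z.im))| :=
      (mul_le_mul_of_nonneg_right hab hbet.le).trans hP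
    calc 16 * a * (|z.re| * |z.im| * |z.re - z.im|) * bet z ^ 2
        = 16 * |z.re| * |z.im| * bet z * (a * bet z) * |z.re - z.im| := by ring
      _ ≤ _ := by gcongr
  · intro h
    have hM : (|z.re| + |z.im|) * bet z ≤ |Real.sin (Real.pi / 2 * (z.re - z.im))| := by
      have := sin_add_lower (x := z.re) (y := -z.im) hx.1 hx.2 (by linarith) (by linarith)
        (by linarith)
      rw [abs_neg, mul_neg, Real.cos_neg, ← sub_eq_add_neg] at this
      exact this
    have hP : |z.re + z.im| ≤ |Real.sin (Real.pi / 2 * (z.re + z.im))| := by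
      apply Pool.Agent.H86.LE.abs_sin_lower
      rcases le_total 0 z.re with h1 | h1 <;> rcases le_total 0 z.im with h2 | h2
      · have : z.re = 0 ∨ z.im = 0 := by
          rcases mul_eq_zero.mp (le_antisymm h (mul_nonneg h1 h2)) with h | h
          exacts [Or.inl h, Or.inr h]
        rw [abs_le]; rcases this with h | h <;> constructor <;> linarith
      · rw [abs_le]; constructor <;> linarith
      · rw [abs_le]; constructor <;> linarith
      · have : z.re = 0 ∨ z.im = 0 := by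
          rcases mul_eq_zero.mp (le_antisymm h (mul_nonneg_of_nonpos_of_nonpos h1 h2)) with h | h
          exacts [Or.inl h, Or.inr h]
        rw [abs_le]; rcases this with h | h <;> constructor <;> linarith
    have hM' : a * bet z ≤ |Real.sin (Real.pi / 2 * (z.re - z.im))| :=
      (mul_le_mul_of_nonneg_right hab hbet.le).trans hM
    calc 16 * a * (|z.re| * |z.im| * |z.re + z.im|) * bet z ^ 2
        = 16 * |z.re| * |z.im| * bet z * |z.re + z.im| * (a * bet z) := by ring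
      _ ≤ _ := by gcongr

/-- if two of three positive numbers are `≥ c` -/
theorem three_pow {p q r c : ℝ} (hp : 0 < p) (hq : 0 < q) (hr : 0 < r) (hc : 0 < c)
    (h : (c ≤ p ∧ c ≤ q) ∨ (c ≤ p ∧ c ≤ r) ∨ (c ≤ q ∧ c ≤ r)) :
    (p * q * r) ^ (-(3 / 4) : ℝ) ≤ (c * c) ^ (-(3 / 4) : ℝ) *
      (p ^ (-(3 / 4) : ℝ) + q ^ (-(3 / 4) : ℝ) + r ^ (-(3 / 4) : ℝ)) := by
  have h1 : 0 ≤ p ^ (-(3 / 4) : ℝ) := Real.rpow_nonneg hp.le _
  have h2 : 0 ≤ q ^ (-(3 / 4) : ℝ) := Real.rpow_nonneg hq.le _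
  have h3 : 0 ≤ r ^ (-(3 / 4) : ℝ) := Real.rpow_nonneg hr.le _
  have h4 : 0 ≤ (c * c) ^ (-(3 / 4) : ℝ) := Real.rpow_nonneg (by positivity) _
  have key : ∀ s : ℝ, 0 < s → c * c * s ≤ p * q * r → (p * q * r) ^ (-(3 / 4) : ℝ) ≤
      (c * c) ^ (-(3 / 4) : ℝ) * s ^ (-(3 / 4) : ℝ) := by
    intro s hs hle
    rw [← Real.mul_rpow (by positivity) hs.le]
    exact Real.rpow_le_rpow_of_nonpos (by positivity) hle (by norm_num)
  rcases h with h | h | h
  · refine (key r hr ?_).trans ?_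
    · exact mul_le_mul_of_nonneg_right (mul_le_mul h.1 h.2 hc.le hp.le) hr.le
    · exact mul_le_mul_of_nonneg_left (by linarith) h4
  · refine (key q hq ?_).trans ?_
    · calc c * c * q ≤ p * r * q := mul_le_mul_of_nonneg_right (mul_le_mul h.1 h.2 hc.le hp.le) hq.le
        _ = _ := by ring
    · exact mul_le_mul_of_nonneg_left (by linarith) h4
  · refine (key p hp ?_).trans ?_
    · calc c * c * p ≤ q * r * p := mul_le_mul_of_nonneg_right (mul_le_mul h.1 h.2 hc.le hq.le) hp.le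
        _ = _ := by ring
    · exact mul_le_mul_of_nonneg_left (by linarith) h4

open Pool.Agent.H86.LE in
theorem w0_int2 {a : ℝ} (ha : 0 < a) :
    IntegrableOn (fun z => bet z ^ 2 * |w0 z| ^ (-(3 / 4) : ℝ)) (DD \ Metric.ball 0 a) := by
  have hp := pG_int (r := 3 / 4) (by norm_num)
  have i1 := prod0 hp oG_int
  have i2 := prod0 oG_int hp
  have i3 := prod2 oG_int hp
  have i4 := prod1 oG_int hp
  set K : ℝ := (16 * a) ^ (-(3 / 4) : ℝ) * (a / 4 * (a / 4)) ^ (-(3 / 4) : ℝ) with hK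
  have hK0 : 0 ≤ K := mul_nonneg (Real.rpow_nonneg (by positivity) _) (Real.rpow_nonneg (by positivity) _)
  have h := ((((i1.add i2).add i3).add i4).const_mul K).integrableOn (s := DD \ Metric.ball 0 a)
  have hms : MeasurableSet (DD \ Metric.ball (0:ℂ) a) := measurableSet_DD.diff measurableSet_ball
  refine Integrable.mono' h ?_ ?_
  · exact ((measurable_bet.pow_const 2).mul (measurable_w0.abs.pow_const _)).aestronglyMeasurable
  · refine (ae_restrict_iff' hms).mpr (Eventually.of_forall fun z hz => ?_)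
    obtain ⟨hzD, hza⟩ := hz
    have hza' : a ≤ ‖z‖ := by simpa using hza
    have hlow := w0_lower hzD ha hza'
    obtain ⟨hx, hy⟩ := hzD
    rw [abs_lt] at hx hy
    have hbet : 0 < bet z := mul_pos (cos_half_pos hx.1 hx.2) (cos_half_pos hy.1 hy.2)
    have hbet1 : bet z ≤ 1 := by
      unfold bet
      exact mul_le_one₀ (Real.cos_le_one _) (cos_half_pos hy.1 hy.2).le (Real.cos_le_one _)
    rw [Real.norm_of_nonneg (mul_nonneg (sq_nonneg _) (Real.rpow_nonneg (abs_nonneg _) _))]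
    simp only [Pi.add_apply, pG, oG]
    rw [indicator_of_mem (show z.re ∈ Ioo (-2 : ℝ) 2 from ⟨by linarith, by linarith⟩),
      indicator_of_mem (show z.im ∈ Ioo (-2 : ℝ) 2 from ⟨by linarith, by linarith⟩),
      indicator_of_mem (show z.re ∈ Ioo (-2 : ℝ) 2 from ⟨by linarith, by linarith⟩),
      indicator_of_mem (show z.im ∈ Ioo (-2 : ℝ) 2 from ⟨by linarith, by linarith⟩),
      indicator_of_mem (show (z.re + z.im) ∈ Ioo (-2 : ℝ) 2 from ⟨by linarith, by linarith⟩),
      indicator_of_mem (show (z.re - z.im) ∈ Ioo (-2 : ℝ) 2 from ⟨by linarith, by linarith⟩)]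
    simp only [mul_one, one_mul]
    have n1 : 0 ≤ |z.re| ^ (-(3 / 4) : ℝ) := Real.rpow_nonneg (abs_nonneg _) _
    have n2 : 0 ≤ |z.im| ^ (-(3 / 4) : ℝ) := Real.rpow_nonneg (abs_nonneg _) _
    have n3 : 0 ≤ |z.re - z.im| ^ (-(3 / 4) : ℝ) := Real.rpow_nonneg (abs_nonneg _) _
    have n4 : 0 ≤ |z.re + z.im| ^ (-(3 / 4) : ℝ) := Real.rpow_nonneg (abs_nonneg _) _
    by_cases hw : w0 z = 0
    · rw [hw, abs_zero, Real.zero_rpow (by norm_num), mul_zero]
      positivity
    have hre : z.re ≠ 0 := by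
      intro h; apply hw; rw [w0_fac2, h]; simp
    have him : z.im ≠ 0 := by
      intro h; apply hw; rw [w0_fac2, h]; simp
    have hmi : z.re - z.im ≠ 0 := by
      intro h; apply hw; rw [w0_fac2, h]; simp
    have hpl : z.re + z.im ≠ 0 := by
      intro h; apply hw; rw [w0_fac2, h]; simp
    have hab : a ≤ |z.re| + |z.im| := hza'.trans (Complex.norm_le_abs_re_add_abs_im z)
    have key : ∀ r : ℝ, 0 < r → 16 * a * (|z.re| * |z.im| * r) * bet z ^ 2 ≤ |w0 z| →
        ((a / 4 ≤ |z.re| ∧ a / 4 ≤ |z.im|) ∨ (a / 4 ≤ |z.re| ∧ a / 4 ≤ r) ∨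
          (a / 4 ≤ |z.im| ∧ a / 4 ≤ r)) →
        bet z ^ 2 * |w0 z| ^ (-(3 / 4) : ℝ) ≤
          K * (|z.re| ^ (-(3 / 4) : ℝ) + |z.im| ^ (-(3 / 4) : ℝ) + r ^ (-(3 / 4) : ℝ)) := by
      intro r hr hle h3
      have hpos : 0 < |z.re| * |z.im| * r :=
        mul_pos (mul_pos (abs_pos.mpr hre) (abs_pos.mpr him)) hr
      have h1 : |w0 z| ^ (-(3 / 4) : ℝ) ≤
          (16 * a) ^ (-(3 / 4) : ℝ) * (|z.re| * |z.im| * r) ^ (-(3 / 4) : ℝ) *
            (bet z ^ 2) ^ (-(3 / 4) : ℝ) := by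
        rw [← Real.mul_rpow (by positivity) hpos.le, ← Real.mul_rpow (by positivity) (by positivity)]
        exact Real.rpow_le_rpow_of_nonpos (by positivity) hle (by norm_num)
      have h2 := three_pow (abs_pos.mpr hre) (abs_pos.mpr him) hr (by positivity : 0 < a / 4) h3
      have h5 : bet z ^ 2 * (bet z ^ 2) ^ (-(3 / 4) : ℝ) ≤ 1 := by
        have : bet z ^ 2 * (bet z ^ 2) ^ (-(3 / 4) : ℝ) = (bet z ^ 2) ^ (1 / 4 : ℝ) := by
          conv_lhs => rw [← Real.rpow_one (bet z ^ 2), ← Real.rpow_mul (by positivity)]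
          rw [← Real.rpow_add (by positivity)]
          norm_num
        rw [this]
        exact Real.rpow_le_one (by positivity) (by nlinarith) (by norm_num)
      have m1 : 0 ≤ (16 * a) ^ (-(3 / 4) : ℝ) := Real.rpow_nonneg (by positivity) _
      have m2 : 0 ≤ (|z.re| * |z.im| * r) ^ (-(3 / 4) : ℝ) := Real.rpow_nonneg hpos.le _
      calc bet z ^ 2 * |w0 z| ^ (-(3 / 4) : ℝ)
          ≤ bet z ^ 2 * ((16 * a) ^ (-(3 / 4) : ℝ) * (|z.re| * |z.im| * r) ^ (-(3 / 4) : ℝ) *
            (bet z ^ 2) ^ (-(3 / 4) : ℝ)) := mul_le_mul_of_nonneg_left h1 (sq_nonneg _)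
        _ = (16 * a) ^ (-(3 / 4) : ℝ) * (|z.re| * |z.im| * r) ^ (-(3 / 4) : ℝ) *
            (bet z ^ 2 * (bet z ^ 2) ^ (-(3 / 4) : ℝ)) := by ring
        _ ≤ (16 * a) ^ (-(3 / 4) : ℝ) * (|z.re| * |z.im| * r) ^ (-(3 / 4) : ℝ) * 1 :=
            mul_le_mul_of_nonneg_left h5 (mul_nonneg m1 m2)
        _ ≤ (16 * a) ^ (-(3 / 4) : ℝ) * ((a / 4 * (a / 4)) ^ (-(3 / 4) : ℝ) *
            (|z.re| ^ (-(3 / 4) : ℝ) + |z.im| ^ (-(3 / 4) : ℝ) + r ^ (-(3 / 4) : ℝ))) := by
            rw [mul_one]; exact mul_le_mul_of_nonneg_left h2 m1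
        _ = _ := by rw [hK]; ring
    have two : ∀ r : ℝ, (|z.re| ≤ |z.im| + r) → (|z.im| ≤ |z.re| + r) →
        ((a / 4 ≤ |z.re| ∧ a / 4 ≤ |z.im|) ∨ (a / 4 ≤ |z.re| ∧ a / 4 ≤ r) ∨
          (a / 4 ≤ |z.im| ∧ a / 4 ≤ r)) := by
      intro r h1 h2
      by_cases c1 : a / 4 ≤ |z.re|
      · by_cases c2 : a / 4 ≤ |z.im|
        · exact Or.inl ⟨c1, c2⟩
        · push Not at c2
          exact Or.inr (Or.inl ⟨c1, by linarith⟩)
      · push Not at c1
        exact Or.inr (Or.inr ⟨by linarith, by linarith⟩)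
    rcases le_total 0 (z.re * z.im) with h0 | h0
    · refine (key |z.re - z.im| (abs_pos.mpr hmi) (hlow.1 h0) (two _ ?_ ?_)).trans ?_
      · have := abs_add_le z.im (z.re - z.im)
        rwa [add_sub_cancel] at this
      · have := abs_add_le z.re (z.im - z.re)
        rw [add_sub_cancel, abs_sub_comm z.im z.re] at this
        exact this
      · exact mul_le_mul_of_nonneg_left (by linarith) hK0
    · refine (key |z.re + z.im| (abs_pos.mpr hpl) (hlow.2 h0) (two _ ?_ ?_)).trans ?_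
      · have := abs_add_le (-z.im) (z.re + z.im)
        rw [abs_neg] at this
        calc |z.re| = |-z.im + (z.re + z.im)| := by ring_nf
          _ ≤ _ := this
      · have := abs_add_le (-z.re) (z.re + z.im)
        rw [abs_neg] at this
        calc |z.im| = |-z.re + (z.re + z.im)| := by ring_nf
          _ ≤ _ := this
      · exact mul_le_mul_of_nonneg_left (by linarith) hK0

end Pool.Agent.H87.LE
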