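import Pool.Agent.H87.LE.Base
import Pool.Agent.H20.LE.NotLimit

open MeasureTheory Complex Set Filter Topology
open scoped ContDiff Laplacian

namespace Pool.Agent.H87.LE

open Pool.Agent.H20.LE

/-! # A15: the explicit functions -/

theorem w0_weak {φ : ℂ → ℝ} (hφ : Tst DD φ) :
    ∫ z, inner ℝ (gradient w0 z) (gradient φ z) = 5 * Real.pi ^ 2 * ∫ z, w0 z * φ z := by
  rw [w0_eq]
  exact Co_weak (by ring) (by ring) hφ.1 hφ.2.1

theorem phi0_weak {φ : ℂ → ℝ} (hφ : Tst (DD \ Axs) φ) :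
    ∫ z, inner ℝ (gradient phi0 z) (gradient φ z) = 5 * Real.pi ^ 2 * ∫ z, phi0 z * φ z :=
  sign_weak (F := Fq) (σ := sg) (Co_contDiff _ _ _ _ _ _)
    (fun _ h1 h2 => Co_weak (by ring) (by ring) h1 h2) (fun _ hz => sg_loc (SS_ne hz)) phi0_eq hφ

theorem psi11_weak {φ : ℂ → ℝ} (hφ : Tst (DD \ Axs) φ) :
    ∫ z, inner ℝ (gradient psi11 z) (gradient φ z) = 2 * Real.pi ^ 2 * ∫ z, psi11 z * φ z := by
  refine sign_weak (F := Co 1 0 Real.pi Real.pi Real.pi Real.pi) (σ := sg)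
    (Co_contDiff _ _ _ _ _ _)
    (fun _ h1 h2 => Co_weak (by ring) (by ring) h1 h2) (fun _ hz => sg_loc (SS_ne hz)) ?_ hφ
  intro z
  rw [psi11_eq]
  unfold Co
  ring

/-- the kink of `phi0` on the axes is seen by a test function near `0` -/
theorem phi0_kink {r : ℝ} (hr : 0 < r) : ∃ φ, Tst (DD \ (Axs \ Metric.ball 0 r)) φ ∧ Rot φ ∧
    Cnj φ ∧ ∫ z in DD, inner ℝ (gradient phi0 z) (gradient φ z) ≠
      5 * Real.pi ^ 2 * ∫ z in DD, phi0 z * φ z :=
  phi0_kink' hr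

/-- `phi0` is not a limit of functions vanishing on the diagonal near `0` -/
theorem phi0_not_limit {r : ℝ} (hr : 0 < r) : ¬ ∃ φ : ℕ → ℂ → ℝ, (∀ n, Tst (DD \ star r) (φ n)) ∧
    Tendsto (fun n => eLpNorm (fun z => φ n z - phi0 z) 2 (volume.restrict DD)) atTop (𝓝 0) ∧
    Tendsto (fun n => eLpNorm (fun z => gradient (φ n) z - gradient phi0 z) 2
      (volume.restrict DD)) atTop (𝓝 0) :=
  phi0_not_limit' hr

end Pool.Agent.H87.LE
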