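import Pool.Agent.H87.LE.A03_Emb
import Pool.Agent.H87.LE.A16_Chain
import Pool.Agent.H87.LE.A17_Comp
import Pool.Agent.H10.LE.B1a

open MeasureTheory Complex Set Filter Topology
open scoped ContDiff Laplacian

namespace Pool.Agent.H87.LE

/-! # B01: the Hilbert space of rotation invariant functions in `H¹₀(DD)` -/

/-- `L²` functions -/
noncomputable abbrev LR := Lp ℝ 2 (volume : Measure ℂ)

/-- `L²` vector fields -/
noncomputable abbrev LC := Lp ℂ 2 (volume : Measure ℂ)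

/-- gradients of rotation invariant test functions in `Ω` -/
noncomputable def gsub (Ω : Set ℂ) : Submodule ℝ LC where
  carrier := {G | ∃ φ : ℂ → ℝ, Tst Ω φ ∧ Rot φ ∧ G =ᵐ[volume] gradient φ}
  add_mem' := by
    rintro G G' ⟨φ, hφ, hR, hG⟩ ⟨φ', hφ', hR', hG'⟩
    refine ⟨fun z => φ z + φ' z, hφ.s1_add hφ', hR.s1_add hR', ?_⟩
    filter_upwards [Lp.coeFn_add G G', hG, hG'] with z h1 h2 h3
    rw [h1, Pi.add_apply, h2, h3, s1_grad_add hφ.1 hφ'.1]
  zero_mem' := by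
    refine ⟨fun _ => 0, Tst.s1_zero Ω, Rot.s1_zero, ?_⟩
    filter_upwards [Lp.coeFn_zero ℂ 2 (volume : Measure ℂ)] with z h1
    rw [h1, s1_grad_zero]; rfl
  smul_mem' := by
    rintro c G ⟨φ, hφ, hR, hG⟩
    refine ⟨fun z => c * φ z, hφ.s1_smul c, hR.s1_smul c, ?_⟩
    filter_upwards [Lp.coeFn_smul c G, hG] with z h1 h2
    rw [h1, Pi.smul_apply, h2, s1_grad_smul hφ.1]

/-- the closure of the gradients -/
noncomputable def VV (Ω : Set ℂ) : Submodule ℝ LC := (gsub Ω).topologicalClosure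

/-- the Hilbert space `H` (elements are the gradients); a type synonym, so that all instances come
from the inner product structure -/
def HH : Type := ↥(VV DD)

noncomputable instance : NormedAddCommGroup HH := inferInstanceAs (NormedAddCommGroup ↥(VV DD))

noncomputable instance : InnerProductSpace ℝ HH := inferInstanceAs (InnerProductSpace ℝ ↥(VV DD))

instance : CompleteSpace HH :=
  (Submodule.isClosed_topologicalClosure (gsub DD)).completeSpace_coe

/-- the gradient as an element of `L²` -/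
noncomputable def toLC : HH →ₗᵢ[ℝ] LC := (VV DD).subtypeₗᵢ

theorem toLC_mem (x : HH) : toLC x ∈ VV DD := Subtype.property (p := fun y => y ∈ VV DD) x

/-- the element of `H` with given gradient -/
noncomputable def ofLC (G : LC) (h : G ∈ VV DD) : HH := (⟨G, h⟩ : ↥(VV DD))

theorem toLC_ofLC (G : LC) (h : G ∈ VV DD) : toLC (ofLC G h) = G := rfl

/-- the subspace of functions of `H` vanishing outside `Ω` -/
noncomputable def V (Ω : Set ℂ) : Submodule ℝ HH := (VV Ω).comap toLC.toLinearMap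

theorem V_closed (Ω : Set ℂ) : IsClosed (V Ω : Set HH) := by
  have h1 : IsClosed (VV Ω : Set LC) := Submodule.isClosed_topologicalClosure (gsub Ω)
  exact h1.preimage toLC.continuous

noncomputable instance (Ω : Set ℂ) : CompleteSpace ↥(V Ω) := (V_closed Ω).completeSpace_coe

/-! auxiliary: `Lim` for sequences of test functions in `DD` -/

theorem b1_poincare {φ : ℂ → ℝ} (h : Tst DD φ) :
    ‖(h.s1_memLp 2).toLp φ‖ ^ 2 ≤ 1 / 2 * ‖(h.s1_memLp_grad 2).toLp (gradient φ)‖ ^ 2 := by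
  have h1 := strip_test (ρ := 1) one_pos h.1
    (h.2.2.trans (fun z hz => ⟨hz.1.le, hz.2.le⟩))
  rw [← real_inner_self_eq_norm_sq, ← real_inner_self_eq_norm_sq, s1_inner_toLp,
    s1_inner_toLp_C]
  simp only [real_inner_self_eq_norm_sq]
  have e : ∫ z, φ z * φ z = ∫ z, φ z ^ 2 := by
    congr 1; funext z; ring
  rw [e]
  linarith

theorem b1_toLp_sub {φ ψ : ℂ → ℝ} {Ω : Set ℂ} (h : Tst Ω φ) (h' : Tst Ω ψ) :
    ∃ χ : ℂ → ℝ, ∃ hχ : Tst Ω χ, (hχ.s1_memLp 2).toLp χ = (h.s1_memLp 2).toLp φ - (h'.s1_memLp 2).toLp ψ ∧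
      (hχ.s1_memLp_grad 2).toLp (gradient χ) =
        (h.s1_memLp_grad 2).toLp (gradient φ) - (h'.s1_memLp_grad 2).toLp (gradient ψ) := by
  refine ⟨fun z => φ z + (-1) * ψ z, h.s1_add (h'.s1_smul (-1)), ?_, ?_⟩
  · rw [← MemLp.toLp_sub]
    apply MemLp.toLp_congr
    filter_upwards with z
    simp only [Pi.sub_apply]; ring
  · rw [← MemLp.toLp_sub]
    apply MemLp.toLp_congr
    filter_upwards with z
    simp only [Pi.sub_apply]
    rw [s1_grad_add h.1 (contDiff_const.mul h'.1), s1_grad_smul h'.1]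
    simp [sub_eq_add_neg]

/-- every element of `VV Ω` is a limit -/
theorem b1_exists_lim {Ω : Set ℂ} (hD : Ω ⊆ DD) {x : LC} (hx : x ∈ VV Ω) :
    ∃ (v : LR) (φ : ℕ → ℂ → ℝ), (∀ n, Tst Ω (φ n) ∧ Rot (φ n)) ∧ Lim φ v x := by
  have hx' : x ∈ closure (gsub Ω : Set LC) := hx
  rw [mem_closure_iff_seq_limit] at hx'
  obtain ⟨G, hG, hlim⟩ := hx'
  choose φ hφ hR hGφ using hG
  have hGe : ∀ n, G n = ((hφ n).s1_memLp_grad 2).toLp (gradient (φ n)) := by
    intro n
    rw [← Lp.toLp_coeFn (G n) (Lp.memLp (G n))]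
    exact MemLp.toLp_congr _ _ (hGφ n)
  have hlim' : Tendsto (fun n => ((hφ n).s1_memLp_grad 2).toLp (gradient (φ n))) atTop (𝓝 x) := by
    refine hlim.congr fun n => hGe n
  have hc := hlim'.cauchySeq
  have hc' : CauchySeq (fun n => ((hφ n).s1_memLp 2).toLp (φ n)) := by
    rw [Metric.cauchySeq_iff] at hc ⊢
    intro ε hε
    obtain ⟨N, hN⟩ := hc ε hε
    refine ⟨N, fun m hm n hn => ?_⟩
    have h1 := hN m hm n hn
    rw [dist_eq_norm] at h1 ⊢
    obtain ⟨χ, hχ, e1, e2⟩ := b1_toLp_sub (hφ m) (hφ n)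
    rw [← e2] at h1
    rw [← e1]
    have h2 := b1_poincare (hχ.s1_mono hD)
    have h3 : ‖(hχ.s1_memLp 2).toLp χ‖ ≤ ‖(hχ.s1_memLp_grad 2).toLp (gradient χ)‖ := by
      apply le_of_sq_le_sq _ (norm_nonneg _)
      have := sq_nonneg ‖(hχ.s1_memLp_grad 2).toLp (gradient χ)‖
      linarith
    exact h3.trans_lt h1
  obtain ⟨v, hv⟩ := cauchySeq_tendsto_of_complete hc'
  exact ⟨v, φ, fun n => ⟨hφ n, hR n⟩, s1_lim_of hφ v x hv hlim'⟩

theorem b1_bound {φ : ℕ → ℂ → ℝ} (hφ : ∀ n, Tst DD (φ n)) {v : LR} {x : LC} (h : Lim φ v x) :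
    ‖v‖ ^ 2 ≤ 1 / 2 * ‖x‖ ^ 2 := by
  obtain ⟨t1, t2⟩ := h.s1_tendsto_lp hφ
  rw [Lp.toLp_coeFn] at t1 t2
  have h1 := t1.norm.pow 2
  have h2 := (t2.norm.pow 2).const_mul (1 / 2 : ℝ)
  exact le_of_tendsto_of_tendsto' h1 h2 fun n => b1_poincare (hφ n)

theorem b1_unique {φ ψ : ℕ → ℂ → ℝ} (hφ : ∀ n, Tst DD (φ n)) (hψ : ∀ n, Tst DD (ψ n))
    {v w : LR} {x y : LC} (h : Lim φ v x) (h' : Lim ψ w y) (hxy : x = y) : v = w := by
  have h1 := Lim.s1_add (fun n => (hφ n).1) (fun n => contDiff_const.mul (hψ n).1) h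
    (Lim.s1_smul (fun n => (hψ n).1) h' (-1))
  have h2 : Lim (fun n z => φ n z + (-1) * ψ n z) (v - w : LR) (x - y : LC) := by
    refine h1.s1_congr ?_ ?_
    · filter_upwards [Lp.coeFn_sub v w] with z hz
      rw [hz]; simp only [Pi.sub_apply]; ring
    · filter_upwards [Lp.coeFn_sub x y] with z hz
      rw [hz]; simp [sub_eq_add_neg]
  have h3 := b1_bound (fun n => (hφ n).s1_add ((hψ n).s1_smul (-1))) h2
  rw [hxy, sub_self, norm_zero] at h3
  have h4 : ‖v - w‖ ^ 2 ≤ 0 := by simpa using h3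
  have h5 : ‖v - w‖ = 0 := pow_eq_zero_iff (two_ne_zero) |>.1 (le_antisymm h4 (sq_nonneg _))
  exact sub_eq_zero.1 (norm_eq_zero.1 h5)

theorem exists_fn : ∃ f : HH →L[ℝ] LR, ∀ x : HH, ∃ φ : ℕ → ℂ → ℝ,
    (∀ n, Tst DD (φ n) ∧ Rot (φ n)) ∧ Lim φ (f x) (toLC x : ℂ → ℂ) := by
  have hex : ∀ x : HH, ∃ (v : LR) (φ : ℕ → ℂ → ℝ), (∀ n, Tst DD (φ n) ∧ Rot (φ n)) ∧
      Lim φ v (toLC x) := fun x => b1_exists_lim (subset_refl _) (toLC_mem x)
  choose f φ hφ hf using hex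
  let fl : HH →ₗ[ℝ] LR :=
    { toFun := f
      map_add' := by
        intro x y
        have h1 := Lim.s1_add (fun n => (hφ x n).1.1) (fun n => (hφ y n).1.1) (hf x) (hf y)
        have h2 : Lim (fun n z => φ x n z + φ y n z) (f x + f y : LR) (toLC (x + y)) := by
          refine h1.s1_congr ?_ ?_
          · filter_upwards [Lp.coeFn_add (f x) (f y)] with z hz
            rw [hz]; rfl
          · filter_upwards [Lp.coeFn_add (toLC x) (toLC y)] with z hz
            rw [map_add, hz]; rfl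
        exact b1_unique (fun n => (hφ (x + y) n).1)
          (fun n => (hφ x n).1.s1_add (hφ y n).1) (hf (x + y)) h2 rfl
      map_smul' := by
        intro c x
        have h1 := Lim.s1_smul (fun n => (hφ x n).1.1) (hf x) c
        have h2 : Lim (fun n z => c * φ x n z) (c • f x : LR) (toLC (c • x)) := by
          refine h1.s1_congr ?_ ?_
          · filter_upwards [Lp.coeFn_smul c (f x)] with z hz
            rw [hz]; rfl
          · filter_upwards [Lp.coeFn_smul c (toLC x)] with z hz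
            rw [map_smul, hz]; rfl
        exact b1_unique (fun n => (hφ (c • x) n).1)
          (fun n => (hφ x n).1.s1_smul c) (hf (c • x)) h2 rfl }
  refine ⟨fl.mkContinuous 1 ?_, ?_⟩
  · intro x
    have h1 := b1_bound (fun n => (hφ x n).1) (hf x)
    rw [one_mul]
    apply le_of_sq_le_sq _ (norm_nonneg _)
    have h2 : ‖toLC x‖ = ‖x‖ := toLC.norm_map x
    rw [h2] at h1
    have := sq_nonneg ‖x‖
    show ‖f x‖ ^ 2 ≤ ‖x‖ ^ 2
    linarith
  · intro x
    exact ⟨φ x, hφ x, hf x⟩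

/-- the underlying function -/
noncomputable def fn : HH →L[ℝ] LR := Classical.choose exists_fn

theorem b1_fn_spec (x : HH) : ∃ φ : ℕ → ℂ → ℝ,
    (∀ n, Tst DD (φ n) ∧ Rot (φ n)) ∧ Lim φ (fn x) (toLC x : ℂ → ℂ) :=
  Classical.choose_spec exists_fn x

/-- the gradient -/
noncomputable def gr (x : HH) : ℂ → ℂ := (toLC x : ℂ → ℂ)

theorem V_approx {Ω : Set ℂ} (hD : Ω ⊆ DD) {x : HH} (hx : x ∈ V Ω) : W1 Ω (fn x) (gr x) := by
  obtain ⟨v, φ, hφ, hlim⟩ := b1_exists_lim hD (x := toLC x) hx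
  obtain ⟨ψ, hψ, hlim'⟩ := b1_fn_spec x
  have : v = fn x := b1_unique (fun n => (hφ n).1.s1_mono hD) (fun n => (hψ n).1) hlim hlim' rfl
  rw [this] at hlim
  exact ⟨φ, hφ, hlim⟩

theorem V_mk {Ω : Set ℂ} (hD : Ω ⊆ DD) {v : ℂ → ℝ} {G : ℂ → ℂ} (h : W1 Ω v G) :
    ∃ x ∈ V Ω, fn x =ᵐ[volume] v ∧ gr x =ᵐ[volume] G := by
  obtain ⟨φ, hφ, hlim⟩ := h
  have hm := hlim.s1_memLp (fun n => (hφ n).1)
  obtain ⟨t1, t2⟩ := hlim.s1_tendsto_lp (fun n => (hφ n).1)
  have hmem : ∀ Ω' : Set ℂ, Ω ⊆ Ω' → hm.2.toLp G ∈ VV Ω' := by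
    intro Ω' hΩ'
    have : hm.2.toLp G ∈ closure (gsub Ω' : Set LC) := by
      refine mem_closure_of_tendsto t2 (Eventually.of_forall fun n => ?_)
      exact ⟨φ n, (hφ n).1.s1_mono hΩ', (hφ n).2, MemLp.coeFn_toLp _⟩
    exact this
  have hDx := hmem DD hD
  refine ⟨ofLC (hm.2.toLp G) hDx, hmem Ω (subset_refl _), ?_, hm.2.coeFn_toLp⟩
  obtain ⟨ψ, hψ, hlim'⟩ := b1_fn_spec (ofLC (hm.2.toLp G) hDx)
  have h1 : Lim φ (hm.1.toLp v) (hm.2.toLp G) :=
    hlim.s1_congr hm.1.coeFn_toLp.symm hm.2.coeFn_toLp.symm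
  have h2 := b1_unique (fun n => (hψ n).1) (fun n => (hφ n).1.s1_mono hD) hlim' h1 rfl
  rw [h2]
  exact hm.1.coeFn_toLp

/-- closability: the function determines the gradient -/
theorem W1_unique {Ω : Set ℂ} {v : ℂ → ℝ} {G G' : ℂ → ℂ} (h : W1 Ω v G) (h' : W1 Ω v G') :
    G =ᵐ[volume] G' := by
  obtain ⟨φ, hφ, hlim⟩ := h
  obtain ⟨ψ, hψ, hlim'⟩ := h'
  have h1 := Lim.s1_add (fun n => (hφ n).1.1) (fun n => contDiff_const.mul (hψ n).1.1) hlim
    (Lim.s1_smul (fun n => (hψ n).1.1) hlim' (-1))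
  have h2 := s1_closable (Ω := Ω) (fun n => (hφ n).1.s1_add ((hψ n).1.s1_smul (-1))) h1 (by
    filter_upwards with z
    show v z + (-1) * v z = 0
    ring)
  filter_upwards [h2] with z hz
  have : G z + (-1 : ℝ) • G' z = 0 := hz
  rw [neg_smul, one_smul] at this
  exact (sub_eq_zero.1 (by rw [sub_eq_add_neg]; exact this))

theorem fn_inj {x y : HH} (h : fn x =ᵐ[volume] fn y) : x = y := by
  obtain ⟨φ, hφ, hlim⟩ := b1_fn_spec x
  obtain ⟨ψ, hψ, hlim'⟩ := b1_fn_spec y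
  have h1 : W1 DD (fn y) (gr x) := ⟨φ, hφ, hlim.s1_congr h (ae_eq_refl _)⟩
  have h2 : W1 DD (fn y) (gr y) := ⟨ψ, hψ, hlim'⟩
  have h3 := W1_unique h1 h2
  apply toLC.injective
  exact Lp.ext h3

theorem b1_gsub_mono {Ω Ω' : Set ℂ} (h : Ω ⊆ Ω') : gsub Ω ≤ gsub Ω' := by
  rintro G ⟨φ, hφ, hR, hG⟩
  exact ⟨φ, hφ.s1_mono h, hR, hG⟩

theorem V_mono {Ω Ω' : Set ℂ} (h : Ω ⊆ Ω') : V Ω ≤ V Ω' := by
  intro x hx
  exact Submodule.topologicalClosure_mono (b1_gsub_mono h) hx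

theorem V_top : V DD = ⊤ := by
  rw [eq_top_iff]
  intro x _
  exact toLC_mem x

theorem inner_HH (x y : HH) : inner ℝ x y = ∫ z, inner ℝ (gr x z) (gr y z) := rfl

theorem norm_HH (x : HH) : ‖x‖ ^ 2 = ∫ z, ‖gr x z‖ ^ 2 := by
  rw [← real_inner_self_eq_norm_sq, inner_HH]
  simp only [real_inner_self_eq_norm_sq]

theorem inner_LR (x y : LR) : inner ℝ x y = ∫ z, x z * y z := by
  rw [L2.inner_def]
  congr 1
  funext z
  simp [mul_comm]

/-- Poincaré -/
theorem norm_fn (x : HH) : ‖fn x‖ ^ 2 ≤ 1 / 2 * ‖x‖ ^ 2 := by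
  obtain ⟨φ, hφ, hlim⟩ := b1_fn_spec x
  exact b1_bound (fun n => (hφ n).1) hlim

theorem fn_W1 (x : HH) : W1 DD (fn x) (gr x) := b1_fn_spec x

theorem b1_DD_open : IsOpen DD := by
  have h1 : IsOpen {z : ℂ | |z.re| < 1} := isOpen_lt (continuous_abs.comp continuous_re)
    continuous_const
  have h2 : IsOpen {z : ℂ | |z.im| < 1} := isOpen_lt (continuous_abs.comp continuous_im)
    continuous_const
  exact h1.inter h2

theorem b1_DD_I {z : ℂ} (hz : z ∈ DD) : I * z ∈ DD := by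
  obtain ⟨h1, h2⟩ := hz
  constructor
  · simpa using h2
  · simpa using h1

theorem fn_off (x : HH) : ∀ᵐ z, z ∉ DD → fn x z = 0 := by
  have := (W1_off b1_DD_open.measurableSet (fn_W1 x)).2.2
  filter_upwards [this] with z hz h
  exact (hz h).1

/-- `L⁴` embedding -/
theorem fn_l4 : ∃ C : ℝ, 0 < C ∧ ∀ x : HH, MemLp (fn x) 4 volume ∧
    ∫ z, (fn x z) ^ 4 ≤ C * ‖x‖ ^ 4 := by
  obtain ⟨C, hC, h⟩ := W1_l4
  refine ⟨C, hC, fun x => ?_⟩
  obtain ⟨h1, h2⟩ := h (fn x) (gr x) (fn_W1 x)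
  refine ⟨h1, h2.trans (le_of_eq ?_)⟩
  rw [← norm_HH]; ring

/-- orthogonal projection onto `V Ω` -/
noncomputable def P (Ω : Set ℂ) : HH →L[ℝ] HH := (V Ω).starProjection

theorem P_mem (Ω : Set ℂ) (x : HH) : P Ω x ∈ V Ω := by
  exact Submodule.starProjection_apply_mem (V Ω) x

theorem P_self_iff (Ω : Set ℂ) (x : HH) : P Ω x = x ↔ x ∈ V Ω := by
  exact Submodule.starProjection_eq_self_iff

theorem P_symm (Ω : Set ℂ) (x y : HH) : inner ℝ (P Ω x) y = inner ℝ x (P Ω y) := by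
  exact Submodule.inner_starProjection_left_eq_right (V Ω) x y

theorem P_idem (Ω : Set ℂ) : P Ω ∘L P Ω = P Ω := by
  ext x
  rw [ContinuousLinearMap.comp_apply]
  rw [(P_self_iff Ω (P Ω x)).2 (P_mem Ω x)]

theorem P_le {Ω Ω' : Set ℂ} (h : Ω ⊆ Ω') : P Ω' ∘L P Ω = P Ω := by
  ext x
  rw [ContinuousLinearMap.comp_apply]
  rw [(P_self_iff Ω' (P Ω x)).2 (V_mono h (P_mem Ω x))]

/-- weak equation in `V Ω` in terms of test functions -/
theorem eqn_iff {Ω : Set ℂ} (hΩ : IsOpen Ω) (hD : Ω ⊆ DD) (x : HH) {f : ℂ → ℝ}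
    (hf : MemLp f 2 (volume.restrict DD)) :
    EqnS Ω (gr x) f ↔ ∀ y ∈ V Ω, inner ℝ x y = ∫ z, f z * fn y z := by
  have hg : MemLp (gr x) 2 volume := Lp.memLp (toLC x)
  constructor
  · intro h y hy
    have hW := V_approx hD hy
    have h1 := EqnS_test hΩ hD (hg.restrict Ω) (hf.mono_measure (Measure.restrict_mono_set _ hD))
      h hW
    have hoff := (W1_off hΩ.measurableSet hW).2.2
    rw [inner_HH]
    rw [setIntegral_eq_integral_of_ae_compl_eq_zero, setIntegral_eq_integral_of_ae_compl_eq_zero]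
      at h1
    · exact h1
    · filter_upwards [hoff] with z hz h2
      rw [(hz h2).1, mul_zero]
    · filter_upwards [hoff] with z hz h2
      rw [(hz h2).2, inner_zero_right]
  · intro h ζ hζ hR
    obtain ⟨y, hy, h1, h2⟩ := V_mk hD (v := ζ) (G := gradient ζ) ⟨fun _ => ζ, fun _ => ⟨hζ, hR⟩,
      hζ.1.continuous.aestronglyMeasurable, (s1_grad_continuous hζ.1).aestronglyMeasurable,
      by simp, by simp⟩
    have h3 := h y hy
    rw [inner_HH] at h3
    have e1 : ∫ z, inner ℝ (gr x z) (gr y z) = ∫ z, inner ℝ (gr x z) (gradient ζ z) := by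
      apply integral_congr_ae
      filter_upwards [h2] with z hz
      rw [hz]
    have e2 : ∫ z, f z * fn y z = ∫ z, f z * ζ z := by
      apply integral_congr_ae
      filter_upwards [h1] with z hz
      rw [hz]
    rw [← e1, ← e2, h3]

/-- solution operator: `-Δ w = g` in `H` -/
theorem exists_K {g : ℂ → ℝ} (hg : MemLp g 2 (volume.restrict DD)) :
    ∃ x : HH, (∀ y, inner ℝ x y = ∫ z in DD, g z * fn y z) ∧
      ((∀ᵐ z, z ∈ DD → 0 ≤ g z) → ∀ᵐ z, 0 ≤ fn x z) := by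
  have hDm : MeasurableSet DD := b1_DD_open.measurableSet
  have hgD : MemLp (indicator DD g) 2 volume := (memLp_indicator_iff_restrict hDm).2 hg
  set x : HH := (InnerProductSpace.toDual ℝ HH).symm
    ((innerSL ℝ (hgD.toLp (indicator DD g) : LR)) ∘L fn) with hx
  have hxy : ∀ y, inner ℝ x y = ∫ z in DD, g z * fn y z := by
    intro y
    rw [hx, InnerProductSpace.toDual_symm_apply]
    show inner ℝ (hgD.toLp (indicator DD g) : LR) (fn y) = _
    rw [inner_LR, ← integral_indicator hDm]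
    apply integral_congr_ae
    filter_upwards [hgD.coeFn_toLp] with z hz
    rw [hz]
    by_cases h : z ∈ DD
    · rw [indicator_of_mem h, indicator_of_mem h]
    · rw [indicator_of_notMem h, indicator_of_notMem h, zero_mul]
  refine ⟨x, hxy, ?_⟩
  intro hpos
  obtain ⟨φ, hφ, hlim⟩ := b1_fn_spec x
  have hW : W1 DD (fun z => (-1) * fn x z) (fun z => (-1 : ℝ) • gr x z) :=
    ⟨fun n z => (-1) * φ n z, fun n => ⟨(hφ n).1.s1_smul (-1), (hφ n).2.s1_smul (-1)⟩,
      Lim.s1_smul (fun n => (hφ n).1.1) hlim (-1)⟩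
  have hsub : SubS DD (fun z => (-1 : ℝ) • gr x z) (fun z => - g z) := by
    intro ζ hζ hR _
    obtain ⟨y, hy, h1, h2⟩ := V_mk (subset_refl DD) (v := ζ) (G := gradient ζ)
      ⟨fun _ => ζ, fun _ => ⟨hζ, hR⟩,
      hζ.1.continuous.aestronglyMeasurable, (s1_grad_continuous hζ.1).aestronglyMeasurable,
      by simp, by simp⟩
    have h3 := hxy y
    rw [inner_HH] at h3
    have e1 : ∫ z, inner ℝ (gr x z) (gr y z) = ∫ z, inner ℝ (gr x z) (gradient ζ z) := by
      apply integral_congr_ae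
      filter_upwards [h2] with z hz
      rw [hz]
    have e2 : ∫ z in DD, g z * fn y z = ∫ z, g z * ζ z := by
      rw [← integral_indicator hDm]
      apply integral_congr_ae
      filter_upwards [h1] with z hz
      by_cases h : z ∈ DD
      · rw [indicator_of_mem h, hz]
      · rw [indicator_of_notMem h, image_eq_zero_of_notMem_tsupport (fun h' => h (hζ.2.2 h')),
          mul_zero]
    have e3 : ∫ z, inner ℝ ((-1 : ℝ) • gr x z) (gradient ζ z) =
        - ∫ z, inner ℝ (gr x z) (gradient ζ z) := by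
      rw [← integral_neg]
      congr 1; funext z
      rw [inner_smul_left]; simp
    have e4 : ∫ z, - g z * ζ z = - ∫ z, g z * ζ z := by
      rw [← integral_neg]
      congr 1; funext z; ring
    rw [e3, e4, ← e1, ← e2, h3]
  have hsup : SupS DD (gradient (fun _ : ℂ => (0 : ℝ))) (fun _ => (0 : ℝ)) := by
    intro ζ _ _ _
    simp [s1_grad_zero]
  have hcomp := comp_weak b1_DD_open (subset_refl DD) (fun z hz => b1_DD_I hz)
    (ψ := fun _ => (0 : ℝ)) (g := fun _ => (0 : ℝ)) hW hg.neg hsub contDiffOn_const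
    (fun _ _ => le_refl _) (fun _ _ => rfl) continuousOn_const hsup (by
      filter_upwards [hpos] with z hz h
      have := hz h
      show - g z ≤ 0
      linarith)
  filter_upwards [hcomp, fn_off x] with z h1 h2
  by_cases h : z ∈ DD
  · have := h1 h
    linarith
  · rw [h2 h]

end Pool.Agent.H87.LE
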