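import Pool.Agent.H87.LE.A13_Cut
import Pool.Agent.H87.LE.B01_Space

open MeasureTheory Complex Set Filter Topology
open scoped ContDiff Laplacian

namespace Pool.Agent.H87.LE

/-! # B03: finite sets have capacity zero; convergence of projections -/

section hilbert

variable {H : Type*} [NormedAddCommGroup H] [InnerProductSpace ℝ H] [CompleteSpace H]

omit [CompleteSpace H] in
theorem b03_contr {U Y : Submodule ℝ H} [U.HasOrthogonalProjection] [Y.HasOrthogonalProjection]
    (h : U ≤ Y) (z : H) : ‖Y.starProjection z - U.starProjection z‖ ≤ ‖z‖ := by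
  have e : U.starProjection z = U.starProjection (Y.starProjection z) := by
    have := Submodule.starProjection_comp_starProjection_of_le h
    exact (congrArg (fun f : H →L[ℝ] H => f z) this).symm
  have e2 : Y.starProjection z - U.starProjection z = Uᗮ.starProjection (Y.starProjection z) := by
    rw [e]
    have := Submodule.starProjection_add_starProjection_orthogonal (K := U) (Y.starProjection z)
    rw [sub_eq_iff_eq_add]
    rw [add_comm]
    exact this.symm
  rw [e2]
  exact (Submodule.norm_starProjection_apply_le _ _).trans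
    (Submodule.norm_starProjection_apply_le _ _)

omit [CompleteSpace H] in
theorem b03_nest {U' U Y Y' : Submodule ℝ H} [U.HasOrthogonalProjection]
    [Y.HasOrthogonalProjection] [U'.HasOrthogonalProjection] [Y'.HasOrthogonalProjection]
    (h1 : U' ≤ U) (h2 : U ≤ Y) (h3 : Y ≤ Y') (x : H) :
    ‖Y.starProjection x - U.starProjection x‖ ≤ ‖Y'.starProjection x - U'.starProjection x‖ := by
  have cmp : ∀ {A B : Submodule ℝ H} [A.HasOrthogonalProjection] [B.HasOrthogonalProjection]
      (h : A ≤ B) (z : H), A.starProjection (B.starProjection z) = A.starProjection z := by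
    intro A B _ _ h z
    have := Submodule.starProjection_comp_starProjection_of_le h
    exact (congrArg (fun f : H →L[ℝ] H => f z) this)
  have fix : ∀ {A B : Submodule ℝ H} [A.HasOrthogonalProjection] [B.HasOrthogonalProjection]
      (h : A ≤ B) (z : H), B.starProjection (A.starProjection z) = A.starProjection z := by
    intro A B _ _ h z
    exact Submodule.starProjection_eq_self_iff.2 (h (Submodule.starProjection_apply_mem A z))
  have e : Y.starProjection x - U.starProjection x =
      Y.starProjection (Y'.starProjection x - U'.starProjection x) -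
      U.starProjection (Y'.starProjection x - U'.starProjection x) := by
    rw [map_sub, map_sub, cmp h3, cmp (h2.trans h3), fix (h1.trans h2), fix h1]
    abel
  rw [e]
  exact b03_contr h2 _

/-- for a decreasing sequence the projections converge to an element of the intersection -/
theorem b03_decr {A : ℕ → Submodule ℝ H} [∀ n, (A n).HasOrthogonalProjection]
    (hcl : ∀ n, IsClosed (A n : Set H)) (hA : Antitone A) (x : H) :
    ∃ y, (∀ n, y ∈ A n) ∧ Tendsto (fun n => (A n).starProjection x) atTop (𝓝 y) := by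
  have hU : Monotone (fun n => (A n)ᗮ) := fun m n h => Submodule.orthogonal_le (hA h)
  have : CompleteSpace ↥((⨆ n, (A n)ᗮ).topologicalClosure) :=
    (Submodule.isClosed_topologicalClosure _).completeSpace_coe
  have h1 := Submodule.starProjection_tendsto_closure_iSup (fun n => (A n)ᗮ) hU x
  have h2 : ∀ n, (A n).starProjection x = x - ((A n)ᗮ).starProjection x := by
    intro n
    rw [eq_sub_iff_add_eq]
    exact Submodule.starProjection_add_starProjection_orthogonal x
  have h3 : Tendsto (fun n => (A n).starProjection x) atTop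
      (𝓝 (x - ((⨆ n, (A n)ᗮ).topologicalClosure).starProjection x)) := by
    simp_rw [h2]
    exact h1.const_sub x
  refine ⟨_, fun n => ?_, h3⟩
  apply (hcl n).mem_of_tendsto h3
  filter_upwards [eventually_ge_atTop n] with m hm
  exact hA hm (Submodule.starProjection_apply_mem _ _)

end hilbert

section cut

theorem b03_grad_sub (f : ℂ → ℝ) (p z : ℂ) :
    gradient (fun w => f (w - p)) z = gradient f (z - p) := by
  rw [a16_grad_eq, a16_grad_eq, fderiv_comp_sub]

theorem b03_grad_prod {χ : ℂ → ℝ} (h : ContDiff ℝ ∞ χ) (h01 : ∀ z, 0 ≤ χ z ∧ χ z ≤ 1)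
    (S : Finset ℂ) (z : ℂ) :
    ‖gradient (fun w => ∏ p ∈ S, χ (w - p)) z‖ ≤ ∑ p ∈ S, ‖gradient χ (z - p)‖ := by
  induction S using Finset.induction_on with
  | empty =>
    simp [gradient]
  | insert p S hp ih =>
    have hd : ∀ q : ℂ, ContDiff ℝ ∞ (fun w => χ (w - q)) := fun q => by fun_prop
    have h1 : DifferentiableAt ℝ (fun w => χ (w - p)) z :=
      (hd p).contDiffAt.differentiableAt (by simp)
    have h2 : DifferentiableAt ℝ (fun w => ∏ q ∈ S, χ (w - q)) z :=
      (ContDiff.contDiffAt (contDiff_prod fun q _ => hd q)).differentiableAt (by simp)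
    have e : (fun w => ∏ q ∈ insert p S, χ (w - q)) =
        fun w => χ (w - p) * ∏ q ∈ S, χ (w - q) := by
      funext w
      rw [Finset.prod_insert hp]
    rw [e, a16_grad_mul h1 h2, Finset.sum_insert hp, b03_grad_sub]
    have hP0 : 0 ≤ ∏ q ∈ S, χ (z - q) := Finset.prod_nonneg fun q _ => (h01 _).1
    have hP1 : ∏ q ∈ S, χ (z - q) ≤ 1 := Finset.prod_le_one (fun q _ => (h01 _).1) fun q _ => (h01 _).2
    refine (norm_add_le _ _).trans ?_
    rw [norm_smul, norm_smul, Real.norm_eq_abs, Real.norm_eq_abs, abs_of_nonneg (h01 _).1,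
      abs_of_nonneg hP0, add_comm]
    have := mul_le_mul (h01 (z - p)).2 ih (norm_nonneg _) zero_le_one
    have h3 := mul_le_mul_of_nonneg_right hP1 (norm_nonneg (gradient χ (z - p)))
    linarith

/-- a sequence of rotation invariant cutoffs near a finite set -/
theorem b03_seq {F : Set ℂ} (hF : F.Finite) (hFI : ∀ z, I * z ∈ F ↔ z ∈ F) :
    ∃ χ : ℕ → ℂ → ℝ, (∀ n, ContDiff ℝ ∞ (χ n) ∧ Rot (χ n) ∧ (∀ z, 0 ≤ χ n z ∧ χ n z ≤ 1) ∧
      ∃ r > 0, ∀ z ∈ Metric.thickening r F, χ n z = 0) ∧
      (∀ z, z ∉ F → ∀ᶠ n in atTop, χ n z = 1) ∧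
      Tendsto (fun n : ℕ => ENNReal.ofReal (n + 1) * eLpNorm (gradient (χ n)) 2 volume)
        atTop (𝓝 0) := by
  choose χ0 h1 h2 h3 h4 h5 h6 h7 using fun n : ℕ => log_cutoff (η := 1 / ((n : ℝ) + 1) ^ 4) (by positivity)
  set S := hF.toFinset with hS
  have hmS : ∀ z, z ∈ S ↔ z ∈ F := fun z => by simp [hS]
  have nI : ∀ z : ℂ, ‖I * z‖ = ‖z‖ := fun z => by simp
  refine ⟨fun n z => ∏ p ∈ S, χ0 n (z - p), fun n => ⟨?_, ?_, ?_, ?_⟩, ?_, ?_⟩
  · exact contDiff_prod fun p _ => (h1 n).comp (contDiff_id.sub contDiff_const)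
  · intro z
    simp only
    refine Finset.prod_bij' (fun p _ => -I * p) (fun p _ => I * p) ?_ ?_ ?_ ?_ ?_
    · intro p hp
      rw [hmS] at hp ⊢
      rw [← hFI]
      convert hp using 1
      rw [← mul_assoc]
      simp
    · intro p hp
      rw [hmS] at hp ⊢
      rwa [hFI]
    · intro p _
      rw [← mul_assoc]
      simp
    · intro p _
      rw [← mul_assoc]
      simp
    · intro p _
      apply h5
      rw [← nI (z - -I * p)]
      congr 1
      rw [mul_sub, ← mul_assoc]
      simp
  · intro z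
    exact ⟨Finset.prod_nonneg fun p _ => (h2 n _).1,
      Finset.prod_le_one (fun p _ => (h2 n _).1) fun p _ => (h2 n _).2⟩
  · obtain ⟨r, hr, hr2⟩ := h3 n
    refine ⟨r, hr, fun z hz => ?_⟩
    rw [Metric.mem_thickening_iff] at hz
    obtain ⟨p, hp, hzp⟩ := hz
    apply Finset.prod_eq_zero ((hmS p).2 hp)
    apply hr2
    rw [← dist_eq_norm]
    exact hzp.le
  · intro z hz
    have : ∀ p ∈ S, ∀ᶠ n : ℕ in atTop, χ0 n (z - p) = 1 := by
      intro p hp
      have hzp : 0 < ‖z - p‖ := by
        rw [norm_pos_iff, sub_ne_zero]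
        rintro rfl
        exact hz ((hmS z).1 hp)
      have ht : Tendsto (fun n : ℕ => 1 / ((n : ℝ) + 1) ^ 4) atTop (𝓝 0) := by
        have := (tendsto_one_div_add_atTop_nhds_zero_nat (𝕜 := ℝ)).pow 4
        simpa using this
      filter_upwards [ht.eventually (gt_mem_nhds hzp)] with n hn
      exact h4 n _ hn.le
    have h := (Filter.eventually_all_finset S).2 this
    filter_upwards [h] with n hn
    exact Finset.prod_eq_one hn
  · have hb : ∀ n : ℕ, eLpNorm (gradient (χ0 n)) 2 volume ≤ ENNReal.ofReal (1 / ((n : ℝ) + 1) ^ 2) := by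
      intro n
      have hc := a16_grad_cont (h1 n)
      rw [eLpNorm_eq_lintegral_rpow_enorm_toReal (by norm_num) (by norm_num)]
      have e : ∫⁻ z, ‖gradient (χ0 n) z‖ₑ ^ (2 : ENNReal).toReal =
          ENNReal.ofReal (∫ z, ‖gradient (χ0 n) z‖ ^ 2) := by
        rw [ofReal_integral_eq_lintegral_ofReal (h6 n) (Eventually.of_forall fun z => by positivity)]
        congr 1
        funext z
        rw [← ofReal_norm, ENNReal.ofReal_pow (norm_nonneg _)]
        simp
      rw [e]
      have h8 := ENNReal.ofReal_le_ofReal (h7 n)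
      refine (ENNReal.rpow_le_rpow h8 (by positivity)).trans ?_
      rw [ENNReal.ofReal_rpow_of_nonneg (by positivity) (by positivity)]
      apply ENNReal.ofReal_le_ofReal
      have e3 : (1 / ((n : ℝ) + 1) ^ 4) = (1 / ((n : ℝ) + 1) ^ 2) ^ 2 := by
        rw [div_pow, one_pow, ← pow_mul]
      rw [e3]
      have : (1 / (2 : ENNReal).toReal) = 1 / 2 := by simp
      rw [this, ← Real.sqrt_eq_rpow, Real.sqrt_sq (by positivity)]
    have hb2 : ∀ n : ℕ, eLpNorm (gradient (fun z => ∏ p ∈ S, χ0 n (z - p))) 2 volume ≤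
        S.card * ENNReal.ofReal (1 / ((n : ℝ) + 1) ^ 2) := by
      intro n
      have hc := a16_grad_cont (h1 n)
      have hm : ∀ p ∈ S, AEStronglyMeasurable (fun z => ‖gradient (χ0 n) (z - p)‖) volume :=
        fun p _ => (hc.comp (continuous_id.sub continuous_const)).norm.aestronglyMeasurable
      calc eLpNorm (gradient (fun z => ∏ p ∈ S, χ0 n (z - p))) 2 volume
          ≤ eLpNorm (fun z => ∑ p ∈ S, ‖gradient (χ0 n) (z - p)‖) 2 volume := by
            apply eLpNorm_mono_real
            intro z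
            exact b03_grad_prod (h1 n) (h2 n) S z
        _ ≤ ∑ p ∈ S, eLpNorm (fun z => ‖gradient (χ0 n) (z - p)‖) 2 volume := by
            have := eLpNorm_sum_le hm (p := 2) (by norm_num)
            refine le_trans (le_of_eq ?_) this
            congr 1
            funext z
            simp
        _ = ∑ p ∈ S, eLpNorm (gradient (χ0 n)) 2 volume := by
            apply Finset.sum_congr rfl
            intro p _
            rw [eLpNorm_norm (fun z => gradient (χ0 n) (z - p))]
            exact eLpNorm_comp_measurePreserving hc.aestronglyMeasurable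
              (measurePreserving_sub_right volume p)
        _ ≤ ∑ p ∈ S, ENNReal.ofReal (1 / ((n : ℝ) + 1) ^ 2) := Finset.sum_le_sum fun p _ => hb n
        _ = S.card * ENNReal.ofReal (1 / ((n : ℝ) + 1) ^ 2) := by simp
    have hb3 : ∀ n : ℕ, ENNReal.ofReal (n + 1) *
        eLpNorm (gradient (fun z => ∏ p ∈ S, χ0 n (z - p))) 2 volume ≤
        S.card * ENNReal.ofReal (1 / ((n : ℝ) + 1)) := by
      intro n
      refine (mul_le_mul_right (hb2 n) _).trans (le_of_eq ?_)
      rw [mul_left_comm, ← ENNReal.ofReal_mul (by positivity)]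
      congr 2
      field_simp
    have ht : Tendsto (fun n : ℕ => (S.card : ENNReal) * ENNReal.ofReal (1 / ((n : ℝ) + 1)))
        atTop (𝓝 0) := by
      have h0 := ENNReal.tendsto_ofReal (tendsto_one_div_add_atTop_nhds_zero_nat (𝕜 := ℝ))
      rw [ENNReal.ofReal_zero] at h0
      have := ENNReal.Tendsto.const_mul h0 (a := (S.card : ENNReal)) (Or.inr (by simp))
      simpa using this
    exact tendsto_of_tendsto_of_tendsto_of_le_of_le tendsto_const_nhds ht (fun _ => zero_le) hb3

end cut

theorem b03_DD_open : IsOpen DD := by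
  have h1 : Continuous fun z : ℂ => |z.re| := Complex.continuous_re.abs
  have h2 : Continuous fun z : ℂ => |z.im| := Complex.continuous_im.abs
  exact (isOpen_lt h1 continuous_const).inter (isOpen_lt h2 continuous_const)

theorem b03_A_open {E F : Set ℂ} (hE : IsClosed E) (η : ℝ) :
    IsOpen (DD \ (E \ Metric.thickening η F)) := by
  have : IsClosed (E \ Metric.thickening η F) := hE.inter Metric.isOpen_thickening.isClosed_compl
  exact b03_DD_open.inter this.isOpen_compl

/-- the bounded smooth truncation `t ↦ (n+1) sin (t/(n+1))` -/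
noncomputable def b03_F (n : ℕ) (t : ℝ) : ℝ := ((n : ℝ) + 1) * Real.sin (t / (n + 1))

theorem b03_F_deriv (n : ℕ) (t : ℝ) : deriv (b03_F n) t = Real.cos (t / (n + 1)) := by
  have h1 : HasDerivAt (fun t : ℝ => t / ((n : ℝ) + 1)) (1 / ((n : ℝ) + 1)) t :=
    (hasDerivAt_id t).div_const _
  have h2 := (h1.sin).const_mul ((n : ℝ) + 1)
  have h3 : deriv (b03_F n) t = (n + 1) * (Real.cos (t / (n + 1)) * (1 / (n + 1))) := h2.deriv
  rw [h3]
  field_simp

theorem b03_F_smooth (n : ℕ) : ContDiff ℝ ∞ (b03_F n) := by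
  unfold b03_F
  exact contDiff_const.mul (Real.contDiff_sin.comp (contDiff_id.div_const _))

theorem b03_F_zero (n : ℕ) : b03_F n 0 = 0 := by simp [b03_F]

theorem b03_F_le (n : ℕ) (t : ℝ) : |b03_F n t| ≤ n + 1 := by
  unfold b03_F
  rw [abs_mul, abs_of_pos (by positivity : (0 : ℝ) < n + 1)]
  have := Real.abs_sin_le_one (t / (n + 1))
  nlinarith [(by positivity : (0 : ℝ) < n + 1)]

/-- elements of all the larger spaces are approximated by elements of the smaller ones -/
theorem b03_approx {E F : Set ℂ} (hE : IsClosed E) (hF : F.Finite)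
    (hFI : ∀ z, I * z ∈ F ↔ z ∈ F) (x : HH)
    (hx : ∀ η > 0, x ∈ V (DD \ (E \ Metric.thickening η F))) {κ : ℝ} (hκ : 0 < κ) :
    ∃ η > 0, ∃ b ∈ V (DD \ (E ∪ Metric.cthickening η F)), ‖b - x‖ < κ := by
  obtain ⟨χ, h1, h2, h3⟩ := b03_seq hF hFI
  have step : ∀ n : ℕ, ∃ η > 0, ∃ b ∈ V (DD \ (E ∪ Metric.cthickening η F)),
      gr b =ᵐ[volume] fun z => b03_F n (fn x z) • gradient (χ n) z +
        χ n z • (deriv (b03_F n) (fn x z) • gr x z) := by
    intro n
    obtain ⟨hc, hR, h01, r, hr, hr0⟩ := h1 n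
    have hr2 : (0 : ℝ) < r / 2 := by positivity
    set A := DD \ (E \ Metric.thickening (r / 2) F) with hA
    set B := DD \ (E ∪ Metric.cthickening (r / 2) F) with hB
    have hAo : IsOpen A := b03_A_open hE _
    obtain ⟨φ, hφ, hl⟩ := V_approx (sdiff_subset : A ⊆ DD) (hx _ hr2)
    obtain ⟨c1, c2⟩ := chain_lim hAo (fun k => (hφ k).1) hl (b03_F_smooth n) (b03_F_zero n)
      (C := 1) (fun t => by rw [b03_F_deriv]; exact Real.abs_cos_le_one _)
    have hs : tsupport (χ n) ∩ A ⊆ B := by
      rintro z ⟨hz1, hz2⟩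
      have hz3 : z ∉ Metric.thickening r F := by
        intro hz
        have hsub : tsupport (χ n) ⊆ (Metric.thickening r F)ᶜ := by
          apply closure_minimal _ Metric.isOpen_thickening.isClosed_compl
          intro w hw hw2
          exact hw (hr0 w hw2)
        exact hsub hz1 hz
      refine ⟨hz2.1, ?_⟩
      rintro (hzE | hzT)
      · apply hz2.2
        refine ⟨hzE, fun h => hz3 ?_⟩
        exact Metric.thickening_mono (by linarith) F h
      · exact hz3 (Metric.cthickening_subset_thickening' hr (by linarith) F hzT)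
    obtain ⟨m1, m2⟩ := mul_lim hAo (sdiff_subset : A ⊆ DD) c1 c2 hc hs
    have hW : W1 B (fun z => χ n z * b03_F n (fn x z)) (fun z => b03_F n (fn x z) •
        gradient (χ n) z + χ n z • (deriv (b03_F n) (fn x z) • gr x z)) := by
      refine ⟨_, fun k => ⟨m1 k, fun z => ?_⟩, m2⟩
      rw [hR z, (hφ k).2 z]
    obtain ⟨b, hb, -, hb2⟩ := V_mk (sdiff_subset : B ⊆ DD) hW
    exact ⟨r / 2, hr2, b, hb, hb2⟩
  choose η hη b hb hgb using step
  have hfm : AEStronglyMeasurable (fn x) volume := Lp.aestronglyMeasurable _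
  have hgm : MemLp (gr x) 2 volume := Lp.memLp _
  have hgr : ∀ n, gr (b n - x) =ᵐ[volume] fun z => b03_F n (fn x z) • gradient (χ n) z +
      (χ n z * deriv (b03_F n) (fn x z) - 1) • gr x z := by
    intro n
    have e1 : gr (b n - x) =ᵐ[volume] gr (b n) - gr x := Lp.coeFn_sub _ _
    filter_upwards [e1, hgb n] with z hz1 hz2
    rw [hz1, Pi.sub_apply, hz2, sub_smul, mul_smul, one_smul]
    abel
  have hdm : ∀ n, Continuous (deriv (b03_F n)) := fun n =>
    (b03_F_smooth n).continuous_deriv (by simp)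
  have m1 : ∀ n, AEStronglyMeasurable (fun z => b03_F n (fn x z) • gradient (χ n) z) volume :=
    fun n => ((b03_F_smooth n).continuous.comp_aestronglyMeasurable hfm).smul
      (a16_grad_cont (h1 n).1).aestronglyMeasurable
  have m2 : ∀ n, AEStronglyMeasurable
      (fun z => (χ n z * deriv (b03_F n) (fn x z) - 1) • gr x z) volume := fun n =>
    ((((h1 n).1.continuous.aestronglyMeasurable).mul
      ((hdm n).comp_aestronglyMeasurable hfm)).sub aestronglyMeasurable_const).smul hgm.1
  have t1 : Tendsto (fun n => eLpNorm (fun z => b03_F n (fn x z) • gradient (χ n) z) 2 volume)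
      atTop (𝓝 0) := by
    refine tendsto_of_tendsto_of_tendsto_of_le_of_le tendsto_const_nhds h3 (fun _ => zero_le)
      fun n => ?_
    apply eLpNorm_le_mul_eLpNorm_of_ae_le_mul
    refine Eventually.of_forall fun z => ?_
    rw [norm_smul]
    exact mul_le_mul_of_nonneg_right (b03_F_le n _) (norm_nonneg _)
  have t2 : Tendsto (fun n => eLpNorm
      (fun z => (χ n z * deriv (b03_F n) (fn x z) - 1) • gr x z) 2 volume) atTop (𝓝 0) := by
    apply a16_dom (b := fun z => 2 * ‖gr x z‖) m2 (hgm.norm.const_mul _)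
    · intro n
      refine Eventually.of_forall fun z => ?_
      rw [norm_smul]
      apply mul_le_mul_of_nonneg_right _ (norm_nonneg _)
      rw [b03_F_deriv, Real.norm_eq_abs]
      have hc1 := Real.abs_cos_le_one (fn x z / (n + 1))
      have hc2 := (h1 n).2.2.1 z
      have : |χ n z * Real.cos (fn x z / (n + 1))| ≤ 1 := by
        rw [abs_mul, abs_of_nonneg hc2.1]
        exact mul_le_one₀ hc2.2 (abs_nonneg _) hc1
      calc |χ n z * Real.cos (fn x z / (n + 1)) - 1|
          ≤ |χ n z * Real.cos (fn x z / (n + 1))| + |1| := abs_sub _ _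
        _ ≤ 2 := by rw [abs_one]; linarith
    · have hF0 : ∀ᵐ z : ℂ, z ∉ F := by
        rw [ae_iff]
        simp only [not_not]
        exact hF.measure_zero volume
      filter_upwards [hF0] with z hz
      have l1 : Tendsto (fun n : ℕ => deriv (b03_F n) (fn x z)) atTop (𝓝 1) := by
        simp_rw [b03_F_deriv]
        have : Tendsto (fun n : ℕ => fn x z / ((n : ℝ) + 1)) atTop (𝓝 0) := by
          have h := (tendsto_one_div_add_atTop_nhds_zero_nat (𝕜 := ℝ)).const_mul (fn x z)
          simpa [div_eq_mul_inv] using h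
        have h := (Real.continuous_cos.tendsto 0).comp this
        simpa [Function.comp_def] using h
      have l2 : Tendsto (fun n : ℕ => χ n z) atTop (𝓝 1) := by
        apply tendsto_const_nhds.congr'
        filter_upwards [h2 z hz] with n hn
        exact hn.symm
      have l3 := ((l2.mul l1).sub_const 1).smul_const (gr x z)
      simpa using l3
  have t3 := a16_add m1 m2 t1 t2
  have t4 : Tendsto (fun n => ‖b n - x‖) atTop (𝓝 0) := by
    have e : ∀ n, ‖b n - x‖ = (eLpNorm (fun z => b03_F n (fn x z) • gradient (χ n) z +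
        (χ n z * deriv (b03_F n) (fn x z) - 1) • gr x z) 2 volume).toReal := by
      intro n
      rw [← eLpNorm_congr_ae (hgr n)]
      exact Lp.norm_def _
    simp_rw [e]
    have := (ENNReal.tendsto_toReal (by simp : (0 : ENNReal) ≠ ⊤)).comp t3
    simpa [Function.comp_def] using this
  obtain ⟨n, hn⟩ := (t4.eventually (gt_mem_nhds hκ)).exists
  exact ⟨η n, hη n, b n, hb n, hn⟩

/-- the sandwich closes: first truncate (`chain_lim` with bounded `F M`), then multiply with a
rotation invariant log cutoff vanishing near `F` -/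
theorem cap_lim {E F : Set ℂ} (hE : IsClosed E) (hF : F.Finite) (hEI : ∀ z, I * z ∈ E ↔ z ∈ E)
    (hFI : ∀ z, I * z ∈ F ↔ z ∈ F) (x : HH) :
    Tendsto (fun η : ℝ => ‖P (DD \ (E \ Metric.thickening η F)) x -
      P (DD \ (E ∪ Metric.cthickening η F)) x‖) (𝓝[>] 0) (𝓝 0) := by
  have hA : ∀ {η η' : ℝ}, η ≤ η' → DD \ (E \ Metric.thickening η F) ⊆
      DD \ (E \ Metric.thickening η' F) := fun h =>
    sdiff_subset_sdiff_right (sdiff_subset_sdiff_right (Metric.thickening_mono h F))
  have hB : ∀ {η η' : ℝ}, η ≤ η' → DD \ (E ∪ Metric.cthickening η' F) ⊆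
      DD \ (E ∪ Metric.cthickening η F) := fun h =>
    sdiff_subset_sdiff_right (union_subset_union_right _ (Metric.cthickening_mono h F))
  have hAB : ∀ η : ℝ, DD \ (E ∪ Metric.cthickening η F) ⊆ DD \ (E \ Metric.thickening η F) :=
    fun η => sdiff_subset_sdiff_right (sdiff_subset.trans subset_union_left)
  obtain ⟨y, hy, hty⟩ := b03_decr
    (A := fun n : ℕ => V (DD \ (E \ Metric.thickening (1 / ((n : ℝ) + 1)) F)))
    (fun n => V_closed _) (fun m n h => V_mono (hA (by
      apply one_div_le_one_div_of_le (by positivity)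
      have : (m : ℝ) ≤ n := by exact_mod_cast h
      linarith))) x
  have ht0 := tendsto_one_div_add_atTop_nhds_zero_nat (𝕜 := ℝ)
  have hyA : ∀ η > 0, y ∈ V (DD \ (E \ Metric.thickening η F)) := by
    intro η hη
    obtain ⟨n, hn⟩ := (ht0.eventually (gt_mem_nhds hη)).exists
    exact V_mono (hA hn.le) (hy n)
  rw [Metric.tendsto_nhds]
  intro κ hκ
  obtain ⟨η, hη, b, hb, hby⟩ := b03_approx hE hF hFI y hyA (half_pos hκ)
  have h1 : ∀ᶠ n : ℕ in atTop, 1 / ((n : ℝ) + 1) < η := ht0.eventually (gt_mem_nhds hη)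
  have h2 : ∀ᶠ n : ℕ in atTop,
      ‖(V (DD \ (E \ Metric.thickening (1 / ((n : ℝ) + 1)) F))).starProjection x - y‖ < κ / 2 := by
    have := (Metric.tendsto_nhds.1 hty) (κ / 2) (half_pos hκ)
    simpa [dist_eq_norm] using this
  obtain ⟨n, hn1, hn2⟩ := (h1.and h2).exists
  set ζ : ℝ := 1 / ((n : ℝ) + 1) with hζ
  have hζ0 : 0 < ζ := by positivity
  have hbB : b ∈ V (DD \ (E ∪ Metric.cthickening ζ F)) := V_mono (hB hn1.le) hb
  have hg : ‖P (DD \ (E \ Metric.thickening ζ F)) x - P (DD \ (E ∪ Metric.cthickening ζ F)) x‖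
      < κ := by
    set PA := P (DD \ (E \ Metric.thickening ζ F)) x with hPA
    have e1 : P (DD \ (E ∪ Metric.cthickening ζ F)) x =
        P (DD \ (E ∪ Metric.cthickening ζ F)) PA := by
      have := Submodule.starProjection_comp_starProjection_of_le (V_mono (hAB ζ))
      exact (congrArg (fun f : HH →L[ℝ] HH => f x) this).symm
    have e2 : ‖PA - P (DD \ (E ∪ Metric.cthickening ζ F)) PA‖ ≤ ‖PA - b‖ := by
      have := Submodule.starProjection_minimal
        (U := V (DD \ (E ∪ Metric.cthickening ζ F))) PA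
      unfold P
      rw [this]
      exact ciInf_le ⟨0, Set.forall_mem_range.mpr fun _ => norm_nonneg _⟩
        (⟨b, hbB⟩ : ↥(V (DD \ (E ∪ Metric.cthickening ζ F))))
    rw [e1]
    refine e2.trans_lt ?_
    calc ‖PA - b‖ = ‖(PA - y) - (b - y)‖ := by congr 1; abel
      _ ≤ ‖PA - y‖ + ‖b - y‖ := norm_sub_le _ _
      _ < κ / 2 + κ / 2 := add_lt_add hn2 hby
      _ = κ := by ring
  have hmem : Ioo (0 : ℝ) ζ ∈ 𝓝[>] (0 : ℝ) := Ioo_mem_nhdsGT hζ0
  filter_upwards [hmem] with ξ hξ
  rw [dist_zero_right, norm_norm]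
  refine lt_of_le_of_lt ?_ hg
  exact b03_nest (V_mono (hB hξ.2.le)) (V_mono (hAB ξ)) (V_mono (hA hξ.2.le)) x

/-- sandwiched projections -/
theorem sandwich {A B E E' : Set ℂ} (h1 : A ⊆ E) (h2 : E ⊆ B) (h3 : A ⊆ E') (h4 : E' ⊆ B) (x : HH) :
    ‖P (DD \ E) x - P (DD \ E') x‖ ≤ 2 * ‖P (DD \ A) x - P (DD \ B) x‖ := by
  have key : ∀ {C : Set ℂ}, A ⊆ C → C ⊆ B →
      ‖P (DD \ A) x - P (DD \ C) x‖ ≤ ‖P (DD \ A) x - P (DD \ B) x‖ := fun {C} ha hb =>
    b03_nest (V_mono (sdiff_subset_sdiff_right hb)) (V_mono (sdiff_subset_sdiff_right ha)) le_rfl x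
  have k1 := key h1 h2
  have k2 := key h3 h4
  calc ‖P (DD \ E) x - P (DD \ E') x‖
      = ‖(P (DD \ A) x - P (DD \ E') x) - (P (DD \ A) x - P (DD \ E) x)‖ := by congr 1; abel
    _ ≤ _ := norm_sub_le _ _
    _ ≤ 2 * ‖P (DD \ A) x - P (DD \ B) x‖ := by linarith

/-- closeness for all sets which agree with `E` outside small balls -/
theorem P_close {E F : Set ℂ} (hE : IsClosed E) (hF : F.Finite) (hEI : ∀ z, I * z ∈ E ↔ z ∈ E)
    (hFI : ∀ z, I * z ∈ F ↔ z ∈ F) (x : HH) {κ : ℝ} (hκ : 0 < κ) :
    ∃ η > 0, ∀ E' : Set ℂ, E \ Metric.thickening η F ⊆ E' → E' ⊆ E ∪ Metric.cthickening η F →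
      ‖P (DD \ E') x - P (DD \ E) x‖ ≤ κ := by
  have h := cap_lim hE hF hEI hFI x
  have h2 := (Metric.tendsto_nhds.1 h) (κ / 2) (half_pos hκ)
  have h3 := h2.and (self_mem_nhdsWithin : Ioi (0 : ℝ) ∈ 𝓝[>] (0 : ℝ))
  obtain ⟨η, hη, hη0⟩ := h3.exists
  rw [dist_zero_right, norm_norm] at hη
  refine ⟨η, hη0, fun E' h1 h4 => ?_⟩
  have := sandwich h1 h4 (sdiff_subset : E \ Metric.thickening η F ⊆ E)
    (subset_union_left : E ⊆ E ∪ Metric.cthickening η F) x
  linarith

theorem P_conv {E F : Set ℂ} (hE : IsClosed E) (hF : F.Finite) (hEI : ∀ z, I * z ∈ E ↔ z ∈ E)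
    (hFI : ∀ z, I * z ∈ F ↔ z ∈ F) {En : ℕ → Set ℂ}
    (hn : ∀ η > 0, ∀ᶠ n in atTop, E \ Metric.thickening η F ⊆ En n ∧
      En n ⊆ E ∪ Metric.cthickening η F) (x : HH) :
    Tendsto (fun n => P (DD \ En n) x) atTop (𝓝 (P (DD \ E) x)) := by
  rw [Metric.tendsto_nhds]
  intro κ hκ
  obtain ⟨η, hη, h⟩ := P_close hE hF hEI hFI x (half_pos hκ)
  filter_upwards [hn η hη] with n hn
  rw [dist_eq_norm]
  have := h (En n) hn.1 hn.2
  linarith

/-- points do not matter: `V` is the same for the punctured domain -/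
theorem V_point {E F : Set ℂ} (hE : IsClosed E) (hF : F.Finite) (hEI : ∀ z, I * z ∈ E ↔ z ∈ E)
    (hFI : ∀ z, I * z ∈ F ↔ z ∈ F) : V (DD \ (E ∪ F)) = V (DD \ E) := by
  apply le_antisymm
  · exact V_mono (sdiff_subset_sdiff_right subset_union_left)
  · intro x hx
    have e1 : P (DD \ E) x = x := (P_self_iff _ _).2 hx
    have e2 : P (DD \ (E ∪ F)) x = P (DD \ E) x := by
      rw [← sub_eq_zero, ← norm_le_zero_iff]
      apply le_of_forall_pos_le_add
      intro κ hκ
      rw [zero_add]
      obtain ⟨η, hη, h⟩ := P_close hE hF hEI hFI x hκ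
      exact h (E ∪ F) (sdiff_subset.trans subset_union_left)
        (union_subset_union_right _ (Metric.self_subset_cthickening F))
    rw [← P_self_iff, e2, e1]

end Pool.Agent.H87.LE
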