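import Pool.Agent.H87.LE.Base
import Pool.Agent.H10.LE.Schur

open MeasureTheory Complex Set Filter Topology
open scoped ContDiff Laplacian

namespace Pool.Agent.H87.LE

/-! # A7: abstract linear theory of the resonance function `m`
`A₀` has eigenvalues `5/2` (`e₁`), `1` (`e₂`) and form `≤ 5/8` on the complement. For self-adjoint `A`
with `‖A - A₀‖ ≤ 1/16`, `Π = ` projection onto `e₂^⊥`, `Π (1-A) Π` is invertible on `e₂^⊥` and
`m A` is the Schur complement of `1 - A`. -/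

variable {S : Type*} [NormedAddCommGroup S] [InnerProductSpace ℝ S] [CompleteSpace S]

structure Model (A₀ : S →L[ℝ] S) (e₁ e₂ : S) : Prop where
  sa : ∀ x y, inner ℝ (A₀ x) y = inner ℝ x (A₀ y)
  n1 : ‖e₁‖ = 1
  n2 : ‖e₂‖ = 1
  orth : inner ℝ e₁ e₂ = 0
  a1 : A₀ e₁ = (5 / 2 : ℝ) • e₁
  a2 : A₀ e₂ = e₂
  rest : ∀ z, inner ℝ z e₁ = 0 → inner ℝ z e₂ = 0 → inner ℝ (A₀ z) z ≤ 5 / 8 * ‖z‖ ^ 2

/-- self-adjoint operators near `A₀` -/
def Near (A₀ : S →L[ℝ] S) : Set (S →L[ℝ] S) :=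
  {A | (∀ x y, inner ℝ (A x) y = inner ℝ x (A y)) ∧ ‖A - A₀‖ ≤ 1 / 16}

/-- orthogonal projections as operators -/
def IsPr (P : S →L[ℝ] S) : Prop := P ∘L P = P ∧ ∀ x y, inner ℝ (P x) y = inner ℝ x (P y)

/-- the data of `H10/LE/Schur` attached to a model (trivial reflection) -/
noncomputable def Model.lin {A₀ : S →L[ℝ] S} {e₁ e₂ : S} (hM : Model A₀ e₁ e₂) :
    _root_.LE.Schur.Lin S where
  σ := ContinuousLinearMap.id ℝ S
  A := A₀
  e1 := e₁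
  e2 := e₂
  μ := 5 / 2
  σσ := fun _ => rfl
  σs := fun _ _ => rfl
  As := hM.sa
  ne1 := hM.n1
  ne2 := hM.n2
  e12 := hM.orth
  σe1 := rfl
  σe2 := rfl
  Ae1 := hM.a1
  Ae2 := hM.a2
  hμ := by norm_num
  hA := by
    intro y _ h1 h2
    apply hM.rest y
    · rw [real_inner_comm]; exact h1
    · rw [real_inner_comm]; exact h2

theorem Model.adm {A₀ : S →L[ℝ] S} {e₁ e₂ : S} (hM : Model A₀ e₁ e₂) {A : S →L[ℝ] S}
    (hA : A ∈ Near A₀) : hM.lin.Adm A where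
  symm := hA.1
  comm := fun _ => rfl
  close := fun x _ => by
    have h1 := (A - A₀).le_opNorm x
    have h2 := hA.2
    show ‖A x - A₀ x‖ ≤ 1 / 16 * ‖x‖
    refine h1.trans ?_
    gcongr

theorem IsPr.isProj {P : S →L[ℝ] S} (hP : IsPr P) : _root_.LE.LS.IsProj P where
  idem := fun x => by
    have := congrArg (fun A : S →L[ℝ] S => A x) hP.1
    simpa using this
  symm := hP.2

theorem near_bound {A₀ : S →L[ℝ] S} {e₁ e₂ : S} (hM : Model A₀ e₁ e₂) {A : S →L[ℝ] S}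
    (hA : A ∈ Near A₀) (x : S) (hx : inner ℝ x e₂ = 0) :
    1 / 4 * ‖x‖ ≤ ‖(x - A x) - (inner ℝ (x - A x) e₂ : ℝ) • e₂‖ := by
  have h := (hM.adm hA).low (x := x) rfl (by
    show inner ℝ e₂ x = 0
    rw [real_inner_comm]; exact hx)
  rw [_root_.LE.Schur.Lin.pi_apply] at h
  have h2 : inner ℝ (x - A x) e₂ = inner ℝ hM.lin.e2 (x - A x) := by
    rw [real_inner_comm]; rfl
  rw [h2]
  refine le_trans ?_ h
  have := norm_nonneg x
  linarith

theorem exists_m {A₀ : S →L[ℝ] S} {e₁ e₂ : S} (hM : Model A₀ e₁ e₂) :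
    ∃ (m : (S →L[ℝ] S) → ℝ) (C : ℝ), 0 < C ∧
      (∀ A ∈ Near A₀, ∀ B ∈ Near A₀, |m A - m B| ≤ C * ‖A - B‖) ∧
      (∀ A ∈ Near A₀, (m A = 0 ↔ ∃ φ, A φ = φ ∧ inner ℝ φ e₂ = 1)) ∧
      (∀ A ∈ Near A₀, ∀ φ, A φ = φ → inner ℝ φ e₂ = 1 → ‖φ - e₂‖ ≤ C * ‖A - A₀‖) ∧
      (∀ A ∈ Near A₀, ∀ B ∈ Near A₀, ∀ φ ψ, A φ = φ → B ψ = ψ → inner ℝ φ e₂ = 1 →
        inner ℝ ψ e₂ = 1 → ‖φ - ψ‖ ≤ C * ‖A - B‖) ∧
      -- monotonicity in the projection
      (∀ T : S →L[ℝ] S, (∀ x y, inner ℝ (T x) y = inner ℝ x (T y)) →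
        ∀ P P' : S →L[ℝ] S, IsPr P → IsPr P' → P' ∘L P = P →
        P ∘L T ∘L P ∈ Near A₀ → P' ∘L T ∘L P' ∈ Near A₀ →
        m (P ∘L T ∘L P) ≤ 0 → m (P' ∘L T ∘L P') ≤ 0) ∧
      -- strictness at the model
      (∀ T : S →L[ℝ] S, (∀ x y, inner ℝ (T x) y = inner ℝ x (T y)) →
        ∀ P₀ P' : S →L[ℝ] S, IsPr P₀ → IsPr P' → P₀ ∘L T ∘L P₀ = A₀ → P' ∘L P₀ = P₀ →
        P₀ e₁ = e₁ → P₀ e₂ = e₂ →
        P' ∘L T ∘L P' ∈ Near A₀ → P' (T (P' e₂)) ≠ e₂ → m (P' ∘L T ∘L P') < 0) ∧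
      (∀ T : S →L[ℝ] S, (∀ x y, inner ℝ (T x) y = inner ℝ x (T y)) →
        ∀ P₀ P : S →L[ℝ] S, IsPr P₀ → IsPr P → P₀ ∘L T ∘L P₀ = A₀ → P₀ ∘L P = P →
        P ∘L T ∘L P ∈ Near A₀ → P e₂ ≠ e₂ → 0 < m (P ∘L T ∘L P)) := by
  set L := hM.lin with hL
  have hLe2 : L.e2 = e₂ := rfl
  have hLA : L.A = A₀ := rfl
  have hadm : ∀ A ∈ Near A₀, L.Adm A := fun A hA => hM.adm hA
  have hA0 : A₀ ∈ Near A₀ := ⟨hM.sa, by simp⟩
  have hσ : ∀ x : S, L.σ x = x := fun _ => rfl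
  -- identification of resonance vectors
  have hphi : ∀ A ∈ Near A₀, ∀ φ, A φ = φ → inner ℝ φ e₂ = 1 → φ = L.phi A ∧ L.m A = 0 := by
    intro A hA φ h1 h2
    refine (hadm A hA).eq_phi_of_fixed (hσ φ) ?_ h1
    rw [hLe2, real_inner_comm]; exact h2
  have hm0 : L.m A₀ = 0 ∧ L.phi A₀ = e₂ := by
    have := hphi A₀ hA0 e₂ hM.a2 (by rw [real_inner_self_eq_norm_sq, hM.n2]; norm_num)
    exact ⟨this.2, this.1.symm⟩
  -- distance of phi's
  have hphi_le : ∀ A ∈ Near A₀, ‖L.phi A‖ ≤ 2 := by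
    intro A hA
    have h1 := (hadm A hA).phi_close
    have h2 := (hadm A hA).close L.e2 (hσ _)
    rw [L.ne2] at h2
    have h3 : ‖L.phi A‖ ≤ ‖L.phi A - L.e2‖ + ‖L.e2‖ := by
      have := norm_add_le (L.phi A - L.e2) L.e2
      rwa [sub_add_cancel] at this
    rw [L.ne2] at h3
    linarith
  have hdist : ∀ A ∈ Near A₀, ∀ B ∈ Near A₀, ‖L.phi A - L.phi B‖ ≤ 32 / 5 * ‖A - B‖ := by
    intro A hA B hB
    have h1 := (hadm B hB).dist_phi (φ := L.phi A) (hσ _) (hadm A hA).phi_spec.2.1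
    have h2 : L.pi (L.phi A - B (L.phi A)) = L.pi ((A - B) (L.phi A)) := by
      have : L.phi A - B (L.phi A) = (L.phi A - A (L.phi A)) + (A - B) (L.phi A) := by
        simp only [ContinuousLinearMap.sub_apply]; abel
      rw [this, map_add, (hadm A hA).phi_spec.2.2, zero_add]
    rw [h2] at h1
    have h3 := L.norm_pi_le ((A - B) (L.phi A))
    have h4 := (A - B).le_opNorm (L.phi A)
    have h5 : ‖A - B‖ * ‖L.phi A‖ ≤ ‖A - B‖ * 2 := by
      have := hphi_le A hA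
      gcongr
    linarith
  have hnA : ∀ A ∈ Near A₀, ‖A‖ ≤ ‖A₀‖ + 1 / 16 := by
    intro A hA
    have h1 := norm_add_le (A - A₀) A₀
    rw [sub_add_cancel] at h1
    linarith [hA.2]
  set C : ℝ := (1 + (‖A₀‖ + 1 / 16)) * (32 / 5) + 32 / 5 with hC
  have hA0n := norm_nonneg A₀
  have hCpos : 0 < C := by rw [hC]; positivity
  have hC1 : 32 / 5 ≤ C := by rw [hC]; nlinarith
  refine ⟨L.m, C, hCpos, ?_, ?_, ?_, ?_, ?_, ?_, ?_⟩
  · intro A hA B hB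
    have h1 : L.m A - L.m B = inner ℝ e₂ ((L.phi A - L.phi B) - A (L.phi A - L.phi B)
        - (A - B) (L.phi B)) := by
      unfold _root_.LE.Schur.Lin.m
      rw [hLe2, ← inner_sub_right]
      congr 1
      simp only [ContinuousLinearMap.sub_apply, map_sub]
      abel
    have h2 := abs_real_inner_le_norm e₂ ((L.phi A - L.phi B) - A (L.phi A - L.phi B)
        - (A - B) (L.phi B))
    rw [← h1, hM.n2, one_mul] at h2
    refine h2.trans ?_
    have h3 := hdist A hA B hB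
    have h4 := A.le_opNorm (L.phi A - L.phi B)
    have h5 := (A - B).le_opNorm (L.phi B)
    have h6 := hphi_le B hB
    have h7 := hnA A hA
    have h8 : ‖A‖ * ‖L.phi A - L.phi B‖ ≤ (‖A₀‖ + 1 / 16) * (32 / 5 * ‖A - B‖) := by gcongr
    have h9 : ‖A - B‖ * ‖L.phi B‖ ≤ ‖A - B‖ * 2 := by gcongr
    have h10 := norm_sub_le ((L.phi A - L.phi B) - A (L.phi A - L.phi B)) ((A - B) (L.phi B))
    have h11 := norm_sub_le (L.phi A - L.phi B) (A (L.phi A - L.phi B))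
    have h12 := norm_nonneg (A - B)
    rw [hC]
    nlinarith
  · intro A hA
    constructor
    · intro h
      refine ⟨L.phi A, (hadm A hA).m_eq_zero h, ?_⟩
      rw [real_inner_comm]; exact (hadm A hA).phi_spec.2.1
    · rintro ⟨φ, h1, h2⟩
      exact (hphi A hA φ h1 h2).2
  · intro A hA φ h1 h2
    rw [(hphi A hA φ h1 h2).1, ← hm0.2]
    refine (hdist A hA A₀ hA0).trans ?_
    gcongr
  · intro A hA B hB φ ψ h1 h2 h3 h4
    rw [(hphi A hA φ h1 h3).1, (hphi B hB ψ h2 h4).1]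
    refine (hdist A hA B hB).trans ?_
    gcongr
  · intro T _ P P' hP hP' hPP hB hB' hm
    have hPP' : ∀ x, P' (P x) = P x := fun x => by
      have := congrArg (fun A : S →L[ℝ] S => A x) hPP
      simpa using this
    exact _root_.LE.Schur.Lin.mono hP.isProj hP'.isProj (fun _ => rfl) hPP' (hadm _ hB)
      (hadm _ hB') hm
  · intro T _ P₀ P' hP₀ hP' hPT hPP _ he2 hB' hne
    have hPP' : ∀ x, P' (P₀ x) = P₀ x := fun x => by
      have := congrArg (fun A : S →L[ℝ] S => A x) hPP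
      simpa using this
    by_contra hcon
    push Not at hcon
    have hB : P₀ ∘L T ∘L P₀ ∈ Near A₀ := by rw [hPT]; exact hA0
    have h := _root_.LE.Schur.Lin.mono_strict (L := L) hP₀.isProj hP'.isProj (fun _ => rfl) hPP'
      (hadm _ hB) (hadm _ hB') (by rw [hPT, hm0.1]) hcon
    apply hne
    have h3 := (hadm _ hB').m_eq_zero h.2.1
    rw [← h.2.2.1, hPT, hm0.2] at h3
    exact h3
  · intro T _ P₀ P hP₀ hP hPT hPP hB hne
    have hPP' : ∀ x, P₀ (P x) = P x := fun x => by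
      have := congrArg (fun A : S →L[ℝ] S => A x) hPP
      simpa using this
    by_contra hcon
    push Not at hcon
    have hB0 : P₀ ∘L T ∘L P₀ ∈ Near A₀ := by rw [hPT]; exact hA0
    have h := _root_.LE.Schur.Lin.mono_strict (L := L) hP.isProj hP₀.isProj (fun _ => rfl) hPP'
      (hadm _ hB) (hadm _ hB0) hcon (by rw [hPT, hm0.1])
    apply hne
    have h3 : L.phi (P ∘L T ∘L P) = e₂ := by rw [h.2.2.1, hPT, hm0.2]
    have h4 := h.2.2.2
    rw [h3] at h4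
    exact h4

end Pool.Agent.H87.LE
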