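import Pool.Agent.H87.LE.B01_Space
import Pool.Agent.H66.LE.LimTools

open MeasureTheory Complex Set Filter Topology
open scoped ContDiff Laplacian
open Pool.Agent.H66.LE

namespace Pool.Agent.H87.LE

/-! # B02: even and odd parts under complex conjugation -/

theorem b02_conj_mp : MeasurePreserving (fun z : ℂ => starRingEnd ℂ z) volume volume := by
  have h := conjLIE.measurePreserving
  have e : (conjLIE : ℂ → ℂ) = fun z => starRingEnd ℂ z := by
    funext z; exact conjLIE_apply z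
  rwa [e] at h

theorem b02_ae_conj {p : ℂ → Prop} (h : ∀ᵐ z, p z) : ∀ᵐ z, p (starRingEnd ℂ z) :=
  b02_conj_mp.quasiMeasurePreserving.ae h

theorem b02_DD_conj (z : ℂ) : starRingEnd ℂ z ∈ DD ↔ z ∈ DD := by
  simp [DD]

theorem b02_DD_open : IsOpen DD :=
  (isOpen_lt (continuous_abs.comp continuous_re) continuous_const).inter
    (isOpen_lt (continuous_abs.comp continuous_im) continuous_const)

theorem b02_rot_conj {φ : ℂ → ℝ} (h : Rot φ) : Rot (fun z => φ (conjLIE z)) := by
  intro z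
  simp only [conjLIE_apply]
  have h1 := h (starRingEnd ℂ (I * z))
  rw [← h1]
  congr 1
  rw [map_mul, conj_I, ← mul_assoc]
  simp

/-- symmetrised functions are again in `W1` -/
theorem b02_W1_ev {Ω : Set ℂ} (hc : ∀ z, starRingEnd ℂ z ∈ Ω → z ∈ Ω) {v : ℂ → ℝ} {G : ℂ → ℂ}
    (h : W1 Ω v G) : W1 Ω (fun z => (v z + v (starRingEnd ℂ z)) / 2)
      (fun z => (1 / 2 : ℝ) • (G z + starRingEnd ℂ (G (starRingEnd ℂ z)))) := by
  obtain ⟨φ, hφ, hL⟩ := h
  have hc' : ∀ z, conjLIE z ∈ Ω → z ∈ Ω := fun z hz => hc z (by rwa [conjLIE_apply] at hz)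
  have h1 := t_lim_comp conjLIE (fun n => (hφ n).1) hL
  have ht : ∀ n, Tst Ω (fun z => φ n (conjLIE z)) := fun n => t_tst_comp conjLIE hc' (hφ n).1
  have h2 := t_lim_add (fun n => (hφ n).1) ht hL h1
  have h3 := t_lim_smul (fun n => t_tst_add (hφ n).1 (ht n)) h2 (1 / 2)
  refine ⟨_, fun n => ⟨t_tst_smul (t_tst_add (hφ n).1 (ht n)) (1 / 2), ?_⟩, ?_⟩
  · intro z
    have e1 := (hφ n).2 z
    have e2 := b02_rot_conj (hφ n).2 z
    simp only at e2 ⊢
    rw [e1, e2]
  · refine t_lim_congr h3 (Eventually.of_forall fun z => ?_) (Eventually.of_forall fun z => ?_)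
    · simp only [conjLIE_apply]
      ring
    · simp only [conjLIE_apply]
      rfl

theorem b02_W1 (x : HH) : W1 DD (fn x) (gr x) :=
  V_approx subset_rfl (by rw [V_top]; exact Submodule.mem_top)

theorem b02_exists (x : HH) : ∃ y : HH,
    (∀ᵐ z, fn y z = (fn x z + fn x (starRingEnd ℂ z)) / 2) ∧
    (∀ᵐ z, gr y z = (1 / 2 : ℝ) • (gr x z + starRingEnd ℂ (gr x (starRingEnd ℂ z)))) := by
  obtain ⟨y, -, h1, h2⟩ := V_mk subset_rfl
    (b02_W1_ev (fun z hz => (b02_DD_conj z).1 hz) (b02_W1 x))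
  exact ⟨y, h1, h2⟩

theorem b02_int_conj {E : Type*} [NormedAddCommGroup E] [NormedSpace ℝ E] (g : ℂ → E) :
    ∫ z, g (starRingEnd ℂ z) = ∫ z, g z := by
  have := conjLIE.measurePreserving.integral_comp conjLIE.toHomeomorph.measurableEmbedding g
  simpa using this

theorem b02_integrable_inner {a b : ℂ → ℂ} (ha : MemLp a 2 volume) (hb : MemLp b 2 volume) :
    Integrable (fun z => inner ℝ (a z) (b z)) := by
  refine (L2.integrable_inner (𝕜 := ℝ) (ha.toLp a) (hb.toLp b)).congr ?_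
  filter_upwards [ha.coeFn_toLp, hb.coeFn_toLp] with z h1 h2
  rw [h1, h2]

theorem b02_inner_conj (a b : ℂ) : inner ℝ (starRingEnd ℂ a) b = inner ℝ a (starRingEnd ℂ b) := by
  have := conjLIE.inner_map_map a (starRingEnd ℂ b)
  simpa using this

theorem b02_gr_memLp (x : HH) : MemLp (gr x) 2 volume := Lp.memLp (toLC x)

theorem exists_ev : ∃ e : HH →L[ℝ] HH, ∀ x : HH,
    (∀ᵐ z, fn (e x) z = (fn x z + fn x (starRingEnd ℂ z)) / 2) ∧
    (∀ᵐ z, gr (e x) z = (1 / 2 : ℝ) • (gr x z + starRingEnd ℂ (gr x (starRingEnd ℂ z)))) := by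
  choose e he using b02_exists
  have hadd : ∀ x y, e (x + y) = e x + e y := by
    intro x y
    apply fn_inj
    have h1 : fn (x + y) =ᵐ[volume] fun z => fn x z + fn y z := by
      rw [map_add]; exact Lp.coeFn_add _ _
    have h2 : fn (e x + e y) =ᵐ[volume] fun z => fn (e x) z + fn (e y) z := by
      rw [map_add]; exact Lp.coeFn_add _ _
    filter_upwards [(he (x + y)).1, (he x).1, (he y).1, h1, b02_ae_conj h1, h2] with z a b c d f g
    rw [g, a, b, c, d, f]
    ring
  have hsmul : ∀ (r : ℝ) x, e (r • x) = r • e x := by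
    intro r x
    apply fn_inj
    have h1 : fn (r • x) =ᵐ[volume] fun z => r * fn x z := by
      rw [map_smul]; exact Lp.coeFn_smul _ _
    have h2 : fn (r • e x) =ᵐ[volume] fun z => r * fn (e x) z := by
      rw [map_smul]; exact Lp.coeFn_smul _ _
    filter_upwards [(he (r • x)).1, (he x).1, h1, b02_ae_conj h1, h2] with z a b d f g
    rw [g, a, b, d, f]
    ring
  have hnorm : ∀ x, ‖e x‖ ≤ 1 * ‖x‖ := by
    intro x
    rw [one_mul]
    refine le_of_sq_le_sq ?_ (norm_nonneg _)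
    rw [norm_HH, norm_HH]
    have hg := b02_gr_memLp x
    have hi : Integrable (fun z => ‖gr x z‖ ^ 2) := hg.integrable_norm_pow (by norm_num)
    have hgc : MemLp (fun z => gr x (starRingEnd ℂ z)) 2 volume :=
      hg.comp_measurePreserving b02_conj_mp
    have hic : Integrable (fun z => ‖gr x (starRingEnd ℂ z)‖ ^ 2) :=
      hgc.integrable_norm_pow (by norm_num)
    have hice : ∫ z, ‖gr x (starRingEnd ℂ z)‖ ^ 2 = ∫ z, ‖gr x z‖ ^ 2 :=
      b02_int_conj (fun z => ‖gr x z‖ ^ 2)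
    calc ∫ z, ‖gr (e x) z‖ ^ 2 ≤ ∫ z, (1 / 2) * (‖gr x z‖ ^ 2 + ‖gr x (starRingEnd ℂ z)‖ ^ 2) := by
          apply integral_mono_of_nonneg
          · exact Eventually.of_forall fun z => by positivity
          · exact (hi.add hic).const_mul _
          · filter_upwards [(he x).2] with z hz
            rw [hz, norm_smul]
            have h1 := norm_add_le (gr x z) (starRingEnd ℂ (gr x (starRingEnd ℂ z)))
            rw [Complex.norm_conj] at h1
            have h2 : ‖(1 / 2 : ℝ)‖ = 1 / 2 := by norm_num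
            rw [h2]
            have h3 := norm_nonneg (gr x z + starRingEnd ℂ (gr x (starRingEnd ℂ z)))
            nlinarith [sq_nonneg (‖gr x z‖ - ‖gr x (starRingEnd ℂ z)‖)]
      _ = ∫ z, ‖gr x z‖ ^ 2 := by
          rw [integral_const_mul, integral_add hi hic, hice]
          ring
  exact ⟨LinearMap.mkContinuous ⟨⟨e, hadd⟩, hsmul⟩ 1 hnorm, he⟩

/-- projection onto the even functions -/
noncomputable def ev : HH →L[ℝ] HH := Classical.choose exists_ev

theorem ev_fn (x : HH) : ∀ᵐ z, fn (ev x) z = (fn x z + fn x (starRingEnd ℂ z)) / 2 :=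
  (Classical.choose_spec exists_ev x).1

theorem ev_gr (x : HH) : ∀ᵐ z, gr (ev x) z =
    (1 / 2 : ℝ) • (gr x z + starRingEnd ℂ (gr x (starRingEnd ℂ z))) :=
  (Classical.choose_spec exists_ev x).2

theorem ev_idem : ev ∘L ev = ev := by
  ext1 x
  apply fn_inj
  rw [ContinuousLinearMap.comp_apply]
  filter_upwards [ev_fn (ev x), ev_fn x, b02_ae_conj (ev_fn x)] with z a b c
  rw [a, b, c, conj_conj]
  ring

theorem ev_symm (x y : HH) : inner ℝ (ev x) y = inner ℝ x (ev y) := by
  have hx := b02_gr_memLp x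
  have hy := b02_gr_memLp y
  have hcx : MemLp (fun z => starRingEnd ℂ (gr x (starRingEnd ℂ z))) 2 volume := by
    have h1 : MemLp (fun z => gr x (starRingEnd ℂ z)) 2 volume :=
      hx.comp_measurePreserving b02_conj_mp
    have h2 := h1.star
    exact h2
  have hcy : MemLp (fun z => starRingEnd ℂ (gr y (starRingEnd ℂ z))) 2 volume := by
    have h1 : MemLp (fun z => gr y (starRingEnd ℂ z)) 2 volume :=
      hy.comp_measurePreserving b02_conj_mp
    have h2 := h1.star
    exact h2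
  rw [inner_HH, inner_HH]
  have e1 : ∫ z, inner ℝ (gr (ev x) z) (gr y z) = ∫ z, (1 / 2 * inner ℝ (gr x z) (gr y z) +
      1 / 2 * inner ℝ (starRingEnd ℂ (gr x (starRingEnd ℂ z))) (gr y z)) := by
    apply integral_congr_ae
    filter_upwards [ev_gr x] with z hz
    rw [hz, real_inner_smul_left, inner_add_left]
    ring
  have e2 : ∫ z, inner ℝ (gr x z) (gr (ev y) z) = ∫ z, (1 / 2 * inner ℝ (gr x z) (gr y z) +
      1 / 2 * inner ℝ (gr x z) (starRingEnd ℂ (gr y (starRingEnd ℂ z)))) := by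
    apply integral_congr_ae
    filter_upwards [ev_gr y] with z hz
    rw [hz, real_inner_smul_right, inner_add_right]
    ring
  rw [e1, e2, integral_add ((b02_integrable_inner hx hy).const_mul _)
    ((b02_integrable_inner hcx hy).const_mul _), integral_add
    ((b02_integrable_inner hx hy).const_mul _) ((b02_integrable_inner hx hcy).const_mul _)]
  congr 1
  rw [integral_const_mul, integral_const_mul]
  congr 1
  rw [← b02_int_conj]
  apply integral_congr_ae
  refine Eventually.of_forall fun z => ?_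
  simp only [conj_conj]
  exact b02_inner_conj _ _

theorem ev_zero_iff (x : HH) : ev x = 0 ↔ ∀ᵐ z, fn x (starRingEnd ℂ z) = - fn x z := by
  have h0 : fn (0 : HH) =ᵐ[volume] fun _ => (0 : ℝ) := by
    rw [map_zero]; exact Lp.coeFn_zero _ _ _
  constructor
  · intro h
    have h1 := ev_fn x
    rw [h] at h1
    filter_upwards [h1, h0] with z a b
    rw [b] at a
    linarith
  · intro h
    apply fn_inj
    filter_upwards [h, ev_fn x, h0] with z a b c
    rw [b, c, a]
    ring

theorem ev_self_iff (x : HH) : ev x = x ↔ ∀ᵐ z, fn x (starRingEnd ℂ z) = fn x z := by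
  constructor
  · intro h
    have h1 := ev_fn x
    rw [h] at h1
    filter_upwards [h1] with z a
    linarith
  · intro h
    apply fn_inj
    filter_upwards [h, ev_fn x] with z a b
    rw [b, a]
    ring

theorem b02_rot_mp : MeasurePreserving (fun z : ℂ => I * z) volume volume := by
  have hI : I ∈ Submonoid.unitSphere ℂ := mem_sphere_zero_iff_norm.2 Complex.norm_I
  have h := (rotation (⟨I, hI⟩ : Circle)).measurePreserving
  have e : (rotation (⟨I, hI⟩ : Circle) : ℂ → ℂ) = fun z => I * z := by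
    funext z
    exact rotation_apply _ z
  rwa [e] at h

/-- rotation invariance of the underlying functions -/
theorem fn_rot (x : HH) : ∀ᵐ z, fn x (I * z) = fn x z := by
  obtain ⟨φ, hφ, hL⟩ := b02_W1 x
  obtain ⟨ns, -, hae⟩ := t_subseq (fun n => (hφ n).1.1.continuous.aestronglyMeasurable)
    hL.1 hL.2.2.1
  filter_upwards [hae, b02_rot_mp.quasiMeasurePreserving.ae hae] with z a b
  refine tendsto_nhds_unique b (a.congr fun n => ?_)
  exact ((hφ _).2 z).symm

/-- smooth odd rotation invariant functions vanish on the mirrors -/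
theorem b02_odd_mir {ψ : ℂ → ℝ} (hR : Rot ψ) (ho : ∀ z, ψ (starRingEnd ℂ z) = - ψ z) {z : ℂ}
    (hz : z ∈ Mir) : ψ z = 0 := by
  have key : ∀ w : ℂ, (w = starRingEnd ℂ z ∨ w = I * starRingEnd ℂ z ∨
      w = I * (I * starRingEnd ℂ z) ∨ w = I * (I * (I * starRingEnd ℂ z))) → ψ w = - ψ z := by
    rintro w (rfl | rfl | rfl | rfl)
    · exact ho z
    · rw [hR, ho]
    · rw [hR, hR, ho]
    · rw [hR, hR, hR, ho]
  have h1 : z.re = 0 ∨ z.im = 0 ∨ z.re = z.im ∨ z.re = - z.im := by
    have : z.re * z.im * (z.re ^ 2 - z.im ^ 2) = 0 := hz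
    rcases mul_eq_zero.1 this with h | h
    · rcases mul_eq_zero.1 h with h | h
      · exact Or.inl h
      · exact Or.inr (Or.inl h)
    · have h2 : (z.re - z.im) * (z.re + z.im) = 0 := by linarith [h]
      rcases mul_eq_zero.1 h2 with h | h
      · exact Or.inr (Or.inr (Or.inl (by linarith)))
      · exact Or.inr (Or.inr (Or.inr (by linarith)))
  have h2 : ψ z = - ψ z := by
    apply key z
    rcases h1 with h | h | h | h
    · right; right; left
      apply Complex.ext <;> simp [h]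
    · left
      apply Complex.ext <;> simp [h]
    · right; left
      apply Complex.ext <;> simp [h]
    · right; right; right
      apply Complex.ext <;> simp [h]
  linarith

theorem b02_mir_closed : IsClosed Mir := by
  refine isClosed_eq ?_ continuous_const
  fun_prop

/-- an odd rotation invariant test function is in `W1 (DD \ Mir)` -/
theorem b02_odd_tst {ψ : ℂ → ℝ} (h : Tst DD ψ) (hR : Rot ψ)
    (ho : ∀ z, ψ (starRingEnd ℂ z) = - ψ z) : W1 (DD \ Mir) ψ (gradient ψ) := by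
  refine ⟨fun k z => trc k (ψ z), fun k => ⟨⟨(trc_smooth k).comp h.1, ?_, ?_⟩, ?_⟩,
    t_trunc (t_tst_mono h (subset_univ _))⟩
  · exact h.2.1.comp_left (g := trc k) (by simp [trc])
  · have h1 : tsupport (fun z => trc k (ψ z)) ⊆
        {z | 1 ≤ ((k : ℝ) + 1) ^ 2 * ψ z ^ 2} := by
      refine closure_minimal ?_ (isClosed_le continuous_const
        (continuous_const.mul (h.1.continuous.pow 2)))
      intro z hz
      by_contra hc
      simp only [mem_setOf_eq, not_le] at hc
      exact hz (trc_eq_zero hc.le)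
    intro z hz
    have h2 := h1 hz
    simp only [mem_setOf_eq] at h2
    have h3 : ψ z ≠ 0 := by
      intro h4
      rw [h4] at h2
      norm_num at h2
    refine ⟨h.2.2 (subset_tsupport _ h3), fun h4 => h3 (b02_odd_mir hR ho h4)⟩
  · intro z
    simp only
    rw [hR z]

/-- odd functions vanish on the mirrors -/
theorem odd_mem {x : HH} (h : ev x = 0) : x ∈ V (DD \ Mir) := by
  obtain ⟨φ, hφ, hL⟩ := b02_W1 x
  have hc' : ∀ z, conjLIE z ∈ DD → z ∈ DD := fun z hz =>
    (b02_DD_conj z).1 (by rwa [conjLIE_apply] at hz)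
  have h1 := t_lim_comp conjLIE (fun n => (hφ n).1) hL
  have ht : ∀ n, Tst DD (fun z => φ n (conjLIE z)) := fun n => t_tst_comp conjLIE hc' (hφ n).1
  have h2 := t_lim_sub (fun n => (hφ n).1) ht hL h1
  have ht2 : ∀ n, Tst DD (fun z => φ n z - φ n (conjLIE z)) := fun n => t_tst_sub (hφ n).1 (ht n)
  have h3 := t_lim_smul ht2 h2 (1 / 2)
  have ht3 : ∀ n, Tst DD (fun z => 1 / 2 * (φ n z - φ n (conjLIE z))) := fun n =>
    t_tst_smul (ht2 n) (1 / 2)
  have hR3 : ∀ n, Rot (fun z => 1 / 2 * (φ n z - φ n (conjLIE z))) := by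
    intro n z
    have e1 := (hφ n).2 z
    have e2 := b02_rot_conj (hφ n).2 z
    simp only at e2 ⊢
    rw [e1, e2]
  have ho3 : ∀ n z, (fun z => 1 / 2 * (φ n z - φ n (conjLIE z))) (starRingEnd ℂ z) =
      - (fun z => 1 / 2 * (φ n z - φ n (conjLIE z))) z := by
    intro n z
    simp only [conjLIE_apply, conj_conj]
    ring
  -- the limit is `x`
  have hx : (fun z => 1 / 2 * (fn x z - fn x (conjLIE z))) =ᵐ[volume] fn x := by
    filter_upwards [(ev_zero_iff x).1 h] with z hz
    rw [conjLIE_apply, hz]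
    ring
  have hG := t_grad_eq (fun n => t_tst_mono (ht3 n) (subset_univ _))
    (fun n => t_tst_mono (hφ n).1 (subset_univ _)) h3 hL hx
  have h4 := t_lim_congr h3 hx hG
  -- elements of the subspace
  have h5 : ∀ n, ∃ y ∈ V (DD \ Mir), fn y =ᵐ[volume] (fun z => 1 / 2 * (φ n z - φ n (conjLIE z))) ∧
      gr y =ᵐ[volume] gradient (fun z => 1 / 2 * (φ n z - φ n (conjLIE z))) := fun n =>
    V_mk diff_subset (b02_odd_tst (ht3 n) (hR3 n) (ho3 n))
  choose y hyV hyf hyg using h5
  have h6 : Tendsto y atTop (𝓝 x) := by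
    have e : ∀ n, ‖toLC (y n) - toLC x‖ₑ = eLpNorm (fun z =>
        gradient (fun z => 1 / 2 * (φ n z - φ n (conjLIE z))) z - gr x z) 2 volume := by
      intro n
      rw [Lp.enorm_def]
      apply eLpNorm_congr_ae
      filter_upwards [Lp.coeFn_sub (toLC (y n)) (toLC x), hyg n] with z a b
      rw [a, Pi.sub_apply]
      have : (toLC (y n) : ℂ → ℂ) z = gr (y n) z := rfl
      rw [this, b]
      rfl
    rw [tendsto_iff_norm_sub_tendsto_zero]
    have h7 := h4.2.2.2
    have h8 : Tendsto (fun n => ‖toLC (y n) - toLC x‖ₑ) atTop (𝓝 0) := by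
      simp_rw [e]; exact h7
    have h9 := (ENNReal.tendsto_toReal ENNReal.zero_ne_top).comp h8
    have h10 : Tendsto (fun n => ‖toLC (y n) - toLC x‖) atTop (𝓝 0) := by
      simpa [Function.comp_def] using h9
    refine h10.congr fun n => ?_
    rw [← map_sub]
    exact toLC.norm_map _
  exact (V_closed _).mem_of_tendsto h6 (Eventually.of_forall hyV)

theorem odd_mem' {x : HH} (h : ev x = 0) {E : Set ℂ} (hE : E ⊆ Mir) : x ∈ V (DD \ E) :=
  V_mono (diff_subset_diff_right hE) (odd_mem h)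

theorem b02_ev_mem {E : Set ℂ} (hE : ∀ z, starRingEnd ℂ z ∈ E ↔ z ∈ E) {x : HH}
    (h : x ∈ V (DD \ E)) : ev x ∈ V (DD \ E) := by
  obtain ⟨y, hy, h1, -⟩ := V_mk diff_subset (b02_W1_ev (Ω := DD \ E)
    (fun z hz => ⟨(b02_DD_conj z).1 hz.1, fun h' => hz.2 ((hE z).2 h')⟩)
    (V_approx diff_subset h))
  have : y = ev x := by
    apply fn_inj
    filter_upwards [h1, ev_fn x] with z a b
    rw [a, b]
  rwa [this] at hy

/-- the even part preserves `V (DD \ E)` for conjugation invariant `E` -/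
theorem ev_P {E : Set ℂ} (hE : ∀ z, starRingEnd ℂ z ∈ E ↔ z ∈ E) :
    P (DD \ E) ∘L ev = ev ∘L P (DD \ E) := by
  ext1 x
  have key : ∀ y, P (DD \ E) (ev (P (DD \ E) y)) = ev (P (DD \ E) y) := fun y =>
    (P_self_iff _ _).2 (b02_ev_mem hE (P_mem _ _))
  rw [ContinuousLinearMap.comp_apply, ContinuousLinearMap.comp_apply]
  refine ext_inner_right ℝ fun y => ?_
  calc inner ℝ (P (DD \ E) (ev x)) y = inner ℝ x (ev (P (DD \ E) y)) := by rw [P_symm, ev_symm]
    _ = inner ℝ x (P (DD \ E) (ev (P (DD \ E) y))) := by rw [key]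
    _ = inner ℝ (P (DD \ E) (ev (P (DD \ E) x))) y := by
        rw [← P_symm, ← ev_symm, ← P_symm]
    _ = inner ℝ (ev (P (DD \ E) x)) y := by rw [key]

/-- projection onto the even functions of `V (DD \ E)` -/
noncomputable def Pe (E : Set ℂ) : HH →L[ℝ] HH := P (DD \ E) ∘L ev

theorem b02_ev_ev (x : HH) : ev (ev x) = ev x := by
  conv_rhs => rw [← ev_idem]
  rfl

theorem b02_P_P (Ω : Set ℂ) (x : HH) : P Ω (P Ω x) = P Ω x := by
  conv_rhs => rw [← P_idem]
  rfl

theorem b02_comm {E : Set ℂ} (hE : ∀ z, starRingEnd ℂ z ∈ E ↔ z ∈ E) (x : HH) :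
    P (DD \ E) (ev x) = ev (P (DD \ E) x) := by
  have := congrArg (fun T : HH →L[ℝ] HH => T x) (ev_P hE)
  exact this

theorem Pe_isPr {E : Set ℂ} (hE : ∀ z, starRingEnd ℂ z ∈ E ↔ z ∈ E) :
    Pe E ∘L Pe E = Pe E ∧ (∀ x y, inner ℝ (Pe E x) y = inner ℝ x (Pe E y)) ∧
      ∀ x, Pe E x = x ↔ x ∈ V (DD \ E) ∧ ev x = x := by
  have hP : ∀ x, Pe E x = P (DD \ E) (ev x) := fun x => rfl
  refine ⟨?_, fun x y => ?_, fun x => ⟨fun h => ?_, fun h => ?_⟩⟩
  · ext1 x
    rw [ContinuousLinearMap.comp_apply, hP, hP, ← b02_comm hE, b02_ev_ev, b02_P_P]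
  · rw [hP, hP, P_symm, ev_symm, b02_comm hE]
  · rw [hP] at h
    refine ⟨by rw [← h]; exact P_mem _ _, ?_⟩
    conv_lhs => rw [← h, b02_comm hE, b02_ev_ev, ← b02_comm hE, h]
  · rw [hP, h.2]
    exact (P_self_iff _ _).2 h.1

theorem Pe_le {E E' : Set ℂ} (hE : ∀ z, starRingEnd ℂ z ∈ E ↔ z ∈ E)
    (hE' : ∀ z, starRingEnd ℂ z ∈ E' ↔ z ∈ E') (h : E ⊆ E') : Pe E ∘L Pe E' = Pe E' := by
  ext1 x
  rw [ContinuousLinearMap.comp_apply]
  have h1 : Pe E' x ∈ V (DD \ E') ∧ ev (Pe E' x) = Pe E' x :=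
    ((Pe_isPr hE').2.2 _).1 (congrArg (fun T : HH →L[ℝ] HH => T x) (Pe_isPr hE').1)
  exact ((Pe_isPr hE).2.2 _).2 ⟨V_mono (diff_subset_diff_right h) h1.1, h1.2⟩

end Pool.Agent.H87.LE
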