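import Pool.Agent.H87.LE.A05_Cpt
import Pool.Agent.H87.LE.A07_Tune
import Pool.Agent.H87.LE.B02_Refl

open MeasureTheory Complex Set Filter Topology
open scoped ContDiff Laplacian

namespace Pool.Agent.H87.LE

/-! # B04: operators `T_W` (`⟨T_W x, y⟩ = ∫ W x y`) and compactness -/

/-- `T` is the operator of the weight `W` -/
def IsT (W : ℂ → ℝ) (T : HH →L[ℝ] HH) : Prop :=
  ∀ x y : HH, inner ℝ (T x) y = ∫ z in DD, W z * fn x z * fn y z

theorem b04_cs {μ : Measure ℂ} {f g : ℂ → ℝ} (hf : MemLp f 2 μ) (hg : MemLp g 2 μ) :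
    |∫ z, f z * g z ∂μ| ≤ √(∫ z, f z ^ 2 ∂μ) * √(∫ z, g z ^ 2 ∂μ) := by
  have := H30.LE.integral_inner_le hf hg
  simpa only [a17_real_inner, Real.norm_eq_abs, sq_abs] using this

theorem b04_memLp (x : HH) : MemLp (fn x) 2 volume := Lp.memLp (fn x)

theorem b04_norm_sq (x : LR) : ‖x‖ ^ 2 = ∫ z, x z ^ 2 := by
  rw [← real_inner_self_eq_norm_sq, inner_LR]
  refine integral_congr_ae (Eventually.of_forall fun z => ?_)
  simp only [sq]

theorem b04_restrict_le (x : LR) : √(∫ z in DD, x z ^ 2) ≤ ‖x‖ := by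
  rw [← Real.sqrt_sq (norm_nonneg x), b04_norm_sq]
  refine Real.sqrt_le_sqrt ?_
  exact setIntegral_le_integral (a17_sq_int (Lp.memLp x)) (Eventually.of_forall fun z => sq_nonneg _)

theorem b04_fn_le (x : HH) : ‖fn x‖ ≤ ‖x‖ := by
  have h := norm_fn x
  have h2 : ‖fn x‖ ^ 2 ≤ ‖x‖ ^ 2 := by
    have := sq_nonneg ‖x‖
    linarith
  exact le_of_sq_le_sq h2 (norm_nonneg _)

theorem b04_mul_memLp {W : ℂ → ℝ} (hW : AEStronglyMeasurable W (volume.restrict DD)) {C : ℝ}
    (hC : ∀ᵐ z, z ∈ DD → |W z| ≤ C) {f : ℂ → ℝ} (hf : MemLp f 2 (volume.restrict DD)) :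
    MemLp (fun z => W z * f z) 2 (volume.restrict DD) := by
  have hC' : ∀ᵐ z ∂(volume.restrict DD), ‖W z‖ ≤ C :=
    (ae_restrict_iff' a17_isOpen_DD.measurableSet).2 hC
  refine MemLp.of_le_mul (c := C) hf (hW.mul hf.1) ?_
  filter_upwards [hC'] with z hz
  rw [norm_mul]
  exact mul_le_mul_of_nonneg_right hz (norm_nonneg _)

theorem b04_int {W : ℂ → ℝ} (hW : AEStronglyMeasurable W (volume.restrict DD)) {C : ℝ}
    (hC : ∀ᵐ z, z ∈ DD → |W z| ≤ C) (x y : HH) :
    IntegrableOn (fun z => W z * fn x z * fn y z) DD :=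
  a17_mul_int (b04_mul_memLp hW hC ((b04_memLp x).restrict DD)) ((b04_memLp y).restrict DD)

theorem b04_bound {W : ℂ → ℝ} (hW : AEStronglyMeasurable W (volume.restrict DD)) {C : ℝ}
    (hC0 : 0 ≤ C) (hC : ∀ᵐ z, z ∈ DD → |W z| ≤ C) (x y : HH) :
    |∫ z in DD, W z * fn x z * fn y z| ≤ C * ‖fn x‖ * ‖fn y‖ := by
  have hm := b04_mul_memLp hW hC ((b04_memLp x).restrict DD)
  have h1 := b04_cs hm ((b04_memLp y).restrict DD)
  refine h1.trans ?_
  have hC' : ∀ᵐ z ∂(volume.restrict DD), |W z| ≤ C :=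
    (ae_restrict_iff' a17_isOpen_DD.measurableSet).2 hC
  have i1 : IntegrableOn (fun z => (W z * fn x z) ^ 2) DD := by
    have := a17_mul_int hm hm
    exact this.congr (Eventually.of_forall fun z => by simp only [sq])
  have i2 : IntegrableOn (fun z => fn x z ^ 2) DD := (a17_sq_int (b04_memLp x)).integrableOn
  have h2 : √(∫ z in DD, (W z * fn x z) ^ 2) ≤ C * ‖fn x‖ := by
    have h3 : ∫ z in DD, (W z * fn x z) ^ 2 ≤ C ^ 2 * ∫ z in DD, fn x z ^ 2 := by
      rw [← integral_const_mul]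
      refine integral_mono_ae i1 (i2.const_mul _) ?_
      filter_upwards [hC'] with z hz
      rw [mul_pow]
      refine mul_le_mul_of_nonneg_right ?_ (sq_nonneg _)
      rw [← sq_abs (W z)]
      exact pow_le_pow_left₀ (abs_nonneg _) hz 2
    calc √(∫ z in DD, (W z * fn x z) ^ 2) ≤ √(C ^ 2 * ∫ z in DD, fn x z ^ 2) :=
          Real.sqrt_le_sqrt h3
      _ = C * √(∫ z in DD, fn x z ^ 2) := by
          rw [Real.sqrt_mul (sq_nonneg C), Real.sqrt_sq hC0]
      _ ≤ C * ‖fn x‖ := mul_le_mul_of_nonneg_left (b04_restrict_le _) hC0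
  exact mul_le_mul h2 (b04_restrict_le _) (Real.sqrt_nonneg _) (by positivity)

theorem b04_max {W : ℂ → ℝ} {C : ℝ} (hC : ∀ᵐ z, z ∈ DD → |W z| ≤ C) :
    ∀ᵐ z, z ∈ DD → |W z| ≤ max C 0 := by
  filter_upwards [hC] with z hz h
  exact (hz h).trans (le_max_left _ _)

theorem exists_T {W : ℂ → ℝ} (hW : AEStronglyMeasurable W (volume.restrict DD)) {C : ℝ}
    (hC : ∀ᵐ z, z ∈ DD → |W z| ≤ C) : ∃ T : HH →L[ℝ] HH, IsT W T := by
  have hK : ∀ x : HH, ∃ t : HH, ∀ y, inner ℝ t y = ∫ z in DD, W z * fn x z * fn y z := by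
    intro x
    obtain ⟨t, ht, _⟩ := exists_K (g := fun z => W z * fn x z)
      (b04_mul_memLp hW hC ((b04_memLp x).restrict DD))
    exact ⟨t, ht⟩
  choose t ht using hK
  let T : HH →ₗ[ℝ] HH :=
    { toFun := t
      map_add' := by
        intro x x'
        refine ext_inner_right ℝ fun y => ?_
        rw [inner_add_left, ht, ht, ht, ← integral_add (b04_int hW hC x y) (b04_int hW hC x' y)]
        refine integral_congr_ae ?_
        have h1 := ae_restrict_of_ae (s := DD) (Lp.coeFn_add (fn x) (fn x'))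
        rw [← map_add] at h1
        filter_upwards [h1] with z hz
        rw [hz, Pi.add_apply]
        ring
      map_smul' := by
        intro c x
        refine ext_inner_right ℝ fun y => ?_
        rw [RingHom.id_apply, inner_smul_left, ht, ht, ← integral_const_mul]
        refine integral_congr_ae ?_
        have h1 := ae_restrict_of_ae (s := DD) (Lp.coeFn_smul c (fn x))
        rw [← map_smul] at h1
        filter_upwards [h1] with z hz
        rw [hz, Pi.smul_apply]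
        simp only [smul_eq_mul, conj_trivial]
        ring }
  have hC0 : 0 ≤ max C 0 := le_max_right _ _
  refine ⟨LinearMap.mkContinuous T (max C 0) ?_, ?_⟩
  · intro x
    change ‖t x‖ ≤ _
    have h1 : ‖t x‖ ^ 2 ≤ max C 0 * ‖x‖ * ‖t x‖ := by
      calc ‖t x‖ ^ 2 = inner ℝ (t x) (t x) := (real_inner_self_eq_norm_sq _).symm
        _ = ∫ z in DD, W z * fn x z * fn (t x) z := ht x (t x)
        _ ≤ |∫ z in DD, W z * fn x z * fn (t x) z| := le_abs_self _
        _ ≤ max C 0 * ‖fn x‖ * ‖fn (t x)‖ := b04_bound hW hC0 (b04_max hC) _ _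
        _ ≤ max C 0 * ‖x‖ * ‖t x‖ := by
          refine mul_le_mul (mul_le_mul_of_nonneg_left (b04_fn_le x) hC0) (b04_fn_le _)
            (norm_nonneg _) (by positivity)
    by_cases h0 : ‖t x‖ = 0
    · rw [h0]; positivity
    · have hp : 0 < ‖t x‖ := lt_of_le_of_ne (norm_nonneg _) (Ne.symm h0)
      rw [sq] at h1
      exact le_of_mul_le_mul_right h1 hp
  · intro x y
    exact ht x y

/-- dependence on the weight (Hölder with the `L⁴` embedding) -/
theorem T_diff : ∃ C : ℝ, 0 < C ∧ ∀ (W W' : ℂ → ℝ) (T T' : HH →L[ℝ] HH), IsT W T → IsT W' T' →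
    MemLp (fun z => W z - W' z) 2 (volume.restrict DD) →
    (∀ x y : HH, IntegrableOn (fun z => W z * fn x z * fn y z) DD) →
    (∀ x y : HH, IntegrableOn (fun z => W' z * fn x z * fn y z) DD) →
    ‖T - T'‖ ≤ C * (eLpNorm (fun z => W z - W' z) 2 (volume.restrict DD)).toReal := by
  obtain ⟨C, hC, h4⟩ := fn_l4
  refine ⟨√C, Real.sqrt_pos.2 hC, ?_⟩
  intro W W' T T' hT hT' hD hI hI'
  have hsq : ∀ x : HH, MemLp (fun z => fn x z ^ 2) 2 volume := by
    intro x
    have h := (h4 x).1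
    have h2 : MemLp (fun z => ‖fn x z‖ ^ (2 : ENNReal).toReal) 2 volume := by
      have := h.norm_rpow_div 2
      have e : (4 : ENNReal) / 2 = 2 := by
        rw [show (4 : ENNReal) = 2 * 2 by norm_num]
        exact ENNReal.mul_div_cancel_right (by norm_num) (by norm_num)
      rwa [e] at this
    refine h2.ae_eq (Eventually.of_forall fun z => ?_)
    simp
  have hprod : ∀ x y : HH, MemLp (fun z => fn x z * fn y z) 2 (volume.restrict DD) := by
    intro x y
    have h1 := ((hsq x).restrict DD).add ((hsq y).restrict DD)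
    refine MemLp.of_le h1 (((b04_memLp x).1.mul (b04_memLp y).1).restrict) ?_
    refine Eventually.of_forall fun z => ?_
    simp only [Pi.add_apply, Real.norm_eq_abs]
    rw [abs_of_nonneg (by positivity : 0 ≤ fn x z ^ 2 + fn y z ^ 2), abs_le]
    constructor <;> nlinarith [sq_nonneg (fn x z + fn y z), sq_nonneg (fn x z - fn y z)]
  have key : ∀ x y : HH, |inner ℝ ((T - T') x) y| ≤
      √C * (eLpNorm (fun z => W z - W' z) 2 (volume.restrict DD)).toReal * ‖x‖ * ‖y‖ := by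
    intro x y
    have e1 : inner ℝ ((T - T') x) y = ∫ z in DD, (W z - W' z) * (fn x z * fn y z) := by
      rw [sub_apply, inner_sub_left, hT x y, hT' x y, ← integral_sub (hI x y) (hI' x y)]
      refine integral_congr_ae (Eventually.of_forall fun z => ?_)
      simp only
      ring
    rw [e1]
    have h1 := b04_cs hD (hprod x y)
    have h2 : √(∫ z in DD, (W z - W' z) ^ 2) =
        (eLpNorm (fun z => W z - W' z) 2 (volume.restrict DD)).toReal := by
      rw [a17_eLpNorm_two hD]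
      simp only [Real.norm_eq_abs, sq_abs]
    have h3 : √(∫ z in DD, (fn x z * fn y z) ^ 2) ≤ √C * ‖x‖ * ‖y‖ := by
      have i4 : ∀ x : HH, Integrable (fun z => (fn x z ^ 2) ^ 2) volume := fun x =>
        a17_sq_int (hsq x)
      have h5 : ∀ x : HH, √(∫ z in DD, (fn x z ^ 2) ^ 2) ≤ √C * ‖x‖ ^ 2 := by
        intro x
        have h6 : ∫ z in DD, (fn x z ^ 2) ^ 2 ≤ C * (‖x‖ ^ 2) ^ 2 := by
          calc ∫ z in DD, (fn x z ^ 2) ^ 2 ≤ ∫ z, (fn x z ^ 2) ^ 2 :=
                setIntegral_le_integral (i4 x) (Eventually.of_forall fun z => sq_nonneg _)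
            _ = ∫ z, fn x z ^ 4 := by
                refine integral_congr_ae (Eventually.of_forall fun z => ?_)
                simp only
                ring
            _ ≤ C * ‖x‖ ^ 4 := (h4 x).2
            _ = C * (‖x‖ ^ 2) ^ 2 := by ring
        calc √(∫ z in DD, (fn x z ^ 2) ^ 2) ≤ √(C * (‖x‖ ^ 2) ^ 2) := Real.sqrt_le_sqrt h6
          _ = √C * ‖x‖ ^ 2 := by rw [Real.sqrt_mul hC.le, Real.sqrt_sq (by positivity)]
      have h7 : ∫ z in DD, (fn x z * fn y z) ^ 2 ≤ (√C * ‖x‖ ^ 2) * (√C * ‖y‖ ^ 2) := by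
        have h8 := b04_cs ((hsq x).restrict DD) ((hsq y).restrict DD)
        calc ∫ z in DD, (fn x z * fn y z) ^ 2 = ∫ z in DD, fn x z ^ 2 * fn y z ^ 2 := by
              refine integral_congr_ae (Eventually.of_forall fun z => ?_)
              simp only
              ring
          _ ≤ |∫ z in DD, fn x z ^ 2 * fn y z ^ 2| := le_abs_self _
          _ ≤ _ := h8
          _ ≤ (√C * ‖x‖ ^ 2) * (√C * ‖y‖ ^ 2) :=
              mul_le_mul (h5 x) (h5 y) (Real.sqrt_nonneg _) (by positivity)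
      calc √(∫ z in DD, (fn x z * fn y z) ^ 2) ≤ √((√C * ‖x‖ ^ 2) * (√C * ‖y‖ ^ 2)) :=
            Real.sqrt_le_sqrt h7
        _ = √((√C * ‖x‖ * ‖y‖) ^ 2) := by congr 1; ring
        _ = √C * ‖x‖ * ‖y‖ := Real.sqrt_sq (by positivity)
    calc |∫ z in DD, (W z - W' z) * (fn x z * fn y z)| ≤ _ := h1
      _ ≤ (eLpNorm (fun z => W z - W' z) 2 (volume.restrict DD)).toReal * (√C * ‖x‖ * ‖y‖) := by
          rw [h2]
          exact mul_le_mul_of_nonneg_left h3 ENNReal.toReal_nonneg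
      _ = _ := by ring
  refine ContinuousLinearMap.opNorm_le_bound _ (by positivity) fun x => ?_
  have h1 := key x ((T - T') x)
  rw [real_inner_self_eq_norm_sq, abs_of_nonneg (sq_nonneg _), sq] at h1
  by_cases h0 : ‖(T - T') x‖ = 0
  · rw [h0]; positivity
  · have hp : 0 < ‖(T - T') x‖ := lt_of_le_of_ne (norm_nonneg _) (Ne.symm h0)
    exact le_of_mul_le_mul_right h1 hp

/-- compactness: `fn` is nearly finite dimensional -/
theorem fn_compact {η : ℝ} (hη : 0 < η) : ∃ (N : ℕ) (h : Fin N → HH), ∀ x : HH,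
    ‖fn x‖ ^ 2 ≤ η * ‖x‖ ^ 2 + ∑ i, (inner ℝ x (h i)) ^ 2 := by
  obtain ⟨N, g, hg, hT⟩ := compact_test hη
  have : IsFiniteMeasure (volume.restrict DD) := by
    refine ⟨?_⟩
    rw [Measure.restrict_apply_univ]
    exact lt_of_le_of_lt a17_vol_DD (by norm_num)
  have hm : ∀ i, MemLp (g i) 2 (volume.restrict DD) := by
    intro i
    obtain ⟨h1, B, hB⟩ := hg i
    exact MemLp.of_bound h1.aestronglyMeasurable B (Eventually.of_forall hB)
  have hK : ∀ i, ∃ h : HH, ∀ y, inner ℝ h y = ∫ z in DD, g i z * fn y z := by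
    intro i
    obtain ⟨h, hh, _⟩ := exists_K (hm i)
    exact ⟨h, hh⟩
  choose h hh using hK
  refine ⟨N, h, fun x => ?_⟩
  have hx : x ∈ V DD := by rw [V_top]; trivial
  obtain ⟨φ, hφ, hL⟩ := V_approx subset_rfl hx
  obtain ⟨m1, m2⟩ := a17_lim_memLp (fun n => (hφ n).1) hL
  have t1 := H30.LE.tendsto_integral_norm_sq (fun n => a17_tst_memLp (hφ n).1 2) m1 hL.2.2.1
  have t2 := H30.LE.tendsto_integral_norm_sq (fun n => a17_tst_memLp_grad (hφ n).1 2) m2 hL.2.2.2
  have t3 : ∀ i, Tendsto (fun n => ∫ z, g i z * φ n z) atTop (𝓝 (∫ z in DD, g i z * fn x z)) :=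
    fun i => (a17_weak_lim (fun n => (hφ n).1) hL (m2.restrict DD) (hm i)).2
  have t4 : Tendsto (fun n => η * (∫ z, ‖gradient (φ n) z‖ ^ 2) +
      ∑ i, (∫ z, g i z * φ n z) ^ 2) atTop
      (𝓝 (η * (∫ z, ‖gr x z‖ ^ 2) + ∑ i, (∫ z in DD, g i z * fn x z) ^ 2)) :=
    (t2.const_mul η).add (tendsto_finsetSum _ fun i _ => (t3 i).pow 2)
  have key := le_of_tendsto_of_tendsto' t1 t4 (fun n => by
    have h1 := hT (φ n) (hφ n).1
    have h2 : ∀ i, ∫ z in DD, φ n z * g i z = ∫ z, g i z * φ n z := by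
      intro i
      rw [a17_setIntegral (F := fun z => φ n z * g i z)
        (fun z hz => by rw [(a17_tst_off (hφ n).1 hz).1, zero_mul])]
      refine integral_congr_ae (Eventually.of_forall fun z => ?_)
      simp only
      ring
    simp only [h2] at h1
    simpa only [Real.norm_eq_abs, sq_abs] using h1)
  rw [b04_norm_sq, norm_HH]
  simp only [Real.norm_eq_abs, sq_abs] at key
  refine key.trans (le_of_eq ?_)
  congr 1
  refine Finset.sum_congr rfl fun i _ => ?_
  rw [real_inner_comm, hh i x]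

/-- the embedding is small off a finite dimensional subspace -/
theorem b04_tail {η : ℝ} (hη : 0 < η) : ∃ S : Submodule ℝ HH, FiniteDimensional ℝ S ∧
    ∀ x : HH, (∀ s ∈ S, inner ℝ x s = 0) → ‖fn x‖ ^ 2 ≤ η * ‖x‖ ^ 2 := by
  obtain ⟨N, h, hN⟩ := fn_compact hη
  refine ⟨Submodule.span ℝ (Set.range h), FiniteDimensional.span_of_finite ℝ (Set.finite_range h),
    fun x hx => ?_⟩
  have h1 := hN x
  have h2 : ∑ i, (inner ℝ x (h i)) ^ 2 = 0 := by
    refine Finset.sum_eq_zero fun i _ => ?_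
    rw [hx (h i) (Submodule.subset_span ⟨i, rfl⟩)]
    norm_num
  rw [h2, add_zero] at h1
  exact h1

theorem b04_totallyBounded (C : ℝ) : TotallyBounded {f : LR | ∃ x : HH, ‖x‖ ≤ C ∧ fn x = f} := by
  rw [Metric.totallyBounded_iff]
  intro ε hε
  obtain ⟨S, hS, hS2⟩ := b04_tail (η := (ε / (2 * (|C| + 1))) ^ 2 ) (by positivity)
  have hcpt : IsCompact ((fun s : S => fn (s : HH)) '' Metric.closedBall (0 : S) |C|) := by
    refine IsCompact.image (isCompact_closedBall _ _) ?_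
    exact fn.continuous.comp continuous_subtype_val
  obtain ⟨t, ht, hcov⟩ := Metric.totallyBounded_iff.1 hcpt.totallyBounded (ε / 2) (by positivity)
  refine ⟨t, ht, ?_⟩
  rintro f ⟨x, hx, rfl⟩
  have hCx : ‖x‖ ≤ |C| := hx.trans (le_abs_self C)
  set q : HH := S.starProjection x with hq
  have hqS : q ∈ S := Submodule.starProjection_apply_mem S x
  have hqn : ‖q‖ ≤ |C| := by
    have : ‖q‖ ≤ ‖x‖ := by
      have h1 : ‖S.starProjection‖ ≤ 1 := S.starProjection_norm_le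
      calc ‖q‖ ≤ ‖S.starProjection‖ * ‖x‖ := ContinuousLinearMap.le_opNorm _ _
        _ ≤ 1 * ‖x‖ := mul_le_mul_of_nonneg_right h1 (norm_nonneg _)
        _ = ‖x‖ := one_mul _
    exact this.trans hCx
  have hmem : fn q ∈ (fun s : S => fn (s : HH)) '' Metric.closedBall (0 : S) |C| := by
    refine ⟨⟨q, hqS⟩, ?_, rfl⟩
    rw [mem_closedBall_zero_iff]
    exact hqn
  have h1 := hcov hmem
  simp only [mem_iUnion, exists_prop] at h1 ⊢
  obtain ⟨y, hy, hyb⟩ := h1
  refine ⟨y, hy, ?_⟩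
  have hperp : ∀ s ∈ S, inner ℝ (x - q) s = 0 := by
    intro s hs
    exact Submodule.starProjection_inner_eq_zero x s hs
  have h2 := hS2 (x - q) hperp
  have hxq : ‖x - q‖ ≤ |C| := by
    have h3 : ‖x‖ ^ 2 = ‖x - q‖ ^ 2 + ‖q‖ ^ 2 := by
      have h4 : inner ℝ (x - q) q = 0 := hperp q hqS
      have h5 := norm_add_sq_real (x - q) q
      rw [sub_add_cancel, h4] at h5
      linarith
    have h6 : ‖x - q‖ ^ 2 ≤ ‖x‖ ^ 2 := by nlinarith [sq_nonneg ‖q‖]
    exact (le_of_sq_le_sq h6 (norm_nonneg _)).trans hCx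
  have h7 : ‖fn (x - q)‖ < ε / 2 := by
    have h8 : ‖fn (x - q)‖ ≤ ε / (2 * (|C| + 1)) * ‖x - q‖ := by
      rw [← mul_pow] at h2
      exact le_of_sq_le_sq h2 (by positivity)
    have h9 : ε / (2 * (|C| + 1)) * ‖x - q‖ ≤ ε / (2 * (|C| + 1)) * |C| :=
      mul_le_mul_of_nonneg_left hxq (by positivity)
    have h10 : ε / (2 * (|C| + 1)) * |C| < ε / 2 := by
      have hC1 : 0 < |C| + 1 := by positivity
      rw [div_mul_eq_mul_div, div_lt_div_iff₀ (by positivity) (by norm_num)]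
      nlinarith [abs_nonneg C]
    linarith
  rw [Metric.mem_ball] at hyb ⊢
  calc dist (fn x) y ≤ dist (fn x) (fn q) + dist (fn q) y := dist_triangle _ _ _
    _ < ε / 2 + ε / 2 := by
        refine add_lt_add ?_ hyb
        rw [dist_eq_norm, ← map_sub]
        exact h7
    _ = ε := by ring

/-- bounded sequences have subsequences converging in `L²` -/
theorem fn_seq {x : ℕ → HH} {C : ℝ} (hx : ∀ n, ‖x n‖ ≤ C) :
    ∃ (k : ℕ → ℕ) (y : LR), StrictMono k ∧ Tendsto (fun n => fn (x (k n))) atTop (𝓝 y) := by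
  have hc : IsCompact (closure {f : LR | ∃ x : HH, ‖x‖ ≤ C ∧ fn x = f}) :=
    (b04_totallyBounded C).closure.isCompact_of_isClosed isClosed_closure
  obtain ⟨y, _, k, hk, hlim⟩ := hc.tendsto_subseq (x := fun n => fn (x n))
    (fun n => subset_closure ⟨x n, hx n, rfl⟩)
  exact ⟨k, y, hk, hlim⟩

theorem b04_symm {W : ℂ → ℝ} {T : HH →L[ℝ] HH} (hT : IsT W T) (x y : HH) :
    inner ℝ (T x) y = inner ℝ x (T y) := by
  rw [real_inner_comm (T y) x, hT x y, hT y x]
  refine integral_congr_ae (Eventually.of_forall fun z => ?_)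
  simp only
  ring

theorem b04_pr_norm {P : HH →L[ℝ] HH} (hP : IsPr P) (x : HH) : ‖P x‖ ≤ ‖x‖ := by
  have h1 : ‖P x‖ ^ 2 ≤ ‖P x‖ * ‖x‖ := by
    have h2 : P (P x) = P x := by
      have := congrArg (fun F : HH →L[ℝ] HH => F x) hP.1
      exact this
    calc ‖P x‖ ^ 2 = inner ℝ (P x) (P x) := (real_inner_self_eq_norm_sq _).symm
      _ = inner ℝ (P (P x)) x := by rw [hP.2 (P x) x]
      _ = inner ℝ (P x) x := by rw [h2]
      _ ≤ ‖P x‖ * ‖x‖ := real_inner_le_norm _ _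
  by_cases h0 : ‖P x‖ = 0
  · rw [h0]; exact norm_nonneg _
  · have hp : 0 < ‖P x‖ := lt_of_le_of_ne (norm_nonneg _) (Ne.symm h0)
    rw [sq] at h1
    exact le_of_mul_le_mul_left h1 hp

/-- compressed operators converge in norm when the (even) projections converge strongly -/
theorem PTP_close {W : ℂ → ℝ} {T : HH →L[ℝ] HH} (hT : IsT W T) {C : ℝ}
    (hW : AEStronglyMeasurable W (volume.restrict DD)) (hC : ∀ᵐ z, z ∈ DD → |W z| ≤ C)
    {κ : ℝ} (hκ : 0 < κ) : ∃ (N : ℕ) (h : Fin N → HH) (δ : ℝ), 0 < δ ∧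
      ∀ P₁ P₂ : HH →L[ℝ] HH, IsPr P₁ → IsPr P₂ → (∀ i, ‖P₁ (h i) - P₂ (h i)‖ ≤ δ) →
        ‖P₁ ∘L T ∘L P₁ - P₂ ∘L T ∘L P₂‖ ≤ κ := by
  set D : ℝ := max C 0 with hD
  have hD0 : 0 ≤ D := le_max_right _ _
  have hCD := b04_max hC
  obtain ⟨S, hS, hS2⟩ := b04_tail (η := (κ / (8 * (D + 1))) ^ 2) (by positivity)
  set Q := S.starProjection with hQ
  have hperp : ∀ x : HH, ∀ s ∈ S, inner ℝ (x - Q x) s = 0 := fun x s hs =>
    Submodule.starProjection_inner_eq_zero x s hs
  have hQS : ∀ x : HH, Q x ∈ S := fun x => Submodule.starProjection_apply_mem S x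
  have hQn : ∀ x : HH, ‖Q x‖ ≤ ‖x‖ := by
    intro x
    calc ‖Q x‖ ≤ ‖Q‖ * ‖x‖ := ContinuousLinearMap.le_opNorm _ _
      _ ≤ 1 * ‖x‖ := mul_le_mul_of_nonneg_right S.starProjection_norm_le (norm_nonneg _)
      _ = ‖x‖ := one_mul _
  -- the tail of `T`
  have htail : ∀ x : HH, ‖T x - Q (T x)‖ ≤ κ / 8 * ‖x‖ := by
    intro x
    set r : HH := T x - Q (T x) with hr
    have h1 : ‖r‖ ^ 2 ≤ (κ / 8 * ‖x‖) * ‖r‖ := by
      have h2 : inner ℝ r r = inner ℝ (T x) r := by
        have h3 : inner ℝ r (Q (T x)) = 0 := hperp (T x) _ (hQS _)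
        have h4 : inner ℝ r r = inner ℝ r (T x) - inner ℝ r (Q (T x)) := by
          rw [← inner_sub_right]
        rw [h4, h3, sub_zero, real_inner_comm]
      have h5 : ‖fn r‖ ≤ κ / (8 * (D + 1)) * ‖r‖ := by
        have := hS2 r (hperp (T x))
        rw [← mul_pow] at this
        exact le_of_sq_le_sq this (by positivity)
      calc ‖r‖ ^ 2 = inner ℝ (T x) r := by rw [← real_inner_self_eq_norm_sq, h2]
        _ ≤ |∫ z in DD, W z * fn x z * fn r z| := by rw [hT x r]; exact le_abs_self _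
        _ ≤ D * ‖fn x‖ * ‖fn r‖ := b04_bound hW hD0 hCD _ _
        _ ≤ D * ‖x‖ * (κ / (8 * (D + 1)) * ‖r‖) :=
            mul_le_mul (mul_le_mul_of_nonneg_left (b04_fn_le x) hD0) h5 (norm_nonneg _)
              (by positivity)
        _ = (D / (D + 1)) * (κ / 8 * ‖x‖ * ‖r‖) := by
            field_simp
        _ ≤ 1 * (κ / 8 * ‖x‖ * ‖r‖) := by
            refine mul_le_mul_of_nonneg_right ?_ (by positivity)
            rw [div_le_one (by positivity)]
            linarith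
        _ = (κ / 8 * ‖x‖) * ‖r‖ := by ring
    by_cases h0 : ‖r‖ = 0
    · rw [h0]; positivity
    · have hp : 0 < ‖r‖ := lt_of_le_of_ne (norm_nonneg _) (Ne.symm h0)
      rw [sq] at h1
      exact le_of_mul_le_mul_right h1 hp
  let e := stdOrthonormalBasis ℝ S
  set N := Module.finrank ℝ S with hN
  refine ⟨N, fun i => ((e i : S) : HH), κ / (4 * (‖T‖ + 1) * (N + 1)), by positivity, ?_⟩
  intro P₁ P₂ h₁ h₂ hclose
  set δ : ℝ := κ / (4 * (‖T‖ + 1) * (N + 1)) with hδ
  have hδ0 : 0 < δ := by positivity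
  -- the difference on `S`
  have hdiffS : ∀ s ∈ S, ‖P₁ s - P₂ s‖ ≤ N * δ * ‖s‖ := by
    intro s hs
    have hsum : s = ∑ i, (inner ℝ (e i) (⟨s, hs⟩ : S) : ℝ) • ((e i : S) : HH) := by
      have h1 := e.sum_repr' (⟨s, hs⟩ : S)
      have h2 := congrArg (fun u : S => (u : HH)) h1
      simp only at h2
      refine h2.symm.trans ?_
      rw [Submodule.coe_sum]
      rfl
    have hle : ∀ i, |(inner ℝ (e i) (⟨s, hs⟩ : S) : ℝ)| ≤ ‖s‖ := by
      intro i
      have h1 := abs_real_inner_le_norm (e i) (⟨s, hs⟩ : S)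
      rw [e.orthonormal.1 i, one_mul] at h1
      exact h1
    have h3 : P₁ s - P₂ s = ∑ i, (inner ℝ (e i) (⟨s, hs⟩ : S) : ℝ) •
        (P₁ ((e i : S) : HH) - P₂ ((e i : S) : HH)) := by
      conv_lhs => rw [hsum]
      rw [map_sum, map_sum, ← Finset.sum_sub_distrib]
      refine Finset.sum_congr rfl fun i _ => ?_
      rw [map_smul, map_smul, smul_sub]
    rw [h3]
    calc ‖∑ i, (inner ℝ (e i) (⟨s, hs⟩ : S) : ℝ) •
          (P₁ ((e i : S) : HH) - P₂ ((e i : S) : HH))‖ ≤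
        ∑ i, ‖(inner ℝ (e i) (⟨s, hs⟩ : S) : ℝ) •
          (P₁ ((e i : S) : HH) - P₂ ((e i : S) : HH))‖ := norm_sum_le _ _
      _ ≤ ∑ _i : Fin N, ‖s‖ * δ := by
          refine Finset.sum_le_sum fun i _ => ?_
          rw [norm_smul, Real.norm_eq_abs]
          exact mul_le_mul (hle i) (hclose i) (norm_nonneg _) (norm_nonneg _)
      _ = N * δ * ‖s‖ := by
          rw [Finset.sum_const, Finset.card_univ, Fintype.card_fin, nsmul_eq_mul]
          ring
  -- the difference after `T`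
  have hdT : ∀ x : HH, ‖P₁ (T x) - P₂ (T x)‖ ≤ κ / 2 * ‖x‖ := by
    intro x
    have e1 : P₁ (T x) - P₂ (T x) = (P₁ (Q (T x)) - P₂ (Q (T x))) +
        (P₁ (T x - Q (T x)) - P₂ (T x - Q (T x))) := by
      rw [map_sub, map_sub]
      abel
    have h1 := hdiffS (Q (T x)) (hQS _)
    have h2 : ‖P₁ (T x - Q (T x))‖ ≤ κ / 8 * ‖x‖ := (b04_pr_norm h₁ _).trans (htail x)
    have h3 : ‖P₂ (T x - Q (T x))‖ ≤ κ / 8 * ‖x‖ := (b04_pr_norm h₂ _).trans (htail x)
    have h4 : N * δ * ‖Q (T x)‖ ≤ κ / 4 * ‖x‖ := by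
      have h5 : ‖Q (T x)‖ ≤ (‖T‖ + 1) * ‖x‖ := by
        refine (hQn _).trans ((T.le_opNorm x).trans ?_)
        refine mul_le_mul_of_nonneg_right ?_ (norm_nonneg _)
        linarith
      calc N * δ * ‖Q (T x)‖ ≤ N * δ * ((‖T‖ + 1) * ‖x‖) :=
            mul_le_mul_of_nonneg_left h5 (by positivity)
        _ = (N / (N + 1)) * (κ / 4 * ‖x‖) := by
            rw [hδ]
            have : (‖T‖ + 1) ≠ 0 := by positivity
            field_simp
        _ ≤ 1 * (κ / 4 * ‖x‖) := by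
            refine mul_le_mul_of_nonneg_right ?_ (by positivity)
            rw [div_le_one (by positivity)]
            linarith
        _ = κ / 4 * ‖x‖ := one_mul _
    rw [e1]
    calc ‖(P₁ (Q (T x)) - P₂ (Q (T x))) + (P₁ (T x - Q (T x)) - P₂ (T x - Q (T x)))‖
        ≤ ‖P₁ (Q (T x)) - P₂ (Q (T x))‖ + ‖P₁ (T x - Q (T x)) - P₂ (T x - Q (T x))‖ :=
          norm_add_le _ _
      _ ≤ κ / 4 * ‖x‖ + (κ / 8 * ‖x‖ + κ / 8 * ‖x‖) := by
          refine add_le_add (h1.trans h4) ((norm_sub_le _ _).trans (add_le_add h2 h3))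
      _ = κ / 2 * ‖x‖ := by ring
  -- the difference before `T`
  have hTd : ∀ x : HH, ‖T (P₁ x - P₂ x)‖ ≤ κ / 2 * ‖x‖ := by
    intro x
    set w : HH := T (P₁ x - P₂ x) with hw
    have h1 : ‖w‖ ^ 2 ≤ (κ / 2 * ‖x‖) * ‖w‖ := by
      have h2 : inner ℝ w w = inner ℝ x (P₁ (T w) - P₂ (T w)) := by
        calc inner ℝ w w = inner ℝ (P₁ x - P₂ x) (T w) := by
              rw [hw, b04_symm hT]
          _ = inner ℝ (P₁ x) (T w) - inner ℝ (P₂ x) (T w) := inner_sub_left _ _ _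
          _ = inner ℝ x (P₁ (T w)) - inner ℝ x (P₂ (T w)) := by rw [h₁.2, h₂.2]
          _ = inner ℝ x (P₁ (T w) - P₂ (T w)) := (inner_sub_right _ _ _).symm
      calc ‖w‖ ^ 2 = inner ℝ x (P₁ (T w) - P₂ (T w)) := by
            rw [← real_inner_self_eq_norm_sq, h2]
        _ ≤ ‖x‖ * ‖P₁ (T w) - P₂ (T w)‖ := real_inner_le_norm _ _
        _ ≤ ‖x‖ * (κ / 2 * ‖w‖) := mul_le_mul_of_nonneg_left (hdT w) (norm_nonneg _)
        _ = (κ / 2 * ‖x‖) * ‖w‖ := by ring
    by_cases h0 : ‖w‖ = 0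
    · rw [h0]; positivity
    · have hp : 0 < ‖w‖ := lt_of_le_of_ne (norm_nonneg _) (Ne.symm h0)
      rw [sq] at h1
      exact le_of_mul_le_mul_right h1 hp
  refine ContinuousLinearMap.opNorm_le_bound _ hκ.le fun x => ?_
  have e2 : (P₁ ∘L T ∘L P₁ - P₂ ∘L T ∘L P₂) x =
      (P₁ (T (P₁ x)) - P₂ (T (P₁ x))) + P₂ (T (P₁ x - P₂ x)) := by
    simp only [sub_apply, ContinuousLinearMap.comp_apply, map_sub]
    abel
  rw [e2]
  calc ‖(P₁ (T (P₁ x)) - P₂ (T (P₁ x))) + P₂ (T (P₁ x - P₂ x))‖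
      ≤ ‖P₁ (T (P₁ x)) - P₂ (T (P₁ x))‖ + ‖P₂ (T (P₁ x - P₂ x))‖ := norm_add_le _ _
    _ ≤ κ / 2 * ‖x‖ + κ / 2 * ‖x‖ := by
        refine add_le_add ?_ ((b04_pr_norm h₂ _).trans (hTd x))
        exact (hdT _).trans (mul_le_mul_of_nonneg_left (b04_pr_norm h₁ x) (by positivity))
    _ = κ * ‖x‖ := by ring

theorem b04_conj_integral (F : ℂ → ℝ) : ∫ z in DD, F (starRingEnd ℂ z) = ∫ z in DD, F z := by
  have h1 : MeasurePreserving (conjLIE : ℂ → ℂ) volume volume :=
    conjLIE.measurePreserving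
  have h2 : MeasurableEmbedding (conjLIE : ℂ → ℂ) :=
    conjLIE.toHomeomorph.measurableEmbedding
  have h3 := h1.setIntegral_preimage_emb h2 F DD
  have h4 : (conjLIE : ℂ → ℂ) ⁻¹' DD = DD := by
    ext z
    simp [DD]
  rw [h4] at h3
  exact h3

/-- `T` commutes with the even projection for conjugation invariant weights -/
theorem ev_T {W : ℂ → ℝ} {T : HH →L[ℝ] HH} (hT : IsT W T)
    (hW : ∀ᵐ z, z ∈ DD → W (starRingEnd ℂ z) = W z) : T ∘L ev = ev ∘L T := by
  -- the reflection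
  set R : HH → HH := fun x => (2 : ℝ) • ev x - x with hR
  have hRfn : ∀ x : HH, ∀ᵐ z, fn (R x) z = fn x (starRingEnd ℂ z) := by
    intro x
    have e1 : fn (R x) = (2 : ℝ) • fn (ev x) - fn x := by
      rw [hR]
      simp only [map_sub, map_smul]
    have h1 := Lp.coeFn_sub ((2 : ℝ) • fn (ev x)) (fn x)
    have h2 := Lp.coeFn_smul (2 : ℝ) (fn (ev x))
    filter_upwards [h1, h2, ev_fn x] with z a b c
    rw [e1, a, Pi.sub_apply, b, Pi.smul_apply, c]
    simp only [smul_eq_mul]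
    ring
  have hev2 : ∀ x : HH, ev (ev x) = ev x := by
    intro x
    exact congrArg (fun F : HH →L[ℝ] HH => F x) ev_idem
  have hRR : ∀ x : HH, R (R x) = x := by
    intro x
    simp only [hR, map_sub, map_smul, hev2]
    module
  have hRs : ∀ x y : HH, inner ℝ (R x) y = inner ℝ x (R y) := by
    intro x y
    have a1 : R x = ev x + ev x - x := congrArg (· - x) (two_smul ℝ (ev x))
    have a2 : R y = ev y + ev y - y := congrArg (· - y) (two_smul ℝ (ev y))
    rw [a1, a2, inner_sub_left, inner_sub_right, inner_add_left, inner_add_right, ev_symm]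
  have hTR : ∀ x y : HH, inner ℝ (T (R x)) (R y) = inner ℝ (T x) y := by
    intro x y
    rw [hT, hT, ← b04_conj_integral (fun z => W z * fn x z * fn y z)]
    refine integral_congr_ae ?_
    have h1 := ae_restrict_of_ae (s := DD) (hRfn x)
    have h2 := ae_restrict_of_ae (s := DD) (hRfn y)
    have h3 := (ae_restrict_iff' a17_isOpen_DD.measurableSet).2 hW
    filter_upwards [h1, h2, h3] with z a b c
    rw [a, b, c]
  have hcomm : ∀ x : HH, T (R x) = R (T x) := by
    intro x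
    have h1 : R (T (R x)) = T x := by
      refine ext_inner_right ℝ fun y => ?_
      rw [hRs, hTR]
    rw [← h1, hRR]
  refine ContinuousLinearMap.ext fun x => ?_
  have h1 := hcomm x
  simp only [hR, map_sub, map_smul] at h1
  have h2 : (2 : ℝ) • T (ev x) = (2 : ℝ) • ev (T x) := by
    have := congrArg (fun u => u + T x) h1
    simpa using this
  have h3 := congrArg (fun u : HH => (1 / 2 : ℝ) • u) h2
  simp only [smul_smul] at h3
  norm_num at h3
  exact h3

end Pool.Agent.H87.LE
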