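import Pool.Agent.H87.LE.Base

/-!
# Functions with square integrable Laplacian are continuous (plane)
For test functions `φ z` is bounded by the double integral of the mixed derivative, and
`4 ∫ (∂x∂y φ)² ≤ ∫ (Δ φ)²` by parts; then mollify.
-/

open MeasureTheory Complex Set Filter Topology
open scoped ContDiff Laplacian Convolution

namespace Pool.Agent.H87.LE

/-- directional derivative -/
noncomputable def a02D (v : ℂ) (f : ℂ → ℝ) : ℂ → ℝ := fun z => fderiv ℝ f z v

lemma a02_D_contDiff {v : ℂ} {f : ℂ → ℝ} (hf : ContDiff ℝ ∞ f) : ContDiff ℝ ∞ (a02D v f) := by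
  unfold a02D
  exact (hf.fderiv_right (m := ∞) (by simp)).clm_apply contDiff_const

lemma a02_D_support {v : ℂ} {f : ℂ → ℝ} : tsupport (a02D v f) ⊆ tsupport f := by
  have h : tsupport (fderiv ℝ f) ⊆ tsupport f := tsupport_fderiv_subset ℝ
  refine subset_trans (closure_mono ?_) h
  intro z hz
  simp only [a02D, Function.mem_support] at hz ⊢
  intro h0
  exact hz (by rw [h0]; simp)

lemma a02_D_compact {v : ℂ} {f : ℂ → ℝ} (hf : HasCompactSupport f) :
    HasCompactSupport (a02D v f) := hf.fderiv_apply (𝕜 := ℝ) v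

lemma a02_lap {f : ℂ → ℝ} (hf : ContDiff ℝ ∞ f) (z : ℂ) :
    Δ f z = a02D 1 (a02D 1 f) z + a02D I (a02D I f) z := by
  rw [InnerProductSpace.laplacian_eq_iteratedFDeriv_complexPlane]
  simp only
  rw [iteratedFDeriv_two_apply, iteratedFDeriv_two_apply]
  simp only [Matrix.cons_val_zero, Matrix.cons_val_one]
  have h1 : ContDiff ℝ ∞ (fderiv ℝ f) := hf.fderiv_right (m := ∞) (by simp)
  have h2 : DifferentiableAt ℝ (fderiv ℝ f) z := h1.differentiable (by simp) z
  unfold a02D
  rw [fderiv_clm_apply h2 (differentiableAt_const _), fderiv_clm_apply h2 (differentiableAt_const _)]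
  simp

lemma a02_symm {v w : ℂ} {f : ℂ → ℝ} (hf : ContDiff ℝ ∞ f) :
    a02D v (a02D w f) = a02D w (a02D v f) := by
  funext z
  have h1 : ContDiff ℝ ∞ (fderiv ℝ f) := hf.fderiv_right (m := ∞) (by simp)
  have h2 : DifferentiableAt ℝ (fderiv ℝ f) z := h1.differentiable (by simp) z
  have h3 : IsSymmSndFDerivAt ℝ f z := by
    apply ContDiffAt.isSymmSndFDerivAt (n := ∞) hf.contDiffAt
    simp only [minSmoothness_of_isRCLikeNormedField]
    exact (WithTop.coe_le_coe.2 (le_top : (2 : ℕ∞) ≤ ⊤))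
  unfold a02D
  rw [fderiv_clm_apply h2 (differentiableAt_const _), fderiv_clm_apply h2 (differentiableAt_const _)]
  simp
  exact h3 v w

lemma a02_ibp {v : ℂ} {f g : ℂ → ℝ} (hf : ContDiff ℝ ∞ f) (hg : ContDiff ℝ ∞ g)
    (hs : HasCompactSupport f) : ∫ z, f z * a02D v g z = - ∫ z, a02D v f z * g z := by
  unfold a02D
  apply integral_mul_fderiv_eq_neg_fderiv_mul_of_integrable
  · exact (((a02_D_contDiff hf (v := v)).continuous).mul hg.continuous).integrable_of_hasCompactSupport
      ((a02_D_compact hs).mul_right)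
  · exact ((hf.continuous).mul (a02_D_contDiff hg (v := v)).continuous).integrable_of_hasCompactSupport
      (hs.mul_right)
  · exact ((hf.continuous).mul hg.continuous).integrable_of_hasCompactSupport (hs.mul_right)
  · intro x _
    exact hf.differentiable (by simp) x
  · intro x _
    exact hg.differentiable (by simp) x

lemma a02_int_mul {f g : ℂ → ℝ} (hf : Continuous f) (hg : Continuous g) (hs : HasCompactSupport f) :
    Integrable (fun z => f z * g z) :=
  (hf.mul hg).integrable_of_hasCompactSupport hs.mul_right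

lemma a02_int_sq {f : ℂ → ℝ} (hf : Continuous f) (hs : HasCompactSupport f) :
    Integrable (fun z => f z ^ 2) := by
  have h := a02_int_mul hf hf hs
  simpa only [pow_two] using h

/-- `4 ∫ (∂x∂y φ)² ≤ ∫ (Δ φ)²` -/
lemma a02_mixed {φ : ℂ → ℝ} (hφ : ContDiff ℝ ∞ φ) (hs : HasCompactSupport φ) :
    4 * ∫ z, (a02D I (a02D 1 φ) z) ^ 2 ≤ ∫ z, (Δ φ z) ^ 2 := by
  have c1 := a02_D_contDiff hφ (v := 1)
  have cI := a02_D_contDiff hφ (v := I)
  have c11 := a02_D_contDiff c1 (v := 1)
  have cII := a02_D_contDiff cI (v := I)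
  have cI1 := a02_D_contDiff c1 (v := I)
  have s1 : HasCompactSupport (a02D 1 φ) := a02_D_compact hs
  have sI : HasCompactSupport (a02D I φ) := a02_D_compact hs
  have s11 : HasCompactSupport (a02D 1 (a02D 1 φ)) := a02_D_compact s1
  have sII : HasCompactSupport (a02D I (a02D I φ)) := a02_D_compact sI
  have sI1 : HasCompactSupport (a02D I (a02D 1 φ)) := a02_D_compact s1
  have e1 : ∫ z, a02D 1 (a02D 1 φ) z * a02D I (a02D I φ) z = ∫ z, (a02D I (a02D 1 φ) z) ^ 2 := by
    have t1 := a02_ibp (v := I) c11 cI s11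
    have t2 := a02_ibp (v := 1) cI1 cI sI1
    have t3 : a02D I (a02D 1 (a02D 1 φ)) = a02D 1 (a02D I (a02D 1 φ)) := a02_symm c1
    have t4 : a02D 1 (a02D I φ) = a02D I (a02D 1 φ) := a02_symm hφ
    rw [t1, t3, ← t2, t4]
    apply integral_congr_ae
    filter_upwards with z
    ring
  have ix : Integrable (fun z => a02D 1 (a02D 1 φ) z * a02D I (a02D I φ) z) :=
    a02_int_mul c11.continuous cII.continuous s11
  have h2 : ∀ z, 4 * (a02D 1 (a02D 1 φ) z * a02D I (a02D I φ) z) ≤
      (a02D 1 (a02D 1 φ) z + a02D I (a02D I φ) z) ^ 2 := by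
    intro z
    nlinarith [sq_nonneg (a02D 1 (a02D 1 φ) z - a02D I (a02D I φ) z)]
  have e2 : ∫ z, (Δ φ z) ^ 2 = ∫ z, (a02D 1 (a02D 1 φ) z + a02D I (a02D I φ) z) ^ 2 := by
    apply integral_congr_ae
    filter_upwards with z
    rw [a02_lap hφ]
  rw [← e1, e2, ← integral_const_mul]
  exact integral_mono (ix.const_mul 4)
    (a02_int_sq (c11.continuous.add cII.continuous) (s11.add sII)) h2

lemma a02_comp_re {f : ℂ → ℝ} (hf : ContDiff ℝ ∞ f) (hs : HasCompactSupport f) (z : ℂ) :
    ‖f z‖ₑ ≤ ∫⁻ s : ℝ, ‖a02D 1 f (s + z.im * I)‖ₑ := by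
  have hc : ContDiff ℝ ∞ (fun s : ℝ => (s : ℂ) + z.im * I) :=
    (ofRealCLM.contDiff).add contDiff_const
  have h1 : ContDiff ℝ 1 (fun s : ℝ => f ((s : ℂ) + z.im * I)) :=
    (hf.comp hc).of_le (by exact_mod_cast le_top)
  have hemb : IsClosedEmbedding (fun s : ℝ => (s : ℂ) + z.im * I) := by
    have := (Homeomorph.addRight (z.im * I : ℂ)).isClosedEmbedding.comp isometry_ofReal.isClosedEmbedding
    exact this
  have h2 : HasCompactSupport (fun s : ℝ => f ((s : ℂ) + z.im * I)) :=
    hs.comp_isClosedEmbedding hemb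
  have h3 := h2.enorm_le_lintegral_Ici_deriv h1 z.re
  rw [re_add_im] at h3
  refine h3.trans ((setLIntegral_le_lintegral _ _).trans (lintegral_mono fun s => ?_))
  have h4 : HasDerivAt (fun s : ℝ => (s : ℂ) + z.im * I) 1 s :=
    (ofRealCLM.hasDerivAt (x := s)).add_const _
  have h5 : HasFDerivAt f (fderiv ℝ f ((s : ℂ) + z.im * I)) ((s : ℂ) + z.im * I) :=
    (hf.differentiable (by simp) _).hasFDerivAt
  have h6 := h5.comp_hasDerivAt s h4
  have h7 : deriv (fun s : ℝ => f ((s : ℂ) + z.im * I)) s = a02D 1 f (s + z.im * I) := h6.deriv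
  rw [h7]

lemma a02_comp_im {f : ℂ → ℝ} (hf : ContDiff ℝ ∞ f) (hs : HasCompactSupport f) (s t : ℝ) :
    ‖f (s + t * I)‖ₑ ≤ ∫⁻ u : ℝ, ‖a02D I f (s + u * I)‖ₑ := by
  have hc : ContDiff ℝ ∞ (fun u : ℝ => (s : ℂ) + u * I) :=
    contDiff_const.add ((ofRealCLM.contDiff).mul contDiff_const)
  have h1 : ContDiff ℝ 1 (fun u : ℝ => f ((s : ℂ) + u * I)) :=
    (hf.comp hc).of_le (by exact_mod_cast le_top)
  have hemb : IsClosedEmbedding (fun u : ℝ => (s : ℂ) + u * I) := by
    have := (Homeomorph.addLeft (s : ℂ)).isClosedEmbedding.comp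
      (((Homeomorph.mulRight₀ (I : ℂ) I_ne_zero).isClosedEmbedding).comp isometry_ofReal.isClosedEmbedding)
    exact this
  have h2 : HasCompactSupport (fun u : ℝ => f ((s : ℂ) + u * I)) :=
    hs.comp_isClosedEmbedding hemb
  have h3 := h2.enorm_le_lintegral_Ici_deriv h1 t
  refine h3.trans ((setLIntegral_le_lintegral _ _).trans (lintegral_mono fun u => ?_))
  have h4 : HasDerivAt (fun u : ℝ => (s : ℂ) + u * I) I u := by
    have := ((ofRealCLM.hasDerivAt (x := u)).mul_const I).const_add (s : ℂ)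
    simpa using this
  have h5 : HasFDerivAt f (fderiv ℝ f ((s : ℂ) + u * I)) ((s : ℂ) + u * I) :=
    (hf.differentiable (by simp) _).hasFDerivAt
  have h6 := h5.comp_hasDerivAt u h4
  have h7 : deriv (fun u : ℝ => f ((s : ℂ) + u * I)) u = a02D I f (s + u * I) := h6.deriv
  rw [h7]

lemma a02_point {φ : ℂ → ℝ} (hφ : ContDiff ℝ ∞ φ) (hs : HasCompactSupport φ) (z : ℂ) :
    |φ z| ≤ ∫ w, |a02D I (a02D 1 φ) w| := by
  have c1 := a02_D_contDiff hφ (v := 1)
  have s1 : HasCompactSupport (a02D 1 φ) := a02_D_compact hs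
  have cI1 := a02_D_contDiff c1 (v := I)
  have sI1 : HasCompactSupport (a02D I (a02D 1 φ)) := a02_D_compact s1
  have h1 : ‖φ z‖ₑ ≤ ∫⁻ w, ‖a02D I (a02D 1 φ) w‖ₑ := by
    refine (a02_comp_re hφ hs z).trans ?_
    refine (lintegral_mono fun s => a02_comp_im c1 s1 s z.im).trans (le_of_eq ?_)
    have hm : Measurable (fun w : ℂ => ‖a02D I (a02D 1 φ) w‖ₑ) :=
      (cI1.continuous.enorm).measurable
    rw [← (volume_preserving_equiv_real_prod.symm).lintegral_comp_emb
      (measurableEquivRealProd.symm.measurableEmbedding) (fun w => ‖a02D I (a02D 1 φ) w‖ₑ)]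
    rw [Measure.volume_eq_prod, lintegral_prod]
    · refine lintegral_congr fun s => lintegral_congr fun u => ?_
      have : measurableEquivRealProd.symm (s, u) = (s : ℂ) + u * I := by
        rw [measurableEquivRealProd_symm_apply]
        apply Complex.ext <;> simp
      rw [this]
    · exact (hm.comp measurableEquivRealProd.symm.measurable).aemeasurable
  have hi : Integrable (a02D I (a02D 1 φ)) := cI1.continuous.integrable_of_hasCompactSupport sI1
  have h2 := ENNReal.toReal_mono (hi.2.ne) h1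
  rw [toReal_enorm, Real.norm_eq_abs] at h2
  refine h2.trans (le_of_eq ?_)
  rw [← integral_norm_eq_lintegral_enorm hi.1]
  rfl

lemma a02_cs {S : Set ℂ} (hS : MeasurableSet S) (hfin : volume S ≠ ⊤) {f : ℂ → ℝ}
    (hf : Continuous f) (hs : HasCompactSupport f) (hv : ∀ z, z ∉ S → f z = 0) :
    (∫ z, |f z|) ^ 2 ≤ volume.real S * ∫ z, f z ^ 2 := by
  set A := ∫ z, |f z| with hA
  set m := volume.real S with hm
  have hm0 : 0 ≤ m := measureReal_nonneg
  have hA0 : 0 ≤ A := integral_nonneg fun z => abs_nonneg _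
  have i1 : Integrable f := hf.integrable_of_hasCompactSupport hs
  have i2 := a02_int_sq hf hs
  have i3 : Integrable (S.indicator (fun _ : ℂ => (1 : ℝ))) := by
    rw [integrable_indicator_iff hS]
    exact integrableOn_const hfin
  have hind : ∫ z, S.indicator (fun _ : ℂ => (1 : ℝ)) z = m := by
    rw [integral_indicator hS, setIntegral_const]
    simp [hm]
  -- for every t: 2 t A ≤ ∫ f² + t² m
  have key : ∀ t : ℝ, 2 * t * A ≤ (∫ z, f z ^ 2) + t ^ 2 * m := by
    intro t
    have e : (∫ z, f z ^ 2) + t ^ 2 * m - 2 * t * A =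
        ∫ z, (f z ^ 2 + t ^ 2 * S.indicator (fun _ : ℂ => (1 : ℝ)) z - 2 * t * |f z|) := by
      have q1 : Integrable (fun z => f z ^ 2 + t ^ 2 * S.indicator (fun _ : ℂ => (1 : ℝ)) z) :=
        i2.add (i3.const_mul _)
      rw [integral_sub q1 (i1.abs.const_mul _), integral_add i2 (i3.const_mul _),
        integral_const_mul, integral_const_mul, hind]
    have h0 : 0 ≤ ∫ z, (f z ^ 2 + t ^ 2 * S.indicator (fun _ : ℂ => (1 : ℝ)) z - 2 * t * |f z|) := by
      apply integral_nonneg
      intro z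
      simp only [Pi.zero_apply]
      by_cases hz : z ∈ S
      · rw [Set.indicator_of_mem hz]
        nlinarith [sq_nonneg (|f z| - t), sq_abs (f z)]
      · rw [Set.indicator_of_notMem hz, hv z hz]
        simp
    linarith
  rcases hm0.eq_or_lt with h | h
  · -- m = 0
    have hA1 : A = 0 := by
      by_contra hne
      have hpos : 0 < A := lt_of_le_of_ne hA0 (Ne.symm hne)
      have := key (((∫ z, f z ^ 2) + 1) / A)
      rw [← h] at this
      have e : 2 * (((∫ z, f z ^ 2) + 1) / A) * A = 2 * ((∫ z, f z ^ 2) + 1) := by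
        field_simp
      rw [e] at this
      have h9 : 0 ≤ ∫ z, f z ^ 2 := integral_nonneg fun z => sq_nonneg _
      nlinarith
    rw [hA1, ← h]
    simp
  · have := key (A / m)
    have e1 : 2 * (A / m) * A = 2 * (A ^ 2 / m) := by ring
    have e2 : (A / m) ^ 2 * m = A ^ 2 / m := by field_simp
    rw [e1, e2] at this
    have h3 : A ^ 2 / m ≤ ∫ z, f z ^ 2 := by linarith
    rw [div_le_iff₀ h] at h3
    linarith

theorem sup_bound_test (R : ℝ) : ∃ C : ℝ, 0 < C ∧ ∀ φ : ℂ → ℝ, ContDiff ℝ ∞ φ →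
    tsupport φ ⊆ Metric.closedBall 0 R → ∀ z, φ z ^ 2 ≤ C * ∫ w, (Δ φ w) ^ 2 := by
  refine ⟨volume.real (Metric.closedBall (0 : ℂ) R) + 1, by positivity, fun φ hφ hsup z => ?_⟩
  have hs : HasCompactSupport φ :=
    (isCompact_closedBall (0 : ℂ) R).of_isClosed_subset (isClosed_tsupport φ) hsup
  have c1 := a02_D_contDiff hφ (v := 1)
  have s1 : HasCompactSupport (a02D 1 φ) := a02_D_compact hs
  have cI1 := a02_D_contDiff c1 (v := I)
  have sI1 : HasCompactSupport (a02D I (a02D 1 φ)) := a02_D_compact s1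
  have h1 := a02_point hφ hs z
  have h2 := a02_cs (S := Metric.closedBall (0 : ℂ) R) Metric.isClosed_closedBall.measurableSet
    (isCompact_closedBall (0 : ℂ) R).measure_lt_top.ne cI1.continuous sI1 (by
      intro w hw
      by_contra h0
      have : w ∈ tsupport (a02D I (a02D 1 φ)) := subset_tsupport _ h0
      exact hw (hsup (a02_D_support (a02_D_support this))))
  have h3 := a02_mixed hφ hs
  have h4 : φ z ^ 2 ≤ (∫ w, |a02D I (a02D 1 φ) w|) ^ 2 := by
    rw [← sq_abs]
    exact pow_le_pow_left₀ (abs_nonneg _) h1 2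
  have h5 : 0 ≤ ∫ w, (a02D I (a02D 1 φ) w) ^ 2 := integral_nonneg fun z => sq_nonneg _
  have h6 : 0 ≤ volume.real (Metric.closedBall (0 : ℂ) R) := measureReal_nonneg
  nlinarith

/-- convolution -/
noncomputable abbrev a02cv (ρ f : ℂ → ℝ) : ℂ → ℝ :=
  (ρ ⋆[ContinuousLinearMap.lsmul ℝ ℝ, volume] f)

lemma a02_cv_contDiff {ρ f : ℂ → ℝ} (hρ : ContDiff ℝ ∞ ρ) (hρs : HasCompactSupport ρ)
    (hf : Integrable f) : ContDiff ℝ ∞ (a02cv ρ f) :=
  hρs.contDiff_convolution_left _ hρ hf.locallyIntegrable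

lemma a02_D_cv {v : ℂ} {ρ f : ℂ → ℝ} (hρ : ContDiff ℝ ∞ ρ) (hρs : HasCompactSupport ρ)
    (hf : Integrable f) : a02D v (a02cv ρ f) = a02cv (a02D v ρ) f := by
  ext x
  have h := hρs.hasFDerivAt_convolution_left (ContinuousLinearMap.lsmul ℝ ℝ : ℝ →L[ℝ] ℝ →L[ℝ] ℝ)
    (hρ.of_le (by simp)) hf.locallyIntegrable x
  have hint := (hρs.fderiv (𝕜 := ℝ)).convolutionExists_left
    ((ContinuousLinearMap.lsmul ℝ ℝ : ℝ →L[ℝ] ℝ →L[ℝ] ℝ).precompL ℂ)
    (hρ.continuous_fderiv (by simp)) hf.locallyIntegrable x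
  unfold a02D
  rw [h.fderiv, convolution_def, ContinuousLinearMap.integral_apply hint]
  unfold a02cv
  rw [convolution_def]
  rfl

lemma a02_lap_cv {ρ f : ℂ → ℝ} (hρ : ContDiff ℝ ∞ ρ) (hρs : HasCompactSupport ρ)
    (hf : Integrable f) (x : ℂ) : Δ (a02cv ρ f) x = ∫ t, Δ ρ (x - t) * f t := by
  rw [a02_lap (a02_cv_contDiff hρ hρs hf)]
  have h1 : ∀ v : ℂ, a02D v (a02D v (a02cv ρ f)) x = ∫ t, a02D v (a02D v ρ) (x - t) * f t := by
    intro v
    rw [a02_D_cv hρ hρs hf, a02_D_cv (a02_D_contDiff hρ) (a02_D_compact hρs) hf]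
    unfold a02cv
    rw [convolution_eq_swap]
    simp
  have h4 : ∀ v : ℂ, Integrable (fun t => a02D v (a02D v ρ) (x - t) * f t) := by
    intro v
    have h2 : ContDiff ℝ ∞ (a02D v (a02D v ρ)) := a02_D_contDiff (a02_D_contDiff hρ)
    have h3 : HasCompactSupport (a02D v (a02D v ρ)) := a02_D_compact (a02_D_compact hρs)
    have := (h3.convolutionExists_left (ContinuousLinearMap.lsmul ℝ ℝ : ℝ →L[ℝ] ℝ →L[ℝ] ℝ)
      h2.continuous hf.locallyIntegrable x).integrable_swap
    simpa using this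
  rw [h1, h1, ← integral_add (h4 1) (h4 I)]
  apply integral_congr_ae
  filter_upwards with t
  rw [a02_lap hρ]
  ring

lemma a02_D_reflect {v : ℂ} {ρ : ℂ → ℝ} (hρ : ContDiff ℝ ∞ ρ) (x : ℂ) :
    a02D v (fun t => ρ (x - t)) = fun t => - a02D v ρ (x - t) := by
  ext t
  unfold a02D
  have h1 : HasFDerivAt ρ (fderiv ℝ ρ (x - t)) (x - t) := (hρ.differentiable (by simp) _).hasFDerivAt
  have h2 : HasFDerivAt (fun t : ℂ => x - t) (-(ContinuousLinearMap.id ℝ ℂ)) t := by
    simpa using (hasFDerivAt_id t).const_sub x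
  have h3 := h1.comp t h2
  have h4 : fderiv ℝ (fun t => ρ (x - t)) t = (fderiv ℝ ρ (x - t)).comp (-(ContinuousLinearMap.id ℝ ℂ)) :=
    h3.fderiv
  rw [h4]; simp

lemma a02_D_neg {v : ℂ} {ρ : ℂ → ℝ} : a02D v (fun t => - ρ t) = fun t => - a02D v ρ t := by
  ext t
  unfold a02D
  rw [fderiv_fun_neg]; simp

lemma a02_lap_reflect {ρ : ℂ → ℝ} (hρ : ContDiff ℝ ∞ ρ) (x t : ℂ) :
    Δ (fun t => ρ (x - t)) t = Δ ρ (x - t) := by
  have hs : ContDiff ℝ ∞ (fun t => ρ (x - t)) := hρ.comp (contDiff_const.sub contDiff_id)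
  have h : ∀ v : ℂ, a02D v (a02D v (fun t => ρ (x - t))) t = a02D v (a02D v ρ) (x - t) := by
    intro v
    rw [a02_D_reflect hρ, a02_D_neg, a02_D_reflect (a02_D_contDiff hρ) x]
    simp
  rw [a02_lap hs, a02_lap hρ, h, h]

section bump

variable (ρ : ContDiffBump (0 : ℂ))

lemma a02_cv_exists {f : ℂ → ℝ} (hf : Integrable f) :
    ConvolutionExists (ρ.normed volume) f (ContinuousLinearMap.lsmul ℝ ℝ) (volume : Measure ℂ) :=
  ρ.hasCompactSupport_normed.convolutionExists_left _ ρ.continuous_normed hf.locallyIntegrable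

lemma a02_cv_integrable {f : ℂ → ℝ} (hf : Integrable f) :
    Integrable (a02cv (ρ.normed volume) f) :=
  (ρ.integrable_normed).integrable_convolution _ hf

/-- Jensen -/
lemma a02_jensen {f : ℂ → ℝ} (hf : Integrable f) (hf2 : Integrable (fun z => f z ^ 2)) (x : ℂ) :
    a02cv (ρ.normed volume) f x ^ 2 ≤ a02cv (ρ.normed volume) (fun z => f z ^ 2) x := by
  set c := a02cv (ρ.normed volume) f x with hc
  have e1 : Integrable (fun t => ρ.normed volume t * f (x - t)) := by
    have := (a02_cv_exists ρ hf x).integrable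
    simpa using this
  have e2 : Integrable (fun t => ρ.normed volume t * f (x - t) ^ 2) := by
    have := (a02_cv_exists ρ hf2 x).integrable
    simpa using this
  have e0 : Integrable (fun t => ρ.normed (volume : Measure ℂ) t) := ρ.integrable_normed
  have c1 : c = ∫ t, ρ.normed volume t * f (x - t) := by
    rw [hc]; unfold a02cv; rw [convolution_def]; simp
  have c2 : a02cv (ρ.normed volume) (fun z => f z ^ 2) x = ∫ t, ρ.normed volume t * f (x - t) ^ 2 := by
    unfold a02cv; rw [convolution_def]; simp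
  have h0 : 0 ≤ ∫ t, (ρ.normed volume t * f (x - t) ^ 2 - 2 * c * (ρ.normed volume t * f (x - t)) +
      c ^ 2 * ρ.normed volume t) := by
    apply integral_nonneg
    intro t
    simp only [Pi.zero_apply]
    have := ρ.nonneg_normed (μ := (volume : Measure ℂ)) t
    have e : ρ.normed volume t * f (x - t) ^ 2 - 2 * c * (ρ.normed volume t * f (x - t)) +
      c ^ 2 * ρ.normed volume t = ρ.normed volume t * (f (x - t) - c) ^ 2 := by ring
    rw [e]
    positivity
  have q1 : Integrable (fun t => ρ.normed volume t * f (x - t) ^ 2 -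
      2 * c * (ρ.normed volume t * f (x - t))) := e2.sub (e1.const_mul _)
  rw [integral_add q1 (e0.const_mul _), integral_sub e2 (e1.const_mul _), integral_const_mul,
    integral_const_mul, ← c1, ← c2, ρ.integral_normed] at h0
  nlinarith

lemma a02_cv_sq_integrable {f : ℂ → ℝ} (hf : Integrable f) (hf2 : Integrable (fun z => f z ^ 2)) :
    Integrable (fun z => a02cv (ρ.normed volume) f z ^ 2) := by
  refine (a02_cv_integrable ρ hf2).mono ?_ ?_
  · exact (a02_cv_integrable ρ hf).1.pow 2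
  · filter_upwards with z
    rw [Real.norm_of_nonneg (sq_nonneg _)]
    exact (a02_jensen ρ hf hf2 z).trans (le_abs_self _)

lemma a02_cv_l2 {f : ℂ → ℝ} (hf : Integrable f) (hf2 : Integrable (fun z => f z ^ 2)) :
    ∫ z, a02cv (ρ.normed volume) f z ^ 2 ≤ ∫ z, f z ^ 2 := by
  refine (integral_mono (a02_cv_sq_integrable ρ hf hf2) (a02_cv_integrable ρ hf2)
    (a02_jensen ρ hf hf2)).trans (le_of_eq ?_)
  have key := integral_convolution (μ := (volume : Measure ℂ)) (ν := (volume : Measure ℂ))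
    (ContinuousLinearMap.lsmul ℝ ℝ : ℝ →L[ℝ] ℝ →L[ℝ] ℝ) (ρ.integrable_normed (μ := volume)) hf2
  unfold a02cv
  rw [key]
  simp [ρ.integral_normed]

end bump

/-- a.e. convergence and bounded norms give convergence in `L²` -/
lemma a02_l2_tendsto {f : ℂ → ℝ} (hf2 : Integrable (fun z => f z ^ 2)) (hf : AEStronglyMeasurable f volume)
    {g : ℕ → ℂ → ℝ} (hg : ∀ n, AEStronglyMeasurable (g n) volume)
    (hg2 : ∀ n, Integrable (fun z => g n z ^ 2)) (hle : ∀ n, ∫ z, g n z ^ 2 ≤ ∫ z, f z ^ 2)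
    (hae : ∀ᵐ z, Tendsto (fun n => g n z) atTop (𝓝 (f z))) :
    Tendsto (fun n => ∫ z, (g n z - f z) ^ 2) atTop (𝓝 0) := by
  have hfm : MemLp f 2 volume := (memLp_two_iff_integrable_sq hf).2 hf2
  have hgm : ∀ n, MemLp (g n) 2 volume := fun n => (memLp_two_iff_integrable_sq (hg n)).2 (hg2 n)
  have hadd : ∀ n, Integrable (fun z => (g n z + f z) ^ 2) := fun n => ((hgm n).add hfm).integrable_sq
  have hsub : ∀ n, Integrable (fun z => (g n z - f z) ^ 2) := fun n => ((hgm n).sub hfm).integrable_sq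
  have hpar : ∀ n, ∫ z, (g n z - f z) ^ 2 ≤ 4 * (∫ z, f z ^ 2) - ∫ z, (g n z + f z) ^ 2 := by
    intro n
    have e : (∫ z, (g n z - f z) ^ 2) + ∫ z, (g n z + f z) ^ 2 =
        2 * (∫ z, g n z ^ 2) + 2 * ∫ z, f z ^ 2 := by
      rw [← integral_add (hsub n) (hadd n), ← integral_const_mul, ← integral_const_mul,
        ← integral_add ((hg2 n).const_mul 2) (hf2.const_mul 2)]
      apply integral_congr_ae
      filter_upwards with z
      ring
    have := hle n
    linarith
  have hF : ∫⁻ z, ENNReal.ofReal ((f z + f z) ^ 2) ≤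
      liminf (fun n => ∫⁻ z, ENNReal.ofReal ((g n z + f z) ^ 2)) atTop := by
    have h1 := lintegral_liminf_le' (μ := (volume : Measure ℂ)) (u := (atTop : Filter ℕ))
      (f := fun n z => ENNReal.ofReal ((g n z + f z) ^ 2)) (fun n =>
        (((hg n).add hf).pow 2).aemeasurable.ennreal_ofReal)
    refine le_trans (lintegral_mono_ae ?_) h1
    filter_upwards [hae] with z hz
    have : Tendsto (fun n => ENNReal.ofReal ((g n z + f z) ^ 2)) atTop
        (𝓝 (ENNReal.ofReal ((f z + f z) ^ 2))) :=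
      ENNReal.tendsto_ofReal ((hz.add tendsto_const_nhds).pow 2)
    exact this.liminf_eq.ge
  have hff : Integrable (fun z => (f z + f z) ^ 2) := (hfm.add hfm).integrable_sq
  have e4 : ∫ z, (f z + f z) ^ 2 = 4 * ∫ z, f z ^ 2 := by
    rw [← integral_const_mul]
    apply integral_congr_ae
    filter_upwards with z
    ring
  rw [← ofReal_integral_eq_lintegral_ofReal hff (Eventually.of_forall fun z => sq_nonneg _), e4] at hF
  simp_rw [← ofReal_integral_eq_lintegral_ofReal (hadd _) (Eventually.of_forall fun z => sq_nonneg _)] at hF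
  rw [Metric.tendsto_atTop]
  intro ε hε
  have hnn : ∀ n, 0 ≤ ∫ z, (g n z - f z) ^ 2 := fun n => integral_nonneg fun z => sq_nonneg _
  have hS0 : 0 ≤ ∫ z, f z ^ 2 := integral_nonneg fun z => sq_nonneg _
  have hev : ∀ᶠ n in atTop, 4 * (∫ z, f z ^ 2) - ε < ∫ z, (g n z + f z) ^ 2 := by
    rcases hS0.eq_or_lt with h | h
    · filter_upwards with n
      have : 0 ≤ ∫ z, (g n z + f z) ^ 2 := integral_nonneg fun z => sq_nonneg _
      rw [← h]
      linarith
    · have hlt : ENNReal.ofReal (4 * (∫ z, f z ^ 2) - ε) <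
          liminf (fun n => ENNReal.ofReal (∫ z, (g n z + f z) ^ 2)) atTop := by
        refine lt_of_lt_of_le ?_ hF
        rw [ENNReal.ofReal_lt_ofReal_iff (by positivity)]
        linarith
      have := eventually_lt_of_lt_liminf hlt
      filter_upwards [this] with n hn
      by_contra hcon
      exact absurd hn (not_lt.2 (ENNReal.ofReal_le_ofReal (not_lt.1 hcon)))
  obtain ⟨N, hN⟩ := eventually_atTop.1 hev
  refine ⟨N, fun n hn => ?_⟩
  rw [Real.dist_eq, sub_zero, abs_of_nonneg (hnn n)]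
  have h1 := hN n hn
  have h2 := hpar n
  linarith

/-- If `v` and `F` are square integrable, vanish outside a ball and `-Δ v = F` in the sense of
distributions, then `v` has a continuous representative bounded by `C ‖F‖₂`. -/
theorem cont_of_lap (R : ℝ) : ∃ C : ℝ, 0 < C ∧ ∀ v F : ℂ → ℝ, MemLp v 2 volume → MemLp F 2 volume →
    (∀ z, R ≤ ‖z‖ → v z = 0 ∧ F z = 0) →
    (∀ φ : ℂ → ℝ, ContDiff ℝ ∞ φ → HasCompactSupport φ →
      ∫ z, v z * Δ φ z = - ∫ z, F z * φ z) →
    ∃ g : ℂ → ℝ, Continuous g ∧ g =ᵐ[volume] v ∧ ∀ z, g z ^ 2 ≤ C * ∫ w, F w ^ 2 := by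
  set R' : ℝ := max R 0 + 1 with hR'
  obtain ⟨C, hC, hsup⟩ := sup_bound_test R'
  refine ⟨C, hC, fun v F hv hF hvan hweak => ?_⟩
  have hint : ∀ f : ℂ → ℝ, MemLp f 2 volume → (∀ z, R ≤ ‖z‖ → f z = 0) → Integrable f := by
    intro f hf hz
    have h1 : IntegrableOn f (Metric.closedBall 0 R) := by
      have h2 : MemLp f 2 (volume.restrict (Metric.closedBall 0 R)) := hf.restrict _
      have : IsFiniteMeasure (volume.restrict (Metric.closedBall (0 : ℂ) R)) :=
        ⟨by rw [Measure.restrict_apply_univ]; exact (isCompact_closedBall (0 : ℂ) R).measure_lt_top⟩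
      exact h2.integrable one_le_two
    refine (integrableOn_iff_integrable_of_support_subset ?_).1 h1
    intro z hzs
    by_contra hcon
    rw [Metric.mem_closedBall, dist_zero_right, not_le] at hcon
    exact hzs (hz z hcon.le)
  have hv1 : Integrable v := hint v hv fun z hz => (hvan z hz).1
  have hF1 : Integrable F := hint F hF fun z hz => (hvan z hz).2
  have hv2 := hv.integrable_sq
  have hF2 := hF.integrable_sq
  -- bumps
  let ρ : ℕ → ContDiffBump (0 : ℂ) := fun n =>
    ⟨1 / (2 * ((n : ℝ) + 1)), 1 / ((n : ℝ) + 1), by positivity, by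
      apply one_div_lt_one_div_of_lt (by positivity)
      linarith [(Nat.cast_nonneg n : (0 : ℝ) ≤ n)]⟩
  have hout : ∀ n, (ρ n).rOut = 1 / ((n : ℝ) + 1) := fun n => rfl
  have hin : ∀ n, (ρ n).rIn = 1 / (2 * ((n : ℝ) + 1)) := fun n => rfl
  have hlim : Tendsto (fun n => (ρ n).rOut) atTop (𝓝 0) := by
    simp_rw [hout]
    exact tendsto_one_div_add_atTop_nhds_zero_nat
  have hratio : ∀ᶠ n in (atTop : Filter ℕ), (ρ n).rOut ≤ 2 * (ρ n).rIn := by
    filter_upwards with n
    rw [hout, hin]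
    apply le_of_eq
    field_simp
  have hout1 : ∀ n, (ρ n).rOut ≤ 1 := by
    intro n
    rw [hout, div_le_one (by positivity)]
    linarith [(Nat.cast_nonneg n : (0 : ℝ) ≤ n)]
  set V : ℕ → ℂ → ℝ := fun n => a02cv ((ρ n).normed volume) v with hV
  set G : ℕ → ℂ → ℝ := fun n => a02cv ((ρ n).normed volume) F with hG
  have hVs : ∀ n, ContDiff ℝ ∞ (V n) := fun n =>
    a02_cv_contDiff (ρ n).contDiff_normed (ρ n).hasCompactSupport_normed hv1
  have hVsup : ∀ n, tsupport (V n) ⊆ Metric.closedBall 0 R' := by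
    intro n
    apply closure_minimal _ Metric.isClosed_closedBall
    refine (support_convolution_subset _).trans ?_
    intro z hz
    obtain ⟨a, ha, b, hb, rfl⟩ := Set.mem_add.1 hz
    have h1 : ‖a‖ < 1 := by
      have : a ∈ Metric.ball (0 : ℂ) (ρ n).rOut := by
        rw [← (ρ n).support_normed_eq (μ := (volume : Measure ℂ))]; exact ha
      rw [Metric.mem_ball, dist_zero_right] at this
      exact this.trans_le (hout1 n)
    have h2 : ‖b‖ < R := by
      by_contra hcon
      exact hb (hvan b (not_lt.1 hcon)).1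
    rw [Metric.mem_closedBall, dist_zero_right]
    have := norm_add_le a b
    have := le_max_left R 0
    linarith
  have hlapV : ∀ n z, Δ (V n) z = - G n z := by
    intro n z
    simp only [hV, hG]
    rw [a02_lap_cv (ρ n).contDiff_normed (ρ n).hasCompactSupport_normed hv1]
    have hφ : ContDiff ℝ ∞ (fun t => (ρ n).normed volume (z - t)) :=
      ((ρ n).contDiff_normed (μ := volume)).comp (contDiff_const.sub contDiff_id)
    have hφs : HasCompactSupport (fun t => (ρ n).normed volume (z - t)) :=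
      ((ρ n).hasCompactSupport_normed (μ := volume)).comp_homeomorph (Homeomorph.subLeft z)
    have h1 := hweak _ hφ hφs
    have h2 : ∫ t, v t * Δ (fun t => (ρ n).normed volume (z - t)) t =
        ∫ t, Δ ((ρ n).normed volume) (z - t) * v t := by
      apply integral_congr_ae
      filter_upwards with t
      rw [a02_lap_reflect (ρ n).contDiff_normed]
      ring
    rw [← h2, h1]
    congr 1
    unfold a02cv
    rw [convolution_eq_swap]
    apply integral_congr_ae
    filter_upwards with t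
    simp [mul_comm]
  -- `L²` convergence of `G n`
  have hGae : ∀ᵐ z, Tendsto (fun n => G n z) atTop (𝓝 (F z)) :=
    ContDiffBump.ae_convolution_tendsto_right_of_locallyIntegrable hlim hratio hF1.locallyIntegrable
  have hVae : ∀ᵐ z, Tendsto (fun n => V n z) atTop (𝓝 (v z)) :=
    ContDiffBump.ae_convolution_tendsto_right_of_locallyIntegrable hlim hratio hv1.locallyIntegrable
  have hGm : ∀ n, AEStronglyMeasurable (G n) volume := fun n => (a02_cv_integrable (ρ n) hF1).1
  have hG2 : ∀ n, Integrable (fun z => G n z ^ 2) := fun n => a02_cv_sq_integrable (ρ n) hF1 hF2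
  have hGle : ∀ n, ∫ z, G n z ^ 2 ≤ ∫ z, F z ^ 2 := fun n => a02_cv_l2 (ρ n) hF1 hF2
  have hL2 := a02_l2_tendsto hF2 hF.1 hGm hG2 hGle hGae
  have hGmem : ∀ n, MemLp (G n) 2 volume := fun n => (memLp_two_iff_integrable_sq (hGm n)).2 (hG2 n)
  have hdF : ∀ n, Integrable (fun z => (G n z - F z) ^ 2) := fun n => ((hGmem n).sub hF).integrable_sq
  -- sup bound
  have hsupV : ∀ n z, V n z ^ 2 ≤ C * ∫ w, F w ^ 2 := by
    intro n z
    refine (hsup (V n) (hVs n) (hVsup n) z).trans ?_
    have : ∫ w, (Δ (V n) w) ^ 2 = ∫ w, G n w ^ 2 := by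
      apply integral_congr_ae
      filter_upwards with w
      rw [hlapV]
      ring
    rw [this]
    exact mul_le_mul_of_nonneg_left (hGle n) hC.le
  have hdiff : ∀ n m z, (V n z - V m z) ^ 2 ≤
      C * (2 * (∫ w, (G n w - F w) ^ 2) + 2 * ∫ w, (G m w - F w) ^ 2) := by
    intro n m z
    have hs1 : ContDiff ℝ ∞ (fun z => V n z - V m z) := (hVs n).sub (hVs m)
    have hs2 : tsupport (fun z => V n z - V m z) ⊆ Metric.closedBall 0 R' := by
      apply closure_minimal _ Metric.isClosed_closedBall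
      intro w hw
      by_contra hcon
      apply hw
      have a1 : V n w = 0 := image_eq_zero_of_notMem_tsupport fun h => hcon (hVsup n h)
      have a2 : V m w = 0 := image_eq_zero_of_notMem_tsupport fun h => hcon (hVsup m h)
      simp only [a1, a2, sub_zero]
    refine (hsup _ hs1 hs2 z).trans (mul_le_mul_of_nonneg_left ?_ hC.le)
    have hl : ∀ w, Δ (fun z => V n z - V m z) w = - (G n w - G m w) := by
      intro w
      have hD : ∀ u : ℂ, ∀ f g : ℂ → ℝ, ContDiff ℝ ∞ f → ContDiff ℝ ∞ g →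
          a02D u (fun z => f z - g z) = fun z => a02D u f z - a02D u g z := by
        intro u f g hf hg
        ext t
        unfold a02D
        rw [fderiv_fun_sub (hf.differentiable (by simp) t) (hg.differentiable (by simp) t)]
        simp
      rw [a02_lap hs1, hD 1 _ _ (hVs n) (hVs m), hD I _ _ (hVs n) (hVs m),
        hD 1 _ _ (a02_D_contDiff (hVs n)) (a02_D_contDiff (hVs m)),
        hD I _ _ (a02_D_contDiff (hVs n)) (a02_D_contDiff (hVs m))]
      have b1 := hlapV n w
      have b2 := hlapV m w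
      rw [a02_lap (hVs n)] at b1
      rw [a02_lap (hVs m)] at b2
      simp only
      linarith
    rw [← integral_const_mul, ← integral_const_mul, ← integral_add ((hdF n).const_mul 2)
      ((hdF m).const_mul 2)]
    have hi : Integrable (fun w => (G n w - G m w) ^ 2) := ((hGmem n).sub (hGmem m)).integrable_sq
    have e : ∫ w, (Δ (fun z => V n z - V m z) w) ^ 2 = ∫ w, (G n w - G m w) ^ 2 := by
      apply integral_congr_ae
      filter_upwards with w
      rw [hl]
      ring
    rw [e]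
    apply integral_mono hi (((hdF n).const_mul 2).add ((hdF m).const_mul 2))
    intro w
    simp only [Pi.add_apply]
    nlinarith [sq_nonneg ((G n w - F w) + (G m w - F w))]
  -- uniform convergence
  have hcau : UniformCauchySeqOn V atTop univ := by
    rw [Metric.uniformCauchySeqOn_iff]
    intro ε hε
    have hpos : 0 < ε ^ 2 / (4 * C) / 2 := by positivity
    obtain ⟨N, hN⟩ := (Metric.tendsto_atTop.1 hL2) (ε ^ 2 / (4 * C) / 2) hpos
    refine ⟨N, fun m hm n hn z _ => ?_⟩
    have h1 := hN m hm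
    have h2 := hN n hn
    rw [Real.dist_eq, sub_zero, abs_of_nonneg (integral_nonneg fun z => sq_nonneg _)] at h1 h2
    have h3 := hdiff m n z
    have h4 : (V m z - V n z) ^ 2 < ε ^ 2 := by
      refine h3.trans_lt ?_
      have : C * (2 * (∫ w, (G m w - F w) ^ 2) + 2 * ∫ w, (G n w - F w) ^ 2) <
          C * (2 * (ε ^ 2 / (4 * C) / 2) + 2 * (ε ^ 2 / (4 * C) / 2)) := by
        apply mul_lt_mul_of_pos_left _ hC
        linarith
      refine this.trans_le ?_
      have e : C * (2 * (ε ^ 2 / (4 * C) / 2) + 2 * (ε ^ 2 / (4 * C) / 2)) = ε ^ 2 / 2 := by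
        field_simp
        ring
      rw [e]
      nlinarith [sq_nonneg ε]
    rw [Real.dist_eq]
    exact abs_lt_of_sq_lt_sq h4 hε.le
  have hpt : ∀ z, ∃ l, Tendsto (fun n => V n z) atTop (𝓝 l) := fun z =>
    cauchySeq_tendsto_of_complete (hcau.cauchySeq (mem_univ z))
  choose g hg using hpt
  have hunif : TendstoUniformlyOn V g atTop univ :=
    hcau.tendstoUniformlyOn_of_tendsto fun z _ => hg z
  have hcont : Continuous g := by
    rw [← continuousOn_univ]
    exact hunif.continuousOn (Eventually.of_forall fun n => (hVs n).continuous.continuousOn).frequently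
  refine ⟨g, hcont, ?_, fun z => ?_⟩
  · filter_upwards [hVae] with z hz
    exact tendsto_nhds_unique (hg z) hz
  · exact le_of_tendsto ((hg z).pow 2) (Eventually.of_forall fun n => hsupV n z)

end Pool.Agent.H87.LE
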