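import Pool.Agent.H17.LE.Two

open MeasureTheory Complex Set Filter Topology
open scoped ContDiff Laplacian

namespace Pool.Agent.H87.LE

/-! # A4: spectral inequality on the unit square
From the 1D inequality `∫ f'² ≥ 9π² ∫ f² - 8π² a₁² - 5π² a₂²` (`aⱼ = √2 ∫ f sin jπx`, Parseval for
the odd extension to `(-1,1)`), applied in both variables, and Bessel's inequality for
`span {e_jk : j ≤ 2 or k ≤ 2}`. -/

noncomputable def cf (φ : ℂ → ℝ) (j k : ℕ) : ℝ :=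
  2 * ∫ z in QQ, φ z * (Real.sin (j * Real.pi * z.re) * Real.sin (k * Real.pi * z.im))

lemma a04_fin {n g a b : ℝ → ℝ} (c1 : Continuous n) (c2 : Continuous g) (c3 : Continuous a)
    (c4 : Continuous b) (h : ∀ x, 9 * Real.pi ^ 2 * n x ≤ g x + 16 * Real.pi ^ 2 * a x ^ 2 +
      10 * Real.pi ^ 2 * b x ^ 2) :
    9 * Real.pi ^ 2 * (∫ x in (0 : ℝ)..1, n x) ≤ (∫ x in (0 : ℝ)..1, g x) +
      (16 * Real.pi ^ 2 * (∫ x in (0 : ℝ)..1, a x ^ 2) +
        10 * Real.pi ^ 2 * ∫ x in (0 : ℝ)..1, b x ^ 2) := by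
  have h1 : ∫ x in (0 : ℝ)..1, 9 * Real.pi ^ 2 * n x ≤ ∫ x in (0 : ℝ)..1,
      (g x + (16 * Real.pi ^ 2 * a x ^ 2 + 10 * Real.pi ^ 2 * b x ^ 2)) :=
    intervalIntegral.integral_mono_on (by norm_num)
      (Continuous.intervalIntegrable (by fun_prop) _ _)
      (Continuous.intervalIntegrable (by fun_prop) _ _) fun x _ => by linarith [h x]
  rw [intervalIntegral.integral_const_mul, Pool.Agent.H17.LE.int_add' c2 (by fun_prop),
    Pool.Agent.H17.LE.int_add' (by fun_prop) (by fun_prop), intervalIntegral.integral_const_mul,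
    intervalIntegral.integral_const_mul] at h1
  exact h1

open Pool.Agent.H17.LE Pool.Agent.H20.LE in
theorem spec_test {φ : ℂ → ℝ} (hφ : Tst QQ φ) :
    8 * Real.pi ^ 2 * (∫ z, φ z ^ 2) ≤ (∫ z, ‖gradient φ z‖ ^ 2) +
      6 * Real.pi ^ 2 * cf φ 1 1 ^ 2 + 3 * Real.pi ^ 2 * cf φ 1 2 ^ 2 +
      3 * Real.pi ^ 2 * cf φ 2 1 ^ 2 := by
  obtain ⟨hd, hcs, hsub⟩ := hφ
  have hd1 : ContDiff ℝ 1 φ := hd.of_le (by exact_mod_cast le_top)
  have hc : Continuous φ := hd.continuous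
  have hdiff : Differentiable ℝ φ := hd1.differentiable (by norm_num)
  -- support facts
  have hz : ∀ z, z ∉ QQ → φ z = 0 := fun z hz => by
    by_contra h
    exact hz (hsub (subset_tsupport φ h))
  have hz' : ∀ z, z ∉ QQ → fderiv ℝ φ z = 0 := fun z hz => by
    by_contra h
    exact hz (hsub (support_fderiv_subset ℝ h))
  have hQS : ∀ z, z ∉ Sq 0 0 1 → z ∉ QQ := fun z h1 h2 => h1
    ⟨⟨h2.1.le, by linarith [h2.2.1]⟩, ⟨h2.2.2.1.le, by linarith [h2.2.2.2]⟩⟩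
  have memQ : ∀ x y : ℝ, ((x : ℂ) + y * I ∈ QQ) ↔ x ∈ Ioo (0 : ℝ) 1 ∧ y ∈ Ioo (0 : ℝ) 1 := by
    intro x y
    simp [QQ, and_assoc]
  set G : ℝ → ℝ → ℝ := fun x y => φ (x + y * I) with hGdef
  have hG : Continuous fun p : ℝ × ℝ => G p.1 p.2 := by
    simp only [hGdef]
    fun_prop
  set A : ℝ → ℝ → ℝ := fun j y => ∫ x in (0 : ℝ)..1, G x y * S j x with hA
  set B : ℝ → ℝ → ℝ := fun k x => ∫ y in (0 : ℝ)..1, G x y * S k y with hB
  set C : ℝ → ℝ → ℝ := fun j k => ∫ x in (0 : ℝ)..1, ∫ y in (0 : ℝ)..1, G x y * S j x * S k y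
    with hC
  obtain ⟨b0, b1, b2, b3, b4⟩ := bessel_two hG (A := A) (B := B) (C := C)
    (fun _ _ => rfl) (fun _ _ => rfl) (fun _ _ => rfl)
  -- integrals over the plane
  have full : ∀ {f : ℂ → ℝ}, Continuous f → (∀ z, z ∉ QQ → f z = 0) →
      ∫ z, f z = ∫ x in (0 : ℝ)..1, ∫ y in (0 : ℝ)..1, f (x + y * I) := by
    intro f hf h0
    rw [← setIntegral_eq_integral_of_forall_compl_eq_zero (s := Sq 0 0 1)
      (fun z hz => h0 z (hQS z hz)), sq_fubini 0 0 one_pos hf]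
    simp
  have hN : ∫ z, φ z ^ 2 = ∫ x in (0 : ℝ)..1, ∫ y in (0 : ℝ)..1, G x y ^ 2 :=
    full (f := fun z => φ z ^ 2) (by fun_prop) (fun z h => by simp [hz z h])
  have hcf : ∀ j k : ℕ, cf φ j k = 2 * C j k := by
    intro j k
    unfold cf
    congr 1
    rw [setIntegral_eq_integral_of_forall_compl_eq_zero (fun z h => by simp [hz z h])]
    rw [full (f := fun z => φ z * (Real.sin (j * Real.pi * z.re) * Real.sin (k * Real.pi * z.im)))
      (by fun_prop) (fun z h => by simp [hz z h])]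
    simp only [hC]
    congr 1
    funext x
    congr 1
    funext y
    simp [hGdef, S, mul_assoc]
  -- derivatives
  set G1 : ℝ → ℝ → ℝ := fun x y => fderiv ℝ φ (x + y * I) 1 with hG1
  set G2 : ℝ → ℝ → ℝ := fun x y => fderiv ℝ φ (x + y * I) I with hG2
  have hc1 := continuous_fderiv_apply hd1 1
  have hc2 := continuous_fderiv_apply hd1 I
  have hG1c : Continuous fun p : ℝ × ℝ => G1 p.1 p.2 :=
    hc1.comp (by fun_prop : Continuous fun p : ℝ × ℝ => (p.1 : ℂ) + p.2 * I)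
  have hG2c : Continuous fun p : ℝ × ℝ => G2 p.1 p.2 :=
    hc2.comp (by fun_prop : Continuous fun p : ℝ × ℝ => (p.1 : ℂ) + p.2 * I)
  have hgrad : ∫ z, ‖gradient φ z‖ ^ 2 =
      (∫ x in (0 : ℝ)..1, ∫ y in (0 : ℝ)..1, G1 x y ^ 2) +
      ∫ x in (0 : ℝ)..1, ∫ y in (0 : ℝ)..1, G2 x y ^ 2 := by
    simp_rw [grad_sq]
    have e1 : ∫ z, (fderiv ℝ φ z 1 ^ 2 + fderiv ℝ φ z I ^ 2) =
        (∫ z, fderiv ℝ φ z 1 ^ 2) + ∫ z, fderiv ℝ φ z I ^ 2 := by
      have hs : ∀ v : ℂ, HasCompactSupport fun z => fderiv ℝ φ z v ^ 2 := by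
        intro v
        refine (hcs.fderiv (𝕜 := ℝ)).mono' fun z h => ?_
        apply subset_tsupport
        intro h0
        apply h
        simp [h0]
      exact integral_add ((hc1.pow 2).integrable_of_hasCompactSupport (hs 1))
        ((hc2.pow 2).integrable_of_hasCompactSupport (hs I))
    rw [e1, full (f := fun z => fderiv ℝ φ z 1 ^ 2) (hc1.pow 2) (fun z h => by simp [hz' z h]),
      full (f := fun z => fderiv ℝ φ z I ^ 2) (hc2.pow 2) (fun z h => by simp [hz' z h])]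
  -- one-dimensional inequalities
  have hx : ∀ y, 9 * Real.pi ^ 2 * ∫ x in (0 : ℝ)..1, G x y ^ 2 ≤
      (∫ x in (0 : ℝ)..1, G1 x y ^ 2) + 16 * Real.pi ^ 2 * A 1 y ^ 2 +
        10 * Real.pi ^ 2 * A 2 y ^ 2 := by
    intro y
    have cy : Continuous fun x : ℝ => ((x, y) : ℝ × ℝ) := by fun_prop
    exact one (f := fun x => G x y) (f' := fun x => G1 x y) (fun x => hasDerivAt_re hdiff x y)
      (hG1c.comp cy)
      (fun x h => hz _ (fun h' => h ((memQ x y).1 h').1))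
      (fun x h => by
        simp only [hG1]
        rw [hz' _ (fun h' => h ((memQ x y).1 h').1)]
        rfl)
  have hy : ∀ x, 9 * Real.pi ^ 2 * ∫ y in (0 : ℝ)..1, G x y ^ 2 ≤
      (∫ y in (0 : ℝ)..1, G2 x y ^ 2) + 16 * Real.pi ^ 2 * B 1 x ^ 2 +
        10 * Real.pi ^ 2 * B 2 x ^ 2 := by
    intro x
    have cx : Continuous fun y : ℝ => ((x, y) : ℝ × ℝ) := by fun_prop
    exact one (f := fun y => G x y) (f' := fun y => G2 x y) (fun y => hasDerivAt_im hdiff x y)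
      (hG2c.comp cx)
      (fun y h => hz _ (fun h' => h ((memQ x y).1 h').2))
      (fun y h => by
        simp only [hG2]
        rw [hz' _ (fun h' => h ((memQ x y).1 h').2)]
        rfl)
  have hAc : ∀ j, Continuous (A j) := fun j => cont_left hG j
  have hBc : ∀ k, Continuous (B k) := fun k => cont_right hG k
  have cpar : ∀ {H : ℝ → ℝ → ℝ}, (Continuous fun p : ℝ × ℝ => H p.1 p.2) →
      Continuous fun x => ∫ y in (0 : ℝ)..1, H x y ^ 2 := fun {H} h =>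
    intervalIntegral.continuous_parametric_intervalIntegral_of_continuous'
        (f := fun x y => H x y ^ 2) ((continuous_pow 2).comp h) 0 1
  have i1 : 9 * Real.pi ^ 2 * (∫ x in (0 : ℝ)..1, ∫ y in (0 : ℝ)..1, G x y ^ 2) ≤
      (∫ x in (0 : ℝ)..1, ∫ y in (0 : ℝ)..1, G2 x y ^ 2) +
        (16 * Real.pi ^ 2 * (∫ x in (0 : ℝ)..1, B 1 x ^ 2) +
        10 * Real.pi ^ 2 * ∫ x in (0 : ℝ)..1, B 2 x ^ 2) := by
    have c1 := cpar hG
    have c2 := cpar hG2c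
    have c3 := hBc 1
    have c4 := hBc 2
    exact a04_fin c1 c2 c3 c4 hy
  have i2 : 9 * Real.pi ^ 2 * (∫ x in (0 : ℝ)..1, ∫ y in (0 : ℝ)..1, G x y ^ 2) ≤
      (∫ x in (0 : ℝ)..1, ∫ y in (0 : ℝ)..1, G1 x y ^ 2) +
        (16 * Real.pi ^ 2 * (∫ y in (0 : ℝ)..1, A 1 y ^ 2) +
        10 * Real.pi ^ 2 * ∫ y in (0 : ℝ)..1, A 2 y ^ 2) := by
    rw [swap (G := fun x y => G x y ^ 2) (hG.pow 2), swap (G := fun x y => G1 x y ^ 2) (hG1c.pow 2)]
    have c1 := cpar (H := fun y x => G x y) (hG.comp continuous_swap)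
    have c2 := cpar (H := fun y x => G1 x y) (hG1c.comp continuous_swap)
    have c3 := hAc 1
    have c4 := hAc 2
    exact a04_fin c1 c2 c3 c4 hx
  have hc11 : cf φ 1 1 = 2 * C 1 1 := by simpa using hcf 1 1
  have hc12 : cf φ 1 2 = 2 * C 1 2 := by simpa using hcf 1 2
  have hc21 : cf φ 2 1 = 2 * C 2 1 := by simpa using hcf 2 1
  rw [hN, hgrad, hc11, hc12, hc21]
  set N := ∫ x in (0 : ℝ)..1, ∫ y in (0 : ℝ)..1, G x y ^ 2
  set P := Real.pi ^ 2 with hP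
  have hPpos : 0 < P := by positivity
  have key : 0 ≤ 10 * N - 16 * ((∫ y in (0 : ℝ)..1, A 1 y ^ 2) + ∫ x in (0 : ℝ)..1, B 1 x ^ 2) -
      10 * ((∫ y in (0 : ℝ)..1, A 2 y ^ 2) + ∫ x in (0 : ℝ)..1, B 2 x ^ 2) +
      24 * C 1 1 ^ 2 + 12 * C 1 2 ^ 2 + 12 * C 2 1 ^ 2 := by linarith
  have key2 := mul_nonneg hPpos.le key
  nlinarith [key2, i1, i2]

end Pool.Agent.H87.LE
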