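import Pool.Agent.H87.LE.Base
import Pool.Agent.H20.LE.Cpt

open MeasureTheory Complex Set Filter Topology
open scoped ContDiff Laplacian

namespace Pool.Agent.H87.LE

open Pool.Agent.H20.LE

/-! # A5: compactness of the embedding, in quantitative form (averages over small squares) -/

lemma grid_sum {h : ℝ} (hh : 0 < h) (m : ℕ) (hm : (m : ℝ) * h = 2) {F : ℂ → ℝ}
    (hF : Continuous F) :
    ∑ i ∈ Finset.range m, ∑ j ∈ Finset.range m, ∫ z in Sq (-1 + i * h) (-1 + j * h) h, F z =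
      ∫ z in Sq (-1) (-1) 2, F z := by
  rw [sq_fubini (-1) (-1) (by norm_num : (0 : ℝ) < 2) hF]
  have hstep : ∀ k : ℕ, (-1 + ((k + 1 : ℕ) : ℝ) * h) = (-1 + (k : ℝ) * h) + h := by
    intro k; push_cast; ring
  have h0 : (-1 + ((0 : ℕ) : ℝ) * h) = -1 := by simp
  have hm' : (-1 + (m : ℝ) * h) = -1 + 2 := by rw [hm]
  have hFc : ∀ x : ℝ, Continuous fun y : ℝ => F (x + y * I) := fun x => by fun_prop
  have hinner : ∀ x : ℝ, ∑ j ∈ Finset.range m,
      ∫ y in (-1 + (j : ℝ) * h)..(-1 + (j : ℝ) * h) + h, F (x + y * I) =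
      ∫ y in (-1 : ℝ)..(-1 + 2), F (x + y * I) := by
    intro x
    have := intervalIntegral.sum_integral_adjacent_intervals (μ := volume)
      (f := fun y : ℝ => F (x + y * I)) (a := fun k : ℕ => -1 + (k : ℝ) * h) (n := m)
      (fun k _ => (hFc x).intervalIntegrable _ _)
    simp only [hstep, h0, hm'] at this
    exact this
  have hGc : ∀ c d : ℝ, Continuous fun x : ℝ => ∫ y in c..d, F (x + y * I) := by
    intro c d
    refine intervalIntegral.continuous_parametric_intervalIntegral_of_continuous' ?_ _ _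
    fun_prop
  have hrow : ∀ i : ℕ, ∑ j ∈ Finset.range m, ∫ z in Sq (-1 + i * h) (-1 + j * h) h, F z =
      ∫ x in (-1 + (i : ℝ) * h)..(-1 + (i : ℝ) * h) + h,
        ∫ y in (-1 : ℝ)..(-1 + 2), F (x + y * I) := by
    intro i
    simp_rw [sq_fubini _ _ hh hF]
    rw [← intervalIntegral.integral_finset_sum
      (fun j _ => (hGc _ _).intervalIntegrable _ _)]
    refine intervalIntegral.integral_congr fun x _ => ?_
    exact hinner x
  simp_rw [hrow]
  have := intervalIntegral.sum_integral_adjacent_intervals (μ := volume)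
    (f := fun x : ℝ => ∫ y in (-1 : ℝ)..(-1 + 2), F (x + y * I))
    (a := fun k : ℕ => -1 + (k : ℝ) * h) (n := m)
    (fun k _ => (hGc _ _).intervalIntegrable _ _)
  simp only [hstep, h0, hm'] at this
  exact this

lemma DD_sub : DD ⊆ Sq (-1) (-1) 2 := by
  intro z hz
  have h1 := abs_lt.1 hz.1
  have h2 := abs_lt.1 hz.2
  exact ⟨⟨by linarith, by linarith⟩, ⟨by linarith, by linarith⟩⟩

lemma tst_zero {Ω : Set ℂ} {φ : ℂ → ℝ} (hφ : Tst Ω φ) {z : ℂ} (hz : z ∉ Ω) : φ z = 0 :=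
  image_eq_zero_of_notMem_tsupport fun h => hz (hφ.2.2 h)

lemma tst_grad_zero {Ω : Set ℂ} {φ : ℂ → ℝ} (hφ : Tst Ω φ) {z : ℂ} (hz : z ∉ Ω) :
    gradient φ z = 0 := by
  have h1 : fderiv ℝ φ z = 0 := by
    by_contra h
    exact hz (hφ.2.2 (support_fderiv_subset ℝ h))
  rw [gradient, h1, map_zero]

theorem compact_test {η : ℝ} (hη : 0 < η) : ∃ (N : ℕ) (g : Fin N → ℂ → ℝ),
    (∀ i, Measurable (g i) ∧ ∃ B, ∀ z, |g i z| ≤ B) ∧ ∀ φ, Tst DD φ →
      ∫ z, φ z ^ 2 ≤ η * (∫ z, ‖gradient φ z‖ ^ 2) + ∑ i, (∫ z in DD, φ z * g i z) ^ 2 := by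
  obtain ⟨m, hm⟩ := exists_nat_gt (2 / Real.sqrt η)
  have hsη : 0 < Real.sqrt η := Real.sqrt_pos.2 hη
  have hm0 : (0 : ℝ) < m := lt_trans (by positivity) hm
  set h : ℝ := 2 / m with hh
  have hh0 : 0 < h := by positivity
  have hmh : (m : ℝ) * h = 2 := by rw [hh]; field_simp
  have hhη : h ^ 2 ≤ η := by
    have h1 : h ≤ Real.sqrt η := by
      rw [hh, div_le_iff₀ hm0]
      rw [div_lt_iff₀ hsη] at hm
      linarith
    calc h ^ 2 ≤ Real.sqrt η ^ 2 := pow_le_pow_left₀ hh0.le h1 2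
      _ = η := Real.sq_sqrt hη.le
  set Q : Fin m × Fin m → Set ℂ := fun p => Sq (-1 + (p.1 : ℕ) * h) (-1 + (p.2 : ℕ) * h) h with hQ
  refine ⟨m * m, fun k => (Q (finProdFinEquiv.symm k)).indicator fun _ => 1 / h, ?_, ?_⟩
  · intro k
    refine ⟨measurable_const.indicator (sq_meas _ _ _), 1 / h, fun z => ?_⟩
    rw [abs_of_nonneg (indicator_nonneg (fun _ _ => by positivity) z)]
    exact indicator_le_self' (fun _ _ => by positivity) z
  · intro φ hφ
    have hφ1 : ContDiff ℝ 1 φ := hφ.1.of_le (by exact_mod_cast le_top)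
    have hc : Continuous φ := hφ1.continuous
    have hg : Continuous fun z => ‖gradient φ z‖ ^ 2 := (continuous_grad hφ1).norm.pow 2
    have e1 : ∫ z, φ z ^ 2 = ∫ z in Sq (-1) (-1) 2, φ z ^ 2 :=
      (setIntegral_eq_integral_of_forall_compl_eq_zero fun z hz => by
        rw [tst_zero hφ fun h => hz (DD_sub h)]; norm_num).symm
    have e2 : ∫ z, ‖gradient φ z‖ ^ 2 = ∫ z in Sq (-1) (-1) 2, ‖gradient φ z‖ ^ 2 :=
      (setIntegral_eq_integral_of_forall_compl_eq_zero fun z hz => by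
        rw [tst_grad_zero hφ fun h => hz (DD_sub h)]; norm_num).symm
    have e3 : ∀ k : Fin (m * m), ∫ z in DD, φ z *
        (Q (finProdFinEquiv.symm k)).indicator (fun _ => 1 / h) z =
        1 / h * ∫ z in Q (finProdFinEquiv.symm k), φ z := by
      intro k
      rw [setIntegral_eq_integral_of_forall_compl_eq_zero fun z hz => by
        rw [tst_zero hφ hz, zero_mul]]
      have : ∀ z, φ z * (Q (finProdFinEquiv.symm k)).indicator (fun _ => 1 / h) z =
          (Q (finProdFinEquiv.symm k)).indicator (fun z => 1 / h * φ z) z := by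
        intro z
        by_cases hz : z ∈ Q (finProdFinEquiv.symm k)
        · rw [indicator_of_mem hz, indicator_of_mem hz, mul_comm]
        · rw [indicator_of_notMem hz, indicator_of_notMem hz, mul_zero]
      simp_rw [this]
      rw [integral_indicator (sq_meas _ _ _), integral_const_mul]
    simp_rw [e3]
    rw [Equiv.sum_comp finProdFinEquiv.symm (fun p => (1 / h * ∫ z in Q p, φ z) ^ 2),
      Fintype.sum_prod_type]
    rw [e1, e2, ← grid_sum hh0 m hmh (by fun_prop : Continuous fun z => φ z ^ 2),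
      ← grid_sum hh0 m hmh hg]
    have e4 : ∑ x : Fin m, ∑ y : Fin m, (1 / h * ∫ z in Q (x, y), φ z) ^ 2 =
        ∑ i ∈ Finset.range m, ∑ j ∈ Finset.range m,
          (1 / h * ∫ z in Sq (-1 + i * h) (-1 + j * h) h, φ z) ^ 2 := by
      rw [Finset.sum_range]
      refine Finset.sum_congr rfl fun i _ => ?_
      rw [Finset.sum_range]
    rw [e4, Finset.mul_sum, ← Finset.sum_add_distrib]
    refine Finset.sum_le_sum fun i _ => ?_
    rw [Finset.mul_sum, ← Finset.sum_add_distrib]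
    refine Finset.sum_le_sum fun j _ => ?_
    have h1 := sq_poincare hφ1 (-1 + i * h) (-1 + j * h) hh0
    have h2 : 0 ≤ ∫ z in Sq (-1 + i * h) (-1 + j * h) h, ‖gradient φ z‖ ^ 2 :=
      integral_nonneg fun _ => by positivity
    have h3 : h ^ 2 * ∫ z in Sq (-1 + i * h) (-1 + j * h) h, ‖gradient φ z‖ ^ 2 ≤
        η * ∫ z in Sq (-1 + i * h) (-1 + j * h) h, ‖gradient φ z‖ ^ 2 :=
      mul_le_mul_of_nonneg_right hhη h2
    linarith

end Pool.Agent.H87.LE
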