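import Pool.Agent.H87.LE.Base
import Pool.Agent.H10.LE.LS

open MeasureTheory Complex Set Filter Topology
open scoped ContDiff Laplacian

namespace Pool.Agent.H87.LE

/-! # A6: Lyapunov-Schmidt reduction in a Hilbert space, uniform in the projection -/

variable {H : Type*} [NormedAddCommGroup H] [InnerProductSpace ℝ H] [CompleteSpace H]

/-- the functional `v ↦ ‖v‖²/2 - N (P v)` -/
noncomputable def JJ (N : H → ℝ) (P : H →L[ℝ] H) (v : H) : ℝ := ‖v‖ ^ 2 / 2 - N (P v)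

/-- its gradient -/
noncomputable def gJ (n : H → H) (P : H →L[ℝ] H) (v : H) : H := v - P (n (P v))

/-- admissible projections (uniform bound `c`) -/
def PP (T : H →L[ℝ] H) (u e : H) (c : ℝ) : Set (H →L[ℝ] H) :=
  {P | P ∘L P = P ∧ (∀ x y, inner ℝ (P x) y = inner ℝ x (P y)) ∧ P u = u ∧
    ∀ x, inner ℝ x e = 0 →
      c * ‖x‖ ≤ ‖(x - P (T (P x))) - (inner ℝ (x - P (T (P x))) e : ℝ) • e‖}

theorem lyapunov_schmidt (N : H → ℝ) (n : H → H) (T : H →L[ℝ] H) (u e : H) (c : ℝ) (hc : 0 < c)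
    (he : ‖e‖ = 1) (hTs : ∀ x y, inner ℝ (T x) y = inner ℝ x (T y)) (hu : n u = u)
    (hN : ∃ C R : ℝ, ‖u‖ < R ∧ ∀ v w, ‖v‖ ≤ R → ‖w‖ ≤ R →
      |N w - N v - inner ℝ (n v) (w - v)| ≤ C * ‖w - v‖ ^ 2 ∧ ‖n v - n w‖ ≤ C * ‖v - w‖)
    (hT : ∀ κ > 0, ∃ r > 0, ∀ v w, ‖v - u‖ ≤ r → ‖w - u‖ ≤ r →
      ‖n v - n w - T (v - w)‖ ≤ κ * ‖v - w‖) :
    ∃ s₀ > 0, ∃ δ > 0, ∃ C' > 0, ∃ (F : (H →L[ℝ] H) → ℝ → ℝ) (W : (H →L[ℝ] H) → ℝ → H)
      (ρ : (H →L[ℝ] H) → ℝ → ℝ),
      (∀ P ∈ PP T u e c, ∀ s, |s| ≤ s₀ →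
        inner ℝ (W P s - u) e = s ∧ ‖W P s - u‖ ≤ δ ∧ gJ n P (W P s) = ρ P s • e ∧
        F P s = JJ N P (W P s)) ∧
      (∀ P ∈ PP T u e c, F P 0 = JJ N P u) ∧
      (∀ P ∈ PP T u e c, ContinuousOn (F P) (Icc (-s₀) s₀) ∧
        ∀ s ∈ Ioo (-s₀) s₀, HasDerivAt (F P) (ρ P s) s) ∧
      (∀ P ∈ PP T u e c, ∀ s, |s| ≤ s₀ → ∀ v, inner ℝ (v - u) e = s → ‖v - u‖ ≤ δ →
        |F P s - JJ N P v| ≤ C' * ‖gJ n P v‖ ^ 2) ∧
      (∀ P ∈ PP T u e c, ∀ Pk : ℕ → (H →L[ℝ] H), (∀ k, Pk k ∈ PP T u e c) →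
        (∀ x, Tendsto (fun k => Pk k x) atTop (𝓝 (P x))) → ∀ s, |s| ≤ s₀ →
          Tendsto (fun k => F (Pk k) s) atTop (𝓝 (F P s))) := by
  obtain ⟨C, R, hR, hCN⟩ := hN
  let S : _root_.LE.LS.Setup H :=
    { N := N
      n := n
      u := u
      e := e
      T := T
      c := min c 1
      R := R - ‖u‖
      hR := by linarith
      hN := by
        intro v hv
        have hvR : ‖v‖ < R := by
          have := norm_add_le (v - u) u
          rw [sub_add_cancel] at this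
          linarith
        rw [hasGradientAt_iff_hasFDerivAt, hasFDerivAt_iff_isLittleO]
        have hO : (fun w => N w - N v - inner ℝ (n v) (w - v)) =O[𝓝 v]
            (fun w => ‖w - v‖ ^ 2) := by
          refine Asymptotics.IsBigO.of_bound C ?_
          have : ∀ᶠ w in 𝓝 v, ‖w‖ < R := continuous_norm.continuousAt.eventually (gt_mem_nhds hvR)
          filter_upwards [this] with w hw
          rw [Real.norm_eq_abs, Real.norm_eq_abs, abs_of_nonneg (sq_nonneg ‖w - v‖)]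
          exact (hCN v w hvR.le hw.le).1
        have hlit : (fun w => ‖w - v‖ ^ 2) =o[𝓝 v] (fun w => w - v) := by
          have h0 : Tendsto (fun w => w - v) (𝓝 v) (𝓝 0) := by
            have : Tendsto (fun w => w - v) (𝓝 v) (𝓝 (v - v)) :=
              (continuous_id.sub continuous_const).tendsto v
            simpa using this
          have h1 : (fun x : H => ‖x‖ ^ 2) =o[𝓝 0] (fun x : H => x) :=
            Asymptotics.isLittleO_norm_pow_id one_lt_two
          exact h1.comp_tendsto h0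
        refine (hO.trans_isLittleO hlit).congr_left ?_
        intro w
        simp
      hT := hTs
      hn := by
        refine HasStrictFDerivAt.of_isLittleO ?_
        rw [Asymptotics.isLittleO_iff]
        intro κ hκ
        obtain ⟨r, hr, hrs⟩ := hT κ hκ
        have hmem : (Metric.closedBall u r) ×ˢ (Metric.closedBall u r) ∈ 𝓝 (u, u) :=
          prod_mem_nhds (Metric.closedBall_mem_nhds _ hr) (Metric.closedBall_mem_nhds _ hr)
        filter_upwards [hmem] with p hp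
        have h1 : ‖p.1 - u‖ ≤ r := by
          have := hp.1; rwa [Metric.mem_closedBall, dist_eq_norm] at this
        have h2 : ‖p.2 - u‖ ≤ r := by
          have := hp.2; rwa [Metric.mem_closedBall, dist_eq_norm] at this
        exact hrs _ _ h1 h2
      hu := hu
      he := he
      hc := lt_min hc one_pos
      hc1 := min_le_right _ _ }
  have hgood : ∀ P ∈ PP T u e c, S.Good P := by
    intro P hP
    obtain ⟨h1, h2, h3, h4⟩ := hP
    refine ⟨⟨fun x => ?_, h2⟩, h3, ?_⟩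
    · have := congrArg (fun A : H →L[ℝ] H => A x) h1
      simpa using this
    · intro w hw
      have hw' : inner ℝ w e = 0 := by rw [real_inner_comm]; exact hw
      have := h4 w hw'
      rw [_root_.LE.LS.Setup.pi_apply, real_inner_comm]
      refine le_trans ?_ this
      have : min c 1 ≤ c := min_le_left _ _
      show min c 1 * ‖w‖ ≤ c * ‖w‖
      gcongr
  have hs0 := S.s0_pos
  have hs0' : ∀ s : ℝ, |s| ≤ S.s0 / 2 → |s| ≤ S.s0 := fun s hs => by linarith
  have hs0'' : ∀ s : ℝ, |s| ≤ S.s0 / 2 → |s| < S.s0 := fun s hs => by linarith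
  refine ⟨S.s0 / 2, by positivity, S.r, S.r_pos, 4 * S.M / S.c ^ 2, ?_, S.f, S.pt, S.rho,
    ?_, ?_, ?_, ?_, ?_⟩
  · have := S.M_pos; have := S.hc; positivity
  · intro P hP s hs
    have hG := hgood P hP
    refine ⟨?_, hG.norm_pt_sub (hs0' s hs), hG.F_pt (hs0' s hs), rfl⟩
    have h1 : S.pt P s - u = s • e + S.w P s := by
      unfold _root_.LE.LS.Setup.pt
      show u + (s • e + S.w P s) - u = _
      abel
    have h2 : inner ℝ e (S.w P s) = 0 := (hG.w_spec (hs0' s hs)).1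
    rw [h1, real_inner_comm, inner_add_right, inner_smul_right, h2, real_inner_self_eq_norm_sq, he]
    ring
  · intro P hP
    have hG := hgood P hP
    have : S.f P 0 = S.J P (S.pt P 0) := rfl
    rw [this, hG.pt_zero]
    rfl
  · intro P hP
    have hG := hgood P hP
    constructor
    · intro s hs
      exact (hG.hasDerivAt_f (hs0'' s (abs_le.2 hs))).continuousAt.continuousWithinAt
    · intro s hs
      exact hG.hasDerivAt_f (hs0'' s (abs_le.2 ⟨hs.1.le, hs.2.le⟩))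
  · intro P hP s hs v hv hvr
    have hG := hgood P hP
    refine hG.f_sub_J' (hs0' s hs) ?_ hvr
    show inner ℝ e (v - u) = s
    rw [real_inner_comm]; exact hv
  · intro P hP Pk hPk hconv s hs
    exact (hgood P hP).tendsto_f (fun k => hgood _ (hPk k)) hconv (hs0' s hs)

/-- a function with peaks and valleys around its value at `0` accumulating at `0` has infinitely
many critical values -/
theorem infinite_crit {s₀ : ℝ} (hs : 0 < s₀) {f ρ : ℝ → ℝ} (hf : ContinuousOn f (Icc (-s₀) s₀))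
    (hd : ∀ s ∈ Ioo (-s₀) s₀, HasDerivAt f (ρ s) s)
    (hpv : ∀ ε > 0, ∃ p v, 0 < p ∧ p < ε ∧ 0 < v ∧ v < ε ∧ f 0 < f p ∧ f v < f 0) :
    {y | ∃ s ∈ Ioo 0 s₀, ρ s = 0 ∧ f s = y ∧ y < f 0}.Infinite := by
  classical
  set C := {y | ∃ s ∈ Ioo 0 s₀, ρ s = 0 ∧ f s = y ∧ y < f 0} with hC
  have hcontAt : ∀ s, |s| < s₀ → ContinuousAt f s := fun s h =>
    (hd s (abs_lt.1 h)).continuousAt
  have main : ∀ y < f 0, ∃ z ∈ C, y < z := by
    intro y hy
    have h0 : ContinuousAt f 0 := hcontAt 0 (by simpa using hs)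
    have hev : ∀ᶠ s in 𝓝 (0 : ℝ), y < f s := h0.eventually (lt_mem_nhds hy)
    obtain ⟨ε, hε, hεs⟩ := Metric.eventually_nhds_iff.1 hev
    obtain ⟨a1, -, ha1, ha1', -, -, hfa1, -⟩ := hpv (min ε s₀) (lt_min hε hs)
    obtain ⟨-, b, -, -, hb, hb1, -, hfb⟩ := hpv a1 ha1
    obtain ⟨a2, -, ha2, ha2', -, -, hfa2, -⟩ := hpv b hb
    have ha1s : a1 < s₀ := ha1'.trans_le (min_le_right _ _)
    have ha1ε : a1 < ε := ha1'.trans_le (min_le_left _ _)
    have hab : a2 < a1 := ha2'.trans hb1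
    have hcont : ContinuousOn f (Icc a2 a1) := by
      intro s hs'
      refine (hcontAt s ?_).continuousWithinAt
      rw [abs_of_pos (ha2.trans_le hs'.1)]
      exact hs'.2.trans_lt ha1s
    obtain ⟨m, hm, hmin⟩ := isCompact_Icc.exists_isMinOn (nonempty_Icc.2 hab.le) hcont
    have hmb : f m ≤ f b := hmin ⟨ha2'.le, hb1.le⟩
    have hmlt : f m < f 0 := hmb.trans_lt hfb
    have hma2 : m ≠ a2 := by rintro rfl; linarith
    have hma1 : m ≠ a1 := by rintro rfl; linarith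
    have hm1 : a2 < m := lt_of_le_of_ne hm.1 (Ne.symm hma2)
    have hm2 : m < a1 := lt_of_le_of_ne hm.2 hma1
    have hmpos : 0 < m := ha2.trans hm1
    have hms : |m| < s₀ := by rw [abs_of_pos hmpos]; exact hm2.trans ha1s
    have hloc : IsLocalMin f m := hmin.isLocalMin (Icc_mem_nhds hm1 hm2)
    have hrho : ρ m = 0 := hloc.hasDerivAt_eq_zero (hd m (abs_lt.1 hms))
    refine ⟨f m, ⟨m, ⟨hmpos, hm2.trans ha1s⟩, hrho, rfl, hmlt⟩, ?_⟩
    apply hεs
    rw [Real.dist_eq, sub_zero, abs_of_pos hmpos]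
    exact hm2.trans ha1ε
  intro hfin
  obtain ⟨z0, hz0, -⟩ := main (f 0 - 1) (by linarith)
  have hne : hfin.toFinset.Nonempty := ⟨z0, by simpa using hz0⟩
  have hmax := hfin.toFinset.max'_mem hne
  have hmaxC : hfin.toFinset.max' hne ∈ C := by simpa using hmax
  have hlt0 : hfin.toFinset.max' hne < f 0 := by
    obtain ⟨_, _, _, _, h⟩ := hmaxC
    exact h
  obtain ⟨z, hz, hlt⟩ := main _ hlt0
  have := hfin.toFinset.le_max' z (by simpa using hz)
  linarith

end Pool.Agent.H87.LE
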