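import Pool.Agent.H87.LE.Base
import Pool.Agent.H87.LE.A01_Green

open MeasureTheory Complex Set Filter Topology
open scoped ContDiff Laplacian

namespace Pool.Agent.H87.LE

/-! # A8: barriers built from `w0`
With `a = πx, b = πy, S = sin² a, T = sin² b, d = cos b - cos a`: `w0² = 4 S T d²`,
`|∇ w0|²/(4π²) + w0² = (S+T)(S T + d²)`, hence `|w0|^(3/2) ≤ √2 (|∇ w0|²/(4π²) + w0²)`;
`-Δ (|w0|^θ) = 5π² θ |w0|^θ + θ(1-θ) |w0|^(θ-2) |∇ w0|²` off the mirrors. -/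

theorem a08_w0_eq (z : ℂ) : w0 z = 2 * Real.sin (Real.pi * z.re) * Real.sin (Real.pi * z.im) *
    (Real.cos (Real.pi * z.im) - Real.cos (Real.pi * z.re)) := by
  unfold w0
  rw [show 2 * Real.pi * z.im = 2 * (Real.pi * z.im) by ring,
    show 2 * Real.pi * z.re = 2 * (Real.pi * z.re) by ring, Real.sin_two_mul, Real.sin_two_mul]
  ring

theorem a08_w0_eq' (z : ℂ) : w0 z = 4 * Real.sin (Real.pi * z.re) * Real.sin (Real.pi * z.im) *
    (Real.sin (Real.pi * (z.re + z.im) / 2) * Real.sin (Real.pi * (z.re - z.im) / 2)) := by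
  rw [a08_w0_eq]
  have h := Real.cos_sub_cos (Real.pi * z.im) (Real.pi * z.re)
  have e1 : (Real.pi * z.im + Real.pi * z.re) / 2 = Real.pi * (z.re + z.im) / 2 := by ring
  have e2 : (Real.pi * z.im - Real.pi * z.re) / 2 = -(Real.pi * (z.re - z.im) / 2) := by ring
  rw [e1, e2, Real.sin_neg] at h
  rw [h]
  ring

theorem a08_sin_zero {t : ℝ} (ht : |t| < 1) : Real.sin (Real.pi * t) = 0 ↔ t = 0 := by
  obtain ⟨h1, h2⟩ := abs_lt.1 ht
  have hp := Real.pi_pos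
  rw [Real.sin_eq_zero_iff_of_lt_of_lt (by nlinarith) (by nlinarith)]
  constructor
  · intro h
    rcases mul_eq_zero.1 h with h | h
    · exact absurd h hp.ne'
    · exact h
  · rintro rfl
    simp

theorem w0_eq_zero_iff {z : ℂ} (hz : z ∈ DD) : w0 z = 0 ↔ z ∈ Mir := by
  have h1 := a08_sin_zero hz.1
  have h2 := a08_sin_zero hz.2
  obtain ⟨a1, a2⟩ := abs_lt.1 hz.1
  obtain ⟨b1, b2⟩ := abs_lt.1 hz.2
  have h3 : Real.sin (Real.pi * (z.re + z.im) / 2) = 0 ↔ z.re + z.im = 0 := by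
    rw [show Real.pi * (z.re + z.im) / 2 = Real.pi * ((z.re + z.im) / 2) by ring]
    rw [a08_sin_zero (by rw [abs_lt]; constructor <;> linarith)]
    constructor <;> intro h <;> linarith
  have h4 : Real.sin (Real.pi * (z.re - z.im) / 2) = 0 ↔ z.re - z.im = 0 := by
    rw [show Real.pi * (z.re - z.im) / 2 = Real.pi * ((z.re - z.im) / 2) by ring]
    rw [a08_sin_zero (by rw [abs_lt]; constructor <;> linarith)]
    constructor <;> intro h <;> linarith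
  rw [a08_w0_eq']
  simp only [Mir, Set.mem_ofPred_eq]
  rw [show z.re * z.im * (z.re ^ 2 - z.im ^ 2) =
    z.re * z.im * ((z.re + z.im) * (z.re - z.im)) by ring]
  rw [mul_eq_zero, mul_eq_zero, mul_eq_zero, mul_eq_zero, mul_eq_zero, mul_eq_zero, mul_eq_zero,
    h1, h2, h3, h4]
  simp

theorem a08_Mir_closed : IsClosed Mir := by
  unfold Mir
  apply isClosed_eq
  · fun_prop
  · fun_prop

theorem a08_DD_open : IsOpen DD := by
  exact IsOpen.inter (isOpen_lt (continuous_abs.comp Complex.continuous_re) continuous_const)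
    (isOpen_lt (continuous_abs.comp Complex.continuous_im) continuous_const)

theorem a08_open : IsOpen (DD \ Mir) := a08_DD_open.sdiff a08_Mir_closed

theorem a08_ne {z : ℂ} (hz : z ∈ DD \ Mir) : w0 z ≠ 0 := fun h =>
  hz.2 ((w0_eq_zero_iff hz.1).1 h)

theorem a08_w0_smooth : ContDiff ℝ ∞ w0 := by
  have h1 : ContDiff ℝ ∞ (fun z : ℂ => z.re) := Complex.reCLM.contDiff
  have h2 : ContDiff ℝ ∞ (fun z : ℂ => z.im) := Complex.imCLM.contDiff
  unfold w0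
  fun_prop

theorem w0_pow_smooth (θ : ℝ) : ContDiffOn ℝ ∞ (fun z => |w0 z| ^ θ) (DD \ Mir) := by
  intro z hz
  have hne := a08_ne hz
  have h : ContDiffAt ℝ ∞ (fun t : ℝ => |t| ^ θ) (w0 z) := by
    have h1 : ContDiffAt ℝ ∞ (fun t : ℝ => |t|) (w0 z) := contDiffAt_abs hne
    exact h1.rpow_const_of_ne (abs_ne_zero.2 hne)
  exact (h.comp z a08_w0_smooth.contDiffAt).contDiffWithinAt

/-- derivative of `|t|^θ` -/
theorem a08_abs_rpow {θ t : ℝ} (ht : t ≠ 0) :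
    HasDerivAt (fun t : ℝ => |t| ^ θ) (θ * (|t| ^ (θ - 2) * t)) t := by
  have ha : |t| ≠ 0 := abs_ne_zero.2 ht
  have hpos : 0 < |t| := abs_pos.2 ht
  have h := (hasDerivAt_abs ht).rpow_const (p := θ) (Or.inl ha)
  refine h.congr_deriv ?_
  have e : |t| ^ (θ - 1) = |t| ^ (θ - 2) * |t| := by
    rw [← Real.rpow_add_one ha]
    congr 1
    ring
  have e2 : (SignType.sign t : ℝ) * |t| = t := sign_mul_abs t
  rw [e]
  calc (SignType.sign t : ℝ) * θ * (|t| ^ (θ - 2) * |t|)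
      = θ * (|t| ^ (θ - 2) * ((SignType.sign t : ℝ) * |t|)) := by ring
    _ = _ := by rw [e2]

/-- derivative of `θ |t|^(θ-2) t` -/
theorem a08_abs_rpow' {θ t : ℝ} (ht : t ≠ 0) :
    HasDerivAt (fun t : ℝ => θ * (|t| ^ (θ - 2) * t)) (θ * (θ - 1) * |t| ^ (θ - 2)) t := by
  have ha : |t| ≠ 0 := abs_ne_zero.2 ht
  have h := ((a08_abs_rpow (θ := θ - 2) ht).mul (hasDerivAt_id t)).const_mul θ
  refine h.congr_deriv ?_
  have e : |t| ^ (θ - 2 - 2) * t * t = |t| ^ (θ - 2) := by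
    have : t * t = |t| ^ (2 : ℝ) := by
      rw [Real.rpow_two, sq_abs]
      ring
    rw [mul_assoc, this, ← Real.rpow_add (abs_pos.2 ht)]
    congr 1
    ring
  simp only [id]
  calc θ * ((θ - 2) * (|t| ^ (θ - 2 - 2) * t) * t + |t| ^ (θ - 2) * 1)
      = θ * ((θ - 2) * (|t| ^ (θ - 2 - 2) * t * t) + |t| ^ (θ - 2)) := by ring
    _ = _ := by rw [e]; ring

/-- Laplacian from a first order formula -/
theorem a08_lap {f A B : ℂ → ℝ} {Ω : Set ℂ} (hΩ : IsOpen Ω) {z : ℂ} (hz : z ∈ Ω)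
    (hf : ∀ w ∈ Ω, HasFDerivAt f (A w • Complex.reCLM + B w • Complex.imCLM) w)
    {A' B' : ℂ →L[ℝ] ℝ} (hA : HasFDerivAt A A' z) (hB : HasFDerivAt B B' z) :
    Δ f z = A' 1 + B' I := by
  have hev : fderiv ℝ f =ᶠ[𝓝 z] fun w => A w • Complex.reCLM + B w • Complex.imCLM := by
    filter_upwards [hΩ.mem_nhds hz] with w hw
    exact (hf w hw).fderiv
  have h1 := hA.smul_const Complex.reCLM
  have h2 := hB.smul_const Complex.imCLM
  have h3 := ((h1.add h2).congr_of_eventuallyEq hev).fderiv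
  rw [InnerProductSpace.laplacian_eq_iteratedFDeriv_complexPlane]
  simp only [iteratedFDeriv_two_apply]
  rw [h3]
  simp

/-- the partial derivatives of `w0` -/
noncomputable def a08X (z : ℂ) : ℝ :=
  Real.pi * (Real.cos (Real.pi * z.re) * Real.sin (2 * Real.pi * z.im)) -
    2 * Real.pi * (Real.cos (2 * Real.pi * z.re) * Real.sin (Real.pi * z.im))

/-- the partial derivatives of `w0` -/
noncomputable def a08Y (z : ℂ) : ℝ :=
  2 * Real.pi * (Real.sin (Real.pi * z.re) * Real.cos (2 * Real.pi * z.im)) -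
    Real.pi * (Real.sin (2 * Real.pi * z.re) * Real.cos (Real.pi * z.im))

theorem a08_sin_re (c : ℝ) (z : ℂ) : HasFDerivAt (fun z : ℂ => Real.sin (c * z.re))
    ((c * Real.cos (c * z.re)) • Complex.reCLM) z := by
  have h : HasDerivAt (fun x : ℝ => Real.sin (c * x)) (c * Real.cos (c * z.re)) z.re := by
    have := ((hasDerivAt_id z.re).const_mul c).sin
    simp only [id] at this
    exact this.congr_deriv (by ring)
  exact h.comp_hasFDerivAt z Complex.reCLM.hasFDerivAt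

theorem a08_sin_im (c : ℝ) (z : ℂ) : HasFDerivAt (fun z : ℂ => Real.sin (c * z.im))
    ((c * Real.cos (c * z.im)) • Complex.imCLM) z := by
  have h : HasDerivAt (fun x : ℝ => Real.sin (c * x)) (c * Real.cos (c * z.im)) z.im := by
    have := ((hasDerivAt_id z.im).const_mul c).sin
    simp only [id] at this
    exact this.congr_deriv (by ring)
  exact h.comp_hasFDerivAt z Complex.imCLM.hasFDerivAt

theorem a08_cos_re (c : ℝ) (z : ℂ) : HasFDerivAt (fun z : ℂ => Real.cos (c * z.re))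
    ((-(c * Real.sin (c * z.re))) • Complex.reCLM) z := by
  have h : HasDerivAt (fun x : ℝ => Real.cos (c * x)) (-(c * Real.sin (c * z.re))) z.re := by
    have := ((hasDerivAt_id z.re).const_mul c).cos
    simp only [id] at this
    exact this.congr_deriv (by ring)
  exact h.comp_hasFDerivAt z Complex.reCLM.hasFDerivAt

theorem a08_cos_im (c : ℝ) (z : ℂ) : HasFDerivAt (fun z : ℂ => Real.cos (c * z.im))
    ((-(c * Real.sin (c * z.im))) • Complex.imCLM) z := by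
  have h : HasDerivAt (fun x : ℝ => Real.cos (c * x)) (-(c * Real.sin (c * z.im))) z.im := by
    have := ((hasDerivAt_id z.im).const_mul c).cos
    simp only [id] at this
    exact this.congr_deriv (by ring)
  exact h.comp_hasFDerivAt z Complex.imCLM.hasFDerivAt

theorem a08_w0_deriv (z : ℂ) :
    HasFDerivAt w0 (a08X z • Complex.reCLM + a08Y z • Complex.imCLM) z := by
  have h := ((a08_sin_re Real.pi z).mul (a08_sin_im (2 * Real.pi) z)).sub
    ((a08_sin_re (2 * Real.pi) z).mul (a08_sin_im Real.pi z))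
  refine (h.congr_fderiv ?_)
  ext v
  simp [a08X, a08Y]
  ring

theorem a08_X_deriv (z : ℂ) : ∃ L : ℂ →L[ℝ] ℝ, HasFDerivAt a08X L z ∧
    L 1 = -(Real.pi ^ 2 * (Real.sin (Real.pi * z.re) * Real.sin (2 * Real.pi * z.im))) +
      4 * Real.pi ^ 2 * (Real.sin (2 * Real.pi * z.re) * Real.sin (Real.pi * z.im)) := by
  have h := (((a08_cos_re Real.pi z).mul (a08_sin_im (2 * Real.pi) z)).const_mul Real.pi).sub
    (((a08_cos_re (2 * Real.pi) z).mul (a08_sin_im Real.pi z)).const_mul (2 * Real.pi))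
  refine ⟨_, h, ?_⟩
  simp
  ring

theorem a08_Y_deriv (z : ℂ) : ∃ L : ℂ →L[ℝ] ℝ, HasFDerivAt a08Y L z ∧
    L I = -(4 * Real.pi ^ 2 * (Real.sin (Real.pi * z.re) * Real.sin (2 * Real.pi * z.im))) +
      Real.pi ^ 2 * (Real.sin (2 * Real.pi * z.re) * Real.sin (Real.pi * z.im)) := by
  have h := (((a08_sin_re Real.pi z).mul (a08_cos_im (2 * Real.pi) z)).const_mul
    (2 * Real.pi)).sub
    (((a08_sin_re (2 * Real.pi) z).mul (a08_cos_im Real.pi z)).const_mul Real.pi)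
  refine ⟨_, h, ?_⟩
  simp
  ring

theorem a08_pow_deriv (θ : ℝ) {z : ℂ} (hz : w0 z ≠ 0) :
    HasFDerivAt (fun z => |w0 z| ^ θ)
      ((θ * (|w0 z| ^ (θ - 2) * w0 z) * a08X z) • Complex.reCLM +
        (θ * (|w0 z| ^ (θ - 2) * w0 z) * a08Y z) • Complex.imCLM) z := by
  have h := (a08_abs_rpow (θ := θ) hz).comp_hasFDerivAt z (a08_w0_deriv z)
  refine h.congr_fderiv ?_
  ext v
  simp
  ring

theorem a08_lap_pow (θ : ℝ) {z : ℂ} (hz : z ∈ DD \ Mir) :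
    Δ (fun z => |w0 z| ^ θ) z = θ * (θ - 1) * |w0 z| ^ (θ - 2) * (a08X z ^ 2 + a08Y z ^ 2) -
      5 * Real.pi ^ 2 * θ * |w0 z| ^ θ := by
  have hne := a08_ne hz
  obtain ⟨LX, hX, hX1⟩ := a08_X_deriv z
  obtain ⟨LY, hY, hY1⟩ := a08_Y_deriv z
  have hP := (a08_abs_rpow' (θ := θ) hne).comp_hasFDerivAt z (a08_w0_deriv z)
  have hA := hP.mul hX
  have hB := hP.mul hY
  have h := a08_lap (f := fun z => |w0 z| ^ θ) a08_open hz
    (fun w hw => a08_pow_deriv θ (a08_ne hw)) hA hB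
  rw [h]
  simp only [add_apply, smul_apply, smul_eq_mul,
    Complex.reCLM_apply, Complex.imCLM_apply, Complex.one_re, Complex.one_im, Complex.I_re,
    Complex.I_im, Function.comp, hX1, hY1]
  have e : |w0 z| ^ θ = |w0 z| ^ (θ - 2) * w0 z * w0 z := by
    have : w0 z * w0 z = |w0 z| ^ (2 : ℝ) := by
      rw [Real.rpow_two, sq_abs]
      ring
    rw [mul_assoc, this, ← Real.rpow_add (abs_pos.2 hne)]
    congr 1
    ring
  rw [e]
  have e3 : w0 z = Real.sin (Real.pi * z.re) * Real.sin (2 * Real.pi * z.im) -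
    Real.sin (2 * Real.pi * z.re) * Real.sin (Real.pi * z.im) := rfl
  generalize |w0 z| ^ (θ - 2) = q at *
  rw [e3]
  ring

theorem a08_X_eq (z : ℂ) : a08X z = 2 * Real.pi * (Real.sin (Real.pi * z.im) *
    (Real.cos (Real.pi * z.re) * Real.cos (Real.pi * z.im) -
      2 * Real.cos (Real.pi * z.re) ^ 2 + 1)) := by
  unfold a08X
  rw [show 2 * Real.pi * z.im = 2 * (Real.pi * z.im) by ring,
    show 2 * Real.pi * z.re = 2 * (Real.pi * z.re) by ring, Real.sin_two_mul, Real.cos_two_mul]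
  ring

theorem a08_Y_eq (z : ℂ) : a08Y z = 2 * Real.pi * (Real.sin (Real.pi * z.re) *
    (2 * Real.cos (Real.pi * z.im) ^ 2 - 1 -
      Real.cos (Real.pi * z.re) * Real.cos (Real.pi * z.im))) := by
  unfold a08Y
  rw [show 2 * Real.pi * z.im = 2 * (Real.pi * z.im) by ring,
    show 2 * Real.pi * z.re = 2 * (Real.pi * z.re) by ring, Real.sin_two_mul, Real.cos_two_mul]
  ring

theorem a08_ident (z : ℂ) : (a08X z ^ 2 + a08Y z ^ 2) / (4 * Real.pi ^ 2) + w0 z ^ 2 =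
    (Real.sin (Real.pi * z.re) ^ 2 + Real.sin (Real.pi * z.im) ^ 2) *
      ((Real.sin (Real.pi * z.re) * Real.sin (Real.pi * z.im)) ^ 2 +
        (Real.cos (Real.pi * z.im) - Real.cos (Real.pi * z.re)) ^ 2) := by
  rw [a08_X_eq, a08_Y_eq, a08_w0_eq]
  have hp : Real.pi ≠ 0 := Real.pi_ne_zero
  have hs : Real.sin (Real.pi * z.re) ^ 2 = 1 - Real.cos (Real.pi * z.re) ^ 2 :=
    Real.sin_sq _
  have ht : Real.sin (Real.pi * z.im) ^ 2 = 1 - Real.cos (Real.pi * z.im) ^ 2 :=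
    Real.sin_sq _
  generalize Real.sin (Real.pi * z.re) = s at *
  generalize Real.sin (Real.pi * z.im) = t at *
  generalize Real.cos (Real.pi * z.re) = p at *
  generalize Real.cos (Real.pi * z.im) = q at *
  have e1 : ((2 * Real.pi * (t * (p * q - 2 * p ^ 2 + 1))) ^ 2 +
      (2 * Real.pi * (s * (2 * q ^ 2 - 1 - p * q))) ^ 2) / (4 * Real.pi ^ 2) =
      t ^ 2 * (p * q - 2 * p ^ 2 + 1) ^ 2 + s ^ 2 * (2 * q ^ 2 - 1 - p * q) ^ 2 := by
    field_simp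
    ring
  rw [e1]
  have e2 : (2 * s * t * (q - p)) ^ 2 = 4 * s ^ 2 * t ^ 2 * (q - p) ^ 2 := by ring
  have e3 : (s * t) ^ 2 = s ^ 2 * t ^ 2 := by ring
  rw [e2, e3, hs, ht]
  ring

theorem a08_amgm {x y : ℝ} (hx : 0 ≤ x) (hy : 0 ≤ y) : x * y ^ 3 ≤ x ^ 4 + y ^ 4 := by
  rcases le_total x y with h | h
  · have h1 : x * y ^ 3 ≤ y * y ^ 3 := mul_le_mul_of_nonneg_right h (by positivity)
    nlinarith [pow_nonneg hx 4]
  · have h1 : y ^ 3 ≤ x ^ 3 := pow_le_pow_left₀ hy h 3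
    have h2 : x * y ^ 3 ≤ x * x ^ 3 := mul_le_mul_of_nonneg_left h1 hx
    nlinarith [pow_nonneg hy 4]

theorem a08_grad (z : ℂ) : |w0 z| ^ (3 / 2 : ℝ) ≤
    √2 * ((a08X z ^ 2 + a08Y z ^ 2) / (4 * Real.pi ^ 2) + w0 z ^ 2) := by
  rw [a08_ident, a08_w0_eq]
  generalize Real.sin (Real.pi * z.re) = s
  generalize Real.sin (Real.pi * z.im) = t
  generalize Real.cos (Real.pi * z.im) - Real.cos (Real.pi * z.re) = d
  have hst : 2 * |s * t| ≤ s ^ 2 + t ^ 2 := by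
    rw [abs_mul]
    nlinarith [sq_nonneg (|s| - |t|), sq_abs s, sq_abs t]
  have hu : 0 ≤ |s * t| := abs_nonneg _
  have hd : 0 ≤ |d| := abs_nonneg _
  obtain ⟨x, hx, hx2⟩ : ∃ x : ℝ, 0 ≤ x ∧ x ^ 2 = |s * t| := ⟨√|s * t|, Real.sqrt_nonneg _,
    Real.sq_sqrt hu⟩
  obtain ⟨y, hy, hy2⟩ : ∃ y : ℝ, 0 ≤ y ∧ y ^ 2 = |d| := ⟨√|d|, Real.sqrt_nonneg _,
    Real.sq_sqrt hd⟩
  have e1 : |2 * s * t * d| = (√2 * x * y) ^ 2 := by
    rw [show 2 * s * t * d = 2 * (s * t) * d by ring, abs_mul, abs_mul, ← hx2, ← hy2]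
    rw [mul_pow, mul_pow, Real.sq_sqrt (by norm_num : (0 : ℝ) ≤ 2)]
    simp
  have h0 : 0 ≤ √2 * x * y := by positivity
  have e2 : ((√2 * x * y) ^ 2) ^ (3 / 2 : ℝ) = (√2 * x * y) ^ 3 := by
    rw [← Real.rpow_natCast, ← Real.rpow_natCast, ← Real.rpow_mul h0]
    norm_num
  rw [e1, e2]
  have e3 : (s * t) ^ 2 + d ^ 2 = x ^ 4 + y ^ 4 := by
    rw [← sq_abs (s * t), ← sq_abs d, ← hx2, ← hy2]
    ring
  rw [e3]
  have h2 : √2 * √2 = 2 := Real.mul_self_sqrt (by norm_num)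
  have h3 : (√2 * x * y) ^ 3 = √2 * (2 * x ^ 2 * (x * y ^ 3)) := by
    calc (√2 * x * y) ^ 3 = √2 * ((√2 * √2) * x ^ 2 * (x * y ^ 3)) := by ring
      _ = _ := by rw [h2]
  rw [h3]
  apply mul_le_mul_of_nonneg_left _ (Real.sqrt_nonneg _)
  have h4 : 2 * x ^ 2 * (x * y ^ 3) ≤ 2 * x ^ 2 * (x ^ 4 + y ^ 4) :=
    mul_le_mul_of_nonneg_left (a08_amgm hx hy) (by positivity)
  refine h4.trans ?_
  apply mul_le_mul_of_nonneg_right _ (by positivity)
  rw [hx2]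
  exact hst

theorem a08_G {z : ℂ} (θ : ℝ) (hz : w0 z ≠ 0) :
    4 * Real.pi ^ 2 * (7 / 10 * |w0 z| ^ (θ - 1 / 2) - |w0 z| ^ θ) ≤
      |w0 z| ^ (θ - 2) * (a08X z ^ 2 + a08Y z ^ 2) := by
  have h := a08_grad z
  have hpos : 0 < |w0 z| := abs_pos.2 hz
  have hp : 0 < Real.pi ^ 2 := by positivity
  have h2 : √2 * √2 = 2 := Real.mul_self_sqrt (by norm_num)
  have h3 : √2 ≤ 10 / 7 := by
    rw [Real.sqrt_le_left (by norm_num)]
    norm_num
  have hq : 0 < |w0 z| ^ (θ - 2) := Real.rpow_pos_of_pos hpos _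
  have e1 : |w0 z| ^ (θ - 1 / 2) = |w0 z| ^ (θ - 2) * |w0 z| ^ (3 / 2 : ℝ) := by
    rw [← Real.rpow_add hpos]
    congr 1
    ring
  have e2 : |w0 z| ^ θ = |w0 z| ^ (θ - 2) * w0 z ^ 2 := by
    rw [← sq_abs, ← Real.rpow_two, ← Real.rpow_add hpos]
    congr 1
    ring
  rw [e1, e2]
  set G := a08X z ^ 2 + a08Y z ^ 2 with hG
  have hG0 : 0 ≤ G := by positivity
  have h4 : 7 / 10 * |w0 z| ^ (3 / 2 : ℝ) ≤ G / (4 * Real.pi ^ 2) + w0 z ^ 2 := by
    have h5 : 0 ≤ G / (4 * Real.pi ^ 2) + w0 z ^ 2 := by positivity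
    nlinarith [mul_le_mul_of_nonneg_right h3 h5]
  have h6 : 4 * Real.pi ^ 2 * (7 / 10 * |w0 z| ^ (3 / 2 : ℝ) - w0 z ^ 2) ≤ G := by
    have : 4 * Real.pi ^ 2 * (G / (4 * Real.pi ^ 2)) = G := by field_simp
    nlinarith
  calc 4 * Real.pi ^ 2 * (7 / 10 * (|w0 z| ^ (θ - 2) * |w0 z| ^ (3 / 2 : ℝ)) -
      |w0 z| ^ (θ - 2) * w0 z ^ 2)
      = |w0 z| ^ (θ - 2) * (4 * Real.pi ^ 2 *
        (7 / 10 * |w0 z| ^ (3 / 2 : ℝ) - w0 z ^ 2)) := by ring
    _ ≤ _ := mul_le_mul_of_nonneg_left h6 hq.le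

theorem a08_pi_sq : 9 < Real.pi ^ 2 := by
  nlinarith [Real.pi_gt_three]

theorem a08_cont (θ : ℝ) : ContinuousOn (fun z => |w0 z| ^ θ) (DD \ Mir) :=
  (w0_pow_smooth θ).continuousOn

theorem bar1 : WSup (DD \ Mir) (fun z => |w0 z| ^ (1 / 2 : ℝ)) (fun _ => 1) := by
  apply wsup_of_laplacian a08_open ((w0_pow_smooth _).of_le (by norm_cast))
    continuousOn_const
  intro z hz
  rw [a08_lap_pow _ hz]
  have h := a08_G (1 / 2) (a08_ne hz)
  have e : |w0 z| ^ ((1 / 2 : ℝ) - 1 / 2) = 1 := by simp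
  rw [e] at h
  have h2 : 0 ≤ |w0 z| ^ (1 / 2 : ℝ) := by positivity
  have h3 := a08_pi_sq
  nlinarith [mul_nonneg h2 (by linarith : 0 ≤ Real.pi ^ 2)]

theorem bar2 : WSup (DD \ Mir) (fun z => |w0 z| ^ (7 / 8 : ℝ)) (fun z => |w0 z| ^ (3 / 8 : ℝ)) := by
  apply wsup_of_laplacian a08_open ((w0_pow_smooth _).of_le (by norm_cast))
    (a08_cont _)
  intro z hz
  rw [a08_lap_pow _ hz]
  have h := a08_G (7 / 8) (a08_ne hz)
  rw [show (7 / 8 : ℝ) - 1 / 2 = 3 / 8 by norm_num] at h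
  have h2 : 0 ≤ |w0 z| ^ (7 / 8 : ℝ) := by positivity
  have h4 : 0 ≤ |w0 z| ^ (3 / 8 : ℝ) := by positivity
  have h3 := a08_pi_sq
  nlinarith [mul_nonneg h2 (by linarith : 0 ≤ Real.pi ^ 2),
    mul_nonneg h4 (by linarith : 0 ≤ Real.pi ^ 2 - 9)]

theorem a08_abs_le (z : ℂ) : |w0 z| ≤ 2 := by
  unfold w0
  have h1 := abs_sub (Real.sin (Real.pi * z.re) * Real.sin (2 * Real.pi * z.im))
    (Real.sin (2 * Real.pi * z.re) * Real.sin (Real.pi * z.im))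
  rw [abs_mul, abs_mul] at h1
  have a1 := Real.abs_sin_le_one (Real.pi * z.re)
  have a2 := Real.abs_sin_le_one (2 * Real.pi * z.im)
  have a3 := Real.abs_sin_le_one (2 * Real.pi * z.re)
  have a4 := Real.abs_sin_le_one (Real.pi * z.im)
  have b1 := mul_le_mul a1 a2 (abs_nonneg _) (by norm_num : (0 : ℝ) ≤ 1)
  have b2 := mul_le_mul a3 a4 (abs_nonneg _) (by norm_num : (0 : ℝ) ≤ 1)
  linarith

theorem a08_small {t : ℝ} (h0 : 0 ≤ t) (h2 : t ≤ 2) : t ^ (3 / 20 : ℝ) ≤ 3 / 2 := by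
  have h1 : t ^ (3 / 20 : ℝ) ≤ (2 : ℝ) ^ (3 / 20 : ℝ) :=
    Real.rpow_le_rpow h0 h2 (by norm_num)
  have h3 : (2 : ℝ) ^ (3 / 20 : ℝ) = ((2 : ℝ) ^ (3 : ℕ)) ^ (1 / 20 : ℝ) := by
    rw [← Real.rpow_natCast, ← Real.rpow_mul (by norm_num)]
    norm_num
  have h4 : ((3 / 2 : ℝ) ^ (20 : ℕ)) ^ (1 / 20 : ℝ) = 3 / 2 := by
    rw [← Real.rpow_natCast, ← Real.rpow_mul (by norm_num)]
    norm_num
  rw [h3] at h1
  refine h1.trans ?_
  rw [← h4]
  apply Real.rpow_le_rpow (by norm_num) (by norm_num) (by norm_num)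

theorem a08_split (t : ℝ) (h0 : 0 ≤ t) : t ^ (23 / 20 : ℝ) = t * t ^ (3 / 20 : ℝ) := by
  rcases eq_or_lt_of_le h0 with h | h
  · rw [← h, Real.zero_rpow (by norm_num), Real.zero_rpow (by norm_num)]
    simp
  · rw [show (23 / 20 : ℝ) = 1 + 3 / 20 by norm_num, Real.rpow_add h, Real.rpow_one]

theorem bar3 : WSup (DD \ Mir) (fun z => 2 * |w0 z| - |w0 z| ^ (23 / 20 : ℝ))
    (fun z => |w0 z| ^ (13 / 20 : ℝ)) := by
  have hs1 : ContDiffOn ℝ 2 (fun z => |w0 z| ^ (1 : ℝ)) (DD \ Mir) :=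
    (w0_pow_smooth _).of_le (by norm_cast)
  have hs2 : ContDiffOn ℝ 2 (fun z => |w0 z| ^ (23 / 20 : ℝ)) (DD \ Mir) :=
    (w0_pow_smooth _).of_le (by norm_cast)
  have he : (fun z => 2 * |w0 z| - |w0 z| ^ (23 / 20 : ℝ)) =
      ((2 : ℝ) • (fun z => |w0 z| ^ (1 : ℝ))) - (fun z => |w0 z| ^ (23 / 20 : ℝ)) := by
    funext z
    simp
  rw [he]
  have hsd : ContDiffOn ℝ 2 (((2 : ℝ) • (fun z => |w0 z| ^ (1 : ℝ))) -
      (fun z => |w0 z| ^ (23 / 20 : ℝ))) (DD \ Mir) := (hs1.const_smul (2 : ℝ)).sub hs2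
  apply wsup_of_laplacian a08_open hsd (a08_cont _)
  intro z hz
  have hn := a08_open.mem_nhds hz
  have c1 : ContDiffAt ℝ 2 (fun z => |w0 z| ^ (1 : ℝ)) z := hs1.contDiffAt hn
  have c2 : ContDiffAt ℝ 2 (fun z => |w0 z| ^ (23 / 20 : ℝ)) z := hs2.contDiffAt hn
  have c3 : ContDiffAt ℝ 2 ((2 : ℝ) • (fun z => |w0 z| ^ (1 : ℝ))) z := c1.const_smul (2 : ℝ)
  rw [c3.laplacian_sub c2, InnerProductSpace.laplacian_smul _ c1,
    a08_lap_pow _ hz, a08_lap_pow _ hz]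
  have h := a08_G (23 / 20) (a08_ne hz)
  rw [show (23 / 20 : ℝ) - 1 / 2 = 13 / 20 by norm_num] at h
  have h2 : 0 ≤ |w0 z| ^ (13 / 20 : ℝ) := by positivity
  have h3 := a08_pi_sq
  have h4 := a08_small (abs_nonneg (w0 z)) (a08_abs_le z)
  have h5 := a08_split |w0 z| (abs_nonneg _)
  have h6 : |w0 z| ^ (23 / 20 : ℝ) ≤ 3 / 2 * |w0 z| := by
    rw [h5]
    nlinarith [abs_nonneg (w0 z)]
  have h7 : |w0 z| ^ (1 : ℝ) = |w0 z| := Real.rpow_one _
  rw [h7]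
  simp only [smul_eq_mul]
  nlinarith [mul_nonneg h2 (by linarith : 0 ≤ Real.pi ^ 2 - 9),
    mul_le_mul_of_nonneg_left h6 (by linarith : 0 ≤ Real.pi ^ 2),
    mul_nonneg (abs_nonneg (w0 z)) (by linarith : 0 ≤ Real.pi ^ 2)]

theorem bar3_bounds (z : ℂ) : 0 ≤ 2 * |w0 z| - |w0 z| ^ (23 / 20 : ℝ) ∧
    2 * |w0 z| - |w0 z| ^ (23 / 20 : ℝ) ≤ 2 * |w0 z| := by
  have h4 := a08_small (abs_nonneg (w0 z)) (a08_abs_le z)
  have h5 := a08_split |w0 z| (abs_nonneg _)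
  have h6 : 0 ≤ |w0 z| ^ (23 / 20 : ℝ) := by positivity
  constructor
  · rw [h5]
    nlinarith [abs_nonneg (w0 z)]
  · linarith

theorem a08_sinc_bound (t : ℝ) : |Real.sinc t - 1| ≤ 2 * t ^ 2 := by
  rcases le_total |t| 1 with h | h
  · by_cases h0 : t = 0
    · subst h0
      simp
    · rw [Real.sinc_of_ne_zero h0]
      have hb := Real.sin_bound h
      have ht : 0 < |t| := abs_pos.2 h0
      have e : Real.sin t / t - 1 = (Real.sin t - t) / t := by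
        field_simp
      rw [e, abs_div, div_le_iff₀ ht]
      have e2 : |Real.sin t - t| ≤ |Real.sin t - (t - t ^ 3 / 6)| + |t ^ 3 / 6| := by
        have := abs_add_le (Real.sin t - (t - t ^ 3 / 6)) (-(t ^ 3 / 6))
        rw [abs_neg] at this
        refine le_trans (le_of_eq ?_) this
        congr 1
        ring
      have e3 : |t ^ 3 / 6| = |t| ^ 3 / 6 := by
        rw [abs_div, abs_pow]
        norm_num
      have e4 : t ^ 2 = |t| ^ 2 := (sq_abs t).symm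
      rw [e4]
      have h5 : |t| ^ 4 ≤ |t| ^ 3 := by
        have : |t| ^ 4 = |t| ^ 3 * |t| := by ring
        rw [this]
        exact mul_le_of_le_one_right (by positivity) h
      nlinarith [pow_pos ht 3]
  · have h1 : |Real.sinc t - 1| ≤ 2 := by
      have a := Real.abs_sinc_le_one t
      have := abs_sub (Real.sinc t) 1
      rw [abs_one] at this
      linarith
    have h2 : (1 : ℝ) ≤ t ^ 2 := by
      rw [← sq_abs]
      nlinarith
    linarith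

theorem a08_sin_sinc (t : ℝ) : Real.sin t = t * Real.sinc t := by
  by_cases h0 : t = 0
  · subst h0
    simp
  · rw [Real.sinc_of_ne_zero h0]
    field_simp

theorem a08_prod2 {a b : ℝ} (ha : |a| ≤ 1) : |a * b - 1| ≤ |a - 1| + |b - 1| := by
  have e : a * b - 1 = a * (b - 1) + (a - 1) := by ring
  rw [e]
  refine (abs_add_le _ _).trans ?_
  rw [abs_mul]
  nlinarith [abs_nonneg (b - 1), abs_nonneg (a - 1)]

/-- comparison with the harmonic polynomial near `0` (`Im z⁴ = 4xy(x²-y²)`) -/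
theorem w0_near_zero : ∃ C : ℝ, 0 < C ∧ ∀ z : ℂ, ‖z‖ ≤ 1 / 2 →
    |w0 z - Real.pi ^ 4 / 4 * (z ^ 4).im| ≤ C * ‖z‖ ^ 2 * hh z := by
  refine ⟨Real.pi ^ 6, by positivity, ?_⟩
  intro z _
  have him : (z ^ 4).im = 4 * (z.re * z.im * (z.re ^ 2 - z.im ^ 2)) := by
    simp only [pow_succ, pow_zero, one_mul, Complex.mul_im, Complex.mul_re]
    ring
  set k1 := Real.sinc (Real.pi * z.re)
  set k2 := Real.sinc (Real.pi * z.im)
  set k3 := Real.sinc (Real.pi * (z.re + z.im) / 2)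
  set k4 := Real.sinc (Real.pi * (z.re - z.im) / 2)
  have hw : w0 z = Real.pi ^ 4 / 4 * (z ^ 4).im * (k1 * (k2 * (k3 * k4))) := by
    rw [a08_w0_eq', him, a08_sin_sinc (Real.pi * z.re), a08_sin_sinc (Real.pi * z.im),
      a08_sin_sinc (Real.pi * (z.re + z.im) / 2), a08_sin_sinc (Real.pi * (z.re - z.im) / 2)]
    ring
  have hk : |k1 * (k2 * (k3 * k4)) - 1| ≤ 3 * Real.pi ^ 2 * ‖z‖ ^ 2 := by
    have p1 := a08_prod2 (b := k2 * (k3 * k4)) (Real.abs_sinc_le_one (Real.pi * z.re))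
    have p2 := a08_prod2 (b := k3 * k4) (Real.abs_sinc_le_one (Real.pi * z.im))
    have p3 := a08_prod2 (b := k4) (Real.abs_sinc_le_one (Real.pi * (z.re + z.im) / 2))
    have q1 := a08_sinc_bound (Real.pi * z.re)
    have q2 := a08_sinc_bound (Real.pi * z.im)
    have q3 := a08_sinc_bound (Real.pi * (z.re + z.im) / 2)
    have q4 := a08_sinc_bound (Real.pi * (z.re - z.im) / 2)
    have hn : ‖z‖ ^ 2 = z.re ^ 2 + z.im ^ 2 := by
      rw [← Complex.normSq_eq_norm_sq, Complex.normSq_apply]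
      ring
    have e : 2 * (Real.pi * z.re) ^ 2 + 2 * (Real.pi * z.im) ^ 2 +
        2 * (Real.pi * (z.re + z.im) / 2) ^ 2 + 2 * (Real.pi * (z.re - z.im) / 2) ^ 2 =
        3 * Real.pi ^ 2 * ‖z‖ ^ 2 := by
      rw [hn]
      ring
    linarith
  rw [hw]
  have e : Real.pi ^ 4 / 4 * (z ^ 4).im * (k1 * (k2 * (k3 * k4))) -
      Real.pi ^ 4 / 4 * (z ^ 4).im =
      Real.pi ^ 4 / 4 * ((z ^ 4).im * (k1 * (k2 * (k3 * k4)) - 1)) := by ring
  rw [e, abs_mul, abs_mul, abs_of_pos (by positivity : 0 < Real.pi ^ 4 / 4)]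
  have h1 : |(z ^ 4).im| * |k1 * (k2 * (k3 * k4)) - 1| ≤
      |(z ^ 4).im| * (3 * Real.pi ^ 2 * ‖z‖ ^ 2) :=
    mul_le_mul_of_nonneg_left hk (abs_nonneg _)
  have h2 : 0 ≤ |(z ^ 4).im| * ‖z‖ ^ 2 := by positivity
  have h3 : 0 ≤ Real.pi ^ 6 := by positivity
  unfold hh
  calc Real.pi ^ 4 / 4 * (|(z ^ 4).im| * |k1 * (k2 * (k3 * k4)) - 1|)
      ≤ Real.pi ^ 4 / 4 * (|(z ^ 4).im| * (3 * Real.pi ^ 2 * ‖z‖ ^ 2)) :=
        mul_le_mul_of_nonneg_left h1 (by positivity)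
    _ = 3 / 4 * (Real.pi ^ 6 * (|(z ^ 4).im| * ‖z‖ ^ 2)) := by ring
    _ ≤ 1 * (Real.pi ^ 6 * (|(z ^ 4).im| * ‖z‖ ^ 2)) :=
        mul_le_mul_of_nonneg_right (by norm_num) (mul_nonneg h3 h2)
    _ = _ := by ring

end Pool.Agent.H87.LE
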