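import Pool.Agent.H87.LE.Base
import Pool.Agent.H87.LE.A01_Green

open MeasureTheory Complex Set Filter Topology
open scoped ContDiff Laplacian

namespace Pool.Agent.H87.LE

/-! # A9: the barrier `bet^(3/4)` for the square -/

theorem cos_pos_of_abs {x : ℝ} (hx : |x| < 1) : 0 < Real.cos (Real.pi / 2 * x) := by
  obtain ⟨h1, h2⟩ := abs_lt.1 hx
  have hp := Real.pi_pos
  exact Real.cos_pos_of_mem_Ioo ⟨by nlinarith, by nlinarith⟩

theorem bet_pos {z : ℂ} (hz : z ∈ DD) : 0 < bet z ∧ bet z ≤ 1 := by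
  have h1 := cos_pos_of_abs hz.1
  have h2 := cos_pos_of_abs hz.2
  refine ⟨mul_pos h1 h2, ?_⟩
  unfold bet
  exact mul_le_one₀ (Real.cos_le_one _) h2.le (Real.cos_le_one _)

theorem DD_open : IsOpen DD := by
  exact IsOpen.inter (isOpen_lt (continuous_abs.comp Complex.continuous_re) continuous_const)
    (isOpen_lt (continuous_abs.comp Complex.continuous_im) continuous_const)

theorem bet_smooth : ContDiff ℝ ∞ bet := by
  unfold bet
  have h1 : ContDiff ℝ ∞ (fun z : ℂ => z.re) := Complex.reCLM.contDiff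
  have h2 : ContDiff ℝ ∞ (fun z : ℂ => z.im) := Complex.imCLM.contDiff
  fun_prop

theorem bet_pow_smooth (θ : ℝ) : ContDiffOn ℝ ∞ (fun z => bet z ^ θ) DD := by
  apply ContDiffOn.rpow_const_of_ne bet_smooth.contDiffOn
  intro z hz
  exact (bet_pos hz).1.ne'

/-- gradient-type derivative of a product function -/
theorem prod_hasFDerivAt {g k : ℝ → ℝ} {g' k' : ℝ} {z : ℂ} (hg : HasDerivAt g g' z.re)
    (hk : HasDerivAt k k' z.im) :
    HasFDerivAt (fun w : ℂ => g w.re * k w.im)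
      (g z.re • (k' • Complex.imCLM) + k z.im • (g' • Complex.reCLM)) z := by
  have h1 : HasFDerivAt (fun w : ℂ => g w.re) (g' • Complex.reCLM) z :=
    hg.comp_hasFDerivAt z Complex.reCLM.hasFDerivAt
  have h2 : HasFDerivAt (fun w : ℂ => k w.im) (k' • Complex.imCLM) z :=
    hk.comp_hasFDerivAt z Complex.imCLM.hasFDerivAt
  exact h1.mul h2

/-- Laplacian of a product function -/
theorem laplacian_prod {g k g1 k1 : ℝ → ℝ} {g2 k2 : ℝ} {Ω : Set ℂ} (hΩ : IsOpen Ω) {z : ℂ}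
    (hz : z ∈ Ω) (hg : ∀ w ∈ Ω, HasDerivAt g (g1 w.re) w.re)
    (hk : ∀ w ∈ Ω, HasDerivAt k (k1 w.im) w.im)
    (hg1 : HasDerivAt g1 g2 z.re) (hk1 : HasDerivAt k1 k2 z.im) :
    Δ (fun w : ℂ => g w.re * k w.im) z = g2 * k z.im + g z.re * k2 := by
  have hd : ∀ w ∈ Ω, fderiv ℝ (fun w : ℂ => g w.re * k w.im) w
      = (g w.re * k1 w.im) • Complex.imCLM + (g1 w.re * k w.im) • Complex.reCLM := by
    intro w hw
    rw [(prod_hasFDerivAt (hg w hw) (hk w hw)).fderiv]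
    ext v
    simp
    ring
  have hev : fderiv ℝ (fun w : ℂ => g w.re * k w.im) =ᶠ[𝓝 z]
      fun w => (g w.re * k1 w.im) • Complex.imCLM + (g1 w.re * k w.im) • Complex.reCLM := by
    filter_upwards [hΩ.mem_nhds hz] with w hw
    exact hd w hw
  have h1 := (prod_hasFDerivAt (hg z hz) hk1).smul_const Complex.imCLM
  have h2 := (prod_hasFDerivAt hg1 (hk z hz)).smul_const Complex.reCLM
  have h3 := ((h1.add h2).congr_of_eventuallyEq hev).fderiv
  rw [InnerProductSpace.laplacian_eq_iteratedFDeriv_complexPlane]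
  simp only [iteratedFDeriv_two_apply]
  rw [h3]
  simp
  ring

theorem cos_hasDerivAt (x : ℝ) : HasDerivAt (fun x => Real.cos (Real.pi / 2 * x))
    (-(Real.pi / 2) * Real.sin (Real.pi / 2 * x)) x := by
  have h := ((hasDerivAt_id x).const_mul (Real.pi / 2)).cos
  simp only [id] at h
  refine h.congr_deriv ?_
  ring

theorem sin_hasDerivAt (x : ℝ) : HasDerivAt (fun x => Real.sin (Real.pi / 2 * x))
    ((Real.pi / 2) * Real.cos (Real.pi / 2 * x)) x := by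
  have h := ((hasDerivAt_id x).const_mul (Real.pi / 2)).sin
  simp only [id] at h
  refine h.congr_deriv ?_
  ring

/-- `g = cos(πx/2)^θ` -/
noncomputable def gt (θ x : ℝ) : ℝ := Real.cos (Real.pi / 2 * x) ^ θ

/-- its derivative -/
noncomputable def gt1 (θ x : ℝ) : ℝ :=
  -(Real.pi / 2) * θ * (Real.cos (Real.pi / 2 * x) ^ (θ - 1) * Real.sin (Real.pi / 2 * x))

/-- second derivative -/
noncomputable def gt2 (θ x : ℝ) : ℝ :=
  (Real.pi / 2) ^ 2 * θ * ((θ - 1) * Real.cos (Real.pi / 2 * x) ^ (θ - 2) *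
    Real.sin (Real.pi / 2 * x) ^ 2 - Real.cos (Real.pi / 2 * x) ^ θ)

theorem gt_deriv (θ : ℝ) {x : ℝ} (hx : |x| < 1) : HasDerivAt (gt θ) (gt1 θ x) x := by
  have h := (cos_hasDerivAt x).rpow_const (p := θ) (Or.inl (cos_pos_of_abs hx).ne')
  refine h.congr_deriv ?_
  unfold gt1
  ring

theorem gt1_deriv (θ : ℝ) {x : ℝ} (hx : |x| < 1) : HasDerivAt (gt1 θ) (gt2 θ x) x := by
  have hc := cos_pos_of_abs hx
  have h := (((cos_hasDerivAt x).rpow_const (p := θ - 1) (Or.inl hc.ne')).mul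
    (sin_hasDerivAt x)).const_mul (-(Real.pi / 2) * θ)
  refine h.congr_deriv ?_
  unfold gt2
  have e1 : θ - 1 - 1 = θ - 2 := by ring
  have e2 : Real.cos (Real.pi / 2 * x) ^ (θ - 1) * Real.cos (Real.pi / 2 * x)
      = Real.cos (Real.pi / 2 * x) ^ θ := by
    rw [Real.rpow_sub_one hc.ne', div_mul_cancel₀ _ hc.ne']
  rw [e1, ← e2]
  ring

theorem bet_eq {θ : ℝ} {z : ℂ} (hz : z ∈ DD) : bet z ^ θ = gt θ z.re * gt θ z.im := by
  unfold bet gt
  exact Real.mul_rpow (cos_pos_of_abs hz.1).le (cos_pos_of_abs hz.2).le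

theorem bet_lap {θ : ℝ} {z : ℂ} (hz : z ∈ DD) :
    Δ (fun z => bet z ^ θ) z = gt2 θ z.re * gt θ z.im + gt θ z.re * gt2 θ z.im := by
  have h1 : (fun z => bet z ^ θ) =ᶠ[𝓝 z] fun w : ℂ => gt θ w.re * gt θ w.im := by
    filter_upwards [DD_open.mem_nhds hz] with w hw
    exact bet_eq hw
  rw [InnerProductSpace.laplacian_congr_nhds h1 |>.self_of_nhds]
  exact laplacian_prod DD_open hz (fun w hw => gt_deriv θ hw.1) (fun w hw => gt_deriv θ hw.2)
    (gt1_deriv θ hz.1) (gt1_deriv θ hz.2)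

theorem pow_aux {c θ : ℝ} (hc : 0 < c) : c ^ (θ - 2) = c ^ θ / c ^ 2 := by
  rw [Real.rpow_sub hc, Real.rpow_two]

/-- `-Δ bet^(3/4) = 3π²/8 bet^(3/4) + 3/16 bet^(-5/4) |∇ bet|²`, `|∇ bet|² ≥ π²/2 bet (1-bet)` -/
theorem bet_bar : WSup DD (fun z => 2 * bet z ^ (3 / 4 : ℝ)) (fun _ => 1) := by
  have hs : ContDiffOn ℝ 2 (fun z => 2 * bet z ^ (3 / 4 : ℝ)) DD :=
    ((contDiff_const (c := (2 : ℝ))).contDiffOn.mul (bet_pow_smooth _)).of_le
      (WithTop.coe_le_coe.2 (le_top : (2 : ℕ∞) ≤ ⊤))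
  refine wsup_of_laplacian DD_open hs continuousOn_const fun z hz => ?_
  have hcd : ContDiffAt ℝ 2 (fun z => bet z ^ (3 / 4 : ℝ)) z :=
    ((bet_pow_smooth _).contDiffAt (DD_open.mem_nhds hz)).of_le
      (WithTop.coe_le_coe.2 (le_top : (2 : ℕ∞) ≤ ⊤))
  have h1 : Δ (fun z => 2 * bet z ^ (3 / 4 : ℝ)) z = 2 * Δ (fun z => bet z ^ (3 / 4 : ℝ)) z := by
    have := InnerProductSpace.laplacian_smul (2 : ℝ) hcd
    simpa [Pi.smul_def, smul_eq_mul] using this
  rw [h1, bet_lap hz]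
  have hA := cos_pos_of_abs hz.1
  have hB := cos_pos_of_abs hz.2
  have hA1 := Real.cos_le_one (Real.pi / 2 * z.re)
  have hB1 := Real.cos_le_one (Real.pi / 2 * z.im)
  have sA := Real.sin_sq_add_cos_sq (Real.pi / 2 * z.re)
  have sB := Real.sin_sq_add_cos_sq (Real.pi / 2 * z.im)
  unfold gt2 gt
  rw [pow_aux hA, pow_aux hB]
  set A := Real.cos (Real.pi / 2 * z.re) with hAd
  set B := Real.cos (Real.pi / 2 * z.im) with hBd
  set P := A ^ (3 / 4 : ℝ) with hP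
  set Q := B ^ (3 / 4 : ℝ) with hQ
  have hP0 : 0 < P := Real.rpow_pos_of_pos hA _
  have hQ0 : 0 < Q := Real.rpow_pos_of_pos hB _
  have hPA : A ≤ P := by
    have := Real.rpow_le_rpow_of_exponent_ge hA hA1 (by norm_num : (3 / 4 : ℝ) ≤ 1)
    simpa using this
  have hQB : B ≤ Q := by
    have := Real.rpow_le_rpow_of_exponent_ge hB hB1 (by norm_num : (3 / 4 : ℝ) ≤ 1)
    simpa using this
  have hs1 : Real.sin (Real.pi / 2 * z.re) ^ 2 = 1 - A ^ 2 := by linarith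
  have hs2 : Real.sin (Real.pi / 2 * z.im) ^ 2 = 1 - B ^ 2 := by linarith
  rw [hs1, hs2]
  have key : -(2 * ((Real.pi / 2) ^ 2 * (3 / 4) * ((3 / 4 - 1) * (P / A ^ 2) * (1 - A ^ 2) - P) * Q
      + P * ((Real.pi / 2) ^ 2 * (3 / 4) * ((3 / 4 - 1) * (Q / B ^ 2) * (1 - B ^ 2) - Q))))
      = 2 * (Real.pi / 2) ^ 2 * (3 / 4) * (P * Q) *
        (2 + 1 / 4 * (1 / A ^ 2 + 1 / B ^ 2 - 2)) := by
    field_simp
    ring
  rw [key]
  have hAB : P * Q * (1 / A ^ 2 + 1 / B ^ 2) ≥ 2 := by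
    have h2 : 1 / A ^ 2 + 1 / B ^ 2 ≥ 2 / (A * B) := by
      have h3 : 1 / A ^ 2 + 1 / B ^ 2 - 2 / (A * B) = (1 / A - 1 / B) ^ 2 := by
        field_simp
        ring
      nlinarith [sq_nonneg (1 / A - 1 / B)]
    have h4 : A * B ≤ P * Q := mul_le_mul hPA hQB hB.le hP0.le
    have h5 : P * Q * (2 / (A * B)) ≥ 2 := by
      rw [ge_iff_le, mul_div_assoc', le_div_iff₀ (by positivity)]
      linarith
    have h6 : 0 < P * Q := by positivity
    nlinarith
  have hpi : 9 ≤ Real.pi ^ 2 := by nlinarith [Real.pi_gt_three]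
  have h7 : 0 < P * Q := by positivity
  nlinarith [mul_nonneg (sq_nonneg Real.pi) h7.le]

theorem norm_gradient_eq (f : ℂ → ℝ) (z : ℂ) : ‖gradient f z‖ = ‖fderiv ℝ f z‖ := by
  unfold gradient
  exact LinearIsometryEquiv.norm_map _ _

theorem cos_lower {x : ℝ} (hx : |x| < 1) : 1 - |x| ≤ Real.cos (Real.pi / 2 * x) := by
  have h1 : Real.cos (Real.pi / 2 * x) = Real.sin (Real.pi / 2 * (1 - |x|)) := by
    rw [← Real.cos_pi_div_two_sub]
    have : Real.pi / 2 - Real.pi / 2 * (1 - |x|) = |Real.pi / 2 * x| := by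
      rw [abs_mul, abs_of_pos (by positivity : (0 : ℝ) < Real.pi / 2)]
      ring
    rw [this, Real.cos_abs]
  rw [h1]
  have h2 := Real.mul_le_sin (x := Real.pi / 2 * (1 - |x|)) (by
    have := Real.pi_pos
    have : 0 ≤ 1 - |x| := by linarith
    positivity) (by nlinarith [Real.pi_pos, abs_nonneg x])
  have h3 : 2 / Real.pi * (Real.pi / 2 * (1 - |x|)) = 1 - |x| := by
    have := Real.pi_pos.ne'
    field_simp
  linarith

/-- the integrable majorant -/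
theorem cos_pow_le {x : ℝ} (hx : |x| < 1) :
    Real.cos (Real.pi / 2 * x) ^ (-(1 / 2) : ℝ)
      ≤ (1 - x) ^ (-(1 / 2) : ℝ) + (1 + x) ^ (-(1 / 2) : ℝ) := by
  obtain ⟨h1, h2⟩ := abs_lt.1 hx
  have h3 := cos_lower hx
  have hc : 0 < 1 - |x| := by linarith
  have h4 : Real.cos (Real.pi / 2 * x) ^ (-(1 / 2) : ℝ) ≤ (1 - |x|) ^ (-(1 / 2) : ℝ) :=
    Real.rpow_le_rpow_of_nonpos hc h3 (by norm_num)
  have a1 : 0 ≤ (1 - x) ^ (-(1 / 2) : ℝ) := Real.rpow_nonneg (by linarith) _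
  have a2 : 0 ≤ (1 + x) ^ (-(1 / 2) : ℝ) := Real.rpow_nonneg (by linarith) _
  rcases abs_choice x with h | h
  · rw [h] at h4; linarith
  · rw [h, sub_neg_eq_add] at h4; linarith

theorem maj1_int : IntegrableOn
    (fun x : ℝ => (1 - x) ^ (-(1 / 2) : ℝ) + (1 + x) ^ (-(1 / 2) : ℝ)) (Ioo (-1) 1) := by
  have h0 : IntervalIntegrable (fun x : ℝ => x ^ (-(1 / 2) : ℝ)) volume 0 2 :=
    intervalIntegral.intervalIntegrable_rpow' (by norm_num)
  have h1 : IntervalIntegrable (fun x : ℝ => (1 - x) ^ (-(1 / 2) : ℝ)) volume 1 (-1) := by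
    have := h0.comp_sub_left 1
    norm_num at this
    exact this
  have h2 : IntervalIntegrable (fun x : ℝ => (1 + x) ^ (-(1 / 2) : ℝ)) volume (-1) 1 := by
    have := h0.comp_add_left 1
    norm_num at this
    exact this
  have h3 := h1.symm.add h2
  rw [intervalIntegrable_iff_integrableOn_Ioo_of_le (by norm_num)] at h3
  exact h3

theorem int_re {h : ℝ → ℝ} (hi : IntegrableOn h (Ioo (-1) 1)) :
    IntegrableOn (fun z : ℂ => h z.re) DD ∧ IntegrableOn (fun z : ℂ => h z.im) DD := by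
  have hpre : DD = Complex.measurableEquivRealProd ⁻¹' (Ioo (-1 : ℝ) 1 ×ˢ Ioo (-1 : ℝ) 1) := by
    ext z
    simp [DD, abs_lt, Complex.measurableEquivRealProd_apply]
  have hc : IntegrableOn (fun _ : ℝ => (1 : ℝ)) (Ioo (-1) 1) := by
    simp [integrableOn_const_iff]
  have h1 : IntegrableOn (fun p : ℝ × ℝ => h p.1) (Ioo (-1 : ℝ) 1 ×ˢ Ioo (-1 : ℝ) 1) := by
    have := Integrable.mul_prod hi hc
    rw [Measure.prod_restrict, ← Measure.volume_eq_prod] at this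
    simpa [IntegrableOn] using this
  have h2 : IntegrableOn (fun p : ℝ × ℝ => h p.2) (Ioo (-1 : ℝ) 1 ×ˢ Ioo (-1 : ℝ) 1) := by
    have := Integrable.mul_prod hc hi
    rw [Measure.prod_restrict, ← Measure.volume_eq_prod] at this
    simpa [IntegrableOn] using this
  have hmp := Complex.volume_preserving_equiv_real_prod
  rw [hpre]
  exact ⟨(hmp.integrableOn_comp_preimage
      Complex.measurableEquivRealProd.measurableEmbedding).2 h1,
    (hmp.integrableOn_comp_preimage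
      Complex.measurableEquivRealProd.measurableEmbedding).2 h2⟩

theorem bet_grad : IntegrableOn (fun z => ‖gradient (fun z => bet z ^ (3 / 4 : ℝ)) z‖ ^ 2) DD := by
  obtain ⟨i1, i2⟩ := int_re maj1_int
  have hmaj := (i1.add i2).const_mul (2 * (Real.pi / 2 * (3 / 4)) ^ 2)
  have hcont : ContinuousOn (fun z => ‖gradient (fun z => bet z ^ (3 / 4 : ℝ)) z‖ ^ 2) DD := by
    have h1 : ContinuousOn (fderiv ℝ (fun z => bet z ^ (3 / 4 : ℝ))) DD :=
      (bet_pow_smooth _).continuousOn_fderiv_of_isOpen DD_open (by simp)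
    simp only [norm_gradient_eq]
    exact h1.norm.pow 2
  refine Integrable.mono' hmaj (hcont.aestronglyMeasurable DD_open.measurableSet) ?_
  rw [ae_restrict_iff' DD_open.measurableSet]
  refine Eventually.of_forall fun z hz => ?_
  rw [Real.norm_eq_abs, abs_of_nonneg (sq_nonneg _), norm_gradient_eq]
  have h1 : (fun z => bet z ^ (3 / 4 : ℝ)) =ᶠ[𝓝 z] fun w : ℂ => gt (3/4) w.re * gt (3/4) w.im := by
    filter_upwards [DD_open.mem_nhds hz] with w hw
    exact bet_eq hw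
  rw [h1.fderiv_eq, (prod_hasFDerivAt (gt_deriv (3/4) hz.1) (gt_deriv (3/4) hz.2)).fderiv]
  have hA := cos_pos_of_abs hz.1
  have hB := cos_pos_of_abs hz.2
  have gle : ∀ {x : ℝ}, |x| < 1 → |gt (3/4) x| ≤ 1 := fun {x} hx => by
    unfold gt
    rw [abs_of_nonneg (Real.rpow_nonneg (cos_pos_of_abs hx).le _)]
    exact Real.rpow_le_one (cos_pos_of_abs hx).le (Real.cos_le_one _) (by norm_num)
  have g1le : ∀ {x : ℝ}, |x| < 1 → |gt1 (3/4) x| ^ 2
      ≤ (Real.pi / 2 * (3 / 4)) ^ 2 * ((1 - x) ^ (-(1 / 2) : ℝ) + (1 + x) ^ (-(1 / 2) : ℝ)) :=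
    fun {x} hx => by
      have hc := cos_pos_of_abs hx
      refine le_trans ?_ (mul_le_mul_of_nonneg_left (cos_pow_le hx) (sq_nonneg _))
      unfold gt1
      rw [sq_abs]
      have e1 : (Real.cos (Real.pi / 2 * x) ^ (3 / 4 - 1 : ℝ)) ^ 2
          = Real.cos (Real.pi / 2 * x) ^ (-(1 / 2) : ℝ) := by
        rw [← Real.rpow_natCast, ← Real.rpow_mul hc.le]
        norm_num
      have e2 : Real.sin (Real.pi / 2 * x) ^ 2 ≤ 1 := Real.sin_sq_le_one _
      have e3 : 0 ≤ Real.cos (Real.pi / 2 * x) ^ (-(1 / 2) : ℝ) := Real.rpow_nonneg hc.le _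
      calc (-(Real.pi / 2) * (3 / 4) * (Real.cos (Real.pi / 2 * x) ^ (3 / 4 - 1 : ℝ)
            * Real.sin (Real.pi / 2 * x))) ^ 2
          = (Real.pi / 2 * (3 / 4)) ^ 2 * ((Real.cos (Real.pi / 2 * x) ^ (3 / 4 - 1 : ℝ)) ^ 2
            * Real.sin (Real.pi / 2 * x) ^ 2) := by ring
        _ ≤ (Real.pi / 2 * (3 / 4)) ^ 2 * (Real.cos (Real.pi / 2 * x) ^ (-(1 / 2) : ℝ) * 1) := by
            rw [e1]
            exact mul_le_mul_of_nonneg_left (mul_le_mul_of_nonneg_left e2 e3) (sq_nonneg _)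
        _ = _ := by rw [mul_one]
  have hn : ‖gt (3/4) z.re • (gt1 (3/4) z.im • Complex.imCLM)
      + gt (3/4) z.im • (gt1 (3/4) z.re • Complex.reCLM)‖
      ≤ |gt1 (3/4) z.im| + |gt1 (3/4) z.re| := by
    refine (norm_add_le _ _).trans ?_
    have n1 : ‖Complex.imCLM‖ ≤ 1 := by rw [Complex.imCLM_norm]
    have n2 : ‖Complex.reCLM‖ ≤ 1 := by rw [Complex.reCLM_norm]
    rw [norm_smul, norm_smul, norm_smul, norm_smul, Real.norm_eq_abs, Real.norm_eq_abs,
      Real.norm_eq_abs, Real.norm_eq_abs, Complex.imCLM_norm, Complex.reCLM_norm, mul_one, mul_one]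
    have a1 := gle hz.1
    have a2 := gle hz.2
    have b1 := abs_nonneg (gt1 (3/4) z.im)
    have b2 := abs_nonneg (gt1 (3/4) z.re)
    nlinarith
  have h5 := g1le hz.1
  have h6 := g1le hz.2
  have h7 := norm_nonneg (gt (3/4) z.re • (gt1 (3/4) z.im • Complex.imCLM)
      + gt (3/4) z.im • (gt1 (3/4) z.re • Complex.reCLM))
  simp only [Pi.add_apply]
  have h8 : ‖gt (3/4) z.re • (gt1 (3/4) z.im • Complex.imCLM)
      + gt (3/4) z.im • (gt1 (3/4) z.re • Complex.reCLM)‖ ^ 2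
      ≤ (|gt1 (3/4) z.im| + |gt1 (3/4) z.re|) ^ 2 := pow_le_pow_left₀ h7 hn 2
  have h9 : (|gt1 (3/4) z.im| + |gt1 (3/4) z.re|) ^ 2
      ≤ 2 * (|gt1 (3/4) z.im| ^ 2 + |gt1 (3/4) z.re| ^ 2) := by
    nlinarith [sq_nonneg (|gt1 (3/4) z.im| - |gt1 (3/4) z.re|)]
  nlinarith

end Pool.Agent.H87.LE
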