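import Pool.Agent.H87.LE.Base

open MeasureTheory Complex Set Filter Topology
open scoped ContDiff Laplacian

namespace Pool.Agent.H87.LE

/-! # A13: logarithmic cutoff (points have capacity zero) -/

/-- the profile of the cutoff -/
noncomputable def cutA (η N : ℝ) (z : ℂ) : ℝ := 1 + Real.log (‖z‖ / η) / N

/-- the cutoff -/
noncomputable def cutC (η N : ℝ) (z : ℂ) : ℝ :=
  if z = 0 then 0 else Real.smoothTransition (cutA η N z)

theorem cutC_zero {η N : ℝ} (hη : 0 < η) (hN : 0 < N) {z : ℂ}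
    (hz : ‖z‖ ≤ η * Real.exp (-N)) : cutC η N z = 0 := by
  unfold cutC
  split_ifs with h0
  · rfl
  · apply Real.smoothTransition.zero_of_nonpos
    have hzp : 0 < ‖z‖ := norm_pos_iff.2 h0
    have h1 : Real.log (‖z‖ / η) ≤ -N := by
      rw [Real.log_le_iff_le_exp (by positivity), div_le_iff₀ hη, mul_comm]
      exact hz
    have h2 : Real.log (‖z‖ / η) / N ≤ -1 := by
      rw [div_le_iff₀ hN]
      linarith
    unfold cutA
    linarith

theorem cutC_one {η N : ℝ} (hη : 0 < η) (hN : 0 < N) {z : ℂ}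
    (hz : η ≤ ‖z‖) : cutC η N z = 1 := by
  have h0 : z ≠ 0 := by
    rw [← norm_pos_iff]
    linarith
  unfold cutC
  rw [if_neg h0]
  apply Real.smoothTransition.one_of_one_le
  have h1 : 0 ≤ Real.log (‖z‖ / η) := by
    apply Real.log_nonneg
    rw [le_div_iff₀ hη]
    linarith
  unfold cutA
  have := div_nonneg h1 hN.le
  linarith

theorem cutC_mem (η N : ℝ) (z : ℂ) : 0 ≤ cutC η N z ∧ cutC η N z ≤ 1 := by
  unfold cutC
  split_ifs
  · norm_num
  · exact ⟨Real.smoothTransition.nonneg _, Real.smoothTransition.le_one _⟩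

theorem cutC_radial (η N : ℝ) {z w : ℂ} (h : ‖z‖ = ‖w‖) : cutC η N z = cutC η N w := by
  have h0 : z = 0 ↔ w = 0 := by
    rw [← norm_eq_zero, h, norm_eq_zero]
  unfold cutC cutA
  rw [h]
  by_cases hz : z = 0
  · rw [if_pos hz, if_pos (h0.1 hz)]
  · rw [if_neg hz, if_neg (fun hw => hz (h0.2 hw))]

theorem cutC_ev_ne {η N : ℝ} {z : ℂ} (hz : z ≠ 0) :
    cutC η N =ᶠ[𝓝 z] fun w => Real.smoothTransition (cutA η N w) := by
  filter_upwards [isOpen_ne.mem_nhds hz] with w hw
  unfold cutC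
  rw [if_neg hw]

theorem cutC_ev_zero {η N : ℝ} (hη : 0 < η) (hN : 0 < N) {z : ℂ}
    (hz : ‖z‖ < η * Real.exp (-N)) : cutC η N =ᶠ[𝓝 z] fun _ => (0 : ℝ) := by
  have ho : IsOpen {w : ℂ | ‖w‖ < η * Real.exp (-N)} := isOpen_lt continuous_norm continuous_const
  filter_upwards [ho.mem_nhds hz] with w hw
  exact cutC_zero hη hN (le_of_lt hw)

theorem cutC_ev_one {η N : ℝ} (hη : 0 < η) (hN : 0 < N) {z : ℂ}
    (hz : η < ‖z‖) : cutC η N =ᶠ[𝓝 z] fun _ => (1 : ℝ) := by
  have ho : IsOpen {w : ℂ | η < ‖w‖} := isOpen_lt continuous_const continuous_norm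
  filter_upwards [ho.mem_nhds hz] with w hw
  exact cutC_one hη hN (le_of_lt hw)

theorem cutC_contDiff {η N : ℝ} (hη : 0 < η) (hN : 0 < N) : ContDiff ℝ ∞ (cutC η N) := by
  rw [contDiff_iff_contDiffAt]
  intro z
  by_cases hz : z = 0
  · have h1 : ‖z‖ < η * Real.exp (-N) := by
      rw [hz, norm_zero]; positivity
    exact contDiffAt_const.congr_of_eventuallyEq (cutC_ev_zero hη hN h1)
  · refine ContDiffAt.congr_of_eventuallyEq ?_ (cutC_ev_ne hz)
    have hzp : 0 < ‖z‖ := norm_pos_iff.2 hz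
    have h1 : ContDiffAt ℝ ∞ (fun w : ℂ => ‖w‖) z := contDiffAt_norm ℝ hz
    have h2 : ContDiffAt ℝ ∞ (fun w : ℂ => cutA η N w) z := by
      unfold cutA
      refine contDiffAt_const.add (ContDiffAt.div_const ?_ _)
      refine ContDiffAt.log (h1.div_const _) (by positivity)
    exact Real.smoothTransition.contDiffAt.comp z h2

/-- the derivative of the smooth transition function is bounded -/
theorem exists_bound_deriv_smoothTransition :
    ∃ M : ℝ, 0 < M ∧ ∀ x, |deriv Real.smoothTransition x| ≤ M := by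
  have hc : Continuous (deriv Real.smoothTransition) :=
    (Real.smoothTransition.contDiff (n := 1)).continuous_deriv le_rfl
  obtain ⟨M, hM⟩ := (isCompact_Icc (a := (0 : ℝ)) (b := 1)).exists_bound_of_continuousOn
    (f := deriv Real.smoothTransition) hc.continuousOn
  refine ⟨|M| + 1, by positivity, fun x => ?_⟩
  by_cases hx : x ∈ Icc (0 : ℝ) 1
  · have := hM x hx
    rw [Real.norm_eq_abs] at this
    have := le_abs_self M
    linarith
  · have h0 : deriv Real.smoothTransition x = 0 := by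
      rw [mem_Icc, not_and_or, not_le, not_le] at hx
      rcases hx with hx | hx
      · have : Real.smoothTransition =ᶠ[𝓝 x] fun _ => (0 : ℝ) := by
          filter_upwards [isOpen_Iio.mem_nhds hx] with y hy
          exact Real.smoothTransition.zero_of_nonpos (le_of_lt hy)
        rw [this.deriv_eq, deriv_const]
      · have : Real.smoothTransition =ᶠ[𝓝 x] fun _ => (1 : ℝ) := by
          filter_upwards [isOpen_Ioi.mem_nhds hx] with y hy
          exact Real.smoothTransition.one_of_one_le (le_of_lt hy)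
        rw [this.deriv_eq, deriv_const]
    rw [h0, abs_zero]
    positivity

theorem cut_norm_gradient_eq (f : ℂ → ℝ) (z : ℂ) : ‖gradient f z‖ = ‖fderiv ℝ f z‖ := by
  rw [← toDual_gradient, LinearIsometryEquiv.norm_map]

theorem cutC_grad_le {M : ℝ} (hM : ∀ x, |deriv Real.smoothTransition x| ≤ M)
    {η N : ℝ} (hη : 0 < η) (hN : 0 < N) (z : ℂ) :
    ‖gradient (cutC η N) z‖ ^ 2 ≤
      (Icc (η * Real.exp (-N)) η).indicator (fun r => (M / N) ^ 2 * (r ^ 2)⁻¹) ‖z‖ := by
  by_cases hz : ‖z‖ ∈ Icc (η * Real.exp (-N)) η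
  · rw [indicator_of_mem hz]
    have hzp : 0 < ‖z‖ := lt_of_lt_of_le (by positivity) hz.1
    have hz0 : z ≠ 0 := norm_pos_iff.1 hzp
    have hd : DifferentiableAt ℝ (fun w : ℂ => ‖w‖) z :=
      (contDiffAt_norm ℝ hz0 (n := 1)).differentiableAt one_ne_zero
    have h1 : HasFDerivAt (fun w : ℂ => ‖w‖) (fderiv ℝ (fun w : ℂ => ‖w‖) z) z := hd.hasFDerivAt
    have h2 : HasFDerivAt (fun w : ℂ => cutA η N w)
        ((N⁻¹ * ‖z‖⁻¹) • fderiv ℝ (fun w : ℂ => ‖w‖) z) z := by
      have h3 : HasDerivAt (fun r : ℝ => 1 + Real.log (r / η) / N) (N⁻¹ * ‖z‖⁻¹) ‖z‖ := by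
        have h4 : HasDerivAt (fun r : ℝ => r / η) (1 / η) ‖z‖ := (hasDerivAt_id _).div_const η
        have h5 := (h4.log (by positivity)).div_const N
        have h6 := h5.const_add 1
        have h7 : 1 / η / (‖z‖ / η) / N = N⁻¹ * ‖z‖⁻¹ := by
          field_simp
        rw [← h7]
        exact h6
      exact h3.comp_hasFDerivAt z h1
    have h7 : HasFDerivAt (fun w : ℂ => Real.smoothTransition (cutA η N w))
        ((deriv Real.smoothTransition (cutA η N z)) •
          ((N⁻¹ * ‖z‖⁻¹) • fderiv ℝ (fun w : ℂ => ‖w‖) z)) z := by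
      have h8 : HasDerivAt Real.smoothTransition
          (deriv Real.smoothTransition (cutA η N z)) (cutA η N z) :=
        ((Real.smoothTransition.contDiff (n := 1)).differentiable one_ne_zero _).hasDerivAt
      exact h8.comp_hasFDerivAt z h2
    rw [cut_norm_gradient_eq, (cutC_ev_ne hz0).fderiv_eq, h7.fderiv, norm_smul, norm_smul,
      norm_fderiv_norm hd, mul_one, Real.norm_eq_abs, Real.norm_eq_abs,
      abs_of_pos (show 0 < N⁻¹ * ‖z‖⁻¹ by positivity)]
    have h9 := hM (cutA η N z)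
    have h10 : |deriv Real.smoothTransition (cutA η N z)| * (N⁻¹ * ‖z‖⁻¹) ≤ M * (N⁻¹ * ‖z‖⁻¹) :=
      mul_le_mul_of_nonneg_right h9 (by positivity)
    have h11 : (M / N) ^ 2 * (‖z‖ ^ 2)⁻¹ = (M * (N⁻¹ * ‖z‖⁻¹)) ^ 2 := by
      field_simp
    rw [h11]
    exact pow_le_pow_left₀ (by positivity) h10 2
  · rw [indicator_of_notMem hz]
    rw [mem_Icc, not_and_or, not_le, not_le] at hz
    rcases hz with hz | hz
    · rw [cut_norm_gradient_eq, (cutC_ev_zero hη hN hz).fderiv_eq]
      simp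
    · rw [cut_norm_gradient_eq, (cutC_ev_one hη hN hz).fderiv_eq]
      simp

theorem cut_majorant_integrable {M η N : ℝ} (hη : 0 < η) (hN : 0 < N) :
    Integrable (fun z : ℂ =>
      (Icc (η * Real.exp (-N)) η).indicator (fun r => (M / N) ^ 2 * (r ^ 2)⁻¹) ‖z‖) ∧
    ∫ z : ℂ, (Icc (η * Real.exp (-N)) η).indicator (fun r => (M / N) ^ 2 * (r ^ 2)⁻¹) ‖z‖ =
      2 * Real.pi * M ^ 2 / N := by
  have hr : 0 < η * Real.exp (-N) := by positivity
  have hle : η * Real.exp (-N) ≤ η := by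
    have : Real.exp (-N) ≤ 1 := Real.exp_le_one_iff.2 (by linarith)
    nlinarith
  have hcont : ContinuousOn (fun r : ℝ => r * ((M / N) ^ 2 * (r ^ 2)⁻¹))
      (Icc (η * Real.exp (-N)) η) := by
    refine continuousOn_id.mul (continuousOn_const.mul (ContinuousOn.inv₀ (by fun_prop) ?_))
    intro r hr'
    have : 0 < r := lt_of_lt_of_le hr hr'.1
    positivity
  have hind : ∀ r : ℝ, r ^ (Module.finrank ℝ ℂ - 1) •
      (Icc (η * Real.exp (-N)) η).indicator (fun r => (M / N) ^ 2 * (r ^ 2)⁻¹) r =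
      (Icc (η * Real.exp (-N)) η).indicator (fun r => r * ((M / N) ^ 2 * (r ^ 2)⁻¹)) r := by
    intro r
    rw [Complex.finrank_real_complex]
    by_cases hr' : r ∈ Icc (η * Real.exp (-N)) η
    · rw [indicator_of_mem hr', indicator_of_mem hr']
      simp
    · rw [indicator_of_notMem hr', indicator_of_notMem hr']
      simp
  constructor
  · rw [integrable_fun_norm_addHaar volume]
    simp_rw [hind]
    apply IntegrableOn.integrable_indicator
    · exact ((hcont.integrableOn_compact isCompact_Icc).mono_measure Measure.restrict_le_self)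
    · exact measurableSet_Icc
  · rw [integral_fun_norm_addHaar volume]
    simp_rw [hind]
    rw [setIntegral_indicator measurableSet_Icc]
    have hI : Ioi (0 : ℝ) ∩ Icc (η * Real.exp (-N)) η = Icc (η * Real.exp (-N)) η := by
      apply inter_eq_right.2
      intro r hr'
      exact lt_of_lt_of_le hr hr'.1
    rw [hI, integral_Icc_eq_integral_Ioc, ← intervalIntegral.integral_of_le hle]
    have h1 : ∫ r in (η * Real.exp (-N))..η, r * ((M / N) ^ 2 * (r ^ 2)⁻¹) =
        ∫ r in (η * Real.exp (-N))..η, (M / N) ^ 2 * r⁻¹ := by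
      apply intervalIntegral.integral_congr
      intro r hr'
      rw [uIcc_of_le hle] at hr'
      have : 0 < r := lt_of_lt_of_le hr hr'.1
      simp only
      field_simp
    rw [h1, intervalIntegral.integral_const_mul, integral_inv_of_pos hr hη]
    have h2 : Real.log (η / (η * Real.exp (-N))) = N := by
      have : η / (η * Real.exp (-N)) = Real.exp N := by
        rw [Real.exp_neg]
        field_simp
      rw [this, Real.log_exp]
    rw [h2, Complex.finrank_real_complex]
    have h3 : (volume : Measure ℂ).real (Metric.ball 0 1) = Real.pi := by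
      rw [Measure.real, Complex.volume_ball]
      simp
    rw [h3]
    simp only [nsmul_eq_mul, smul_eq_mul]
    push_cast
    field_simp

theorem log_cutoff {η : ℝ} (hη : 0 < η) : ∃ χ : ℂ → ℝ, ContDiff ℝ ∞ χ ∧
    (∀ z, 0 ≤ χ z ∧ χ z ≤ 1) ∧ (∃ r > 0, ∀ z, ‖z‖ ≤ r → χ z = 0) ∧ (∀ z, η ≤ ‖z‖ → χ z = 1) ∧
    (∀ z w, ‖z‖ = ‖w‖ → χ z = χ w) ∧ Integrable (fun z => ‖gradient χ z‖ ^ 2) ∧
    ∫ z, ‖gradient χ z‖ ^ 2 ≤ η := by
  obtain ⟨M, hM0, hM⟩ := exists_bound_deriv_smoothTransition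
  obtain ⟨N, hN0, hN⟩ : ∃ N : ℝ, 0 < N ∧ 2 * Real.pi * M ^ 2 / N ≤ η := by
    refine ⟨2 * Real.pi * M ^ 2 / η, by positivity, ?_⟩
    rw [div_div_eq_mul_div, div_le_iff₀ (by positivity)]
    linarith
  obtain ⟨hi, he⟩ := cut_majorant_integrable (M := M) hη hN0
  have hcd := cutC_contDiff hη hN0
  have hgc : Continuous (fun z => gradient (cutC η N) z) := by
    have h1 : Continuous (fderiv ℝ (cutC η N)) := hcd.continuous_fderiv (by simp)
    have h2 : (fun z => gradient (cutC η N) z) =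
      fun z => (InnerProductSpace.toDual ℝ ℂ).symm (fderiv ℝ (cutC η N) z) := rfl
    rw [h2]
    exact (InnerProductSpace.toDual ℝ ℂ).symm.continuous.comp h1
  have hint : Integrable (fun z => ‖gradient (cutC η N) z‖ ^ 2) := by
    refine Integrable.mono' hi (hgc.norm.pow 2).aestronglyMeasurable (Eventually.of_forall fun z => ?_)
    rw [Real.norm_eq_abs, abs_of_nonneg (by positivity)]
    exact cutC_grad_le hM hη hN0 z
  refine ⟨cutC η N, hcd, cutC_mem η N, ⟨η * Real.exp (-N), by positivity,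
    fun z hz => cutC_zero hη hN0 hz⟩, fun z hz => cutC_one hη hN0 hz,
    fun z w h => cutC_radial η N h, hint, ?_⟩
  calc ∫ z, ‖gradient (cutC η N) z‖ ^ 2
      ≤ ∫ z : ℂ, (Icc (η * Real.exp (-N)) η).indicator (fun r => (M / N) ^ 2 * (r ^ 2)⁻¹) ‖z‖ :=
        integral_mono hint hi (fun z => cutC_grad_le hM hη hN0 z)
    _ = 2 * Real.pi * M ^ 2 / N := he
    _ ≤ η := hN

end Pool.Agent.H87.LE
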