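import Pool.Agent.H87.LE.A17_Comp

open MeasureTheory Complex Set Filter Topology
open scoped ContDiff Laplacian

namespace Pool.Agent.H87.LE

/-! # A18: rotation invariance and symmetric criticality -/

theorem a18_circle {c : ℂ} (hc : ‖c‖ = 1) : ∃ a : Circle, (a : ℂ) = c :=
  ⟨⟨c, by simpa [Submonoid.unitSphere] using hc⟩, rfl⟩

theorem a18_mp {c : ℂ} (hc : ‖c‖ = 1) :
    MeasurePreserving (fun z : ℂ => c * z) volume volume ∧
      MeasurableEmbedding (fun z : ℂ => c * z) := by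
  obtain ⟨a, ha⟩ := a18_circle hc
  have h1 : (fun z : ℂ => c * z) = (rotation a : ℂ → ℂ) := by
    funext z
    rw [rotation_apply, ha]
  rw [h1]
  exact ⟨(rotation a).measurePreserving, (rotation a).toHomeomorph.measurableEmbedding⟩

theorem a18_grad {c : ℂ} {ψ : ℂ → ℝ} (hψ : Differentiable ℝ ψ) (z : ℂ) :
    gradient (fun z => ψ (c * z)) z = starRingEnd ℂ c * gradient ψ (c * z) := by
  apply HasGradientAt.gradient
  have h1 : HasFDerivAt ψ (fderiv ℝ ψ (c * z)) (c * z) := (hψ (c * z)).hasFDerivAt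
  have h2 : HasFDerivAt (fun z : ℂ => c * z) (ContinuousLinearMap.mul ℝ ℂ c) z :=
    (ContinuousLinearMap.mul ℝ ℂ c).hasFDerivAt
  have h3 := h1.comp z h2
  rw [hasGradientAt_iff_hasFDerivAt]
  refine h3.congr_fderiv ?_
  ext1 w
  have h4 : ∀ w : ℂ, fderiv ℝ ψ (c * z) w = inner ℝ (gradient ψ (c * z)) w := by
    intro w
    simp [gradient]
  rw [ContinuousLinearMap.comp_apply, h4]
  generalize gradient ψ (c * z) = g
  simp [Complex.inner]
  ring

theorem a18_cont {ψ : ℂ → ℝ} (hψ : ContDiff ℝ ∞ ψ) : Continuous (gradient ψ) := by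
  unfold gradient
  exact (InnerProductSpace.toDual ℝ ℂ).symm.continuous.comp (hψ.continuous_fderiv (by simp))

theorem a18_core {E : Type*} [NormedAddCommGroup E] [NormedSpace ℝ E] (T : E →ₗᵢ[ℝ] E)
    {w : ℂ → E} (hw : AEStronglyMeasurable w volume) {g : ℕ → ℂ → E}
    (hg : ∀ n, AEStronglyMeasurable (g n) volume) (hgI : ∀ n z, g n (I * z) = T (g n z))
    (hlim : Tendsto (fun n => eLpNorm (fun z => g n z - w z) 2 volume) atTop (𝓝 0)) :
    ∀ᵐ z, w (I * z) = T (w z) := by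
  obtain ⟨hmp, hme⟩ := a18_mp (c := I) (by simp)
  have hwI : AEStronglyMeasurable (fun z => w (I * z)) volume :=
    hw.comp_measurePreserving hmp
  have hTw : AEStronglyMeasurable (fun z => T (w z)) volume :=
    T.continuous.comp_aestronglyMeasurable hw
  have hle : ∀ n, eLpNorm (fun z => w (I * z) - T (w z)) 2 volume ≤
      eLpNorm (fun z => g n z - w z) 2 volume + eLpNorm (fun z => g n z - w z) 2 volume := by
    intro n
    have hd : AEStronglyMeasurable (fun z => g n z - w z) volume := (hg n).sub hw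
    have h1 : (fun z => w (I * z) - T (w z)) =
        (fun z => -(g n (I * z) - w (I * z))) + (fun z => T (g n z - w z)) := by
      funext z
      simp [hgI]
    have h2 : eLpNorm (fun z => -(g n (I * z) - w (I * z))) 2 volume =
        eLpNorm (fun z => g n z - w z) 2 volume := by
      have h3 := eLpNorm_comp_measurePreserving (p := 2) hd hmp
      rw [← h3]
      exact eLpNorm_neg (fun z => g n (I * z) - w (I * z)) 2 volume
    have h4 : eLpNorm (fun z => T (g n z - w z)) 2 volume =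
        eLpNorm (fun z => g n z - w z) 2 volume := by
      apply eLpNorm_congr_norm_ae
      filter_upwards with z
      exact T.norm_map _
    rw [h1]
    refine (eLpNorm_add_le ?_ ?_ (by norm_num)).trans ?_
    · exact (hd.comp_measurePreserving hmp).neg
    · exact T.continuous.comp_aestronglyMeasurable hd
    · rw [h2, h4]
  have h0 : eLpNorm (fun z => w (I * z) - T (w z)) 2 volume ≤ 0 := by
    have h5 := hlim.add hlim
    rw [add_zero] at h5
    exact ge_of_tendsto' h5 hle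
  have h6 := (eLpNorm_eq_zero_iff (hwI.sub hTw) (by norm_num)).1 (le_antisymm h0 (by simp))
  filter_upwards [h6] with z hz
  exact sub_eq_zero.1 hz

/-- functions of `W1` are rotation invariant, their gradients equivariant -/
theorem W1_rot {Ω : Set ℂ} {v : ℂ → ℝ} {G : ℂ → ℂ} (hv : W1 Ω v G) :
    (∀ᵐ z, v (I * z) = v z) ∧ ∀ᵐ z, G (I * z) = I * G z := by
  obtain ⟨φ, hφ, hvm, hGm, hl1, hl2⟩ := hv
  constructor
  · exact a18_core LinearIsometry.id hvm
      (fun n => (hφ n).1.1.continuous.aestronglyMeasurable) (fun n z => (hφ n).2 z) hl1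
  · obtain ⟨a, ha⟩ := a18_circle (c := I) (by simp)
    have h := a18_core (rotation a).toLinearIsometry hGm
      (fun n => (a18_cont (hφ n).1.1).aestronglyMeasurable) (fun n z => ?_) hl2
    · filter_upwards [h] with z hz
      rw [hz, LinearIsometryEquiv.coe_toLinearIsometry, rotation_apply, ha]
    · have h1 : (fun z => φ n (I * z)) = φ n := funext (hφ n).2
      have h2 := a18_grad (c := I) ((hφ n).1.1.differentiable (by simp)) z
      rw [h1] at h2
      rw [LinearIsometryEquiv.coe_toLinearIsometry, rotation_apply, ha, h2, ← mul_assoc]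
      simp

theorem a18_pow {Ω : Set ℂ} (hI : ∀ z, I * z ∈ Ω ↔ z ∈ Ω) (k : ℕ) (z : ℂ) :
    I ^ k * z ∈ Ω ↔ z ∈ Ω := by
  induction k with
  | zero => simp
  | succ k ih => rw [pow_succ', mul_assoc, hI, ih]

theorem a18_normpow (k : ℕ) : ‖(I ^ k : ℂ)‖ = 1 := by simp

theorem a18_conjpow (k : ℕ) : starRingEnd ℂ (I ^ k) * I ^ k = 1 := by
  rw [← Complex.normSq_eq_conj_mul_self, Complex.normSq_eq_norm_sq]
  simp

theorem a18_rotpow {E : Type*} {w : ℂ → E} {T : E → E} {Ω : Set ℂ}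
    (hI : ∀ z, I * z ∈ Ω ↔ z ∈ Ω)
    (h : ∀ᵐ z, z ∈ Ω → w (I * z) = T (w z)) (k : ℕ) :
    ∀ᵐ z, z ∈ Ω → w (I ^ k * z) = T^[k] (w z) := by
  induction k with
  | zero => simp
  | succ k ih =>
    have h1 := (a18_mp (a18_normpow k)).1.quasiMeasurePreserving.ae h
    filter_upwards [ih, h1] with z hz1 hz2 hz
    rw [pow_succ', mul_assoc, hz2 ((a18_pow hI k z).2 hz), hz1 hz, Function.iterate_succ_apply']

/-- the average of `ψ` over the rotations -/
noncomputable def a18_avg (ψ : ℂ → ℝ) (z : ℂ) : ℝ :=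
  (1 / 4) * ∑ k ∈ Finset.range 4, ψ (I ^ k * z)

theorem a18_avg_rot (ψ : ℂ → ℝ) : Rot (a18_avg ψ) := by
  intro z
  have h4 : (I : ℂ) ^ 4 = 1 := Complex.I_pow_four
  have h : ∀ k, ψ (I ^ k * (I * z)) = ψ (I ^ (k + 1) * z) := by
    intro k
    rw [pow_succ, mul_assoc]
  simp only [a18_avg, h, Finset.sum_range_succ, Finset.sum_range_zero]
  norm_num [h4]
  ring

theorem a18_tst_mul {Ω : Set ℂ} (hI : ∀ z, I * z ∈ Ω ↔ z ∈ Ω) {ψ : ℂ → ℝ} (hψ : Tst Ω ψ) (k : ℕ) :
    Tst Ω (fun z => ψ (I ^ k * z)) := by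
  obtain ⟨a, ha⟩ := a18_circle (a18_normpow k)
  have h1 : (fun z : ℂ => I ^ k * z) = (rotation a : ℂ → ℂ) := by
    funext z
    rw [rotation_apply, ha]
  refine ⟨?_, ?_, ?_⟩
  · exact hψ.1.comp (contDiff_const.mul contDiff_id)
  · have h2 := hψ.2.1.comp_homeomorph (rotation a).toHomeomorph
    have h3 : (ψ ∘ (rotation a).toHomeomorph) = fun z => ψ (I ^ k * z) := by
      funext z
      simp only [Function.comp]
      congr 1
      exact (congrFun h1 z).symm
    rwa [h3] at h2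
  · intro z hz
    have h2 := tsupport_comp_subset_preimage ψ (f := fun z : ℂ => I ^ k * z) (by fun_prop) hz
    exact (a18_pow hI k z).1 (hψ.2.2 h2)

theorem a18_tst_add {Ω : Set ℂ} {φ ψ : ℂ → ℝ} (hφ : Tst Ω φ) (hψ : Tst Ω ψ) :
    Tst Ω (fun z => φ z + ψ z) := by
  refine ⟨hφ.1.add hψ.1, hφ.2.1.add hψ.2.1, ?_⟩
  intro z hz
  rcases tsupport_add φ ψ hz with h | h
  · exact hφ.2.2 h
  · exact hψ.2.2 h

theorem a18_tst_smul {Ω : Set ℂ} {ψ : ℂ → ℝ} (hψ : Tst Ω ψ) (c : ℝ) :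
    Tst Ω (fun z => c * ψ z) := by
  refine ⟨contDiff_const.mul hψ.1, hψ.2.1.mul_left, ?_⟩
  intro z hz
  exact hψ.2.2 (tsupport_mul_subset_right hz)

theorem a18_avg_tst {Ω : Set ℂ} (hI : ∀ z, I * z ∈ Ω ↔ z ∈ Ω) {ψ : ℂ → ℝ} (hψ : Tst Ω ψ) :
    Tst Ω (a18_avg ψ) := by
  have h0 := a18_tst_mul hI hψ 0
  have h1 := a18_tst_mul hI hψ 1
  have h2 := a18_tst_mul hI hψ 2
  have h3 := a18_tst_mul hI hψ 3
  have h := a18_tst_smul (a18_tst_add (a18_tst_add (a18_tst_add h0 h1) h2) h3) (1 / 4)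
  have he : a18_avg ψ = fun z => (1 / 4) * (((ψ (I ^ 0 * z) + ψ (I ^ 1 * z)) + ψ (I ^ 2 * z)) +
      ψ (I ^ 3 * z)) := by
    funext z
    simp only [a18_avg, Finset.sum_range_succ, Finset.sum_range_zero, zero_add]
  rw [he]
  exact h

theorem a18_inner (f : ℂ → ℝ) (z w : ℂ) : inner ℝ w (gradient f z) = fderiv ℝ f z w := by
  rw [real_inner_comm]
  simp [gradient]

theorem a18_intble {G K : ℂ → ℂ} (hG : MemLp G 2 volume) (hK : MemLp K 2 volume) :
    Integrable (fun z => inner ℝ (G z) (K z)) volume := by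
  have h1 := hG.norm.integrable_sq
  have h2 := hK.norm.integrable_sq
  refine (h1.add h2).mono' (hG.1.inner hK.1) ?_
  filter_upwards with z
  have h3 := norm_inner_le_norm (𝕜 := ℝ) (G z) (K z)
  simp only [Pi.add_apply]
  nlinarith [sq_nonneg (‖G z‖ - ‖K z‖), sq_nonneg (‖G z‖), sq_nonneg (‖K z‖)]

theorem a18_gradLp {Ω : Set ℂ} {ψ : ℂ → ℝ} (hψ : Tst Ω ψ) : MemLp (gradient ψ) 2 volume := by
  refine (a18_cont hψ.1).memLp_of_hasCompactSupport ?_
  refine HasCompactSupport.intro hψ.2.1 ?_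
  intro z hz
  have h1 : fderiv ℝ ψ z = 0 := by
    have h2 := support_fderiv_subset ℝ (f := ψ)
    by_contra h3
    exact hz (h2 h3)
  simp [gradient, h1]

theorem a18_iter (k : ℕ) (g : ℂ) : (fun g => I * g)^[k] g = I ^ k * g := by
  induction k with
  | zero => simp
  | succ k ih => rw [Function.iterate_succ_apply', ih, pow_succ', mul_assoc]

theorem a18_term {Ω : Set ℂ} (hI : ∀ z, I * z ∈ Ω ↔ z ∈ Ω) {ψ : ℂ → ℝ} (hψ : Tst Ω ψ) {G : ℂ → ℂ}
    (hG : MemLp G 2 volume) (hGI : ∀ᵐ z, G (I * z) = I * G z) (k : ℕ) :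
    Integrable (fun z => inner ℝ (G z) (gradient (fun z => ψ (I ^ k * z)) z)) volume ∧
    ∫ z, inner ℝ (G z) (gradient (fun z => ψ (I ^ k * z)) z) =
      ∫ z, inner ℝ (G z) (gradient ψ z) := by
  refine ⟨a18_intble hG (a18_gradLp (a18_tst_mul hI hψ k)), ?_⟩
  obtain ⟨hmp, hme⟩ := a18_mp (a18_normpow k)
  rw [← hmp.integral_comp hme (fun z => inner ℝ (G z) (gradient ψ z))]
  apply integral_congr_ae
  have h1 := a18_rotpow (T := fun g => I * g) (Ω := Set.univ) (by simp)
    (w := G) (by simpa using hGI) k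
  filter_upwards [h1] with z hz
  have h2 : G (I ^ k * z) = I ^ k * G z := by
    rw [hz (mem_univ _)]
    exact a18_iter k (G z)
  rw [h2, a18_grad (hψ.1.differentiable (by simp)), Complex.inner, Complex.inner]
  congr 1
  simp only [map_mul]
  ring

theorem a18_fterm {Ω : Set ℂ} (hΩ : IsOpen Ω) (hI : ∀ z, I * z ∈ Ω ↔ z ∈ Ω) {ψ : ℂ → ℝ}
    (hψ : Tst Ω ψ) {f : ℂ → ℝ} (hf : IntegrableOn f Ω)
    (hfR : ∀ᵐ z, z ∈ Ω → f (I * z) = f z) (k : ℕ) :
    Integrable (fun z => f z * ψ (I ^ k * z)) volume ∧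
    ∫ z, f z * ψ (I ^ k * z) = ∫ z, f z * ψ z := by
  have hz0 : ∀ {χ : ℂ → ℝ}, Tst Ω χ → ∀ z, z ∉ Ω → χ z = 0 := by
    intro χ hχ z hz
    by_contra h
    exact hz (hχ.2.2 (subset_tsupport _ h))
  have hk := a18_tst_mul hI hψ k
  constructor
  · have h1 : (fun z => f z * ψ (I ^ k * z)) = fun z => Ω.indicator f z * ψ (I ^ k * z) := by
      funext z
      by_cases hz : z ∈ Ω
      · rw [indicator_of_mem hz]
      · rw [hz0 hk z hz]
        simp
    rw [h1]
    obtain ⟨C, hC⟩ := hk.1.continuous.bounded_above_of_compact_support hk.2.1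
    refine Integrable.mul_bdd (c := C) ?_ hk.1.continuous.aestronglyMeasurable ?_
    · exact (integrable_indicator_iff hΩ.measurableSet).2 hf
    · filter_upwards with z
      exact hC z
  · obtain ⟨hmp, hme⟩ := a18_mp (a18_normpow k)
    rw [← hmp.integral_comp hme (fun z => f z * ψ z)]
    apply integral_congr_ae
    have h1 := a18_rotpow (T := id) hI hfR k
    filter_upwards [h1] with z hz
    by_cases hzΩ : z ∈ Ω
    · rw [hz hzΩ]
      simp
    · have h2 := hz0 hψ (I ^ k * z) (fun h => hzΩ ((a18_pow hI k z).1 h))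
      simp only [h2, mul_zero]

/-- symmetric criticality: an equation tested with rotation invariant functions holds for all tests -/
theorem sym_crit {Ω : Set ℂ} (hΩ : IsOpen Ω) (hD : Ω ⊆ DD) (hI : ∀ z, I * z ∈ Ω ↔ z ∈ Ω)
    {v f : ℂ → ℝ} {G : ℂ → ℂ} (hv : W1 DD v G) (hf : IntegrableOn f Ω)
    (hfR : ∀ᵐ z, z ∈ Ω → f (I * z) = f z) (he : EqnS Ω G f) {ψ : ℂ → ℝ} (hψ : Tst Ω ψ) :
    ∫ z, inner ℝ (G z) (gradient ψ z) = ∫ z, f z * ψ z := by
  have hDm : MeasurableSet DD := by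
    have h1 : Measurable fun z : ℂ => |z.re| := by fun_prop
    have h2 : Measurable fun z : ℂ => |z.im| := by fun_prop
    exact (measurableSet_lt h1 measurable_const).inter (measurableSet_lt h2 measurable_const)
  have hG : MemLp G 2 volume := (W1_off hDm hv).2.1
  have hGI := (W1_rot hv).2
  have key := he (a18_avg ψ) (a18_avg_tst hI hψ) (a18_avg_rot ψ)
  have hdk : ∀ k z, DifferentiableAt ℝ (fun z => ψ (I ^ k * z)) z := fun k z =>
    (a18_tst_mul hI hψ k).1.differentiable (by simp) z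
  have h1 : ∀ z, inner ℝ (G z) (gradient (a18_avg ψ) z) =
      (1 / 4) * ∑ k ∈ Finset.range 4, inner ℝ (G z) (gradient (fun z => ψ (I ^ k * z)) z) := by
    intro z
    simp only [a18_inner]
    have h2 : HasFDerivAt (a18_avg ψ)
        ((1 / 4 : ℝ) • ∑ k ∈ Finset.range 4, fderiv ℝ (fun z => ψ (I ^ k * z)) z) z := by
      have h3 : HasFDerivAt (fun z => ∑ k ∈ Finset.range 4, ψ (I ^ k * z))
          (∑ k ∈ Finset.range 4, fderiv ℝ (fun z => ψ (I ^ k * z)) z) z :=
        HasFDerivAt.fun_sum fun k _ => (hdk k z).hasFDerivAt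
      exact h3.const_mul (1 / 4 : ℝ)
    rw [h2.fderiv]
    simp
  have h4 : ∫ z, inner ℝ (G z) (gradient (a18_avg ψ) z) =
      ∫ z, inner ℝ (G z) (gradient ψ z) := by
    simp only [h1]
    rw [integral_const_mul, integral_finsetSum _ fun k _ => (a18_term hI hψ hG hGI k).1]
    rw [Finset.sum_congr rfl fun k _ => (a18_term hI hψ hG hGI k).2]
    simp
  have h5 : ∫ z, f z * a18_avg ψ z = ∫ z, f z * ψ z := by
    have h6 : ∀ z, f z * a18_avg ψ z = (1 / 4) * ∑ k ∈ Finset.range 4, f z * ψ (I ^ k * z) := by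
      intro z
      rw [a18_avg, Finset.mul_sum, Finset.mul_sum, Finset.mul_sum]
      exact Finset.sum_congr rfl fun k _ => by ring
    simp only [h6]
    rw [integral_const_mul, integral_finsetSum _ fun k _ => (a18_fterm hΩ hI hψ hf hfR k).1]
    rw [Finset.sum_congr rfl fun k _ => (a18_fterm hΩ hI hψ hf hfR k).2]
    simp
  rw [← h4, key, h5]

end Pool.Agent.H87.LE
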