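import Pool.Agent.H87.LE.A12_Ineq
import Pool.Agent.H87.LE.B04_Oper

open MeasureTheory Complex Set Filter Topology
open scoped ContDiff Laplacian

namespace Pool.Agent.H87.LE

/-! # B04b: the nonlinearity -/

/-- Lebesgue measure on the square -/
noncomputable abbrev b04b_mu : Measure ℂ := (volume : Measure ℂ).restrict DD

instance b04b_fin : IsFiniteMeasure b04b_mu := by
  constructor
  rw [Measure.restrict_apply_univ]
  exact lt_of_le_of_lt a17_vol_DD (by norm_num)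

theorem b04b_const : ∫ _z, (1 : ℝ) ∂b04b_mu ≤ 8 := by
  rw [integral_const, smul_eq_mul, mul_one, Measure.real, Measure.restrict_apply_univ]
  exact ENNReal.toReal_le_of_le_ofReal (by norm_num) (by
    refine a17_vol_DD.trans ?_
    rw [ENNReal.ofReal_ofNat])

/-- Cauchy-Schwarz -/
theorem b04b_cs {f g : ℂ → ℝ} (hf : MemLp f 2 b04b_mu) (hg : MemLp g 2 b04b_mu)
    (h1 : ∀ z, 0 ≤ f z) (h2 : ∀ z, 0 ≤ g z) :
    Integrable (fun z => f z * g z) b04b_mu ∧
      ∫ z, f z * g z ∂b04b_mu ≤ √(∫ z, f z ^ 2 ∂b04b_mu) * √(∫ z, g z ^ 2 ∂b04b_mu) := by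
  refine ⟨a17_mul_int hf hg, ?_⟩
  have h := integral_mul_le_Lp_mul_Lq_of_nonneg (μ := b04b_mu) (p := 2) (q := 2)
    Real.HolderConjugate.two_two (Eventually.of_forall h1) (Eventually.of_forall h2)
    (by simpa using hf) (by simpa using hg)
  simpa [Real.sqrt_eq_rpow] using h

theorem b04b_meas (x : HH) : AEStronglyMeasurable (fun z => fn x z) b04b_mu :=
  (Lp.aestronglyMeasurable (fn x)).restrict

theorem b04b_sq (x : HH) : Integrable (fun z => fn x z ^ 2) b04b_mu ∧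
    ∫ z, fn x z ^ 2 ∂b04b_mu ≤ 1 / 2 * ‖x‖ ^ 2 := by
  have h1 : MemLp (fn x) 2 volume := Lp.memLp _
  have h2 : Integrable (fun z => fn x z ^ 2) volume :=
    (memLp_two_iff_integrable_sq h1.1).mp h1
  refine ⟨h2.restrict, ?_⟩
  have h3 : ∫ z, fn x z ^ 2 ∂b04b_mu ≤ ∫ z, fn x z ^ 2 :=
    setIntegral_le_integral h2 (Eventually.of_forall fun z => sq_nonneg _)
  have h4 := norm_fn x
  rw [← real_inner_self_eq_norm_sq, inner_LR] at h4
  have h5 : ∫ z, fn x z ^ 2 = ∫ z, fn x z * fn x z := by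
    congr 1; funext z; ring
  linarith

/-- three factor Hölder inequality -/
theorem b04b_tri : ∃ K : ℝ, 0 < K ∧ ∀ (W : ℂ → ℝ) (x y : HH), (∀ z, 0 ≤ W z) →
    MemLp W 2 b04b_mu → Integrable (fun z => W z * (|fn x z| * |fn y z|)) b04b_mu ∧
      ∫ z, W z * (|fn x z| * |fn y z|) ∂b04b_mu ≤
        K * √(∫ z, W z ^ 2 ∂b04b_mu) * (‖x‖ * ‖y‖) := by
  obtain ⟨C, hC, h4⟩ := fn_l4
  refine ⟨√C, by positivity, fun W x y hW0 hW => ?_⟩
  have hm : ∀ x : HH, Integrable (fun z => fn x z ^ 4) b04b_mu ∧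
      ∫ z, fn x z ^ 4 ∂b04b_mu ≤ C * ‖x‖ ^ 4 := by
    intro x
    have h1 : Integrable (fun z => fn x z ^ 4) volume := by
      have := (h4 x).1.integrable_norm_pow (p := 4) (by norm_num)
      refine this.congr (Eventually.of_forall fun z => ?_)
      simp only [Real.norm_eq_abs]
      rw [show (4 : ℕ) = 2 * 2 by norm_num, pow_mul, pow_mul, sq_abs]
    exact ⟨h1.restrict, (setIntegral_le_integral h1
      (Eventually.of_forall fun z => by positivity)).trans (h4 x).2⟩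
  have hsq : ∀ x : HH, MemLp (fun z => fn x z ^ 2) 2 b04b_mu := by
    intro x
    refine (memLp_two_iff_integrable_sq ((b04b_meas x).pow 2)).mpr ?_
    refine (hm x).1.congr (Eventually.of_forall fun z => ?_)
    show fn x z ^ 4 = (fn x z ^ 2) ^ 2
    ring
  have hxy := b04b_cs (hsq x) (hsq y) (fun z => sq_nonneg _) (fun z => sq_nonneg _)
  have hxy2 : MemLp (fun z => |fn x z| * |fn y z|) 2 b04b_mu := by
    refine (memLp_two_iff_integrable_sq ((b04b_meas x).norm.mul (b04b_meas y).norm)).mpr ?_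
    refine hxy.1.congr (Eventually.of_forall fun z => ?_)
    show fn x z ^ 2 * fn y z ^ 2 = (|fn x z| * |fn y z|) ^ 2
    simp only [mul_pow, sq_abs]
  have h := b04b_cs hW hxy2 hW0 (fun z => by positivity)
  refine ⟨h.1, h.2.trans ?_⟩
  have e1 : ∫ z, (|fn x z| * |fn y z|) ^ 2 ∂b04b_mu ≤ C * (‖x‖ ^ 2 * ‖y‖ ^ 2) := by
    have e2 : ∫ z, (|fn x z| * |fn y z|) ^ 2 ∂b04b_mu = ∫ z, fn x z ^ 2 * fn y z ^ 2 ∂b04b_mu := by
      congr 1; funext z; simp only [mul_pow, sq_abs]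
    rw [e2]
    refine hxy.2.trans ?_
    have e3 : ∀ x : HH, √(∫ z, (fn x z ^ 2) ^ 2 ∂b04b_mu) ≤ √C * ‖x‖ ^ 2 := by
      intro x
      have : ∫ z, (fn x z ^ 2) ^ 2 ∂b04b_mu = ∫ z, fn x z ^ 4 ∂b04b_mu := by
        congr 1; funext z; ring
      rw [this]
      refine (Real.sqrt_le_sqrt (hm x).2).trans ?_
      rw [show C * ‖x‖ ^ 4 = C * (‖x‖ ^ 2) ^ 2 by ring, Real.sqrt_mul hC.le,
        Real.sqrt_sq (by positivity)]
    calc √(∫ z, (fn x z ^ 2) ^ 2 ∂b04b_mu) * √(∫ z, (fn y z ^ 2) ^ 2 ∂b04b_mu)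
        ≤ (√C * ‖x‖ ^ 2) * (√C * ‖y‖ ^ 2) :=
          mul_le_mul (e3 x) (e3 y) (Real.sqrt_nonneg _) (by positivity)
      _ = (√C * √C) * (‖x‖ ^ 2 * ‖y‖ ^ 2) := by ring
      _ = C * (‖x‖ ^ 2 * ‖y‖ ^ 2) := by rw [Real.mul_self_sqrt hC.le]
  have e4 : √(∫ z, (|fn x z| * |fn y z|) ^ 2 ∂b04b_mu) ≤ √C * (‖x‖ * ‖y‖) := by
    refine (Real.sqrt_le_sqrt e1).trans ?_
    rw [Real.sqrt_mul hC.le, ← mul_pow, Real.sqrt_sq (by positivity)]
  calc √(∫ z, W z ^ 2 ∂b04b_mu) * √(∫ z, (|fn x z| * |fn y z|) ^ 2 ∂b04b_mu)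
      ≤ √(∫ z, W z ^ 2 ∂b04b_mu) * (√C * (‖x‖ * ‖y‖)) :=
        mul_le_mul_of_nonneg_left e4 (Real.sqrt_nonneg _)
    _ = √C * √(∫ z, W z ^ 2 ∂b04b_mu) * (‖x‖ * ‖y‖) := by ring

/-- elementary: `t^s ≤ ε + C t²` for `0 < s < 2` -/
theorem b04b_young {s ε : ℝ} (hs : 0 < s) (hs2 : s < 2) (hε : 0 < ε) :
    ∃ C : ℝ, 0 < C ∧ ∀ t : ℝ, 0 ≤ t → t ^ s ≤ ε + C * t ^ 2 := by
  set a : ℝ := ε ^ (1 / s) with ha
  have ha0 : 0 < a := Real.rpow_pos_of_pos hε _
  refine ⟨a ^ (s - 2), Real.rpow_pos_of_pos ha0 _, fun t ht => ?_⟩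
  rcases le_total t a with h | h
  · have h1 : t ^ s ≤ a ^ s := Real.rpow_le_rpow ht h hs.le
    have h2 : a ^ s = ε := by
      rw [ha, ← Real.rpow_mul hε.le, one_div_mul_cancel hs.ne', Real.rpow_one]
    have h3 : 0 ≤ a ^ (s - 2) * t ^ 2 := by positivity
    linarith
  · have ht0 : 0 < t := ha0.trans_le h
    have h1 : t ^ (s - 2) ≤ a ^ (s - 2) :=
      Real.rpow_le_rpow_of_nonpos ha0 h (by linarith)
    have h2 : t ^ s = t ^ (s - 2) * t ^ 2 := by
      rw [← Real.rpow_natCast, ← Real.rpow_add ht0]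
      norm_num
    rw [h2]
    have h3 : t ^ (s - 2) * t ^ 2 ≤ a ^ (s - 2) * t ^ 2 :=
      mul_le_mul_of_nonneg_right h1 (by positivity)
    linarith

/-- the weight `(|a|+|b|)^(q-2)` -/
theorem b04b_wt {q : ℝ} (h2 : 2 < q) (h3 : q ≤ 21 / 10) (v w : HH) :
    MemLp (fun z => (|fn v z| + |fn w z|) ^ (q - 2)) 2 b04b_mu ∧
      ∫ z, ((|fn v z| + |fn w z|) ^ (q - 2)) ^ 2 ∂b04b_mu ≤ 8 + ‖v‖ ^ 2 + ‖w‖ ^ 2 := by
  have hm : AEStronglyMeasurable (fun z => (|fn v z| + |fn w z|) ^ (q - 2)) b04b_mu := by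
    have h := ((b04b_meas v).norm.add (b04b_meas w).norm).aemeasurable
    exact (h.pow_const (q - 2)).aestronglyMeasurable
  have hp : ∀ t : ℝ, 0 ≤ t → (t ^ (q - 2)) ^ 2 ≤ 1 + t ^ 2 := by
    intro t ht
    rcases le_total t 1 with h | h
    · have h1 : t ^ (q - 2) ≤ 1 := Real.rpow_le_one ht h (by linarith)
      have h0 : 0 ≤ t ^ (q - 2) := Real.rpow_nonneg ht _
      nlinarith [sq_nonneg t]
    · have h1 : t ^ (q - 2) ≤ t ^ (1 : ℝ) := Real.rpow_le_rpow_of_exponent_le h (by linarith)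
      rw [Real.rpow_one] at h1
      have h0 : 0 ≤ t ^ (q - 2) := Real.rpow_nonneg ht _
      nlinarith [sq_nonneg t]
  have hb : ∀ z, ((|fn v z| + |fn w z|) ^ (q - 2)) ^ 2 ≤ 1 + (2 * fn v z ^ 2 + 2 * fn w z ^ 2) := by
    intro z
    have h1 := hp (|fn v z| + |fn w z|) (by positivity)
    have h4 := sq_abs (fn v z)
    have h5 := sq_abs (fn w z)
    nlinarith [sq_nonneg (|fn v z| - |fn w z|)]
  have hJ : Integrable (fun z => 2 * fn v z ^ 2 + 2 * fn w z ^ 2) b04b_mu :=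
    ((b04b_sq v).1.const_mul 2).add ((b04b_sq w).1.const_mul 2)
  have hI : Integrable (fun z => 1 + (2 * fn v z ^ 2 + 2 * fn w z ^ 2)) b04b_mu :=
    (integrable_const 1).add hJ
  have hI2 : Integrable (fun z => ((|fn v z| + |fn w z|) ^ (q - 2)) ^ 2) b04b_mu := by
    refine hI.mono' (hm.pow 2) (Eventually.of_forall fun z => ?_)
    rw [Real.norm_of_nonneg (by positivity)]
    exact hb z
  refine ⟨(memLp_two_iff_integrable_sq hm).mpr hI2, ?_⟩
  refine (integral_mono hI2 hI hb).trans ?_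
  rw [integral_add (integrable_const 1) hJ,
    integral_add ((b04b_sq v).1.const_mul 2) ((b04b_sq w).1.const_mul 2),
    integral_const_mul, integral_const_mul]
  have e1 := (b04b_sq v).2
  have e2 := (b04b_sq w).2
  have e3 := b04b_const
  linarith

/-- the nonlinear functional `(lam / q) ∫ |v|^q` -/
noncomputable def Nq (lam q : ℝ) (v : HH) : ℝ := lam / q * ∫ z in DD, |fn v z| ^ q

theorem b04b_mem {q : ℝ} (h2 : 2 < q) (h3 : q ≤ 21 / 10) (v : HH) :
    MemLp (fun z => |fn v z| ^ (q - 2) * fn v z) 2 b04b_mu := by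
  have hm : AEStronglyMeasurable (fun z => |fn v z| ^ (q - 2) * fn v z) b04b_mu := by
    have h := (b04b_meas v).norm.aemeasurable
    exact (h.pow_const (q - 2)).aestronglyMeasurable.mul (b04b_meas v)
  obtain ⟨C, hC, h4⟩ := fn_l4
  rw [memLp_two_iff_integrable_sq hm]
  have h1 : Integrable (fun z => fn v z ^ 4) volume := by
    have := (h4 v).1.integrable_norm_pow (p := 4) (by norm_num)
    refine this.congr (Eventually.of_forall fun z => ?_)
    simp only [Real.norm_eq_abs]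
    rw [show (4 : ℕ) = 2 * 2 by norm_num, pow_mul, pow_mul, sq_abs]
  have hI : Integrable (fun z => 1 + fn v z ^ 4) b04b_mu := (integrable_const 1).add h1.restrict
  refine hI.mono' (hm.pow 2) (Eventually.of_forall fun z => ?_)
  rw [Real.norm_of_nonneg (by positivity)]
  have e : (|fn v z| ^ (q - 2) * fn v z) ^ 2 = (|fn v z| ^ (q - 2)) ^ 2 * |fn v z| ^ 2 := by
    rw [mul_pow, sq_abs]
  rw [e]
  have e4 : fn v z ^ 4 = |fn v z| ^ 4 := by
    rw [show (4 : ℕ) = 2 * 2 by norm_num, pow_mul, pow_mul, sq_abs]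
  rw [e4]
  set t := |fn v z|
  have ht : 0 ≤ t := abs_nonneg _
  have h0 : 0 ≤ t ^ (q - 2) := Real.rpow_nonneg ht _
  rcases le_total t 1 with h | h
  · have h5 : t ^ (q - 2) ≤ 1 := Real.rpow_le_one ht h (by linarith)
    have h6 : (t ^ (q - 2)) ^ 2 ≤ 1 := pow_le_one₀ h0 h5
    have h7 : t ^ 2 ≤ 1 := pow_le_one₀ ht h
    have h8 : (t ^ (q - 2)) ^ 2 * t ^ 2 ≤ 1 * 1 := mul_le_mul h6 h7 (by positivity) (by norm_num)
    have h9 : 0 ≤ t ^ 4 := by positivity
    linarith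
  · have h5 : t ^ (q - 2) ≤ t ^ (1 : ℝ) := Real.rpow_le_rpow_of_exponent_le h (by linarith)
    rw [Real.rpow_one] at h5
    have h6 : (t ^ (q - 2)) ^ 2 ≤ t ^ 2 := pow_le_pow_left₀ h0 h5 2
    have h8 : (t ^ (q - 2)) ^ 2 * t ^ 2 ≤ t ^ 2 * t ^ 2 :=
      mul_le_mul_of_nonneg_right h6 (by positivity)
    have h9 : t ^ 2 * t ^ 2 = t ^ 4 := by ring
    linarith

theorem exists_nq {lam q : ℝ} (h2 : 2 < q) (h3 : q ≤ 21 / 10) : ∃ n : HH → HH, ∀ v y : HH,
    inner ℝ (n v) y = lam * ∫ z in DD, |fn v z| ^ (q - 2) * fn v z * fn y z := by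
  have hD : MeasurableSet DD := a17_isOpen_DD.measurableSet
  have hM : ∀ v : HH, MemLp (DD.indicator (fun z => lam * (|fn v z| ^ (q - 2) * fn v z))) 2
      (volume : Measure ℂ) := fun v =>
    (memLp_indicator_iff_restrict hD).mpr ((b04b_mem h2 h3 v).const_mul lam)
  refine ⟨fun v => (ContinuousLinearMap.adjoint fn) ((hM v).toLp), fun v y => ?_⟩
  rw [ContinuousLinearMap.adjoint_inner_left, inner_LR]
  have h1 := (hM v).coeFn_toLp
  have h4 : ∫ z, ((hM v).toLp) z * fn y z =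
      ∫ z, DD.indicator (fun z => lam * (|fn v z| ^ (q - 2) * fn v z) * fn y z) z := by
    refine integral_congr_ae ?_
    filter_upwards [h1] with z hz
    rw [hz]
    by_cases h : z ∈ DD
    · rw [indicator_of_mem h, indicator_of_mem h]
    · rw [indicator_of_notMem h, indicator_of_notMem h, zero_mul]
  rw [h4, integral_indicator hD, ← integral_const_mul]
  congr 1
  funext z
  ring

/-- the gradient of `Nq` -/
noncomputable def nq (lam q : ℝ) (v : HH) : HH :=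
  if h : 2 < q ∧ q ≤ 21 / 10 then Classical.choose (exists_nq (lam := lam) h.1 h.2) v else 0

theorem nq_inner {lam q : ℝ} (h2 : 2 < q) (h3 : q ≤ 21 / 10) (v y : HH) :
    inner ℝ (nq lam q v) y = lam * ∫ z in DD, |fn v z| ^ (q - 2) * fn v z * fn y z := by
  unfold nq
  rw [dif_pos ⟨h2, h3⟩]
  exact Classical.choose_spec (exists_nq (lam := lam) h2 h3) v y

theorem b04b_int {q : ℝ} (h2 : 2 < q) (h3 : q ≤ 21 / 10) (v y : HH) :
    Integrable (fun z => |fn v z| ^ (q - 2) * fn v z * fn y z) b04b_mu :=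
  a17_mul_int (b04b_mem h2 h3 v) ((Lp.memLp (fn y)).restrict DD)

theorem b04b_sub (x y : HH) : ∀ᵐ z ∂b04b_mu, fn (x - y) z = fn x z - fn y z := by
  have h : fn (x - y) = fn x - fn y := map_sub _ _ _
  have h1 := Lp.coeFn_sub (fn x) (fn y)
  rw [← h] at h1
  exact ae_restrict_of_ae h1

/-- pointwise domination gives a bound of the integral -/
theorem b04b_dom {G B : ℂ → ℝ} (hB : Integrable B b04b_mu) (h : ∀ᵐ z ∂b04b_mu, |G z| ≤ B z) :
    |∫ z, G z ∂b04b_mu| ≤ ∫ z, B z ∂b04b_mu := by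
  rw [← Real.norm_eq_abs]
  exact norm_integral_le_of_norm_le hB h

/-- a vector is small when all its inner products are -/
theorem b04b_norm {a : HH} {K : ℝ} (hK : 0 ≤ K) (h : ∀ y, inner ℝ a y ≤ K * ‖y‖) : ‖a‖ ≤ K := by
  have h1 := h a
  rw [real_inner_self_eq_norm_sq] at h1
  rcases eq_or_lt_of_le (norm_nonneg a) with h0 | h0
  · rw [← h0]; exact hK
  · nlinarith

theorem b04b_lip {lam q : ℝ} (h2 : 2 < q) (h3 : q ≤ 21 / 10) {K : ℝ} (hK : 0 < K)
    (htri : ∀ (W : ℂ → ℝ) (x y : HH), (∀ z, 0 ≤ W z) →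
    MemLp W 2 b04b_mu → Integrable (fun z => W z * (|fn x z| * |fn y z|)) b04b_mu ∧
      ∫ z, W z * (|fn x z| * |fn y z|) ∂b04b_mu ≤
        K * √(∫ z, W z ^ 2 ∂b04b_mu) * (‖x‖ * ‖y‖)) {R : ℝ} (v w : HH) (hv : ‖v‖ ≤ R)
    (hw : ‖w‖ ≤ R) :
    ‖nq lam q v - nq lam q w‖ ≤ |lam| * ((q - 1) * (K * √(8 + 2 * R ^ 2))) * ‖v - w‖ := by
  have hR : 0 ≤ R := (norm_nonneg v).trans hv
  refine b04b_norm (by have : 0 < q - 1 := by linarith
                       positivity) fun y => ?_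
  have hwt := b04b_wt h2 h3 v w
  have hW0 : ∀ z, 0 ≤ (|fn v z| + |fn w z|) ^ (q - 2) := fun z => Real.rpow_nonneg (by positivity) _
  have ht := htri _ (v - w) y hW0 hwt.1
  have hsq : √(∫ z, ((|fn v z| + |fn w z|) ^ (q - 2)) ^ 2 ∂b04b_mu) ≤ √(8 + 2 * R ^ 2) := by
    refine Real.sqrt_le_sqrt (hwt.2.trans ?_)
    have e1 : ‖v‖ ^ 2 ≤ R ^ 2 := pow_le_pow_left₀ (norm_nonneg _) hv 2
    have e2 : ‖w‖ ^ 2 ≤ R ^ 2 := pow_le_pow_left₀ (norm_nonneg _) hw 2
    linarith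
  rw [inner_sub_left, nq_inner h2 h3, nq_inner h2 h3, ← mul_sub,
    ← integral_sub (b04b_int h2 h3 v y) (b04b_int h2 h3 w y)]
  have hdom := b04b_dom (G := fun z => |fn v z| ^ (q - 2) * fn v z * fn y z -
      |fn w z| ^ (q - 2) * fn w z * fn y z) (ht.1.const_mul (q - 1)) (by
    filter_upwards [b04b_sub v w] with z hz
    have e := n_lip (a := fn v z) (b := fn w z) h2 (by linarith : q ≤ 3)
    rw [← hz] at e
    rw [← sub_mul, abs_mul]
    calc |(|fn v z| ^ (q - 2) * fn v z - |fn w z| ^ (q - 2) * fn w z)| * |fn y z|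
        ≤ ((q - 1) * (|fn v z| + |fn w z|) ^ (q - 2) * |fn (v - w) z|) * |fn y z| :=
          mul_le_mul_of_nonneg_right e (abs_nonneg _)
      _ = _ := by ring)
  rw [integral_const_mul] at hdom
  have hfin : ∫ z, (|fn v z| + |fn w z|) ^ (q - 2) * (|fn (v - w) z| * |fn y z|) ∂b04b_mu ≤
      K * √(8 + 2 * R ^ 2) * (‖v - w‖ * ‖y‖) :=
    ht.2.trans (mul_le_mul_of_nonneg_right (mul_le_mul_of_nonneg_left hsq hK.le) (by positivity))
  refine (le_abs_self _).trans ?_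
  rw [abs_mul]
  calc |lam| * _ ≤ |lam| * ((q - 1) * (K * √(8 + 2 * R ^ 2) * (‖v - w‖ * ‖y‖))) :=
        mul_le_mul_of_nonneg_left (hdom.trans
          (mul_le_mul_of_nonneg_left hfin (by linarith))) (abs_nonneg _)
    _ = _ := by ring

/-- hypothesis `hN` of `lyapunov_schmidt` -/
theorem nq_taylor {lam q : ℝ} (h2 : 2 < q) (h3 : q ≤ 21 / 10) (R : ℝ) :
    ∃ C : ℝ, ∀ v w : HH, ‖v‖ ≤ R → ‖w‖ ≤ R →
      |Nq lam q w - Nq lam q v - inner ℝ (nq lam q v) (w - v)| ≤ C * ‖w - v‖ ^ 2 ∧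
        ‖nq lam q v - nq lam q w‖ ≤ C * ‖v - w‖ := by
  obtain ⟨K, hK, htri⟩ := b04b_tri
  obtain ⟨C0, hC0, hpow⟩ := pow_taylor
  set A := |lam| * ((q - 1) * (K * √(8 + 2 * R ^ 2))) with hA
  set B := |lam / q| * (C0 * (K * √(8 + 2 * R ^ 2))) with hB
  refine ⟨max A B, fun v w hv hw => ⟨?_, ?_⟩⟩
  · have hR : 0 ≤ R := (norm_nonneg v).trans hv
    have hwt := b04b_wt h2 h3 v w
    have hW0 : ∀ z, 0 ≤ (|fn v z| + |fn w z|) ^ (q - 2) :=
      fun z => Real.rpow_nonneg (by positivity) _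
    have ht := htri _ (w - v) (w - v) hW0 hwt.1
    have hsq : √(∫ z, ((|fn v z| + |fn w z|) ^ (q - 2)) ^ 2 ∂b04b_mu) ≤ √(8 + 2 * R ^ 2) := by
      refine Real.sqrt_le_sqrt (hwt.2.trans ?_)
      have e1 : ‖v‖ ^ 2 ≤ R ^ 2 := pow_le_pow_left₀ (norm_nonneg _) hv 2
      have e2 : ‖w‖ ^ 2 ≤ R ^ 2 := pow_le_pow_left₀ (norm_nonneg _) hw 2
      linarith
    have hq0 : q ≠ 0 := by linarith
    have hpq : ∀ v : HH, Integrable (fun z => |fn v z| ^ q) b04b_mu := by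
      intro v
      refine (b04b_int h2 h3 v v).congr (Eventually.of_forall fun z => ?_)
      simp only
      rcases eq_or_ne (fn v z) 0 with h0 | h0
      · rw [h0, abs_zero, Real.zero_rpow hq0, mul_zero]
      · have hp : 0 < |fn v z| := abs_pos.mpr h0
        have e : |fn v z| ^ q = |fn v z| ^ (q - 2) * |fn v z| ^ 2 := by
          rw [← Real.rpow_natCast, ← Real.rpow_add hp]
          norm_num
        rw [e, sq_abs]
        ring
    have hlin : Integrable (fun z => |fn v z| ^ (q - 2) * fn v z * fn (w - v) z) b04b_mu :=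
      b04b_int h2 h3 v (w - v)
    have key : Nq lam q w - Nq lam q v - inner ℝ (nq lam q v) (w - v) =
        lam / q * ∫ z, (|fn w z| ^ q - |fn v z| ^ q -
          q * (|fn v z| ^ (q - 2) * fn v z * fn (w - v) z)) ∂b04b_mu := by
      have hI0 : Integrable (fun z => |fn w z| ^ q - |fn v z| ^ q) b04b_mu := (hpq w).sub (hpq v)
      rw [nq_inner h2 h3, integral_sub hI0 (hlin.const_mul q),
        integral_sub (hpq w) (hpq v), integral_const_mul]
      unfold Nq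
      field_simp
    rw [key, abs_mul]
    have hdom := b04b_dom (G := fun z => |fn w z| ^ q - |fn v z| ^ q -
          q * (|fn v z| ^ (q - 2) * fn v z * fn (w - v) z)) (ht.1.const_mul C0) (by
      filter_upwards [b04b_sub w v] with z hz
      have e := hpow q (fn v z) (fn w z) h2 h3
      rw [← hz] at e
      have e2 : q * (|fn v z| ^ (q - 2) * fn v z * fn (w - v) z) =
        q * (|fn v z| ^ (q - 2) * fn v z) * fn (w - v) z := by ring
      rw [e2]
      refine e.trans (le_of_eq ?_)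
      rw [← sq_abs (fn (w - v) z)]
      ring)
    rw [integral_const_mul] at hdom
    have hfin : ∫ z, (|fn v z| + |fn w z|) ^ (q - 2) * (|fn (w - v) z| * |fn (w - v) z|) ∂b04b_mu ≤
        K * √(8 + 2 * R ^ 2) * (‖w - v‖ * ‖w - v‖) :=
      ht.2.trans (mul_le_mul_of_nonneg_right (mul_le_mul_of_nonneg_left hsq hK.le) (by positivity))
    calc |lam / q| * _ ≤ |lam / q| * (C0 * (K * √(8 + 2 * R ^ 2) * (‖w - v‖ * ‖w - v‖))) :=
          mul_le_mul_of_nonneg_left (hdom.trans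
            (mul_le_mul_of_nonneg_left hfin hC0.le)) (abs_nonneg _)
      _ = B * ‖w - v‖ ^ 2 := by rw [hB]; ring
      _ ≤ max A B * ‖w - v‖ ^ 2 :=
          mul_le_mul_of_nonneg_right (le_max_right _ _) (by positivity)
  · exact (b04b_lip h2 h3 hK htri v w hv hw).trans
      (mul_le_mul_of_nonneg_right (le_max_left _ _) (norm_nonneg _))

/-- hypothesis `hT` of `lyapunov_schmidt` -/
theorem nq_T {lam q : ℝ} (h2 : 2 < q) (h3 : q ≤ 21 / 10) {u : HH} {T : HH →L[ℝ] HH}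
    (hT : IsT (fun z => (q - 1) * lam * |fn u z| ^ (q - 2)) T) {κ : ℝ} (hκ : 0 < κ) :
    ∃ r > 0, ∀ v w : HH, ‖v - u‖ ≤ r → ‖w - u‖ ≤ r →
      ‖nq lam q v - nq lam q w - T (v - w)‖ ≤ κ * ‖v - w‖ := by
  obtain ⟨K, hK, htri⟩ := b04b_tri
  -- small L² norm of |f|^(q-2)
  have hs : 0 < 2 * (q - 2) := by linarith
  set L : ℝ := |lam| * (q - 1) * K + 1 with hL
  have hL0 : 0 < L := by
    have : 0 < q - 1 := by linarith
    positivity
  set η : ℝ := (κ / (2 * L)) ^ 2 with hη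
  have hη0 : 0 < η := by positivity
  obtain ⟨C, hC, hY⟩ := b04b_young (s := 2 * (q - 2)) (ε := η / 16) hs (by linarith) (by positivity)
  have hwt : ∀ f : HH, MemLp (fun z => |fn f z| ^ (q - 2)) 2 b04b_mu ∧
      ∫ z, (|fn f z| ^ (q - 2)) ^ 2 ∂b04b_mu ≤ η / 2 + C * ‖f‖ ^ 2 := by
    intro f
    have hm : AEStronglyMeasurable (fun z => |fn f z| ^ (q - 2)) b04b_mu :=
      ((b04b_meas f).norm.aemeasurable.pow_const (q - 2)).aestronglyMeasurable
    have hb : ∀ z, (|fn f z| ^ (q - 2)) ^ 2 ≤ η / 16 + C * fn f z ^ 2 := by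
      intro z
      have e := hY |fn f z| (abs_nonneg _)
      rw [sq_abs] at e
      have e2 : (|fn f z| ^ (q - 2)) ^ 2 = |fn f z| ^ (2 * (q - 2)) := by
        rw [← Real.rpow_natCast, ← Real.rpow_mul (abs_nonneg _)]
        congr 1
        push_cast; ring
      rw [e2]; exact e
    have hJ : Integrable (fun z => C * fn f z ^ 2) b04b_mu := (b04b_sq f).1.const_mul C
    have hI : Integrable (fun z => η / 16 + C * fn f z ^ 2) b04b_mu :=
      (integrable_const _).add hJ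
    have hI2 : Integrable (fun z => (|fn f z| ^ (q - 2)) ^ 2) b04b_mu := by
      refine hI.mono' (hm.pow 2) (Eventually.of_forall fun z => ?_)
      rw [Real.norm_of_nonneg (by positivity)]
      exact hb z
    refine ⟨(memLp_two_iff_integrable_sq hm).mpr hI2, ?_⟩
    refine (integral_mono hI2 hI hb).trans ?_
    rw [integral_add (integrable_const _) hJ, integral_const_mul]
    have e0 : ∫ _z, η / 16 ∂b04b_mu = η / 16 * ∫ _z, (1 : ℝ) ∂b04b_mu := by
      rw [← integral_const_mul]; simp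
    have e1 := (b04b_sq f).2
    have e3 := b04b_const
    rw [e0]
    have e4 : η / 16 * ∫ _z, (1 : ℝ) ∂b04b_mu ≤ η / 16 * 8 :=
      mul_le_mul_of_nonneg_left e3 (by positivity)
    have e5 : C * ∫ z, fn f z ^ 2 ∂b04b_mu ≤ C * (1 / 2 * ‖f‖ ^ 2) :=
      mul_le_mul_of_nonneg_left e1 hC.le
    have e6 : 0 ≤ C * ‖f‖ ^ 2 := by positivity
    linarith
  obtain ⟨r, hr, hrη⟩ : ∃ r > 0, C * r ^ 2 ≤ η / 2 := by
    refine ⟨√(η / (2 * C)), by positivity, ?_⟩
    rw [Real.sq_sqrt (by positivity)]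
    apply le_of_eq
    field_simp
  have hsmall : ∀ f : HH, ‖f‖ ≤ r → √(∫ z, (|fn f z| ^ (q - 2)) ^ 2 ∂b04b_mu) ≤ κ / (2 * L) := by
    intro f hf
    have e1 : ∫ z, (|fn f z| ^ (q - 2)) ^ 2 ∂b04b_mu ≤ η := by
      refine (hwt f).2.trans ?_
      have : C * ‖f‖ ^ 2 ≤ C * r ^ 2 :=
        mul_le_mul_of_nonneg_left (pow_le_pow_left₀ (norm_nonneg _) hf 2) hC.le
      linarith
    refine (Real.sqrt_le_sqrt e1).trans ?_
    rw [hη, Real.sqrt_sq (by positivity)]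
  refine ⟨r, hr, fun v w hv hw => ?_⟩
  refine b04b_norm (by positivity) fun y => ?_
  have t1 := htri (fun z => |fn (v - u) z| ^ (q - 2)) (v - w) y
    (fun z => Real.rpow_nonneg (abs_nonneg _) _) (hwt (v - u)).1
  have t2 := htri (fun z => |fn (w - u) z| ^ (q - 2)) (v - w) y
    (fun z => Real.rpow_nonneg (abs_nonneg _) _) (hwt (w - u)).1
  have t3 := htri (fun z => |fn u z| ^ (q - 2)) (v - w) y
    (fun z => Real.rpow_nonneg (abs_nonneg _) _) (hwt u).1
  have hTi : Integrable (fun z => |fn u z| ^ (q - 2) * (fn (v - w) z * fn y z)) b04b_mu := by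
    refine t3.1.mono' ?_ (Eventually.of_forall fun z => ?_)
    · exact (hwt u).1.1.mul ((b04b_meas _).mul (b04b_meas _))
    · rw [Real.norm_eq_abs, abs_mul, abs_mul, abs_of_nonneg (Real.rpow_nonneg (abs_nonneg _) _)]
  have hTe : inner ℝ (T (v - w)) y = lam * ∫ z, (q - 1) * (|fn u z| ^ (q - 2) *
      (fn (v - w) z * fn y z)) ∂b04b_mu := by
    rw [hT, ← integral_const_mul]
    congr 1
    funext z
    ring
  have hI0 : Integrable (fun z => |fn v z| ^ (q - 2) * fn v z * fn y z -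
      |fn w z| ^ (q - 2) * fn w z * fn y z) b04b_mu :=
    (b04b_int h2 h3 v y).sub (b04b_int h2 h3 w y)
  rw [inner_sub_left, inner_sub_left, nq_inner h2 h3, nq_inner h2 h3, hTe, ← mul_sub,
    ← integral_sub (b04b_int h2 h3 v y) (b04b_int h2 h3 w y), ← mul_sub,
    ← integral_sub hI0 (hTi.const_mul (q - 1))]
  have hdom := b04b_dom (G := fun z => |fn v z| ^ (q - 2) * fn v z * fn y z -
      |fn w z| ^ (q - 2) * fn w z * fn y z -
      (q - 1) * (|fn u z| ^ (q - 2) * (fn (v - w) z * fn y z)))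
    ((t1.1.add t2.1).const_mul (q - 1)) (by
    filter_upwards [b04b_sub v w, b04b_sub v u, b04b_sub w u] with z h1 h4 h5
    have e := n_diff (a := fn v z) (b := fn w z) (c := fn u z) h2 (by linarith : q ≤ 3)
    rw [← h1, ← h4, ← h5] at e
    have e2 : |fn v z| ^ (q - 2) * fn v z * fn y z - |fn w z| ^ (q - 2) * fn w z * fn y z -
      (q - 1) * (|fn u z| ^ (q - 2) * (fn (v - w) z * fn y z)) =
      (|fn v z| ^ (q - 2) * fn v z - |fn w z| ^ (q - 2) * fn w z -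
        (q - 1) * |fn u z| ^ (q - 2) * fn (v - w) z) * fn y z := by ring
    rw [e2, abs_mul]
    refine (mul_le_mul_of_nonneg_right e (abs_nonneg _)).trans (le_of_eq ?_)
    simp only [Pi.add_apply]
    ring)
  rw [integral_const_mul, integral_add' t1.1 t2.1] at hdom
  have f1 := t1.2.trans (mul_le_mul_of_nonneg_right (mul_le_mul_of_nonneg_left
    (hsmall _ hv) hK.le) (by positivity : 0 ≤ ‖v - w‖ * ‖y‖))
  have f2 := t2.2.trans (mul_le_mul_of_nonneg_right (mul_le_mul_of_nonneg_left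
    (hsmall _ hw) hK.le) (by positivity : 0 ≤ ‖v - w‖ * ‖y‖))
  refine (le_abs_self _).trans ?_
  rw [abs_mul]
  have hq1 : 0 < q - 1 := by linarith
  calc |lam| * _ ≤ |lam| * ((q - 1) * (K * (κ / (2 * L)) * (‖v - w‖ * ‖y‖) +
          K * (κ / (2 * L)) * (‖v - w‖ * ‖y‖))) :=
        mul_le_mul_of_nonneg_left (hdom.trans
          (mul_le_mul_of_nonneg_left (add_le_add f1 f2) hq1.le)) (abs_nonneg _)
    _ = ((|lam| * (q - 1) * K) / L) * (κ * ‖v - w‖ * ‖y‖) := by field_simp; ring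
    _ ≤ 1 * (κ * ‖v - w‖ * ‖y‖) := by
        refine mul_le_mul_of_nonneg_right ?_ (by positivity)
        rw [div_le_one hL0, hL]
        linarith
    _ = κ * ‖v - w‖ * ‖y‖ := by ring

end Pool.Agent.H87.LE
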