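import Pool.Agent.H87.LE.A04_Spec
import Pool.Agent.H87.LE.A15_Expl
import Pool.Agent.H87.LE.B03_Cap
import Pool.Agent.H87.LE.B04_Oper
import Pool.Agent.H58.LE.LimL2
import Pool.Agent.H58.LE.Elem

open MeasureTheory Complex Set Filter Topology
open scoped ContDiff Laplacian

namespace Pool.Agent.H87.LE

/-! # B05: the explicit elements of `H` and the model operator -/

theorem exists_w0H : ∃ w : HH, (∀ᵐ z, fn w z = indicator DD w0 z) ∧
    (∀ᵐ z, gr w z = indicator DD (gradient w0) z) ∧ ev w = 0 ∧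
    ∀ y : HH, inner ℝ w y = 5 * Real.pi ^ 2 * ∫ z in DD, w0 z * fn y z :=
  b05_exists_w0H

/-- `w0` as an element of `H` -/
noncomputable def w0H : HH := Classical.choose exists_w0H

theorem exists_e1 : ∃ (e : HH) (c : ℝ), 0 < c ∧ ‖e‖ = 1 ∧
    (∀ᵐ z, fn e z = indicator DD (fun z => c * psi11 z) z) ∧
    (∀ᵐ z, gr e z = indicator DD (fun z => c • gradient psi11 z) z) ∧
    e ∈ V (DD \ Axs) ∧ ev e = e ∧
    ∀ y ∈ V (DD \ Axs), inner ℝ e y = 2 * Real.pi ^ 2 * ∫ z in DD, fn e z * fn y z :=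
  b05_exists_e1

/-- normalised `psi11` -/
noncomputable def e1 : HH := Classical.choose exists_e1

theorem exists_e2 : ∃ (e : HH) (c : ℝ), 0 < c ∧ ‖e‖ = 1 ∧
    (∀ᵐ z, fn e z = indicator DD (fun z => c * phi0 z) z) ∧
    (∀ᵐ z, gr e z = indicator DD (fun z => c • gradient phi0 z) z) ∧
    e ∈ V (DD \ Axs) ∧ ev e = e ∧
    ∀ y ∈ V (DD \ Axs), inner ℝ e y = 5 * Real.pi ^ 2 * ∫ z in DD, fn e z * fn y z :=
  b05_exists_e2

/-- normalised `phi0` -/
noncomputable def e2 : HH := Classical.choose exists_e2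

theorem w0H_spec : (∀ᵐ z, fn w0H z = indicator DD w0 z) ∧
    (∀ᵐ z, gr w0H z = indicator DD (gradient w0) z) ∧ ev w0H = 0 ∧
    ∀ y : HH, inner ℝ w0H y = 5 * Real.pi ^ 2 * ∫ z in DD, w0 z * fn y z :=
  Classical.choose_spec exists_w0H

theorem e1_spec : ∃ c : ℝ, 0 < c ∧ ‖e1‖ = 1 ∧
    (∀ᵐ z, fn e1 z = indicator DD (fun z => c * psi11 z) z) ∧
    (∀ᵐ z, gr e1 z = indicator DD (fun z => c • gradient psi11 z) z) ∧
    e1 ∈ V (DD \ Axs) ∧ ev e1 = e1 ∧
    ∀ y ∈ V (DD \ Axs), inner ℝ e1 y = 2 * Real.pi ^ 2 * ∫ z in DD, fn e1 z * fn y z :=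
  Classical.choose_spec exists_e1

theorem e2_spec : ∃ c : ℝ, 0 < c ∧ ‖e2‖ = 1 ∧
    (∀ᵐ z, fn e2 z = indicator DD (fun z => c * phi0 z) z) ∧
    (∀ᵐ z, gr e2 z = indicator DD (fun z => c • gradient phi0 z) z) ∧
    e2 ∈ V (DD \ Axs) ∧ ev e2 = e2 ∧
    ∀ y ∈ V (DD \ Axs), inner ℝ e2 y = 5 * Real.pi ^ 2 * ∫ z in DD, fn e2 z * fn y z :=
  Classical.choose_spec exists_e2

theorem b05_ind_int {v g : ℂ → ℝ} {c : ℝ} (h : ∀ᵐ z, v z = indicator DD (fun z => c * g z) z)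
    (y : ℂ → ℝ) : ∫ z in DD, v z * y z = c * ∫ z in DD, y z * g z := by
  rw [← integral_const_mul]
  apply integral_congr_ae
  filter_upwards [ae_restrict_of_ae h, ae_restrict_mem b05_isOpen_DD.measurableSet] with z h1 h2
  rw [h1, indicator_of_mem h2]
  ring

/-- spectral gap on `V (DD \ Axs)` (restrict to the four quadrants, `spec_test`) -/
theorem spec_gap {x : HH} (hx : x ∈ V (DD \ Axs)) (h1 : inner ℝ x e1 = 0) (h2 : inner ℝ x e2 = 0)
    (h3 : inner ℝ x w0H = 0) : 8 * Real.pi ^ 2 * ∫ z in DD, fn x z ^ 2 ≤ ‖x‖ ^ 2 := by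
  have hpi : (0 : ℝ) < Real.pi ^ 2 := by positivity
  obtain ⟨c, hc, -, f1, -, -, -, i1⟩ := e1_spec
  obtain ⟨d, hd, -, f2, -, -, -, i2⟩ := e2_spec
  obtain ⟨-, -, -, i3⟩ := w0H_spec
  have k1 : ∫ z in DD, fn x z * psi11 z = 0 := by
    have := i1 x hx
    rw [real_inner_comm, h1, b05_ind_int f1] at this
    have h4 : 2 * Real.pi ^ 2 * c ≠ 0 := by positivity
    have h5 : 2 * Real.pi ^ 2 * c * ∫ z in DD, fn x z * psi11 z = 0 := by
      rw [mul_assoc]; exact this.symm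
    exact (mul_eq_zero.1 h5).resolve_left h4
  have k2 : ∫ z in DD, fn x z * phi0 z = 0 := by
    have := i2 x hx
    rw [real_inner_comm, h2, b05_ind_int f2] at this
    have h4 : 5 * Real.pi ^ 2 * d ≠ 0 := by positivity
    have h5 : 5 * Real.pi ^ 2 * d * ∫ z in DD, fn x z * phi0 z = 0 := by
      rw [mul_assoc]; exact this.symm
    exact (mul_eq_zero.1 h5).resolve_left h4
  have k3 : ∫ z in DD, fn x z * w0 z = 0 := by
    have := i3 x
    rw [real_inner_comm, h3] at this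
    have h4 : 5 * Real.pi ^ 2 ≠ 0 := by positivity
    have h5 : ∫ z in DD, w0 z * fn x z = 0 := (mul_eq_zero.1 this.symm).resolve_left h4
    rw [← h5]
    congr 1
    funext z
    ring
  have key := b05_gap hx
  rw [k1, k2, k3] at key
  have h6 : ∫ z in DD, fn x z ^ 2 = ∫ z, fn x z ^ 2 := by
    apply setIntegral_eq_integral_of_ae_compl_eq_zero
    filter_upwards [fn_off x] with z hz hz'
    rw [hz hz']; simp
  rw [h6]
  simpa using key

/-- the operator of the weight `5π²` -/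
theorem exists_T0 : ∃ T : HH →L[ℝ] HH, IsT (fun _ => 5 * Real.pi ^ 2) T :=
  exists_T (C := 5 * Real.pi ^ 2) aestronglyMeasurable_const
    (Eventually.of_forall fun _ _ => (abs_of_pos (by positivity)).le)

noncomputable def T0 : HH →L[ℝ] HH := Classical.choose exists_T0

theorem T0_spec : IsT (fun _ => 5 * Real.pi ^ 2) T0 := Classical.choose_spec exists_T0

/-- the model operator -/
noncomputable def A0 : HH →L[ℝ] HH := Pe Axs ∘L T0 ∘L Pe Axs

theorem b05_conj_Axs : ∀ z, starRingEnd ℂ z ∈ Axs ↔ z ∈ Axs := by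
  intro z
  simp [Axs]

theorem b05_Pe_self {E : Set ℂ} (hE : ∀ z, starRingEnd ℂ z ∈ E ↔ z ∈ E) {x : HH}
    (hx : x ∈ V (DD \ E)) (he : ev x = x) : Pe E x = x :=
  ((Pe_isPr hE).2.2 x).2 ⟨hx, he⟩

theorem b05_Pe_mem {E : Set ℂ} (hE : ∀ z, starRingEnd ℂ z ∈ E ↔ z ∈ E) (x : HH) :
    Pe E x ∈ V (DD \ E) ∧ ev (Pe E x) = Pe E x :=
  ((Pe_isPr hE).2.2 (Pe E x)).1 (congrArg (fun f : HH →L[ℝ] HH => f x) (Pe_isPr hE).1)

theorem b05_Pe_symm {E : Set ℂ} (hE : ∀ z, starRingEnd ℂ z ∈ E ↔ z ∈ E) (x y : HH) :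
    inner ℝ (Pe E x) y = inner ℝ x (Pe E y) := (Pe_isPr hE).2.1 x y

theorem b05_T0 (x y : HH) : inner ℝ (T0 x) y = 5 * Real.pi ^ 2 * ∫ z in DD, fn x z * fn y z := by
  rw [T0_spec x y, ← integral_const_mul]
  congr 1
  funext z
  ring

theorem b05_T0_symm (x y : HH) : inner ℝ (T0 x) y = inner ℝ x (T0 y) := by
  rw [real_inner_comm (T0 y) x, b05_T0, b05_T0]
  congr 2
  funext z
  ring

theorem b05_A0_apply (x : HH) : A0 x = Pe Axs (T0 (Pe Axs x)) := rfl

/-- eigenvectors of the model operator -/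
theorem b05_eig {e : HH} {l m : ℝ} (he : e ∈ V (DD \ Axs)) (hev : ev e = e) (hl : 5 * Real.pi ^ 2 = m * l)
    (hi : ∀ y ∈ V (DD \ Axs), inner ℝ e y = l * ∫ z in DD, fn e z * fn y z) : A0 e = m • e := by
  apply ext_inner_right ℝ
  intro y
  have hs := b05_Pe_self b05_conj_Axs he hev
  rw [b05_A0_apply, hs, b05_Pe_symm b05_conj_Axs, b05_T0, hl, mul_assoc,
    ← hi _ (b05_Pe_mem b05_conj_Axs y).1, ← b05_Pe_symm b05_conj_Axs, hs]
  exact (real_inner_smul_left e y m).symm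

theorem b05_norm_Pe {E : Set ℂ} (hE : ∀ z, starRingEnd ℂ z ∈ E ↔ z ∈ E) (x : HH) :
    ‖Pe E x‖ ≤ ‖x‖ := by
  have h1 : inner ℝ (Pe E x) (Pe E x) = inner ℝ x (Pe E x) := by
    rw [b05_Pe_symm hE, show Pe E (Pe E x) = Pe E x from
      congrArg (fun f : HH →L[ℝ] HH => f x) (Pe_isPr hE).1]
  rw [real_inner_self_eq_norm_sq] at h1
  have h2 := real_inner_le_norm x (Pe E x)
  rw [← h1, sq] at h2
  by_contra hlt
  push Not at hlt
  have h3 : 0 < ‖Pe E x‖ := lt_of_le_of_lt (norm_nonneg _) hlt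
  have h4 := le_of_mul_le_mul_right h2 h3
  linarith

theorem model : Model A0 e1 e2 := by
  have hpi : (0 : ℝ) < Real.pi ^ 2 := by positivity
  obtain ⟨c, hc, n1, f1, -, m1, v1, i1⟩ := e1_spec
  obtain ⟨d, hd, n2, f2, -, m2, v2, i2⟩ := e2_spec
  obtain ⟨-, -, v3, -⟩ := w0H_spec
  refine ⟨?_, n1, n2, ?_, ?_, ?_, ?_⟩
  · intro x y
    rw [b05_A0_apply, b05_A0_apply, b05_Pe_symm b05_conj_Axs, b05_T0_symm,
      b05_Pe_symm b05_conj_Axs]
  · have h1 := i1 e2 m2
    have h2 := i2 e1 m1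
    rw [real_inner_comm] at h2
    have h3 : ∫ z in DD, fn e2 z * fn e1 z = ∫ z in DD, fn e1 z * fn e2 z := by
      congr 1; funext z; ring
    rw [h3] at h2
    have h4 : 3 * Real.pi ^ 2 * (∫ z in DD, fn e1 z * fn e2 z) = 0 := by linarith
    have h5 : ∫ z in DD, fn e1 z * fn e2 z = 0 :=
      (mul_eq_zero.1 h4).resolve_left (by positivity)
    rw [h1, h5, mul_zero]
  · exact b05_eig m1 v1 (by ring) i1
  · have := b05_eig (m := 1) m2 v2 (by ring) i2
    rw [this, one_smul]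
  · intro z hz1 hz2
    rw [b05_A0_apply, b05_Pe_symm b05_conj_Axs, b05_T0]
    obtain ⟨hx, hev⟩ := b05_Pe_mem b05_conj_Axs z
    have k1 : inner ℝ (Pe Axs z) e1 = 0 := by
      rw [b05_Pe_symm b05_conj_Axs, b05_Pe_self b05_conj_Axs m1 v1, hz1]
    have k2 : inner ℝ (Pe Axs z) e2 = 0 := by
      rw [b05_Pe_symm b05_conj_Axs, b05_Pe_self b05_conj_Axs m2 v2, hz2]
    have k3 : inner ℝ (Pe Axs z) w0H = 0 := by
      rw [← hev, ev_symm, v3, inner_zero_right]
    have key := spec_gap hx k1 k2 k3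
    have hn := b05_norm_Pe b05_conj_Axs z
    have h1 : ∫ w in DD, fn (Pe Axs z) w * fn (Pe Axs z) w = ∫ w in DD, fn (Pe Axs z) w ^ 2 := by
      congr 1; funext w; ring
    rw [h1]
    have h2 : ‖Pe Axs z‖ ^ 2 ≤ ‖z‖ ^ 2 := pow_le_pow_left₀ (norm_nonneg _) hn 2
    linarith

theorem b05_conj_sub {r : ℝ} : ∀ z, starRingEnd ℂ z ∈ Axs \ Metric.ball 0 r ↔
    z ∈ Axs \ Metric.ball 0 r := by
  intro z
  rw [Set.mem_sdiff, Set.mem_sdiff, b05_conj_Axs, mem_ball_zero_iff, mem_ball_zero_iff,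
    RCLike.norm_conj]

theorem b05_conj_union {r : ℝ} : ∀ z, starRingEnd ℂ z ∈ Axs ∪ star r ↔ z ∈ Axs ∪ star r := by
  intro z
  rw [Set.mem_union, Set.mem_union, b05_conj_Axs]
  have : starRingEnd ℂ z ∈ star r ↔ z ∈ star r := by
    simp only [star, Mir, Set.mem_ofPred_eq, RCLike.norm_conj, conj_re, conj_im]
    rw [show z.re * -z.im * (z.re ^ 2 - (-z.im) ^ 2) = -(z.re * z.im * (z.re ^ 2 - z.im ^ 2)) by ring,
      neg_eq_zero]
  rw [this]

theorem b05_conj_qmp : Measure.QuasiMeasurePreserving (fun z : ℂ => starRingEnd ℂ z) volume volume :=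
  (conjLIE.measurePreserving).quasiMeasurePreserving

/-- `phi0` is not a resonance after opening the axes near `0` -/
theorem kink {r : ℝ} (hr : 0 < r) :
    Pe (Axs \ Metric.ball 0 r) (T0 (Pe (Axs \ Metric.ball 0 r) e2)) ≠ e2 := by
  intro heq
  obtain ⟨d, hd, n2, f2, g2, m2, v2, i2⟩ := e2_spec
  obtain ⟨φ, hφ, hR, hC, hne⟩ := phi0_kink hr
  have hm : e2 ∈ V (DD \ (Axs \ Metric.ball 0 r)) :=
    V_mono (Set.sdiff_subset_sdiff_right Set.sdiff_subset) m2
  rw [b05_Pe_self b05_conj_sub hm v2] at heq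
  have hW : W1 (DD \ (Axs \ Metric.ball 0 r)) φ (gradient φ) := by
    refine ⟨fun _ => φ, fun _ => ⟨hφ, hR⟩, hφ.1.continuous.aestronglyMeasurable,
      (b05_tst_grad hφ).1.aestronglyMeasurable, ?_, ?_⟩ <;> simp
  obtain ⟨x, hx, fx, gx⟩ := V_mk Set.sdiff_subset hW
  have hev : ev x = x := by
    rw [ev_self_iff]
    filter_upwards [fx, b05_conj_qmp.ae fx] with z h1 h2
    rw [h1, h2]
    exact hC z
  have e1' : inner ℝ e2 x = d * ∫ z in DD, inner ℝ (gradient phi0 z) (gradient φ z) := by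
    rw [inner_HH, ← integral_const_mul, ← integral_indicator b05_isOpen_DD.measurableSet]
    apply integral_congr_ae
    filter_upwards [g2, gx] with z h1 h2
    rw [h1, h2]
    by_cases hz : z ∈ DD
    · rw [indicator_of_mem hz, indicator_of_mem hz, real_inner_smul_left]
    · rw [indicator_of_notMem hz, indicator_of_notMem hz, inner_zero_left]
  have e2' : inner ℝ e2 x = d * (5 * Real.pi ^ 2 * ∫ z in DD, phi0 z * φ z) := by
    conv_lhs => rw [← heq]
    rw [b05_Pe_symm b05_conj_sub, b05_Pe_self b05_conj_sub hx hev, b05_T0, b05_ind_int f2]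
    have : ∫ z in DD, fn x z * phi0 z = ∫ z in DD, phi0 z * φ z := by
      apply integral_congr_ae
      filter_upwards [ae_restrict_of_ae fx] with z h1
      rw [h1]; ring
    rw [this]; ring
  rw [e1'] at e2'
  exact hne (mul_left_cancel₀ hd.ne' e2')

/-- `phi0` does not vanish on the diagonals -/
theorem not_limit {r : ℝ} (hr : 0 < r) : Pe (Axs ∪ star r) e2 ≠ e2 := by
  intro heq
  obtain ⟨d, hd, n2, f2, g2, m2, v2, i2⟩ := e2_spec
  have hm : e2 ∈ V (DD \ (Axs ∪ star r)) := (((Pe_isPr b05_conj_union).2.2 e2).1 heq).1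
  obtain ⟨φ, hφ, hL⟩ := V_approx Set.sdiff_subset hm
  apply phi0_not_limit hr
  have hd' : d⁻¹ * d = 1 := inv_mul_cancel₀ hd.ne'
  refine ⟨fun n z => d⁻¹ * φ n z, ?_, ?_, ?_⟩
  · intro n
    obtain ⟨⟨h1, h2, h3⟩, -⟩ := hφ n
    refine ⟨contDiff_const.mul h1, h2.mul_left, ?_⟩
    refine (tsupport_mul_subset_right.trans h3).trans ?_
    exact Set.sdiff_subset_sdiff_right Set.subset_union_right
  · have h1 : ∀ n, eLpNorm (fun z => d⁻¹ * φ n z - phi0 z) 2 (volume.restrict DD) ≤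
        ‖d⁻¹‖ₑ * eLpNorm (fun z => φ n z - fn e2 z) 2 volume := by
      intro n
      have h2 : (fun z => d⁻¹ * φ n z - phi0 z) =ᵐ[volume.restrict DD]
          fun z => d⁻¹ • (φ n z - fn e2 z) := by
        filter_upwards [ae_restrict_of_ae f2, ae_restrict_mem b05_isOpen_DD.measurableSet] with z h3 h4
        rw [h3, indicator_of_mem h4, smul_eq_mul, mul_sub, ← mul_assoc d⁻¹ d, hd', one_mul]
      rw [eLpNorm_congr_ae h2]
      have h5 := eLpNorm_const_smul (p := 2) d⁻¹ (fun z => φ n z - fn e2 z) (volume.restrict DD)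
      refine le_trans (le_of_eq h5) ?_
      gcongr
      exact Measure.restrict_le_self
    refine tendsto_of_tendsto_of_tendsto_of_le_of_le tendsto_const_nhds ?_ (fun n => zero_le) h1
    have := ENNReal.Tendsto.const_mul (a := ‖d⁻¹‖ₑ) hL.2.2.1 (Or.inr enorm_ne_top)
    simpa using this
  · have h1 : ∀ n, eLpNorm (fun z => gradient (fun z => d⁻¹ * φ n z) z - gradient phi0 z) 2
        (volume.restrict DD) ≤ ‖d⁻¹‖ₑ * eLpNorm (fun z => gradient (φ n) z - gr e2 z) 2 volume := by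
      intro n
      have h2 : (fun z => gradient (fun z => d⁻¹ * φ n z) z - gradient phi0 z)
          =ᵐ[volume.restrict DD] fun z => d⁻¹ • (gradient (φ n) z - gr e2 z) := by
        filter_upwards [ae_restrict_of_ae g2, ae_restrict_mem b05_isOpen_DD.measurableSet] with z h3 h4
        rw [h3, indicator_of_mem h4, smul_sub, smul_smul, hd', one_smul]
        congr 1
        have hdiff : DifferentiableAt ℝ (φ n) z :=
          (hφ n).1.1.differentiable (by simp) z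
        unfold gradient
        rw [fderiv_const_mul hdiff, map_smulₛₗ]
        simp
      rw [eLpNorm_congr_ae h2]
      have h5 := eLpNorm_const_smul (p := 2) d⁻¹ (fun z => gradient (φ n) z - gr e2 z)
        (volume.restrict DD)
      refine le_trans (le_of_eq h5) ?_
      gcongr
      exact Measure.restrict_le_self
    refine tendsto_of_tendsto_of_tendsto_of_le_of_le tendsto_const_nhds ?_ (fun n => zero_le) h1
    have := ENNReal.Tendsto.const_mul (a := ‖d⁻¹‖ₑ) hL.2.2.2 (Or.inr enorm_ne_top)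
    simpa using this

/-- the resonance function -/
noncomputable def mm : (HH →L[ℝ] HH) → ℝ := Classical.choose (exists_m model)

end Pool.Agent.H87.LE
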