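import Pool.Agent.H87.LE.A08_W0
import Pool.Agent.H87.LE.B05_Expl

open MeasureTheory Complex Set Filter Topology
open scoped ContDiff Laplacian ENNReal

namespace Pool.Agent.H87.LE

/-! # B06b: pointwise closeness of the ground state to `w0` -/

theorem b06b_low {h t : ℝ} (h0 : 0 < h) (ht : 0 < t) (ht1 : t ≤ 1) :
    t * |t ^ h - 1| ≤ t * (h * Real.log (1 / t)) := by
  have e1 : t ^ h ≤ 1 := Real.rpow_le_one ht.le ht1 h0.le
  have e2 : h * Real.log t + 1 ≤ t ^ h := by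
    have := Real.add_one_le_exp (Real.log t * h)
    rw [← Real.rpow_def_of_pos ht] at this
    linarith [mul_comm h (Real.log t)]
  rw [abs_sub_comm, abs_of_nonneg (by linarith)]
  apply mul_le_mul_of_nonneg_left _ ht.le
  rw [one_div, Real.log_inv]
  linarith

theorem b06b_high {h t : ℝ} (h0 : 0 < h) (ht1 : 1 < t) :
    t * |t ^ h - 1| ≤ t * (h * Real.log t * t ^ h) := by
  have ht : 0 < t := by linarith
  have e1 : 1 ≤ t ^ h := Real.one_le_rpow ht1.le h0.le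
  rw [abs_of_nonneg (by linarith)]
  apply mul_le_mul_of_nonneg_left _ ht.le
  have e2 := Real.add_one_le_exp (-(Real.log t * h))
  have e3 : Real.exp (-(Real.log t * h)) * t ^ h = 1 := by
    rw [Real.rpow_def_of_pos ht, ← Real.exp_add]; simp
  have e4 := mul_le_mul_of_nonneg_right e2 (by linarith : (0:ℝ) ≤ t ^ h)
  rw [e3] at e4
  nlinarith

theorem b06b_small {M h t : ℝ} (hM : 1 ≤ M) (h0 : 0 < h) (h1 : h ≤ 1) (ht : 0 ≤ t)
    (htM : t ≤ M) : t * |t ^ h - 1| ≤ (4 + M ^ 3) * h * t ^ (3 / 4 : ℝ) := by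
  have hM3 : 0 ≤ M ^ 3 := by positivity
  rcases ht.eq_or_lt with h2 | h2
  · rw [← h2, Real.zero_rpow (by norm_num : (3 / 4 : ℝ) ≠ 0)]; simp
  have e34 : 0 ≤ t ^ (3 / 4 : ℝ) := Real.rpow_nonneg ht _
  rcases le_or_gt t 1 with h3 | h3
  · refine (b06b_low h0 h2 h3).trans ?_
    have e1 : Real.log (1 / t) ≤ (1 / t) ^ (1 / 4 : ℝ) / (1 / 4) :=
      Real.log_le_rpow_div (by positivity) (by norm_num)
    have e2 : t * (1 / t) ^ (1 / 4 : ℝ) = t ^ (3 / 4 : ℝ) := by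
      rw [one_div, Real.inv_rpow ht, ← Real.rpow_neg ht]
      nth_rw 1 [← Real.rpow_one t]
      rw [← Real.rpow_add h2]; norm_num
    calc t * (h * Real.log (1 / t)) = h * (t * Real.log (1 / t)) := by ring
      _ ≤ h * (t * ((1 / t) ^ (1 / 4 : ℝ) / (1 / 4))) := by gcongr
      _ = 4 * h * (t * (1 / t) ^ (1 / 4 : ℝ)) := by ring
      _ = 4 * h * t ^ (3 / 4 : ℝ) := by rw [e2]
      _ ≤ (4 + M ^ 3) * h * t ^ (3 / 4 : ℝ) := by
        gcongr; linarith
  · refine (b06b_high h0 h3).trans ?_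
    have e1 : Real.log t ≤ M := by
      have := Real.log_le_sub_one_of_pos h2
      linarith
    have e2 : t ^ h ≤ M := by
      calc t ^ h ≤ t ^ (1:ℝ) := Real.rpow_le_rpow_of_exponent_le h3.le h1
        _ = t := Real.rpow_one t
        _ ≤ M := htM
    have e3 : t ≤ t ^ (3 / 4 : ℝ) * M := by
      have : t = t ^ (3 / 4 : ℝ) * t ^ (1 / 4 : ℝ) := by
        rw [← Real.rpow_add h2]; norm_num
      calc t = t ^ (3 / 4 : ℝ) * t ^ (1 / 4 : ℝ) := this
        _ ≤ t ^ (3 / 4 : ℝ) * M := by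
          gcongr
          calc t ^ (1 / 4 : ℝ) ≤ t ^ (1:ℝ) :=
                Real.rpow_le_rpow_of_exponent_le h3.le (by norm_num)
            _ = t := Real.rpow_one t
            _ ≤ M := htM
    have e0 : 0 ≤ Real.log t := Real.log_nonneg h3.le
    have e5 : 0 ≤ t ^ h := Real.rpow_nonneg ht _
    calc t * (h * Real.log t * t ^ h) ≤ (t ^ (3 / 4 : ℝ) * M) * (h * M * M) := by gcongr
      _ = M ^ 3 * h * t ^ (3 / 4 : ℝ) := by ring
      _ ≤ (4 + M ^ 3) * h * t ^ (3 / 4 : ℝ) := by gcongr; linarith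

theorem b06b_big {h t : ℝ} (h0 : 0 < h) (h1 : h ≤ 1 / 6) (ht : 0 ≤ t) :
    t * |t ^ h - 1| ≤ 6 * h * (1 + t ^ (4 / 3 : ℝ)) := by
  have e43 : 0 ≤ t ^ (4 / 3 : ℝ) := Real.rpow_nonneg ht _
  rcases ht.eq_or_lt with h2 | h2
  · rw [← h2, Real.zero_rpow (by norm_num : (4 / 3 : ℝ) ≠ 0)]; simp; linarith
  rcases le_or_gt t 1 with h3 | h3
  · refine (b06b_low h0 h2 h3).trans ?_
    have e1 : Real.log (1 / t) ≤ 1 / t - 1 := Real.log_le_sub_one_of_pos (by positivity)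
    have e2 : t * Real.log (1 / t) ≤ 1 := by
      calc t * Real.log (1 / t) ≤ t * (1 / t - 1) := by gcongr
        _ = 1 - t := by field_simp
        _ ≤ 1 := by linarith
    calc t * (h * Real.log (1 / t)) = h * (t * Real.log (1 / t)) := by ring
      _ ≤ h * 1 := by gcongr
      _ ≤ 6 * h * (1 + t ^ (4 / 3 : ℝ)) := by nlinarith
  · refine (b06b_high h0 h3).trans ?_
    have e1 : Real.log t ≤ t ^ (1 / 6 : ℝ) / (1 / 6) := Real.log_le_rpow_div ht (by norm_num)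
    have e0 : 0 ≤ Real.log t := Real.log_nonneg h3.le
    have e2 : t * (t ^ (1 / 6 : ℝ) * t ^ h) ≤ t ^ (4 / 3 : ℝ) := by
      have : t * (t ^ (1 / 6 : ℝ) * t ^ h) = t ^ (1 + (1 / 6 + h) : ℝ) := by
        rw [Real.rpow_add h2, Real.rpow_add h2, Real.rpow_one]
      rw [this]
      exact Real.rpow_le_rpow_of_exponent_le h3.le (by linarith)
    have e5 : 0 ≤ t ^ h := Real.rpow_nonneg ht _
    calc t * (h * Real.log t * t ^ h) ≤ t * (h * (t ^ (1 / 6 : ℝ) / (1 / 6)) * t ^ h) := by gcongr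
      _ = 6 * h * (t * (t ^ (1 / 6 : ℝ) * t ^ h)) := by ring
      _ ≤ 6 * h * t ^ (4 / 3 : ℝ) := by gcongr
      _ ≤ 6 * h * (1 + t ^ (4 / 3 : ℝ)) := by gcongr; linarith

theorem b06b_pow1 {h t : ℝ} (h0 : 0 < h) (h1 : h ≤ 1 / 3) (ht : 0 ≤ t) :
    t ^ h * t ≤ 1 + t ^ (4 / 3 : ℝ) := by
  have e43 : 0 ≤ t ^ (4 / 3 : ℝ) := Real.rpow_nonneg ht _
  rcases le_or_gt t 1 with h3 | h3
  · have : t ^ h ≤ 1 := Real.rpow_le_one ht h3 h0.le
    have : t ^ h * t ≤ 1 * 1 := mul_le_mul this h3 ht (by norm_num)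
    linarith
  · have h2 : 0 < t := by linarith
    have : t ^ h * t = t ^ (h + 1) := by rw [Real.rpow_add h2, Real.rpow_one]
    rw [this]
    have : t ^ (h + 1) ≤ t ^ (4 / 3 : ℝ) :=
      Real.rpow_le_rpow_of_exponent_le h3.le (by linarith)
    linarith

theorem b06b_pow2 {M h t : ℝ} (hM : 1 ≤ M) (h0 : 0 < h) (h1 : h ≤ 1) (ht : 0 ≤ t) (htM : t ≤ M) :
    t ^ h * t ≤ M ^ 2 * t ^ (3 / 4 : ℝ) := by
  rcases ht.eq_or_lt with h2 | h2
  · rw [← h2, Real.zero_rpow (by norm_num : (3 / 4 : ℝ) ≠ 0)]; simp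
  have e1 : t ^ h ≤ M := by
    calc t ^ h ≤ M ^ h := Real.rpow_le_rpow ht htM h0.le
      _ ≤ M ^ (1:ℝ) := Real.rpow_le_rpow_of_exponent_le hM h1
      _ = M := Real.rpow_one M
  have e2 : t ^ (1 / 4 : ℝ) ≤ M := by
    calc t ^ (1 / 4 : ℝ) ≤ M ^ (1 / 4 : ℝ) := Real.rpow_le_rpow ht htM (by norm_num)
      _ ≤ M ^ (1:ℝ) := Real.rpow_le_rpow_of_exponent_le hM (by norm_num)
      _ = M := Real.rpow_one M
  have e3 : t = t ^ (3 / 4 : ℝ) * t ^ (1 / 4 : ℝ) := by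
    rw [← Real.rpow_add h2]; norm_num
  have e34 : 0 ≤ t ^ (3 / 4 : ℝ) := Real.rpow_nonneg ht _
  calc t ^ h * t ≤ M * t := by gcongr
    _ = M * (t ^ (3 / 4 : ℝ) * t ^ (1 / 4 : ℝ)) := by rw [← e3]
    _ ≤ M * (t ^ (3 / 4 : ℝ) * M) := by gcongr
    _ = M ^ 2 * t ^ (3 / 4 : ℝ) := by ring

/-- the right hand side, first form -/
theorem b06b_rhs1 {h lam x w δ : ℝ} (h0 : 0 < h) (hd : h ≤ δ) (h1 : δ ≤ 1 / 6)
    (hl : |lam - 5 * Real.pi ^ 2| ≤ δ) :
    |lam * |x| ^ h * x - 5 * Real.pi ^ 2 * w| ≤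
      (301 * δ) * (1 + |x| ^ (4 / 3 : ℝ)) + 50 * |x - w| := by
  have hpi : Real.pi ^ 2 ≤ 10 := by nlinarith [Real.pi_lt_d2, Real.pi_pos]
  have hpi0 : 0 < Real.pi ^ 2 := by positivity
  have key : lam * |x| ^ h * x - 5 * Real.pi ^ 2 * w =
      (lam - 5 * Real.pi ^ 2) * (|x| ^ h * x) + 5 * Real.pi ^ 2 * (x * (|x| ^ h - 1)) +
        5 * Real.pi ^ 2 * (x - w) := by ring
  have hx0 := abs_nonneg x
  have e1 := b06b_big h0 (hd.trans h1) hx0
  have e2 := b06b_pow1 h0 (by linarith) hx0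
  have e3 : 0 ≤ |x| ^ h := Real.rpow_nonneg hx0 _
  have e43 : 0 ≤ |x| ^ (4 / 3 : ℝ) := Real.rpow_nonneg hx0 _
  have hδ : 0 < δ := by linarith
  rw [key]
  calc _ ≤ |(lam - 5 * Real.pi ^ 2) * (|x| ^ h * x)| + |5 * Real.pi ^ 2 * (x * (|x| ^ h - 1))| +
        |5 * Real.pi ^ 2 * (x - w)| := (abs_add_le _ _).trans (add_le_add_left (abs_add_le _ _) _)
    _ = |lam - 5 * Real.pi ^ 2| * (|x| ^ h * |x|) + 5 * Real.pi ^ 2 * (|x| * |(|x| ^ h - 1)|) +
        5 * Real.pi ^ 2 * |x - w| := by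
      rw [abs_mul (lam - 5 * Real.pi ^ 2) (|x| ^ h * x), abs_mul (|x| ^ h) x,
        abs_mul (5 * Real.pi ^ 2) (x * (|x| ^ h - 1)), abs_mul x (|x| ^ h - 1),
        abs_mul (5 * Real.pi ^ 2) (x - w),
        abs_of_nonneg e3, abs_of_pos (by positivity : 0 < 5 * Real.pi ^ 2)]
    _ ≤ δ * (1 + |x| ^ (4 / 3 : ℝ)) + 50 * (6 * h * (1 + |x| ^ (4 / 3 : ℝ))) + 50 * |x - w| := by
      have : 5 * Real.pi ^ 2 ≤ 50 := by linarith
      gcongr
    _ ≤ δ * (1 + |x| ^ (4 / 3 : ℝ)) + 50 * (6 * δ * (1 + |x| ^ (4 / 3 : ℝ))) + 50 * |x - w| := by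
      gcongr
    _ = _ := by ring

/-- the right hand side, second form -/
theorem b06b_rhs2 {h lam x w δ : ℝ} (h0 : 0 < h) (hd : h ≤ δ) (h1 : δ ≤ 1 / 6)
    (hl : |lam - 5 * Real.pi ^ 2| ≤ δ) (hx : |x| ≤ 6) :
    |lam * |x| ^ h * x - 5 * Real.pi ^ 2 * w| ≤
      (12000 * δ) * |x| ^ (3 / 4 : ℝ) + 50 * |x - w| := by
  have hpi : Real.pi ^ 2 ≤ 10 := by nlinarith [Real.pi_lt_d2, Real.pi_pos]
  have hpi0 : 0 < Real.pi ^ 2 := by positivity
  have key : lam * |x| ^ h * x - 5 * Real.pi ^ 2 * w =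
      (lam - 5 * Real.pi ^ 2) * (|x| ^ h * x) + 5 * Real.pi ^ 2 * (x * (|x| ^ h - 1)) +
        5 * Real.pi ^ 2 * (x - w) := by ring
  have hx0 := abs_nonneg x
  have e1 := b06b_small (M := 6) (by norm_num) h0 (by linarith) hx0 hx
  have e2 := b06b_pow2 (M := 6) (by norm_num) h0 (by linarith) hx0 hx
  have e3 : 0 ≤ |x| ^ h := Real.rpow_nonneg hx0 _
  have e43 : 0 ≤ |x| ^ (3 / 4 : ℝ) := Real.rpow_nonneg hx0 _
  have hδ : 0 < δ := by linarith
  rw [key]
  calc _ ≤ |(lam - 5 * Real.pi ^ 2) * (|x| ^ h * x)| + |5 * Real.pi ^ 2 * (x * (|x| ^ h - 1))| +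
        |5 * Real.pi ^ 2 * (x - w)| := (abs_add_le _ _).trans (add_le_add_left (abs_add_le _ _) _)
    _ = |lam - 5 * Real.pi ^ 2| * (|x| ^ h * |x|) + 5 * Real.pi ^ 2 * (|x| * |(|x| ^ h - 1)|) +
        5 * Real.pi ^ 2 * |x - w| := by
      rw [abs_mul (lam - 5 * Real.pi ^ 2) (|x| ^ h * x), abs_mul (|x| ^ h) x,
        abs_mul (5 * Real.pi ^ 2) (x * (|x| ^ h - 1)), abs_mul x (|x| ^ h - 1),
        abs_mul (5 * Real.pi ^ 2) (x - w),
        abs_of_nonneg e3, abs_of_pos (by positivity : 0 < 5 * Real.pi ^ 2)]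
    _ ≤ δ * (6 ^ 2 * |x| ^ (3 / 4 : ℝ)) + 50 * ((4 + 6 ^ 3) * h * |x| ^ (3 / 4 : ℝ)) +
        50 * |x - w| := by
      have : 5 * Real.pi ^ 2 ≤ 50 := by linarith
      gcongr
    _ ≤ δ * (6 ^ 2 * |x| ^ (3 / 4 : ℝ)) + 50 * ((4 + 6 ^ 3) * δ * |x| ^ (3 / 4 : ℝ)) +
        50 * |x - w| := by
      gcongr
    _ = (11036 * δ) * |x| ^ (3 / 4 : ℝ) + 50 * |x - w| := by ring
    _ ≤ _ := by gcongr; norm_num

/-- one improvement step, pointwise -/
theorem b06b_step {h lam x w δ a b c : ℝ} (h0 : 0 < h) (hd : h ≤ δ) (h1 : δ ≤ 1 / 6)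
    (hl : |lam - 5 * Real.pi ^ 2| ≤ δ) (hw : |w| ≤ 2) (hc0 : 0 ≤ c) (hc : c ≤ 1) (ha : 0 ≤ a)
    (ha1 : a ≤ 1) (hb : 0 ≤ b) (hba : b ≤ 3 / 4 * a) (hv : |x - w| ≤ c * |w| ^ a) :
    |lam * |x| ^ h * x - 5 * Real.pi ^ 2 * w| ≤ (72000 * δ + 100 * c) * |w| ^ b := by
  have hW0 := abs_nonneg w
  have hδ : 0 < δ := by linarith
  have hab : ∀ s r : ℝ, 0 ≤ r → r ≤ s → s ≤ r + 1 → |w| ^ s ≤ 2 * |w| ^ r := by
    intro s r hr hrs hsr
    have hr0 : 0 ≤ |w| ^ r := Real.rpow_nonneg hW0 _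
    rcases le_or_gt |w| 1 with h3 | h3
    · have := Real.rpow_le_rpow_of_exponent_ge' hW0 h3 hr hrs
      linarith
    · have hW : 0 < |w| := by linarith
      have : |w| ^ s = |w| ^ r * |w| ^ (s - r) := by rw [← Real.rpow_add hW]; ring_nf
      rw [this]
      have : |w| ^ (s - r) ≤ 2 := by
        calc |w| ^ (s - r) ≤ |w| ^ (1:ℝ) :=
              Real.rpow_le_rpow_of_exponent_le h3.le (by linarith)
          _ = |w| := Real.rpow_one _
          _ ≤ 2 := hw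
      nlinarith
  have hWa0 : 0 ≤ |w| ^ a := Real.rpow_nonneg hW0 _
  have hWb0 : 0 ≤ |w| ^ b := Real.rpow_nonneg hW0 _
  have e1 : |w| ≤ 2 * |w| ^ a := by
    have := hab 1 a ha ha1 (by linarith)
    rwa [Real.rpow_one] at this
  have e2 : |w| ^ a ≤ 2 := by
    calc |w| ^ a ≤ 2 ^ a := Real.rpow_le_rpow hW0 hw ha
      _ ≤ 2 ^ (1:ℝ) := Real.rpow_le_rpow_of_exponent_le (by norm_num) ha1
      _ = 2 := Real.rpow_one 2
  have e3 : |x| ≤ 3 * |w| ^ a := by
    have : |x| ≤ |x - w| + |w| := by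
      have := abs_add_le (x - w) w
      simpa using this
    have : c * |w| ^ a ≤ 1 * |w| ^ a := by gcongr
    linarith
  have e4 : |x| ≤ 6 := by linarith
  have e5 : |x| ^ (3 / 4 : ℝ) ≤ 3 * (2 * |w| ^ b) := by
    calc |x| ^ (3 / 4 : ℝ) ≤ (3 * |w| ^ a) ^ (3 / 4 : ℝ) :=
          Real.rpow_le_rpow (abs_nonneg x) e3 (by norm_num)
      _ = 3 ^ (3 / 4 : ℝ) * |w| ^ (a * (3 / 4)) := by
        rw [Real.mul_rpow (by norm_num) hWa0, ← Real.rpow_mul hW0]
      _ ≤ 3 * (2 * |w| ^ b) := by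
        have f1 : (3 : ℝ) ^ (3 / 4 : ℝ) ≤ 3 := by
          calc (3 : ℝ) ^ (3 / 4 : ℝ) ≤ 3 ^ (1:ℝ) :=
                Real.rpow_le_rpow_of_exponent_le (by norm_num) (by norm_num)
            _ = 3 := Real.rpow_one 3
        have f2 := hab (a * (3 / 4)) b hb (by linarith) (by linarith)
        have f3 : 0 ≤ |w| ^ (a * (3 / 4)) := Real.rpow_nonneg hW0 _
        gcongr
  have e6 : |w| ^ a ≤ 2 * |w| ^ b := hab a b hb (by linarith) (by linarith)
  calc _ ≤ (12000 * δ) * |x| ^ (3 / 4 : ℝ) + 50 * |x - w| := b06b_rhs2 h0 hd h1 hl e4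
    _ ≤ (12000 * δ) * (3 * (2 * |w| ^ b)) + 50 * (c * (2 * |w| ^ b)) := by
      have : |x - w| ≤ c * (2 * |w| ^ b) := hv.trans (by gcongr)
      gcongr
    _ = _ := by ring


/-! ### geometry -/

theorem b06b_open_DD : IsOpen DD := by
  have h1 : Continuous fun z : ℂ => |z.re| := continuous_abs.comp continuous_re
  have h2 : Continuous fun z : ℂ => |z.im| := continuous_abs.comp continuous_im
  exact (isOpen_lt h1 continuous_const).inter (isOpen_lt h2 continuous_const)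

theorem b06b_closed_Mir : IsClosed Mir := by
  have : Continuous fun z : ℂ => z.re * z.im * (z.re ^ 2 - z.im ^ 2) := by
    have h1 := continuous_re
    have h2 := continuous_im
    fun_prop
  exact isClosed_eq this continuous_const

theorem b06b_open : IsOpen (DD \ Mir) := b06b_open_DD.sdiff b06b_closed_Mir

theorem b06b_rot {z : ℂ} (hz : z ∈ DD \ Mir) : I * z ∈ DD \ Mir := by
  obtain ⟨⟨h1, h2⟩, h3⟩ := hz
  refine ⟨⟨by simpa using h2, by simpa using h1⟩, ?_⟩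
  intro h
  apply h3
  have h : (I * z).re * (I * z).im * ((I * z).re ^ 2 - (I * z).im ^ 2) = 0 := h
  show z.re * z.im * (z.re ^ 2 - z.im ^ 2) = 0
  simp at h ⊢
  rcases h with (h | h) | h
  · left; right; exact h
  · left; left; exact h
  · right; linarith

theorem b06b_rotD {z : ℂ} (hz : z ∈ DD) : I * z ∈ DD := by
  obtain ⟨h1, h2⟩ := hz
  exact ⟨by simpa using h2, by simpa using h1⟩

theorem b06b_vol : volume DD < ⊤ := by
  have h : DD ⊆ Metric.ball (0:ℂ) 2 := by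
    intro z hz
    rw [mem_ball_zero_iff]
    have := Complex.norm_le_abs_re_add_abs_im z
    linarith [hz.1, hz.2]
  exact (measure_mono h).trans_lt measure_ball_lt_top

theorem b06b_w0_rot (z : ℂ) : w0 (I * z) = w0 z := by
  unfold w0
  have h1 : (I * z).re = - z.im := by simp
  have h2 : (I * z).im = z.re := by simp
  rw [h1, h2]
  have e1 : Real.pi * -z.im = -(Real.pi * z.im) := by ring
  have e2 : 2 * Real.pi * -z.im = -(2 * Real.pi * z.im) := by ring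
  rw [e1, e2, Real.sin_neg, Real.sin_neg]
  ring

theorem b06b_w0_cont : Continuous w0 := by
  unfold w0
  have h1 := continuous_re
  have h2 := continuous_im
  fun_prop

theorem b06b_w0_le (z : ℂ) : |w0 z| ≤ 2 := by
  unfold w0
  have h1 : |Real.sin (Real.pi * z.re) * Real.sin (2 * Real.pi * z.im)| ≤ 1 := by
    rw [abs_mul]
    exact mul_le_one₀ (Real.abs_sin_le_one _) (abs_nonneg _) (Real.abs_sin_le_one _)
  have h2 : |Real.sin (2 * Real.pi * z.re) * Real.sin (Real.pi * z.im)| ≤ 1 := by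
    rw [abs_mul]
    exact mul_le_one₀ (Real.abs_sin_le_one _) (abs_nonneg _) (Real.abs_sin_le_one _)
  have := abs_sub (Real.sin (Real.pi * z.re) * Real.sin (2 * Real.pi * z.im))
    (Real.sin (2 * Real.pi * z.re) * Real.sin (Real.pi * z.im))
  linarith

/-! ### comparison -/

theorem b06b_int_eq (y : HH) (f : ℂ → ℝ) : ∫ z in DD, f z * fn y z = ∫ z, f z * fn y z := by
  apply setIntegral_eq_integral_of_ae_compl_eq_zero
  filter_upwards [fn_off y] with z hz h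
  rw [hz h, mul_zero]

theorem b06b_half {x : HH} (hodd : ev x = 0) {f ψ g : ℂ → ℝ}
    (hf : MemLp f 2 (volume.restrict DD))
    (heq : ∀ y : HH, inner ℝ x y = ∫ z in DD, f z * fn y z)
    (hψ : ContDiffOn ℝ ∞ ψ (DD \ Mir)) (hψ0 : ∀ z, 0 ≤ ψ z) (hψR : ∀ z, ψ (I * z) = ψ z)
    (hg : Continuous g) (hsup : WSup (DD \ Mir) ψ g)
    (hb : ∀ᵐ z, z ∈ DD → f z ≤ g z) : ∀ᵐ z, z ∈ DD → fn x z ≤ ψ z := by
  have hD : DD \ Mir ⊆ DD := sdiff_subset
  have hv : W1 (DD \ Mir) (fn x) (gr x) := V_approx hD (odd_mem hodd)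
  have hE : EqnS (DD \ Mir) (gr x) f := by
    rw [eqn_iff b06b_open hD x hf]
    intro y _
    rw [heq y, b06b_int_eq]
  have hf' : MemLp f 2 (volume.restrict (DD \ Mir)) :=
    hf.mono_measure (Measure.restrict_mono hD le_rfl)
  have h1 := comp_weak b06b_open hD (fun z hz => b06b_rot hz) hv hf'
    (fun ζ h1 h2 _ => (hE ζ h1 h2).le) hψ (fun z _ => hψ0 z) (fun z _ => hψR z)
    hg.continuousOn (fun ζ h1 _ h3 => hsup ζ h1 h3)
    (by filter_upwards [hb] with z hz h using hz (hD h))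
  have h2 := (W1_off b06b_open.measurableSet hv).2.2
  filter_upwards [h1, h2] with z a1 a2 hz
  by_cases hm : z ∈ DD \ Mir
  · exact a1 hm
  · rw [(a2 hm).1]; exact hψ0 z

theorem b06b_comp {x : HH} (hodd : ev x = 0) {f ψ g : ℂ → ℝ}
    (hf : MemLp f 2 (volume.restrict DD))
    (heq : ∀ y : HH, inner ℝ x y = ∫ z in DD, f z * fn y z)
    (hψ : ContDiffOn ℝ ∞ ψ (DD \ Mir)) (hψ0 : ∀ z, 0 ≤ ψ z) (hψR : ∀ z, ψ (I * z) = ψ z)
    (hg : Continuous g) (hsup : WSup (DD \ Mir) ψ g)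
    (hb : ∀ᵐ z, z ∈ DD → |f z| ≤ g z) : ∀ᵐ z, z ∈ DD → |fn x z| ≤ ψ z := by
  have h1 := b06b_half hodd hf heq hψ hψ0 hψR hg hsup
    (by filter_upwards [hb] with z hz h using (le_abs_self _).trans (hz h))
  have h2 := b06b_half (x := -x) (by rw [map_neg, hodd, neg_zero]) hf.neg
    (fun y => by
      rw [inner_neg_left, heq y, ← integral_neg]
      congr 1; ext z
      simp) hψ hψ0 hψR hg hsup
    (by filter_upwards [hb] with z hz h using (neg_le_abs _).trans (hz h))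
  have h3 : fn (-x) =ᵐ[volume] -(fn x) := by
    rw [map_neg]; exact Lp.coeFn_neg _
  filter_upwards [h1, h2, h3] with z a1 a2 a3 hz
  have b2 := a2 hz
  rw [a3] at b2
  exact abs_le.2 ⟨by simp at b2; linarith, a1 hz⟩

theorem b06b_comp_c {x : HH} (hodd : ev x = 0) {f ψ g : ℂ → ℝ} {c : ℝ} (hc : 0 < c)
    (hf : MemLp f 2 (volume.restrict DD))
    (heq : ∀ y : HH, inner ℝ x y = ∫ z in DD, f z * fn y z)
    (hψ : ContDiffOn ℝ ∞ ψ (DD \ Mir)) (hψ0 : ∀ z, 0 ≤ ψ z) (hψR : ∀ z, ψ (I * z) = ψ z)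
    (hg : Continuous g) (hsup : WSup (DD \ Mir) ψ g)
    (hb : ∀ᵐ z, z ∈ DD → |f z| ≤ c * g z) : ∀ᵐ z, z ∈ DD → |fn x z| ≤ c * ψ z := by
  have h2 := b06b_comp (x := c⁻¹ • x) (f := fun z => c⁻¹ * f z)
    (by rw [map_smul, hodd, smul_zero]) (hf.const_mul c⁻¹)
    (fun y => by
      have e0 : inner ℝ (c⁻¹ • x) y = c⁻¹ * inner ℝ x y := real_inner_smul_left x y c⁻¹
      rw [e0, heq y, ← integral_const_mul]
      congr 1; ext z
      ring) hψ hψ0 hψR hg hsup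
    (by
      filter_upwards [hb] with z hz h
      rw [abs_mul, abs_of_pos (inv_pos.2 hc)]
      calc c⁻¹ * |f z| ≤ c⁻¹ * (c * g z) := by
            have := inv_pos.2 hc
            gcongr
            exact hz h
        _ = g z := by field_simp)
  have h3 : fn (c⁻¹ • x) =ᵐ[volume] c⁻¹ • (fn x) := by
    rw [map_smul]; exact Lp.coeFn_smul _ _
  filter_upwards [h2, h3] with z a2 a3 hz
  have b2 := a2 hz
  rw [a3, Pi.smul_apply, smul_eq_mul, abs_mul, abs_of_pos (inv_pos.2 hc)] at b2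
  calc |fn x z| = c * (c⁻¹ * |fn x z|) := by field_simp
    _ ≤ c * ψ z := by gcongr

/-! ### norms -/

theorem b06b_l4 : ∃ C : ℝ, 0 < C ∧ ∀ x : HH,
    eLpNorm (fn x) 4 (volume.restrict DD) ≤ ENNReal.ofReal (C * ‖x‖) := by
  obtain ⟨C, hC, h⟩ := fn_l4
  refine ⟨C ^ (1 / 4 : ℝ), by positivity, fun x => ?_⟩
  obtain ⟨h1, h2⟩ := h x
  refine (eLpNorm_mono_measure _ Measure.restrict_le_self).trans ?_
  rw [h1.eLpNorm_eq_integral_rpow_norm (by norm_num) (by norm_num)]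
  apply ENNReal.ofReal_le_ofReal
  have e1 : ∫ z, ‖fn x z‖ ^ (4 : ℝ≥0∞).toReal = ∫ z, (fn x z) ^ 4 := by
    congr 1; ext z
    have : (4 : ℝ≥0∞).toReal = (4 : ℕ) := by norm_num
    rw [this, Real.rpow_natCast, Real.norm_eq_abs]
    exact (by decide : Even 4).pow_abs _
  rw [e1]
  have e2 : ((4 : ℝ≥0∞).toReal)⁻¹ = (1 / 4 : ℝ) := by norm_num
  rw [e2]
  calc (∫ z, (fn x z) ^ 4) ^ (1 / 4 : ℝ) ≤ (C * ‖x‖ ^ 4) ^ (1 / 4 : ℝ) := by
        apply Real.rpow_le_rpow (integral_nonneg fun z => by positivity) h2 (by norm_num)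
    _ = C ^ (1 / 4 : ℝ) * ‖x‖ := by
      rw [Real.mul_rpow hC.le (by positivity), ← Real.rpow_natCast, ← Real.rpow_mul (norm_nonneg x)]
      norm_num

theorem b06b_l3 : ∃ C : ℝ, 0 < C ∧ ∀ x : HH,
    eLpNorm (fn x) 3 (volume.restrict DD) ≤ ENNReal.ofReal (C * ‖x‖) := by
  obtain ⟨C, hC, h⟩ := b06b_l4
  have hv : (volume.restrict DD) Set.univ < ⊤ := by
    rw [Measure.restrict_apply_univ]; exact b06b_vol
  have : IsFiniteMeasure (volume.restrict DD) := ⟨hv⟩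
  set m : ℝ≥0∞ := (volume.restrict DD) Set.univ ^ (1 / (3 : ℝ≥0∞).toReal - 1 / (4 : ℝ≥0∞).toReal)
    with hm
  have hm' : m ≠ ⊤ := by
    rw [hm]
    apply ENNReal.rpow_ne_top_of_nonneg (by norm_num) hv.ne
  refine ⟨C * (m.toReal + 1), by positivity, fun x => ?_⟩
  have h1 := eLpNorm_le_eLpNorm_mul_rpow_measure_univ (μ := volume.restrict DD) (p := 3) (q := 4)
    (by norm_num) ((Lp.aestronglyMeasurable (fn x)).mono_measure Measure.restrict_le_self)
  refine h1.trans ?_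
  rw [← hm]
  calc eLpNorm (fn x) 4 (volume.restrict DD) * m
      ≤ ENNReal.ofReal (C * ‖x‖) * ENNReal.ofReal (m.toReal + 1) := by
        gcongr
        · exact h x
        · rw [← ENNReal.ofReal_toReal hm']
          apply ENNReal.ofReal_le_ofReal
          rw [ENNReal.ofReal_toReal hm']
          linarith
    _ = ENNReal.ofReal (C * (m.toReal + 1) * ‖x‖) := by
      rw [← ENNReal.ofReal_mul (by positivity)]
      ring_nf

theorem b06b_l43 (R : ℝ) (hR : 0 ≤ R) : ∃ C : ℝ, 0 < C ∧ ∀ x : HH, ‖x‖ ≤ R →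
    MemLp (fun z => 1 + |fn x z| ^ (4 / 3 : ℝ)) 3 (volume.restrict DD) ∧
    eLpNorm (fun z => 1 + |fn x z| ^ (4 / 3 : ℝ)) 3 (volume.restrict DD) ≤
      ENNReal.ofReal C := by
  obtain ⟨C, hC, h⟩ := b06b_l4
  have hv : (volume.restrict DD) Set.univ < ⊤ := by
    rw [Measure.restrict_apply_univ]; exact b06b_vol
  have : IsFiniteMeasure (volume.restrict DD) := ⟨hv⟩
  have hone : MemLp (fun _ : ℂ => (1:ℝ)) 3 (volume.restrict DD) := memLp_const 1
  set m : ℝ≥0∞ := eLpNorm (fun _ : ℂ => (1:ℝ)) 3 (volume.restrict DD) with hm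
  have hm' : m ≠ ⊤ := hone.2.ne
  refine ⟨m.toReal + 1 + (C * R) ^ (4 / 3 : ℝ), by positivity, fun x hx => ?_⟩
  have hmeas : AEStronglyMeasurable (fn x) (volume.restrict DD) :=
    (Lp.aestronglyMeasurable (fn x)).mono_measure Measure.restrict_le_self
  have hmeas2 : AEStronglyMeasurable (fun z => |fn x z| ^ (4 / 3 : ℝ)) (volume.restrict DD) :=
    (hmeas.norm.aemeasurable.pow_const (4 / 3 : ℝ)).aestronglyMeasurable
  have e1 : eLpNorm (fun z => |fn x z| ^ (4 / 3 : ℝ)) 3 (volume.restrict DD) ≤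
      ENNReal.ofReal ((C * R) ^ (4 / 3 : ℝ)) := by
    have := eLpNorm_norm_rpow (μ := volume.restrict DD) (p := 3) (fn x)
      (by norm_num : (0:ℝ) < 4 / 3)
    simp only [Real.norm_eq_abs] at this
    rw [this]
    have e34 : (3 : ℝ≥0∞) * ENNReal.ofReal (4 / 3) = 4 := by
      rw [show (3 : ℝ≥0∞) = ENNReal.ofReal 3 by norm_num, ← ENNReal.ofReal_mul (by norm_num)]
      norm_num
    rw [e34, ← ENNReal.ofReal_rpow_of_nonneg (by positivity) (by norm_num)]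
    gcongr
    refine (h x).trans (ENNReal.ofReal_le_ofReal ?_)
    gcongr
  have e2 : eLpNorm (fun z => 1 + |fn x z| ^ (4 / 3 : ℝ)) 3 (volume.restrict DD) ≤
      ENNReal.ofReal (m.toReal + 1 + (C * R) ^ (4 / 3 : ℝ)) := by
    calc eLpNorm (fun z => 1 + |fn x z| ^ (4 / 3 : ℝ)) 3 (volume.restrict DD)
        ≤ m + eLpNorm (fun z => |fn x z| ^ (4 / 3 : ℝ)) 3 (volume.restrict DD) :=
          eLpNorm_add_le hone.1 hmeas2 (by norm_num)
      _ ≤ ENNReal.ofReal (m.toReal + 1) + ENNReal.ofReal ((C * R) ^ (4 / 3 : ℝ)) := by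
        gcongr
        calc m = ENNReal.ofReal m.toReal := (ENNReal.ofReal_toReal hm').symm
          _ ≤ _ := ENNReal.ofReal_le_ofReal (by linarith)
      _ = _ := by rw [← ENNReal.ofReal_add (by positivity) (by positivity)]
  exact ⟨⟨hone.1.add hmeas2, e2.trans_lt ENNReal.ofReal_lt_top⟩, e2⟩

theorem b06b_sup : ∃ C : ℝ, 0 < C ∧ ∀ (x : HH) (f : ℂ → ℝ), MemLp f 3 (volume.restrict DD) →
    (∀ y : HH, inner ℝ x y = ∫ z in DD, f z * fn y z) →
    ∀ᵐ z, |fn x z| ≤ C * (eLpNorm f 3 (volume.restrict DD)).toReal := by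
  obtain ⟨C, hC, h⟩ := sup_bound
  have hv : (volume.restrict DD) Set.univ < ⊤ := by
    rw [Measure.restrict_apply_univ]; exact b06b_vol
  have : IsFiniteMeasure (volume.restrict DD) := ⟨hv⟩
  have half : ∀ (x : HH) (f : ℂ → ℝ), MemLp f 3 (volume.restrict DD) →
      (∀ y : HH, inner ℝ x y = ∫ z in DD, f z * fn y z) →
      ∀ᵐ z, fn x z ≤ C * (eLpNorm f 3 (volume.restrict DD)).toReal := by
    intro x f hf heq
    have hf2 : MemLp f 2 (volume.restrict DD) := hf.mono_exponent (by norm_num)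
    have hE : EqnS DD (gr x) f := by
      rw [eqn_iff b06b_open_DD le_rfl x hf2]
      intro y _
      rw [heq y, b06b_int_eq]
    have hx : x ∈ V DD := by rw [V_top]; trivial
    exact h DD b06b_open_DD le_rfl (fun z hz => b06b_rotD hz) (fn x) f (gr x)
      (V_approx le_rfl hx) hf (fun ζ h1 h2 _ => (hE ζ h1 h2).le)
  refine ⟨C, hC, fun x f hf heq => ?_⟩
  have h1 := half x f hf heq
  have h2 := half (-x) (-f) hf.neg (fun y => by
      rw [inner_neg_left, heq y, ← integral_neg]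
      congr 1; ext z
      simp)
  have h3 : fn (-x) =ᵐ[volume] -(fn x) := by
    rw [map_neg]; exact Lp.coeFn_neg _
  rw [eLpNorm_neg] at h2
  filter_upwards [h1, h2, h3] with z a1 a2 a3
  rw [a3] at a2
  simp only [Pi.neg_apply] at a2
  exact abs_le.2 ⟨by linarith, a1⟩

/-- pointwise closeness -/
theorem ground_pt {δ : ℝ} (hδ : 0 < δ) : ∃ δ' > 0, ∀ (q lam : ℝ) (u : HH), 2 < q → q < 2 + δ' →
    ev u = 0 → |lam - 5 * Real.pi ^ 2| ≤ δ' → ‖u - w0H‖ ≤ δ' →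
    (∀ y : HH, inner ℝ u y = lam * ∫ z in DD, |fn u z| ^ (q - 2) * fn u z * fn y z) →
    ∀ᵐ z, z ∈ DD → |fn u z - w0 z| ≤ δ * |w0 z| := by
  obtain ⟨C3, hC3, h3⟩ := b06b_l3
  obtain ⟨C5, hC5, h5⟩ := b06b_l43 (‖w0H‖ + 1) (by positivity)
  obtain ⟨Cs, hCs, hs⟩ := b06b_sup
  obtain ⟨hw1, -, hw3, hw4⟩ := w0H_spec
  have hv : (volume.restrict DD) Set.univ < ⊤ := by
    rw [Measure.restrict_apply_univ]; exact b06b_vol
  have hfin : IsFiniteMeasure (volume.restrict DD) := ⟨hv⟩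
  obtain ⟨C0, hC0⟩ : ∃ C0 : ℝ, C0 = Cs * (301 * C5 + 50 * C3) := ⟨_, rfl⟩
  obtain ⟨D1, hD1⟩ : ∃ D1 : ℝ, D1 = 72000 + 100 * C0 := ⟨_, rfl⟩
  obtain ⟨D2, hD2⟩ : ∃ D2 : ℝ, D2 = 72000 + 100 * D1 := ⟨_, rfl⟩
  obtain ⟨D3, hD3⟩ : ∃ D3 : ℝ, D3 = 72000 + 100 * D2 := ⟨_, rfl⟩
  have hC0p : 0 < C0 := by rw [hC0]; positivity
  have hD1p : 0 < D1 := by rw [hD1]; positivity
  have hD2p : 0 < D2 := by rw [hD2]; positivity
  have hD3p : 0 < D3 := by rw [hD3]; positivity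
  obtain ⟨e, he⟩ : ∃ e : ℝ, e = min (1 / 6) (min (1 / D2) (δ / (2 * D3))) := ⟨_, rfl⟩
  have he0 : 0 < e := by rw [he]; positivity
  have he6 : e ≤ 1 / 6 := by rw [he]; exact min_le_left _ _
  have heD2 : D2 * e ≤ 1 := by
    have : e ≤ 1 / D2 := by rw [he]; exact (min_le_right _ _).trans (min_le_left _ _)
    calc D2 * e ≤ D2 * (1 / D2) := by gcongr
      _ = 1 := by field_simp
  have heD3 : D3 * e * 2 ≤ δ := by
    have : e ≤ δ / (2 * D3) := by rw [he]; exact (min_le_right _ _).trans (min_le_right _ _)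
    calc D3 * e * 2 ≤ D3 * (δ / (2 * D3)) * 2 := by gcongr
      _ = δ := by field_simp
  have heD1 : D1 * e ≤ 1 := by nlinarith
  have heC0 : C0 * e ≤ 1 := by nlinarith
  refine ⟨e, he0, ?_⟩
  intro q lam u hq1 hq2 hu hl hc heq
  have hh0 : 0 < q - 2 := by linarith
  have hhe : q - 2 ≤ e := by linarith
  have hv0 : ev (u - w0H) = 0 := by rw [map_sub, hu, hw3, sub_zero]
  have huR : ‖u‖ ≤ ‖w0H‖ + 1 := by
    have : ‖u‖ ≤ ‖u - w0H‖ + ‖w0H‖ := by
      have := norm_add_le (u - w0H) w0H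
      simpa using this
    linarith
  have hfv : ∀ᵐ z, z ∈ DD → fn (u - w0H) z = fn u z - w0 z := by
    have e1 : fn (u - w0H) =ᵐ[volume] fn u - fn w0H := by
      rw [map_sub]; exact Lp.coeFn_sub _ _
    filter_upwards [e1, hw1] with z a1 a2 hz
    rw [a1, Pi.sub_apply, a2, indicator_of_mem hz]
  obtain ⟨hg1, hg2⟩ := h5 u huR
  have hm : AEStronglyMeasurable (fn u) (volume.restrict DD) :=
    (Lp.aestronglyMeasurable (fn u)).mono_measure Measure.restrict_le_self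
  have hmv : AEStronglyMeasurable (fn (u - w0H)) (volume.restrict DD) :=
    (Lp.aestronglyMeasurable (fn (u - w0H))).mono_measure Measure.restrict_le_self
  have hmN : AEStronglyMeasurable (fun z => |fn u z| ^ (q - 2) * fn u z) (volume.restrict DD) :=
    ((hm.norm.aemeasurable.pow_const (q - 2)).aestronglyMeasurable).mul hm
  have hN3 : MemLp (fun z => |fn u z| ^ (q - 2) * fn u z) 3 (volume.restrict DD) := by
    refine hg1.mono hmN (Eventually.of_forall fun z => ?_)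
    rw [Real.norm_eq_abs, Real.norm_eq_abs, abs_mul, abs_of_nonneg (Real.rpow_nonneg (abs_nonneg _) _)]
    exact (b06b_pow1 hh0 (by linarith) (abs_nonneg _)).trans (le_abs_self _)
  have hN2 := hN3.mono_exponent (p := 2) (by norm_num)
  have hw2 : MemLp w0 2 (volume.restrict DD) :=
    MemLp.of_bound b06b_w0_cont.aestronglyMeasurable 2
      (Eventually.of_forall fun z => b06b_w0_le z)
  obtain ⟨f, hf⟩ : ∃ f : ℂ → ℝ, f = fun z => lam * |fn u z| ^ (q - 2) * fn u z -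
    5 * Real.pi ^ 2 * w0 z := ⟨_, rfl⟩
  have hfm : AEStronglyMeasurable f (volume.restrict DD) := by
    have : f = fun z => lam * (|fn u z| ^ (q - 2) * fn u z) - 5 * Real.pi ^ 2 * w0 z := by
      rw [hf]; ext z; ring
    rw [this]
    exact (hmN.const_mul lam).sub (b06b_w0_cont.aestronglyMeasurable.const_mul _)
  have hfb : ∀ᵐ z ∂(volume.restrict DD), ‖f z‖ ≤
      ‖((301 * e) • (fun z => 1 + |fn u z| ^ (4 / 3 : ℝ)) +
        (50:ℝ) • (fun z => |fn (u - w0H) z|)) z‖ := by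
    rw [ae_restrict_iff' b06b_open_DD.measurableSet]
    filter_upwards [hfv] with z a1 hz
    have e1 := b06b_rhs1 (x := fn u z) (w := w0 z) hh0 hhe he6 hl
    rw [hf]
    simp only [Pi.add_apply, Pi.smul_apply, smul_eq_mul, a1 hz, Real.norm_eq_abs]
    exact e1.trans (le_abs_self _)
  have hbig : MemLp ((301 * e) • (fun z => 1 + |fn u z| ^ (4 / 3 : ℝ)) +
        (50:ℝ) • (fun z => |fn (u - w0H) z|)) 3 (volume.restrict DD) ∧
      eLpNorm ((301 * e) • (fun z => 1 + |fn u z| ^ (4 / 3 : ℝ)) +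
        (50:ℝ) • (fun z => |fn (u - w0H) z|)) 3 (volume.restrict DD) ≤
        ENNReal.ofReal ((301 * C5 + 50 * C3) * e) := by
    have b1 : eLpNorm ((301 * e) • (fun z => 1 + |fn u z| ^ (4 / 3 : ℝ)) +
        (50:ℝ) • (fun z => |fn (u - w0H) z|)) 3 (volume.restrict DD) ≤
        ENNReal.ofReal ((301 * C5 + 50 * C3) * e) := by
      refine (eLpNorm_add_le (hg1.1.const_smul _) (hmv.norm.const_smul _) (by norm_num)).trans ?_
      rw [eLpNorm_const_smul, eLpNorm_const_smul]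
      have c1 : eLpNorm (fun z => |fn (u - w0H) z|) 3 (volume.restrict DD) ≤
          ENNReal.ofReal (C3 * e) := by
        have := eLpNorm_norm (μ := volume.restrict DD) (p := 3) (fn (u - w0H))
        simp only [Real.norm_eq_abs] at this
        rw [this]
        refine (h3 _).trans (ENNReal.ofReal_le_ofReal ?_)
        gcongr
      calc ‖301 * e‖ₑ * eLpNorm (fun z => 1 + |fn u z| ^ (4 / 3 : ℝ)) 3 (volume.restrict DD) +
            ‖(50:ℝ)‖ₑ * eLpNorm (fun z => |fn (u - w0H) z|) 3 (volume.restrict DD)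
          ≤ ENNReal.ofReal (301 * e) * ENNReal.ofReal C5 +
            ENNReal.ofReal 50 * ENNReal.ofReal (C3 * e) := by
            rw [Real.enorm_eq_ofReal (by positivity), Real.enorm_eq_ofReal (by norm_num)]
            gcongr
        _ = _ := by
          rw [← ENNReal.ofReal_mul (by positivity), ← ENNReal.ofReal_mul (by norm_num),
            ← ENNReal.ofReal_add (by positivity) (by positivity)]
          ring_nf
    exact ⟨⟨(hg1.1.const_smul _).add (hmv.norm.const_smul _),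
      b1.trans_lt ENNReal.ofReal_lt_top⟩, b1⟩
  have hf3 : MemLp f 3 (volume.restrict DD) := hbig.1.mono hfm hfb
  have hf2 : MemLp f 2 (volume.restrict DD) := hf3.mono_exponent (by norm_num)
  have hfn : (eLpNorm f 3 (volume.restrict DD)).toReal ≤ (301 * C5 + 50 * C3) * e :=
    ENNReal.toReal_le_of_le_ofReal (by positivity) ((eLpNorm_mono_ae hfb).trans hbig.2)
  have hveq : ∀ y : HH, inner ℝ (u - w0H) y = ∫ z in DD, f z * fn y z := by
    intro y
    have e0 : inner ℝ (u - w0H) y = inner ℝ u y - inner ℝ w0H y := inner_sub_left u w0H y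
    have hy : MemLp (fn y) 2 (volume.restrict DD) := (Lp.memLp (fn y)).restrict DD
    have i1 : Integrable (fun z => |fn u z| ^ (q - 2) * fn u z * fn y z) (volume.restrict DD) :=
      hN2.integrable_mul hy
    have i2 : Integrable (fun z => w0 z * fn y z) (volume.restrict DD) :=
      hw2.integrable_mul hy
    rw [e0, heq y, hw4 y, ← integral_const_mul, ← integral_const_mul,
      ← integral_sub (i1.const_mul lam) (i2.const_mul _)]
    congr 1; ext z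
    rw [hf]; ring
  -- the four steps
  have s0 : ∀ᵐ z, z ∈ DD → |fn u z - w0 z| ≤ (C0 * e) * |w0 z| ^ (0:ℝ) := by
    filter_upwards [hs _ f hf3 hveq, hfv] with z a1 a2 hz
    rw [← a2 hz, Real.rpow_zero, mul_one]
    calc |fn (u - w0H) z| ≤ Cs * (eLpNorm f 3 (volume.restrict DD)).toReal := a1
      _ ≤ Cs * ((301 * C5 + 50 * C3) * e) := by gcongr
      _ = C0 * e := by rw [hC0]; ring
  have step : ∀ {a b c c' : ℝ} {ψ : ℂ → ℝ}, 0 ≤ c → c ≤ 1 → 0 ≤ a → a ≤ 1 → 0 ≤ b →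
      b ≤ 3 / 4 * a → 0 < c' → c' = 72000 * e + 100 * c → 
      ContDiffOn ℝ ∞ ψ (DD \ Mir) → (∀ z, 0 ≤ ψ z) → (∀ z, ψ (I * z) = ψ z) →
      WSup (DD \ Mir) ψ (fun z => |w0 z| ^ b) →
      (∀ᵐ z, z ∈ DD → |fn u z - w0 z| ≤ c * |w0 z| ^ a) →
      ∀ᵐ z, z ∈ DD → |fn u z - w0 z| ≤ c' * ψ z := by
    intro a b c c' ψ k1 k2 k3 k4 k5 k6 k7 k8 k9 k10 k11 k12 k13
    have := b06b_comp_c hv0 k7 hf2 hveq k9 k10 k11
      (g := fun z => |w0 z| ^ b)
      (b06b_w0_cont.abs.rpow_const fun z => Or.inr k5) k12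
      (by
        filter_upwards [k13] with z a1 hz
        rw [hf, k8]
        exact b06b_step hh0 hhe he6 hl (b06b_w0_le z) k1 k2 k3 k4 k5 k6 (a1 hz))
    filter_upwards [this, hfv] with z a1 a2 hz
    rw [← a2 hz]; exact a1 hz
  have hrotp : ∀ (θ : ℝ) (z : ℂ), |w0 (I * z)| ^ θ = |w0 z| ^ θ := fun θ z => by
    rw [b06b_w0_rot]
  have s1 := step (a := 0) (b := 0) (c := C0 * e) (c' := D1 * e)
    (ψ := fun z => |w0 z| ^ (1 / 2 : ℝ)) (by positivity) heC0 le_rfl (by norm_num) le_rfl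
    (by norm_num) (by positivity) (by rw [hD1]; ring) (w0_pow_smooth _)
    (fun z => Real.rpow_nonneg (abs_nonneg _) _) (hrotp _) (by simpa using bar1) s0
  have s2 := step (a := 1 / 2) (b := 3 / 8) (c := D1 * e) (c' := D2 * e)
    (ψ := fun z => |w0 z| ^ (7 / 8 : ℝ)) (by positivity) heD1 (by norm_num) (by norm_num)
    (by norm_num) (by norm_num) (by positivity) (by rw [hD2]; ring) (w0_pow_smooth _)
    (fun z => Real.rpow_nonneg (abs_nonneg _) _) (hrotp _) bar2 s1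
  have hsm : ContDiffOn ℝ ∞ (fun z => 2 * |w0 z| - |w0 z| ^ (23 / 20 : ℝ)) (DD \ Mir) := by
    have k1 := w0_pow_smooth 1
    simp only [Real.rpow_one] at k1
    exact (contDiffOn_const.mul k1).sub (w0_pow_smooth _)
  have s3 := step (a := 7 / 8) (b := 13 / 20) (c := D2 * e) (c' := D3 * e)
    (ψ := fun z => 2 * |w0 z| - |w0 z| ^ (23 / 20 : ℝ)) (by positivity) heD2 (by norm_num)
    (by norm_num) (by norm_num) (by norm_num) (by positivity) (by rw [hD3]; ring) hsm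
    (fun z => (bar3_bounds z).1) (fun z => by simp only [b06b_w0_rot]) bar3 s2
  filter_upwards [s3] with z a1 hz
  calc |fn u z - w0 z| ≤ D3 * e * (2 * |w0 z| - |w0 z| ^ (23 / 20 : ℝ)) := a1 hz
    _ ≤ D3 * e * (2 * |w0 z|) := by
      have := (bar3_bounds z).2
      gcongr
    _ = D3 * e * 2 * |w0 z| := by ring
    _ ≤ δ * |w0 z| := by gcongr

end Pool.Agent.H87.LE
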