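import Pool.Agent.H87.LE.B06a_Ground
import Pool.Agent.H87.LE.B06b_Pt

open MeasureTheory Complex Set Filter Topology
open scoped ContDiff Laplacian

namespace Pool.Agent.H87.LE

/-! # B06: the base solution `u = u_q` -/

/-- all the properties of the base solution -/
structure BaseD (q lam δ : ℝ) (u : HH) (T : HH →L[ℝ] HH) : Prop where
  hq : 2 < q
  hq' : q ≤ 21 / 10
  lam_close : |lam - 5 * Real.pi ^ 2| ≤ δ
  odd : ev u = 0
  close : ∀ᵐ z, z ∈ DD → |fn u z - w0 z| ≤ δ * |w0 z|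
  eqn : ∀ y : HH, inner ℝ u y = lam * ∫ z in DD, |fn u z| ^ (q - 2) * fn u z * fn y z
  hT : IsT (fun z => (q - 1) * lam * |fn u z| ^ (q - 2)) T
  hT0 : ‖T - T0‖ ≤ δ
  hW3 : ∫ z in DD, |(q - 1) * lam * |fn u z| ^ (q - 2) - 5 * Real.pi ^ 2| ^ 3 ≤ δ
  hW : ∀ᵐ z, z ∈ DD → 0 ≤ (q - 1) * lam * |fn u z| ^ (q - 2) ∧
    (q - 1) * lam * |fn u z| ^ (q - 2) ≤ 60
  nondeg : ∀ x : HH, ev x = 0 → (q - 2) / 2 * ‖x‖ ≤ ‖x - T x‖

/-- majorant of `| |u|^h - 1 |` -/
noncomputable def b06_g (h w : ℝ) : ℝ := (3 ^ h - 1) + (1 - (|w| / 4) ^ h)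

theorem b06_pow {h x w : ℝ} (h0 : 0 < h) (hw : |w| ≤ 2) (hx : |x - w| ≤ 1 / 10 * |w|) :
    abs (|x| ^ h - 1) ≤ b06_g h w := by
  have hw0 := abs_nonneg w
  have e1 : |x| ≤ 3 := by
    have : |x| ≤ |x - w| + |w| := by
      have := abs_add_le (x - w) w
      simpa using this
    linarith
  have e2 : |w| / 4 ≤ |x| := by
    have : |w| ≤ |x - w| + |x| := by
      have := abs_add_le (w - x) x
      rw [sub_add_cancel, abs_sub_comm w x] at this
      exact this
    linarith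
  have f1 : |x| ^ h ≤ 3 ^ h := Real.rpow_le_rpow (abs_nonneg _) e1 h0.le
  have f2 : (|w| / 4) ^ h ≤ |x| ^ h := Real.rpow_le_rpow (by positivity) e2 h0.le
  have f3 : (1 : ℝ) ≤ 3 ^ h := Real.one_le_rpow (by norm_num) h0.le
  have f4 : (|w| / 4) ^ h ≤ 1 := Real.rpow_le_one (by positivity) (by linarith) h0.le
  unfold b06_g
  rw [abs_le]
  constructor <;> linarith

theorem b06_g_bd {h w : ℝ} (h0 : 0 < h) (h1 : h < 1) (hw : |w| ≤ 2) :
    0 ≤ b06_g h w ∧ b06_g h w ≤ 3 := by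
  have f3 : (1 : ℝ) ≤ 3 ^ h := Real.one_le_rpow (by norm_num) h0.le
  have f4 : (|w| / 4) ^ h ≤ 1 := Real.rpow_le_one (by positivity) (by linarith) h0.le
  have f5 : (3 : ℝ) ^ h ≤ 3 := by
    have := Real.rpow_le_rpow_of_exponent_le (by norm_num : (1 : ℝ) ≤ 3) h1.le
    rwa [Real.rpow_one] at this
  have f6 : 0 ≤ (|w| / 4) ^ h := Real.rpow_nonneg (by positivity) _
  unfold b06_g
  constructor <;> linarith

theorem b06_g_meas (h : ℝ) : Measurable (fun z => b06_g h (w0 z)) := by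
  unfold b06_g
  have h1 : Measurable (fun z => |w0 z| / 4) := (g6_w0_cont.abs.measurable).div_const 4
  exact measurable_const.add (measurable_const.sub (h1.pow_const h))

theorem b06_g_int {h : ℝ} (h0 : 0 < h) (h1 : h < 1) :
    Integrable (fun z => b06_g h (w0 z)) b04b_mu := by
  refine Integrable.of_bound (C := 3) (b06_g_meas h).aestronglyMeasurable ?_
  refine Eventually.of_forall fun z => ?_
  have := b06_g_bd h0 h1 (g6_w0_le z)
  rw [Real.norm_eq_abs, abs_of_nonneg this.1]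
  exact this.2

theorem b06_g_lim : Tendsto (fun h : ℝ => ∫ z, b06_g h (w0 z) ∂b04b_mu) (𝓝[>] 0) (𝓝 0) := by
  have key : Tendsto (fun h : ℝ => ∫ z, b06_g h (w0 z) ∂b04b_mu) (𝓝[>] 0)
      (𝓝 (∫ _z, (0 : ℝ) ∂b04b_mu)) := by
    apply tendsto_integral_filter_of_dominated_convergence (fun _ => (3 : ℝ))
    · exact Eventually.of_forall fun h => (b06_g_meas h).aestronglyMeasurable
    · have h1 : Set.Ioo (0 : ℝ) 1 ∈ 𝓝[>] (0 : ℝ) := Ioo_mem_nhdsGT (by norm_num)
      filter_upwards [h1] with h hh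
      refine Eventually.of_forall fun z => ?_
      have := b06_g_bd hh.1 hh.2 (g6_w0_le z)
      rw [Real.norm_eq_abs, abs_of_nonneg this.1]
      exact this.2
    · exact integrable_const _
    · have hz : ∀ᵐ z ∂b04b_mu, w0 z ≠ 0 := by
        rw [ae_restrict_iff' b1_DD_open.measurableSet, ae_iff]
        have : {z : ℂ | ¬ (z ∈ DD → w0 z ≠ 0)} = {z ∈ DD | w0 z = 0} := by
          ext z; simp
        rw [this]
        exact b05_w0_zero
      filter_upwards [hz] with z hz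
      have hp : (0 : ℝ) < |w0 z| / 4 := by
        have := abs_pos.2 hz
        positivity
      have c1 : ContinuousAt (fun h : ℝ => (3 : ℝ) ^ h) 0 :=
        Real.continuousAt_const_rpow (by norm_num)
      have c2 : ContinuousAt (fun h : ℝ => (|w0 z| / 4) ^ h) 0 :=
        Real.continuousAt_const_rpow hp.ne'
      have c3 : ContinuousAt (fun h : ℝ => b06_g h (w0 z)) 0 := by
        unfold b06_g
        exact (c1.sub continuousAt_const).add (continuousAt_const.sub c2)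
      have c4 : b06_g 0 (w0 z) = 0 := by
        unfold b06_g
        rw [Real.rpow_zero, Real.rpow_zero]; ring
      have c5 := c3.tendsto.mono_left (nhdsWithin_le_nhds (s := Set.Ioi (0 : ℝ)))
      rwa [c4] at c5
  simpa using key

theorem b06_eLp {f : ℂ → ℝ} (hf : MemLp f 2 b04b_mu) :
    (eLpNorm f 2 b04b_mu).toReal = √(∫ z, f z ^ 2 ∂b04b_mu) := by
  have h0 : 0 ≤ (∫ z, ‖f z‖ ^ (2 : ENNReal).toReal ∂b04b_mu) ^ ((2 : ENNReal).toReal)⁻¹ :=
    Real.rpow_nonneg (integral_nonneg fun z => Real.rpow_nonneg (norm_nonneg _) _) _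
  rw [hf.eLpNorm_eq_integral_rpow_norm (by norm_num) (by norm_num), ENNReal.toReal_ofReal h0,
    Real.sqrt_eq_rpow]
  have h1 : (2 : ENNReal).toReal = 2 := by norm_num
  rw [h1]
  have h2 : ∀ z, ‖f z‖ ^ (2 : ℝ) = f z ^ 2 := fun z => by
    rw [Real.rpow_two, Real.norm_eq_abs, sq_abs]
  simp only [h2]
  norm_num

/-- nondegeneracy in the odd functions -/
theorem b06_nondeg {q lam : ℝ} {u : HH} {T : HH →L[ℝ] HH} (h2 : 2 < q) (h3 : q ≤ 21 / 10)
    (hodd : ev u = 0) (hc : ‖u - w0H‖ ≤ ‖w0H‖ / 4)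
    (heqn : ∀ y : HH, inner ℝ u y = lam * ∫ z in DD, |fn u z| ^ (q - 2) * fn u z * fn y z)
    (hT : IsT (fun z => (q - 1) * lam * |fn u z| ^ (q - 2)) T) (hT0 : ‖T - T0‖ ≤ 1 / 16)
    (x : HH) (hx : ev x = 0) : (q - 2) / 2 * ‖x‖ ≤ ‖x - T x‖ := by
  have hW := g6_w0H_pos
  have hsym := b04_symm hT
  have hTu : T u = (q - 1) • u := by
    apply ext_inner_right ℝ
    intro y
    rw [hT u y, real_inner_smul_left, heqn y, ← integral_const_mul, ← integral_const_mul]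
    congr 1
    ext z
    ring
  have hu : u ≠ 0 := by
    rintro rfl
    rw [zero_sub, norm_neg] at hc
    linarith
  have hun : 0 < ‖u‖ := norm_pos_iff.2 hu
  obtain ⟨c, hcdef⟩ : ∃ c : ℝ, c = inner ℝ x u / ‖u‖ ^ 2 := ⟨_, rfl⟩
  obtain ⟨x', hx'def⟩ : ∃ x' : HH, x' = x - c • u := ⟨_, rfl⟩
  have hx'u : inner ℝ x' u = 0 := by
    rw [hx'def, inner_sub_left, real_inner_smul_left, real_inner_self_eq_norm_sq, hcdef]
    field_simp
    ring
  have hxx : x = x' + c • u := by rw [hx'def, sub_add_cancel]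
  have hevx' : ev x' = 0 := by rw [hx'def, map_sub, map_smul, hx, hodd, smul_zero, sub_zero]
  have hTx'u : inner ℝ (T x') u = 0 := by
    rw [hsym, hTu, real_inner_smul_right, hx'u, mul_zero]
  -- the gap on `x'`
  have hgap : 1 / 8 * ‖x'‖ ≤ ‖x' - T x'‖ := by
    rcases eq_or_ne x' 0 with h0 | h0
    · rw [h0, norm_zero, mul_zero]; exact norm_nonneg _
    have hn : 0 < ‖x'‖ := norm_pos_iff.2 h0
    have hin : |inner ℝ x' w0H| ≤ ‖w0H‖ / 4 * ‖x'‖ := by
      have e1 : inner ℝ x' w0H = - inner ℝ x' (u - w0H) := by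
        rw [inner_sub_right, hx'u]; ring
      rw [e1, abs_neg]
      calc |inner ℝ x' (u - w0H)| ≤ ‖x'‖ * ‖u - w0H‖ := abs_real_inner_le_norm _ _
        _ ≤ ‖x'‖ * (‖w0H‖ / 4) := by gcongr
        _ = ‖w0H‖ / 4 * ‖x'‖ := by ring
    have hT0x : inner ℝ (T0 x') x' ≤ 13 / 16 * ‖x'‖ ^ 2 := by
      obtain ⟨y, hy⟩ : ∃ y : HH, y = ‖x'‖⁻¹ • x' := ⟨_, rfl⟩
      have hy1 : ‖y‖ = 1 := by
        rw [hy, norm_smul, norm_inv, norm_norm, inv_mul_cancel₀ hn.ne']
      have hy2 : ev y = 0 := by rw [hy, map_smul, hevx', smul_zero]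
      have hxy : x' = ‖x'‖ • y := by rw [hy, smul_smul, mul_inv_cancel₀ hn.ne', one_smul]
      have g1 := g6_gap hy2 hy1
      have g2 : (inner ℝ y w0H / ‖w0H‖) ^ 2 ≤ 1 / 16 := by
        have e1 : inner ℝ y w0H = ‖x'‖⁻¹ * inner ℝ x' w0H := by
          rw [hy, real_inner_smul_left]
        have e2 : |inner ℝ y w0H / ‖w0H‖| ≤ 1 / 4 := by
          rw [e1, abs_div, abs_mul, abs_of_pos hW, abs_of_pos (inv_pos.2 hn), div_le_iff₀ hW]
          calc ‖x'‖⁻¹ * |inner ℝ x' w0H| ≤ ‖x'‖⁻¹ * (‖w0H‖ / 4 * ‖x'‖) := by gcongr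
            _ = 1 / 4 * ‖w0H‖ := by field_simp
        have e3 := pow_le_pow_left₀ (abs_nonneg _) e2 2
        rw [sq_abs] at e3
        norm_num at e3 ⊢
        exact e3
      have g3 : inner ℝ (T0 y) y ≤ 13 / 16 := by
        rw [b05_T0]
        have e1 : ∫ z in DD, fn y z * fn y z = ∫ z in DD, fn y z ^ 2 := by
          refine integral_congr_ae (Eventually.of_forall fun z => ?_)
          simp only [sq]
        rw [e1]
        linarith
      rw [hxy, map_smul, real_inner_smul_left, real_inner_smul_right, norm_smul, hy1, mul_one,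
        norm_norm]
      nlinarith [sq_nonneg ‖x'‖]
    have hTx : inner ℝ (T x') x' ≤ 7 / 8 * ‖x'‖ ^ 2 := by
      have e1 : inner ℝ (T x') x' = inner ℝ (T0 x') x' + inner ℝ ((T - T0) x') x' := by
        rw [sub_apply, inner_sub_left]; ring
      have e2 : inner ℝ ((T - T0) x') x' ≤ 1 / 16 * ‖x'‖ ^ 2 := by
        calc inner ℝ ((T - T0) x') x' ≤ ‖(T - T0) x'‖ * ‖x'‖ := real_inner_le_norm _ _
          _ ≤ (‖T - T0‖ * ‖x'‖) * ‖x'‖ := by
            gcongr
            exact (T - T0).le_opNorm x'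
          _ ≤ (1 / 16 * ‖x'‖) * ‖x'‖ := by gcongr
          _ = 1 / 16 * ‖x'‖ ^ 2 := by ring
      linarith
    have e1 : inner ℝ (x' - T x') x' ≤ ‖x' - T x'‖ * ‖x'‖ := real_inner_le_norm _ _
    rw [inner_sub_left, real_inner_self_eq_norm_sq] at e1
    have e2 : (1 / 8 * ‖x'‖) * ‖x'‖ ≤ ‖x' - T x'‖ * ‖x'‖ := by nlinarith
    exact le_of_mul_le_mul_right e2 hn
  -- orthogonal decomposition
  have hdec : x - T x = (x' - T x') + (-(c * (q - 2))) • u := by
    rw [hxx, map_add, map_smul, hTu, smul_smul]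
    module
  have horth : inner ℝ (x' - T x') u = 0 := by rw [inner_sub_left, hx'u, hTx'u, sub_zero]
  have hn1 : ‖x - T x‖ ^ 2 = ‖x' - T x'‖ ^ 2 + (c * (q - 2)) ^ 2 * ‖u‖ ^ 2 := by
    rw [hdec, norm_add_sq_real, real_inner_smul_right, horth, norm_smul, mul_pow,
      Real.norm_eq_abs, sq_abs]
    ring
  have hn2 : ‖x‖ ^ 2 = ‖x'‖ ^ 2 + c ^ 2 * ‖u‖ ^ 2 := by
    conv_lhs => rw [hxx]
    rw [norm_add_sq_real, real_inner_smul_right, hx'u, norm_smul, mul_pow, Real.norm_eq_abs,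
      sq_abs]
    ring
  have hfin : ((q - 2) / 2 * ‖x‖) ^ 2 ≤ ‖x - T x‖ ^ 2 := by
    rw [mul_pow, hn1, hn2, mul_add]
    have e1 : ((q - 2) / 2) ^ 2 * ‖x'‖ ^ 2 ≤ ‖x' - T x'‖ ^ 2 := by
      have : (q - 2) / 2 * ‖x'‖ ≤ ‖x' - T x'‖ := by
        refine le_trans ?_ hgap
        exact mul_le_mul_of_nonneg_right (by linarith) (norm_nonneg _)
      have h5 := pow_le_pow_left₀ (by
        have := norm_nonneg x'
        have : 0 ≤ (q - 2) / 2 := by linarith
        positivity) this 2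
      rwa [mul_pow] at h5
    have e2 : ((q - 2) / 2) ^ 2 * (c ^ 2 * ‖u‖ ^ 2) ≤ (c * (q - 2)) ^ 2 * ‖u‖ ^ 2 := by
      have e3 : (c * (q - 2)) ^ 2 * ‖u‖ ^ 2 = 4 * (((q - 2) / 2) ^ 2 * (c ^ 2 * ‖u‖ ^ 2)) := by
        ring
      have e4 : 0 ≤ ((q - 2) / 2) ^ 2 * (c ^ 2 * ‖u‖ ^ 2) := by positivity
      linarith
    linarith
  exact le_of_sq_le_sq hfin (norm_nonneg _)

theorem exists_base {δ : ℝ} (hδ : 0 < δ) : ∃ q₁ : ℝ, 2 < q₁ ∧ q₁ ≤ 21 / 10 ∧
    ∀ q : ℝ, 2 < q → q < q₁ → ∃ (lam : ℝ) (u : HH) (T : HH →L[ℝ] HH), BaseD q lam δ u T := by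
  have hW := g6_w0H_pos
  obtain ⟨CT, hCT, hTd⟩ := T_diff
  obtain ⟨m, hm⟩ : ∃ m : ℝ, m = min δ (1 / 16) := ⟨_, rfl⟩
  have hm0 : 0 < m := by rw [hm]; positivity
  have hmδ : m ≤ δ := by rw [hm]; exact min_le_left _ _
  have hm16 : m ≤ 1 / 16 := by rw [hm]; exact min_le_right _ _
  obtain ⟨η, hη⟩ : ∃ η : ℝ, η = min (δ / 3600) ((m / CT) ^ 2 / 60) := ⟨_, rfl⟩
  have hη0 : 0 < η := by rw [hη]; positivity
  have hη1 : 3600 * η ≤ δ := by
    have : η ≤ δ / 3600 := by rw [hη]; exact min_le_left _ _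
    linarith
  have hη2 : 60 * η ≤ (m / CT) ^ 2 := by
    have : η ≤ (m / CT) ^ 2 / 60 := by rw [hη]; exact min_le_right _ _
    linarith
  obtain ⟨δp, hδp, hpt⟩ := ground_pt (δ := min δ (1 / 10)) (by positivity)
  obtain ⟨δ₁, hδ₁⟩ : ∃ δ₁ : ℝ, δ₁ = min (min δ δp) (min (η / 32) (min (1 / 10) (‖w0H‖ / 4))) :=
    ⟨_, rfl⟩
  have hδ₁0 : 0 < δ₁ := by rw [hδ₁]; positivity
  have a1 : δ₁ ≤ δ := by rw [hδ₁]; exact (min_le_left _ _).trans (min_le_left _ _)
  have a2 : δ₁ ≤ δp := by rw [hδ₁]; exact (min_le_left _ _).trans (min_le_right _ _)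
  have a3 : δ₁ ≤ η / 32 := by rw [hδ₁]; exact (min_le_right _ _).trans (min_le_left _ _)
  have a4 : δ₁ ≤ 1 / 10 := by
    rw [hδ₁]; exact (min_le_right _ _).trans ((min_le_right _ _).trans (min_le_left _ _))
  have a5 : δ₁ ≤ ‖w0H‖ / 4 := by
    rw [hδ₁]; exact (min_le_right _ _).trans ((min_le_right _ _).trans (min_le_right _ _))
  obtain ⟨qa, hqa, hqa', hgr⟩ := ground_close hδ₁0
  have hlim : ∀ᶠ h : ℝ in 𝓝[>] 0, ∫ z, b06_g h (w0 z) ∂b04b_mu < η / 120 :=
    b06_g_lim.eventually (gt_mem_nhds (by positivity))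
  obtain ⟨h₀, hh₀, hsub⟩ := mem_nhdsGT_iff_exists_Ioo_subset.1 hlim
  have hh₀' : 0 < h₀ := hh₀
  refine ⟨min qa (2 + min (min h₀ δp) (min (1 / 100) (η / 3200))), ?_,
    (min_le_left _ _).trans hqa', ?_⟩
  · refine lt_min hqa ?_
    have : 0 < min (min h₀ δp) (min (1 / 100) (η / 3200)) := by positivity
    linarith
  intro q h2 h3
  have b0 : q < qa := lt_of_lt_of_le h3 (min_le_left _ _)
  have b : q - 2 < min (min h₀ δp) (min (1 / 100) (η / 3200)) := by
    have := lt_of_lt_of_le h3 (min_le_right _ _)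
    linarith
  have b1 : q - 2 < h₀ := lt_of_lt_of_le b ((min_le_left _ _).trans (min_le_left _ _))
  have b2 : q - 2 < δp := lt_of_lt_of_le b ((min_le_left _ _).trans (min_le_right _ _))
  have b3 : q - 2 < 1 / 100 := lt_of_lt_of_le b ((min_le_right _ _).trans (min_le_left _ _))
  have b4 : q - 2 < η / 3200 := lt_of_lt_of_le b ((min_le_right _ _).trans (min_le_right _ _))
  have hh : 0 < q - 2 := by linarith
  obtain ⟨lam, u, hodd, hlam, hclose, heqn⟩ := hgr q h2 b0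
  have hptu := hpt q lam u h2 (by linarith) hodd (hlam.trans a2) (hclose.trans a2) heqn
  -- numerical facts
  have hpi1 := Real.pi_gt_d2
  have hpi2 := Real.pi_lt_d2
  have hp1 : 49 ≤ 5 * Real.pi ^ 2 := by nlinarith
  have hp2 : 5 * Real.pi ^ 2 ≤ 50 := by nlinarith
  have hl1 : 48 ≤ lam := by have := (abs_le.1 hlam).1; linarith
  have hl2 : lam ≤ 51 := by have := (abs_le.1 hlam).2; linarith
  have hql0 : 0 ≤ (q - 1) * lam := by nlinarith
  have hql : (q - 1) * lam ≤ 52 := by nlinarith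
  have h3h : (3 : ℝ) ^ (q - 2) ≤ 11 / 10 := by
    calc (3 : ℝ) ^ (q - 2) ≤ 3 ^ (1 / 100 : ℝ) :=
          Real.rpow_le_rpow_of_exponent_le (by norm_num) b3.le
      _ ≤ 11 / 10 := by
        rw [one_div, Real.rpow_inv_le_iff_of_pos (by norm_num) (by norm_num) (by norm_num)]
        norm_num
  have hae : ∀ᵐ z ∂b04b_mu, |fn u z - w0 z| ≤ 1 / 10 * |w0 z| ∧
      |fn u z - w0 z| ≤ δ * |w0 z| := by
    rw [ae_restrict_iff' b1_DD_open.measurableSet]
    filter_upwards [hptu] with z hz hzD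
    have := hz hzD
    have h5 := abs_nonneg (w0 z)
    constructor
    · exact this.trans (mul_le_mul_of_nonneg_right (min_le_right _ _) h5)
    · exact this.trans (mul_le_mul_of_nonneg_right (min_le_left _ _) h5)
  have hbd : ∀ᵐ z ∂b04b_mu, 0 ≤ (q - 1) * lam * |fn u z| ^ (q - 2) ∧
      (q - 1) * lam * |fn u z| ^ (q - 2) ≤ 60 := by
    filter_upwards [hae] with z hz
    have h5 := abs_nonneg (w0 z)
    have h6 := g6_w0_le z
    have e1 : |fn u z| ≤ 3 := by
      have h7 := abs_add_le (fn u z - w0 z) (w0 z)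
      rw [sub_add_cancel] at h7
      linarith [hz.1]
    have e2 : |fn u z| ^ (q - 2) ≤ 11 / 10 :=
      (Real.rpow_le_rpow (abs_nonneg _) e1 hh.le).trans h3h
    have e3 : 0 ≤ |fn u z| ^ (q - 2) := Real.rpow_nonneg (abs_nonneg _) _
    refine ⟨mul_nonneg hql0 e3, ?_⟩
    calc (q - 1) * lam * |fn u z| ^ (q - 2) ≤ 52 * (11 / 10) := by gcongr
      _ ≤ 60 := by norm_num
  have hmeas : AEStronglyMeasurable (fun z => (q - 1) * lam * |fn u z| ^ (q - 2)) b04b_mu :=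
    (((b04b_meas u).aemeasurable.abs.pow_const (q - 2)).const_mul _).aestronglyMeasurable
  have hbdD : ∀ᵐ z, z ∈ DD → 0 ≤ (q - 1) * lam * |fn u z| ^ (q - 2) ∧
      (q - 1) * lam * |fn u z| ^ (q - 2) ≤ 60 := by
    rw [ae_restrict_iff' b1_DD_open.measurableSet] at hbd
    exact hbd
  have habs : ∀ᵐ z, z ∈ DD → |(q - 1) * lam * |fn u z| ^ (q - 2)| ≤ 60 := by
    filter_upwards [hbdD] with z hz hzD
    rw [abs_of_nonneg (hz hzD).1]
    exact (hz hzD).2
  obtain ⟨T, hT⟩ := exists_T hmeas habs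
  -- difference of the weights
  obtain ⟨F, hF⟩ : ∃ F : ℂ → ℝ, F = fun z => (q - 1) * lam * |fn u z| ^ (q - 2) -
    5 * Real.pi ^ 2 := ⟨_, rfl⟩
  have hFm : AEStronglyMeasurable F b04b_mu := by
    rw [hF]; exact hmeas.sub aestronglyMeasurable_const
  have hFb : ∀ᵐ z ∂b04b_mu, |F z| ≤ 60 := by
    filter_upwards [hbd] with z hz
    rw [hF, abs_le]
    simp only
    constructor <;> linarith [hz.1, hz.2]
  have hFL : ∀ᵐ z ∂b04b_mu, |F z| ≤ 52 * b06_g (q - 2) (w0 z) + η / 32 + η / 62 := by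
    filter_upwards [hae] with z hz
    have e1 := b06_pow hh (g6_w0_le z) hz.1
    have e2 : F z = (q - 1) * lam * (|fn u z| ^ (q - 2) - 1) + (lam - 5 * Real.pi ^ 2) +
        (q - 2) * lam := by
      rw [hF]; simp only; ring
    have e3 : |(q - 1) * lam * (|fn u z| ^ (q - 2) - 1)| ≤ 52 * b06_g (q - 2) (w0 z) := by
      rw [abs_mul, abs_of_nonneg hql0]
      exact mul_le_mul hql e1 (abs_nonneg _) (by norm_num)
    have e4 : |(q - 2) * lam| ≤ η / 62 := by
      rw [abs_mul, abs_of_pos hh, abs_of_pos (by linarith : (0:ℝ) < lam)]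
      calc (q - 2) * lam ≤ η / 3200 * 51 := by gcongr
        _ ≤ η / 62 := by
          rw [div_mul_eq_mul_div, div_le_div_iff₀ (by norm_num) (by norm_num)]
          nlinarith
    rw [e2]
    calc _ ≤ |(q - 1) * lam * (|fn u z| ^ (q - 2) - 1) + (lam - 5 * Real.pi ^ 2)| +
          |(q - 2) * lam| := abs_add_le _ _
      _ ≤ |(q - 1) * lam * (|fn u z| ^ (q - 2) - 1)| + |lam - 5 * Real.pi ^ 2| +
          |(q - 2) * lam| := by gcongr; exact abs_add_le _ _
      _ ≤ _ := by linarith [hlam.trans a3]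
  have hFint : Integrable (fun z => |F z|) b04b_mu := by
    refine Integrable.of_bound (C := 60) hFm.norm ?_
    filter_upwards [hFb] with z hz
    rw [Real.norm_eq_abs, abs_abs]
    exact hz
  have hFI : ∫ z, |F z| ∂b04b_mu ≤ η := by
    have hgi := b06_g_int hh (by linarith : q - 2 < 1)
    have hgl : ∫ z, b06_g (q - 2) (w0 z) ∂b04b_mu < η / 120 := hsub ⟨hh, b1⟩
    have e0 : ∫ _z, (η / 32 + η / 62) ∂b04b_mu ≤ 1 / 2 * η := by
      have e1 : ∫ _z, (η / 32 + η / 62) ∂b04b_mu = (η / 32 + η / 62) * ∫ _z, (1 : ℝ) ∂b04b_mu := by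
        rw [← integral_const_mul]; simp
      have e2 : (0 : ℝ) ≤ ∫ _z, (1 : ℝ) ∂b04b_mu := integral_nonneg fun _ => by norm_num
      rw [e1]
      have e3 := b04b_const
      nlinarith
    calc ∫ z, |F z| ∂b04b_mu ≤ ∫ z, (52 * b06_g (q - 2) (w0 z) + (η / 32 + η / 62)) ∂b04b_mu := by
          refine integral_mono_ae hFint ((hgi.const_mul _).add (integrable_const _)) ?_
          filter_upwards [hFL] with z hz
          linarith
      _ = 52 * ∫ z, b06_g (q - 2) (w0 z) ∂b04b_mu + ∫ _z, (η / 32 + η / 62) ∂b04b_mu := by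
          rw [integral_add (hgi.const_mul _) (integrable_const _), integral_const_mul]
      _ ≤ η := by linarith
  have hFM : MemLp F 2 b04b_mu := by
    refine MemLp.of_bound hFm 60 ?_
    filter_upwards [hFb] with z hz
    rw [Real.norm_eq_abs]
    exact hz
  have hF2 : ∫ z, F z ^ 2 ∂b04b_mu ≤ 60 * η := by
    calc ∫ z, F z ^ 2 ∂b04b_mu ≤ ∫ z, 60 * |F z| ∂b04b_mu := by
          refine integral_mono_ae hFM.integrable_sq (hFint.const_mul _) ?_
          filter_upwards [hFb] with z hz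
          rw [← sq_abs]
          nlinarith [abs_nonneg (F z)]
      _ = 60 * ∫ z, |F z| ∂b04b_mu := integral_const_mul _ _
      _ ≤ 60 * η := by gcongr
  have hF3 : ∫ z, |F z| ^ 3 ∂b04b_mu ≤ δ := by
    calc ∫ z, |F z| ^ 3 ∂b04b_mu ≤ ∫ z, 3600 * |F z| ∂b04b_mu := by
          refine integral_mono_ae ?_ (hFint.const_mul _) ?_
          · refine Integrable.of_bound (C := 60 ^ 3) (hFm.norm.pow 3) ?_
            filter_upwards [hFb] with z hz
            rw [Real.norm_eq_abs, abs_of_nonneg (by positivity)]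
            exact pow_le_pow_left₀ (abs_nonneg _) hz 3
          · filter_upwards [hFb] with z hz
            have h5 := abs_nonneg (F z)
            have h6 : |F z| ^ 2 ≤ 60 ^ 2 := pow_le_pow_left₀ h5 hz 2
            calc |F z| ^ 3 = |F z| ^ 2 * |F z| := by ring
              _ ≤ 60 ^ 2 * |F z| := by gcongr
              _ = 3600 * |F z| := by norm_num
      _ = 3600 * ∫ z, |F z| ∂b04b_mu := integral_const_mul _ _
      _ ≤ 3600 * η := by gcongr
      _ ≤ δ := hη1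
  have hTT0 : ‖T - T0‖ ≤ m := by
    have e1 := hTd (fun z => (q - 1) * lam * |fn u z| ^ (q - 2)) (fun _ => 5 * Real.pi ^ 2) T T0
      hT T0_spec (by rw [hF] at hFM; exact hFM) (b04_int hmeas habs)
      (b04_int (C := 5 * Real.pi ^ 2) aestronglyMeasurable_const
        (Eventually.of_forall fun _ _ => (abs_of_pos (by positivity)).le))
    have e2 : (eLpNorm (fun z => (q - 1) * lam * |fn u z| ^ (q - 2) - 5 * Real.pi ^ 2) 2
        (volume.restrict DD)).toReal = √(∫ z, F z ^ 2 ∂b04b_mu) := by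
      rw [← b06_eLp hFM, hF]
    rw [e2] at e1
    have e3 : √(∫ z, F z ^ 2 ∂b04b_mu) ≤ m / CT := by
      rw [Real.sqrt_le_left (by positivity)]
      exact hF2.trans hη2
    calc ‖T - T0‖ ≤ CT * √(∫ z, F z ^ 2 ∂b04b_mu) := e1
      _ ≤ CT * (m / CT) := by gcongr
      _ = m := by field_simp
  refine ⟨lam, u, T, ⟨h2, by linarith, hlam.trans a1, hodd, ?_, heqn, hT, hTT0.trans hmδ, ?_,
    hbdD, ?_⟩⟩
  · rw [ae_restrict_iff' b1_DD_open.measurableSet] at hae
    filter_upwards [hae] with z hz hzD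
    exact (hz hzD).2
  · rw [hF] at hF3
    exact hF3
  · exact fun x hx => b06_nondeg h2 (by linarith) hodd (hclose.trans a5) heqn hT
      (hTT0.trans hm16) x hx

end Pool.Agent.H87.LE
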