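import Pool.Agent.H98.LE.Ground
import Pool.Agent.H87.LE.B05_Expl

open MeasureTheory Complex Set Filter Topology
open scoped ContDiff Laplacian

namespace Pool.Agent.H87.LE

/-! # B06a: ground states in the odd functions -/

theorem g6_w0_cont : Continuous w0 := by
  unfold w0; fun_prop

theorem g6_w0_le (z : ℂ) : |w0 z| ≤ 2 := by
  unfold w0
  have h1 : |Real.sin (Real.pi * z.re) * Real.sin (2 * Real.pi * z.im)| ≤ 1 := by
    rw [abs_mul]; exact mul_le_one₀ (Real.abs_sin_le_one _) (abs_nonneg _) (Real.abs_sin_le_one _)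
  have h2 : |Real.sin (2 * Real.pi * z.re) * Real.sin (Real.pi * z.im)| ≤ 1 := by
    rw [abs_mul]; exact mul_le_one₀ (Real.abs_sin_le_one _) (abs_nonneg _) (Real.abs_sin_le_one _)
  calc _ ≤ |Real.sin (Real.pi * z.re) * Real.sin (2 * Real.pi * z.im)| +
        |Real.sin (2 * Real.pi * z.re) * Real.sin (Real.pi * z.im)| := abs_sub _ _
    _ ≤ 2 := by linarith

theorem g6_w0_int {q : ℝ} (hq : 0 ≤ q) : Integrable (fun z => |w0 z| ^ q) b04b_mu := by
  refine Integrable.of_bound (C := 2 ^ q) ?_ ?_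
  · exact ((g6_w0_cont.abs.measurable).pow_const q).aestronglyMeasurable
  · refine Eventually.of_forall fun z => ?_
    rw [Real.norm_eq_abs, abs_of_nonneg (Real.rpow_nonneg (abs_nonneg _) _)]
    exact Real.rpow_le_rpow (abs_nonneg _) (g6_w0_le z) hq

theorem g6_w0_pos {q : ℝ} (hq : 0 ≤ q) : 0 < ∫ z, |w0 z| ^ q ∂b04b_mu := by
  rw [integral_pos_iff_support_of_nonneg (fun z => Real.rpow_nonneg (abs_nonneg _) _)
    (g6_w0_int hq)]
  have hsub : {z : ℂ | w0 z ≠ 0} ⊆ Function.support (fun z => |w0 z| ^ q) := by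
    intro z hz
    rw [Function.mem_support]
    exact (Real.rpow_pos_of_pos (abs_pos.2 hz) q).ne'
  refine lt_of_lt_of_le ?_ (measure_mono hsub)
  have hopen : IsOpen {z : ℂ | w0 z ≠ 0} := isOpen_ne_fun g6_w0_cont continuous_const
  rw [Measure.restrict_apply hopen.measurableSet]
  refine (hopen.inter b1_DD_open).measure_pos volume ⟨⟨1 / 2, 1 / 4⟩, ?_, ?_⟩
  · simp only [mem_ofPred_eq, w0]
    have e1 : Real.pi * (1 / 2) = Real.pi / 2 := by ring
    have e2 : 2 * Real.pi * (1 / 4) = Real.pi / 2 := by ring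
    have e3 : 2 * Real.pi * (1 / 2) = Real.pi := by ring
    rw [e1, e2, e3, Real.sin_pi_div_two, Real.sin_pi]
    norm_num
  · constructor
    · simp only; norm_num [abs_of_pos]
    · simp only; norm_num [abs_of_pos]

theorem g6_fn_w0H : ∀ᵐ z ∂b04b_mu, fn w0H z = w0 z := by
  rw [ae_restrict_iff' b1_DD_open.measurableSet]
  filter_upwards [w0H_spec.1] with z hz h
  rw [hz, indicator_of_mem h]

theorem g6_Ph_w0H (q : ℝ) : g6Ph q w0H = ∫ z, |w0 z| ^ q ∂b04b_mu := by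
  unfold g6Ph
  apply integral_congr_ae
  filter_upwards [g6_fn_w0H] with z hz
  rw [hz]

/-- `∫ w0 y` in terms of the inner product -/
theorem g6_inner_w0H (y : HH) : inner ℝ w0H y = 5 * Real.pi ^ 2 * ∫ z, fn w0H z * fn y z ∂b04b_mu := by
  rw [w0H_spec.2.2.2 y]
  congr 1
  apply integral_congr_ae
  filter_upwards [g6_fn_w0H] with z hz
  rw [hz]

theorem g6_norm_w0H : ‖w0H‖ ^ 2 = 5 * Real.pi ^ 2 * g6Ph 2 w0H := by
  rw [← real_inner_self_eq_norm_sq, g6_inner_w0H]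
  congr 1
  unfold g6Ph
  refine integral_congr_ae (Eventually.of_forall fun z => ?_)
  simp only [Real.rpow_two, sq_abs]
  ring

theorem g6_w0H_pos : 0 < ‖w0H‖ := by
  have h1 := g6_norm_w0H
  have h2 : 0 < g6Ph 2 w0H := by
    rw [g6_Ph_w0H]; exact g6_w0_pos (by norm_num)
  have h3 : 0 < ‖w0H‖ ^ 2 := by rw [h1]; positivity
  by_contra hcon
  have h4 : ‖w0H‖ = 0 := le_antisymm (not_lt.1 hcon) (norm_nonneg _)
  rw [h4] at h3
  norm_num at h3

theorem g6_zero {q : ℝ} (hq : q ≠ 0) : g6Ph q 0 = 0 := by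
  have h := g6_smul q 0 0
  rw [smul_zero, abs_zero, Real.zero_rpow hq, zero_mul] at h
  exact h

theorem g6_hom {q S : ℝ} (hq : q ≠ 0) (hS : ∀ x : HH, ev x = 0 → ‖x‖ = 1 → g6Ph q x ≤ S)
    (x : HH) (hx : ev x = 0) : g6Ph q x ≤ S * ‖x‖ ^ q := by
  rcases eq_or_ne x 0 with rfl | hx0
  · rw [g6_zero hq, norm_zero, Real.zero_rpow hq, mul_zero]
  · have hn : 0 < ‖x‖ := norm_pos_iff.2 hx0
    have h1 : x = ‖x‖ • (‖x‖⁻¹ • x) := by
      rw [smul_smul, mul_inv_cancel₀ hn.ne', one_smul]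
    have h2 := hS (‖x‖⁻¹ • x) (by rw [map_smul, hx, smul_zero])
      (by rw [norm_smul, norm_inv, norm_norm, inv_mul_cancel₀ hn.ne'])
    conv_lhs => rw [h1]
    rw [g6_smul, abs_of_pos hn, mul_comm]
    exact mul_le_mul_of_nonneg_right h2 (Real.rpow_nonneg hn.le _)

theorem g6_attain {q : ℝ} (h2 : 2 < q) (h3 : q ≤ 21 / 10) : ∃ v : HH, ev v = 0 ∧ ‖v‖ = 1 ∧
    0 < g6Ph q v ∧ ∀ x : HH, ev x = 0 → g6Ph q x ≤ g6Ph q v * ‖x‖ ^ q := by
  obtain ⟨C, hC, hb⟩ := g6_bound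
  obtain ⟨K, hK, hc⟩ := g6_cont
  set A : Set ℝ := {r | ∃ x : HH, ev x = 0 ∧ ‖x‖ = 1 ∧ g6Ph q x = r} with hA
  have hbdd : BddAbove A := by
    refine ⟨1 / 2 + (q - 2) * C, ?_⟩
    rintro r ⟨x, _, hx, rfl⟩
    refine (hb q h2.le (by linarith) x hx.le).trans ?_
    have := (b04b_sq x).2
    rw [hx] at this
    linarith
  have hW := g6_w0H_pos
  have hx0n : ‖(‖w0H‖⁻¹ • w0H)‖ = 1 := by
    rw [norm_smul, norm_inv, norm_norm, inv_mul_cancel₀ hW.ne']
  have hx0e : ev (‖w0H‖⁻¹ • w0H) = 0 := by rw [map_smul, w0H_spec.2.2.1, smul_zero]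
  have hx0p : 0 < g6Ph q (‖w0H‖⁻¹ • w0H) := by
    rw [g6_smul, g6_Ph_w0H]
    have h4 : 0 < |‖w0H‖⁻¹| := abs_pos.2 (inv_ne_zero hW.ne')
    exact mul_pos (Real.rpow_pos_of_pos h4 _) (g6_w0_pos (by linarith))
  set S : ℝ := sSup A with hS
  have hS0 : 0 < S := lt_of_lt_of_le hx0p (le_csSup hbdd ⟨_, hx0e, hx0n, rfl⟩)
  have hSle : ∀ x : HH, ev x = 0 → ‖x‖ = 1 → g6Ph q x ≤ S :=
    fun x hx hn => le_csSup hbdd ⟨x, hx, hn, rfl⟩
  have hseq : ∀ n : ℕ, ∃ x : HH, ev x = 0 ∧ ‖x‖ = 1 ∧ S - 1 / ((n : ℝ) + 1) < g6Ph q x := by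
    intro n
    have hlt : S - 1 / ((n : ℝ) + 1) < sSup A := by
      have : (0 : ℝ) < 1 / ((n : ℝ) + 1) := by positivity
      linarith
    obtain ⟨r, ⟨x, hx1, hx2, rfl⟩, hr⟩ := exists_lt_of_lt_csSup (show A.Nonempty from ⟨_, _, hx0e, hx0n, rfl⟩) hlt
    exact ⟨x, hx1, hx2, hr⟩
  choose x hx1 hx2 hx3 using hseq
  obtain ⟨k, y, hk, hy⟩ := fn_seq (x := x) (C := 1) (fun n => (hx2 n).le)
  set w : ℕ → HH := fun n => x (k n) with hw
  have hw1 : ∀ n, ev (w n) = 0 := fun n => hx1 _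
  have hw2 : ∀ n, ‖w n‖ = 1 := fun n => hx2 _
  have hw3 : ∀ n : ℕ, S - 1 / ((n : ℝ) + 1) < g6Ph q (w n) := by
    intro n
    refine lt_of_le_of_lt ?_ (hx3 (k n))
    have h4 : (n : ℝ) ≤ k n := by exact_mod_cast hk.le_apply
    have h5 : 1 / ((k n : ℝ) + 1) ≤ 1 / ((n : ℝ) + 1) :=
      one_div_le_one_div_of_le (by positivity) (by linarith)
    linarith
  have hkey : ∀ ε : ℝ, 0 < ε → ∀ m n : ℕ, S / 4 * ‖w n - w m‖ ^ 2 ≤
      1 / ((n : ℝ) + 1) + K * ε + K / ε * ‖fn (w m) - fn (w n)‖ ^ 2 := by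
    intro ε hε m n
    set u : HH := (1 / 2 : ℝ) • (w n + w m) with hu
    have hu1 : ev u = 0 := by rw [hu, map_smul, map_add, hw1, hw1, add_zero, smul_zero]
    have hpar := parallelogram_law_with_norm ℝ (w n) (w m)
    rw [hw2, hw2] at hpar
    have hun : ‖u‖ = 1 / 2 * ‖w n + w m‖ := by
      rw [hu, norm_smul, Real.norm_eq_abs, abs_of_pos (by norm_num)]
    have hun2 : ‖w n - w m‖ ^ 2 = 4 - 4 * ‖u‖ ^ 2 := by
      rw [hun]; nlinarith
    have hu1' : ‖u‖ ≤ 1 := by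
      rw [hun]
      have := norm_add_le (w n) (w m)
      rw [hw2, hw2] at this
      linarith
    have h4 := hc q h2 h3 ε hε (w n) u (hw2 n).le hu1'
    have h5 : fn u - fn (w n) = (1 / 2 : ℝ) • (fn (w m) - fn (w n)) := by
      rw [hu, map_smul, map_add]; module
    rw [h5, norm_smul, mul_pow, Real.norm_eq_abs, sq_abs] at h4
    have h6 := (abs_le.1 h4).1
    have h7 := g6_hom (by linarith : q ≠ 0) hSle u hu1
    have h8 : ‖u‖ ^ q ≤ ‖u‖ ^ 2 := by
      rw [← Real.rpow_two]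
      rcases eq_or_lt_of_le (norm_nonneg u) with h9 | h9
      · rw [← h9, Real.zero_rpow (by linarith), Real.zero_rpow (by norm_num)]
      · exact Real.rpow_le_rpow_of_exponent_ge h9 hu1' h2.le
    have h9 : g6Ph q u ≤ S * ‖u‖ ^ 2 := h7.trans (mul_le_mul_of_nonneg_left h8 hS0.le)
    have h10 := hw3 n
    have h11 : 0 ≤ K / ε * ‖fn (w m) - fn (w n)‖ ^ 2 := by positivity
    rw [hun2]
    nlinarith
  have hfnC : CauchySeq (fun n => fn (w n)) := hy.cauchySeq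
  have hcau : CauchySeq w := by
    rw [Metric.cauchySeq_iff]
    intro ε hε
    set η : ℝ := S * ε ^ 2 / (16 * K) with hη
    have hη0 : 0 < η := by positivity
    have hKη : K * η = S * ε ^ 2 / 16 := by rw [hη]; field_simp
    obtain ⟨N1, hN1⟩ := exists_nat_gt (16 / (S * ε ^ 2))
    rw [Metric.cauchySeq_iff] at hfnC
    obtain ⟨N2, hN2⟩ := hfnC (Real.sqrt (S * ε ^ 2 / (16 * (K / η)))) (by positivity)
    refine ⟨max N1 N2, fun n hn m hm => ?_⟩
    have h4 := hkey η hη0 m n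
    have h5 := hN2 m (le_trans (le_max_right _ _) hm) n (le_trans (le_max_right _ _) hn)
    rw [dist_eq_norm] at h5
    have h6 : ‖fn (w m) - fn (w n)‖ ^ 2 < S * ε ^ 2 / (16 * (K / η)) := by
      have := pow_lt_pow_left₀ h5 (norm_nonneg _) two_ne_zero
      rwa [Real.sq_sqrt (by positivity)] at this
    have h7 : K / η * ‖fn (w m) - fn (w n)‖ ^ 2 ≤ S * ε ^ 2 / 16 := by
      have h8 : 0 < K / η := by positivity
      have := mul_le_mul_of_nonneg_left h6.le h8.le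
      have h9 : K / η * (S * ε ^ 2 / (16 * (K / η))) = S * ε ^ 2 / 16 := by field_simp
      linarith
    have h8 : 1 / ((n : ℝ) + 1) ≤ S * ε ^ 2 / 16 := by
      have h9 : (16 : ℝ) / (S * ε ^ 2) ≤ (n : ℝ) + 1 := by
        have h10 : (N1 : ℝ) ≤ n := by exact_mod_cast le_trans (le_max_left _ _) hn
        linarith
      have h11 : 0 < S * ε ^ 2 := by positivity
      rw [div_le_iff₀ h11] at h9
      rw [div_le_div_iff₀ (by positivity) (by norm_num)]
      linarith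
    have h9 : ‖w n - w m‖ ^ 2 < ε ^ 2 := by
      have h10 : S / 4 * ‖w n - w m‖ ^ 2 ≤ 3 * (S * ε ^ 2 / 16) := by linarith
      have h11 : 0 < S * ε ^ 2 := by positivity
      have h12 : S / 4 * ‖w n - w m‖ ^ 2 < S / 4 * ε ^ 2 := by linarith
      exact lt_of_mul_lt_mul_left h12 (by positivity)
    rw [dist_eq_norm]
    exact lt_of_pow_lt_pow_left₀ 2 hε.le h9
  obtain ⟨v, hv⟩ := cauchySeq_tendsto_of_complete hcau
  have hv1 : ev v = 0 := by
    have h4 : Tendsto (fun n => ev (w n)) atTop (𝓝 (ev v)) := (ev.continuous.tendsto v).comp hv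
    simp only [hw1] at h4
    exact (tendsto_nhds_unique tendsto_const_nhds h4).symm
  have hv2 : ‖v‖ = 1 := by
    have h4 := hv.norm
    simp only [hw2] at h4
    exact (tendsto_nhds_unique tendsto_const_nhds h4).symm
  have hv3 : S ≤ g6Ph q v := by
    refine le_of_forall_pos_le_add (fun ε hε => ?_)
    have hε' : 0 < ε / K := by positivity
    have h4 : ∀ n : ℕ, S - 1 / ((n : ℝ) + 1) - K / (ε / K) * ‖fn v - fn (w n)‖ ^ 2 ≤
        g6Ph q v + ε := by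
      intro n
      have h5 := (abs_le.1 (hc q h2 h3 (ε / K) hε' (w n) v (hw2 n).le hv2.le)).1
      have h6 := hw3 n
      have h7 : K * (ε / K) = ε := by field_simp
      linarith
    have h5 : Tendsto (fun n : ℕ => S - 1 / ((n : ℝ) + 1) -
        K / (ε / K) * ‖fn v - fn (w n)‖ ^ 2) atTop (𝓝 (S - 0 - K / (ε / K) * 0)) := by
      have h6 : Tendsto (fun n => ‖fn v - fn (w n)‖ ^ 2) atTop (𝓝 0) := by
        have h7 : Tendsto (fun n => fn (w n)) atTop (𝓝 (fn v)) := (fn.continuous.tendsto v).comp hv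
        have h8 := ((tendsto_const_nhds (x := fn v)).sub h7).norm.pow 2
        simpa using h8
      exact (tendsto_const_nhds.sub tendsto_one_div_add_atTop_nhds_zero_nat).sub
        (tendsto_const_nhds.mul h6)
    have h6 := le_of_tendsto' h5 h4
    linarith
  have hv4 : g6Ph q v = S := le_antisymm (hSle v hv1 hv2) hv3
  exact ⟨v, hv1, hv2, by rw [hv4]; exact hS0, fun x hx => by
    rw [hv4]; exact g6_hom (by linarith) hSle x hx⟩

/-- a quadratic remainder gives the derivative -/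
theorem g6_deriv {f : ℝ → ℝ} {d K : ℝ} (h : ∀ t : ℝ, |t| ≤ 1 → |f t - f 0 - t * d| ≤ K * t ^ 2) :
    HasDerivAt f d 0 := by
  rw [hasDerivAt_iff_isLittleO_nhds_zero]
  have h1 : (fun t : ℝ => f (0 + t) - f 0 - t • d) =O[𝓝 0] fun t : ℝ => t ^ 2 := by
    refine Asymptotics.IsBigO.of_bound K ?_
    have h2 : ∀ᶠ t : ℝ in 𝓝 0, |t| < 1 := by
      have := (continuous_abs (G := ℝ)).tendsto 0
      rw [abs_zero] at this
      exact this.eventually (gt_mem_nhds one_pos)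
    filter_upwards [h2] with t ht
    rw [zero_add, smul_eq_mul, Real.norm_eq_abs, Real.norm_eq_abs, abs_of_nonneg (sq_nonneg t)]
    exact h t ht.le
  exact h1.trans_isLittleO (Asymptotics.isLittleO_pow_id one_lt_two)

theorem g6_Nq {q : ℝ} (hq : q ≠ 0) (v : HH) : Nq q q v = g6Ph q v := by
  unfold Nq g6Ph
  rw [div_self hq, one_mul]

theorem g6_EL_odd {q : ℝ} (h2 : 2 < q) (h3 : q ≤ 21 / 10) {v : HH} (hv : ev v = 0)
    (hn : ‖v‖ = 1) (hmax : ∀ x : HH, ev x = 0 → g6Ph q x ≤ g6Ph q v * ‖x‖ ^ q) (y : HH)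
    (hy : ev y = 0) : q * (g6Ph q v * inner ℝ v y) = inner ℝ (nq q q v) y := by
  have hq : q ≠ 0 := by linarith
  obtain ⟨C, hC⟩ := nq_taylor (lam := q) h2 h3 (‖v‖ + ‖y‖)
  have hd1 : HasDerivAt (fun t : ℝ => g6Ph q (v + t • y)) (inner ℝ (nq q q v) y) 0 := by
    refine g6_deriv (K := C * ‖y‖ ^ 2) (fun t ht => ?_)
    have h4 := (hC v (v + t • y) (by linarith [norm_nonneg y]) ?_).1
    · rw [g6_Nq hq, g6_Nq hq, add_sub_cancel_left, real_inner_smul_right, norm_smul, mul_pow,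
        Real.norm_eq_abs, sq_abs] at h4
      rw [zero_smul, add_zero]
      linarith
    · refine (norm_add_le _ _).trans (add_le_add le_rfl ?_)
      rw [norm_smul, Real.norm_eq_abs]
      exact mul_le_of_le_one_left (norm_nonneg _) ht
  have hd2 : HasDerivAt (fun t : ℝ => ‖v + t • y‖ ^ q) (q * inner ℝ v y) 0 := by
    have e1 : ∀ t : ℝ, ‖v + t • y‖ ^ q = (1 + 2 * t * inner ℝ v y + t ^ 2 * ‖y‖ ^ 2) ^ (q / 2) := by
      intro t
      have e2 : 1 + 2 * t * inner ℝ v y + t ^ 2 * ‖y‖ ^ 2 = ‖v + t • y‖ ^ 2 := by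
        rw [norm_add_sq_real, hn, real_inner_smul_right, norm_smul, mul_pow, Real.norm_eq_abs,
          sq_abs]
        ring
      rw [e2, ← Real.rpow_two, ← Real.rpow_mul (norm_nonneg _)]
      congr 1
      ring
    have h4 : HasDerivAt (fun t : ℝ => 1 + 2 * t * inner ℝ v y + t ^ 2 * ‖y‖ ^ 2)
        (2 * inner ℝ v y) 0 := by
      have h5 : HasDerivAt (fun t : ℝ => 1 + 2 * t * inner ℝ v y + t ^ 2 * ‖y‖ ^ 2)
          (2 * 1 * inner ℝ v y + (2 : ℕ) * (0 : ℝ) ^ (2 - 1) * 1 * ‖y‖ ^ 2) 0 :=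
        ((((hasDerivAt_id (0 : ℝ)).const_mul 2).mul_const _).const_add 1).add
          (((hasDerivAt_id (0 : ℝ)).pow 2).mul_const _)
      convert! h5 using 1
      simp
    have h5 := h4.rpow_const (p := q / 2) (Or.inl (by norm_num))
    have h6 : HasDerivAt (fun t : ℝ => ‖v + t • y‖ ^ q)
        (2 * inner ℝ v y * (q / 2) * (1 + 2 * 0 * inner ℝ v y + 0 ^ 2 * ‖y‖ ^ 2) ^ (q / 2 - 1))
        0 := by
      have : (fun t : ℝ => ‖v + t • y‖ ^ q) =
          fun t : ℝ => (1 + 2 * t * inner ℝ v y + t ^ 2 * ‖y‖ ^ 2) ^ (q / 2) := funext e1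
      rw [this]
      exact h5
    convert! h6 using 1
    have : (1 + 2 * 0 * inner ℝ v y + 0 ^ 2 * ‖y‖ ^ 2 : ℝ) = 1 := by ring
    rw [this, Real.one_rpow]
    ring
  have hd3 : HasDerivAt (fun t : ℝ => g6Ph q v * ‖v + t • y‖ ^ q - g6Ph q (v + t • y))
      (g6Ph q v * (q * inner ℝ v y) - inner ℝ (nq q q v) y) 0 := (hd2.const_mul _).sub hd1
  have hmin : IsLocalMin (fun t : ℝ => g6Ph q v * ‖v + t • y‖ ^ q - g6Ph q (v + t • y)) 0 := by
    refine Eventually.of_forall (fun t => ?_)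
    have h4 := hmax (v + t • y) (by rw [map_add, map_smul, hv, hy, smul_zero, add_zero])
    simp only [zero_smul, add_zero, hn, Real.one_rpow, mul_one, sub_self]
    linarith
  have h4 := hmin.hasDerivAt_eq_zero hd3
  linarith

theorem g6_conj_zero {q : ℝ} (h2 : 2 < q) (h3 : q ≤ 21 / 10) {v y : HH} (hv : ev v = 0)
    (hy : ev y = y) : inner ℝ (nq q q v) y = 0 := by
  rw [nq_inner h2 h3]
  have h1 := (ev_zero_iff v).1 hv
  have h4 := (ev_self_iff y).1 hy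
  have h5 := b04_conj_integral (fun z => |fn v z| ^ (q - 2) * fn v z * fn y z)
  have h6 : ∫ z in DD, (fun z => |fn v z| ^ (q - 2) * fn v z * fn y z) (starRingEnd ℂ z) =
      - ∫ z in DD, |fn v z| ^ (q - 2) * fn v z * fn y z := by
    rw [← integral_neg]
    apply integral_congr_ae
    apply ae_restrict_of_ae
    filter_upwards [h1, h4] with z hz1 hz2
    rw [hz1, hz2, abs_neg]
    ring
  rw [h6] at h5
  have h7 : ∫ z in DD, |fn v z| ^ (q - 2) * fn v z * fn y z = 0 := by linarith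
  rw [h7, mul_zero]

theorem g6_EL {q : ℝ} (h2 : 2 < q) (h3 : q ≤ 21 / 10) {v : HH} (hv : ev v = 0)
    (hn : ‖v‖ = 1) (hmax : ∀ x : HH, ev x = 0 → g6Ph q x ≤ g6Ph q v * ‖x‖ ^ q) (y : HH) :
    g6Ph q v * inner ℝ v y = ∫ z in DD, |fn v z| ^ (q - 2) * fn v z * fn y z := by
  have hee : ∀ y, ev (ev y) = ev y := by
    intro y
    have := congrArg (fun T : HH →L[ℝ] HH => T y) ev_idem
    simpa using this
  have h4 := g6_EL_odd h2 h3 hv hn hmax (y - ev y) (by rw [map_sub, hee, sub_self])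
  have h5 := g6_conj_zero h2 h3 hv (hee y)
  have h6 : inner ℝ v (ev y) = 0 := by rw [← ev_symm, hv, inner_zero_left]
  rw [inner_sub_right, inner_sub_right, h5, h6, sub_zero, sub_zero, nq_inner h2 h3] at h4
  have hq : (0 : ℝ) < q := by linarith
  have h7 : q * (g6Ph q v * inner ℝ v y -
      ∫ z in DD, |fn v z| ^ (q - 2) * fn v z * fn y z) = 0 := by linarith
  rcases mul_eq_zero.1 h7 with h8 | h8
  · exact absurd h8 hq.ne'
  · linarith

/-- ground states of `∫|∇v|²/|v|_q²` in the odd functions: existence (maximising sequences of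
`|v|_q` on the unit sphere are Cauchy or: compactness), as critical points in `H` -/
theorem exists_ground {q : ℝ} (h2 : 2 < q) (h3 : q ≤ 21 / 10) : ∃ (v : HH), ev v = 0 ∧ ‖v‖ = 1 ∧
    0 ≤ inner ℝ v w0H ∧
    (∀ x : HH, ev x = 0 → ∫ z in DD, |fn x z| ^ q ≤ (∫ z in DD, |fn v z| ^ q) * ‖x‖ ^ q) ∧
    0 < ∫ z in DD, |fn v z| ^ q ∧
    ∀ y : HH, (∫ z in DD, |fn v z| ^ q) * inner ℝ v y =
      ∫ z in DD, |fn v z| ^ (q - 2) * fn v z * fn y z := by
  obtain ⟨v, hv1, hv2, hv3, hv4⟩ := g6_attain h2 h3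
  rcases le_total 0 (inner ℝ v w0H : ℝ) with h | h
  · exact ⟨v, hv1, hv2, h, hv4, hv3, g6_EL h2 h3 hv1 hv2 hv4⟩
  · have e1 : g6Ph q (-v) = g6Ph q v := by
      have := g6_smul q (-1) v
      rwa [neg_one_smul, abs_neg, abs_one, Real.one_rpow, one_mul] at this
    have h5 : ev (-v) = 0 := by rw [map_neg, hv1, neg_zero]
    have h6 : ‖-v‖ = 1 := by rw [norm_neg, hv2]
    have h7 : ∀ x : HH, ev x = 0 → g6Ph q x ≤ g6Ph q (-v) * ‖x‖ ^ q := by
      rw [e1]; exact hv4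
    refine ⟨-v, h5, h6, by rw [inner_neg_left]; linarith, h7, ?_, g6_EL h2 h3 h5 h6 h7⟩
    have : 0 < g6Ph q (-v) := by rw [e1]; exact hv3
    exact this

theorem g6_T0_w0H : T0 w0H = w0H :=
  ext_inner_right ℝ (fun y => by rw [b05_T0, g6_inner_w0H])

/-- spectral gap for odd functions -/
theorem g6_gap {x : HH} (hx : ev x = 0) (hn : ‖x‖ = 1) :
    5 * Real.pi ^ 2 * ∫ z in DD, fn x z ^ 2 ≤
      1 - 3 / 8 * (1 - (inner ℝ x w0H / ‖w0H‖) ^ 2) := by
  have hW := g6_w0H_pos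
  set W : ℝ := ‖w0H‖ with hWdef
  set c : ℝ := inner ℝ x w0H / W ^ 2 with hc
  set x' : HH := x - c • w0H with hx'
  have hww : inner ℝ w0H w0H = W ^ 2 := by rw [real_inner_self_eq_norm_sq]
  have hcW : c * W ^ 2 = inner ℝ x w0H := by rw [hc]; field_simp
  have h1 : inner ℝ x' w0H = 0 := by
    rw [hx', inner_sub_left, real_inner_smul_left, hww, hcW, sub_self]
  have hxx : x = x' + c • w0H := by rw [hx', sub_add_cancel]
  have h2 : ‖x'‖ ^ 2 = 1 - c ^ 2 * W ^ 2 := by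
    have h3 : ‖x‖ ^ 2 = ‖x'‖ ^ 2 + c ^ 2 * W ^ 2 := by
      rw [hxx, norm_add_sq_real, real_inner_smul_right, h1, norm_smul, mul_pow, Real.norm_eq_abs,
        sq_abs]
      ring
    rw [hn] at h3
    linarith
  have hev : ev x' = 0 := by rw [hx', map_sub, map_smul, hx, w0H_spec.2.2.1, smul_zero, sub_zero]
  obtain ⟨_, _, _, _, _, _, he1, _⟩ := e1_spec
  obtain ⟨_, _, _, _, _, _, he2, _⟩ := e2_spec
  have h4 : inner ℝ x' e1 = 0 := by rw [← he1, ← ev_symm, hev, inner_zero_left]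
  have h5 : inner ℝ x' e2 = 0 := by rw [← he2, ← ev_symm, hev, inner_zero_left]
  have hmem : x' ∈ V (DD \ Axs) := odd_mem' hev (by
    intro z hz
    simp only [Axs, Mir, mem_ofPred_eq] at hz ⊢
    rw [hz, zero_mul])
  have h6 := spec_gap hmem h4 h5 h1
  have e5 : ∀ y : HH, 5 * Real.pi ^ 2 * ∫ z in DD, fn y z ^ 2 = inner ℝ (T0 y) y := by
    intro y
    rw [b05_T0]
    congr 1
    refine integral_congr_ae (Eventually.of_forall fun z => ?_)
    simp only [sq]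
  have h7 : inner ℝ (T0 x) x = inner ℝ (T0 x') x' + c ^ 2 * W ^ 2 := by
    have h8 : inner ℝ (T0 x') w0H = 0 := by rw [b05_T0_symm, g6_T0_w0H, h1]
    have h9 : inner ℝ w0H x' = 0 := by rw [real_inner_comm, h1]
    rw [hxx, map_add, map_smul, g6_T0_w0H, inner_add_left, inner_add_right, inner_add_right,
      real_inner_smul_right, real_inner_smul_left, real_inner_smul_left, real_inner_smul_right,
      h8, h9, hww]
    ring
  have h8 : (inner ℝ x w0H / W) ^ 2 = c ^ 2 * W ^ 2 := by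
    rw [← hcW]; field_simp
  rw [e5, h7, ← e5, h8]
  rw [h2] at h6
  have h9 : 5 * Real.pi ^ 2 * ∫ z in DD, fn x' z ^ 2 =
      5 / 8 * (8 * Real.pi ^ 2 * ∫ z in DD, fn x' z ^ 2) := by ring
  rw [h9]
  linarith

theorem g6_lim : Tendsto (fun q : ℝ => ∫ z, |w0 z| ^ q ∂b04b_mu) (𝓝[>] 2)
    (𝓝 (∫ z, |w0 z| ^ (2 : ℝ) ∂b04b_mu)) := by
  apply tendsto_integral_filter_of_dominated_convergence (fun _ => (8 : ℝ))
  · exact Eventually.of_forall fun q =>
      ((g6_w0_cont.abs.measurable).pow_const q).aestronglyMeasurable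
  · have h1 : Set.Ioo (2 : ℝ) 3 ∈ 𝓝[>] (2 : ℝ) := Ioo_mem_nhdsGT (by norm_num)
    filter_upwards [h1] with q hq
    refine Eventually.of_forall fun z => ?_
    rw [Real.norm_eq_abs, abs_of_nonneg (Real.rpow_nonneg (abs_nonneg _) _)]
    calc |w0 z| ^ q ≤ 2 ^ q := Real.rpow_le_rpow (abs_nonneg _) (g6_w0_le z) (by linarith [hq.1])
      _ ≤ 2 ^ (3 : ℝ) := Real.rpow_le_rpow_of_exponent_le (by norm_num) hq.2.le
      _ = 8 := by norm_num
  · exact integrable_const _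
  · refine Eventually.of_forall fun z => ?_
    have h1 : ContinuousAt (fun q : ℝ => |w0 z| ^ q) 2 :=
      Real.continuousAt_const_rpow' (by norm_num)
    exact h1.tendsto.mono_left nhdsWithin_le_nhds

/-- scaled ground states converge to `w0` in `H` -/
theorem ground_close {δ : ℝ} (hδ : 0 < δ) : ∃ q₁ : ℝ, 2 < q₁ ∧ q₁ ≤ 21 / 10 ∧
    ∀ q : ℝ, 2 < q → q < q₁ → ∃ (lam : ℝ) (u : HH), ev u = 0 ∧ |lam - 5 * Real.pi ^ 2| ≤ δ ∧
      ‖u - w0H‖ ≤ δ ∧
      ∀ y : HH, inner ℝ u y = lam * ∫ z in DD, |fn u z| ^ (q - 2) * fn u z * fn y z := by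
  have hW := g6_w0H_pos
  set W : ℝ := ‖w0H‖ with hWdef
  have hpi : (0 : ℝ) < 5 * Real.pi ^ 2 := by positivity
  obtain ⟨C, hC, hb⟩ := g6_bound
  have hex : ∀ q : ℝ, ∃ v : HH, 2 < q → q ≤ 21 / 10 → (ev v = 0 ∧ ‖v‖ = 1 ∧
      0 ≤ inner ℝ v w0H ∧ (∀ x : HH, ev x = 0 → g6Ph q x ≤ g6Ph q v * ‖x‖ ^ q) ∧
      0 < g6Ph q v ∧ ∀ y : HH, g6Ph q v * inner ℝ v y =
      ∫ z in DD, |fn v z| ^ (q - 2) * fn v z * fn y z) := by
    intro q
    by_cases h : 2 < q ∧ q ≤ 21 / 10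
    · obtain ⟨v, hv⟩ := exists_ground h.1 h.2
      exact ⟨v, fun _ _ => hv⟩
    · exact ⟨0, fun h1 h2 => absurd ⟨h1, h2⟩ h⟩
  choose v hv using hex
  have hev : ∀ᶠ q : ℝ in 𝓝[>] 2, 2 < q ∧ q ≤ 21 / 10 := by
    have h1 : Set.Ioo (2 : ℝ) (21 / 10) ∈ 𝓝[>] (2 : ℝ) := Ioo_mem_nhdsGT (by norm_num)
    filter_upwards [h1] with q hq
    exact ⟨hq.1, hq.2.le⟩
  set κ : ℝ := 1 / (5 * Real.pi ^ 2) with hκ
  have hκ0 : 0 < κ := by positivity
  set L : ℝ → ℝ := fun q => |W⁻¹| ^ q * ∫ z, |w0 z| ^ q ∂b04b_mu with hL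
  have hLlim : Tendsto L (𝓝[>] 2) (𝓝 κ) := by
    have h1 : ContinuousAt (fun q : ℝ => |W⁻¹| ^ q) 2 :=
      Real.continuousAt_const_rpow (abs_pos.2 (inv_ne_zero hW.ne')).ne'
    have h2 := (h1.tendsto.mono_left nhdsWithin_le_nhds).mul g6_lim
    have h3 : |W⁻¹| ^ (2 : ℝ) * ∫ z, |w0 z| ^ (2 : ℝ) ∂b04b_mu = κ := by
      have h4 := g6_norm_w0H
      rw [g6_Ph_w0H, ← hWdef] at h4
      rw [Real.rpow_two, sq_abs, hκ]
      have h5 : ∫ z, |w0 z| ^ (2 : ℝ) ∂b04b_mu = W ^ 2 / (5 * Real.pi ^ 2) := by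
        rw [h4]; field_simp
      rw [h5]
      field_simp
    rw [h3] at h2
    exact h2
  have hLle : ∀ q : ℝ, 2 < q → q ≤ 21 / 10 → L q ≤ g6Ph q (v q) := by
    intro q h2 h3
    have h4 := (hv q h2 h3).2.2.2.1 (W⁻¹ • w0H) (by rw [map_smul, w0H_spec.2.2.1, smul_zero])
    rwa [norm_smul, norm_inv, Real.norm_eq_abs, abs_of_pos hW, ← hWdef, inv_mul_cancel₀ hW.ne',
      Real.one_rpow, mul_one, g6_smul, g6_Ph_w0H] at h4
  have hSle : ∀ q : ℝ, 2 < q → q ≤ 21 / 10 → g6Ph q (v q) ≤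
      κ * (1 - 3 / 8 * (1 - (inner ℝ (v q) w0H / W) ^ 2)) + (q - 2) * C := by
    intro q h2 h3
    have h4 := hb q h2.le (by linarith) (v q) (hv q h2 h3).2.1.le
    have h5 := g6_gap (hv q h2 h3).1 (hv q h2 h3).2.1
    refine h4.trans (add_le_add ?_ le_rfl)
    rw [hκ, one_div, ← div_eq_inv_mul, le_div_iff₀ hpi]
    rw [← hWdef] at h5
    linarith
  have ha1 : ∀ q : ℝ, 2 < q → q ≤ 21 / 10 → inner ℝ (v q) w0H / W ≤ 1 := by
    intro q h2 h3
    rw [div_le_one hW]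
    have h4 := real_inner_le_norm (v q) w0H
    rwa [(hv q h2 h3).2.1, one_mul] at h4
  have ha0 : ∀ q : ℝ, 2 < q → q ≤ 21 / 10 → 0 ≤ inner ℝ (v q) w0H / W :=
    fun q h2 h3 => div_nonneg (hv q h2 h3).2.2.1 hW.le
  have hq2 : Tendsto (fun q : ℝ => (q - 2) * C) (𝓝[>] 2) (𝓝 0) := by
    have h1 : Tendsto (fun q : ℝ => (q - 2) * C) (𝓝 2) (𝓝 ((2 - 2) * C)) :=
      (tendsto_id.sub tendsto_const_nhds).mul tendsto_const_nhds
    rw [sub_self, zero_mul] at h1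
    exact h1.mono_left nhdsWithin_le_nhds
  have hSlim : Tendsto (fun q => g6Ph q (v q)) (𝓝[>] 2) (𝓝 κ) := by
    have h1 : Tendsto (fun q : ℝ => κ + (q - 2) * C) (𝓝[>] 2) (𝓝 (κ + 0)) :=
      tendsto_const_nhds.add hq2
    rw [add_zero] at h1
    refine tendsto_of_tendsto_of_tendsto_of_le_of_le' hLlim h1 ?_ ?_
    · filter_upwards [hev] with q hq
      exact hLle q hq.1 hq.2
    · filter_upwards [hev] with q hq
      refine (hSle q hq.1 hq.2).trans (add_le_add ?_ le_rfl)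
      have h2 : (inner ℝ (v q) w0H / W) ^ 2 ≤ 1 :=
        pow_le_one₀ (ha0 q hq.1 hq.2) (ha1 q hq.1 hq.2)
      have h3 : 1 - 3 / 8 * (1 - (inner ℝ (v q) w0H / W) ^ 2) ≤ 1 := by linarith
      calc κ * (1 - 3 / 8 * (1 - (inner ℝ (v q) w0H / W) ^ 2)) ≤ κ * 1 :=
            mul_le_mul_of_nonneg_left h3 hκ0.le
        _ = κ := mul_one _
  have hlam : Tendsto (fun q => W ^ (2 - q) / g6Ph q (v q)) (𝓝[>] 2) (𝓝 (5 * Real.pi ^ 2)) := by
    have h1 : Tendsto (fun q : ℝ => W ^ (2 - q)) (𝓝[>] 2) (𝓝 1) := by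
      have h2 : ContinuousAt (fun q : ℝ => W ^ (2 - q)) 2 :=
        (Real.continuousAt_const_rpow hW.ne').comp (f := fun q : ℝ => 2 - q)
          (continuous_const.sub continuous_id).continuousAt
      have h3 := h2.tendsto.mono_left (nhdsWithin_le_nhds (s := Set.Ioi 2))
      rwa [sub_self, Real.rpow_zero] at h3
    have h2 := h1.div hSlim hκ0.ne'
    rwa [hκ, one_div, one_div, inv_inv] at h2
  have heta : Tendsto (fun q => 2 * W ^ 2 * (8 / (3 * κ)) * (κ - L q + (q - 2) * C)) (𝓝[>] 2)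
      (𝓝 0) := by
    have h1 : Tendsto (fun q => 2 * W ^ 2 * (8 / (3 * κ)) * (κ - L q + (q - 2) * C)) (𝓝[>] 2)
      (𝓝 (2 * W ^ 2 * (8 / (3 * κ)) * (κ - κ + 0))) :=
      tendsto_const_nhds.mul ((tendsto_const_nhds.sub hLlim).add hq2)
    rwa [sub_self, add_zero, mul_zero] at h1
  have hall : ∀ᶠ q : ℝ in 𝓝[>] 2, (2 < q ∧ q ≤ 21 / 10) ∧
      |W ^ (2 - q) / g6Ph q (v q) - 5 * Real.pi ^ 2| < δ ∧
      2 * W ^ 2 * (8 / (3 * κ)) * (κ - L q + (q - 2) * C) < δ ^ 2 := by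
    have h1 : ∀ᶠ q : ℝ in 𝓝[>] 2, |W ^ (2 - q) / g6Ph q (v q) - 5 * Real.pi ^ 2| < δ := by
      have := (Metric.tendsto_nhds.1 hlam) δ hδ
      filter_upwards [this] with q hq
      rwa [Real.dist_eq] at hq
    have h2 : ∀ᶠ q : ℝ in 𝓝[>] 2,
        2 * W ^ 2 * (8 / (3 * κ)) * (κ - L q + (q - 2) * C) < δ ^ 2 :=
      heta.eventually (gt_mem_nhds (by positivity))
    filter_upwards [hev, h1, h2] with q h3 h4 h5
    exact ⟨h3, h4, h5⟩
  obtain ⟨q₀, hq₀, hsub⟩ := mem_nhdsGT_iff_exists_Ioo_subset.1 hall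
  refine ⟨min q₀ (21 / 10), lt_min hq₀ (by norm_num), min_le_right _ _, fun q h2 h3 => ?_⟩
  obtain ⟨⟨-, h21⟩, hl, hd⟩ := hsub ⟨h2, lt_of_lt_of_le h3 (min_le_left _ _)⟩
  obtain ⟨v1, v2, v3, v4, v5, v6⟩ := hv q h2 h21
  refine ⟨W ^ (2 - q) / g6Ph q (v q), W • v q, by rw [map_smul, v1, smul_zero], hl.le, ?_, ?_⟩
  · have h4 : ‖W • v q - w0H‖ ^ 2 = 2 * W ^ 2 * (1 - inner ℝ (v q) w0H / W) := by
      rw [norm_sub_sq_real, norm_smul, v2, real_inner_smul_left, ← hWdef, Real.norm_eq_abs,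
        abs_of_pos hW]
      field_simp
      ring
    have h5 := hLle q h2 h21
    have h6 := hSle q h2 h21
    have h7 := ha0 q h2 h21
    have h8 := ha1 q h2 h21
    set a : ℝ := inner ℝ (v q) w0H / W with ha
    have h9 : 1 - a ≤ 1 - a ^ 2 := by nlinarith
    have h10 : κ * (3 / 8) * (1 - a ^ 2) ≤ κ - L q + (q - 2) * C := by nlinarith
    have h11 : 1 - a ≤ 8 / (3 * κ) * (κ - L q + (q - 2) * C) := by
      have h12 : 8 / (3 * κ) * (κ * (3 / 8) * (1 - a ^ 2)) = 1 - a ^ 2 := by field_simp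
      have h13 := mul_le_mul_of_nonneg_left h10 (by positivity : (0 : ℝ) ≤ 8 / (3 * κ))
      linarith
    have h12 : ‖W • v q - w0H‖ ^ 2 < δ ^ 2 := by
      rw [h4]
      refine lt_of_le_of_lt ?_ hd
      have := mul_le_mul_of_nonneg_left h11 (by positivity : (0 : ℝ) ≤ 2 * W ^ 2)
      linarith
    exact (lt_of_pow_lt_pow_left₀ 2 hδ.le h12).le
  · intro y
    have h4 : ∫ z in DD, |fn (W • v q) z| ^ (q - 2) * fn (W • v q) z * fn y z =
        W ^ (q - 1) * ∫ z in DD, |fn (v q) z| ^ (q - 2) * fn (v q) z * fn y z := by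
      rw [← integral_const_mul]
      apply integral_congr_ae
      filter_upwards [g6_ae_smul W (v q)] with z hz
      rw [hz, abs_mul, abs_of_pos hW, Real.mul_rpow hW.le (abs_nonneg _)]
      have h5 : W ^ (q - 1) = W ^ (q - 2) * W := by
        nth_rewrite 3 [← Real.rpow_one W]
        rw [← Real.rpow_add hW]; congr 1; ring
      rw [h5]
      ring
    rw [h4, ← v6 y, real_inner_smul_left]
    have h5 : W ^ (2 - q) * W ^ (q - 1) = W := by
      rw [← Real.rpow_add hW]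
      have : 2 - q + (q - 1) = 1 := by ring
      rw [this, Real.rpow_one]
    have h6 : W ^ (2 - q) / g6Ph q (v q) * (W ^ (q - 1) * (g6Ph q (v q) * inner ℝ (v q) y)) =
        (W ^ (2 - q) * W ^ (q - 1)) * inner ℝ (v q) y := by
      field_simp
    rw [h6, h5]

end Pool.Agent.H87.LE
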