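import Pool.Agent.H87.LE.A09_Bet
import Pool.Agent.H87.LE.A17_Comp

open MeasureTheory Complex Set Filter Topology
open scoped ContDiff Laplacian

namespace Pool.Agent.H87.LE

/-! # B07a: (F1) -/

theorem B07a_Tst_mono {Ω Ω' : Set ℂ} (h : Ω ⊆ Ω') {φ : ℂ → ℝ} (hφ : Tst Ω φ) : Tst Ω' φ :=
  ⟨hφ.1, hφ.2.1, hφ.2.2.trans h⟩

theorem B07a_W1_mono {Ω Ω' : Set ℂ} (h : Ω ⊆ Ω') {v : ℂ → ℝ} {G : ℂ → ℂ} (hv : W1 Ω v G) :
    W1 Ω' v G := by
  obtain ⟨φ, h1, h2⟩ := hv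
  exact ⟨φ, fun n => ⟨B07a_Tst_mono h (h1 n).1, (h1 n).2⟩, h2⟩

theorem B07a_Tst_neg {Ω : Set ℂ} {φ : ℂ → ℝ} (hφ : Tst Ω φ) : Tst Ω (fun z => -φ z) := by
  have hs : tsupport (fun z => -φ z) = tsupport φ := by
    unfold tsupport
    congr 1
    ext z
    simp
  refine ⟨hφ.1.neg, ?_, ?_⟩
  · unfold HasCompactSupport
    rw [hs]
    exact hφ.2.1
  · rw [hs]
    exact hφ.2.2

theorem B07a_gradient_neg (φ : ℂ → ℝ) (z : ℂ) : gradient (fun z => -φ z) z = -gradient φ z := by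
  unfold gradient
  rw [fderiv_fun_neg, map_neg]

theorem B07a_W1_neg {Ω : Set ℂ} {v : ℂ → ℝ} {G : ℂ → ℂ} (hv : W1 Ω v G) :
    W1 Ω (fun z => -v z) (fun z => -G z) := by
  obtain ⟨φ, h1, h2, h3, h4, h5⟩ := hv
  refine ⟨fun n z => -φ n z, fun n => ⟨B07a_Tst_neg (h1 n).1, fun z => ?_⟩, h2.neg, h3.neg, ?_, ?_⟩
  · simp only [(h1 n).2 z]
  · refine h4.congr fun n => ?_
    rw [← eLpNorm_neg]
    congr 1
    ext z
    simp only [Pi.neg_apply]
    ring
  · refine h5.congr fun n => ?_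
    rw [← eLpNorm_neg]
    congr 1
    ext1 z
    simp only [Pi.neg_apply, B07a_gradient_neg]
    ring

theorem B07a_EqnS_neg {Ω : Set ℂ} {W v : ℂ → ℝ} {G : ℂ → ℂ} (h : EqnS Ω G (fun z => W z * v z)) :
    EqnS Ω (fun z => -G z) (fun z => W z * -v z) := by
  intro ζ h1 h2
  have := h ζ h1 h2
  have e1 : ∀ z, inner ℝ (-G z) (gradient ζ z) = -inner ℝ (G z) (gradient ζ z) := fun z => by
    rw [inner_neg_left]
  have e2 : ∀ z, W z * -v z * ζ z = -(W z * v z * ζ z) := fun z => by ring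
  simp only [e1, e2, integral_neg, this]

/-- the barrier `c bet^(3/4)`, `c > 0` -/
theorem B07a_bar {Ω : Set ℂ} (hD : Ω ⊆ DD) {c : ℝ} (hc : 0 < c) :
    SupS Ω (gradient (fun z => c * (2 * bet z ^ (3 / 4 : ℝ)))) (fun _ => c) := by
  intro ζ h1 h2 h3
  have hT := B07a_Tst_mono hD h1
  have h := bet_bar ζ hT h3
  have e : ∀ z, inner ℝ (gradient (fun z => c * (2 * bet z ^ (3 / 4 : ℝ))) z) (gradient ζ z)
      = c * inner ℝ (gradient (fun z => 2 * bet z ^ (3 / 4 : ℝ)) z) (gradient ζ z) := by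
    intro z
    have : gradient (fun z => c * (2 * bet z ^ (3 / 4 : ℝ))) z
        = c • gradient (fun z => 2 * bet z ^ (3 / 4 : ℝ)) z := by
      unfold gradient
      have h5 : (fun z => c * (2 * bet z ^ (3 / 4 : ℝ)))
          = c • (fun z => 2 * bet z ^ (3 / 4 : ℝ)) := by
        ext z
        simp
      rw [h5, fderiv_const_smul_field]
      simp
    rw [this, real_inner_smul_left]
  simp only [e, integral_const_mul]
  simp only [one_mul] at h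
  exact mul_le_mul_of_nonneg_left h hc.le

theorem B07a_vol_DD : volume DD < ⊤ := by
  have : DD ⊆ Metric.closedBall (0 : ℂ) 2 := by
    intro z hz
    rw [mem_closedBall_zero_iff]
    have := Complex.norm_le_abs_re_add_abs_im z
    linarith [hz.1, hz.2]
  exact (measure_mono this).trans_lt measure_closedBall_lt_top

/-- one sided bound -/
theorem B07a_one {C₁ C₂ : ℝ} (hC₁ : 0 < C₁)
    (h₁ : ∀ (v : ℂ → ℝ) (G : ℂ → ℂ), W1 DD v G →
      MemLp v 4 volume ∧ ∫ z, v z ^ 4 ≤ C₁ * (∫ z, ‖G z‖ ^ 2) ^ 2) (hC₂ : 0 < C₂)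
    (h₂ : ∀ (Ω : Set ℂ), IsOpen Ω → Ω ⊆ DD → (∀ z ∈ Ω, I * z ∈ Ω) →
      ∀ (v f : ℂ → ℝ) (G : ℂ → ℂ), W1 Ω v G → MemLp f 3 (volume.restrict Ω) → SubS Ω G f →
      ∀ᵐ z, v z ≤ C₂ * (eLpNorm f 3 (volume.restrict Ω)).toReal) :
    ∃ M : ℝ, 0 < M ∧ ∀ (Ω : Set ℂ), IsOpen Ω → Ω ⊆ DD → (∀ z ∈ Ω, I * z ∈ Ω) →
    ∀ (v W : ℂ → ℝ) (G : ℂ → ℂ), W1 Ω v G → AEStronglyMeasurable W (volume.restrict DD) →
      (∀ᵐ z, z ∈ DD → 0 ≤ W z ∧ W z ≤ 60) → EqnS Ω G (fun z => W z * v z) →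
      ∫ z, ‖G z‖ ^ 2 ≤ 4 → MemLp (fun z => W z * v z) 2 (volume.restrict Ω) ∧
        ∀ᵐ z, v z ≤ M := by
  set K : ENNReal := ENNReal.ofReal 60 * (ENNReal.ofReal ((C₁ * 16) ^ ((1 : ℝ) / 4)) *
    (volume DD) ^ (1 / (3 : ENNReal).toReal - 1 / (4 : ENNReal).toReal)) with hK
  have hKt : K ≠ ⊤ := by
    rw [hK]
    refine ENNReal.mul_ne_top ENNReal.ofReal_ne_top (ENNReal.mul_ne_top ENNReal.ofReal_ne_top ?_)
    refine ENNReal.rpow_ne_top_of_nonneg ?_ B07a_vol_DD.ne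
    norm_num
  refine ⟨C₂ * (K.toReal + 1), by positivity, ?_⟩
  intro Ω hΩ hD hI v W G hv hWm hW heq hG
  obtain ⟨h4, hi⟩ := h₁ v G (B07a_W1_mono hD hv)
  have hfin : IsFiniteMeasure (volume.restrict Ω) := by
    constructor
    rw [Measure.restrict_apply_univ]
    exact (measure_mono hD).trans_lt B07a_vol_DD
  have hWm' : AEStronglyMeasurable W (volume.restrict Ω) :=
    hWm.mono_measure (Measure.restrict_mono hD le_rfl)
  have hWb : ∀ᵐ z ∂(volume.restrict Ω), 0 ≤ W z ∧ W z ≤ 60 := by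
    rw [ae_restrict_iff' hΩ.measurableSet]
    filter_upwards [hW] with z hz hzΩ
    exact hz (hD hzΩ)
  have hv4 : MemLp v 4 (volume.restrict Ω) := h4.restrict Ω
  have hle : ∀ᵐ z ∂(volume.restrict Ω), ‖W z * v z‖ ≤ 60 * ‖v z‖ := by
    filter_upwards [hWb] with z hz
    rw [norm_mul, Real.norm_eq_abs, abs_of_nonneg hz.1]
    exact mul_le_mul_of_nonneg_right hz.2 (norm_nonneg _)
  have hm : AEStronglyMeasurable (fun z => W z * v z) (volume.restrict Ω) := hWm'.mul hv4.1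
  have hp : ∀ p : ENNReal, p ≤ 4 → MemLp (fun z => W z * v z) p (volume.restrict Ω) := by
    intro p hp
    exact MemLp.of_le_mul (hv4.mono_exponent hp) hm hle
  refine ⟨hp 2 (by norm_num), ?_⟩
  have hsub : SubS Ω G (fun z => W z * v z) := fun ζ a b _ => (heq ζ a b).le
  have h3 := h₂ Ω hΩ hD hI v _ G hv (hp 3 (by norm_num)) hsub
  have hn : eLpNorm (fun z => W z * v z) 3 (volume.restrict Ω) ≤ K := by
    refine (eLpNorm_le_mul_eLpNorm_of_ae_le_mul hle 3).trans ?_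
    rw [hK]
    refine mul_le_mul_right ?_ _
    refine (eLpNorm_le_eLpNorm_mul_rpow_measure_univ (by norm_num : (3 : ENNReal) ≤ 4)
      hv4.1).trans ?_
    refine mul_le_mul' ?_ ?_
    · refine (eLpNorm_mono_measure _ Measure.restrict_le_self).trans ?_
      rw [h4.eLpNorm_eq_integral_rpow_norm (by norm_num) (by norm_num)]
      refine ENNReal.ofReal_le_ofReal ?_
      have e1 : (4 : ENNReal).toReal = 4 := by norm_num
      rw [e1, inv_eq_one_div]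
      refine Real.rpow_le_rpow (integral_nonneg fun z => by positivity) ?_ (by norm_num)
      have e2 : ∀ z, ‖v z‖ ^ (4 : ℝ) = v z ^ 4 := fun z => by
        have : ‖v z‖ ^ (4 : ℝ) = ‖v z‖ ^ (4 : ℕ) := by
          rw [← Real.rpow_natCast]
          norm_num
        rw [this, Real.norm_eq_abs, Even.pow_abs (by decide)]
      simp only [e2]
      refine hi.trans (mul_le_mul_of_nonneg_left ?_ hC₁.le)
      have h0 : 0 ≤ ∫ z, ‖G z‖ ^ 2 := integral_nonneg fun z => by positivity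
      nlinarith
    · rw [Measure.restrict_apply_univ]
      exact ENNReal.rpow_le_rpow (measure_mono hD) (by norm_num)
  filter_upwards [h3] with z hz
  refine hz.trans (mul_le_mul_of_nonneg_left ?_ hC₂.le)
  have := ENNReal.toReal_mono hKt hn
  linarith

/-- (F1): sup bound by `sup_bound`, then `comp_weak` with the barrier `2 C bet^(3/4)` -/
theorem F1 : ∃ C : ℝ, 0 < C ∧ ∀ (Ω : Set ℂ), IsOpen Ω → Ω ⊆ DD → (∀ z ∈ Ω, I * z ∈ Ω) →
    ∀ (v W : ℂ → ℝ) (G : ℂ → ℂ), W1 Ω v G → AEStronglyMeasurable W (volume.restrict DD) →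
      (∀ᵐ z, z ∈ DD → 0 ≤ W z ∧ W z ≤ 60) → EqnS Ω G (fun z => W z * v z) →
      ∫ z, ‖G z‖ ^ 2 ≤ 4 → ∀ᵐ z, z ∈ DD → |v z| ≤ C * bet z ^ (3 / 4 : ℝ) := by
  obtain ⟨C₁, hC₁, h₁⟩ := W1_l4
  obtain ⟨C₂, hC₂, h₂⟩ := sup_bound
  obtain ⟨M, hM, hb⟩ := B07a_one hC₁ h₁ hC₂ h₂
  refine ⟨60 * M * 2, by positivity, ?_⟩
  have key : ∀ (Ω : Set ℂ), IsOpen Ω → Ω ⊆ DD → (∀ z ∈ Ω, I * z ∈ Ω) →
    ∀ (v W : ℂ → ℝ) (G : ℂ → ℂ), W1 Ω v G → AEStronglyMeasurable W (volume.restrict DD) →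
      (∀ᵐ z, z ∈ DD → 0 ≤ W z ∧ W z ≤ 60) → EqnS Ω G (fun z => W z * v z) →
      ∫ z, ‖G z‖ ^ 2 ≤ 4 → ∀ᵐ z, z ∈ DD → v z ≤ 60 * M * 2 * bet z ^ (3 / 4 : ℝ) := by
    intro Ω hΩ hD hI v W G hv hWm hW heq hG
    obtain ⟨hf2, hvM⟩ := hb Ω hΩ hD hI v W G hv hWm hW heq hG
    have hsub : SubS Ω G (fun z => W z * v z) := fun ζ a b _ => (heq ζ a b).le
    have hsmooth : ContDiffOn ℝ ∞ (fun z => 60 * M * (2 * bet z ^ (3 / 4 : ℝ))) Ω := by
      have h1 : ContDiffOn ℝ ∞ (fun z => 2 * bet z ^ (3 / 4 : ℝ)) DD :=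
        (contDiff_const (c := (2 : ℝ))).contDiffOn.mul (bet_pow_smooth _)
      exact ((contDiff_const (c := 60 * M)).contDiffOn.mul h1).mono hD
    have hbet : ∀ z, bet (I * z) = bet z := by
      intro z
      unfold bet
      have e1 : (I * z).re = -z.im := by simp
      have e2 : (I * z).im = z.re := by simp
      rw [e1, e2, mul_neg, Real.cos_neg, mul_comm]
    have hcomp := comp_weak hΩ hD hI (ψ := fun z => 60 * M * (2 * bet z ^ (3 / 4 : ℝ)))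
      (g := fun _ => 60 * M) hv hf2 hsub hsmooth
      (fun z hz => by
        have := (bet_pos (hD hz)).1
        positivity)
      (fun z _ => by simp only [hbet]) continuousOn_const (B07a_bar hD (by positivity))
      (by
        filter_upwards [hvM, hW] with z h1 h2 hzΩ
        obtain ⟨a, b⟩ := h2 (hD hzΩ)
        rcases le_or_gt 0 (v z) with h | h
        · exact mul_le_mul b h1 h (by norm_num)
        · have : W z * v z ≤ 0 := mul_nonpos_of_nonneg_of_nonpos a h.le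
          have : 0 < 60 * M := by positivity
          linarith)
    have hoff := (W1_off hΩ.measurableSet hv).2.2
    filter_upwards [hcomp, hoff] with z h1 h2 hzD
    by_cases hz : z ∈ Ω
    · have := h1 hz
      linarith
    · rw [(h2 hz).1]
      have := (bet_pos hzD).1
      positivity
  intro Ω hΩ hD hI v W G hv hWm hW heq hG
  have k1 := key Ω hΩ hD hI v W G hv hWm hW heq hG
  have k2 := key Ω hΩ hD hI (fun z => -v z) W (fun z => -G z) (B07a_W1_neg hv) hWm hW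
    (B07a_EqnS_neg heq) (by simpa only [norm_neg] using hG)
  filter_upwards [k1, k2] with z h1 h2 hz
  exact abs_le.2 ⟨by linarith [h2 hz], h1 hz⟩

end Pool.Agent.H87.LE
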