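import Pool.Agent.H87.LE.A01_Green
import Pool.Agent.H87.LE.B05_Expl

open MeasureTheory Complex Set Filter Topology
open scoped ContDiff Laplacian

namespace Pool.Agent.H87.LE

/-! # B07b: sup closeness away from `0` -/

theorem b07b_DD_open : IsOpen DD := by
  exact IsOpen.inter (isOpen_lt (continuous_abs.comp Complex.continuous_re) continuous_const)
    (isOpen_lt (continuous_abs.comp Complex.continuous_im) continuous_const)

theorem b07b_normsq (z : ℂ) : ‖z‖ ^ 2 = z.re ^ 2 + z.im ^ 2 := by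
  rw [← Complex.normSq_eq_norm_sq, Complex.normSq_apply]
  ring

theorem b07b_norm_lt {z : ℂ} (hz : z ∈ DD) : ‖z‖ ^ 2 < 2 := by
  rw [b07b_normsq]
  have h1 := (sq_lt_one_iff_abs_lt_one z.re).2 hz.1
  have h2 := (sq_lt_one_iff_abs_lt_one z.im).2 hz.2
  linarith

theorem b07b_DD_fin : volume DD < ⊤ := by
  have : DD ⊆ Metric.closedBall 0 2 := by
    intro z hz
    have := b07b_norm_lt hz
    simp only [Metric.mem_closedBall, dist_zero_right]
    nlinarith [norm_nonneg z]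
  exact lt_of_le_of_lt (measure_mono this) measure_closedBall_lt_top

instance b07b_inst : IsFiniteMeasure (volume.restrict DD) :=
  ⟨by rw [Measure.restrict_apply_univ]; exact b07b_DD_fin⟩

theorem b07b_l3 : ∃ A : ℝ, 0 < A ∧ ∀ x : HH, MemLp (fn x) 3 (volume.restrict DD) ∧
    (eLpNorm (fn x) 3 (volume.restrict DD)).toReal ≤ A * ‖x‖ := by
  obtain ⟨C, hC, h4⟩ := fn_l4
  set D : ℝ := ((volume.restrict DD) univ ^ ((1 / (3 : ENNReal).toReal) - (1 / (4 : ENNReal).toReal))).toReal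
    with hD
  refine ⟨C ^ (1 / 4 : ℝ) * D + 1, by positivity, fun x => ?_⟩
  obtain ⟨h1, h2⟩ := h4 x
  have h3 : MemLp (fn x) 4 (volume.restrict DD) := h1.restrict _
  refine ⟨h3.mono_exponent (by norm_num), ?_⟩
  have h5 := eLpNorm_le_eLpNorm_mul_rpow_measure_univ (p := 3) (q := 4) (by norm_num)
    h3.aestronglyMeasurable
  have h6 : (volume.restrict DD) univ ^ ((1 / (3 : ENNReal).toReal) - (1 / (4 : ENNReal).toReal)) ≠ ⊤ := by
    apply ENNReal.rpow_ne_top_of_nonneg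
    · norm_num
    · exact measure_ne_top _ _
  have h7 : (eLpNorm (fn x) 3 (volume.restrict DD)).toReal ≤
      (eLpNorm (fn x) 4 (volume.restrict DD)).toReal * D := by
    rw [hD, ← ENNReal.toReal_mul]
    exact ENNReal.toReal_mono (ENNReal.mul_ne_top h3.2.ne h6) h5
  have h8 : (eLpNorm (fn x) 4 (volume.restrict DD)).toReal ≤ (eLpNorm (fn x) 4 volume).toReal :=
    ENNReal.toReal_mono h1.2.ne (eLpNorm_mono_measure _ Measure.restrict_le_self)
  have h9 : (eLpNorm (fn x) 4 volume).toReal ≤ C ^ (1 / 4 : ℝ) * ‖x‖ := by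
    rw [MemLp.eLpNorm_eq_integral_rpow_norm (by norm_num) (by norm_num) h1]
    rw [ENNReal.toReal_ofReal (by positivity)]
    have e1 : (4 : ENNReal).toReal = 4 := by norm_num
    rw [e1]
    have e2 : ∫ a, ‖fn x a‖ ^ (4 : ℝ) = ∫ a, fn x a ^ 4 := by
      congr 1
      funext a
      rw [show (4 : ℝ) = ((4 : ℕ) : ℝ) by norm_num, Real.rpow_natCast, Real.norm_eq_abs]
      exact Even.pow_abs (by decide) _
    rw [e2]
    have e3 : 0 ≤ ∫ a, fn x a ^ 4 := integral_nonneg fun a => by positivity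
    calc (∫ a, fn x a ^ 4) ^ (4 : ℝ)⁻¹ ≤ (C * ‖x‖ ^ 4) ^ (4 : ℝ)⁻¹ :=
          Real.rpow_le_rpow e3 h2 (by norm_num)
      _ = C ^ (1 / 4 : ℝ) * ‖x‖ := by
          rw [Real.mul_rpow hC.le (by positivity)]
          congr 1
          · norm_num
          · rw [← Real.rpow_natCast, ← Real.rpow_mul (norm_nonneg _)]
            norm_num
  have hD0 : 0 ≤ D := ENNReal.toReal_nonneg
  have hx := norm_nonneg x
  calc (eLpNorm (fn x) 3 (volume.restrict DD)).toReal
      ≤ (eLpNorm (fn x) 4 (volume.restrict DD)).toReal * D := h7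
    _ ≤ (C ^ (1 / 4 : ℝ) * ‖x‖) * D := by gcongr; exact h8.trans h9
    _ ≤ (C ^ (1 / 4 : ℝ) * D + 1) * ‖x‖ := by nlinarith

/-! ## the logarithmic barrier -/

/-- `log (4 / (‖z‖² + s²))` up to the constant -/
noncomputable def b07b_L (s : ℝ) (z : ℂ) : ℝ := Real.log (‖z‖ ^ 2 + s ^ 2)

theorem b07b_pos {s : ℝ} (hs : 0 < s) (z : ℂ) : 0 < ‖z‖ ^ 2 + s ^ 2 := by positivity

theorem b07b_L_smooth {s : ℝ} (hs : 0 < s) : ContDiff ℝ ∞ (b07b_L s) := by
  unfold b07b_L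
  have : ContDiff ℝ ∞ (fun z : ℂ => ‖z‖ ^ 2 + s ^ 2) := (contDiff_norm_sq ℝ).add contDiff_const
  exact this.log fun z => (b07b_pos hs z).ne'

theorem b07b_L_fderiv {s : ℝ} (hs : 0 < s) (z : ℂ) :
    HasFDerivAt (b07b_L s) ((2 * (‖z‖ ^ 2 + s ^ 2)⁻¹) • (innerSL ℝ z)) z := by
  have h1 : HasFDerivAt (fun z : ℂ => ‖z‖ ^ 2) (2 • (innerSL ℝ z)) z :=
    (hasStrictFDerivAt_norm_sq z).hasFDerivAt
  have h2 := (h1.add_const (s ^ 2)).log (b07b_pos hs z).ne'
  refine h2.congr_fderiv ?_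
  ext v
  simp
  ring

theorem b07b_L_fderiv2 {s : ℝ} (hs : 0 < s) (z v : ℂ) :
    fderiv ℝ (fderiv ℝ (b07b_L s)) z v v =
      2 * (‖z‖ ^ 2 + s ^ 2)⁻¹ * ‖v‖ ^ 2 - 4 * ((‖z‖ ^ 2 + s ^ 2)⁻¹) ^ 2 * (inner ℝ z v) ^ 2 := by
  have hev : fderiv ℝ (b07b_L s) = fun y => (2 * (‖y‖ ^ 2 + s ^ 2)⁻¹) • (innerSL ℝ y) := by
    funext y
    exact (b07b_L_fderiv hs y).fderiv
  rw [hev]
  have h0 : HasFDerivAt (fun z : ℂ => ‖z‖ ^ 2) (2 • (innerSL ℝ z)) z :=
    (hasStrictFDerivAt_norm_sq z).hasFDerivAt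
  have h1 := ((hasDerivAt_inv (b07b_pos hs z).ne').comp_hasFDerivAt z
    (h0.add_const (s ^ 2))).const_mul (2 : ℝ)
  have h2 : HasFDerivAt (fun y : ℂ => innerSL ℝ y) (innerSL ℝ) z := (innerSL ℝ).hasFDerivAt
  have h3 : HasFDerivAt (fun y : ℂ => (2 * (‖y‖ ^ 2 + s ^ 2)⁻¹) • (innerSL ℝ) y) _ z := h1.smul h2
  rw [h3.fderiv]
  simp only [_root_.add_apply, _root_.smul_apply, ContinuousLinearMap.smulRight_apply,
    innerSL_apply_apply, smul_eq_mul]
  have h5 : ((innerSL ℝ) v) v = ‖v‖ ^ 2 := by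
    rw [← real_inner_self_eq_norm_sq]; rfl
  rw [h5]
  simp
  ring

theorem b07b_laplacian_eq (f : ℂ → ℝ) (z : ℂ) :
    Δ f z = fderiv ℝ (fderiv ℝ f) z 1 1 + fderiv ℝ (fderiv ℝ f) z I I := by
  rw [InnerProductSpace.laplacian_eq_iteratedFDeriv_complexPlane]
  simp only [iteratedFDeriv_two_apply]
  simp

theorem b07b_L_lap {s : ℝ} (hs : 0 < s) (z : ℂ) : 0 ≤ Δ (b07b_L s) z := by
  rw [b07b_laplacian_eq, b07b_L_fderiv2 hs, b07b_L_fderiv2 hs]
  have h1 : inner ℝ z (1 : ℂ) = z.re := by simp [Complex.inner]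
  have h2 : inner ℝ z I = z.im := by simp [Complex.inner]
  rw [h1, h2]
  simp only [norm_one, Complex.norm_I, one_pow, mul_one]
  have hp := b07b_pos hs z
  have h3 := b07b_normsq z
  set a := (‖z‖ ^ 2 + s ^ 2)⁻¹ with ha
  have ha0 : 0 < a := inv_pos.2 hp
  have h4 : a * (‖z‖ ^ 2 + s ^ 2) = 1 := inv_mul_cancel₀ hp.ne'
  have : 2 * a - 4 * a ^ 2 * z.re ^ 2 + (2 * a - 4 * a ^ 2 * z.im ^ 2) = 4 * a * (1 - a * ‖z‖ ^ 2) := by
    rw [h3]; ring
  rw [this]
  apply mul_nonneg (by positivity)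
  nlinarith [mul_pos ha0 (pow_pos hs 2)]

/-- the barrier -/
noncomputable def b07b_psi (c s : ℝ) (z : ℂ) : ℝ := c * (Real.log 4 - b07b_L s z)

theorem b07b_psi_smooth (c : ℝ) {s : ℝ} (hs : 0 < s) : ContDiff ℝ ∞ (b07b_psi c s) := by
  unfold b07b_psi
  exact contDiff_const.mul (contDiff_const.sub (b07b_L_smooth hs))

theorem b07b_psi_lap {c s : ℝ} (hc : 0 ≤ c) (hs : 0 < s) (z : ℂ) : Δ (b07b_psi c s) z ≤ 0 := by
  have h1 : fderiv ℝ (b07b_psi c s) = fun y => (-c) • fderiv ℝ (b07b_L s) y := by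
    funext y
    have := (((b07b_L_fderiv hs y).const_sub (Real.log 4)).const_mul c).fderiv
    rw [show b07b_psi c s = fun y => c * (Real.log 4 - b07b_L s y) from rfl, this,
      (b07b_L_fderiv hs y).fderiv]
    ext v
    simp
  have h2 : DifferentiableAt ℝ (fderiv ℝ (b07b_L s)) z :=
    ((b07b_L_smooth hs).fderiv_right (m := 1) (by norm_cast)).differentiable (by norm_num) z
  have h3 : ∀ v, fderiv ℝ (fderiv ℝ (b07b_psi c s)) z v v = -c * fderiv ℝ (fderiv ℝ (b07b_L s)) z v v := by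
    intro v
    have h4 : fderiv ℝ (fun y => (-c) • fderiv ℝ (b07b_L s) y) z =
        (-c) • fderiv ℝ (fderiv ℝ (b07b_L s)) z := (h2.hasFDerivAt.const_smul (-c)).fderiv
    rw [h1, h4]
    simp
  rw [b07b_laplacian_eq, h3, h3]
  have := b07b_L_lap hs z
  rw [b07b_laplacian_eq] at this
  nlinarith

theorem b07b_psi_rot (c s : ℝ) (z : ℂ) : b07b_psi c s (I * z) = b07b_psi c s z := by
  unfold b07b_psi b07b_L
  simp

theorem b07b_psi_nonneg {c s : ℝ} (hc : 0 ≤ c) (hs : 0 < s) (hs1 : s ≤ 1) {z : ℂ} (hz : z ∈ DD) :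
    0 ≤ b07b_psi c s z := by
  unfold b07b_psi b07b_L
  apply mul_nonneg hc
  have h1 := b07b_norm_lt hz
  have : Real.log (‖z‖ ^ 2 + s ^ 2) ≤ Real.log 4 :=
    Real.log_le_log (b07b_pos hs z) (by nlinarith)
  linarith

/-- the cutoff -/
noncomputable def b07b_chi (s : ℝ) (z : ℂ) : ℝ :=
  Real.smoothTransition ((‖z‖ ^ 2 - 9 / 4 * s ^ 2) / (7 / 4 * s ^ 2))

theorem b07b_chi_smooth (s : ℝ) : ContDiff ℝ ∞ (b07b_chi s) := by
  unfold b07b_chi
  have : ContDiff ℝ ∞ (fun z : ℂ => ‖z‖ ^ 2) := contDiff_norm_sq ℝ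
  exact Real.smoothTransition.contDiff.comp ((this.sub contDiff_const).div_const _)

theorem b07b_chi_rot (s : ℝ) : Rot (b07b_chi s) := by
  intro z
  unfold b07b_chi
  simp

theorem b07b_chi_one {s : ℝ} (hs : 0 < s) {z : ℂ} (hz : 2 * s ≤ ‖z‖) : b07b_chi s z = 1 := by
  unfold b07b_chi
  apply Real.smoothTransition.one_of_one_le
  rw [le_div_iff₀ (by positivity)]
  nlinarith

theorem b07b_chi_supp {s : ℝ} (hs : 0 < s) {z : ℂ} (hz : z ∈ tsupport (b07b_chi s)) : s < ‖z‖ := by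
  have hcl : IsClosed {z : ℂ | 9 / 4 * s ^ 2 ≤ ‖z‖ ^ 2} :=
    isClosed_le continuous_const (continuous_norm.pow 2)
  have hsub : tsupport (b07b_chi s) ⊆ {z : ℂ | 9 / 4 * s ^ 2 ≤ ‖z‖ ^ 2} := by
    apply closure_minimal _ hcl
    intro w hw
    by_contra hcon
    apply hw
    simp only [mem_ofPred_eq, not_le] at hcon
    unfold b07b_chi
    apply Real.smoothTransition.zero_of_nonpos
    apply div_nonpos_of_nonpos_of_nonneg
    · linarith
    · positivity
  have h := hsub hz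
  simp only [mem_ofPred_eq] at h
  by_contra hcon
  push Not at hcon
  nlinarith [norm_nonneg z, pow_pos hs 2]

/-! ## elements of the Hilbert space -/

theorem b07b_fn_sub (x y : HH) : ∀ᵐ z, fn (x - y) z = fn x z - fn y z := by
  have h : fn (x - y) = fn x - fn y := map_sub _ _ _
  rw [h]
  exact Lp.coeFn_sub (fn x) (fn y)

theorem b07b_fn_neg (x : HH) : ∀ᵐ z, fn (-x) z = -fn x z := by
  have h : fn (-x) = -fn x := map_neg _ _
  rw [h]
  exact Lp.coeFn_neg (fn x)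

theorem b07b_gr_sub (x y : HH) : ∀ᵐ z, gr (x - y) z = gr x z - gr y z := by
  unfold gr
  exact Lp.coeFn_sub (toLC x) (toLC y)

theorem b07b_gr_neg (x : HH) : ∀ᵐ z, gr (-x) z = -gr x z := by
  unfold gr
  exact Lp.coeFn_neg (toLC x)

theorem b07b_EqnS_neg {Ω : Set ℂ} {x : HH} {f g : ℂ → ℝ} (h : EqnS Ω (gr x) f)
    (hg : ∀ᵐ z, g z = -f z) : EqnS Ω (gr (-x)) g := by
  intro ζ h1 h2
  have h3 := h ζ h1 h2
  have e1 : ∫ z, inner ℝ (gr (-x) z) (gradient ζ z) = ∫ z, -inner ℝ (gr x z) (gradient ζ z) := by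
    apply integral_congr_ae
    filter_upwards [b07b_gr_neg x] with z hz
    rw [hz, inner_neg_left]
  have e2 : ∫ z, g z * ζ z = ∫ z, -(f z * ζ z) := by
    apply integral_congr_ae
    filter_upwards [hg] with z hz
    rw [hz]; ring
  rw [e1, e2, integral_neg, integral_neg, h3]

theorem b07b_EqnS_SubS {Ω : Set ℂ} {G : ℂ → ℂ} {f : ℂ → ℝ} (h : EqnS Ω G f) : SubS Ω G f :=
  fun ζ h1 h2 _ => (h ζ h1 h2).le

theorem b07b_EqnS_SupS {Ω : Set ℂ} {G : ℂ → ℂ} {f : ℂ → ℝ} (h : EqnS Ω G f) : SupS Ω G f :=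
  fun ζ h1 h2 _ => (h ζ h1 h2).ge

theorem b07b_aeDD {p : ℂ → Prop} (h : ∀ᵐ z, z ∈ DD → p z) : ∀ᵐ z ∂(volume.restrict DD), p z := by
  rw [ae_restrict_iff' b07b_DD_open.measurableSet]
  exact h

theorem b07b_W3 {W : ℂ → ℝ} (hWm : AEStronglyMeasurable W (volume.restrict DD))
    (hW : ∀ᵐ z, z ∈ DD → 0 ≤ W z ∧ W z ≤ 60) (x : HH) :
    MemLp (fun z => W z * fn x z) 3 (volume.restrict DD) ∧
    (eLpNorm (fun z => W z * fn x z) 3 (volume.restrict DD)).toReal ≤
      60 * (eLpNorm (fn x) 3 (volume.restrict DD)).toReal := by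
  obtain ⟨A, hA, h3⟩ := b07b_l3
  have h1 := (h3 x).1
  have hb : ∀ᵐ z ∂(volume.restrict DD), ‖W z * fn x z‖ ≤ 60 * ‖fn x z‖ := by
    filter_upwards [b07b_aeDD hW] with z hz
    rw [norm_mul]
    apply mul_le_mul_of_nonneg_right _ (norm_nonneg _)
    rw [Real.norm_eq_abs, abs_of_nonneg hz.1]
    exact hz.2
  have hm : MemLp (fun z => W z * fn x z) 3 (volume.restrict DD) :=
    MemLp.of_le_mul h1 (hWm.mul h1.aestronglyMeasurable) hb
  refine ⟨hm, ?_⟩
  have h4 := eLpNorm_le_mul_eLpNorm_of_ae_le_mul hb 3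
  calc (eLpNorm (fun z => W z * fn x z) 3 (volume.restrict DD)).toReal
      ≤ (ENNReal.ofReal 60 * eLpNorm (fn x) 3 (volume.restrict DD)).toReal :=
        ENNReal.toReal_mono (ENNReal.mul_ne_top (by simp) h1.2.ne) h4
    _ = 60 * (eLpNorm (fn x) 3 (volume.restrict DD)).toReal := by
        rw [ENNReal.toReal_mul, ENNReal.toReal_ofReal (by norm_num)]

theorem b07b_sup1 : ∃ M : ℝ, 0 < M ∧ ∀ (Ω : Set ℂ), IsOpen Ω → Ω ⊆ DD → (∀ z ∈ Ω, I * z ∈ Ω) →
    ∀ (x : HH) (W : ℂ → ℝ), x ∈ V Ω → AEStronglyMeasurable W (volume.restrict DD) →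
      (∀ᵐ z, z ∈ DD → 0 ≤ W z ∧ W z ≤ 60) → EqnS Ω (gr x) (fun z => W z * fn x z) → ‖x‖ ≤ 2 →
      ∀ᵐ z, fn x z ≤ M := by
  obtain ⟨C, hC, hs⟩ := sup_bound
  obtain ⟨A, hA, h3⟩ := b07b_l3
  refine ⟨C * (60 * (A * 2)), by positivity, ?_⟩
  intro Ω hΩ hD hI x W hx hWm hW he hn
  have h1 := b07b_W3 hWm hW x
  have h2 := hs Ω hΩ hD hI (fn x) (fun z => W z * fn x z) (gr x) (V_approx hD hx)
    (h1.1.mono_measure (Measure.restrict_mono hD le_rfl)) (b07b_EqnS_SubS he)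
  have h4 : (eLpNorm (fun z => W z * fn x z) 3 (volume.restrict Ω)).toReal ≤ 60 * (A * 2) := by
    calc (eLpNorm (fun z => W z * fn x z) 3 (volume.restrict Ω)).toReal
        ≤ (eLpNorm (fun z => W z * fn x z) 3 (volume.restrict DD)).toReal :=
          ENNReal.toReal_mono h1.1.2.ne (eLpNorm_mono_measure _ (Measure.restrict_mono hD le_rfl))
      _ ≤ 60 * (eLpNorm (fn x) 3 (volume.restrict DD)).toReal := h1.2
      _ ≤ 60 * (A * 2) := by
          have := (h3 x).2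
          nlinarith
  filter_upwards [h2] with z hz
  exact hz.trans (mul_le_mul_of_nonneg_left h4 hC.le)

theorem b07b_sup : ∃ M : ℝ, 0 < M ∧ ∀ (Ω : Set ℂ), IsOpen Ω → Ω ⊆ DD → (∀ z ∈ Ω, I * z ∈ Ω) →
    ∀ (x : HH) (W : ℂ → ℝ), x ∈ V Ω → AEStronglyMeasurable W (volume.restrict DD) →
      (∀ᵐ z, z ∈ DD → 0 ≤ W z ∧ W z ≤ 60) → EqnS Ω (gr x) (fun z => W z * fn x z) → ‖x‖ ≤ 2 →
      ∀ᵐ z, |fn x z| ≤ M := by
  obtain ⟨M, hM, h⟩ := b07b_sup1
  refine ⟨M, hM, ?_⟩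
  intro Ω hΩ hD hI x W hx hWm hW he hn
  have h1 := h Ω hΩ hD hI x W hx hWm hW he hn
  have he' : EqnS Ω (gr (-x)) (fun z => W z * fn (-x) z) := by
    apply b07b_EqnS_neg he
    filter_upwards [b07b_fn_neg x] with z hz
    rw [hz]; ring
  have h2 := h Ω hΩ hD hI (-x) W (neg_mem hx) hWm hW he' (by rwa [norm_neg])
  filter_upwards [h1, h2, b07b_fn_neg x] with z a b c
  rw [c] at b
  exact abs_le.2 ⟨by linarith, a⟩

theorem b07b_e2_bound : ∃ M : ℝ, 0 < M ∧ ∀ᵐ z, |fn e2 z| ≤ M := by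
  obtain ⟨c, hc, _, h2, _⟩ := e2_spec
  refine ⟨c * 4, by positivity, ?_⟩
  filter_upwards [h2] with z hz
  rw [hz]
  by_cases hD : z ∈ DD
  · rw [indicator_of_mem hD, abs_mul, abs_of_pos hc]
    apply mul_le_mul_of_nonneg_left _ hc.le
    unfold phi0
    have a1 := Real.abs_sin_le_one (Real.pi * z.re)
    have a2 := Real.abs_sin_le_one (Real.pi * z.im)
    have a3 := Real.abs_cos_le_one (Real.pi * z.re)
    have a4 := Real.abs_cos_le_one (Real.pi * z.im)
    rw [abs_mul, abs_mul, abs_abs, abs_mul]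
    have a5 := abs_add_le (Real.cos (Real.pi * z.re)) (Real.cos (Real.pi * z.im))
    have a6 : |Real.sin (Real.pi * z.re)| * |Real.sin (Real.pi * z.im)| ≤ 1 :=
      mul_le_one₀ a1 (abs_nonneg _) a2
    have a7 : |(2 : ℝ)| = 2 := by norm_num
    rw [a7]
    calc 2 * (|Real.sin (Real.pi * z.re)| * |Real.sin (Real.pi * z.im)|) *
          |Real.cos (Real.pi * z.re) + Real.cos (Real.pi * z.im)|
        ≤ 2 * 1 * 2 := by
          gcongr
          linarith
      _ = 4 := by norm_num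
  · rw [indicator_of_notMem hD]
    simp
    positivity

/-- the equation of the difference -/
theorem b07b_diff_eqn {E Ω₂ : Set ℂ} (hE : IsClosed E) (h₂ : IsOpen Ω₂) (h1 : Ω₂ ⊆ DD \ E)
    (h2 : Ω₂ ⊆ DD \ Axs) {x : HH} {W : ℂ → ℝ} (hWm : AEStronglyMeasurable W (volume.restrict DD))
    (hW : ∀ᵐ z, z ∈ DD → 0 ≤ W z ∧ W z ≤ 60) (he : EqnS (DD \ E) (gr x) (fun z => W z * fn x z)) :
    EqnS Ω₂ (gr (x - e2)) (fun z => W z * fn x z - 5 * Real.pi ^ 2 * fn e2 z) := by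
  have hf1 : MemLp (fun z => W z * fn x z) 2 (volume.restrict DD) :=
    (b07b_W3 hWm hW x).1.mono_exponent (by norm_num)
  have hf2 : MemLp (fun z => 5 * Real.pi ^ 2 * fn e2 z) 2 (volume.restrict DD) :=
    ((b07b_l3.choose_spec.2 e2).1.mono_exponent (by norm_num)).const_mul _
  have hop : IsOpen (DD \ E) := b07b_DD_open.sdiff hE
  refine (eqn_iff (f := fun z => W z * fn x z - 5 * Real.pi ^ 2 * fn e2 z) h₂
    (h1.trans sdiff_subset) (x - e2) (hf1.sub hf2)).2 ?_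
  intro y hy
  have hy1 : y ∈ V (DD \ E) := V_mono h1 hy
  have hy2 : y ∈ V (DD \ Axs) := V_mono h2 hy
  have a1 := (eqn_iff hop sdiff_subset x hf1).1 he y hy1
  obtain ⟨c, hc, _, _, _, _, _, h9⟩ := e2_spec
  have a2 := h9 y hy2
  have hfy : MemLp (fn y) 2 (volume.restrict DD) := (Lp.memLp (fn y)).restrict _
  have i1 : IntegrableOn (fun z => W z * fn x z * fn y z) DD := hf1.integrable_mul hfy
  have i2 : IntegrableOn (fun z => 5 * Real.pi ^ 2 * fn e2 z * fn y z) DD := hf2.integrable_mul hfy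
  have key : ∀ f : ℂ → ℝ, ∫ z, f z * fn y z = ∫ z in DD, f z * fn y z := by
    intro f
    symm
    apply setIntegral_eq_integral_of_ae_compl_eq_zero
    filter_upwards [fn_off y] with z hz hz'
    rw [hz hz', mul_zero]
  rw [inner_sub_left, a1, a2, key, key]
  have : ∫ z in DD, (W z * fn x z - 5 * Real.pi ^ 2 * fn e2 z) * fn y z =
      ∫ z in DD, (W z * fn x z * fn y z - 5 * Real.pi ^ 2 * fn e2 z * fn y z) := by
    congr 1
    funext z
    ring
  rw [this, integral_sub i1 i2, ← integral_const_mul]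
  congr 2
  funext z
  ring

/-! ## geometry -/

theorem b07b_Axs_closed : IsClosed Axs :=
  isClosed_eq (Complex.continuous_re.mul Complex.continuous_im) continuous_const

theorem b07b_I_DD {z : ℂ} (hz : z ∈ DD) : I * z ∈ DD := by
  obtain ⟨h1, h2⟩ := hz
  refine ⟨?_, ?_⟩
  · simpa using h2
  · simpa using h1

theorem b07b_I_Axs {z : ℂ} : I * z ∈ Axs ↔ z ∈ Axs := by
  unfold Axs
  simp only [mem_ofPred_eq, Complex.mul_re, Complex.mul_im, Complex.I_re, Complex.I_im]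
  constructor <;> intro h <;> nlinarith

theorem b07b_grad_cont {ψ : ℂ → ℝ} (h : ContDiff ℝ ∞ ψ) : Continuous (gradient ψ) := by
  have h1 : Continuous (fderiv ℝ ψ) := h.continuous_fderiv (by simp)
  exact (InnerProductSpace.toDual ℝ ℂ).symm.continuous.comp h1

theorem b07b_grad_int {ψ : ℂ → ℝ} (h : ContDiff ℝ ∞ ψ) {Ω : Set ℂ} (hΩ : Ω ⊆ DD) :
    IntegrableOn (fun z => ‖gradient ψ z‖ ^ 2) Ω := by
  have hsub : Ω ⊆ Metric.closedBall 0 2 := by
    intro z hz
    have := b07b_norm_lt (hΩ hz)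
    simp only [Metric.mem_closedBall, dist_zero_right]
    nlinarith [norm_nonneg z]
  have h1 : IntegrableOn (fun z => ‖gradient ψ z‖ ^ 2) (Metric.closedBall (0 : ℂ) 2) :=
    ((b07b_grad_cont h).norm.pow 2).continuousOn.integrableOn_compact (isCompact_closedBall _ _)
  exact h1.mono_set hsub

theorem b07b_log_s {s : ℝ} (hs : 0 < s) (hs1 : s ≤ 1 / 32) :
    0 < Real.log 2 - 2 * Real.log s ∧
      1 / 2 * (Real.log 2 - 2 * Real.log s) ≤ Real.log 4 - Real.log (5 * s ^ 2) := by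
  have h1 : Real.log s ≤ Real.log (1 / 32) := Real.log_le_log hs hs1
  have h2 : Real.log (1 / 32) = -(5 * Real.log 2) := by
    rw [one_div, Real.log_inv, show (32 : ℝ) = 2 ^ 5 by norm_num, Real.log_pow]
    norm_num
  have h3 : 0 < Real.log 2 := Real.log_pos (by norm_num)
  have h4 : Real.log 4 = 2 * Real.log 2 := by
    rw [show (4 : ℝ) = 2 ^ 2 by norm_num, Real.log_pow]
    norm_num
  have h5 : Real.log (5 * s ^ 2) = Real.log 5 + 2 * Real.log s := by
    rw [Real.log_mul (by norm_num) (by positivity), Real.log_pow]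
    norm_num
  have h6 : Real.log 5 ≤ 3 * Real.log 2 := by
    have : Real.log 5 ≤ Real.log (2 ^ 3) := Real.log_le_log (by norm_num) (by norm_num)
    rw [Real.log_pow] at this
    norm_num at this
    exact this
  refine ⟨by linarith, ?_⟩
  rw [h4, h5]
  linarith

/-- one sided comparison -/
theorem b07b_compare {s B : ℝ} (hs : 0 < s) (hs1 : s ≤ 1 / 32) (hB : 0 < B) {E : Set ℂ}
    (hE : IsClosed E) (hEI : ∀ z, I * z ∈ E ↔ z ∈ E)
    (hEA : E \ Metric.ball 0 s = Axs \ Metric.ball 0 s) {d k : HH} {g : ℂ → ℝ}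
    (hd : d ∈ V (DD \ (E ∩ Axs))) (hdB : ∀ᵐ z, |fn d z| ≤ B)
    (hg : MemLp g 2 (volume.restrict DD))
    (hde : EqnS (DD \ (Axs ∪ Metric.closedBall 0 s)) (gr d) g)
    (hk : EqnS DD (gr k) (fun z => |g z|)) (hk0 : ∀ᵐ z, 0 ≤ fn k z) :
    ∀ᵐ z, z ∈ DD → fn d z ≤
      fn k z + b07b_psi (2 * B / (Real.log 2 - 2 * Real.log s)) s z := by
  obtain ⟨hl1, hl2⟩ := b07b_log_s hs hs1
  set c : ℝ := 2 * B / (Real.log 2 - 2 * Real.log s) with hc
  have hc0 : 0 ≤ c := by positivity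
  have hDDm := b07b_DD_open.measurableSet
  have h₁ : IsOpen (DD \ (E ∩ Axs)) := b07b_DD_open.sdiff (hE.inter b07b_Axs_closed)
  have h₂ : IsOpen (DD \ (Axs ∪ Metric.closedBall 0 s)) :=
    b07b_DD_open.sdiff (b07b_Axs_closed.union Metric.isClosed_closedBall)
  have hD₁ : DD \ (E ∩ Axs) ⊆ DD := sdiff_subset
  have hD₂ : DD \ (Axs ∪ Metric.closedBall 0 s) ⊆ DD := sdiff_subset
  have hI₁ : ∀ z ∈ DD \ (E ∩ Axs), I * z ∈ DD \ (E ∩ Axs) := by
    intro z hz
    refine ⟨b07b_I_DD hz.1, fun h => hz.2 ⟨(hEI z).1 h.1, b07b_I_Axs.1 h.2⟩⟩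
  have hI₂ : ∀ z ∈ DD \ (Axs ∪ Metric.closedBall 0 s),
      I * z ∈ DD \ (Axs ∪ Metric.closedBall 0 s) := by
    intro z hz
    refine ⟨b07b_I_DD hz.1, fun h => hz.2 ?_⟩
    rcases h with h | h
    · exact Or.inl (b07b_I_Axs.1 h)
    · right
      simpa using h
  have hv : W1 (DD \ (E ∩ Axs)) (fn d) (gr d) := V_approx hD₁ hd
  have hkV : k ∈ V DD := by rw [V_top]; trivial
  have hw : W1 DD (fn k) (gr k) := V_approx le_rfl hkV
  have hψs := b07b_psi_smooth c hs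
  have hsup₁ : SupS (DD \ (Axs ∪ Metric.closedBall 0 s)) (gr k) (fun z => |g z|) := by
    intro ζ a1 a2 a3
    exact (hk ζ ⟨a1.1, a1.2.1, a1.2.2.trans hD₂⟩ a2).ge
  have hsup₂ : SupS (DD \ (Axs ∪ Metric.closedBall 0 s)) (gradient (b07b_psi c s)) (fun _ => 0) := by
    have := wsup_of_laplacian h₂ (ψ := b07b_psi c s) (g := fun _ => 0)
      ((hψs.of_le (by norm_cast)).contDiffOn) continuousOn_const
      (fun z _ => by have := b07b_psi_lap hc0 hs z; linarith)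
    intro ζ a1 a2 a3
    exact this ζ a1 a3
  have hg₁ : MemLp (fun z => |g z|) 2 (volume.restrict (DD \ (Axs ∪ Metric.closedBall 0 s))) :=
    hg.norm.mono_measure (Measure.restrict_mono hD₂ le_rfl)
  have hmain := comp_strong (v := fn d) (w := fn k) (ψ := b07b_psi c s) (χ := b07b_chi s)
    (f := g) (g₁ := fun z => |g z|) (g₂ := fun _ => 0) (G := gr d) (K := gr k) (μ := 0) (ρ := 2)
    (ρ' := 1) h₁ h₂ hD₁ hD₂ hI₁ hI₂ hv hw hk0 hψs.contDiffOn
    (fun z hz => b07b_psi_nonneg hc0 hs (by linarith) (hD₁ hz)) (fun z _ => b07b_psi_rot c s z)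
    (b07b_grad_int hψs hD₁) (hg.mono_measure (Measure.restrict_mono hD₂ le_rfl)) hg₁
    (MemLp.zero) (b07b_EqnS_SubS hde) hsup₁ hsup₂ (b07b_grad_int hψs hD₂) (b07b_chi_smooth s)
    (b07b_chi_rot s) ?_ ?_ le_rfl (by norm_num) (by norm_num) (by norm_num) ?_
  · have hoff := (W1_off h₁.measurableSet hv).2.2
    filter_upwards [hmain, hoff, hk0] with z z1 z2 z3 hz
    by_cases hz' : z ∈ DD \ (E ∩ Axs)
    · have := z1 hz'
      linarith
    · rw [(z2 hz').1]
      have := b07b_psi_nonneg hc0 hs (by linarith) hz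
      linarith
  · rintro z ⟨hz1, hz2⟩
    have hlt := b07b_chi_supp hs hz1
    refine ⟨hz2.1, ?_⟩
    rintro (h | h)
    · have hb : z ∉ Metric.ball 0 s := by
        simp only [Metric.mem_ball, dist_zero_right, not_lt]
        exact hlt.le
      have hzE : z ∈ E \ Metric.ball 0 s := by
        rw [hEA]
        exact ⟨h, hb⟩
      exact hz2.2 ⟨hzE.1, h⟩
    · simp only [Metric.mem_closedBall, dist_zero_right] at h
      linarith
  · filter_upwards [hdB, hk0] with z z1 z2 hz z3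
    by_contra hcon
    have hn : ‖z‖ < 2 * s := by
      by_contra h
      exact hcon (b07b_chi_one hs (not_lt.1 h))
    have h5 : ‖z‖ ^ 2 + s ^ 2 ≤ 5 * s ^ 2 := by nlinarith [norm_nonneg z]
    have h6 : Real.log (‖z‖ ^ 2 + s ^ 2) ≤ Real.log (5 * s ^ 2) :=
      Real.log_le_log (b07b_pos hs z) h5
    have h7 : B ≤ b07b_psi c s z := by
      unfold b07b_psi b07b_L
      have h8 : 1 / 2 * (Real.log 2 - 2 * Real.log s) ≤ Real.log 4 - Real.log (‖z‖ ^ 2 + s ^ 2) := by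
        linarith
      calc B = c * (1 / 2 * (Real.log 2 - 2 * Real.log s)) := by
            rw [hc]; field_simp
        _ ≤ _ := mul_le_mul_of_nonneg_left h8 hc0
    have := (abs_le.1 z1).2
    linarith
  · filter_upwards with z hz _
    refine ⟨?_, hz.1.1.le, hz.1.2.le⟩
    have := le_abs_self (g z)
    linarith

theorem b07b_main {δ : ℝ} (hδ : 0 < δ) : ∃ ts κ : ℝ, 0 < ts ∧ ts ≤ 1 / 32 ∧ 0 < κ ∧
    ∀ (E : Set ℂ) (x : HH) (W : ℂ → ℝ), IsClosed E → (∀ z, I * z ∈ E ↔ z ∈ E) →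
      E \ Metric.ball 0 ts = Axs \ Metric.ball 0 ts → AEStronglyMeasurable W (volume.restrict DD) →
      (∀ᵐ z, z ∈ DD → 0 ≤ W z ∧ W z ≤ 60) → ∫ z in DD, |W z - 5 * Real.pi ^ 2| ^ 3 ≤ κ →
      x ∈ V (DD \ E) → EqnS (DD \ E) (gr x) (fun z => W z * fn x z) → ‖x - e2‖ ^ 2 ≤ κ →
      ∀ᵐ z : ℂ, z ∈ DD → 1 / 16 ≤ ‖z‖ → |fn x z - fn e2 z| ≤ δ := by
  obtain ⟨M, hM, hsup⟩ := b07b_sup
  obtain ⟨M2, hM2, he2⟩ := b07b_e2_bound
  obtain ⟨C, hC, hsb⟩ := sup_bound
  obtain ⟨A, hA, hA3⟩ := b07b_l3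
  set B : ℝ := M + M2 with hB
  have hB0 : 0 < B := by positivity
  set s : ℝ := min (1 / 32) (Real.exp (-(2 * B * Real.log 1024 / δ))) with hs
  have hs0 : 0 < s := lt_min (by norm_num) (Real.exp_pos _)
  have hs1 : s ≤ 1 / 32 := min_le_left _ _
  set η : ℝ := δ / (4 * C) with hη
  have hη0 : 0 < η := by positivity
  set κ : ℝ := min 1 (min ((η / (60 * A)) ^ 2) ((η / M2) ^ 3)) with hκ
  have hκ0 : 0 < κ := by
    refine lt_min one_pos (lt_min ?_ ?_) <;> positivity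
  refine ⟨s, κ, hs0, hs1, hκ0, ?_⟩
  intro E x W hE hEI hEA hWm hW hW3 hx he hxe
  obtain ⟨ce, hce, hne, _, _, hVe, _, _⟩ := e2_spec
  have hd : x - e2 ∈ V (DD \ (E ∩ Axs)) := by
    apply Submodule.sub_mem
    · exact V_mono (sdiff_subset_sdiff_right inter_subset_left) hx
    · exact V_mono (sdiff_subset_sdiff_right inter_subset_right) hVe
  have hEIDD : ∀ z ∈ DD \ E, I * z ∈ DD \ E := by
    intro z hz
    exact ⟨b07b_I_DD hz.1, fun h => hz.2 ((hEI z).1 h)⟩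
  have hxn : ‖x‖ ≤ 2 := by
    have h1 : ‖x - e2‖ ≤ 1 := by
      have : ‖x - e2‖ ^ 2 ≤ 1 := hxe.trans (min_le_left _ _)
      nlinarith [norm_nonneg (x - e2)]
    calc ‖x‖ = ‖(x - e2) + e2‖ := by rw [sub_add_cancel]
      _ ≤ ‖x - e2‖ + ‖e2‖ := norm_add_le _ _
      _ ≤ 2 := by rw [hne]; linarith
  have hxB := hsup (DD \ E) (b07b_DD_open.sdiff hE) sdiff_subset hEIDD x W hx hWm hW he hxn
  have hdB : ∀ᵐ z, |fn (x - e2) z| ≤ B := by
    filter_upwards [hxB, he2, b07b_fn_sub x e2] with z z1 z2 z3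
    rw [z3]
    exact (abs_sub _ _).trans (add_le_add z1 z2)
  -- the right hand side
  set g : ℂ → ℝ := fun z => W z * fn x z - 5 * Real.pi ^ 2 * fn e2 z with hg
  have hg3 : MemLp g 3 (volume.restrict DD) :=
    (b07b_W3 hWm hW x).1.sub ((hA3 e2).1.const_mul _)
  have hg2 : MemLp g 2 (volume.restrict DD) := hg3.mono_exponent (by norm_num)
  have hΩ₂ : IsOpen (DD \ (Axs ∪ Metric.closedBall 0 s)) :=
    b07b_DD_open.sdiff (b07b_Axs_closed.union Metric.isClosed_closedBall)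
  have hΩE : DD \ (Axs ∪ Metric.closedBall 0 s) ⊆ DD \ E := by
    rintro z ⟨h1, h2⟩
    refine ⟨h1, fun h3 => h2 ?_⟩
    by_cases hb : z ∈ Metric.ball 0 s
    · exact Or.inr (Metric.ball_subset_closedBall hb)
    · left
      have : z ∈ E \ Metric.ball 0 s := ⟨h3, hb⟩
      rw [hEA] at this
      exact this.1
  have hΩA : DD \ (Axs ∪ Metric.closedBall 0 s) ⊆ DD \ Axs :=
    sdiff_subset_sdiff_right subset_union_left
  have hde : EqnS (DD \ (Axs ∪ Metric.closedBall 0 s)) (gr (x - e2)) g :=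
    b07b_diff_eqn hE hΩ₂ hΩE hΩA hWm hW he
  -- the auxiliary function
  have hga : MemLp (fun z => |g z|) 2 (volume.restrict DD) := hg2.norm
  have hga3 : MemLp (fun z => |g z|) 3 (volume.restrict DD) := hg3.norm
  obtain ⟨k, hk1, hk2⟩ := exists_K hga
  have hk0 : ∀ᵐ z, 0 ≤ fn k z := hk2 (Eventually.of_forall fun z _ => abs_nonneg _)
  have hkV : k ∈ V DD := by rw [V_top]; trivial
  have hkE : EqnS DD (gr k) (fun z => |g z|) := by
    rw [eqn_iff b07b_DD_open le_rfl k hga]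
    intro y _
    rw [hk1 y]
    apply setIntegral_eq_integral_of_ae_compl_eq_zero
    filter_upwards [fn_off y] with z hz hz'
    rw [hz hz', mul_zero]
  have hkb := hsb DD b07b_DD_open le_rfl (fun z hz => b07b_I_DD hz) (fn k) (fun z => |g z|) (gr k)
    (V_approx le_rfl hkV) hga3 (b07b_EqnS_SubS hkE)
  -- size of the right hand side
  have hgn : (eLpNorm (fun z => |g z|) 3 (volume.restrict DD)).toReal ≤ 2 * η := by
    have e0 : eLpNorm (fun z => |g z|) 3 (volume.restrict DD) = eLpNorm g 3 (volume.restrict DD) := by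
      have := eLpNorm_norm g (p := 3) (μ := volume.restrict DD)
      simpa only [Real.norm_eq_abs] using this
    have hm1 := b07b_W3 hWm hW (x - e2)
    have hWb : ∀ᵐ z ∂(volume.restrict DD), |W z - 5 * Real.pi ^ 2| ≤ 60 := by
      filter_upwards [b07b_aeDD hW] with z hz
      have hp1 : Real.pi ^ 2 ≤ 12 := by nlinarith [Real.pi_lt_d2, Real.pi_pos]
      rw [abs_le]
      constructor <;> nlinarith [hz.1, hz.2, sq_nonneg Real.pi]
    have hWc : AEStronglyMeasurable (fun z => W z - 5 * Real.pi ^ 2) (volume.restrict DD) :=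
      hWm.sub aestronglyMeasurable_const
    have hW3' : MemLp (fun z => W z - 5 * Real.pi ^ 2) 3 (volume.restrict DD) :=
      MemLp.of_bound hWc 60 (by simpa only [Real.norm_eq_abs] using hWb)
    have hme : ∀ᵐ z ∂(volume.restrict DD), ‖(W z - 5 * Real.pi ^ 2) * fn e2 z‖ ≤
        M2 * ‖W z - 5 * Real.pi ^ 2‖ := by
      filter_upwards [ae_restrict_of_ae he2] with z hz
      rw [norm_mul, mul_comm]
      exact mul_le_mul_of_nonneg_right hz (norm_nonneg _)
    have hm2 : MemLp (fun z => (W z - 5 * Real.pi ^ 2) * fn e2 z) 3 (volume.restrict DD) :=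
      MemLp.of_le_mul hW3' (hWc.mul (hA3 e2).1.aestronglyMeasurable) hme
    have hsum : g =ᵐ[volume.restrict DD]
        (fun z => W z * fn (x - e2) z) + fun z => (W z - 5 * Real.pi ^ 2) * fn e2 z := by
      filter_upwards [ae_restrict_of_ae (b07b_fn_sub x e2)] with z hz
      simp only [hg, Pi.add_apply]
      rw [hz]
      ring
    have h1 : (eLpNorm (fun z => W z * fn (x - e2) z) 3 (volume.restrict DD)).toReal ≤ η := by
      have h2 := (hA3 (x - e2)).2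
      have h3 : ‖x - e2‖ ≤ η / (60 * A) := by
        have : ‖x - e2‖ ^ 2 ≤ (η / (60 * A)) ^ 2 :=
          hxe.trans ((min_le_right _ _).trans (min_le_left _ _))
        exact (sq_le_sq₀ (norm_nonneg _) (by positivity)).1 this
      calc (eLpNorm (fun z => W z * fn (x - e2) z) 3 (volume.restrict DD)).toReal
          ≤ 60 * (eLpNorm (fn (x - e2)) 3 (volume.restrict DD)).toReal := hm1.2
        _ ≤ 60 * (A * (η / (60 * A))) := by
            have := mul_le_mul_of_nonneg_left h3 hA.le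
            nlinarith
        _ = η := by field_simp
    have h2 : (eLpNorm (fun z => (W z - 5 * Real.pi ^ 2) * fn e2 z) 3 (volume.restrict DD)).toReal
        ≤ η := by
      have h3 := eLpNorm_le_mul_eLpNorm_of_ae_le_mul hme 3
      have h4 : (eLpNorm (fun z => W z - 5 * Real.pi ^ 2) 3 (volume.restrict DD)).toReal ≤
          η / M2 := by
        rw [MemLp.eLpNorm_eq_integral_rpow_norm (by norm_num) (by norm_num) hW3']
        rw [ENNReal.toReal_ofReal (by positivity)]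
        have e1 : (3 : ENNReal).toReal = 3 := by norm_num
        rw [e1]
        have e2' : ∫ a in DD, ‖W a - 5 * Real.pi ^ 2‖ ^ (3 : ℝ) =
            ∫ a in DD, |W a - 5 * Real.pi ^ 2| ^ 3 := by
          congr 1
          funext a
          rw [show (3 : ℝ) = ((3 : ℕ) : ℝ) by norm_num, Real.rpow_natCast, Real.norm_eq_abs]
        rw [e2']
        have e3 : 0 ≤ ∫ a in DD, |W a - 5 * Real.pi ^ 2| ^ 3 :=
          integral_nonneg fun a => by positivity
        have e4 : ∫ a in DD, |W a - 5 * Real.pi ^ 2| ^ 3 ≤ (η / M2) ^ 3 :=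
          hW3.trans ((min_le_right _ _).trans (min_le_right _ _))
        calc (∫ a in DD, |W a - 5 * Real.pi ^ 2| ^ 3) ^ (3 : ℝ)⁻¹ ≤ ((η / M2) ^ 3) ^ (3 : ℝ)⁻¹ :=
              Real.rpow_le_rpow e3 e4 (by norm_num)
          _ = η / M2 := by
              rw [← Real.rpow_natCast, ← Real.rpow_mul (by positivity)]
              norm_num
      calc (eLpNorm (fun z => (W z - 5 * Real.pi ^ 2) * fn e2 z) 3 (volume.restrict DD)).toReal
          ≤ (ENNReal.ofReal M2 *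
              eLpNorm (fun z => W z - 5 * Real.pi ^ 2) 3 (volume.restrict DD)).toReal :=
            ENNReal.toReal_mono (ENNReal.mul_ne_top (by simp) hW3'.2.ne) h3
        _ = M2 * (eLpNorm (fun z => W z - 5 * Real.pi ^ 2) 3 (volume.restrict DD)).toReal := by
            rw [ENNReal.toReal_mul, ENNReal.toReal_ofReal hM2.le]
        _ ≤ M2 * (η / M2) := mul_le_mul_of_nonneg_left h4 hM2.le
        _ = η := by field_simp
    rw [e0, eLpNorm_congr_ae hsum]
    calc (eLpNorm ((fun z => W z * fn (x - e2) z) + fun z => (W z - 5 * Real.pi ^ 2) * fn e2 z) 3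
          (volume.restrict DD)).toReal
        ≤ (eLpNorm (fun z => W z * fn (x - e2) z) 3 (volume.restrict DD) +
            eLpNorm (fun z => (W z - 5 * Real.pi ^ 2) * fn e2 z) 3 (volume.restrict DD)).toReal :=
          ENNReal.toReal_mono (ENNReal.add_ne_top.2 ⟨hm1.1.2.ne, hm2.2.ne⟩)
            (eLpNorm_add_le hm1.1.1 hm2.1 (by norm_num))
      _ = _ := ENNReal.toReal_add hm1.1.2.ne hm2.2.ne
      _ ≤ 2 * η := by linarith
  have hkδ : ∀ᵐ z, fn k z ≤ δ / 2 := by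
    filter_upwards [hkb] with z hz
    calc fn k z ≤ C * (eLpNorm (fun z => |g z|) 3 (volume.restrict DD)).toReal := hz
      _ ≤ C * (2 * η) := mul_le_mul_of_nonneg_left hgn hC.le
      _ = δ / 2 := by rw [hη]; field_simp; norm_num
  -- size of the barrier
  obtain ⟨hl1, hl2⟩ := b07b_log_s hs0 hs1
  have hψ : ∀ z : ℂ, 1 / 16 ≤ ‖z‖ →
      b07b_psi (2 * B / (Real.log 2 - 2 * Real.log s)) s z ≤ δ / 2 := by
    intro z hz
    have h1 : Real.log (1 / 256) ≤ Real.log (‖z‖ ^ 2 + s ^ 2) := by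
      apply Real.log_le_log (by norm_num)
      nlinarith
    have h2 : Real.log 4 - Real.log (1 / 256) = Real.log 1024 := by
      rw [← Real.log_div (by norm_num) (by norm_num)]
      norm_num
    have h1024 : 0 < Real.log 1024 := Real.log_pos (by norm_num)
    have h3 : Real.log s ≤ -(2 * B * Real.log 1024 / δ) := by
      calc Real.log s ≤ Real.log (Real.exp (-(2 * B * Real.log 1024 / δ))) :=
            Real.log_le_log hs0 (min_le_right _ _)
        _ = _ := Real.log_exp _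
    have hl2' : 0 < Real.log 2 := Real.log_pos (by norm_num)
    have h4 : 4 * B * Real.log 1024 / δ ≤ Real.log 2 - 2 * Real.log s := by
      have : 4 * B * Real.log 1024 / δ = 2 * (2 * B * Real.log 1024 / δ) := by ring
      linarith
    unfold b07b_psi b07b_L
    calc 2 * B / (Real.log 2 - 2 * Real.log s) * (Real.log 4 - Real.log (‖z‖ ^ 2 + s ^ 2))
        ≤ 2 * B / (Real.log 2 - 2 * Real.log s) * Real.log 1024 := by
          apply mul_le_mul_of_nonneg_left _ (by positivity)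
          linarith
      _ = 2 * B * Real.log 1024 / (Real.log 2 - 2 * Real.log s) := by ring
      _ ≤ 2 * B * Real.log 1024 / (4 * B * Real.log 1024 / δ) := by
          apply div_le_div_of_nonneg_left (by positivity) (by positivity) h4
      _ = δ / 2 := by field_simp; norm_num
  -- both comparisons
  have hc1 := b07b_compare hs0 hs1 hB0 hE hEI hEA hd hdB hg2 hde hkE hk0
  have hd' : -(x - e2) ∈ V (DD \ (E ∩ Axs)) := neg_mem hd
  have hdB' : ∀ᵐ z, |fn (-(x - e2)) z| ≤ B := by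
    filter_upwards [hdB, b07b_fn_neg (x - e2)] with z z1 z2
    rw [z2, abs_neg]
    exact z1
  have hde' : EqnS (DD \ (Axs ∪ Metric.closedBall 0 s)) (gr (-(x - e2))) (fun z => -g z) :=
    b07b_EqnS_neg hde (Eventually.of_forall fun z => rfl)
  have hkE' : EqnS DD (gr k) (fun z => |-g z|) := by
    simpa only [abs_neg] using hkE
  have hc2 := b07b_compare hs0 hs1 hB0 hE hEI hEA hd' hdB' hg2.neg hde' hkE' hk0
  filter_upwards [hc1, hc2, hkδ, b07b_fn_sub x e2, b07b_fn_neg (x - e2)] with z z1 z2 z3 z4 z5 z6 z7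
  have w1 := z1 z6
  have w2 := z2 z6
  have w3 := hψ z z7
  rw [z5, z4] at w2
  rw [z4] at w1
  exact abs_le.2 ⟨by linarith, by linarith⟩

/-- sup closeness away from `0`: `-Δ (v - e2) = W v - 5π² e2 =: g` off `Axs ∪ closedBall 0 ts`;
`|v - e2| ≤ K|g| + C log (4/(|z|²+ts²)) / log (4/(2 ts²))` -/
theorem F2_sup {δ : ℝ} (hδ : 0 < δ) : ∃ ts κ : ℝ, 0 < ts ∧ ts ≤ 1 / 32 ∧ 0 < κ ∧
    ∀ (E : Set ℂ) (v W : ℂ → ℝ) (G : ℂ → ℂ), IsClosed E → E ⊆ Mir → (∀ z, I * z ∈ E ↔ z ∈ E) →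
      E \ Metric.ball 0 ts = Axs \ Metric.ball 0 ts → AEStronglyMeasurable W (volume.restrict DD) →
      (∀ᵐ z, z ∈ DD → 0 ≤ W z ∧ W z ≤ 60) → ∫ z in DD, |W z - 5 * Real.pi ^ 2| ^ 3 ≤ κ →
      W1 (DD \ E) v G → EqnS (DD \ E) G (fun z => W z * v z) → ∫ z, ‖G z - gr e2 z‖ ^ 2 ≤ κ →
      ∀ᵐ z : ℂ, z ∈ DD → 1 / 16 ≤ ‖z‖ → |v z - fn e2 z| ≤ δ := by
  obtain ⟨ts, κ, h1, h2, h3, h⟩ := b07b_main hδ
  refine ⟨ts, κ, h1, h2, h3, ?_⟩
  intro E v W G hE _ hEI hEA hWm hW hW3 hv he hG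
  obtain ⟨x, hx, hxv, hxG⟩ := V_mk (sdiff_subset : DD \ E ⊆ DD) hv
  have he' : EqnS (DD \ E) (gr x) (fun z => W z * fn x z) := by
    intro ζ a1 a2
    have h5 := he ζ a1 a2
    have e1 : ∫ z, inner ℝ (gr x z) (gradient ζ z) = ∫ z, inner ℝ (G z) (gradient ζ z) := by
      apply integral_congr_ae
      filter_upwards [hxG] with z hz
      rw [hz]
    have e2 : ∫ z, W z * fn x z * ζ z = ∫ z, W z * v z * ζ z := by
      apply integral_congr_ae
      filter_upwards [hxv] with z hz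
      rw [hz]
    rw [e1, e2, h5]
  have hn : ‖x - e2‖ ^ 2 ≤ κ := by
    rw [norm_HH]
    have e1 : ∫ z, ‖gr (x - e2) z‖ ^ 2 = ∫ z, ‖G z - gr e2 z‖ ^ 2 := by
      apply integral_congr_ae
      filter_upwards [hxG, b07b_gr_sub x e2] with z z1 z2
      rw [z2, z1]
    rw [e1]
    exact hG
  filter_upwards [h E x W hE hEI hEA hWm hW hW3 hx he' hn, hxv] with z z1 z2
  rw [← z2]
  exact z1

end Pool.Agent.H87.LE
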