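import Pool.Agent.H87.LE.A01_Green
import Pool.Agent.H87.LE.B07a_F1
import Pool.Agent.H87.LE.B07b_F2sup

open MeasureTheory Complex Set Filter Topology
open scoped ContDiff Laplacian

namespace Pool.Agent.H87.LE

/-! # B07c: linear closeness near the axes -/

/-- squared norm -/
noncomputable def B07c_n (z : ℂ) : ℝ := z.re ^ 2 + z.im ^ 2

theorem B07c_n_eq (z : ℂ) : B07c_n z = ‖z‖ ^ 2 := by
  rw [Complex.sq_norm, Complex.normSq_apply, B07c_n]
  ring

theorem B07c_n_smooth : ContDiff ℝ ∞ B07c_n := by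
  unfold B07c_n
  exact (reCLM.contDiff.pow 2).add (imCLM.contDiff.pow 2)

/-- radial function: zero for `7/64 ≤ |z| ≤ 9/64`, at least one off `5/64 < |z| < 11/64` -/
noncomputable def B07c_R (z : ℂ) : ℝ :=
  Real.smoothTransition ((49 - 4096 * B07c_n z) / 24) +
    Real.smoothTransition ((4096 * B07c_n z - 81) / 40)

/-- cutoff of the centre -/
noncomputable def B07c_eta (z : ℂ) : ℝ := Real.smoothTransition ((4096 * B07c_n z - 4) / 12)

/-- cutoff -/
noncomputable def B07c_chi (z : ℂ) : ℝ :=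
  Real.smoothTransition ((4096 * B07c_n z - 18) / 7) *
    Real.smoothTransition ((140 - 4096 * B07c_n z) / 19)

theorem B07c_R_smooth : ContDiff ℝ ∞ B07c_R := by
  unfold B07c_R
  have h := B07c_n_smooth
  exact (Real.smoothTransition.contDiff.comp
    ((contDiff_const.sub (contDiff_const.mul h)).div_const 24)).add
    (Real.smoothTransition.contDiff.comp (((contDiff_const.mul h).sub contDiff_const).div_const 40))

theorem B07c_eta_smooth : ContDiff ℝ ∞ B07c_eta := by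
  unfold B07c_eta
  have h := B07c_n_smooth
  exact Real.smoothTransition.contDiff.comp (((contDiff_const.mul h).sub contDiff_const).div_const 12)

theorem B07c_chi_smooth : ContDiff ℝ ∞ B07c_chi := by
  unfold B07c_chi
  have h := B07c_n_smooth
  exact (Real.smoothTransition.contDiff.comp
    (((contDiff_const.mul h).sub contDiff_const).div_const 7)).mul
    (Real.smoothTransition.contDiff.comp ((contDiff_const.sub (contDiff_const.mul h)).div_const 19))

theorem B07c_R_nonneg (z : ℂ) : 0 ≤ B07c_R z :=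
  add_nonneg (Real.smoothTransition.nonneg _) (Real.smoothTransition.nonneg _)

theorem B07c_R_zero {z : ℂ} (h1 : 49 ≤ 4096 * B07c_n z) (h2 : 4096 * B07c_n z ≤ 81) :
    B07c_R z = 0 := by
  unfold B07c_R
  rw [Real.smoothTransition.zero_of_nonpos (by linarith),
    Real.smoothTransition.zero_of_nonpos (by linarith), add_zero]

theorem B07c_R_one {z : ℂ} (h : 4096 * B07c_n z ≤ 25 ∨ 121 ≤ 4096 * B07c_n z) :
    1 ≤ B07c_R z := by
  unfold B07c_R
  rcases h with h | h
  · rw [Real.smoothTransition.one_of_one_le (x := (49 - 4096 * B07c_n z) / 24) (by linarith)]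
    have := Real.smoothTransition.nonneg ((4096 * B07c_n z - 81) / 40)
    linarith
  · rw [Real.smoothTransition.one_of_one_le (x := (4096 * B07c_n z - 81) / 40) (by linarith)]
    have := Real.smoothTransition.nonneg ((49 - 4096 * B07c_n z) / 24)
    linarith

theorem B07c_eta_one {z : ℂ} (h : 16 ≤ 4096 * B07c_n z) : B07c_eta z = 1 :=
  Real.smoothTransition.one_of_one_le (by linarith)

theorem B07c_eta_zero {z : ℂ} (h : 4096 * B07c_n z ≤ 4) : B07c_eta z = 0 :=
  Real.smoothTransition.zero_of_nonpos (by linarith)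

theorem B07c_eta_nonneg (z : ℂ) : 0 ≤ B07c_eta z := Real.smoothTransition.nonneg _

theorem B07c_chi_one {z : ℂ} (h1 : 25 ≤ 4096 * B07c_n z) (h2 : 4096 * B07c_n z ≤ 121) :
    B07c_chi z = 1 := by
  unfold B07c_chi
  rw [Real.smoothTransition.one_of_one_le (by linarith),
    Real.smoothTransition.one_of_one_le (by linarith), one_mul]

theorem B07c_chi_tsupport {z : ℂ} (h : z ∈ tsupport B07c_chi) :
    18 ≤ 4096 * B07c_n z ∧ 4096 * B07c_n z ≤ 140 := by
  have hc : IsClosed {z : ℂ | 18 ≤ 4096 * B07c_n z ∧ 4096 * B07c_n z ≤ 140} :=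
    (isClosed_le continuous_const (continuous_const.mul B07c_n_smooth.continuous)).inter
      (isClosed_le (continuous_const.mul B07c_n_smooth.continuous) continuous_const)
  have hs : Function.support B07c_chi ⊆
      {z : ℂ | 18 ≤ 4096 * B07c_n z ∧ 4096 * B07c_n z ≤ 140} := by
    intro z hz
    rw [Function.mem_support] at hz
    by_contra hcon
    apply hz
    unfold B07c_chi
    rw [Set.mem_ofPred_eq, not_and_or, not_le, not_le] at hcon
    rcases hcon with h | h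
    · rw [Real.smoothTransition.zero_of_nonpos (x := (4096 * B07c_n z - 18) / 7) (by linarith),
        zero_mul]
    · rw [Real.smoothTransition.zero_of_nonpos (x := (140 - 4096 * B07c_n z) / 19) (by linarith),
        mul_zero]
  exact closure_minimal hs hc h

theorem B07c_n_rot (z : ℂ) : B07c_n (I * z) = B07c_n z := by
  unfold B07c_n
  have e1 : (I * z).re = -z.im := by simp
  have e2 : (I * z).im = z.re := by simp
  rw [e1, e2]
  ring

/-- `Im z²` -/
theorem B07c_im (z : ℂ) : (z ^ 2).im = 2 * (z.re * z.im) := by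
  rw [pow_two, Complex.mul_im]
  ring

theorem B07c_im_rot (z : ℂ) : ((I * z) ^ 2).im = -(z ^ 2).im := by
  rw [B07c_im, B07c_im]
  have e1 : (I * z).re = -z.im := by simp
  have e2 : (I * z).im = z.re := by simp
  rw [e1, e2]
  ring

/-- the profile `(1 - exp (-l t)) / l` -/
noncomputable def B07c_q (l t : ℝ) : ℝ := (1 - Real.exp (-l * t)) / l

theorem B07c_q_nonneg {l t : ℝ} (hl : 0 < l) (ht : 0 ≤ t) : 0 ≤ B07c_q l t := by
  unfold B07c_q
  have : Real.exp (-l * t) ≤ 1 := Real.exp_le_one_iff.2 (by nlinarith)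
  exact div_nonneg (by linarith) hl.le

theorem B07c_q_le {l t : ℝ} (hl : 0 < l) : B07c_q l t ≤ t := by
  unfold B07c_q
  rw [div_le_iff₀ hl]
  have := Real.add_one_le_exp (-l * t)
  linarith

theorem B07c_exp_one : Real.exp (-1) ≤ 1 / 2 := by
  have h := Real.add_one_le_exp (1 : ℝ)
  rw [Real.exp_neg]
  rw [inv_eq_one_div]
  exact one_div_le_one_div_of_le (by norm_num) (by linarith)

theorem B07c_q_lower {l t : ℝ} (hl : 0 < l) (ht : 1 ≤ l * t) : 1 / (2 * l) ≤ B07c_q l t := by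
  unfold B07c_q
  have h1 : Real.exp (-l * t) ≤ Real.exp (-1) := Real.exp_le_exp.2 (by linarith)
  have h2 := B07c_exp_one
  rw [div_le_div_iff₀ (by positivity) hl]
  nlinarith

/-- the barrier -/
noncomputable def B07c_psi (C δ l : ℝ) (z : ℂ) : ℝ :=
  C * B07c_R z + δ * (B07c_eta z * B07c_q l |(z ^ 2).im|)

/-- smooth version -/
noncomputable def B07c_psis (C δ l σ : ℝ) (z : ℂ) : ℝ :=
  C * B07c_R z + δ * (B07c_eta z * B07c_q l (σ * (z ^ 2).im))

theorem B07c_psis_smooth (C δ l σ : ℝ) : ContDiff ℝ ∞ (B07c_psis C δ l σ) := by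
  unfold B07c_psis
  have h1 : ContDiff ℝ ∞ (fun z : ℂ => (z ^ 2).im) := by
    have : (fun z : ℂ => (z ^ 2).im) = fun z => 2 * (z.re * z.im) := by
      ext z; exact B07c_im z
    rw [this]
    exact contDiff_const.mul (reCLM.contDiff.mul imCLM.contDiff)
  have h2 : ContDiff ℝ ∞ (fun z : ℂ => B07c_q l (σ * (z ^ 2).im)) := by
    unfold B07c_q
    exact (contDiff_const.sub (Real.contDiff_exp.comp
      (contDiff_const.mul (contDiff_const.mul h1)))).div_const l
  exact (contDiff_const.mul B07c_R_smooth).add (contDiff_const.mul (B07c_eta_smooth.mul h2))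

/-- points where the barrier is smooth -/
theorem B07c_local (C δ l : ℝ) {z : ℂ} (h : (z ^ 2).im ≠ 0 ∨ ‖z‖ < 1 / 32) :
    ∃ σ : ℝ, (σ = 1 ∨ σ = -1) ∧ B07c_psi C δ l =ᶠ[𝓝 z] B07c_psis C δ l σ := by
  rcases h with h | h
  · have hc : Continuous fun w : ℂ => (w ^ 2).im := continuous_im.comp (continuous_pow 2)
    rcases lt_or_gt_of_ne h with h' | h'
    · refine ⟨-1, Or.inr rfl, ?_⟩
      filter_upwards [hc.continuousAt.eventually (gt_mem_nhds h')] with w hw
      unfold B07c_psi B07c_psis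
      rw [abs_of_neg hw]
      ring_nf
    · refine ⟨1, Or.inl rfl, ?_⟩
      filter_upwards [hc.continuousAt.eventually (lt_mem_nhds h')] with w hw
      unfold B07c_psi B07c_psis
      rw [abs_of_pos hw, one_mul]
  · refine ⟨1, Or.inl rfl, ?_⟩
    filter_upwards [continuous_norm.continuousAt.eventually (gt_mem_nhds h)] with w hw
    unfold B07c_psi B07c_psis
    have : B07c_eta w = 0 := by
      apply B07c_eta_zero
      rw [B07c_n_eq]
      nlinarith [norm_nonneg w]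
    rw [this, zero_mul, zero_mul]

/-- a global gradient bound -/
theorem B07c_grad (C δ l : ℝ) : ∃ B : ℝ, ∀ z : ℂ, ‖z‖ ≤ 2 → ((z ^ 2).im ≠ 0 ∨ ‖z‖ < 1 / 32) →
    ‖gradient (B07c_psi C δ l) z‖ ≤ B := by
  obtain ⟨B₁, h₁⟩ := (isCompact_closedBall (0 : ℂ) 2).exists_bound_of_continuousOn
    (a16_grad_cont (B07c_psis_smooth C δ l 1)).continuousOn
  obtain ⟨B₂, h₂⟩ := (isCompact_closedBall (0 : ℂ) 2).exists_bound_of_continuousOn
    (a16_grad_cont (B07c_psis_smooth C δ l (-1))).continuousOn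
  refine ⟨max B₁ B₂, fun z hz h => ?_⟩
  obtain ⟨σ, hσ, he⟩ := B07c_local C δ l h
  have e : gradient (B07c_psi C δ l) z = gradient (B07c_psis C δ l σ) z := by
    unfold gradient
    rw [he.fderiv_eq]
  have hz' : z ∈ Metric.closedBall (0 : ℂ) 2 := by rwa [mem_closedBall_zero_iff]
  rw [e]
  rcases hσ with rfl | rfl
  · exact (h₁ z hz').trans (le_max_left _ _)
  · exact (h₂ z hz').trans (le_max_right _ _)

theorem B07c_smoothOn (C δ l : ℝ) {Ω : Set ℂ}
    (h : ∀ z ∈ Ω, (z ^ 2).im ≠ 0 ∨ ‖z‖ < 1 / 32) : ContDiffOn ℝ ∞ (B07c_psi C δ l) Ω := by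
  intro z hz
  obtain ⟨σ, -, he⟩ := B07c_local C δ l (h z hz)
  exact ((B07c_psis_smooth C δ l σ).contDiffAt.congr_of_eventuallyEq he).contDiffWithinAt

theorem B07c_psi_nonneg {C δ l : ℝ} (hC : 0 ≤ C) (hδ : 0 ≤ δ) (hl : 0 < l) (z : ℂ) :
    0 ≤ B07c_psi C δ l z := by
  unfold B07c_psi
  exact add_nonneg (mul_nonneg hC (B07c_R_nonneg z))
    (mul_nonneg hδ (mul_nonneg (B07c_eta_nonneg z) (B07c_q_nonneg hl (abs_nonneg _))))

theorem B07c_psi_rot (C δ l : ℝ) (z : ℂ) : B07c_psi C δ l (I * z) = B07c_psi C δ l z := by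
  unfold B07c_psi B07c_R B07c_eta
  rw [B07c_n_rot, B07c_im_rot, abs_neg]

/-- the Laplacian of `exp (a x y)` -/
theorem B07c_lap_exp (a : ℝ) (z : ℂ) : Δ (fun w : ℂ => Real.exp (a * (w.re * w.im))) z =
    a ^ 2 * B07c_n z * Real.exp (a * (z.re * z.im)) := by
  have hd : ∀ w : ℂ, HasFDerivAt (fun w : ℂ => Real.exp (a * (w.re * w.im)))
      (Real.exp (a * (w.re * w.im)) • (a • (w.re • imCLM + w.im • reCLM))) w := by
    intro w
    have h1 : HasFDerivAt (fun w : ℂ => w.re) reCLM w := reCLM.hasFDerivAt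
    have h2 : HasFDerivAt (fun w : ℂ => w.im) imCLM w := imCLM.hasFDerivAt
    exact ((h1.mul h2).const_mul a).exp
  have hf : fderiv ℝ (fun w : ℂ => Real.exp (a * (w.re * w.im))) =
      fun w => Real.exp (a * (w.re * w.im)) • (a • (w.re • imCLM + w.im • reCLM)) :=
    funext fun w => (hd w).fderiv
  have hdd : HasFDerivAt (fun w : ℂ => Real.exp (a * (w.re * w.im)) •
      (a • (w.re • imCLM + w.im • reCLM) : ℂ →L[ℝ] ℝ))
      (Real.exp (a * (z.re * z.im)) • (a • (reCLM.smulRight imCLM + imCLM.smulRight reCLM) :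
        ℂ →L[ℝ] ℂ →L[ℝ] ℝ) +
        (Real.exp (a * (z.re * z.im)) • (a • (z.re • imCLM + z.im • reCLM))).smulRight
          (a • (z.re • imCLM + z.im • reCLM) : ℂ →L[ℝ] ℝ)) z := by
    have h1 : HasFDerivAt (fun w : ℂ => w.re) reCLM z := reCLM.hasFDerivAt
    have h2 : HasFDerivAt (fun w : ℂ => w.im) imCLM z := imCLM.hasFDerivAt
    exact (hd z).smul (((h1.smul_const imCLM).add (h2.smul_const reCLM)).const_smul a)
  rw [a01_lap, hf, hdd.fderiv]
  simp [B07c_n]
  ring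


/-- the Laplacian is continuous for smooth functions -/
theorem B07c_lap_cont {f : ℂ → ℝ} (hf : ContDiff ℝ ∞ f) : Continuous (Δ f) := by
  have e : Δ f = fun z => fderiv ℝ (fderiv ℝ f) z 1 1 + fderiv ℝ (fderiv ℝ f) z I I :=
    funext fun z => a01_lap f z
  rw [e]
  have h1 : ContDiff ℝ ∞ (fderiv ℝ f) := hf.fderiv_right (m := ∞) (by simp)
  have h2 : Continuous (fderiv ℝ (fderiv ℝ f)) := h1.continuous_fderiv (by simp)
  exact ((h2.clm_apply continuous_const).clm_apply continuous_const).add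
    ((h2.clm_apply continuous_const).clm_apply continuous_const)

theorem B07c_lap_R : ∃ M : ℝ, 0 < M ∧ ∀ z : ℂ, ‖z‖ ≤ 2 → |Δ B07c_R z| ≤ M := by
  obtain ⟨B, h⟩ := (isCompact_closedBall (0 : ℂ) 2).exists_bound_of_continuousOn
    (B07c_lap_cont B07c_R_smooth).continuousOn
  refine ⟨max B 1, by positivity, fun z hz => ?_⟩
  have hz' : z ∈ Metric.closedBall (0 : ℂ) 2 := by rwa [mem_closedBall_zero_iff]
  exact (h z hz').trans (le_max_left _ _)

/-- the right hand side of the barrier -/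
noncomputable def B07c_g (C δ l M : ℝ) (z : ℂ) : ℝ :=
  -(C * M) + 4 * δ * l * B07c_n z * Real.exp (-l * |(z ^ 2).im|)

theorem B07c_g_cont (C δ l M : ℝ) : Continuous (B07c_g C δ l M) := by
  unfold B07c_g
  have h1 : Continuous B07c_n := B07c_n_smooth.continuous
  have h2 : Continuous fun w : ℂ => (w ^ 2).im := continuous_im.comp (continuous_pow 2)
  fun_prop

theorem B07c_sign {z : ℂ} (h : (z ^ 2).im ≠ 0) : ∃ σ : ℝ, σ ^ 2 = 1 ∧
    ∀ᶠ w in 𝓝 z, |(w ^ 2).im| = σ * (w ^ 2).im := by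
  have hc : Continuous fun w : ℂ => (w ^ 2).im := continuous_im.comp (continuous_pow 2)
  rcases lt_or_gt_of_ne h with h' | h'
  · refine ⟨-1, by norm_num, ?_⟩
    filter_upwards [hc.continuousAt.eventually (gt_mem_nhds h')] with w hw
    rw [abs_of_neg hw]
    ring
  · refine ⟨1, by norm_num, ?_⟩
    filter_upwards [hc.continuousAt.eventually (lt_mem_nhds h')] with w hw
    rw [abs_of_pos hw, one_mul]

theorem B07c_lap {C δ l M : ℝ} (hC : 0 ≤ C) (hl : 0 < l)
    (hM : ∀ z : ℂ, ‖z‖ ≤ 2 → |Δ B07c_R z| ≤ M) {z : ℂ} (h1 : 1 / 16 < ‖z‖) (h2 : ‖z‖ ≤ 2)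
    (h3 : (z ^ 2).im ≠ 0) : B07c_g C δ l M z ≤ -Δ (B07c_psi C δ l) z := by
  obtain ⟨σ, hσ, he⟩ := B07c_sign h3
  have hcR : ContDiffAt ℝ 2 B07c_R z := (contDiff_infty.1 B07c_R_smooth 2).contDiffAt
  have hcE : ContDiffAt ℝ 2 (fun w : ℂ => Real.exp ((-2 * l * σ) * (w.re * w.im))) z := by
    have : ContDiff ℝ 2 (fun w : ℂ => Real.exp ((-2 * l * σ) * (w.re * w.im))) :=
      Real.contDiff_exp.comp (contDiff_const.mul (reCLM.contDiff.mul imCLM.contDiff))
    exact this.contDiffAt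
  have hloc : B07c_psi C δ l =ᶠ[𝓝 z] (C • B07c_R + ((fun _ : ℂ => δ / l) +
      (-δ / l) • fun w : ℂ => Real.exp ((-2 * l * σ) * (w.re * w.im)))) := by
    filter_upwards [he, continuous_norm.continuousAt.eventually (lt_mem_nhds h1)] with w hw hw2
    have e1 : B07c_eta w = 1 := by
      apply B07c_eta_one
      rw [B07c_n_eq]
      nlinarith
    simp only [Pi.add_apply, Pi.smul_apply, smul_eq_mul]
    unfold B07c_psi B07c_q
    rw [e1, hw, B07c_im]
    have e2 : -l * (σ * (2 * (w.re * w.im))) = -2 * l * σ * (w.re * w.im) := by ring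
    rw [e2]
    field_simp
    ring
  have hlap : Δ (B07c_psi C δ l) z = C * Δ B07c_R z +
      (-δ / l) * ((-2 * l * σ) ^ 2 * B07c_n z * Real.exp ((-2 * l * σ) * (z.re * z.im))) := by
    rw [(InnerProductSpace.laplacian_congr_nhds hloc).eq_of_nhds]
    have k1 : ContDiffAt ℝ 2 (C • B07c_R) z := hcR.const_smul C
    have k2 : ContDiffAt ℝ 2 ((-δ / l) • fun w : ℂ => Real.exp ((-2 * l * σ) * (w.re * w.im))) z :=
      hcE.const_smul (-δ / l)
    have k3 : ContDiffAt ℝ 2 (fun _ : ℂ => δ / l) z := contDiffAt_const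
    have k4 : ContDiffAt ℝ 2 ((fun _ : ℂ => δ / l) +
        (-δ / l) • fun w : ℂ => Real.exp ((-2 * l * σ) * (w.re * w.im))) z := k3.add k2
    rw [ContDiffAt.laplacian_add k1 k4, ContDiffAt.laplacian_add k3 k2,
      InnerProductSpace.laplacian_smul _ hcR, InnerProductSpace.laplacian_smul _ hcE,
      B07c_lap_exp, InnerProductSpace.laplacian_const]
    simp
  rw [hlap]
  have e3 : (-2 * l * σ) * (z.re * z.im) = -l * |(z ^ 2).im| := by
    rw [he.self_of_nhds, B07c_im]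
    ring
  have e4 : (-2 * l * σ) ^ 2 = 4 * l ^ 2 := by
    have : (-2 * l * σ) ^ 2 = 4 * l ^ 2 * σ ^ 2 := by ring
    rw [this, hσ, mul_one]
  rw [e3, e4]
  unfold B07c_g
  have h4 := hM z h2
  have h5 : C * Δ B07c_R z ≤ C * M := mul_le_mul_of_nonneg_left ((le_abs_self _).trans h4) hC
  have e5 : -δ / l * (4 * l ^ 2 * B07c_n z * Real.exp (-l * |(z ^ 2).im|)) =
      -(4 * δ * l * B07c_n z * Real.exp (-l * |(z ^ 2).im|)) := by
    field_simp
  rw [e5]
  linarith

/-- the annular region -/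
def B07c_Om : Set ℂ := {z | z ∈ DD ∧ 1 / 16 < ‖z‖ ∧ ‖z‖ < 3 / 16 ∧ (z ^ 2).im ≠ 0}

theorem B07c_Om_open : IsOpen B07c_Om := by
  have h1 : IsOpen {z : ℂ | 1 / 16 < ‖z‖} := isOpen_lt continuous_const continuous_norm
  have h2 : IsOpen {z : ℂ | ‖z‖ < 3 / 16} := isOpen_lt continuous_norm continuous_const
  have h3 : IsOpen {z : ℂ | (z ^ 2).im ≠ 0} :=
    isOpen_ne_fun (continuous_im.comp (continuous_pow 2)) continuous_const
  exact a17_isOpen_DD.inter (h1.inter (h2.inter h3))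

theorem B07c_Om_rot : ∀ z ∈ B07c_Om, I * z ∈ B07c_Om := by
  rintro z ⟨h0, h1, h2, h3⟩
  have e : ‖I * z‖ = ‖z‖ := by simp
  refine ⟨a17_DD_rot z h0, by rw [e]; exact h1, by rw [e]; exact h2, ?_⟩
  rw [B07c_im_rot]
  exact neg_ne_zero.2 h3

theorem B07c_Axs {z : ℂ} : z ∈ Axs ↔ (z ^ 2).im = 0 := by
  rw [B07c_im]
  show z.re * z.im = 0 ↔ _
  constructor
  · intro h; rw [h, mul_zero]
  · intro h; linarith

theorem B07c_DD_norm {z : ℂ} (hz : z ∈ DD) : ‖z‖ ≤ 2 := by
  have := Complex.norm_le_abs_re_add_abs_im z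
  linarith [hz.1, hz.2]

theorem B07c_cmp {F : Set ℂ} (hF : IsClosed F) (hFI : ∀ z, I * z ∈ F ↔ z ∈ F)
    (hFB : Axs \ Metric.ball 0 (1 / 32) ⊆ F) {C δ l M : ℝ} (hC : 0 < C) (hδ : 0 < δ)
    (hl : 0 < l) (hM : ∀ z : ℂ, ‖z‖ ≤ 2 → |Δ B07c_R z| ≤ M) (hCM : C * M + 1 ≤ δ * l / 192)
    {d f : ℂ → ℝ} {G : ℂ → ℂ} (hd : W1 (DD \ F) d G) (hf : MemLp f 2 (volume.restrict B07c_Om))
    (hsub : SubS B07c_Om G f) (h1 : ∀ᵐ z, z ∈ DD → d z ≤ C)
    (h2 : ∀ᵐ z : ℂ, z ∈ DD → 1 / 16 ≤ ‖z‖ → d z ≤ δ / (2 * l))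
    (h3 : ∀ᵐ z : ℂ, z ∈ DD → 1 / 16 ≤ ‖z‖ → l * |(z ^ 2).im| < 1 → f z ≤ 1) :
    ∀ᵐ z : ℂ, z ∈ DD → 7 / 64 ≤ ‖z‖ → ‖z‖ ≤ 9 / 64 → d z ≤ δ * |(z ^ 2).im| := by
  have hO1 : IsOpen (DD \ F) := a17_isOpen_DD.sdiff hF
  have hI1 : ∀ z ∈ DD \ F, I * z ∈ DD \ F := fun z hz =>
    ⟨a17_DD_rot z hz.1, fun h => hz.2 ((hFI z).1 h)⟩
  have hsm : ∀ z ∈ DD \ F, (z ^ 2).im ≠ 0 ∨ ‖z‖ < 1 / 32 := by
    intro z hz
    by_contra hcon
    rw [not_or, not_not, not_lt] at hcon
    exact hz.2 (hFB ⟨B07c_Axs.2 hcon.1, fun h => by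
      rw [mem_ball_zero_iff] at h
      linarith⟩)
  obtain ⟨B, hB⟩ := B07c_grad C δ l
  have hψs : ContDiffOn ℝ ∞ (B07c_psi C δ l) (DD \ F) := B07c_smoothOn C δ l hsm
  have hψ2 : ContDiffOn ℝ ∞ (B07c_psi C δ l) B07c_Om :=
    B07c_smoothOn C δ l fun z hz => Or.inl hz.2.2.2
  have hint : ∀ U : Set ℂ, IsOpen U → U ⊆ DD → (∀ z ∈ U, (z ^ 2).im ≠ 0 ∨ ‖z‖ < 1 / 32) →
      IntegrableOn (fun z => ‖gradient (B07c_psi C δ l) z‖ ^ 2) U := by
    intro U hU hUD hUs
    have hUf : IsFiniteMeasure (volume.restrict U) := by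
      constructor
      rw [Measure.restrict_apply_univ]
      exact (measure_mono hUD).trans_lt B07a_vol_DD
    have hc := (a17_grad_contOn hU (B07c_smoothOn C δ l hUs)).norm.pow 2
    refine Integrable.of_bound (hc.aestronglyMeasurable hU.measurableSet) (B ^ 2) ?_
    refine (ae_restrict_mem hU.measurableSet).mono fun z hz => ?_
    have h := hB z (B07c_DD_norm (hUD hz)) (hUs z hz)
    rw [Real.norm_eq_abs, abs_of_nonneg (by positivity)]
    exact pow_le_pow_left₀ (norm_nonneg _) h 2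
  have hfin2 : IsFiniteMeasure (volume.restrict B07c_Om) := by
    constructor
    rw [Measure.restrict_apply_univ]
    exact (measure_mono (fun z hz => hz.1)).trans_lt B07a_vol_DD
  have hK : IsCompact (Metric.closedBall (0 : ℂ) 2) := isCompact_closedBall _ _
  have hOK : B07c_Om ⊆ Metric.closedBall (0 : ℂ) 2 := fun z hz => by
    rw [mem_closedBall_zero_iff]; exact B07c_DD_norm hz.1
  have hg2 : MemLp (B07c_g C δ l M) 2 (volume.restrict B07c_Om) :=
    a17_bdd_memLp B07c_Om_open hK hOK (B07c_g_cont C δ l M).continuousOn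
  have hsup2 : SupS B07c_Om (gradient (B07c_psi C δ l)) (B07c_g C δ l M) := by
    have hw : WSup B07c_Om (B07c_psi C δ l) (B07c_g C δ l M) :=
      wsup_of_laplacian B07c_Om_open (contDiffOn_infty.1 hψ2 2)
        (B07c_g_cont C δ l M).continuousOn fun z hz =>
          B07c_lap hC.le hl hM hz.2.1 (B07c_DD_norm hz.1) hz.2.2.2
    exact fun ζ a _ c => hw ζ a c
  have hsup1 : SupS B07c_Om (fun _ => (0 : ℂ)) (fun _ => (0 : ℝ)) := by
    intro ζ _ _ _
    simp
  have hmain := comp_strong (μ := 0) (ρ' := 1) (ρ := 2) hO1 B07c_Om_open sdiff_subset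
    (fun z hz => hz.1) hI1 B07c_Om_rot (w := fun _ => 0) (K := fun _ => 0) (g₁ := fun _ => 0)
    (g₂ := B07c_g C δ l M) (ψ := B07c_psi C δ l) (χ := B07c_chi) (f := f) hd
    ⟨_, fun n => ⟨a17_tst_zero _, fun z => rfl⟩, a17_lim_zero⟩ (Eventually.of_forall fun z => le_rfl)
    hψs (fun z _ => B07c_psi_nonneg hC.le hδ.le hl z) (fun z _ => B07c_psi_rot C δ l z)
    (hint _ hO1 sdiff_subset hsm) hf (memLp_const 0) hg2 hsub hsup1 hsup2
    (hint _ B07c_Om_open (fun z hz => hz.1) fun z hz => Or.inl hz.2.2.2) B07c_chi_smooth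
    (fun z => by unfold B07c_chi; rw [B07c_n_rot]) ?_ ?_ le_rfl one_pos one_lt_two (by norm_num) ?_
  · have hoff := (W1_off hO1.measurableSet hd).2.2
    filter_upwards [hmain, hoff] with z ha hb hzD hz1 hz2
    by_cases hz : z ∈ DD \ F
    · have h5 := ha hz
      rw [sub_zero] at h5
      refine h5.trans ?_
      unfold B07c_psi
      have e0 : B07c_n z = ‖z‖ ^ 2 := B07c_n_eq z
      rw [B07c_R_zero (by rw [e0]; nlinarith) (by rw [e0]; nlinarith),
        B07c_eta_one (by rw [e0]; nlinarith), mul_zero, zero_add, one_mul]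
      exact mul_le_mul_of_nonneg_left (B07c_q_le hl) hδ.le
    · rw [(hb hz).1]
      positivity
  · rintro z ⟨hz1, hz2⟩
    obtain ⟨a, b⟩ := B07c_chi_tsupport hz1
    rw [B07c_n_eq] at a b
    have hn := norm_nonneg z
    have a' : 1 / 16 < ‖z‖ := by
      by_contra hcon
      rw [not_lt] at hcon
      nlinarith
    have b' : ‖z‖ < 3 / 16 := by
      by_contra hcon
      rw [not_lt] at hcon
      nlinarith
    refine ⟨hz2.1, a', b', ?_⟩
    rcases hsm z hz2 with h | h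
    · exact h
    · linarith
  · filter_upwards [h1] with z hz1 hz2 hz3
    rw [sub_zero] at hz3
    have h4 := hz1 hz2.1
    by_cases hcase : 4096 * B07c_n z ≤ 25 ∨ 121 ≤ 4096 * B07c_n z
    · exfalso
      have h5 := B07c_R_one hcase
      have h6 : C * 1 ≤ B07c_psi C δ l z := by
        unfold B07c_psi
        have := mul_nonneg hδ.le (mul_nonneg (B07c_eta_nonneg z)
          (B07c_q_nonneg hl (abs_nonneg (z ^ 2).im)))
        have h7 := mul_le_mul_of_nonneg_left h5 hC.le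
        linarith
      linarith
    · rw [not_or, not_le, not_le] at hcase
      exact B07c_chi_one hcase.1.le hcase.2.le
  · filter_upwards [h1, h2, h3] with z hz1 hz4 hz5 hz2 hz3
    rw [sub_zero] at hz3
    have hD := hz2.1
    refine ⟨?_, hD.1.le, hD.2.le⟩
    have h4 := hz1 hD
    have hcase : ¬ (4096 * B07c_n z ≤ 25 ∨ 121 ≤ 4096 * B07c_n z) := by
      intro hcase
      have h5 := B07c_R_one hcase
      have h6 : C * 1 ≤ B07c_psi C δ l z := by
        unfold B07c_psi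
        have := mul_nonneg hδ.le (mul_nonneg (B07c_eta_nonneg z)
          (B07c_q_nonneg hl (abs_nonneg (z ^ 2).im)))
        have h7 := mul_le_mul_of_nonneg_left h5 hC.le
        linarith
      linarith
    rw [not_or, not_le, not_le] at hcase
    obtain ⟨c1, c2⟩ := hcase
    have hn := norm_nonneg z
    have hnorm : 1 / 16 ≤ ‖z‖ := by
      rw [B07c_n_eq] at c1
      by_contra hcon
      rw [not_le] at hcon
      nlinarith
    have h7 : l * |(z ^ 2).im| < 1 := by
      by_contra hcon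
      rw [not_lt] at hcon
      have h8 := B07c_q_lower hl hcon
      have h9 : δ * (1 / (2 * l)) ≤ B07c_psi C δ l z := by
        unfold B07c_psi
        rw [B07c_eta_one (by linarith), one_mul]
        have h10 := mul_nonneg hC.le (B07c_R_nonneg z)
        have h11 := mul_le_mul_of_nonneg_left h8 hδ.le
        linarith
      have h12 := hz4 hD hnorm
      have e : δ * (1 / (2 * l)) = δ / (2 * l) := by ring
      linarith
    have h13 := hz5 hD hnorm h7
    have h14 : 1 ≤ B07c_g C δ l M z := by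
      unfold B07c_g
      have h15 : 1 - l * |(z ^ 2).im| ≤ Real.exp (-l * |(z ^ 2).im|) := by
        have := Real.add_one_le_exp (-l * |(z ^ 2).im|)
        linarith
      have h16 : Real.exp (-1) ≤ Real.exp (-l * |(z ^ 2).im|) := Real.exp_le_exp.2 (by linarith)
      have h17 : (1 : ℝ) / 3 ≤ Real.exp (-1) := by
        rw [Real.exp_neg, inv_eq_one_div]
        exact one_div_le_one_div_of_le (Real.exp_pos _) (by linarith [Real.exp_one_lt_d9])
      have h18 : δ * l / 192 ≤ 4 * δ * l * B07c_n z * Real.exp (-l * |(z ^ 2).im|) := by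
        have h19 : 0 < δ * l := mul_pos hδ hl
        have h20 : (25 / 4096 : ℝ) * (1 / 3) ≤ B07c_n z * Real.exp (-l * |(z ^ 2).im|) :=
          mul_le_mul (by linarith) (by linarith) (by norm_num) (by linarith)
        have h21 := mul_le_mul_of_nonneg_left h20 h19.le
        nlinarith
      linarith
    simp only [zero_mul, add_zero, zero_add]
    linarith

theorem B07c_phi0_le (z : ℂ) : |phi0 z| ≤ 4 := by
  unfold phi0
  rw [abs_mul, abs_mul, abs_abs, abs_mul]
  have h1 := Real.abs_sin_le_one (Real.pi * z.re)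
  have h2 := Real.abs_sin_le_one (Real.pi * z.im)
  have h3 := Real.abs_cos_le_one (Real.pi * z.re)
  have h4 := Real.abs_cos_le_one (Real.pi * z.im)
  have h5 := abs_add_le (Real.cos (Real.pi * z.re)) (Real.cos (Real.pi * z.im))
  have h6 : |Real.sin (Real.pi * z.re)| * |Real.sin (Real.pi * z.im)| ≤ 1 * 1 :=
    mul_le_mul h1 h2 (abs_nonneg _) zero_le_one
  have h7 : |(2 : ℝ)| * (|Real.sin (Real.pi * z.re)| * |Real.sin (Real.pi * z.im)|) ≤ 2 * 1 := by
    rw [abs_of_pos (by norm_num : (0 : ℝ) < 2)]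
    linarith
  have h8 := mul_le_mul h7 (h5.trans (add_le_add h3 h4)) (abs_nonneg _) (by norm_num)
  linarith

theorem B07c_phi0_le' (z : ℂ) : |phi0 z| ≤ 2 * Real.pi ^ 2 * |(z ^ 2).im| := by
  unfold phi0
  rw [abs_mul, abs_mul, abs_abs, abs_mul, B07c_im, abs_mul, abs_mul]
  have h1 : |Real.sin (Real.pi * z.re)| ≤ Real.pi * |z.re| := by
    have := Real.abs_sin_le_abs (x := Real.pi * z.re)
    rwa [abs_mul, abs_of_pos Real.pi_pos] at this
  have h2 : |Real.sin (Real.pi * z.im)| ≤ Real.pi * |z.im| := by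
    have := Real.abs_sin_le_abs (x := Real.pi * z.im)
    rwa [abs_mul, abs_of_pos Real.pi_pos] at this
  have h3 := Real.abs_cos_le_one (Real.pi * z.re)
  have h4 := Real.abs_cos_le_one (Real.pi * z.im)
  have h5 := abs_add_le (Real.cos (Real.pi * z.re)) (Real.cos (Real.pi * z.im))
  have h6 : |Real.sin (Real.pi * z.re)| * |Real.sin (Real.pi * z.im)| ≤
      (Real.pi * |z.re|) * (Real.pi * |z.im|) :=
    mul_le_mul h1 h2 (abs_nonneg _) (by positivity)
  have h7 : |(2 : ℝ)| * (|Real.sin (Real.pi * z.re)| * |Real.sin (Real.pi * z.im)|) ≤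
      2 * ((Real.pi * |z.re|) * (Real.pi * |z.im|)) := by
    rw [abs_of_pos (by norm_num : (0 : ℝ) < 2)]
    linarith
  have h8 := mul_le_mul h7 (h5.trans (add_le_add h3 h4)) (abs_nonneg _) (by positivity)
  rw [abs_of_pos (by norm_num : (0 : ℝ) < 2)]
  rw [abs_of_pos (by norm_num : (0 : ℝ) < 2)] at h8
  linarith

/-- the weak equation of `e2` -/
theorem B07c_eqn_e2 : EqnS (DD \ Axs) (gr e2) (fun z => 5 * Real.pi ^ 2 * fn e2 z) := by
  obtain ⟨c, hc, -, -, -, -, -, heq⟩ := e2_spec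
  have hA : IsClosed Axs := by
    have : Axs = (fun z : ℂ => z.re * z.im) ⁻¹' {0} := by
      ext z; rfl
    rw [this]
    exact isClosed_singleton.preimage (continuous_re.mul continuous_im)
  have hm : MemLp (fn e2) 2 volume := Lp.memLp (fn e2)
  have hf : MemLp (fun z => 5 * Real.pi ^ 2 * fn e2 z) 2 (volume.restrict DD) :=
    (hm.const_mul _).restrict DD
  refine (eqn_iff (a17_isOpen_DD.sdiff hA) sdiff_subset e2 hf).2 ?_
  intro y hy
  rw [heq y hy, setIntegral_eq_integral_of_ae_compl_eq_zero, ← integral_const_mul]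
  · congr 1
    ext z
    ring
  · filter_upwards [fn_off e2] with z hz h
    rw [hz h, zero_mul]

theorem B07c_eqn {E : Set ℂ} {ts : ℝ} (hts : ts ≤ 1 / 32)
    (hEA : E \ Metric.ball 0 ts = Axs \ Metric.ball 0 ts) {v W : ℂ → ℝ} {G : ℂ → ℂ}
    (hWm : AEStronglyMeasurable W (volume.restrict DD))
    (hW : ∀ᵐ z, z ∈ DD → 0 ≤ W z ∧ W z ≤ 60) (hv : W1 (DD \ E) v G)
    (heq : EqnS (DD \ E) G (fun z => W z * v z)) :
    MemLp (fun z => W z * v z - 5 * Real.pi ^ 2 * fn e2 z) 2 (volume.restrict B07c_Om) ∧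
    EqnS B07c_Om (fun z => G z - gr e2 z)
      (fun z => W z * v z - 5 * Real.pi ^ 2 * fn e2 z) := by
  have hOD : B07c_Om ⊆ DD := fun z hz => hz.1
  have hOE : B07c_Om ⊆ DD \ E := by
    intro z hz
    refine ⟨hz.1, fun hE => ?_⟩
    have h1 : z ∈ E \ Metric.ball 0 ts := by
      refine ⟨hE, fun h => ?_⟩
      rw [mem_ball_zero_iff] at h
      linarith [hz.2.1]
    rw [hEA] at h1
    exact hz.2.2.2 (B07c_Axs.1 h1.1)
  have hOA : B07c_Om ⊆ DD \ Axs := fun z hz => ⟨hz.1, fun h => hz.2.2.2 (B07c_Axs.1 h)⟩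
  obtain ⟨mv, mG⟩ := a17_W1_memLp hv
  have hm : MemLp (fn e2) 2 volume := Lp.memLp (fn e2)
  have hg : MemLp (gr e2) 2 volume := Lp.memLp (toLC e2)
  have hWb : ∀ᵐ z ∂(volume.restrict B07c_Om), 0 ≤ W z ∧ W z ≤ 60 := by
    rw [ae_restrict_iff' B07c_Om_open.measurableSet]
    filter_upwards [hW] with z hz hzΩ
    exact hz (hOD hzΩ)
  have mWv : MemLp (fun z => W z * v z) 2 (volume.restrict B07c_Om) := by
    refine MemLp.of_le_mul (c := 60) (mv.restrict _)
      ((hWm.mono_measure (Measure.restrict_mono hOD le_rfl)).mul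
        (mv.restrict B07c_Om).aestronglyMeasurable) ?_
    filter_upwards [hWb] with z hz
    rw [norm_mul, Real.norm_eq_abs, abs_of_nonneg hz.1]
    exact mul_le_mul_of_nonneg_right hz.2 (norm_nonneg _)
  have me : MemLp (fun z => 5 * Real.pi ^ 2 * fn e2 z) 2 (volume.restrict B07c_Om) :=
    (hm.const_mul _).restrict _
  refine ⟨mWv.sub me, ?_⟩
  intro ζ hζ hR
  have k1 := heq ζ (B07a_Tst_mono hOE hζ) hR
  have k2 := B07c_eqn_e2 ζ (B07a_Tst_mono hOA hζ) hR
  have mζ : MemLp ζ 2 volume := a17_tst_memLp hζ 2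
  have mζg : MemLp (gradient ζ) 2 volume := a17_tst_memLp_grad hζ 2
  have hint : ∀ u : ℂ → ℝ, MemLp u 2 (volume.restrict B07c_Om) →
      Integrable (fun z => u z * ζ z) := by
    intro u hu
    have h1 : IntegrableOn (fun z => u z * ζ z) B07c_Om := a17_mul_int hu (mζ.restrict _)
    refine (integrableOn_iff_integrable_of_support_subset ?_).1 h1
    intro z hz
    rw [Function.mem_support] at hz
    by_contra hcon
    apply hz
    have : ζ z = 0 := image_eq_zero_of_notMem_tsupport (fun h => hcon (hζ.2.2 h))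
    rw [this, mul_zero]
  have e1 : ∀ z, inner ℝ (G z - gr e2 z) (gradient ζ z) =
      inner ℝ (G z) (gradient ζ z) - inner ℝ (gr e2 z) (gradient ζ z) := fun z => by
    rw [inner_sub_left]
  have e2' : ∀ z, (W z * v z - 5 * Real.pi ^ 2 * fn e2 z) * ζ z =
      W z * v z * ζ z - 5 * Real.pi ^ 2 * fn e2 z * ζ z := fun z => by ring
  simp only [e1, e2']
  rw [integral_sub (b02_integrable_inner mG mζg) (b02_integrable_inner hg mζg),
    integral_sub (hint _ mWv) (hint _ me), k1, k2]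

/-- linear closeness near the axes for `1/16 ≤ |z|` around `|z| = 3/32 .. 5/32`; barrier
`δ (A (|z|² - ρ²)² + B s - B' s²)`, `s = |Im z²|` -/
theorem F2_lin {δ : ℝ} (hδ : 0 < δ) : ∃ ts κ : ℝ, 0 < ts ∧ ts ≤ 1 / 32 ∧ 0 < κ ∧
    ∀ (E : Set ℂ) (v W : ℂ → ℝ) (G : ℂ → ℂ), IsClosed E → E ⊆ Mir → (∀ z, I * z ∈ E ↔ z ∈ E) →
      E \ Metric.ball 0 ts = Axs \ Metric.ball 0 ts → AEStronglyMeasurable W (volume.restrict DD) →
      (∀ᵐ z, z ∈ DD → 0 ≤ W z ∧ W z ≤ 60) → ∫ z in DD, |W z - 5 * Real.pi ^ 2| ^ 3 ≤ κ →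
      W1 (DD \ E) v G → EqnS (DD \ E) G (fun z => W z * v z) → ∫ z, ‖G z - gr e2 z‖ ^ 2 ≤ κ →
      ∀ᵐ z : ℂ, z ∈ DD → 7 / 64 ≤ ‖z‖ → ‖z‖ ≤ 9 / 64 → |v z - fn e2 z| ≤ δ * |(z ^ 2).im| := by
  obtain ⟨C₀, hC₀, hF1⟩ := F1
  obtain ⟨c, hc, hn1, hfn, -, hVe, -, -⟩ := e2_spec
  obtain ⟨M, hM0, hM⟩ := B07c_lap_R
  set C : ℝ := C₀ + 4 * c with hC
  have hCp : 0 < C := by positivity
  set l : ℝ := max (192 * (C * M + 1) / δ) (240 * Real.pi ^ 2 * c) with hl
  have hlp : 0 < l := lt_of_lt_of_le (by positivity) (le_max_right _ _)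
  have hl1 : C * M + 1 ≤ δ * l / 192 := by
    have h1 : 192 * (C * M + 1) / δ ≤ l := le_max_left _ _
    rw [div_le_iff₀ hδ] at h1
    linarith
  have hl2 : 240 * Real.pi ^ 2 * c ≤ l := le_max_right _ _
  have hδ' : 0 < min (1 / 120) (δ / (2 * l)) := lt_min (by norm_num) (by positivity)
  obtain ⟨ts, κ, hts0, hts, hκ, hsup⟩ := F2_sup hδ'
  refine ⟨ts, min κ 1, hts0, hts, lt_min hκ one_pos, ?_⟩
  intro E v W G hE hEM hEI hEA hWm hW hW3 hv heq hGe
  have hs := hsup E v W G hE hEM hEI hEA hWm hW (hW3.trans (min_le_left _ _)) hv heq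
    (hGe.trans (min_le_left _ _))
  have hEo : IsOpen (DD \ E) := a17_isOpen_DD.sdiff hE
  have hI1 : ∀ z ∈ DD \ E, I * z ∈ DD \ E := fun z hz =>
    ⟨a17_DD_rot z hz.1, fun h => hz.2 ((hEI z).1 h)⟩
  obtain ⟨x, hxV, hx1, hx2⟩ := V_mk sdiff_subset hv
  have hyg : ∀ᵐ z, gr (x - e2) z = G z - gr e2 z := by
    have h1 : gr (x - e2) =ᵐ[volume] fun z => gr x z - gr e2 z := by
      unfold gr
      rw [map_sub]
      exact Lp.coeFn_sub _ _
    filter_upwards [h1, hx2] with z a b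
    rw [a, b]
  have hyf : ∀ᵐ z, fn (x - e2) z = v z - fn e2 z := by
    have h1 : fn (x - e2) =ᵐ[volume] fun z => fn x z - fn e2 z := by
      rw [map_sub]
      exact Lp.coeFn_sub _ _
    filter_upwards [h1, hx1] with z a b
    rw [a, b]
  have hyn : ‖x - e2‖ ≤ 1 := by
    have h1 : ‖x - e2‖ ^ 2 ≤ 1 := by
      rw [norm_HH]
      have : ∫ z, ‖gr (x - e2) z‖ ^ 2 = ∫ z, ‖G z - gr e2 z‖ ^ 2 := by
        apply integral_congr_ae
        filter_upwards [hyg] with z hz
        rw [hz]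
      rw [this]
      exact hGe.trans (min_le_right _ _)
    nlinarith [norm_nonneg (x - e2)]
  have hxn : ∫ z, ‖G z‖ ^ 2 ≤ 4 := by
    have h1 : ‖x‖ ≤ 2 := by
      have : x = (x - e2) + e2 := by abel
      calc ‖x‖ = ‖(x - e2) + e2‖ := by rw [← this]
        _ ≤ ‖x - e2‖ + ‖e2‖ := norm_add_le _ _
        _ ≤ 1 + 1 := add_le_add hyn hn1.le
        _ = 2 := by norm_num
    have h2 : ∫ z, ‖G z‖ ^ 2 = ‖x‖ ^ 2 := by
      rw [norm_HH]
      apply integral_congr_ae
      filter_upwards [hx2] with z hz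
      rw [hz]
    rw [h2]
    nlinarith [norm_nonneg x]
  have hf1 := hF1 (DD \ E) hEo sdiff_subset hI1 v W G hv hWm hW heq hxn
  obtain ⟨hfm, hEq⟩ := B07c_eqn hts hEA hWm hW hv heq
  -- the common wall
  have hAc : IsClosed Axs := by
    have : Axs = (fun z : ℂ => z.re * z.im) ⁻¹' {0} := by
      ext z; rfl
    rw [this]
    exact isClosed_singleton.preimage (continuous_re.mul continuous_im)
  have hF : IsClosed (E ∩ Axs) := hE.inter hAc
  have hFI : ∀ z, I * z ∈ E ∩ Axs ↔ z ∈ E ∩ Axs := by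
    intro z
    have h1 : I * z ∈ Axs ↔ z ∈ Axs := by
      rw [B07c_Axs, B07c_Axs, B07c_im_rot, neg_eq_zero]
    exact and_congr (hEI z) h1
  have hFB : Axs \ Metric.ball 0 (1 / 32) ⊆ E ∩ Axs := by
    intro z hz
    have h1 : z ∈ Axs \ Metric.ball 0 ts :=
      ⟨hz.1, fun h => hz.2 (Metric.ball_subset_ball hts h)⟩
    have h2 := h1
    rw [← hEA] at h2
    exact ⟨h2.1, h1.1⟩
  have hyV : x - e2 ∈ V (DD \ (E ∩ Axs)) := by
    have s1 : DD \ E ⊆ DD \ (E ∩ Axs) := fun z hz => ⟨hz.1, fun h => hz.2 h.1⟩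
    have s2 : DD \ Axs ⊆ DD \ (E ∩ Axs) := fun z hz => ⟨hz.1, fun h => hz.2 h.2⟩
    exact Submodule.sub_mem _ (V_mono s1 hxV) (V_mono s2 hVe)
  have hyW := V_approx (Ω := DD \ (E ∩ Axs)) sdiff_subset hyV
  have hD1 : W1 (DD \ (E ∩ Axs)) (fun z => v z - fn e2 z) (fun z => G z - gr e2 z) := by
    obtain ⟨φ, p1, p2⟩ := hyW
    exact ⟨φ, p1, a17_lim_congr p2 hyf hyg⟩
  have hb1 : ∀ᵐ z, z ∈ DD → |v z - fn e2 z| ≤ C := by
    filter_upwards [hf1, hfn] with z a b hz
    have h1 := a hz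
    have h2 := (bet_pos hz)
    have h3 : bet z ^ (3 / 4 : ℝ) ≤ 1 := Real.rpow_le_one h2.1.le h2.2 (by norm_num)
    have h4 : |fn e2 z| ≤ 4 * c := by
      rw [b, indicator_of_mem hz, abs_mul, abs_of_pos hc]
      have := mul_le_mul_of_nonneg_left (B07c_phi0_le z) hc.le
      linarith
    have h5 := abs_sub (v z) (fn e2 z)
    have h6 := mul_le_mul_of_nonneg_left h3 hC₀.le
    linarith
  have hb2 : ∀ᵐ z : ℂ, z ∈ DD → 1 / 16 ≤ ‖z‖ → |v z - fn e2 z| ≤ δ / (2 * l) := by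
    filter_upwards [hs] with z a hz hz2
    exact (a hz hz2).trans (min_le_right _ _)
  have hb3 : ∀ᵐ z : ℂ, z ∈ DD → 1 / 16 ≤ ‖z‖ → l * |(z ^ 2).im| < 1 →
      |W z * v z - 5 * Real.pi ^ 2 * fn e2 z| ≤ 1 := by
    filter_upwards [hs, hW, hfn] with z a b d hz hz2 hz3
    obtain ⟨w1, w2⟩ := b hz
    have h1 : |v z - fn e2 z| ≤ 1 / 120 := (a hz hz2).trans (min_le_left _ _)
    have h2 : |fn e2 z| ≤ c * (2 * Real.pi ^ 2 * |(z ^ 2).im|) := by
      rw [d, indicator_of_mem hz, abs_mul, abs_of_pos hc]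
      exact mul_le_mul_of_nonneg_left (B07c_phi0_le' z) hc.le
    have h3 : |W z - 5 * Real.pi ^ 2| ≤ 60 := by
      have p1 := Real.pi_gt_three
      have p2 := Real.pi_lt_d2
      rw [abs_le]
      constructor <;> nlinarith
    have e : W z * v z - 5 * Real.pi ^ 2 * fn e2 z =
        W z * (v z - fn e2 z) + (W z - 5 * Real.pi ^ 2) * fn e2 z := by ring
    rw [e]
    refine (abs_add_le _ _).trans ?_
    rw [abs_mul, abs_mul, abs_of_nonneg w1]
    have h4 : W z * |v z - fn e2 z| ≤ 60 * (1 / 120) :=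
      mul_le_mul w2 h1 (abs_nonneg _) (by norm_num)
    have h5 : |W z - 5 * Real.pi ^ 2| * |fn e2 z| ≤ 60 * (c * (2 * Real.pi ^ 2 * |(z ^ 2).im|)) :=
      mul_le_mul h3 h2 (abs_nonneg _) (by norm_num)
    have h6 := mul_le_mul_of_nonneg_right hl2 (abs_nonneg (z ^ 2).im)
    linarith
  have hmain1 := B07c_cmp hF hFI hFB hCp hδ hlp hM hl1 hD1 hfm
    (fun ζ a b _ => (hEq ζ a b).le)
    (by filter_upwards [hb1] with z a hz using (le_abs_self _).trans (a hz))
    (by filter_upwards [hb2] with z a hz hz2 using (le_abs_self _).trans (a hz hz2))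
    (by filter_upwards [hb3] with z a hz hz2 hz3 using (le_abs_self _).trans (a hz hz2 hz3))
  have hmain2 := B07c_cmp hF hFI hFB hCp hδ hlp hM hl1 (B07a_W1_neg hD1) hfm.neg
    (by
      intro ζ a b _
      have h1 := hEq ζ a b
      have k1 : ∀ z, inner ℝ (-(G z - gr e2 z)) (gradient ζ z) =
          -inner ℝ (G z - gr e2 z) (gradient ζ z) := fun z => by rw [inner_neg_left]
      have k2 : ∀ z, (-fun z => W z * v z - 5 * Real.pi ^ 2 * fn e2 z) z * ζ z =
          -((W z * v z - 5 * Real.pi ^ 2 * fn e2 z) * ζ z) := fun z => by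
        simp only [Pi.neg_apply]
        ring
      simp only [k1, k2, integral_neg, h1, le_refl])
    (by filter_upwards [hb1] with z a hz using (neg_le_abs _).trans (a hz))
    (by filter_upwards [hb2] with z a hz hz2 using (neg_le_abs _).trans (a hz hz2))
    (by filter_upwards [hb3] with z a hz hz2 hz3 using (neg_le_abs _).trans (a hz hz2 hz3))
  filter_upwards [hmain1, hmain2] with z a b hz hz1 hz2
  exact abs_le.2 ⟨by linarith [b hz hz1 hz2], a hz hz1 hz2⟩

/-- explicit lower bound for `e2` -/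
theorem e2_lower : ∃ c : ℝ, 0 < c ∧ ∀ᵐ z : ℂ, ‖z‖ ≤ 1 / 4 → c * |(z ^ 2).im| ≤ fn e2 z := by
  obtain ⟨c, hc, -, hfn, -⟩ := e2_spec
  refine ⟨4 * c, by positivity, ?_⟩
  filter_upwards [hfn] with z hz hn
  have h1 : |z.re| ≤ 1 / 4 := (Complex.abs_re_le_norm z).trans hn
  have h2 : |z.im| ≤ 1 / 4 := (Complex.abs_im_le_norm z).trans hn
  have hD : z ∈ DD := ⟨by linarith, by linarith⟩
  rw [hz, indicator_of_mem hD]
  have hp := Real.pi_pos
  have hp2 := Real.pi_lt_d2
  have key : ∀ t : ℝ, |t| ≤ 1 / 4 → 2 * |t| ≤ |Real.sin (Real.pi * t)| ∧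
      1 / 2 ≤ Real.cos (Real.pi * t) := by
    intro t ht
    have h3 : |Real.pi * t| ≤ Real.pi * (1 / 4) := by
      rw [abs_mul, abs_of_pos hp]
      exact mul_le_mul_of_nonneg_left ht hp.le
    constructor
    · have h4 := Real.mul_abs_le_abs_sin (x := Real.pi * t) (by linarith)
      have e : 2 / Real.pi * |Real.pi * t| = 2 * |t| := by
        rw [abs_mul, abs_of_pos hp]
        field_simp
      linarith
    · have h4 := Real.one_sub_sq_div_two_le_cos (x := Real.pi * t)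
      have h5 : (Real.pi * t) ^ 2 ≤ 1 := by
        rw [← sq_abs]
        have h6 : |Real.pi * t| ≤ 1 := by linarith
        nlinarith [abs_nonneg (Real.pi * t)]
      linarith
  obtain ⟨a1, a2⟩ := key z.re h1
  obtain ⟨b1, b2⟩ := key z.im h2
  unfold phi0
  rw [B07c_im, abs_mul, abs_mul, abs_mul, abs_of_pos (by norm_num : (0 : ℝ) < 2)]
  have h3 : (2 * |z.re|) * (2 * |z.im|) ≤
      |Real.sin (Real.pi * z.re)| * |Real.sin (Real.pi * z.im)| :=
    mul_le_mul a1 b1 (by positivity) (abs_nonneg _)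
  have h4 : ((2 * |z.re|) * (2 * |z.im|)) * 1 ≤
      (|Real.sin (Real.pi * z.re)| * |Real.sin (Real.pi * z.im)|) *
        (Real.cos (Real.pi * z.re) + Real.cos (Real.pi * z.im)) :=
    mul_le_mul h3 (by linarith) zero_le_one (by positivity)
  have h5 := mul_le_mul_of_nonneg_left h4 hc.le
  linarith

end Pool.Agent.H87.LE
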