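import Pool.Agent.H87.LE.A01_Green
import Pool.Agent.H87.LE.B07c_F2lin

open MeasureTheory Complex Set Filter Topology
open scoped ContDiff Laplacian

namespace Pool.Agent.H87.LE

/-! ## mirrors are a null set -/

theorem b07d_line (a b : ℝ) (hab : a ≠ 0 ∨ b ≠ 0) :
    volume {z : ℂ | a * z.re + b * z.im = 0} = 0 := by
  let L : ℂ →ₗ[ℝ] ℝ := a • Complex.reLm + b • Complex.imLm
  have h1 : {z : ℂ | a * z.re + b * z.im = 0} = (LinearMap.ker L : Set ℂ) := by
    ext z
    simp [L]
  rw [h1]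
  apply Measure.addHaar_submodule
  intro h2
  rw [LinearMap.ker_eq_top] at h2
  rcases hab with h | h
  · have : L 1 = 0 := by rw [h2]; rfl
    simp [L] at this
    exact h this
  · have : L I = 0 := by rw [h2]; rfl
    simp [L] at this
    exact h this

theorem b07d_im4 (z : ℂ) : (z ^ 4).im = 4 * (z.re * z.im * (z.re ^ 2 - z.im ^ 2)) := by
  have : z ^ 4 = (z ^ 2) ^ 2 := by ring
  rw [this, pow_two, Complex.mul_im, pow_two, Complex.mul_re, Complex.mul_im]
  ring

theorem b07d_im2 (z : ℂ) : (z ^ 2).im = 2 * (z.re * z.im) := by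
  rw [pow_two, Complex.mul_im]; ring

theorem b07d_mir_iff (z : ℂ) : (z ^ 4).im = 0 ↔ z ∈ Mir := by
  rw [b07d_im4]
  simp only [Mir, mem_ofPred_eq]
  constructor
  · intro h; linarith
  · intro h; rw [h]; ring

theorem b07d_mir_null : volume Mir = 0 := by
  have hs : Mir ⊆ ({z : ℂ | 1 * z.re + 0 * z.im = 0} ∪ {z : ℂ | 0 * z.re + 1 * z.im = 0}) ∪
      ({z : ℂ | 1 * z.re + 1 * z.im = 0} ∪ {z : ℂ | 1 * z.re + (-1) * z.im = 0}) := by
    intro z hz
    have hz' : z.re * z.im * ((z.re + z.im) * (z.re - z.im)) = 0 := by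
      have : z.re * z.im * (z.re ^ 2 - z.im ^ 2) = 0 := hz
      rw [← this]; ring
    rcases mul_eq_zero.1 hz' with h | h
    · rcases mul_eq_zero.1 h with h | h
      · exact Or.inl (Or.inl (by simp [h]))
      · exact Or.inl (Or.inr (by simp [h]))
    · rcases mul_eq_zero.1 h with h | h
      · exact Or.inr (Or.inl (by simp only [mem_ofPred_eq]; linarith))
      · exact Or.inr (Or.inr (by simp only [mem_ofPred_eq]; linarith))
  refine measure_mono_null hs ?_
  rw [measure_union_null_iff, measure_union_null_iff, measure_union_null_iff]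
  exact ⟨⟨b07d_line 1 0 (by simp), b07d_line 0 1 (by simp)⟩,
    b07d_line 1 1 (by simp), b07d_line 1 (-1) (by simp)⟩

/-! ## the harmonic polynomial -/

/-- `Im z⁴` -/
noncomputable def b07d_u (z : ℂ) : ℝ := (z ^ 4).im

theorem b07d_u_smooth : ContDiff ℝ ∞ b07d_u := by
  unfold b07d_u
  exact Complex.imCLM.contDiff.comp (contDiff_id.pow 4)

theorem b07d_harm {η : ℂ → ℝ} (hη : Tst univ η) :
    ∫ z, inner ℝ (gradient b07d_u z) (gradient η z) = 0 := by
  have h2' : ContDiff ℝ 2 b07d_u := by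
    unfold b07d_u
    exact Complex.imCLM.contDiff.comp (contDiff_id.pow 4)
  have h := (green isOpen_univ (f := b07d_u) h2'.contDiffOn hη).2.2
  rw [h]
  have h2 : ∀ z, Δ b07d_u z = 0 := by
    intro z
    have ha : AnalyticAt ℂ (fun z : ℂ => z ^ 4) z := by fun_prop
    have := ha.harmonicAt_im.2
    exact this.eq_of_nhds
  simp [h2]

/-! ## subharmonicity of `|Im z⁴|` -/

theorem b07d_grad_pos {z : ℂ} (h : 0 < b07d_u z) : gradient hh z = gradient b07d_u z := by
  have h1 : hh =ᶠ[𝓝 z] b07d_u := by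
    filter_upwards [(isOpen_lt continuous_const b07d_u_smooth.continuous).mem_nhds h] with w hw
    exact abs_of_pos hw
  unfold gradient
  rw [h1.fderiv_eq]

theorem b07d_grad_neg {z : ℂ} (h : b07d_u z < 0) : gradient hh z = - gradient b07d_u z := by
  have h1 : hh =ᶠ[𝓝 z] fun z => - b07d_u z := by
    filter_upwards [(isOpen_lt b07d_u_smooth.continuous continuous_const).mem_nhds h] with w hw
    exact abs_of_neg hw
  unfold gradient
  rw [h1.fderiv_eq, fderiv_fun_neg, map_neg]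

theorem b07d_grad_comp {g : ℝ → ℝ} (hg : ContDiff ℝ ∞ g) {ζ : ℂ → ℝ} (hζ : ContDiff ℝ ∞ ζ)
    (z : ℂ) : gradient (fun z => g (b07d_u z) * ζ z) z =
      (ζ z * deriv g (b07d_u z)) • gradient b07d_u z + g (b07d_u z) • gradient ζ z := by
  have h1 : HasFDerivAt b07d_u (fderiv ℝ b07d_u z) z :=
    (b07d_u_smooth.differentiable (by simp) z).hasFDerivAt
  have h2 : HasDerivAt g (deriv g (b07d_u z)) (b07d_u z) :=
    (hg.differentiable (by simp) _).hasDerivAt
  have h3 := h2.comp_hasFDerivAt z h1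
  have h4 : HasFDerivAt ζ (fderiv ℝ ζ z) z := (hζ.differentiable (by simp) z).hasFDerivAt
  have h5 := h3.mul h4
  have h6 : fderiv ℝ (fun z => g (b07d_u z) * ζ z) z = g (b07d_u z) • fderiv ℝ ζ z +
      ζ z • deriv g (b07d_u z) • fderiv ℝ b07d_u z := h5.fderiv
  unfold gradient
  rw [h6, map_add, map_smulₛₗ, map_smulₛₗ, map_smulₛₗ]
  simp only [conj_trivial]
  rw [smul_smul, add_comm]

theorem b07d_sub {ζ : ℂ → ℝ} (hζ : Tst univ ζ) (h0 : ∀ z, 0 ≤ ζ z) :
    ∫ z, inner ℝ (gradient hh z) (gradient ζ z) ≤ 0 := by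
  have hgu : Continuous (gradient b07d_u) := a17_gradient_cont b07d_u_smooth
  have hgζ : Continuous (gradient ζ) := a17_gradient_cont hζ.1
  have hcs : HasCompactSupport (gradient ζ) := a17_tst_grad_supp hζ
  have hi0 : Integrable (fun z => inner ℝ (gradient b07d_u z) (gradient ζ z)) := by
    refine (hgu.inner hgζ).integrable_of_hasCompactSupport ?_
    refine HasCompactSupport.intro hcs ?_
    intro z hz
    rw [image_eq_zero_of_notMem_tsupport hz, inner_zero_right]
  have hg : ∀ n : ℕ, ContDiff ℝ ∞ (fun t : ℝ => Real.arctan (n * t)) := fun n =>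
    Real.contDiff_arctan.comp (contDiff_const.mul contDiff_id)
  have hη : ∀ n : ℕ, Tst univ (fun z => Real.arctan (n * b07d_u z) * ζ z) := fun n =>
    ⟨((hg n).comp b07d_u_smooth).mul hζ.1, hζ.2.1.mul_left, subset_univ _⟩
  have hle : ∀ n : ℕ, ∫ z, Real.arctan (n * b07d_u z) * inner ℝ (gradient b07d_u z)
      (gradient ζ z) ≤ 0 := by
    intro n
    rw [← b07d_harm (hη n)]
    refine integral_mono ?_ ?_ ?_
    · have hc : Continuous (fun z => Real.arctan (n * b07d_u z) *
          inner ℝ (gradient b07d_u z) (gradient ζ z)) :=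
        (Real.continuous_arctan.comp (continuous_const.mul b07d_u_smooth.continuous)).mul
          (hgu.inner hgζ)
      refine hc.integrable_of_hasCompactSupport ?_
      refine HasCompactSupport.intro hcs ?_
      intro z hz
      rw [image_eq_zero_of_notMem_tsupport hz, inner_zero_right, mul_zero]
    · have hc : Continuous (fun z => inner ℝ (gradient b07d_u z)
          (gradient (fun z => Real.arctan (n * b07d_u z) * ζ z) z)) :=
        hgu.inner (a17_gradient_cont (hη n).1)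
      refine hc.integrable_of_hasCompactSupport ?_
      refine HasCompactSupport.intro (a17_tst_grad_supp (hη n)) ?_
      intro z hz
      rw [image_eq_zero_of_notMem_tsupport hz, inner_zero_right]
    · intro z
      simp only
      rw [b07d_grad_comp (hg n) hζ.1 z, inner_add_right, inner_smul_right, inner_smul_right,
        real_inner_self_eq_norm_sq]
      have hd : 0 ≤ deriv (fun t : ℝ => Real.arctan (n * t)) (b07d_u z) := by
        apply Monotone.deriv_nonneg
        intro s t hst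
        exact Real.arctan_strictMono.monotone (mul_le_mul_of_nonneg_left hst (Nat.cast_nonneg n))
      have : 0 ≤ ζ z * deriv (fun t : ℝ => Real.arctan (n * t)) (b07d_u z) *
          ‖gradient b07d_u z‖ ^ 2 := by
        have := h0 z
        positivity
      linarith
  have hlim : Tendsto (fun n : ℕ => ∫ z, Real.arctan (n * b07d_u z) *
      inner ℝ (gradient b07d_u z) (gradient ζ z)) atTop
      (𝓝 (∫ z, Real.pi / 2 * inner ℝ (gradient hh z) (gradient ζ z))) := by
    refine tendsto_integral_of_dominated_convergence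
      (fun z => Real.pi / 2 * ‖(inner ℝ (gradient b07d_u z) (gradient ζ z) : ℝ)‖) ?_
      (hi0.norm.const_mul _) ?_ ?_
    · intro n
      exact ((Real.continuous_arctan.comp (continuous_const.mul b07d_u_smooth.continuous)).mul
          (hgu.inner hgζ)).aestronglyMeasurable
    · intro n
      filter_upwards with z
      rw [norm_mul]
      refine mul_le_mul_of_nonneg_right ?_ (norm_nonneg _)
      rw [Real.norm_eq_abs]
      exact abs_le.2 ⟨(Real.neg_pi_div_two_lt_arctan _).le, (Real.arctan_lt_pi_div_two _).le⟩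
    · have hn : ∀ᵐ z : ℂ, z ∉ Mir := by
        rw [ae_iff]; simpa using b07d_mir_null
      filter_upwards [hn] with z hz
      have hu : b07d_u z ≠ 0 := fun h => hz ((b07d_mir_iff z).1 h)
      rcases lt_or_gt_of_ne hu with h | h
      · rw [b07d_grad_neg h, inner_neg_left]
        have h1 : Tendsto (fun n : ℕ => Real.arctan (n * b07d_u z)) atTop (𝓝 (-(Real.pi / 2))) :=
          (tendsto_nhds_of_tendsto_nhdsWithin Real.tendsto_arctan_atBot).comp
            (tendsto_natCast_atTop_atTop.atTop_mul_const_of_neg h)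
        have := h1.mul_const (inner ℝ (gradient b07d_u z) (gradient ζ z))
        convert this using 2
        ring
      · rw [b07d_grad_pos h]
        have h1 : Tendsto (fun n : ℕ => Real.arctan (n * b07d_u z)) atTop (𝓝 (Real.pi / 2)) :=
          (tendsto_nhds_of_tendsto_nhdsWithin Real.tendsto_arctan_atTop).comp
            (tendsto_natCast_atTop_atTop.atTop_mul_const h)
        exact h1.mul_const _
  have h3 := le_of_tendsto' hlim hle
  rw [integral_const_mul] at h3
  have hpi : 0 < Real.pi / 2 := by positivity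
  by_contra hcon
  push Not at hcon
  have := mul_pos hpi hcon
  linarith

/-! ## cutoffs -/

theorem b07d_cut {r₁ r₂ : ℝ} (h0 : 0 < r₁) (h : r₁ < r₂) : ∃ χ : ℂ → ℝ, ContDiff ℝ ∞ χ ∧
    Rot χ ∧ (∀ z, 0 ≤ χ z ∧ χ z ≤ 1) ∧ (∀ z, ‖z‖ ≤ r₁ → χ z = 1) ∧ (∀ z, ‖z‖ < r₂ → 0 < χ z) ∧
    (∀ z, r₂ ≤ ‖z‖ → χ z = 0) := by
  have hd : 0 < r₂ ^ 2 - r₁ ^ 2 := by nlinarith
  have hn : ∀ z : ℂ, ‖z‖ ^ 2 = z.re ^ 2 + z.im ^ 2 := fun z => by
    rw [Complex.sq_norm, Complex.normSq_apply]; ring
  refine ⟨fun z => Real.smoothTransition ((r₂ ^ 2 - (z.re ^ 2 + z.im ^ 2)) / (r₂ ^ 2 - r₁ ^ 2)),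
    ?_, ?_, ?_, ?_, ?_, ?_⟩
  · have hre : ContDiff ℝ ∞ (fun z : ℂ => z.re) := Complex.reCLM.contDiff
    have him : ContDiff ℝ ∞ (fun z : ℂ => z.im) := Complex.imCLM.contDiff
    have h1 : ContDiff ℝ ∞ (fun z : ℂ => (r₂ ^ 2 - (z.re ^ 2 + z.im ^ 2)) / (r₂ ^ 2 - r₁ ^ 2)) :=
      (contDiff_const.sub ((hre.pow 2).add (him.pow 2))).div_const _
    exact Real.smoothTransition.contDiff.comp h1
  · intro z
    have e1 : (I * z).re = - z.im := by simp
    have e2 : (I * z).im = z.re := by simp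
    simp only [e1, e2]
    congr 2
    ring
  · intro z
    exact ⟨Real.smoothTransition.nonneg _, Real.smoothTransition.le_one _⟩
  · intro z hz
    simp only [← hn]
    apply Real.smoothTransition.one_of_one_le
    rw [le_div_iff₀ hd]
    have := pow_le_pow_left₀ (norm_nonneg z) hz 2
    linarith
  · intro z hz
    simp only [← hn]
    apply Real.smoothTransition.pos_of_pos
    apply div_pos _ hd
    have := pow_lt_pow_left₀ hz (norm_nonneg z) two_ne_zero
    linarith
  · intro z hz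
    simp only [← hn]
    apply Real.smoothTransition.zero_of_nonpos
    apply div_nonpos_of_nonpos_of_nonneg _ hd.le
    have := pow_le_pow_left₀ (by linarith) hz 2
    linarith

theorem b07d_norm_I (z : ℂ) : ‖I * z‖ = ‖z‖ := by simp

theorem b07d_mir_I (z : ℂ) : I * z ∈ Mir ↔ z ∈ Mir := by
  rw [← b07d_mir_iff, ← b07d_mir_iff]
  have : (I * z) ^ 4 = z ^ 4 := by rw [mul_pow, Complex.I_pow_four, one_mul]
  rw [this]

theorem b07d_hh_I (z : ℂ) : hh (I * z) = hh z := by
  unfold hh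
  have : (I * z) ^ 4 = z ^ 4 := by rw [mul_pow, Complex.I_pow_four, one_mul]
  rw [this]

theorem b07d_hh_cont : Continuous hh := by
  unfold hh
  exact continuous_abs.comp (Complex.continuous_im.comp (continuous_pow 4))

theorem b07d_mir_closed : IsClosed Mir := by
  have : Mir = {z : ℂ | b07d_u z = 0} := by
    ext z
    exact (b07d_mir_iff z).symm
  rw [this]
  exact isClosed_eq b07d_u_smooth.continuous continuous_const

theorem b07d_hh_smooth {z : ℂ} (hz : z ∉ Mir) : ContDiffAt ℝ ∞ hh z := by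
  have hu : b07d_u z ≠ 0 := fun h => hz ((b07d_mir_iff z).1 h)
  rcases lt_or_gt_of_ne hu with h | h
  · have h1 : hh =ᶠ[𝓝 z] fun z => - b07d_u z := by
      filter_upwards [(isOpen_lt b07d_u_smooth.continuous continuous_const).mem_nhds h] with w hw
      exact abs_of_neg hw
    exact b07d_u_smooth.contDiffAt.neg.congr_of_eventuallyEq h1
  · have h1 : hh =ᶠ[𝓝 z] b07d_u := by
      filter_upwards [(isOpen_lt continuous_const b07d_u_smooth.continuous).mem_nhds h] with w hw
      exact abs_of_pos hw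
    exact b07d_u_smooth.contDiffAt.congr_of_eventuallyEq h1

theorem b07d_hh_grad_norm {z : ℂ} (hz : z ∉ Mir) : ‖gradient hh z‖ = ‖gradient b07d_u z‖ := by
  have hu : b07d_u z ≠ 0 := fun h => hz ((b07d_mir_iff z).1 h)
  rcases lt_or_gt_of_ne hu with h | h
  · rw [b07d_grad_neg h, norm_neg]
  · rw [b07d_grad_pos h]

theorem b07d_grad_meas (ψ : ℂ → ℝ) : Measurable (gradient ψ) :=
  (InnerProductSpace.toDual ℝ ℂ).symm.continuous.measurable.comp (measurable_fderiv ℝ ψ)

theorem b07d_grad_mul {χ ψ : ℂ → ℝ} {z : ℂ} (h1 : DifferentiableAt ℝ χ z)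
    (h2 : DifferentiableAt ℝ ψ z) :
    gradient (fun z => χ z * ψ z) z = χ z • gradient ψ z + ψ z • gradient χ z := by
  have h := (h1.hasFDerivAt.mul h2.hasFDerivAt).fderiv
  have h6 : fderiv ℝ (fun z => χ z * ψ z) z = χ z • fderiv ℝ ψ z + ψ z • fderiv ℝ χ z := h
  unfold gradient
  rw [h6, map_add, map_smulₛₗ, map_smulₛₗ]
  simp only [conj_trivial]

/-- `χ |Im z⁴|` belongs to `W1` of the complement of the mirrors -/
theorem b07d_hhW {r₁ r₂ : ℝ} (h : r₁ < r₂) (h2 : r₂ < 1) {χ : ℂ → ℝ}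
    (hχ : ContDiff ℝ ∞ χ) (hR : Rot χ) (hb : ∀ z, 0 ≤ χ z ∧ χ z ≤ 1)
    (h1 : ∀ z, ‖z‖ ≤ r₁ → χ z = 1) (hp : ∀ z, ‖z‖ < r₂ → 0 < χ z)
    (hz : ∀ z, r₂ ≤ ‖z‖ → χ z = 0) :
    ∃ K : ℂ → ℂ, W1 (DD \ Mir) (fun z => χ z * hh z) K ∧
      ∀ z, ‖z‖ < r₁ → z ∉ Mir → K z = gradient hh z := by
  set Ω : Set ℂ := Metric.ball 0 r₂ \ Mir with hΩdef
  have hΩ : IsOpen Ω := Metric.isOpen_ball.sdiff b07d_mir_closed
  have hball : Metric.ball (0 : ℂ) r₂ ⊆ DD := by
    intro z hz
    rw [mem_ball_zero_iff] at hz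
    exact ⟨(Complex.abs_re_le_norm z).trans_lt (hz.trans h2),
      (Complex.abs_im_le_norm z).trans_lt (hz.trans h2)⟩
  have hD : Ω ⊆ DD := sdiff_subset.trans hball
  set ψ : ℂ → ℝ := fun z => χ z * hh z with hψdef
  have hψc : Continuous ψ := hχ.continuous.mul b07d_hh_cont
  have hψ : ContDiffOn ℝ ∞ ψ Ω := by
    intro z hz
    exact (hχ.contDiffAt.mul (b07d_hh_smooth hz.2)).contDiffWithinAt
  have hhpos : ∀ z, z ∉ Mir → 0 < hh z := by
    intro z hz
    exact abs_pos.2 (fun h => hz ((b07d_mir_iff z).1 h))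
  have hψ0 : ∀ z, 0 ≤ ψ z := fun z => mul_nonneg (hb z).1 (abs_nonneg _)
  have hψpos : ∀ z ∈ Ω, 0 < ψ z := by
    intro z hz
    exact mul_pos (hp z (by simpa using hz.1)) (hhpos z hz.2)
  have hψout : ∀ z, z ∉ Ω → ψ z = 0 := by
    intro z hz'
    by_cases hm : z ∈ Mir
    · have : hh z = 0 := by
        unfold hh
        rw [(b07d_mir_iff z).2 hm, abs_zero]
      simp only [hψdef, this, mul_zero]
    · have : r₂ ≤ ‖z‖ := by
        by_contra hcon
        exact hz' ⟨by simpa using not_le.1 hcon, hm⟩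
      simp only [hψdef, hz z this, zero_mul]
  have hgψ : ∀ z ∈ Ω, gradient ψ z = χ z • gradient hh z + hh z • gradient χ z := by
    intro z hz'
    exact b07d_grad_mul (hχ.differentiable (by simp) z)
      ((b07d_hh_smooth hz'.2).differentiableAt (by simp))
  have hc : ∀ ε > 0, IsCompact {z ∈ Ω | ε ≤ |ψ z|} := by
    intro ε hε
    have e : {z ∈ Ω | ε ≤ |ψ z|} = {z | ε ≤ ψ z} := by
      ext z
      constructor
      · rintro ⟨-, h⟩
        rwa [abs_of_nonneg (hψ0 z)] at h
      · intro h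
        refine ⟨?_, ?_⟩
        · by_contra hcon
          have := hψout z hcon
          have h' : ε ≤ ψ z := h
          linarith
        · rwa [abs_of_nonneg (hψ0 z)]
    rw [e]
    refine Metric.isCompact_of_isClosed_isBounded (isClosed_le continuous_const hψc) ?_
    refine (Metric.isBounded_closedBall (x := (0 : ℂ)) (r := r₂)).subset ?_
    intro z hz'
    rw [mem_closedBall_zero_iff]
    by_contra hcon
    have h3 : ψ z = 0 := by simp only [hψdef, hz z (not_le.1 hcon).le, zero_mul]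
    have h' : ε ≤ ψ z := hz'
    linarith
  have hgu : Continuous (gradient b07d_u) := a17_gradient_cont b07d_u_smooth
  have hgχ : Continuous (gradient χ) := a17_gradient_cont hχ
  have hψg : IntegrableOn (fun z => ‖gradient ψ z‖ ^ 2) Ω := by
    have hB : IntegrableOn (fun z => (‖gradient b07d_u z‖ + hh z * ‖gradient χ z‖) ^ 2) Ω := by
      have hcont : Continuous (fun z => (‖gradient b07d_u z‖ + hh z * ‖gradient χ z‖) ^ 2) :=
        (hgu.norm.add (b07d_hh_cont.mul hgχ.norm)).pow 2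
      refine (hcont.continuousOn.integrableOn_compact
        (isCompact_closedBall (0 : ℂ) r₂)).mono_set ?_
      exact sdiff_subset.trans Metric.ball_subset_closedBall
    refine Integrable.mono' hB ((b07d_grad_meas ψ).norm.pow_const 2).aestronglyMeasurable ?_
    filter_upwards [ae_restrict_mem hΩ.measurableSet] with z hz'
    rw [Real.norm_eq_abs, abs_of_nonneg (by positivity)]
    refine pow_le_pow_left₀ (norm_nonneg _) ?_ 2
    rw [hgψ z hz']
    refine (norm_add_le _ _).trans ?_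
    rw [norm_smul, norm_smul, b07d_hh_grad_norm hz'.2, Real.norm_eq_abs, Real.norm_eq_abs,
      abs_of_nonneg (hb z).1, abs_of_nonneg (show 0 ≤ hh z from abs_nonneg _)]
    have := mul_le_mul_of_nonneg_right (hb z).2 (norm_nonneg (gradient b07d_u z))
    linarith
  have hnull : volume {z ∈ Ω | ψ z = 0} = 0 := by
    have : {z ∈ Ω | ψ z = 0} = ∅ := by
      ext z
      simp only [mem_ofPred_eq, mem_empty_iff_false, iff_false, not_and]
      intro hz' h3
      have := hψpos z hz'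
      linarith
    rw [this, measure_empty]
  obtain ⟨F, hF1, hF2, hF3⟩ := vanish_lim hΩ hD hψ hc hψg hnull
  have hIΩ : ∀ z, I * z ∈ Ω ↔ z ∈ Ω := by
    intro z
    simp only [hΩdef, Set.mem_sdiff, mem_ball_zero_iff, b07d_norm_I, b07d_mir_I]
  have hW : W1 Ω (indicator Ω ψ) (indicator Ω (gradient ψ)) := by
    refine ⟨fun n => indicator Ω (fun z => F n (ψ z)), fun n => ⟨hF2 n, ?_⟩, hF3⟩
    intro z
    have e : ψ (I * z) = ψ z := by simp only [hψdef, hR z, b07d_hh_I]
    simp only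
    by_cases hz' : z ∈ Ω
    · rw [indicator_of_mem hz', indicator_of_mem ((hIΩ z).2 hz'), e]
    · rw [indicator_of_notMem hz', indicator_of_notMem (fun h => hz' ((hIΩ z).1 h))]
  have hmono : Ω ⊆ DD \ Mir := fun z hz' => ⟨hD hz', hz'.2⟩
  have hW2 := a17_W1_mono hmono hW
  have e1 : indicator Ω ψ = ψ := by
    funext z
    by_cases hz' : z ∈ Ω
    · rw [indicator_of_mem hz']
    · rw [indicator_of_notMem hz', hψout z hz']
  rw [e1] at hW2
  refine ⟨indicator Ω (gradient ψ), hW2, ?_⟩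
  intro z hz1 hz2
  have hzΩ : z ∈ Ω := ⟨by rw [mem_ball_zero_iff]; linarith, hz2⟩
  rw [indicator_of_mem hzΩ]
  have h5 : ψ =ᶠ[𝓝 z] hh := by
    filter_upwards [Metric.isOpen_ball.mem_nhds (by simpa using hz1 : z ∈ Metric.ball (0 : ℂ) r₁)]
      with w hw
    simp only [hψdef, h1 w (by simpa using (mem_ball_zero_iff.1 hw).le), one_mul]
  unfold gradient
  rw [h5.fderiv_eq]

theorem b07d_W1_comb {Ω : Set ℂ} {v w : ℂ → ℝ} {G K : ℂ → ℂ} (hv : W1 Ω v G) (hw : W1 Ω w K)
    (c : ℝ) : W1 Ω (fun z => c * v z - w z) (fun z => c • G z - K z) := by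
  obtain ⟨φ, hφ, h1, h2, h3, h4⟩ := hv
  obtain ⟨ζ, hζ, k1, k2, k3, k4⟩ := hw
  have hg : ∀ n z, gradient (fun z => c * φ n z - ζ n z) z =
      c • gradient (φ n) z - gradient (ζ n) z := by
    intro n z
    have d1 : HasFDerivAt (φ n) (fderiv ℝ (φ n) z) z :=
      ((hφ n).1.1.differentiable (by simp) z).hasFDerivAt
    have d2 : HasFDerivAt (ζ n) (fderiv ℝ (ζ n) z) z :=
      ((hζ n).1.1.differentiable (by simp) z).hasFDerivAt
    have d3 : fderiv ℝ (fun z => c * φ n z - ζ n z) z =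
        c • fderiv ℝ (φ n) z - fderiv ℝ (ζ n) z := ((d1.const_mul c).sub d2).fderiv
    unfold gradient
    rw [d3, map_sub, map_smulₛₗ]
    simp only [conj_trivial]
  refine ⟨fun n z => c * φ n z - ζ n z, fun n => ⟨⟨?_, ?_, ?_⟩, ?_⟩, ?_, ?_, ?_, ?_⟩
  · exact (contDiff_const.mul (hφ n).1.1).sub (hζ n).1.1
  · exact (hφ n).1.2.1.mul_left.sub (hζ n).1.2.1
  · refine (tsupport_sub (fun z => c * φ n z) (ζ n)).trans (union_subset ?_ (hζ n).1.2.2)
    exact (tsupport_mul_subset_right (f := fun _ => c) (g := φ n)).trans (hφ n).1.2.2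
  · intro z
    simp only [(hφ n).2 z, (hζ n).2 z]
  · exact (h1.const_mul c).sub k1
  · exact (h2.const_smul c).sub k2
  · have h5 : Tendsto (fun n => ENNReal.ofReal |c| * eLpNorm (fun z => φ n z - v z) 2 volume +
        eLpNorm (fun z => ζ n z - w z) 2 volume) atTop (𝓝 (ENNReal.ofReal |c| * 0 + 0)) :=
      (ENNReal.Tendsto.const_mul h3 (Or.inr ENNReal.ofReal_ne_top)).add k3
    rw [mul_zero, zero_add] at h5
    refine tendsto_of_tendsto_of_tendsto_of_le_of_le tendsto_const_nhds h5 (fun _ => bot_le)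
      (fun n => ?_)
    have e : (fun z => (c * φ n z - ζ n z) - (c * v z - w z)) =
        (fun z => c * (φ n z - v z)) - (fun z => ζ n z - w z) := by
      funext z; simp only [Pi.sub_apply]; ring
    simp only [e]
    refine (eLpNorm_sub_le ?_ ?_ (by norm_num)).trans ?_
    · exact (((hφ n).1.1.continuous.aestronglyMeasurable).sub h1).const_mul c
    · exact ((hζ n).1.1.continuous.aestronglyMeasurable).sub k1
    · refine add_le_add ?_ le_rfl
      have := eLpNorm_const_smul_le (c := c) (f := fun z => φ n z - v z) (p := 2)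
        (μ := (volume : Measure ℂ))
      refine this.trans_eq ?_
      rw [Real.enorm_eq_ofReal_abs]
  · have h5 : Tendsto (fun n => ENNReal.ofReal |c| *
        eLpNorm (fun z => gradient (φ n) z - G z) 2 volume +
        eLpNorm (fun z => gradient (ζ n) z - K z) 2 volume) atTop
        (𝓝 (ENNReal.ofReal |c| * 0 + 0)) :=
      (ENNReal.Tendsto.const_mul h4 (Or.inr ENNReal.ofReal_ne_top)).add k4
    rw [mul_zero, zero_add] at h5
    refine tendsto_of_tendsto_of_tendsto_of_le_of_le tendsto_const_nhds h5 (fun _ => bot_le)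
      (fun n => ?_)
    have e : (fun z => gradient (fun z => c * φ n z - ζ n z) z - (c • G z - K z)) =
        (fun z => c • (gradient (φ n) z - G z)) - (fun z => gradient (ζ n) z - K z) := by
      funext z
      simp only [Pi.sub_apply]
      rw [hg, smul_sub]
      abel
    simp only [e]
    refine (eLpNorm_sub_le ?_ ?_ (by norm_num)).trans ?_
    · exact (((a17_gradient_cont (hφ n).1.1).aestronglyMeasurable).sub h2).const_smul c
    · exact ((a17_gradient_cont (hζ n).1.1).aestronglyMeasurable).sub k2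
    · refine add_le_add ?_ le_rfl
      have := eLpNorm_const_smul_le (c := c) (f := fun z => gradient (φ n) z - G z) (p := 2)
        (μ := (volume : Measure ℂ))
      refine this.trans_eq ?_
      rw [Real.enorm_eq_ofReal_abs]

theorem b07d_hh_le (z : ℂ) (hz : ‖z‖ ≤ 9 / 64) : hh z ≤ |(z ^ 2).im| := by
  have hn : ‖z‖ ^ 2 = z.re ^ 2 + z.im ^ 2 := by
    rw [Complex.sq_norm, Complex.normSq_apply]; ring
  have h1 : ‖z‖ ^ 2 ≤ 1 / 2 := by
    have := pow_le_pow_left₀ (norm_nonneg z) hz 2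
    norm_num at this
    linarith
  unfold hh
  rw [b07d_im4, b07d_im2]
  have e : 4 * (z.re * z.im * (z.re ^ 2 - z.im ^ 2)) =
      (2 * (z.re ^ 2 - z.im ^ 2)) * (2 * (z.re * z.im)) := by ring
  rw [e, abs_mul]
  have h2 : |2 * (z.re ^ 2 - z.im ^ 2)| ≤ 1 := by
    rw [abs_le]
    constructor <;> nlinarith [sq_nonneg z.re, sq_nonneg z.im]
  have h3 := mul_le_mul_of_nonneg_right h2 (abs_nonneg (2 * (z.re * z.im)))
  linarith

/-- (F2): inside `ball 0 (1/8)` test with `(m₁ h - v)^+` (`60 * (9/64)²/2 < 1`) -/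
theorem F2 : ∃ m₁ κ ts : ℝ, 0 < m₁ ∧ 0 < κ ∧ 0 < ts ∧ ts ≤ 1 / 32 ∧
    ∀ (E : Set ℂ) (v W : ℂ → ℝ) (G : ℂ → ℂ), IsClosed E → E ⊆ Mir → (∀ z, I * z ∈ E ↔ z ∈ E) →
      E \ Metric.ball 0 ts = Axs \ Metric.ball 0 ts → AEStronglyMeasurable W (volume.restrict DD) →
      (∀ᵐ z, z ∈ DD → 0 ≤ W z ∧ W z ≤ 60) → ∫ z in DD, |W z - 5 * Real.pi ^ 2| ^ 3 ≤ κ →
      W1 (DD \ E) v G → EqnS (DD \ E) G (fun z => W z * v z) → ∫ z, ‖G z - gr e2 z‖ ^ 2 ≤ κ →
      ∀ᵐ z : ℂ, ‖z‖ ≤ 1 / 8 → m₁ * hh z ≤ v z := by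
  obtain ⟨c, hc, hlow⟩ := e2_lower
  obtain ⟨ts, κ, hts, hts', hκ, hlin⟩ := F2_lin (δ := c / 2) (by positivity)
  refine ⟨c / 2, κ, ts, by positivity, hκ, hts, hts', ?_⟩
  intro E v W G hE hEM hEI hEax hWm hW hWκ hv heq hclose
  have hlin' := hlin E v W G hE hEM hEI hEax hWm hW hWκ hv heq hclose
  set m : ℝ := c / 2 with hm
  have hm0 : 0 < m := by positivity
  set Ω : Set ℂ := DD \ E with hΩdef
  have hΩ : IsOpen Ω := a17_isOpen_DD.sdiff hE
  have hD : Ω ⊆ DD := sdiff_subset
  have hI : ∀ z ∈ Ω, I * z ∈ Ω := fun z hz => ⟨a17_DD_rot z hz.1, fun h => hz.2 ((hEI z).1 h)⟩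
  have hnm : ∀ᵐ z : ℂ, z ∉ Mir := by
    rw [ae_iff]; simpa using b07d_mir_null
  have hDDball : ∀ z : ℂ, ‖z‖ < 1 → z ∈ DD := fun z hz =>
    ⟨(Complex.abs_re_le_norm z).trans_lt hz, (Complex.abs_im_le_norm z).trans_lt hz⟩
  -- the annulus
  have hann : ∀ᵐ z : ℂ, 7 / 64 ≤ ‖z‖ → ‖z‖ ≤ 9 / 64 → m * hh z ≤ v z := by
    filter_upwards [hlin', hlow] with z h1 h2 h3 h4
    have a1 := h1 (hDDball z (by linarith)) h3 h4
    have a2 := h2 (by linarith)
    have a3 := b07d_hh_le z h4
    have a4 := (abs_le.1 a1).1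
    have a5 : m * hh z ≤ m * |(z ^ 2).im| := mul_le_mul_of_nonneg_left a3 hm0.le
    have a6 : c * |(z ^ 2).im| = m * |(z ^ 2).im| + m * |(z ^ 2).im| := by rw [hm]; ring
    linarith
  -- the truncated barrier
  obtain ⟨χ, x1, x2, x3, x4, x5, x6⟩ := b07d_cut (r₁ := 9 / 64) (r₂ := 5 / 32) (by norm_num)
    (by norm_num)
  obtain ⟨K, hK, hKg⟩ := b07d_hhW (r₁ := 9 / 64) (r₂ := 5 / 32) (by norm_num)
    (by norm_num) x1 x2 x3 x4 x5 x6
  have hsubΩ : DD \ Mir ⊆ Ω := fun z hz => ⟨hz.1, fun h => hz.2 (hEM h)⟩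
  have hK' : W1 Ω (fun z => χ z * hh z) K := a17_W1_mono hsubΩ hK
  have hcomb := b07d_W1_comb hK' hv m
  obtain ⟨χn, p1, p2⟩ := a17_pos hΩ hD hI hcomb a17_zero_approx (ψ := fun _ => 0) contDiffOn_const
    (fun _ _ => le_refl _) (fun _ _ => rfl) (by simp [a17_grad_const])
  set v₁ : ℂ → ℝ := fun z => m * (χ z * hh z) - v z with hv1
  set θ₁ : ℂ → ℝ := fun z => indicator Ω (fun z => max (v₁ z - 0 - 0) 0) z with hθ1
  set Γ₁ : ℂ → ℂ := fun z => indicator (Ω ∩ {z | 0 < v₁ z - 0})
    (fun z => (m • K z - G z) - 0 - gradient (fun _ => (0 : ℝ)) z) z with hΓ1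
  obtain ⟨χ₂, y1, y2, y3, y4, y5, y6⟩ := b07d_cut (r₁ := 1 / 8) (r₂ := 9 / 64) (by norm_num)
    (by norm_num)
  obtain ⟨q1, q2⟩ := mul_lim (Ω' := Ω) hΩ hD (fun n => (p1 n).1) p2 y1 inter_subset_right
  set θ : ℂ → ℝ := fun z => χ₂ z * θ₁ z with hθ
  set Γ : ℂ → ℂ := fun z => θ₁ z • gradient χ₂ z + χ₂ z • Γ₁ z with hΓ
  have hWθ : W1 Ω θ Γ := by
    refine ⟨fun n z => χ₂ z * χn n z, fun n => ⟨q1 n, fun z => ?_⟩, q2⟩
    simp only [y2 z, (p1 n).2.1 z]
  have hθ10 : ∀ z, 0 ≤ θ₁ z := fun z => indicator_nonneg (fun z _ => le_max_right _ _) z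
  have hθ0 : ∀ z, 0 ≤ θ z := fun z => mul_nonneg (y3 z).1 (hθ10 z)
  -- description of `θ₁`, `Γ₁`
  have d1 : ∀ z, v₁ z ≤ 0 → θ₁ z = 0 ∧ Γ₁ z = 0 := by
    intro z hz
    constructor
    · by_cases h : z ∈ Ω
      · simp only [hθ1]
        rw [indicator_of_mem h, sub_zero, sub_zero, max_eq_right hz]
      · simp only [hθ1]
        rw [indicator_of_notMem h]
    · simp only [hΓ1]
      rw [indicator_of_notMem]
      rintro ⟨-, h⟩
      have h' : 0 < v₁ z - 0 := h
      linarith
  have d2 : ∀ z, θ₁ z ≠ 0 → z ∈ Ω ∧ 0 < v₁ z ∧ θ₁ z = v₁ z := by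
    intro z hz
    have h1 : z ∈ Ω := by
      by_contra hcon
      exact hz (by simp only [hθ1]; rw [indicator_of_notMem hcon])
    have h2 : 0 < v₁ z := by
      by_contra hcon
      exact hz (d1 z (not_lt.1 hcon)).1
    refine ⟨h1, h2, ?_⟩
    simp only [hθ1]
    rw [indicator_of_mem h1, sub_zero, sub_zero, max_eq_left h2.le]
  -- outside the small ball
  have hout : ∀ᵐ z : ℂ, 7 / 64 ≤ ‖z‖ → θ z = 0 ∧ Γ z = 0 := by
    filter_upwards [hann] with z hz h7
    by_cases h9 : ‖z‖ ≤ 9 / 64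
    · have a1 := hz h7 h9
      have a2 : v₁ z ≤ 0 := by
        have hh0 : 0 ≤ hh z := abs_nonneg _
        have : m * (χ z * hh z) ≤ m * hh z := by
          refine mul_le_mul_of_nonneg_left ?_ hm0.le
          have := mul_le_mul_of_nonneg_right (x3 z).2 hh0
          linarith
        simp only [hv1]
        linarith
      obtain ⟨b1, b2⟩ := d1 z a2
      simp only [hθ, hΓ, b1, b2, mul_zero, zero_smul, smul_zero, add_zero, and_self]
    · push Not at h9
      have b1 : χ₂ z = 0 := y6 z h9.le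
      have b2 : gradient χ₂ z = 0 := by
        have : χ₂ =ᶠ[𝓝 z] fun _ => 0 := by
          filter_upwards [(isOpen_lt continuous_const continuous_norm).mem_nhds h9] with w hw
          exact y6 w (le_of_lt hw)
        unfold gradient
        rw [this.fderiv_eq]
        simp
      simp only [hθ, hΓ, b1, b2, zero_mul, zero_smul, smul_zero, add_zero, and_self]
  have hins : ∀ z : ℂ, ‖z‖ < 7 / 64 → θ z = θ₁ z ∧ Γ z = Γ₁ z := by
    intro z hz
    have b1 : χ₂ z = 1 := y4 z (by linarith)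
    have b2 : gradient χ₂ z = 0 := by
      have : χ₂ =ᶠ[𝓝 z] fun _ => 1 := by
        filter_upwards [(isOpen_lt continuous_norm continuous_const).mem_nhds hz] with w hw
        have hw' : ‖w‖ < 7 / 64 := hw
        exact y4 w (by linarith)
      unfold gradient
      rw [this.fderiv_eq]
      simp
    simp only [hθ, hΓ, b1, b2, one_mul, one_smul, smul_zero, zero_add, and_self]
  -- pointwise facts
  have key1 : ∀ᵐ z : ℂ, ‖Γ z‖ ^ 2 = inner ℝ (m • gradient hh z - G z) (Γ z) := by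
    filter_upwards [hout, hnm] with z h1 h2
    by_cases h7 : 7 / 64 ≤ ‖z‖
    · rw [(h1 h7).2]; simp
    · push Not at h7
      rw [(hins z h7).2]
      by_cases h3 : z ∈ Ω ∩ {z | 0 < v₁ z - 0}
      · have e : Γ₁ z = m • gradient hh z - G z := by
          simp only [hΓ1]
          rw [indicator_of_mem h3, a17_grad_const, sub_zero, sub_zero, hKg z (by linarith) h2]
        rw [← e, real_inner_self_eq_norm_sq]
      · have e : Γ₁ z = 0 := by
          simp only [hΓ1]
          rw [indicator_of_notMem h3]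
        rw [e]; simp
  have key2 : ∀ᵐ z : ℂ, -(W z * v z * θ z) ≤ 60 * θ z ^ 2 := by
    filter_upwards [hout, hW] with z h1 h2
    by_cases h0 : θ z = 0
    · rw [h0]; simp
    · have h7 : ‖z‖ < 7 / 64 := by
        by_contra hcon
        exact h0 (h1 (not_lt.1 hcon)).1
      have e1 := (hins z h7).1
      rw [e1] at h0 ⊢
      obtain ⟨a1, a2, a3⟩ := d2 z h0
      obtain ⟨w1, w2⟩ := h2 (hD a1)
      rw [a3]
      have e2 : v₁ z = m * hh z - v z := by
        simp only [hv1]
        rw [x4 z (by linarith), one_mul]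
      have hh0 : 0 ≤ m * hh z := mul_nonneg hm0.le (abs_nonneg _)
      have a4 : - v z ≤ v₁ z := by rw [e2]; linarith
      have a5 : W z * (- v z) ≤ W z * v₁ z := mul_le_mul_of_nonneg_left a4 w1
      have a6 : W z * v₁ z ≤ 60 * v₁ z := mul_le_mul_of_nonneg_right w2 a2.le
      have a7 : (W z * (- v z)) * v₁ z ≤ (60 * v₁ z) * v₁ z :=
        mul_le_mul_of_nonneg_right (a5.trans a6) a2.le
      nlinarith
  -- integrability
  obtain ⟨mv, mG⟩ := a17_W1_memLp hv
  obtain ⟨mθ, mΓ⟩ := a17_W1_memLp hWθ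
  obtain ⟨-, -, hoff⟩ := W1_off hΩ.measurableSet hWθ
  have hgu : Continuous (gradient b07d_u) := a17_gradient_cont b07d_u_smooth
  have mh : MemLp (gradient hh) 2 (volume.restrict Ω) := by
    obtain ⟨B, hB⟩ := (isCompact_closedBall (0 : ℂ) 2).exists_bound_of_continuousOn
      hgu.continuousOn
    have hfin : IsFiniteMeasure (volume.restrict Ω) := by
      refine ⟨?_⟩
      rw [Measure.restrict_apply_univ]
      exact (measure_mono hD).trans_lt (a17_vol_DD.trans_lt (by norm_num))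
    refine MemLp.of_bound (b07d_grad_meas hh).aestronglyMeasurable B ?_
    filter_upwards [ae_restrict_of_ae hnm, ae_restrict_mem hΩ.measurableSet] with z h1 h2
    rw [b07d_hh_grad_norm h1]
    apply hB
    rw [mem_closedBall_zero_iff]
    have h3 := hD h2
    have h4 := Complex.norm_le_abs_re_add_abs_im z
    linarith [h3.1, h3.2]
  have mW : MemLp (fun z => W z * v z) 2 (volume.restrict Ω) := by
    refine MemLp.of_le_mul (c := 60) (mv.restrict Ω) ?_ ?_
    · exact (hWm.mono_measure (Measure.restrict_mono hD le_rfl)).mul (mv.restrict Ω).1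
    · filter_upwards [ae_restrict_of_ae hW, ae_restrict_mem hΩ.measurableSet] with z h1 h2
      obtain ⟨w1, w2⟩ := h1 (hD h2)
      rw [norm_mul, Real.norm_eq_abs, abs_of_nonneg w1]
      exact mul_le_mul_of_nonneg_right w2 (norm_nonneg _)
  have T1 := EqnS_test hΩ hD (mG.restrict Ω) mW heq hWθ
  have T2 := SubS_test (f := fun _ => 0) hΩ hD hI mh (by simp) (fun ζ h1 _ h3 => by
    simpa using b07d_sub ⟨h1.1, h1.2.1, subset_univ _⟩ h3) hWθ (Eventually.of_forall hθ0)
  simp only [zero_mul, integral_zero] at T2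
  have iG : Integrable (fun z => inner ℝ (G z) (Γ z)) (volume.restrict Ω) :=
    H30.LE.integrable_inner (mG.restrict Ω) (mΓ.restrict Ω)
  have ih : Integrable (fun z => inner ℝ (gradient hh z) (Γ z)) (volume.restrict Ω) :=
    H30.LE.integrable_inner mh (mΓ.restrict Ω)
  have iθ : Integrable (fun z => θ z ^ 2) volume := mθ.integrable_sq
  have iW : Integrable (fun z => W z * v z * θ z) (volume.restrict Ω) :=
    mW.integrable_mul (mθ.restrict Ω)
  have hX : ∫ z in Ω, ‖Γ z‖ ^ 2 = ∫ z, ‖Γ z‖ ^ 2 := by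
    apply setIntegral_eq_integral_of_ae_compl_eq_zero
    filter_upwards [hoff] with z hz hzn
    rw [(hz hzn).2]; simp
  have B1 : ∫ z, ‖Γ z‖ ^ 2 ≤ - ∫ z in Ω, W z * v z * θ z := by
    rw [← hX, integral_congr_ae (ae_restrict_of_ae key1), ← T1]
    have e : ∀ z, inner ℝ (m • gradient hh z - G z) (Γ z) =
        m * inner ℝ (gradient hh z) (Γ z) - inner ℝ (G z) (Γ z) := by
      intro z
      rw [inner_sub_left, real_inner_smul_left]
    simp only [e]
    rw [integral_sub (ih.const_mul m) iG, integral_const_mul]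
    have := mul_nonpos_of_nonneg_of_nonpos hm0.le T2
    linarith
  have B2 : - ∫ z in Ω, W z * v z * θ z ≤ 60 * ∫ z, θ z ^ 2 := by
    rw [← integral_neg, ← integral_const_mul]
    have s1 : ∫ z in Ω, -(W z * v z * θ z) ≤ ∫ z in Ω, 60 * θ z ^ 2 :=
      integral_mono_ae iW.neg (iθ.restrict.const_mul 60) (ae_restrict_of_ae key2)
    refine s1.trans (setIntegral_le_integral (iθ.const_mul 60) ?_)
    exact Eventually.of_forall fun z => by positivity
  have B3 := W1_poincare (a17_W1_mono hD hWθ) (ρ := 9 / 64) (ρ' := 7 / 64) (by norm_num)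
    (by norm_num) (by
      filter_upwards [hout] with z h1 h2
      have h7 : ‖z‖ < 7 / 64 := by
        by_contra hcon
        exact h2 (h1 (not_lt.1 hcon)).1
      exact ⟨(Complex.abs_re_le_norm z).trans h7.le, (Complex.abs_im_le_norm z).trans h7.le⟩)
  have hY : ∫ z, θ z ^ 2 = 0 := by
    refine le_antisymm ?_ (integral_nonneg fun z => by positivity)
    nlinarith [B1, B2, B3]
  have hz0 := (integral_eq_zero_iff_of_nonneg (fun z => by positivity) iθ).1 hY
  filter_upwards [hz0, hann, hnm] with z h1 h2 h3 h8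
  by_cases h7 : 7 / 64 ≤ ‖z‖
  · exact h2 h7 (by linarith)
  · push Not at h7
    have a1 : θ z = 0 := by
      have : θ z ^ 2 = 0 := h1
      exact pow_eq_zero_iff (two_ne_zero) |>.1 this
    rw [(hins z h7).1] at a1
    have a2 : z ∈ Ω := ⟨hDDball z (by linarith), fun h => h3 (hEM h)⟩
    have a3 : max (v₁ z - 0 - 0) 0 = 0 := by
      have : θ₁ z = max (v₁ z - 0 - 0) 0 := by
        simp only [hθ1]
        rw [indicator_of_mem a2]
      rw [← this, a1]
    have a4 : v₁ z ≤ 0 := by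
      have := le_max_left (v₁ z - 0 - 0) 0
      rw [a3] at this
      linarith
    have a5 : v₁ z = m * hh z - v z := by
      simp only [hv1]
      rw [x4 z (by linarith), one_mul]
    linarith

end Pool.Agent.H87.LE
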