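import Pool.Agent.H87.LE.A01_Green
import Pool.Agent.H87.LE.A02_Cont
import Pool.Agent.H87.LE.A18_Sym
import Pool.Agent.H87.LE.B01_Space
import Pool.Agent.H14.LE.CentreA
import Pool.Agent.H14.LE.CentreB

open MeasureTheory Complex Set Filter Topology
open scoped ContDiff Laplacian

namespace Pool.Agent.H87.LE

/-! # B08a: functions with open centre -/

theorem b08a_ball_DD {a : ℝ} (ha' : a ≤ 1 / 8) : Metric.ball (0:ℂ) a ⊆ DD := by
  intro z hz
  rw [mem_ball_zero_iff] at hz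
  have h1 := abs_re_le_norm z
  have h2 := abs_im_le_norm z
  exact ⟨by linarith, by linarith⟩

theorem b08a_isOpen_DD : IsOpen DD := by
  have h1 : IsOpen {z : ℂ | |z.re| < 1} := isOpen_lt (continuous_re.abs) continuous_const
  have h2 : IsOpen {z : ℂ | |z.im| < 1} := isOpen_lt (continuous_im.abs) continuous_const
  exact h1.inter h2

theorem b08a_crit {a : ℝ} (ha' : a ≤ 1 / 8) {v W : ℂ → ℝ}
    {G : ℂ → ℂ} (hv : W1 DD v G) (hW : AEStronglyMeasurable W (volume.restrict DD))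
    (hW' : ∀ᵐ z, z ∈ DD → 0 ≤ W z ∧ W z ≤ 60) (hWR : ∀ᵐ z, z ∈ DD → W (I * z) = W z)
    (he : EqnS (Metric.ball 0 a) G (fun z => W z * v z)) :
    MemLp (indicator (Metric.ball 0 a) (fun z => W z * v z)) 2 volume ∧
      ∀ ψ, Tst (Metric.ball 0 a) ψ → ∫ z, inner ℝ (G z) (gradient ψ z) =
        ∫ z, indicator (Metric.ball 0 a) (fun z => W z * v z) z * ψ z := by
  have hb := b08a_ball_DD ha'
  obtain ⟨mv, -⟩ := a17_W1_memLp hv
  have hres : volume.restrict (Metric.ball (0:ℂ) a) ≤ volume.restrict DD :=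
    Measure.restrict_mono hb le_rfl
  have m1 : MemLp (fun z => W z * v z) 2 (volume.restrict (Metric.ball (0:ℂ) a)) := by
    refine MemLp.of_le_mul (c := 60) (mv.restrict _) ?_ ?_
    · exact (hW.mono_measure hres).mul (mv.restrict _).aestronglyMeasurable
    · have : ∀ᵐ z ∂(volume.restrict (Metric.ball (0:ℂ) a)), z ∈ Metric.ball (0:ℂ) a :=
        ae_restrict_mem measurableSet_ball
      filter_upwards [this, ae_restrict_of_ae hW'] with z h1 h2
      obtain ⟨h3, h4⟩ := h2 (hb h1)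
      rw [norm_mul, Real.norm_eq_abs (W z), abs_of_nonneg h3]
      exact mul_le_mul_of_nonneg_right h4 (norm_nonneg _)
  refine ⟨(memLp_indicator_iff_restrict measurableSet_ball).mpr m1, fun ψ hψ => ?_⟩
  have hfin : IsFiniteMeasure (volume.restrict (Metric.ball (0:ℂ) a)) :=
    ⟨by rw [Measure.restrict_apply_univ]; exact measure_ball_lt_top⟩
  have h := sym_crit (Ω := Metric.ball (0:ℂ) a) Metric.isOpen_ball hb
    (fun z => by simp) hv (m1.integrable (by norm_num))
    (by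
      filter_upwards [hWR, (W1_rot hv).1] with z h1 h2 hz
      rw [h1 (hb hz), h2]) he hψ
  rw [h]
  congr 1
  funext z
  by_cases hz : z ∈ Metric.ball (0:ℂ) a
  · rw [indicator_of_mem hz]
  · have : ψ z = 0 := image_eq_zero_of_notMem_tsupport fun h => hz (hψ.2.2 h)
    rw [this, mul_zero, mul_zero]

theorem b08a_memLp_mul {χ v : ℂ → ℝ} (hχ : Continuous χ) (hc : HasCompactSupport χ)
    (hv : MemLp v 2 volume) : MemLp (fun z => χ z * v z) 2 volume := by
  obtain ⟨C, hC⟩ := hχ.bounded_above_of_compact_support hc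
  refine MemLp.of_le_mul (c := C) hv (hχ.aestronglyMeasurable.mul hv.aestronglyMeasurable) ?_
  refine Eventually.of_forall fun z => ?_
  rw [norm_mul]
  exact mul_le_mul_of_nonneg_right (hC z) (norm_nonneg _)

theorem b08a_memLp_inner {H G : ℂ → ℂ} (hχ : Continuous H) (hc : HasCompactSupport H)
    (hv : MemLp G 2 volume) : MemLp (fun z => (inner ℝ (H z) (G z) : ℝ)) 2 volume := by
  obtain ⟨C, hC⟩ := hχ.bounded_above_of_compact_support hc
  refine MemLp.of_le_mul (c := C) hv (hχ.aestronglyMeasurable.inner hv.aestronglyMeasurable) ?_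
  refine Eventually.of_forall fun z => ?_
  refine (norm_inner_le_norm _ _).trans ?_
  exact mul_le_mul_of_nonneg_right (hC z) (norm_nonneg _)

/-- continuous representative near the centre -/
theorem b08a_rep {a : ℝ} (ha : 0 < a) {v f : ℂ → ℝ} {G : ℂ → ℂ} {φn : ℕ → ℂ → ℝ}
    (hφn : ∀ n, Tst DD (φn n)) (hL : Lim φn v G) (hf : MemLp f 2 volume)
    (he : ∀ ψ, Tst (Metric.ball 0 a) ψ →
      ∫ z, inner ℝ (G z) (gradient ψ z) = ∫ z, f z * ψ z) :
    ∃ g : ℂ → ℝ, Continuous g ∧ ∀ᵐ z : ℂ, ‖z‖ ≤ a / 4 → v z = g z := by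
  obtain ⟨hv, hG⟩ := a17_lim_memLp hφn hL
  set χ : ContDiffBump (0:ℂ) := ⟨a / 4, a / 2, by linarith, by linarith⟩ with hχdef
  have hχ : ContDiff ℝ ∞ (χ : ℂ → ℝ) := χ.contDiff
  have hχc : HasCompactSupport (χ : ℂ → ℝ) := χ.hasCompactSupport
  have hts : tsupport (χ : ℂ → ℝ) = Metric.closedBall 0 (a / 2) := χ.tsupport_eq
  have hs : tsupport (χ : ℂ → ℝ) ⊆ Metric.ball 0 a := by
    rw [hts]; exact Metric.closedBall_subset_ball (by linarith)
  obtain ⟨C, -, hC⟩ := cont_of_lap a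
  obtain ⟨g, hg, hgv, -⟩ := hC (fun z => χ z * v z)
    (fun z => χ z * f z - 2 * inner ℝ (gradient χ z) (G z) - Δ (χ : ℂ → ℝ) z * v z)
    (b08a_memLp_mul hχ.continuous hχc hv)
    (((b08a_memLp_mul hχ.continuous hχc hf).sub
      ((b08a_memLp_inner (a16_grad_cont hχ) (a16_grad_hcs hχc) hG).const_mul 2)).sub
      (b08a_memLp_mul (b08a_lap_cont hχ)
        (HasCompactSupport.intro hχc fun _ hz => b08a_lap_off hz) hv))
    (by
      intro z hz
      have hz' : z ∉ tsupport (χ : ℂ → ℝ) := by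
        intro h
        have := hs h
        rw [mem_ball_zero_iff] at this
        linarith
      have h0 : χ z = 0 := image_eq_zero_of_notMem_tsupport hz'
      refine ⟨by rw [h0, zero_mul], ?_⟩
      rw [h0, a16_grad_zero hz', b08a_lap_off hz']
      simp)
    (fun φ hφ hφc => b08a_local hφn b08a_isOpen_DD hL hf he hχ hχc hs hφ hφc)
  refine ⟨g, hg, ?_⟩
  filter_upwards [hgv] with z hz hz'
  have h1 : χ z = 1 := χ.one_of_mem_closedBall (by rw [mem_closedBall_zero_iff]; exact hz')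
  rw [hz, h1, one_mul]

/-- the radial weights -/
theorem b08a_weight {b : ℝ → ℝ} (hb : ContDiff ℝ ∞ b)
    (hb2 : ∀ t, 2 ≤ t → b t = 0) {R : ℝ} (hR : 0 < R) :
    Continuous (fun z : ℂ => b ((z.re ^ 2 + z.im ^ 2) / R) / R) ∧
    HasCompactSupport (fun z : ℂ => b ((z.re ^ 2 + z.im ^ 2) / R) / R) ∧
    ∀ z : ℂ, b ((z.re ^ 2 + z.im ^ 2) / R) / R ≠ 0 → ‖z‖ ^ 2 < 2 * R := by
  have hn : ∀ z : ℂ, z.re ^ 2 + z.im ^ 2 = ‖z‖ ^ 2 := by
    intro z; rw [Complex.sq_norm, Complex.normSq_apply]; ring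
  have h3 : ∀ z : ℂ, b ((z.re ^ 2 + z.im ^ 2) / R) / R ≠ 0 → ‖z‖ ^ 2 < 2 * R := by
    intro z hz
    by_contra hcon
    push Not at hcon
    apply hz
    rw [hb2 _ (by rw [hn, le_div_iff₀ hR]; exact hcon), zero_div]
  refine ⟨?_, ?_, h3⟩
  · have hc : Continuous fun z : ℂ => (z.re ^ 2 + z.im ^ 2) / R :=
      ((continuous_re.pow 2).add (continuous_im.pow 2)).div_const R
    exact (hb.continuous.comp hc).div_const R
  · refine HasCompactSupport.intro (isCompact_closedBall (0:ℂ) (√(2 * R))) fun z hz => ?_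
    by_contra hcon
    apply hz
    rw [mem_closedBall_zero_iff]
    exact Real.le_sqrt_of_sq_le (h3 z hcon).le

theorem b08a_pos {m₁ a : ℝ} (hm : 0 < m₁) (ha : 0 < a) (ha' : a ≤ 1 / 8) {v f g : ℂ → ℝ}
    {G : ℂ → ℂ} {φn : ℕ → ℂ → ℝ} (hφn : ∀ n, Tst DD (φn n)) (hL : Lim φn v G)
    (hf0 : ∀ᵐ z, 0 ≤ f z)
    (he : ∀ ψ, Tst (Metric.ball 0 a) ψ →
      ∫ z, inner ℝ (G z) (gradient ψ z) = ∫ z, f z * ψ z)
    (hg : Continuous g) (hgv : ∀ᵐ z : ℂ, ‖z‖ ≤ a / 4 → v z = g z)
    (hl : ∀ᵐ z : ℂ, ‖z‖ ≤ 1 / 8 → m₁ * hh z ≤ v z) : 0 < g 0 := by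
  obtain ⟨hv, hG⟩ := a17_lim_memLp hφn hL
  obtain ⟨b, B, hb, hb0, hb1, hb2, hb3, hB, hB1, hB2, hmono⟩ := b08a_bump
  have hn : ∀ z : ℂ, z.re ^ 2 + z.im ^ 2 = ‖z‖ ^ 2 := by
    intro z; rw [Complex.sq_norm, Complex.normSq_apply]; ring
  by_contra hcon
  push Not at hcon
  -- constants
  set R : ℝ := (a / 4) ^ 2 / 4 with hRdef
  have hR : 0 < R := by positivity
  obtain ⟨cR, sR, wR⟩ := b08a_weight hb hb2 hR
  set P : ℝ → ℂ → ℝ := fun r z => b ((z.re ^ 2 + z.im ^ 2) / r) / r with hP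
  have hP0 : ∀ r, 0 < r → ∀ z, 0 ≤ P r z := fun r hr z => div_nonneg (hb0 _) hr.le
  have hhc : Continuous hh := by
    unfold hh
    exact (continuous_im.comp (continuous_pow 4)).abs
  set κ : ℝ := ∫ z, P R z * hh z with hκ
  have hκ0 : 0 < κ := by
    set t : ℝ := √(3 * R / 10) with ht
    have ht2 : t ^ 2 = 3 * R / 10 := Real.sq_sqrt (by positivity)
    have ht0 : 0 < t := Real.sqrt_pos.mpr (by positivity)
    refine Continuous.integral_pos_of_hasCompactSupport_nonneg_nonzero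
      (x := (⟨2 * t, t⟩ : ℂ)) (cR.mul hhc) sR.mul_right ?_ ?_
    · intro z
      exact mul_nonneg (hP0 R hR z) (abs_nonneg _)
    · apply mul_ne_zero
      · have e1 : ((2 * t) ^ 2 + t ^ 2) / R = 3 / 2 := by
          rw [show (2 * t) ^ 2 + t ^ 2 = 5 * t ^ 2 by ring, ht2]; field_simp; norm_num
        simp only [hP]
        rw [e1]
        exact (div_pos hb3 hR).ne'
      · unfold hh
        have e2 : ((⟨2 * t, t⟩ : ℂ) ^ 4).im = 24 * t ^ 4 := by
          simp only [pow_succ, pow_zero, one_mul, mul_im, mul_re]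
          ring
        rw [e2, abs_of_pos (by positivity)]
        positivity
  obtain ⟨C, hC⟩ : ∃ C : ℝ, ∀ t, b t ≤ C := by
    have hcs : HasCompactSupport b := by
      refine HasCompactSupport.intro (isCompact_Icc (a := (1:ℝ)) (b := 2)) fun t ht => ?_
      rw [mem_Icc, not_and_or] at ht
      rcases ht with h | h
      · exact hb1 t (by linarith)
      · exact hb2 t (by linarith)
    obtain ⟨C, hC⟩ := hb.continuous.bounded_above_of_compact_support hcs
    exact ⟨C, fun t => (le_abs_self _).trans (hC t)⟩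
  have hC0 : 0 < C := hb3.trans_le (hC _)
  set τ : ℝ := m₁ * κ / (4 * Real.pi * C) with hτ
  have hτ0 : 0 < τ := by positivity
  -- small radius
  obtain ⟨r, hr, hgr⟩ : ∃ r > 0, ∀ z : ℂ, ‖z‖ < r → g z ≤ τ := by
    have h1 : ∀ᶠ z in 𝓝 (0:ℂ), g z < τ :=
      (hg.tendsto 0).eventually (gt_mem_nhds (hcon.trans_lt hτ0))
    obtain ⟨r, hr, h2⟩ := Metric.eventually_nhds_iff.mp h1
    refine ⟨r, hr, fun z hz => (h2 ?_).le⟩
    rw [dist_zero_right]; exact hz
  set ε : ℝ := min R (r ^ 2 / 4) with hε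
  have hε0 : 0 < ε := lt_min hR (by positivity)
  have hεR : ε ≤ R := min_le_left _ _
  have hεr : ε ≤ r ^ 2 / 4 := min_le_right _ _
  obtain ⟨cε, sε, wε⟩ := b08a_weight hb hb2 hε0
  obtain ⟨Φ, K, K', hΦ, hK, hΦs, hKK, hΦ0, hΦ2⟩ := b08a_Phi hb hB hB1 hB2 hmono hε0 hεR
  set φ : ℂ → ℝ := fun z => Φ (z.re ^ 2 + z.im ^ 2) with hφ
  have hφs : ContDiff ℝ ∞ φ :=
    hΦs.comp ((reCLM.contDiff.pow 2).add (imCLM.contDiff.pow 2))
  have hφz : ∀ z, z ∉ Metric.closedBall (0:ℂ) (a / 4) → φ z = 0 := by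
    intro z hz
    rw [mem_closedBall_zero_iff] at hz
    push Not at hz
    simp only [hφ]
    rw [hn]
    apply hΦ2
    have : (a / 4) ^ 2 < ‖z‖ ^ 2 := pow_lt_pow_left₀ hz (by positivity) (by norm_num)
    rw [hRdef]; nlinarith
  have hφc : HasCompactSupport φ := HasCompactSupport.intro (isCompact_closedBall _ _) hφz
  have hφt : tsupport φ ⊆ Metric.ball (0:ℂ) a := by
    refine (closure_minimal ?_ Metric.isClosed_closedBall).trans
      (Metric.closedBall_subset_ball (show a / 4 < a by linarith))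
    intro z hz
    by_contra h
    exact hz (hφz z h)
  have hφ0 : ∀ z, 0 ≤ φ z := fun z => hΦ0 _ (by positivity)
  have hlap : ∀ z, Δ φ z = - 4 * (P ε z - P R z) := by
    intro z
    have := b08a_lap_radial hΦ hK z
    rw [hKK] at this
    simp only [hP, hφ]
    rw [this]; ring
  have E1 := he φ ⟨hφs, hφc, hφt⟩
  have E2 := b08a_green hφn hL hφs hφc
  have E3 : 0 ≤ ∫ z, f z * φ z := by
    refine integral_nonneg_of_ae ?_
    filter_upwards [hf0] with z hz
    exact mul_nonneg hz (hφ0 z)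
  have E4 : ∫ z, inner ℝ (G z) (gradient φ z) = ∫ z, inner ℝ (gradient φ z) (G z) := by
    congr 1; funext z; exact real_inner_comm _ _
  have iR : Integrable (fun z => P R z * v z) volume := by
    have := H30.LE.integrable_inner (cR.memLp_of_hasCompactSupport (p := 2) (μ := volume) sR) hv
    simpa only [b08a_real_inner] using this
  have iε : Integrable (fun z => P ε z * v z) volume := by
    have := H30.LE.integrable_inner (cε.memLp_of_hasCompactSupport (p := 2) (μ := volume) sε) hv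
    simpa only [b08a_real_inner] using this
  have E5 : - ∫ z, Δ φ z * v z = 4 * ((∫ z, P ε z * v z) - ∫ z, P R z * v z) := by
    rw [← integral_neg, ← integral_sub iε iR, ← integral_const_mul]
    congr 1; funext z
    rw [hlap]; ring
  have E6 : ∫ z, P R z * v z ≤ ∫ z, P ε z * v z := by
    have : 0 ≤ 4 * ((∫ z, P ε z * v z) - ∫ z, P R z * v z) := by
      rw [← E5, ← E2, ← E4, E1]; exact E3
    linarith
  -- lower bound
  have E7 : m₁ * κ ≤ ∫ z, P R z * v z := by
    rw [hκ, ← integral_const_mul]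
    refine integral_mono_ae (((cR.mul hhc).integrable_of_hasCompactSupport sR.mul_right).const_mul _)
      iR ?_
    filter_upwards [hl] with z hz
    by_cases h0 : P R z = 0
    · simp only [h0]; simp
    · have h1 := wR z h0
      have h2 : ‖z‖ ≤ 1 / 8 := by
        have h3 : ‖z‖ ^ 2 ≤ (1 / 8) ^ 2 := by rw [hRdef] at h1; nlinarith
        exact le_of_sq_le_sq h3 (by norm_num)
      have h3 := mul_le_mul_of_nonneg_left (hz h2) (hP0 R hR z)
      calc m₁ * (P R z * hh z) = P R z * (m₁ * hh z) := by ring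
        _ ≤ _ := h3
  -- upper bound
  have E8 : ∫ z, P ε z * v z ≤ 2 * Real.pi * C * τ := by
    have hvol : (volume (Metric.closedBall (0:ℂ) (√(2 * ε)))).toReal = 2 * ε * Real.pi := by
      rw [Complex.volume_closedBall, ENNReal.toReal_mul, ENNReal.toReal_pow,
        ENNReal.toReal_ofReal (Real.sqrt_nonneg _), Real.sq_sqrt (by positivity)]
      rfl
    have hint : ∫ z in Metric.closedBall (0:ℂ) (√(2 * ε)), (C / ε * τ) = 2 * Real.pi * C * τ := by
      rw [setIntegral_const, smul_eq_mul]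
      have : volume.real (Metric.closedBall (0:ℂ) (√(2 * ε))) = 2 * ε * Real.pi := hvol
      rw [this]
      field_simp
    rw [← hint, ← integral_indicator measurableSet_closedBall]
    refine integral_mono_ae iε ?_ ?_
    · refine (integrable_indicator_iff measurableSet_closedBall).mpr ?_
      exact integrableOn_const measure_closedBall_lt_top.ne enorm_ne_top
    · filter_upwards [hgv] with z hz
      by_cases h0 : P ε z = 0
      · rw [h0, zero_mul]
        exact indicator_nonneg (fun _ _ => by positivity) z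
      · have h1 := wε z h0
        have hmem : z ∈ Metric.closedBall (0:ℂ) (√(2 * ε)) := by
          rw [mem_closedBall_zero_iff]; exact Real.le_sqrt_of_sq_le h1.le
        rw [indicator_of_mem hmem]
        have h2 : ‖z‖ < r := by
          have h3 : ‖z‖ ^ 2 < r ^ 2 := by nlinarith
          exact lt_of_pow_lt_pow_left₀ 2 hr.le h3
        have h4 : ‖z‖ ≤ a / 4 := by
          have h3 : ‖z‖ ^ 2 ≤ (a / 4) ^ 2 := by
            have : 2 * ε ≤ 2 * R := by linarith
            rw [hRdef] at this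
            nlinarith
          exact le_of_sq_le_sq h3 (by positivity)
        rw [hz h4]
        have h5 : P ε z ≤ C / ε := by
          simp only [hP]
          gcongr
          exact hC _
        calc P ε z * g z ≤ P ε z * τ := mul_le_mul_of_nonneg_left (hgr z h2) (hP0 ε hε0 z)
          _ ≤ C / ε * τ := mul_le_mul_of_nonneg_right h5 hτ0.le
  have E9 : 2 * Real.pi * C * τ = m₁ * κ / 2 := by
    rw [hτ]
    field_simp
    ring
  have E10 : 0 < m₁ * κ := by positivity
  linarith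

/-- the limit function with open centre is positive and continuous near `0` -/
theorem open_centre {m₁ a : ℝ} (hm : 0 < m₁) (ha : 0 < a) (ha' : a ≤ 1 / 8) {v W : ℂ → ℝ}
    {G : ℂ → ℂ} (hv : W1 DD v G) (hW : AEStronglyMeasurable W (volume.restrict DD))
    (hW' : ∀ᵐ z, z ∈ DD → 0 ≤ W z ∧ W z ≤ 60) (hWR : ∀ᵐ z, z ∈ DD → W (I * z) = W z)
    (he : EqnS (Metric.ball 0 a) G (fun z => W z * v z))
    (hl : ∀ᵐ z : ℂ, ‖z‖ ≤ 1 / 8 → m₁ * hh z ≤ v z) :
    ∃ c : ℝ, 0 < c ∧ ∀ δ > 0, ∃ a' > 0, a' < a ∧ ∀ᵐ z : ℂ, ‖z‖ ≤ a' → |v z - c| ≤ δ := by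
  obtain ⟨hf, hcrit⟩ := b08a_crit ha' hv hW hW' hWR he
  obtain ⟨φn, hφn, hL⟩ := id hv
  have hφn' : ∀ n, Tst DD (φn n) := fun n => (hφn n).1
  obtain ⟨g, hg, hgv⟩ := b08a_rep ha hφn' hL hf hcrit
  have hf0 : ∀ᵐ z, 0 ≤ indicator (Metric.ball 0 a) (fun z => W z * v z) z := by
    filter_upwards [hW', hl] with z h1 h2
    by_cases hz : z ∈ Metric.ball (0:ℂ) a
    · rw [indicator_of_mem hz]
      have h3 := (h1 (b08a_ball_DD ha' hz)).1
      rw [mem_ball_zero_iff] at hz
      have h4 := h2 (by linarith)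
      have h5 : 0 ≤ m₁ * hh z := mul_nonneg hm.le (abs_nonneg _)
      exact mul_nonneg h3 (h5.trans h4)
    · rw [indicator_of_notMem hz]
  refine ⟨g 0, b08a_pos hm ha ha' hφn' hL hf0 hcrit hg hgv hl, fun δ hδ => ?_⟩
  obtain ⟨r, hr, h1⟩ := Metric.continuous_iff.mp hg 0 δ hδ
  refine ⟨min (r / 2) (a / 4), lt_min (by positivity) (by positivity),
    (min_le_right _ _).trans_lt (by linarith), ?_⟩
  filter_upwards [hgv] with z hz hz'
  rw [hz (hz'.trans (min_le_right _ _))]
  have h2 : ‖z‖ < r := (hz'.trans (min_le_left _ _)).trans_lt (by linarith)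
  have h3 := h1 z (by rw [dist_zero_right]; exact h2)
  rw [Real.dist_eq] at h3
  exact h3.le

end Pool.Agent.H87.LE
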