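import Pool.Agent.H87.LE.A01_Green
import Pool.Agent.H87.LE.A02_Cont
import Pool.Agent.H87.LE.A18_Sym
import Pool.Agent.H87.LE.B01_Space
import Pool.Agent.H14.LE.CentreB

open MeasureTheory Complex Set Filter Topology
open scoped ContDiff Laplacian

namespace Pool.Agent.H87.LE

/-! # B08b: uniform convergence on annuli -/

/-- difference of two functions of `W1 DD` -/
theorem b08b_sub {v w : ℂ → ℝ} {G K : ℂ → ℂ} (h : W1 DD v G) (h' : W1 DD w K) :
    W1 DD (fun z => v z - w z) (fun z => G z - K z) := by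
  obtain ⟨φ, hφ, hL⟩ := h
  obtain ⟨ψ, hψ, hL'⟩ := h'
  refine ⟨fun n z => φ n z + (-1) * ψ n z, fun n => ⟨(hφ n).1.s1_add ((hψ n).1.s1_smul (-1)),
    (hφ n).2.s1_add ((hψ n).2.s1_smul (-1))⟩, ?_⟩
  have := Lim.s1_add (fun n => (hφ n).1.1) (fun n => contDiff_const.mul (hψ n).1.1) hL
    (Lim.s1_smul (fun n => (hψ n).1.1) hL' (-1))
  exact this.s1_congr (ae_of_all _ fun z => by ring)
    (ae_of_all _ fun z => by simp [sub_eq_add_neg])

/-- products of a bounded weight with two square integrable functions -/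
theorem b08b_int {V w ζ : ℂ → ℝ} (hV : AEStronglyMeasurable V volume)
    (hV' : ∀ᵐ z, |V z| ≤ 60) (hw : MemLp w 2 volume) (hζ : MemLp ζ 2 volume) :
    MemLp (fun z => V z * w z) 2 volume ∧ Integrable (fun z => V z * w z * ζ z) volume := by
  have h1 : MemLp (fun z => V z * w z) 2 volume := by
    refine MemLp.of_le_mul (c := 60) hw (hV.mul hw.aestronglyMeasurable) ?_
    filter_upwards [hV'] with z hz
    rw [norm_mul, Real.norm_eq_abs (V z)]
    exact mul_le_mul_of_nonneg_right hz (norm_nonneg _)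
  refine ⟨h1, ?_⟩
  have := H30.LE.integrable_inner h1 hζ
  simpa only [b08a_real_inner] using this

/-- the weight extended by zero -/
theorem b08b_ext {W : ℂ → ℝ} (hW : AEStronglyMeasurable W (volume.restrict DD))
    (hW' : ∀ᵐ z, z ∈ DD → 0 ≤ W z ∧ W z ≤ 60) :
    AEStronglyMeasurable (indicator DD W) volume ∧ (∀ᵐ z, |indicator DD W z| ≤ 60) ∧
      ∀ (w ζ : ℂ → ℝ) (Ω : Set ℂ), Ω ⊆ DD → Tst Ω ζ →
        ∀ z, W z * w z * ζ z = indicator DD W z * w z * ζ z := by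
  refine ⟨(aestronglyMeasurable_indicator_iff b1_DD_open.measurableSet).2 hW, ?_, ?_⟩
  · filter_upwards [hW'] with z hz
    by_cases h : z ∈ DD
    · rw [indicator_of_mem h]
      obtain ⟨h1, h2⟩ := hz h
      rw [abs_of_nonneg h1]; exact h2
    · rw [indicator_of_notMem h]; norm_num
  · intro w ζ Ω hΩ hζ z
    by_cases h : z ∈ DD
    · rw [indicator_of_mem h]
    · have : ζ z = 0 := image_eq_zero_of_notMem_tsupport fun h' => h (hΩ (hζ.2.2 h'))
      rw [this, mul_zero, mul_zero]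

/-- the rotation average of the weight -/
theorem b08b_weight {W : ℂ → ℝ} (hW : AEStronglyMeasurable W (volume.restrict DD))
    (hW' : ∀ᵐ z, z ∈ DD → 0 ≤ W z ∧ W z ≤ 60) : ∃ V : ℂ → ℝ, AEStronglyMeasurable V volume ∧
      (∀ᵐ z, |V z| ≤ 60) ∧ Rot V ∧ ∀ (w ζ : ℂ → ℝ), MemLp w 2 volume → (∀ᵐ z, w (I * z) = w z) →
        Tst DD ζ → Rot ζ → ∫ z, V z * w z * ζ z = ∫ z, W z * w z * ζ z := by
  obtain ⟨m, hb, he⟩ := b08b_ext hW hW'
  set W₀ := indicator DD W with hW₀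
  have hmp : ∀ k : ℕ, MeasurePreserving (fun z : ℂ => I ^ k * z) volume volume ∧
      MeasurableEmbedding (fun z : ℂ => I ^ k * z) := fun k => a18_mp (a18_normpow k)
  have hm : ∀ k : ℕ, AEStronglyMeasurable (fun z => W₀ (I ^ k * z)) volume := fun k =>
    m.comp_measurePreserving (hmp k).1
  have hbk : ∀ k : ℕ, ∀ᵐ z, |W₀ (I ^ k * z)| ≤ 60 := fun k =>
    (hmp k).1.quasiMeasurePreserving.ae hb
  refine ⟨fun z => (W₀ (I ^ 0 * z) + W₀ (I ^ 1 * z) + W₀ (I ^ 2 * z) + W₀ (I ^ 3 * z)) / 4,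
    ?_, ?_, ?_, ?_⟩
  · have := ((((hm 0).add (hm 1)).add (hm 2)).add (hm 3)).const_mul (1 / 4 : ℝ)
    refine this.congr (ae_of_all _ fun z => ?_)
    simp only [Pi.add_apply]
    ring
  · filter_upwards [hbk 0, hbk 1, hbk 2, hbk 3] with z h0 h1 h2 h3
    rw [abs_le] at *
    constructor <;> linarith [h0.1, h0.2, h1.1, h1.2, h2.1, h2.2, h3.1, h3.2]
  · intro z
    have e : ∀ k : ℕ, I ^ k * (I * z) = I ^ (k + 1) * z := fun k => by rw [pow_succ]; ring
    have e4 : I ^ 4 * z = I ^ 0 * z := by rw [I_pow_four]; simp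
    simp only [e]
    norm_num only
    rw [e4]
    ring
  · intro w ζ hw hwR hζ hζR
    have mζ := hζ.s1_memLp 2
    have hi : ∀ k : ℕ, Integrable (fun z => W₀ (I ^ k * z) * w z * ζ z) volume := fun k =>
      (b08b_int (hm k) (hbk k) hw mζ).2
    have hwk : ∀ k : ℕ, ∀ᵐ z, w (I ^ k * z) = w z := by
      intro k
      induction k with
      | zero => exact ae_of_all _ fun z => by simp
      | succ k ih =>
        have h1 := (hmp k).1.quasiMeasurePreserving.ae hwR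
        filter_upwards [ih, h1] with z h2 h3
        rw [← h2, ← h3, pow_succ]
        congr 1
        ring
    have hζk : ∀ (k : ℕ) (z : ℂ), ζ (I ^ k * z) = ζ z := by
      intro k
      induction k with
      | zero => intro z; simp
      | succ k ih =>
        intro z
        rw [pow_succ, mul_assoc, ih, hζR]
    have hk : ∀ k : ℕ, ∫ z, W₀ (I ^ k * z) * w z * ζ z = ∫ z, W₀ z * w z * ζ z := by
      intro k
      rw [← (hmp k).1.integral_comp (hmp k).2 (fun z => W₀ z * w z * ζ z)]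
      apply integral_congr_ae
      filter_upwards [hwk k] with z hz
      rw [hz, hζk]
    have e1 : ∫ z, (W₀ (I ^ 0 * z) + W₀ (I ^ 1 * z) + W₀ (I ^ 2 * z) + W₀ (I ^ 3 * z)) / 4 *
        w z * ζ z = ∫ z, (1 / 4 : ℝ) * (W₀ (I ^ 0 * z) * w z * ζ z + W₀ (I ^ 1 * z) * w z * ζ z +
          W₀ (I ^ 2 * z) * w z * ζ z + W₀ (I ^ 3 * z) * w z * ζ z) := by
      congr 1; funext z; ring
    have i01 : Integrable (fun z => W₀ (I ^ 0 * z) * w z * ζ z + W₀ (I ^ 1 * z) * w z * ζ z)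
      volume := (hi 0).add (hi 1)
    have i02 : Integrable (fun z => W₀ (I ^ 0 * z) * w z * ζ z + W₀ (I ^ 1 * z) * w z * ζ z +
      W₀ (I ^ 2 * z) * w z * ζ z) volume := i01.add (hi 2)
    rw [e1, integral_const_mul, integral_add i02 (hi 3),
      integral_add i01 (hi 2), integral_add (hi 0) (hi 1), hk, hk, hk, hk]
    have e2 : ∫ z, W z * w z * ζ z = ∫ z, W₀ z * w z * ζ z := by
      congr 1; funext z
      exact he w ζ DD subset_rfl hζ z
    rw [e2]; ring

/-- the open annulus -/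
def b08b_ann (r a : ℝ) : Set ℂ := {z | r < ‖z‖ ∧ ‖z‖ < a}

theorem b08b_ann_open (r a : ℝ) : IsOpen (b08b_ann r a) :=
  (isOpen_lt continuous_const continuous_norm).inter (isOpen_lt continuous_norm continuous_const)

theorem b08b_ann_DD {r a : ℝ} (ha : a ≤ 1 / 8) : b08b_ann r a ⊆ DD := by
  rintro z ⟨-, hz⟩
  have h1 := abs_re_le_norm z
  have h2 := abs_im_le_norm z
  exact ⟨by linarith, by linarith⟩

theorem b08b_ann_I (r a : ℝ) (z : ℂ) : I * z ∈ b08b_ann r a ↔ z ∈ b08b_ann r a := by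
  simp [b08b_ann]

/-- cutoff of the annulus -/
theorem b08b_cut {a a' : ℝ} (h0 : 0 < a') (h1 : a' < a) : ∃ χ : ℂ → ℝ, ContDiff ℝ ∞ χ ∧
    HasCompactSupport χ ∧ tsupport χ ⊆ b08b_ann (a' / 4) a ∧
    ∀ z : ℂ, a' / 2 ≤ ‖z‖ → ‖z‖ ≤ a' → χ z = 1 := by
  set χ₁ : ContDiffBump (0:ℂ) := ⟨a', (a' + a) / 2, h0, by linarith⟩ with hχ₁
  set χ₂ : ContDiffBump (0:ℂ) := ⟨a' / 3, a' / 2, by linarith, by linarith⟩ with hχ₂
  have hs : tsupport (fun z => χ₁ z - χ₂ z) ⊆ {z : ℂ | a' / 3 ≤ ‖z‖ ∧ ‖z‖ ≤ (a' + a) / 2} := by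
    apply closure_minimal
    · intro z hz
      by_contra hcon
      apply hz
      show χ₁ z - χ₂ z = 0
      simp only [mem_setOf_eq, not_and_or, not_le] at hcon
      rcases hcon with h | h
      · have e1 : χ₁ z = 1 := χ₁.one_of_mem_closedBall
          (by rw [mem_closedBall_zero_iff]; show ‖z‖ ≤ a'; linarith)
        have e2 : χ₂ z = 1 := χ₂.one_of_mem_closedBall
          (by rw [mem_closedBall_zero_iff]; exact h.le)
        rw [e1, e2, sub_self]
      · have e1 : χ₁ z = 0 := χ₁.zero_of_le_dist (by rw [dist_zero_right]; exact h.le)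
        have e2 : χ₂ z = 0 := χ₂.zero_of_le_dist
          (by rw [dist_zero_right]; show a' / 2 ≤ ‖z‖; linarith)
        rw [e1, e2, sub_self]
    · exact (isClosed_le continuous_const continuous_norm).inter
        (isClosed_le continuous_norm continuous_const)
  refine ⟨fun z => χ₁ z - χ₂ z, χ₁.contDiff.sub χ₂.contDiff, ?_, ?_, ?_⟩
  · refine HasCompactSupport.of_support_subset_isCompact
      (isCompact_closedBall (0:ℂ) ((a' + a) / 2)) ?_
    intro z hz
    rw [mem_closedBall_zero_iff]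
    exact (hs (subset_tsupport _ hz)).2
  · intro z hz
    obtain ⟨h2, h3⟩ := hs hz
    exact ⟨by linarith, by linarith⟩
  · intro z h2 h3
    have e1 : χ₁ z = 1 := χ₁.one_of_mem_closedBall (by rw [mem_closedBall_zero_iff]; exact h3)
    have e2 : χ₂ z = 0 := χ₂.zero_of_le_dist (by rw [dist_zero_right]; exact h2)
    simp only [e1, e2, sub_zero]

/-- interior estimate in the annulus -/
theorem b08b_est {a a' : ℝ} (ha' : a ≤ 1 / 8) (h0 : 0 < a') (h1 : a' < a) {W : ℂ → ℝ}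
    (hW : AEStronglyMeasurable W (volume.restrict DD))
    (hW' : ∀ᵐ z, z ∈ DD → 0 ≤ W z ∧ W z ≤ 60) : ∃ C : ℝ, 0 < C ∧ ∀ (w : ℂ → ℝ) (H : ℂ → ℂ),
      W1 DD w H → EqnS (b08b_ann (a' / 4) a) H (fun z => W z * w z) →
        ∀ᵐ z : ℂ, a' / 2 ≤ ‖z‖ → ‖z‖ ≤ a' → w z ^ 2 ≤ C * ∫ z, ‖H z‖ ^ 2 := by
  obtain ⟨V, mV, bV, RV, hV⟩ := b08b_weight hW hW'
  obtain ⟨χ, hχ, hχc, hs, hχ1⟩ := b08b_cut h0 h1
  obtain ⟨C, hC, hC'⟩ := cont_of_lap a
  obtain ⟨M₁, hM₁⟩ := hχ.continuous.bounded_above_of_compact_support hχc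
  obtain ⟨M₂, hM₂⟩ := (a16_grad_cont hχ).bounded_above_of_compact_support (a16_grad_hcs hχc)
  obtain ⟨M₃, hM₃⟩ := (b08a_lap_cont hχ).bounded_above_of_compact_support
    (HasCompactSupport.intro hχc fun _ hz => b08a_lap_off hz)
  have p1 : 0 ≤ M₁ := (norm_nonneg _).trans (hM₁ 0)
  have p2 : 0 ≤ M₂ := (norm_nonneg _).trans (hM₂ 0)
  have p3 : 0 ≤ M₃ := (norm_nonneg _).trans (hM₃ 0)
  refine ⟨C * (4 * (60 * M₁ + M₃) ^ 2 + 8 * M₂ ^ 2 + 1), by positivity, ?_⟩
  intro w H hw he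
  obtain ⟨φn, hφn, hL⟩ := id hw
  have hφn' : ∀ n, Tst DD (φn n) := fun n => (hφn n).1
  obtain ⟨mw, mH⟩ := a17_W1_memLp hw
  have hwR := (W1_rot hw).1
  set f : ℂ → ℝ := fun z => V z * w z with hf
  have mf : MemLp f 2 volume := (b08b_int mV bV mw mw).1
  have hΩ := b08b_ann_open (a' / 4) a
  have hΩD : b08b_ann (a' / 4) a ⊆ DD := b08b_ann_DD ha'
  have hfin : IsFiniteMeasure (volume.restrict (b08b_ann (a' / 4) a)) := by
    refine ⟨?_⟩
    rw [Measure.restrict_apply_univ]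
    refine (measure_mono (?_ : b08b_ann (a' / 4) a ⊆ Metric.ball 0 a)).trans_lt measure_ball_lt_top
    intro z hz
    rw [mem_ball_zero_iff]; exact hz.2
  have hE : EqnS (b08b_ann (a' / 4) a) H f := by
    intro ζ hζ hR
    rw [he ζ hζ hR]
    exact (hV w ζ mw hwR (hζ.s1_mono hΩD) hR).symm
  have hcrit : ∀ ψ, Tst (b08b_ann (a' / 4) a) ψ →
      ∫ z, inner ℝ (H z) (gradient ψ z) = ∫ z, f z * ψ z := by
    intro ψ hψ
    refine sym_crit hΩ hΩD (fun z => b08b_ann_I _ _ z) hw ?_ ?_ hE hψ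
    · exact (mf.restrict _).integrable (by norm_num)
    · filter_upwards [hwR] with z hz _
      simp only [hf]
      rw [hz, RV z]
  set F : ℂ → ℝ := fun z => χ z * f z - 2 * inner ℝ (gradient χ z) (H z) - Δ χ z * w z with hF
  have mF : MemLp F 2 volume := by
    refine MemLp.sub (MemLp.sub ?_ ?_) ?_
    · refine MemLp.of_le_mul (c := M₁) mf (hχ.continuous.aestronglyMeasurable.mul
        mf.aestronglyMeasurable) (ae_of_all _ fun z => ?_)
      rw [norm_mul]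
      exact mul_le_mul_of_nonneg_right (hM₁ z) (norm_nonneg _)
    · refine MemLp.const_mul ?_ 2
      refine MemLp.of_le_mul (c := M₂) mH ((a16_grad_cont hχ).aestronglyMeasurable.inner
        mH.aestronglyMeasurable) (ae_of_all _ fun z => ?_)
      refine (norm_inner_le_norm _ _).trans ?_
      exact mul_le_mul_of_nonneg_right (hM₂ z) (norm_nonneg _)
    · refine MemLp.of_le_mul (c := M₃) mw ((b08a_lap_cont hχ).aestronglyMeasurable.mul
        mw.aestronglyMeasurable) (ae_of_all _ fun z => ?_)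
      rw [norm_mul]
      exact mul_le_mul_of_nonneg_right (hM₃ z) (norm_nonneg _)
  have mχw : MemLp (fun z => χ z * w z) 2 volume := by
    refine MemLp.of_le_mul (c := M₁) mw (hχ.continuous.aestronglyMeasurable.mul
      mw.aestronglyMeasurable) (ae_of_all _ fun z => ?_)
    rw [norm_mul]
    exact mul_le_mul_of_nonneg_right (hM₁ z) (norm_nonneg _)
  obtain ⟨g, -, hgw, hgb⟩ := hC' (fun z => χ z * w z) F mχw mF
    (by
      intro z hz
      have hz' : z ∉ tsupport χ := fun h => absurd (hs h).2 (not_lt.2 hz)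
      have e0 : χ z = 0 := image_eq_zero_of_notMem_tsupport hz'
      refine ⟨by rw [e0, zero_mul], ?_⟩
      simp only [hF]
      rw [e0, a16_grad_zero hz', b08a_lap_off hz']
      simp)
    (fun φ hφ hφc => b08a_local hφn' b1_DD_open hL mf hcrit hχ hχc hs hφ hφc)
  have hP : ∫ z, w z ^ 2 ≤ 2 * ∫ z, ‖H z‖ ^ 2 := by
    have := W1_poincare hw (ρ := 2) (ρ' := 1) one_pos (by norm_num) (by
      filter_upwards [(W1_off b1_DD_open.measurableSet hw).2.2] with z hz hz'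
      by_cases h : z ∈ DD
      · exact ⟨h.1.le, h.2.le⟩
      · exact absurd (hz h).1 hz')
    norm_num at this
    exact this
  have i1 : Integrable (fun z => w z ^ 2) volume := a17_sq_int mw
  have i2 : Integrable (fun z => ‖H z‖ ^ 2) volume := a17_norm_sq_int mH
  have iF : Integrable (fun z => F z ^ 2) volume := a17_sq_int mF
  have hI0 : 0 ≤ ∫ z, ‖H z‖ ^ 2 := integral_nonneg fun z => by positivity
  have hFb : ∫ z, F z ^ 2 ≤ (4 * (60 * M₁ + M₃) ^ 2 + 8 * M₂ ^ 2 + 1) * ∫ z, ‖H z‖ ^ 2 := by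
    have h2 : ∫ z, F z ^ 2 ≤ ∫ z, (2 * (60 * M₁ + M₃) ^ 2 * w z ^ 2 + 8 * M₂ ^ 2 * ‖H z‖ ^ 2) := by
      refine integral_mono_ae iF ((i1.const_mul _).add (i2.const_mul _)) ?_
      filter_upwards [bV] with z hz
      have q1 : |χ z * f z| ≤ 60 * M₁ * |w z| := by
        simp only [hf]
        rw [abs_mul, abs_mul]
        have := hM₁ z
        rw [Real.norm_eq_abs] at this
        calc |χ z| * (|V z| * |w z|) ≤ M₁ * (60 * |w z|) := by gcongr
          _ = _ := by ring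
      have q2 : |(inner ℝ (gradient χ z) (H z) : ℝ)| ≤ M₂ * ‖H z‖ := by
        refine (abs_real_inner_le_norm _ _).trans ?_
        exact mul_le_mul_of_nonneg_right (hM₂ z) (norm_nonneg _)
      have q3 : |Δ χ z * w z| ≤ M₃ * |w z| := by
        rw [abs_mul]
        have := hM₃ z
        rw [Real.norm_eq_abs] at this
        gcongr
      have q4 : |F z| ≤ (60 * M₁ + M₃) * |w z| + 2 * M₂ * ‖H z‖ := by
        rw [abs_le] at *
        simp only [hF]
        constructor <;> nlinarith [q1.1, q1.2, q2.1, q2.2, q3.1, q3.2]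
      have q5 : F z ^ 2 ≤ ((60 * M₁ + M₃) * |w z| + 2 * M₂ * ‖H z‖) ^ 2 := by
        rw [← sq_abs (F z)]
        exact pow_le_pow_left₀ (abs_nonneg _) q4 2
      refine q5.trans ?_
      have q6 := sq_nonneg ((60 * M₁ + M₃) * |w z| - 2 * M₂ * ‖H z‖)
      have q7 : |w z| ^ 2 = w z ^ 2 := sq_abs _
      nlinarith [q6, q7]
    rw [integral_add (i1.const_mul _) (i2.const_mul _), integral_const_mul,
      integral_const_mul] at h2
    have h3 : 2 * (60 * M₁ + M₃) ^ 2 * ∫ z, w z ^ 2 ≤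
        2 * (60 * M₁ + M₃) ^ 2 * (2 * ∫ z, ‖H z‖ ^ 2) :=
      mul_le_mul_of_nonneg_left hP (by positivity)
    nlinarith [h2, h3, hI0]
  filter_upwards [hgw] with z hz h2 h3
  have e1 : g z = w z := by rw [hz, hχ1 z h2 h3, one_mul]
  calc w z ^ 2 = g z ^ 2 := by rw [e1]
    _ ≤ C * ∫ z, F z ^ 2 := hgb z
    _ ≤ C * ((4 * (60 * M₁ + M₃) ^ 2 + 8 * M₂ ^ 2 + 1) * ∫ z, ‖H z‖ ^ 2) :=
      mul_le_mul_of_nonneg_left hFb hC.le
    _ = _ := by ring

/-- uniform convergence on circles around `0`: log barrier `C log (4/(|z|²+b²))/log (4/(2b²))` -/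
theorem annulus_close {a : ℝ} (ha : 0 < a) (ha' : a ≤ 1 / 8) {W : ℂ → ℝ}
    (hW : AEStronglyMeasurable W (volume.restrict DD))
    (hW' : ∀ᵐ z, z ∈ DD → 0 ≤ W z ∧ W z ≤ 60) {b : ℕ → ℝ} (hb : ∀ n, 0 < b n ∧ b n < a)
    (hb0 : Tendsto b atTop (𝓝 0)) {E : ℕ → Set ℂ} (hE : ∀ n, IsClosed (E n) ∧ E n ⊆ Mir ∧
      (∀ z, I * z ∈ E n ↔ z ∈ E n) ∧ E n ∩ Metric.ball 0 a = star (b n))
    {v : ℕ → ℂ → ℝ} {G : ℕ → ℂ → ℂ} (hv : ∀ n, W1 (DD \ E n) (v n) (G n))
    (he : ∀ n, EqnS (DD \ E n) (G n) (fun z => W z * v n z)) (hG : ∀ n, ∫ z, ‖G n z‖ ^ 2 ≤ 4)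
    {v' : ℂ → ℝ} {G' : ℂ → ℂ} (hv' : W1 DD v' G')
    (he' : EqnS (Metric.ball 0 a) G' (fun z => W z * v' z))
    (hlim : Tendsto (fun n => ∫ z, ‖G n z - G' z‖ ^ 2) atTop (𝓝 0)) {a' : ℝ} (h0 : 0 < a')
    (h1 : a' < a) {δ : ℝ} (hδ : 0 < δ) :
    ∀ᶠ n in atTop, ∀ᵐ z : ℂ, a' / 2 ≤ ‖z‖ → ‖z‖ ≤ a' → |v n z - v' z| ≤ δ := by
  obtain ⟨C, hC, hest⟩ := b08b_est ha' h0 h1 hW hW'
  obtain ⟨m, hbd, hext⟩ := b08b_ext hW hW'
  have ev1 : ∀ᶠ n in atTop, b n < a' / 4 := hb0.eventually (gt_mem_nhds (by linarith))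
  have ev2 : ∀ᶠ n in atTop, C * ∫ z, ‖G n z - G' z‖ ^ 2 < δ ^ 2 := by
    have := hlim.const_mul C
    rw [mul_zero] at this
    exact this.eventually (gt_mem_nhds (by positivity))
  filter_upwards [ev1, ev2] with n hn1 hn2
  have hv1 : W1 DD (v n) (G n) := a17_W1_mono diff_subset (hv n)
  have hw := b08b_sub hv1 hv'
  have hsub1 : b08b_ann (a' / 4) a ⊆ Metric.ball 0 a := fun z hz => by
    rw [mem_ball_zero_iff]; exact hz.2
  have hsub2 : b08b_ann (a' / 4) a ⊆ DD \ E n := by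
    intro z hz
    refine ⟨b08b_ann_DD ha' hz, fun h => ?_⟩
    have h2 : z ∈ star (b n) := by
      rw [← (hE n).2.2.2]
      exact ⟨h, hsub1 hz⟩
    have h3 : ‖z‖ ≤ b n := h2.2
    have h4 : a' / 4 < ‖z‖ := hz.1
    linarith
  have hEq : EqnS (b08b_ann (a' / 4) a) (fun z => G n z - G' z)
      (fun z => W z * (v n z - v' z)) := by
    intro ζ hζ hR
    have hD := b08b_ann_DD (r := a' / 4) ha'
    have e1 := he n ζ (hζ.s1_mono hsub2) hR
    have e2 := he' ζ (hζ.s1_mono hsub1) hR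
    obtain ⟨mv, mG⟩ := a17_W1_memLp hv1
    obtain ⟨mv', mG'⟩ := a17_W1_memLp hv'
    have i1 := H30.LE.integrable_inner mG (hζ.s1_memLp_grad 2)
    have i2 := H30.LE.integrable_inner mG' (hζ.s1_memLp_grad 2)
    have j1 := (b08b_int m hbd mv (hζ.s1_memLp 2)).2
    have j2 := (b08b_int m hbd mv' (hζ.s1_memLp 2)).2
    have k1 : ∫ z, inner ℝ (G n z - G' z) (gradient ζ z) =
        (∫ z, inner ℝ (G n z) (gradient ζ z)) - ∫ z, inner ℝ (G' z) (gradient ζ z) := by
      rw [← integral_sub i1 i2]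
      congr 1; funext z; rw [inner_sub_left]
    have k2 : ∫ z, W z * (v n z - v' z) * ζ z =
        (∫ z, W z * v n z * ζ z) - ∫ z, W z * v' z * ζ z := by
      have l1 : (fun z => W z * v n z * ζ z) = fun z => indicator DD W z * v n z * ζ z :=
        funext fun z => hext (v n) ζ _ hD hζ z
      have l2 : (fun z => W z * v' z * ζ z) = fun z => indicator DD W z * v' z * ζ z :=
        funext fun z => hext v' ζ _ hD hζ z
      have l3 : (fun z => W z * (v n z - v' z) * ζ z) =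
          fun z => indicator DD W z * v n z * ζ z - indicator DD W z * v' z * ζ z := by
        funext z
        rw [hext (fun z => v n z - v' z) ζ _ hD hζ z]
        ring
      rw [l1, l2, l3, integral_sub j1 j2]
    rw [k1, k2, e1, e2]
  filter_upwards [hest _ _ hw hEq] with z hz h2 h3
  have h4 := hz h2 h3
  exact abs_le_of_sq_le_sq (h4.trans hn2.le) hδ.le

end Pool.Agent.H87.LE
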