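import Pool.Agent.H87.LE.A10_Xi
import Pool.Agent.H87.LE.B08a_Centre
import Pool.Agent.H87.LE.B08b_Annulus

open MeasureTheory Complex Set Filter Topology
open scoped ContDiff Laplacian

namespace Pool.Agent.H87.LE

/-! # B08: local profile of resonant functions near a small star -/

/-! ## a radial cutoff -/

/-- radial cutoff: `1` for `‖z‖ ≤ r`, `0` for `‖z‖ ≥ R` -/
noncomputable def B08_cut (r R : ℝ) (z : ℂ) : ℝ :=
  Real.smoothTransition ((R ^ 2 - ‖z‖ ^ 2) / (R ^ 2 - r ^ 2))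

theorem B08_cut_smooth (r R : ℝ) : ContDiff ℝ ∞ (B08_cut r R) := by
  unfold B08_cut
  exact Real.smoothTransition.contDiff.comp
    ((contDiff_const.sub (contDiff_norm_sq ℝ)).div_const _)

theorem B08_cut_mem (r R : ℝ) (z : ℂ) : 0 ≤ B08_cut r R z ∧ B08_cut r R z ≤ 1 :=
  ⟨Real.smoothTransition.nonneg _, Real.smoothTransition.le_one _⟩

theorem B08_cut_one {r R : ℝ} (hr : 0 < r) (hR : r < R) {z : ℂ} (hz : ‖z‖ ≤ r) :
    B08_cut r R z = 1 := by
  apply Real.smoothTransition.one_of_one_le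
  rw [one_le_div (by nlinarith)]
  have := norm_nonneg z
  nlinarith

theorem B08_cut_zero {r R : ℝ} (hr : 0 < r) (hR : r < R) {z : ℂ} (hz : R ≤ ‖z‖) :
    B08_cut r R z = 0 := by
  apply Real.smoothTransition.zero_of_nonpos
  apply div_nonpos_of_nonpos_of_nonneg
  · nlinarith
  · nlinarith

theorem B08_cut_pos {r R : ℝ} (hr : 0 < r) (hR : r < R) {z : ℂ} (hz : ‖z‖ < R) :
    0 < B08_cut r R z := by
  apply Real.smoothTransition.pos_of_pos
  apply div_pos
  · have := norm_nonneg z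
    nlinarith
  · nlinarith

theorem B08_cut_tsupport {r R : ℝ} (hr : 0 < r) (hR : r < R) :
    tsupport (B08_cut r R) ⊆ Metric.closedBall 0 R := by
  apply closure_minimal _ Metric.isClosed_closedBall
  intro z hz
  rw [mem_closedBall_zero_iff]
  by_contra h
  exact hz (B08_cut_zero hr hR (not_le.1 h).le)

theorem B08_cut_rot (r R : ℝ) : Rot (B08_cut r R) := by
  intro z
  unfold B08_cut
  rw [norm_mul, norm_I, one_mul]

theorem B08_cut_grad {r R : ℝ} (hr : 0 < r) (hR : r < R) {z : ℂ} (hz : ‖z‖ < r) :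
    gradient (B08_cut r R) z = 0 := by
  have h : B08_cut r R =ᶠ[𝓝 z] fun _ => (1 : ℝ) := by
    filter_upwards [(isOpen_lt continuous_norm continuous_const).mem_nhds hz] with w hw
    exact B08_cut_one hr hR (le_of_lt hw)
  unfold gradient
  rw [h.fderiv_eq]
  simp

/-! ## operations on `W1` -/

theorem B08_tst_mono {Ω Ω' : Set ℂ} (h : Ω ⊆ Ω') {φ : ℂ → ℝ} (hφ : Tst Ω φ) : Tst Ω' φ :=
  ⟨hφ.1, hφ.2.1, hφ.2.2.trans h⟩

theorem B08_W1_mono {Ω Ω' : Set ℂ} (h : Ω ⊆ Ω') {v : ℂ → ℝ} {G : ℂ → ℂ} (hv : W1 Ω v G) :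
    W1 Ω' v G := by
  obtain ⟨φ, h1, h2⟩ := hv
  exact ⟨φ, fun n => ⟨B08_tst_mono h (h1 n).1, (h1 n).2⟩, h2⟩

theorem B08_W1_zero (Ω : Set ℂ) : W1 Ω (fun _ => 0) (fun _ => 0) := by
  have hg : gradient (fun _ : ℂ => (0 : ℝ)) = fun _ => 0 := by
    funext z
    unfold gradient
    simp
  refine ⟨fun _ _ => 0, fun n => ⟨⟨contDiff_const, HasCompactSupport.zero, ?_⟩, fun z => rfl⟩,
    aestronglyMeasurable_const, aestronglyMeasurable_const, ?_, ?_⟩
  · simp [tsupport]
  · simp
  · simp [hg]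

theorem B08_grad_smul {φ : ℂ → ℝ} (c : ℝ) : gradient (fun z => c * φ z) = fun z => c • gradient φ z := by
  funext z
  unfold gradient
  have h : fderiv ℝ (fun z => c * φ z) z = c • fderiv ℝ φ z := by
    have := congrFun (fderiv_const_smul_field (𝕜 := ℝ) (f := φ) c) z
    exact this
  rw [h, map_smul]

theorem B08_W1_smul {Ω : Set ℂ} {v : ℂ → ℝ} {G : ℂ → ℂ} (hv : W1 Ω v G) (c : ℝ) :
    W1 Ω (fun z => c * v z) (fun z => c • G z) := by
  obtain ⟨φ, h1, h2, h3, h4, h5⟩ := hv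
  refine ⟨fun n z => c * φ n z, fun n => ⟨⟨?_, ?_, ?_⟩, ?_⟩, ?_, ?_, ?_, ?_⟩
  · exact contDiff_const.mul (h1 n).1.1
  · exact (h1 n).1.2.1.mul_left
  · refine (closure_mono ?_).trans (h1 n).1.2.2
    intro z hz hz'
    exact hz (by simp only [hz', mul_zero])
  · intro z
    simp only
    rw [(h1 n).2 z]
  · exact h2.const_mul c
  · exact h3.const_smul c
  · have h6 : ∀ n, eLpNorm (fun z => c * φ n z - c * v z) 2 volume =
        ‖c‖ₑ * eLpNorm (fun z => φ n z - v z) 2 volume := by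
      intro n
      rw [← eLpNorm_const_smul]
      congr 1
      funext z
      simp only [Pi.smul_apply, smul_eq_mul]
      ring
    simp_rw [h6]
    have := ENNReal.Tendsto.const_mul (a := ‖c‖ₑ) h4 (Or.inr (by simp))
    simpa using this
  · have h6 : ∀ n, eLpNorm (fun z => gradient (fun z => c * φ n z) z - c • G z) 2 volume =
        ‖c‖ₑ * eLpNorm (fun z => gradient (φ n) z - G z) 2 volume := by
      intro n
      rw [← eLpNorm_const_smul]
      congr 1
      funext z
      rw [B08_grad_smul]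
      simp only [Pi.smul_apply, smul_sub]
    simp_rw [h6]
    have := ENNReal.Tendsto.const_mul (a := ‖c‖ₑ) h5 (Or.inr (by simp))
    simpa using this

theorem B08_grad_sub {φ ψ : ℂ → ℝ} (h1 : ContDiff ℝ ∞ φ) (h2 : ContDiff ℝ ∞ ψ) (z : ℂ) :
    gradient (fun z => φ z - ψ z) z = gradient φ z - gradient ψ z := by
  unfold gradient
  rw [fderiv_fun_sub ((h1.differentiable (by simp)) z) ((h2.differentiable (by simp)) z), map_sub]

theorem B08_W1_sub {Ω : Set ℂ} {v w : ℂ → ℝ} {G K : ℂ → ℂ} (hv : W1 Ω v G) (hw : W1 Ω w K) :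
    W1 Ω (fun z => v z - w z) (fun z => G z - K z) := by
  obtain ⟨φ, h1, h2, h3, h4, h5⟩ := hv
  obtain ⟨ψ, k1, k2, k3, k4, k5⟩ := hw
  refine ⟨fun n z => φ n z - ψ n z, fun n => ⟨⟨?_, ?_, ?_⟩, ?_⟩, h2.sub k2, h3.sub k3, ?_, ?_⟩
  · exact (h1 n).1.1.sub (k1 n).1.1
  · exact (h1 n).1.2.1.sub (k1 n).1.2.1
  · have h6 : tsupport (fun z => φ n z - ψ n z) ⊆ tsupport (φ n) ∪ tsupport (ψ n) := by
      rw [tsupport, tsupport, tsupport, ← closure_union]
      apply closure_mono
      intro z hz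
      by_contra h
      rw [mem_union, not_or, Function.notMem_support, Function.notMem_support] at h
      exact hz (by simp only [h.1, h.2, sub_zero])
    exact h6.trans (union_subset (h1 n).1.2.2 (k1 n).1.2.2)
  · intro z
    simp only
    rw [(h1 n).2 z, (k1 n).2 z]
  · have h6 : ∀ n, eLpNorm (fun z => φ n z - ψ n z - (v z - w z)) 2 volume ≤
        eLpNorm (fun z => φ n z - v z) 2 volume + eLpNorm (fun z => ψ n z - w z) 2 volume := by
      intro n
      have e : (fun z => φ n z - ψ n z - (v z - w z)) =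
          (fun z => φ n z - v z) - (fun z => ψ n z - w z) := by
        funext z
        simp only [Pi.sub_apply]
        ring
      rw [e]
      exact eLpNorm_sub_le (((h1 n).1.1.continuous.aestronglyMeasurable).sub h2)
        (((k1 n).1.1.continuous.aestronglyMeasurable).sub k2) (by norm_num)
    refine tendsto_of_tendsto_of_tendsto_of_le_of_le tendsto_const_nhds ?_ (fun _ => bot_le) h6
    simpa using h4.add k4
  · have hgc : ∀ {f : ℂ → ℝ}, ContDiff ℝ ∞ f → AEStronglyMeasurable (gradient f) volume := by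
      intro f hf
      have h7 : Continuous (fderiv ℝ f) := hf.continuous_fderiv (by simp)
      have h8 : gradient f = fun z => (InnerProductSpace.toDual ℝ ℂ).symm (fderiv ℝ f z) := rfl
      rw [h8]
      exact ((InnerProductSpace.toDual ℝ ℂ).symm.continuous.comp h7).aestronglyMeasurable
    have h6 : ∀ n, eLpNorm (fun z => gradient (fun z => φ n z - ψ n z) z - (G z - K z)) 2 volume ≤
        eLpNorm (fun z => gradient (φ n) z - G z) 2 volume +
          eLpNorm (fun z => gradient (ψ n) z - K z) 2 volume := by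
      intro n
      have e : (fun z => gradient (fun z => φ n z - ψ n z) z - (G z - K z)) =
          (fun z => gradient (φ n) z - G z) - (fun z => gradient (ψ n) z - K z) := by
        funext z
        rw [B08_grad_sub (h1 n).1.1 (k1 n).1.1]
        simp only [Pi.sub_apply]
        ring
      rw [e]
      exact eLpNorm_sub_le ((hgc (h1 n).1.1).sub h3) ((hgc (k1 n).1.1).sub k3) (by norm_num)
    refine tendsto_of_tendsto_of_tendsto_of_le_of_le tendsto_const_nhds ?_ (fun _ => bot_le) h6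
    simpa using h5.add k5

/-- multiplication by a cutoff -/
theorem B08_W1_mul {Ω Ω' : Set ℂ} (hΩ : IsOpen Ω) (hD : Ω ⊆ DD) {v : ℂ → ℝ} {G : ℂ → ℂ}
    (hv : W1 Ω v G) {χ : ℂ → ℝ} (hχ : ContDiff ℝ ∞ χ) (hR : Rot χ) (hs : tsupport χ ∩ Ω ⊆ Ω') :
    W1 Ω' (fun z => χ z * v z) (fun z => v z • gradient χ z + χ z • G z) := by
  obtain ⟨φ, h1, h2⟩ := hv
  obtain ⟨h3, h4⟩ := mul_lim hΩ hD (fun n => (h1 n).1) h2 hχ hs
  refine ⟨_, fun n => ⟨h3 n, fun z => ?_⟩, h4⟩
  rw [(h1 n).2 z, hR z]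

theorem B08_tst_grad_zero {Ω : Set ℂ} {ζ : ℂ → ℝ} (hζ : Tst Ω ζ) {z : ℂ} (hz : z ∉ Ω) :
    gradient ζ z = 0 ∧ ζ z = 0 := by
  have hz' : z ∉ tsupport ζ := fun h => hz (hζ.2.2 h)
  constructor
  · have h : ζ =ᶠ[𝓝 z] fun _ => (0 : ℝ) := notMem_tsupport_iff_eventuallyEq.1 hz'
    unfold gradient
    rw [h.fderiv_eq]
    simp
  · exact image_eq_zero_of_notMem_tsupport hz'

theorem B08_star_rot {b : ℝ} (hb : 0 < b) (z : ℂ) : I * z ∈ star b ↔ z ∈ star b := by
  rw [← xib_eq_zero hb, ← xib_eq_zero hb, xib_rot b z]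

theorem B08_ball_DD {a : ℝ} (ha : a ≤ 1 / 8) : Metric.ball (0 : ℂ) a ⊆ DD := by
  intro z hz
  rw [mem_ball_zero_iff] at hz
  have h1 := abs_re_le_norm z
  have h2 := abs_im_le_norm z
  constructor <;> linarith

theorem B08_dom_open {ρ b : ℝ} : IsOpen (Metric.ball (0 : ℂ) ρ \ star b) :=
  Metric.isOpen_ball.sdiff (star_closed b)

theorem B08_dom_rot {ρ b : ℝ} (hb : 0 < b) : ∀ z ∈ Metric.ball (0 : ℂ) ρ \ star b,
    I * z ∈ Metric.ball (0 : ℂ) ρ \ star b := by
  intro z hz
  refine ⟨?_, fun h => hz.2 ((B08_star_rot hb z).1 h)⟩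
  rw [mem_ball_zero_iff, norm_mul, norm_I, one_mul]
  exact mem_ball_zero_iff.1 hz.1


/-! ## gradients of smooth functions -/

theorem B08_norm_grad (f : ℂ → ℝ) (z : ℂ) : ‖gradient f z‖ = ‖fderiv ℝ f z‖ := by
  unfold gradient
  rw [LinearIsometryEquiv.norm_map]

theorem B08_grad_meas (f : ℂ → ℝ) : Measurable (gradient f) := by
  have h8 : gradient f = fun z => (InnerProductSpace.toDual ℝ ℂ).symm (fderiv ℝ f z) := rfl
  rw [h8]
  exact (InnerProductSpace.toDual ℝ ℂ).symm.continuous.measurable.comp (measurable_fderiv ℝ f)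

theorem B08_diffAt {b : ℝ} (hb : 0 < b) {z : ℂ} (hz : z ∉ star b) :
    DifferentiableAt ℝ (xib b) z :=
  ((xib_smooth hb).contDiffAt ((star_closed b).isOpen_compl.mem_nhds hz)).differentiableAt
    (by simp)

theorem B08_exp_smooth (K : ℝ) : ContDiff ℝ ∞ (fun z : ℂ => Real.exp (-(K * ‖z‖ ^ 2))) :=
  (contDiff_const.mul (contDiff_norm_sq ℝ)).neg.exp

/-- a product of `xib` with a smooth function has square integrable gradient off the star -/
theorem B08_prod_grad {b ρ : ℝ} (hb : 0 < b) {e : ℂ → ℝ} (he : ContDiff ℝ ∞ e) :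
    IntegrableOn (fun z => ‖gradient (fun z => xib b z * e z) z‖ ^ 2)
      (Metric.ball 0 ρ \ star b) := by
  obtain ⟨M, hM⟩ := (isCompact_closedBall (0 : ℂ) ρ).exists_bound_of_continuousOn
    (f := e) he.continuous.continuousOn
  have hec : Continuous (fderiv ℝ e) := he.continuous_fderiv (by simp)
  obtain ⟨N, hN⟩ := (isCompact_closedBall (0 : ℂ) ρ).exists_bound_of_continuousOn
    (f := fun z => xib b z • fderiv ℝ e z) (((xib_cont hb).smul hec).continuousOn)
  have hM0 : 0 ≤ M ∨ ρ < 0 := by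
    by_cases hρ : ρ < 0
    · exact Or.inr hρ
    · left
      exact (norm_nonneg _).trans (hM 0 (Metric.mem_closedBall_self (not_lt.1 hρ)))
  have hmeas : MeasurableSet (Metric.ball (0 : ℂ) ρ \ star b) := B08_dom_open.measurableSet
  have h1 : IntegrableOn (fun z => 2 * (M ^ 2 * ‖gradient (xib b) z‖ ^ 2 + N ^ 2))
      (Metric.ball 0 ρ \ star b) := by
    have h2 := (xib_grad hb ρ).mono_set (sdiff_subset (s := Metric.ball (0 : ℂ) ρ) (t := star b))
    have h3 : IntegrableOn (fun _ : ℂ => N ^ 2) (Metric.ball 0 ρ \ star b) := by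
      refine integrableOn_const ?_ (by simp)
      exact ((measure_mono sdiff_subset).trans_lt measure_ball_lt_top).ne
    exact ((h2.const_mul (M ^ 2)).add h3).const_mul 2
  refine Integrable.mono' h1 ((B08_grad_meas _).norm.pow_const 2).aestronglyMeasurable ?_
  rw [ae_restrict_iff' hmeas]
  refine Eventually.of_forall fun z hz => ?_
  have hzc : z ∈ Metric.closedBall (0 : ℂ) ρ := Metric.ball_subset_closedBall hz.1
  have hd1 := B08_diffAt hb hz.2
  have hd2 : DifferentiableAt ℝ e z := (he.differentiable (by simp)) z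
  rw [Real.norm_eq_abs, abs_of_nonneg (by positivity), B08_norm_grad, B08_norm_grad,
    fderiv_fun_mul hd1 hd2]
  have h4 : ‖xib b z • fderiv ℝ e z + e z • fderiv ℝ (xib b) z‖ ≤
      N + M * ‖fderiv ℝ (xib b) z‖ := by
    refine (norm_add_le _ _).trans (add_le_add (hN z hzc) ?_)
    rw [norm_smul]
    exact mul_le_mul_of_nonneg_right (hM z hzc) (norm_nonneg _)
  calc ‖xib b z • fderiv ℝ e z + e z • fderiv ℝ (xib b) z‖ ^ 2
      ≤ (N + M * ‖fderiv ℝ (xib b) z‖) ^ 2 := pow_le_pow_left₀ (norm_nonneg _) h4 2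
    _ ≤ 2 * (M ^ 2 * ‖fderiv ℝ (xib b) z‖ ^ 2 + N ^ 2) := by
        nlinarith [sq_nonneg (N - M * ‖fderiv ℝ (xib b) z‖)]

/-! ## comparison from above -/

/-- the setting: `v` solves `-Δ v = W v` in `DD \ E`, `E = star b` near `0` -/
theorem B08_sub {a b R : ℝ} (hR : 0 < R) (hRa : R < a) (ha' : a ≤ 1 / 8)
    {W v : ℂ → ℝ} {G : ℂ → ℂ} {E : Set ℂ} (hE : E ∩ Metric.ball 0 a = star b)
    (he : EqnS (DD \ E) G (fun z => W z * v z)) {ζ : ℂ → ℝ}
    (hζ : Tst (Metric.ball 0 (3 * R / 4) \ star b) ζ) (hζR : Rot ζ) :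
    ∫ z, inner ℝ (v z • gradient (B08_cut (3 * R / 4) R) z + B08_cut (3 * R / 4) R z • G z)
      (gradient ζ z) = ∫ z, W z * v z * ζ z := by
  have h1 : Tst (DD \ E) ζ := by
    refine B08_tst_mono ?_ hζ
    intro z hz
    refine ⟨B08_ball_DD (le_trans (by linarith) ha') hz.1, fun h => hz.2 ?_⟩
    rw [← hE]
    exact ⟨h, Metric.ball_subset_ball (by linarith) hz.1⟩
  rw [← he ζ h1 hζR]
  congr 1
  funext z
  by_cases hz : z ∈ Metric.ball (0 : ℂ) (3 * R / 4) \ star b
  · have hz1 : ‖z‖ < 3 * R / 4 := mem_ball_zero_iff.1 hz.1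
    rw [B08_cut_grad (by linarith) (by linarith) hz1,
      B08_cut_one (by linarith) (by linarith) hz1.le, smul_zero, zero_add, one_smul]
  · rw [(B08_tst_grad_zero hζ hz).1, inner_zero_right, inner_zero_right]

theorem B08_memLp {W v : ℂ → ℝ} (hW : AEStronglyMeasurable W (volume.restrict DD))
    (hW' : ∀ᵐ z, z ∈ DD → 0 ≤ W z ∧ W z ≤ 60) (hv : MemLp v 2 volume) {Ω : Set ℂ}
    (hΩ : MeasurableSet Ω) (hD : Ω ⊆ DD) : MemLp (fun z => W z * v z) 2 (volume.restrict Ω) := by
  have h1 : MemLp v 2 (volume.restrict Ω) := hv.restrict Ω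
  refine MemLp.of_le_mul (c := 60) h1 ((hW.mono_set hD).mul h1.1) ?_
  rw [ae_restrict_iff' hΩ]
  filter_upwards [hW'] with z hz hzΩ
  obtain ⟨h2, h3⟩ := hz (hD hzΩ)
  rw [norm_mul, Real.norm_eq_abs, abs_of_nonneg h2]
  exact mul_le_mul_of_nonneg_right h3 (norm_nonneg _)

theorem B08_upper {a b R : ℝ} (hb : 0 < b) (hR : 0 < R) (hRa : R < a) (ha' : a ≤ 1 / 8)
    {W v : ℂ → ℝ} {G : ℂ → ℂ} {E : Set ℂ} (hW : AEStronglyMeasurable W (volume.restrict DD))
    (hW' : ∀ᵐ z, z ∈ DD → 0 ≤ W z ∧ W z ≤ 60) (hEc : IsClosed E)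
    (hE : E ∩ Metric.ball 0 a = star b) (hv : W1 (DD \ E) v G)
    (he : EqnS (DD \ E) G (fun z => W z * v z))
    (hv0 : ∀ᵐ z : ℂ, ‖z‖ ≤ 1 / 8 → 0 ≤ v z) {A : ℝ} (hA : 0 ≤ A)
    (hann : ∀ᵐ z : ℂ, R / 2 ≤ ‖z‖ → ‖z‖ ≤ R →
      v z ≤ A * (xib b z * Real.exp (-(30 * ‖z‖ ^ 2)))) :
    ∀ᵐ z : ℂ, ‖z‖ ≤ R / 2 → v z ≤ A * (xib b z * Real.exp (-(30 * ‖z‖ ^ 2))) := by
  have hstar : ∀ z, z ∈ star b → z ∈ E := by
    intro z hz
    have : z ∈ E ∩ Metric.ball 0 a := by rw [hE]; exact hz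
    exact this.1
  have hEo : IsOpen (DD \ E) := by
    refine IsOpen.sdiff ?_ hEc
    exact (isOpen_lt (continuous_abs.comp continuous_re) continuous_const).inter
      (isOpen_lt (continuous_abs.comp continuous_im) continuous_const)
  have hΩ₁D : Metric.ball (0 : ℂ) a \ star b ⊆ DD := sdiff_subset.trans (B08_ball_DD ha')
  have hΩ₂D : Metric.ball (0 : ℂ) (3 * R / 4) \ star b ⊆ DD :=
    sdiff_subset.trans (B08_ball_DD (by linarith))
  have hΩ₁₂ : Metric.ball (0 : ℂ) (3 * R / 4) \ star b ⊆ Metric.ball (0 : ℂ) a \ star b :=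
    sdiff_subset_sdiff_left (Metric.ball_subset_ball (by linarith))
  have hL2 : MemLp v 2 volume := by
    have hDDE : MeasurableSet (DD \ E) := hEo.measurableSet
    exact (W1_off hDDE hv).1
  -- the localized function
  have hv1 : W1 (Metric.ball 0 a \ star b) (fun z => B08_cut (3 * R / 4) R z * v z)
      (fun z => v z • gradient (B08_cut (3 * R / 4) R) z + B08_cut (3 * R / 4) R z • G z) := by
    refine B08_W1_mul hEo sdiff_subset hv (B08_cut_smooth _ _) (B08_cut_rot _ _) ?_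
    intro z hz
    have h1 := B08_cut_tsupport (r := 3 * R / 4) (R := R) (by linarith) (by linarith) hz.1
    rw [mem_closedBall_zero_iff] at h1
    exact ⟨by rw [mem_ball_zero_iff]; linarith, fun h => hz.2.2 (hstar z h)⟩
  have hes : ContDiff ℝ ∞ (fun z : ℂ => A * Real.exp (-(30 * ‖z‖ ^ 2))) :=
    contDiff_const.mul (B08_exp_smooth 30)
  -- the barrier
  set ψ : ℂ → ℝ := fun z => xib b z * (A * Real.exp (-(30 * ‖z‖ ^ 2))) with hψdef
  have hψA : ψ = fun z => A * (xib b z * Real.exp (-(30 * ‖z‖ ^ 2))) := by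
    funext z
    rw [hψdef]
    ring
  have hψc : Continuous ψ := (xib_cont hb).mul hes.continuous
  have hψ0 : ∀ z, 0 ≤ ψ z := fun z =>
    mul_nonneg (xib_nonneg b z) (mul_nonneg hA (Real.exp_nonneg _))
  have hψg : IntegrableOn (fun z => ‖gradient ψ z‖ ^ 2) (Metric.ball 0 a \ star b) :=
    B08_prod_grad hb hes
  have hcomp := comp_strong (Ω₁ := Metric.ball 0 a \ star b)
    (Ω₂ := Metric.ball 0 (3 * R / 4) \ star b) (v := fun z => B08_cut (3 * R / 4) R z * v z)
    (w := fun _ => 0) (ψ := ψ) (χ := B08_cut (R / 2) (5 * R / 8)) (f := fun z => W z * v z)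
    (g₁ := fun _ => 0) (g₂ := fun z => 60 * ψ z)
    (G := fun z => v z • gradient (B08_cut (3 * R / 4) R) z + B08_cut (3 * R / 4) R z • G z)
    (K := fun _ => 0) (μ := 60) (ρ := R) (ρ' := R / 2)
    B08_dom_open B08_dom_open hΩ₁D hΩ₂D (B08_dom_rot hb) (B08_dom_rot hb) hv1 (B08_W1_zero DD)
    (Eventually.of_forall fun _ => le_rfl) ?_ (fun z _ => hψ0 z) ?_ hψg
    (B08_memLp hW hW' hL2 B08_dom_open.measurableSet hΩ₂D) (MemLp.zero' (ε := ℝ)) ?_ ?_ ?_ ?_
    (hψg.mono_set hΩ₁₂) (B08_cut_smooth _ _) (B08_cut_rot _ _) ?_ ?_ (by norm_num) (by linarith)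
    (by linarith) ?_ ?_
  · -- conclusion
    have hoff := (W1_off hEo.measurableSet hv).2.2
    filter_upwards [hcomp, hoff] with z h1 h2 hz
    rw [← congrFun hψA z]
    by_cases hzs : z ∈ star b
    · rw [(h2 fun h => h.2 (hstar z hzs)).1]
      exact hψ0 z
    · have h3 := h1 ⟨by rw [mem_ball_zero_iff]; linarith, hzs⟩
      rw [B08_cut_one (by linarith) (by linarith) (by linarith), one_mul, sub_zero] at h3
      exact h3
  · exact ((xib_smooth hb).mono fun z hz => hz.2).mul hes.contDiffOn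
  · intro z _
    simp only [hψdef]
    rw [xib_rot b z, norm_mul, norm_I, one_mul]
  · -- memLp of the barrier
    have : IsFiniteMeasure (volume.restrict (Metric.ball (0 : ℂ) (3 * R / 4) \ star b)) :=
      ⟨by
        rw [Measure.restrict_apply_univ]
        exact (measure_mono sdiff_subset).trans_lt measure_ball_lt_top⟩
    obtain ⟨M, hM⟩ := (isCompact_closedBall (0 : ℂ) (3 * R / 4)).exists_bound_of_continuousOn
      (f := fun z => 60 * ψ z) (continuous_const.mul hψc).continuousOn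
    refine MemLp.of_bound (continuous_const.mul hψc).aestronglyMeasurable M ?_
    rw [ae_restrict_iff' B08_dom_open.measurableSet]
    exact Eventually.of_forall fun z hz => hM z (Metric.ball_subset_closedBall hz.1)
  · intro ζ hζ hζR hζ0
    rw [B08_sub hR hRa ha' hE he hζ hζR]
  · intro ζ hζ hζR hζ0
    simp
  · -- the barrier is a supersolution
    intro ζ hζ hζR hζ0
    have h1 := xib_super (b := b) (K := 30) (ρ := 3 * R / 4) hb (by norm_num) (by nlinarith) ζ hζ hζ0
    have h2 : gradient ψ = fun z =>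
        A • gradient (fun z => xib b z * Real.exp (-(30 * ‖z‖ ^ 2))) z := by
      rw [hψA]
      exact B08_grad_smul A
    rw [h2]
    have h3 : ∀ z, (inner ℝ (A • gradient (fun z => xib b z * Real.exp (-(30 * ‖z‖ ^ 2))) z)
        (gradient ζ z) : ℝ) =
        A * inner ℝ (gradient (fun z => xib b z * Real.exp (-(30 * ‖z‖ ^ 2))) z)
          (gradient ζ z) := fun z => real_inner_smul_left _ _ _
    simp_rw [h3]
    rw [integral_const_mul]
    have h4 : ∀ z, 60 * ψ z * ζ z =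
        A * (2 * 30 * (xib b z * Real.exp (-(30 * ‖z‖ ^ 2))) * ζ z) := by
      intro z
      rw [hψA]
      ring
    simp_rw [h4]
    rw [integral_const_mul]
    exact mul_le_mul_of_nonneg_left h1 hA
  · intro z hz
    have h1 := B08_cut_tsupport (r := R / 2) (R := 5 * R / 8) (by linarith) (by linarith) hz.1
    rw [mem_closedBall_zero_iff] at h1
    exact ⟨by rw [mem_ball_zero_iff]; linarith, hz.2.2⟩
  · -- the positivity set is near the centre
    filter_upwards [hann, hv0] with z h1 h2 hz h3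
    apply B08_cut_one (by linarith) (by linarith)
    by_contra h4
    rw [not_le] at h4
    have h5 := hψ0 z
    by_cases h6 : ‖z‖ ≤ R
    · have h7 := h1 h4.le h6
      rw [← congrFun hψA z] at h7
      have h8 := h2 (by linarith)
      have h9 := B08_cut_mem (3 * R / 4) R z
      nlinarith
    · rw [not_le] at h6
      rw [B08_cut_zero (by linarith) (by linarith) h6.le, zero_mul] at h3
      linarith
  · nlinarith
  · filter_upwards [hann, hv0, hW'] with z h1 h2 hWz hz h3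
    have h4 : ‖z‖ ≤ R / 2 := by
      by_contra h4
      rw [not_le] at h4
      have h5 := hψ0 z
      by_cases h6 : ‖z‖ ≤ R
      · have h7 := h1 h4.le h6
        rw [← congrFun hψA z] at h7
        have h8 := h2 (by linarith)
        have h9 := B08_cut_mem (3 * R / 4) R z
        nlinarith
      · rw [not_le] at h6
        rw [B08_cut_zero (by linarith) (by linarith) h6.le, zero_mul] at h3
        linarith
    refine ⟨?_, (abs_re_le_norm z).trans h4, (abs_im_le_norm z).trans h4⟩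
    rw [B08_cut_one (by linarith) (by linarith) (by linarith)]
    have h5 := (hWz (hΩ₁D hz)).2
    have h6 := h2 (by linarith)
    nlinarith

/-! ## comparison from below -/

/-- the truncated elliptic coordinate is in `W1` -/
theorem B08_W1_xib {b R : ℝ} (hb : 0 < b) (hR : 0 < R) (hR' : R ≤ 1 / 8) :
    W1 (Metric.ball 0 R \ star b)
      (indicator (Metric.ball 0 R \ star b) (fun z => xib b z * B08_cut (3 * R / 4) R z))
      (indicator (Metric.ball 0 R \ star b)
        (gradient (fun z => xib b z * B08_cut (3 * R / 4) R z))) := by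
  have hpos : ∀ z ∈ Metric.ball (0 : ℂ) R \ star b,
      0 < xib b z * B08_cut (3 * R / 4) R z := by
    intro z hz
    refine mul_pos ?_ (B08_cut_pos (by linarith) (by linarith) (mem_ball_zero_iff.1 hz.1))
    exact lt_of_le_of_ne (xib_nonneg b z) fun h => hz.2 ((xib_eq_zero hb z).1 h.symm)
  have hc : Continuous (fun z => xib b z * B08_cut (3 * R / 4) R z) :=
    (xib_cont hb).mul (B08_cut_smooth _ _).continuous
  have hcomp : ∀ ε > 0, IsCompact {z ∈ Metric.ball (0 : ℂ) R \ star b |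
      ε ≤ |xib b z * B08_cut (3 * R / 4) R z|} := by
    intro ε hε
    have h1 : {z ∈ Metric.ball (0 : ℂ) R \ star b | ε ≤ |xib b z * B08_cut (3 * R / 4) R z|} =
        {z | ε ≤ |xib b z * B08_cut (3 * R / 4) R z|} := by
      ext z
      simp only [mem_ofPred_eq, and_iff_right_iff_imp]
      intro h
      refine ⟨?_, fun hs => ?_⟩
      · rw [mem_ball_zero_iff]
        by_contra h2
        rw [B08_cut_zero (by linarith) (by linarith) (not_lt.1 h2), mul_zero, abs_zero] at h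
        linarith
      · rw [(xib_eq_zero hb z).2 hs, zero_mul, abs_zero] at h
        linarith
    rw [h1]
    refine (isCompact_closedBall (0 : ℂ) R).of_isClosed_subset
      (isClosed_le continuous_const (continuous_abs.comp hc)) ?_
    rw [← h1]
    exact fun z hz => Metric.ball_subset_closedBall hz.1.1
  have hnull : volume {z ∈ Metric.ball (0 : ℂ) R \ star b |
      xib b z * B08_cut (3 * R / 4) R z = 0} = 0 := by
    have h1 : {z ∈ Metric.ball (0 : ℂ) R \ star b |
        xib b z * B08_cut (3 * R / 4) R z = 0} = ∅ := by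
      ext z
      simp only [mem_ofPred_eq, mem_empty_iff_false, iff_false, not_and]
      exact fun hz => (hpos z hz).ne'
    rw [h1, measure_empty]
  obtain ⟨F, hF1, hF2, hF3⟩ := vanish_lim (Ω := Metric.ball 0 R \ star b)
    (ψ := fun z => xib b z * B08_cut (3 * R / 4) R z) B08_dom_open
    (sdiff_subset.trans (B08_ball_DD hR')) (((xib_smooth hb).mono fun z hz => hz.2).mul
      (B08_cut_smooth _ _).contDiffOn) hcomp (B08_prod_grad hb (B08_cut_smooth _ _)) hnull
  refine ⟨_, fun n => ⟨hF2 n, fun z => ?_⟩, hF3⟩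
  have h1 : I * z ∈ Metric.ball (0 : ℂ) R \ star b ↔ z ∈ Metric.ball (0 : ℂ) R \ star b := by
    rw [Set.mem_sdiff, Set.mem_sdiff, B08_star_rot hb, mem_ball_zero_iff, mem_ball_zero_iff, norm_mul,
      norm_I, one_mul]
  by_cases hz : z ∈ Metric.ball (0 : ℂ) R \ star b
  · rw [indicator_of_mem hz, indicator_of_mem (h1.2 hz), xib_rot b z, B08_cut_rot _ _ z]
  · rw [indicator_of_notMem hz, indicator_of_notMem fun h => hz (h1.1 h)]

theorem B08_lower {a b R : ℝ} (hb : 0 < b) (hR : 0 < R) (hRa : R < a) (ha' : a ≤ 1 / 8)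
    {W v : ℂ → ℝ} {G : ℂ → ℂ} {E : Set ℂ}
    (hW' : ∀ᵐ z, z ∈ DD → 0 ≤ W z ∧ W z ≤ 60) (hEc : IsClosed E)
    (hE : E ∩ Metric.ball 0 a = star b) (hv : W1 (DD \ E) v G)
    (he : EqnS (DD \ E) G (fun z => W z * v z))
    (hv0 : ∀ᵐ z : ℂ, ‖z‖ ≤ 1 / 8 → 0 ≤ v z) {A : ℝ}
    (hann : ∀ᵐ z : ℂ, R / 2 ≤ ‖z‖ → ‖z‖ ≤ R → A * xib b z ≤ v z) :
    ∀ᵐ z : ℂ, ‖z‖ ≤ R / 2 → A * xib b z ≤ v z := by
  have hstar : ∀ z, z ∈ star b → z ∈ E := by
    intro z hz
    have : z ∈ E ∩ Metric.ball 0 a := by rw [hE]; exact hz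
    exact this.1
  have hEo : IsOpen (DD \ E) := by
    refine IsOpen.sdiff ?_ hEc
    exact (isOpen_lt (continuous_abs.comp continuous_re) continuous_const).inter
      (isOpen_lt (continuous_abs.comp continuous_im) continuous_const)
  have hΩ₁D : Metric.ball (0 : ℂ) R \ star b ⊆ DD := sdiff_subset.trans (B08_ball_DD (by linarith))
  have hΩ₂D : Metric.ball (0 : ℂ) (3 * R / 4) \ star b ⊆ DD :=
    sdiff_subset.trans (B08_ball_DD (by linarith))
  -- the localized function
  have hw1 : W1 DD (fun z => B08_cut (3 * R / 4) R z * v z)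
      (fun z => v z • gradient (B08_cut (3 * R / 4) R) z + B08_cut (3 * R / 4) R z • G z) :=
    B08_W1_mul hEo sdiff_subset hv (B08_cut_smooth _ _) (B08_cut_rot _ _) fun z hz => hz.2.1
  have hw0 : ∀ᵐ z, 0 ≤ B08_cut (3 * R / 4) R z * v z := by
    filter_upwards [hv0] with z hz
    by_cases h : ‖z‖ ≤ R
    · exact mul_nonneg (B08_cut_mem _ _ z).1 (hz (by linarith))
    · rw [B08_cut_zero (by linarith) (by linarith) (not_le.1 h).le, zero_mul]
  have hcomp := comp_strong (Ω₁ := Metric.ball 0 R \ star b)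
    (Ω₂ := Metric.ball 0 (3 * R / 4) \ star b)
    (v := fun z => A * indicator (Metric.ball 0 R \ star b)
      (fun z => xib b z * B08_cut (3 * R / 4) R z) z)
    (w := fun z => B08_cut (3 * R / 4) R z * v z) (ψ := fun _ => 0)
    (χ := B08_cut (R / 2) (5 * R / 8)) (f := fun _ => 0) (g₁ := fun _ => 0) (g₂ := fun _ => 0)
    (G := fun z => A • indicator (Metric.ball 0 R \ star b)
        (gradient (fun z => xib b z * B08_cut (3 * R / 4) R z)) z)
    (K := fun z => v z • gradient (B08_cut (3 * R / 4) R) z + B08_cut (3 * R / 4) R z • G z)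
    (μ := 0) (ρ := R) (ρ' := R / 2)
    B08_dom_open B08_dom_open hΩ₁D hΩ₂D (B08_dom_rot hb) (B08_dom_rot hb)
    (B08_W1_smul (B08_W1_xib hb hR (by linarith)) A) hw1 hw0
    contDiffOn_const (fun z _ => le_rfl) (fun z _ => rfl) ?_
    (MemLp.zero' (ε := ℝ)) (MemLp.zero' (ε := ℝ)) (MemLp.zero' (ε := ℝ)) ?_ ?_ ?_ ?_
    (B08_cut_smooth _ _) (B08_cut_rot _ _) ?_ ?_ le_rfl (by linarith)
    (by linarith) (by linarith) ?_
  · -- conclusion
    have hoff := (W1_off hEo.measurableSet hv).2.2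
    filter_upwards [hcomp, hoff] with z h1 h2 hz
    by_cases hzs : z ∈ star b
    · rw [(h2 fun h => h.2 (hstar z hzs)).1, (xib_eq_zero hb z).2 hzs, mul_zero]
    · have h4 : z ∈ Metric.ball (0 : ℂ) R \ star b :=
        ⟨by rw [mem_ball_zero_iff]; linarith, hzs⟩
      have h3 := h1 h4
      rw [indicator_of_mem h4, B08_cut_one (by linarith) (by linarith) (by linarith), mul_one,
        one_mul] at h3
      linarith
  · have h1 : gradient (fun _ : ℂ => (0 : ℝ)) = fun _ => 0 := by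
      funext z
      unfold gradient
      simp
    rw [h1]
    simp
  · -- harmonicity
    intro ζ hζ hζR hζ0
    have h1 := xib_weak hb (φ := ζ) (B08_tst_mono (fun z hz => hz.2) hζ)
    have h2 : ∀ z, (inner ℝ (A • indicator (Metric.ball 0 R \ star b)
        (gradient (fun z => xib b z * B08_cut (3 * R / 4) R z)) z) (gradient ζ z) : ℝ) =
        A * inner ℝ (gradient (xib b) z) (gradient ζ z) := by
      intro z
      rw [real_inner_smul_left]
      by_cases hz : z ∈ Metric.ball (0 : ℂ) (3 * R / 4) \ star b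
      · have hz1 : ‖z‖ < 3 * R / 4 := mem_ball_zero_iff.1 hz.1
        have hz2 : z ∈ Metric.ball (0 : ℂ) R \ star b :=
          ⟨Metric.ball_subset_ball (by linarith) hz.1, hz.2⟩
        rw [indicator_of_mem hz2]
        congr 2
        have h3 : (fun z => xib b z * B08_cut (3 * R / 4) R z) =ᶠ[𝓝 z] xib b := by
          filter_upwards [Metric.isOpen_ball.mem_nhds hz.1] with w hw
          rw [B08_cut_one (by linarith) (by linarith) (mem_ball_zero_iff.1 hw).le, mul_one]
        unfold gradient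
        rw [h3.fderiv_eq]
      · rw [(B08_tst_grad_zero hζ hz).1, inner_zero_right, inner_zero_right]
    simp_rw [h2]
    rw [integral_const_mul, h1]
    simp
  · -- `v` is a supersolution
    intro ζ hζ hζR hζ0
    rw [B08_sub hR hRa ha' hE he hζ hζR]
    simp only [zero_mul, integral_zero]
    apply integral_nonneg_of_ae
    filter_upwards [hv0, hW'] with z h1 h2
    by_cases hz : z ∈ Metric.ball (0 : ℂ) (3 * R / 4) \ star b
    · have hz1 : ‖z‖ < 3 * R / 4 := mem_ball_zero_iff.1 hz.1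
      exact mul_nonneg (mul_nonneg (h2 (hΩ₂D hz)).1 (h1 (by linarith))) (hζ0 z)
    · rw [(B08_tst_grad_zero hζ hz).2]
      simp
  · intro ζ hζ hζR hζ0
    have h1 : gradient (fun _ : ℂ => (0 : ℝ)) = fun _ => 0 := by
      funext z
      unfold gradient
      simp
    rw [h1]
    simp
  · have h1 : gradient (fun _ : ℂ => (0 : ℝ)) = fun _ => 0 := by
      funext z
      unfold gradient
      simp
    rw [h1]
    simp
  · intro z hz
    have h1 := B08_cut_tsupport (r := R / 2) (R := 5 * R / 8) (by linarith) (by linarith) hz.1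
    rw [mem_closedBall_zero_iff] at h1
    exact ⟨by rw [mem_ball_zero_iff]; linarith, hz.2.2⟩
  · -- the positivity set is near the centre
    filter_upwards [hann] with z h1 hz h3
    apply B08_cut_one (by linarith) (by linarith)
    by_contra h4
    rw [not_le] at h4
    have h6 : ‖z‖ < R := mem_ball_zero_iff.1 hz.1
    have h7 := h1 h4.le h6.le
    rw [indicator_of_mem hz] at h3
    have h9 := B08_cut_mem (3 * R / 4) R z
    nlinarith
  · filter_upwards [hann] with z h1 hz h3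
    have h4 : ‖z‖ ≤ R / 2 := by
      by_contra h4
      rw [not_le] at h4
      have h6 : ‖z‖ < R := mem_ball_zero_iff.1 hz.1
      have h7 := h1 h4.le h6.le
      rw [indicator_of_mem hz] at h3
      have h9 := B08_cut_mem (3 * R / 4) R z
      nlinarith
    exact ⟨by simp, (abs_re_le_norm z).trans h4, (abs_im_le_norm z).trans h4⟩

/-! ## the lower bound passes to the limit -/

theorem B08_lim_lower {m₁ : ℝ} {E : ℕ → Set ℂ} {v : ℕ → ℂ → ℝ} {G : ℕ → ℂ → ℂ}
    (hv : ∀ n, W1 (DD \ E n) (v n) (G n))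
    (hl : ∀ n, ∀ᵐ z : ℂ, ‖z‖ ≤ 1 / 8 → m₁ * hh z ≤ v n z)
    {v' : ℂ → ℝ} {G' : ℂ → ℂ} (hv' : W1 DD v' G')
    (hlim : Tendsto (fun n => ∫ z, ‖G n z - G' z‖ ^ 2) atTop (𝓝 0)) :
    ∀ᵐ z : ℂ, ‖z‖ ≤ 1 / 8 → m₁ * hh z ≤ v' z := by
  have hDDo : IsOpen DD :=
    (isOpen_lt (continuous_abs.comp continuous_re) continuous_const).inter
      (isOpen_lt (continuous_abs.comp continuous_im) continuous_const)
  have hd : ∀ n, W1 DD (fun z => v n z - v' z) (fun z => G n z - G' z) := fun n =>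
    B08_W1_sub (B08_W1_mono sdiff_subset (hv n)) hv'
  have hp : ∀ n, ∫ z, (v n z - v' z) ^ 2 ≤ 2 * ∫ z, ‖G n z - G' z‖ ^ 2 := by
    intro n
    have h1 := W1_poincare (hd n) (ρ := 2) (ρ' := 1) one_pos one_lt_two ?_
    · linarith
    · filter_upwards [(W1_off hDDo.measurableSet (hd n)).2.2] with z hz h0
      by_contra h
      have : z ∉ DD := fun hzD => h ⟨hzD.1.le, hzD.2.le⟩
      exact h0 (hz this).1
  have hh_cont : Continuous hh := by
    unfold hh
    fun_prop
  have hm : AEStronglyMeasurable v' volume := (W1_off hDDo.measurableSet hv').1.1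
  set f : ℂ → ℝ := indicator (Metric.closedBall 0 (1 / 8)) (fun z => max (m₁ * hh z - v' z) 0)
    with hf
  have hf0 : ∀ z, 0 ≤ f z := fun z => indicator_nonneg (fun _ _ => le_max_right _ _) z
  have hfm : AEStronglyMeasurable f volume := by
    refine AEStronglyMeasurable.indicator ?_ Metric.isClosed_closedBall.measurableSet
    exact (((continuous_const.mul hh_cont).aestronglyMeasurable).sub hm).sup
      aestronglyMeasurable_const
  have hfle : ∀ n, ∀ᵐ z, f z ^ 2 ≤ (v n z - v' z) ^ 2 := by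
    intro n
    filter_upwards [hl n] with z hz
    by_cases hzb : z ∈ Metric.closedBall (0 : ℂ) (1 / 8)
    · have h1 := hz (mem_closedBall_zero_iff.1 hzb)
      rw [hf, indicator_of_mem hzb]
      rcases le_total (m₁ * hh z - v' z) 0 with h2 | h2
      · rw [max_eq_right h2]
        nlinarith [sq_nonneg (v n z - v' z)]
      · rw [max_eq_left h2]
        exact pow_le_pow_left₀ h2 (by linarith) 2
    · rw [hf, indicator_of_notMem hzb]
      nlinarith [sq_nonneg (v n z - v' z)]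
  have hint : ∀ n, Integrable (fun z => (v n z - v' z) ^ 2) := fun n =>
    (W1_off hDDo.measurableSet (hd n)).1.integrable_sq
  have hfi : Integrable (fun z => f z ^ 2) := by
    refine Integrable.mono' (hint 0) (hfm.pow 2) ?_
    filter_upwards [hfle 0] with z hz
    rw [Real.norm_eq_abs, abs_of_nonneg (by positivity)]
    exact hz
  have h0 : ∫ z, f z ^ 2 = 0 := by
    apply le_antisymm _ (integral_nonneg fun z => by positivity)
    have h1 : Tendsto (fun n => 2 * ∫ z, ‖G n z - G' z‖ ^ 2) atTop (𝓝 0) := by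
      simpa using hlim.const_mul 2
    exact ge_of_tendsto' h1 fun n => (integral_mono_ae hfi (hint n) (hfle n)).trans (hp n)
  rw [integral_eq_zero_iff_of_nonneg (fun z => by positivity) hfi] at h0
  filter_upwards [h0] with z hz hzb
  have h1 : f z = 0 := by
    have : f z ^ 2 = 0 := hz
    exact pow_eq_zero_iff (two_ne_zero) |>.1 this
  rw [hf, indicator_of_mem (mem_closedBall_zero_iff.2 hzb)] at h1
  have h2 := le_max_left (m₁ * hh z - v' z) 0
  linarith

/-- local closeness to the elliptic coordinate -/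
theorem local_close {m₁ a : ℝ} (hm : 0 < m₁) (ha : 0 < a) (ha' : a ≤ 1 / 8) {W : ℂ → ℝ}
    (hW : AEStronglyMeasurable W (volume.restrict DD))
    (hW' : ∀ᵐ z, z ∈ DD → 0 ≤ W z ∧ W z ≤ 60) (hWR : ∀ᵐ z, z ∈ DD → W (I * z) = W z) {b : ℕ → ℝ} (hb : ∀ n, 0 < b n ∧ b n < a)
    (hb0 : Tendsto b atTop (𝓝 0)) {E : ℕ → Set ℂ} (hE : ∀ n, IsClosed (E n) ∧ E n ⊆ Mir ∧
      (∀ z, I * z ∈ E n ↔ z ∈ E n) ∧ E n ∩ Metric.ball 0 a = star (b n))
    {v : ℕ → ℂ → ℝ} {G : ℕ → ℂ → ℂ} (hv : ∀ n, W1 (DD \ E n) (v n) (G n))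
    (he : ∀ n, EqnS (DD \ E n) (G n) (fun z => W z * v n z)) (hG : ∀ n, ∫ z, ‖G n z‖ ^ 2 ≤ 4)
    (hl : ∀ n, ∀ᵐ z : ℂ, ‖z‖ ≤ 1 / 8 → m₁ * hh z ≤ v n z)
    {v' : ℂ → ℝ} {G' : ℂ → ℂ} (hv' : W1 DD v' G')
    (he' : EqnS (Metric.ball 0 a) G' (fun z => W z * v' z))
    (hlim : Tendsto (fun n => ∫ z, ‖G n z - G' z‖ ^ 2) atTop (𝓝 0)) {δ : ℝ} (hδ : 0 < δ) :
    ∃ a' c C : ℝ, 0 < a' ∧ a' < a ∧ a' ≤ δ ∧ 0 < c ∧ 0 < C ∧ ∀ᶠ n in atTop, ∃ A : ℝ,
      c / Real.log (1 / b n) ≤ A ∧ A ≤ C ∧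
        ∀ᵐ z : ℂ, ‖z‖ ≤ a' → |v n z - A * xib (b n) z| ≤ δ * (A * xib (b n) z) := by
  have hl' := B08_lim_lower hv hl hv' hlim
  obtain ⟨c₀, hc₀, hcen⟩ := open_centre hm ha ha' hv' hW hW' hWR he' hl'
  obtain ⟨d, hd0, hd1, hd2⟩ : ∃ d : ℝ, 0 < d ∧ d ≤ 1 / 2 ∧ d ≤ δ :=
    ⟨min δ (1 / 2), by positivity, min_le_right _ _, min_le_left _ _⟩
  -- the radius
  obtain ⟨R₁, hR₁0, hR₁a, hR₁⟩ := hcen (c₀ * d / 16) (by positivity)
  obtain ⟨R, hR0, hRR₁, hRδ, hRexp⟩ : ∃ R : ℝ, 0 < R ∧ R ≤ R₁ ∧ R ≤ δ ∧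
      Real.exp (30 * R ^ 2) ≤ 1 + d / 8 := by
    have h1 : Tendsto (fun R : ℝ => Real.exp (30 * R ^ 2)) (𝓝[>] 0) (𝓝 1) := by
      have h2 : Continuous (fun R : ℝ => Real.exp (30 * R ^ 2)) := by fun_prop
      have h3 := h2.tendsto 0
      simp only [ne_eq, OfNat.ofNat_ne_zero, not_false_eq_true, zero_pow, mul_zero,
        Real.exp_zero] at h3
      exact h3.mono_left nhdsWithin_le_nhds
    have h2 : ∀ᶠ R : ℝ in 𝓝[>] 0, Real.exp (30 * R ^ 2) ≤ 1 + d / 8 :=
      h1.eventually_le_const (by linarith)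
    have h3 : ∀ᶠ R : ℝ in 𝓝[>] 0, R ∈ Ioo (0 : ℝ) (min R₁ δ) :=
      Ioo_mem_nhdsGT (lt_min hR₁0 hδ)
    obtain ⟨R, h4, h5⟩ := (h2.and h3).exists
    exact ⟨R, h5.1, h5.2.le.trans (min_le_left _ _), h5.2.le.trans (min_le_right _ _), h4⟩
  have hRa : R < a := lt_of_le_of_lt hRR₁ hR₁a
  have hL : Tendsto (fun n => Real.log (1 / b n)) atTop atTop := by
    have h1 : Tendsto b atTop (𝓝[>] 0) :=
      tendsto_nhdsWithin_iff.2 ⟨hb0, Eventually.of_forall fun n => (hb n).1⟩
    have h2 := (Real.tendsto_log_nhdsGT_zero.comp h1)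
    have h3 := tendsto_neg_atBot_atTop.comp h2
    refine h3.congr fun n => ?_
    simp only [Function.comp_apply, one_div, Real.log_inv]
  have hann := annulus_close ha ha' hW hW' hb hb0 hE hv he hG hv' he' hlim hR0 hRa
    (δ := c₀ * d / 16) (by positivity)
  refine ⟨R / 2, c₀ / 4, c₀, by positivity, by linarith, by linarith, by positivity, hc₀, ?_⟩
  filter_upwards [hann, hL.eventually_ge_atTop 1, hL.eventually_ge_atTop (3 * |Real.log (R / 2)| / d),
    hL.eventually_ge_atTop (Real.log 4 / d), hb0.eventually_le_const (show 0 < R / 2 by positivity)]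
    with n h1 hL1 hL2 hL3 hbR
  have hbn := hb n
  set L := Real.log (1 / b n) with hLdef
  have hLb : Real.log (b n) = -L := by
    rw [hLdef, one_div, Real.log_inv, neg_neg]
  have hL0 : 0 < L := by linarith
  refine ⟨c₀ / 4 / L, le_rfl, ?_, ?_⟩
  · rw [div_le_iff₀ hL0]
    nlinarith
  have hA : 0 < c₀ / 4 / L := by positivity
  have hv0 : ∀ᵐ z : ℂ, ‖z‖ ≤ 1 / 8 → 0 ≤ v n z := by
    filter_upwards [hl n] with z hz hz8
    have h2 : 0 ≤ hh z := abs_nonneg _
    exact (mul_nonneg hm.le h2).trans (hz hz8)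
  -- values on the annulus
  have hval : ∀ᵐ z : ℂ, R / 2 ≤ ‖z‖ → ‖z‖ ≤ R → |v n z - c₀| ≤ c₀ * d / 8 := by
    filter_upwards [h1, hR₁] with z h2 h3 h4 h5
    have h6 := h2 h4 h5
    have h7 := h3 (h5.trans hRR₁)
    calc |v n z - c₀| = |(v n z - v' z) + (v' z - c₀)| := by ring_nf
      _ ≤ |v n z - v' z| + |v' z - c₀| := abs_add_le _ _
      _ ≤ c₀ * d / 8 := by linarith
  have hxl : ∀ z : ℂ, R / 2 ≤ ‖z‖ → 4 * (L + Real.log (R / 2)) ≤ xib (b n) z := by
    intro z hz
    refine le_trans ?_ (xib_lower hbn.1 (hbR.trans hz))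
    have h2 : 4 * (L + Real.log (R / 2)) = Real.log ((R / 2) ^ 4 / b n ^ 4) := by
      rw [Real.log_div (by positivity) (pow_pos hbn.1 4).ne', Real.log_pow, Real.log_pow, hLb]
      push_cast
      ring
    rw [h2]
    apply Real.log_le_log (div_pos (by positivity) (pow_pos hbn.1 4))
    exact div_le_div_of_nonneg_right (pow_le_pow_left₀ (by positivity) hz 4) (pow_pos hbn.1 4).le
  have hxu : ∀ z : ℂ, ‖z‖ ≤ R → xib (b n) z ≤ 4 * L + Real.log 4 := by
    intro z hz
    refine (xib_upper hbn.1 z).trans ?_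
    have h2 : 4 * L + Real.log 4 = Real.log (4 / b n ^ 4) := by
      rw [Real.log_div (by norm_num) (pow_pos hbn.1 4).ne', Real.log_pow, hLb]
      push_cast
      ring
    rw [h2]
    have hb4 : 0 < b n ^ 4 := pow_pos hbn.1 4
    apply Real.log_le_log (by positivity)
    have h3 : ‖z‖ ^ 4 ≤ 1 := by
      apply pow_le_one₀ (norm_nonneg _)
      linarith
    have h4 : b n ^ 4 ≤ 1 := by
      apply pow_le_one₀ hbn.1.le
      linarith
    rw [le_div_iff₀ hb4]
    have h5 : 2 * (‖z‖ ^ 4 / b n ^ 4 + 1) * b n ^ 4 = 2 * (‖z‖ ^ 4 + b n ^ 4) := by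
      rw [mul_assoc, add_mul, div_mul_cancel₀ _ hb4.ne', one_mul]
    rw [h5]
    linarith
  have hup := B08_upper (A := c₀ / 4 / L * (1 + d)) hbn.1 hR0 hRa ha' hW hW' (hE n).1 (hE n).2.2.2
    (hv n) (he n) hv0 (by positivity) ?_
  · have hlo := B08_lower (A := c₀ / 4 / L * (1 - d)) hbn.1 hR0 hRa ha' hW' (hE n).1 (hE n).2.2.2
      (hv n) (he n) hv0 ?_
    · filter_upwards [hup, hlo] with z h2 h3 h4
      have h5 := h2 h4
      have h6 := h3 h4
      have h7 := xib_nonneg (b n) z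
      have h8 : xib (b n) z * Real.exp (-(30 * ‖z‖ ^ 2)) ≤ xib (b n) z := by
        have : Real.exp (-(30 * ‖z‖ ^ 2)) ≤ 1 := by
          rw [Real.exp_le_one_iff]
          have := sq_nonneg ‖z‖
          linarith
        nlinarith
      have h9 : 0 ≤ c₀ / 4 / L * xib (b n) z := mul_nonneg hA.le h7
      have h10 : c₀ / 4 / L * (1 + d) * (xib (b n) z * Real.exp (-(30 * ‖z‖ ^ 2))) ≤
          c₀ / 4 / L * (1 + d) * xib (b n) z := mul_le_mul_of_nonneg_left h8 (by positivity)
      have h11 : d * (c₀ / 4 / L * xib (b n) z) ≤ δ * (c₀ / 4 / L * xib (b n) z) :=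
        mul_le_mul_of_nonneg_right hd2 h9
      have e1 : c₀ / 4 / L * (1 + d) * xib (b n) z =
          c₀ / 4 / L * xib (b n) z + d * (c₀ / 4 / L * xib (b n) z) := by ring
      have e2 : c₀ / 4 / L * (1 - d) * xib (b n) z =
          c₀ / 4 / L * xib (b n) z - d * (c₀ / 4 / L * xib (b n) z) := by ring
      rw [abs_le]
      constructor
      · linarith
      · linarith
    · -- lower bound on the annulus
      filter_upwards [hval] with z h2 h3 h4
      have h5 := (abs_le.1 (h2 h3 h4)).1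
      have h6 := hxu z h4
      have h7 : c₀ / 4 / L * (1 - d) * xib (b n) z ≤
          c₀ / 4 / L * (1 - d) * (4 * L + Real.log 4) :=
        mul_le_mul_of_nonneg_left h6 (mul_nonneg hA.le (by linarith))
      have h8 : c₀ / 4 / L * (1 - d) * (4 * L + Real.log 4) ≤ c₀ - c₀ * d / 8 := by
        have h9 : c₀ / 4 / L * (1 - d) * (4 * L + Real.log 4) =
            c₀ * ((1 - d) * (4 * L + Real.log 4) / (4 * L)) := by
          field_simp
        have h10 : (1 - d) * (4 * L + Real.log 4) / (4 * L) ≤ 1 - d / 8 := by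
          rw [div_le_iff₀ (by positivity)]
          have h11 : Real.log 4 ≤ L * d := by
            rw [div_le_iff₀ hd0] at hL3
            exact hL3
          have h12 : 0 < Real.log 4 := Real.log_pos (by norm_num)
          nlinarith
        have h11 := mul_le_mul_of_nonneg_left h10 hc₀.le
        rw [h9]
        linarith
      linarith
  · -- upper bound on the annulus
    filter_upwards [hval] with z h2 h3 h4
    have h5 := (abs_le.1 (h2 h3 h4)).2
    have h6 := hxl z h3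
    have h7 : Real.exp (-(30 * R ^ 2)) ≤ Real.exp (-(30 * ‖z‖ ^ 2)) := by
      apply Real.exp_le_exp.2
      have := norm_nonneg z
      nlinarith
    have h11 : 3 * |Real.log (R / 2)| ≤ L * d := by
      rw [div_le_iff₀ hd0] at hL2
      exact hL2
    have h12 := neg_abs_le (Real.log (R / 2))
    have h13 := abs_nonneg (Real.log (R / 2))
    have h14 : (1 + d / 8) ^ 2 * L ≤ (1 + d) * (L + Real.log (R / 2)) := by
      nlinarith [mul_pos hd0 hL0]
    have hexp : 1 ≤ Real.exp (-(30 * R ^ 2)) * (1 + d / 8) := by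
      rw [Real.exp_neg]
      have := Real.exp_pos (30 * R ^ 2)
      rw [inv_mul_eq_div, one_le_div this]
      exact hRexp
    have hpos : 0 < L + Real.log (R / 2) := by
      nlinarith
    have h15 : 4 * (L + Real.log (R / 2)) * Real.exp (-(30 * R ^ 2)) ≤
        xib (b n) z * Real.exp (-(30 * ‖z‖ ^ 2)) :=
      mul_le_mul h6 h7 (Real.exp_nonneg _) (xib_nonneg _ _)
    have h16 : c₀ / 4 / L * (1 + d) * (4 * (L + Real.log (R / 2)) * Real.exp (-(30 * R ^ 2))) ≤
        c₀ / 4 / L * (1 + d) * (xib (b n) z * Real.exp (-(30 * ‖z‖ ^ 2))) :=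
      mul_le_mul_of_nonneg_left h15 (by positivity)
    have h17 : c₀ + c₀ * d / 8 ≤
        c₀ / 4 / L * (1 + d) * (4 * (L + Real.log (R / 2)) * Real.exp (-(30 * R ^ 2))) := by
      have h18 : c₀ / 4 / L * (1 + d) * (4 * (L + Real.log (R / 2)) * Real.exp (-(30 * R ^ 2))) =
          c₀ * (((1 + d) * (L + Real.log (R / 2))) * Real.exp (-(30 * R ^ 2)) / L) := by
        field_simp
      have h19 : 1 + d / 8 ≤ ((1 + d) * (L + Real.log (R / 2))) * Real.exp (-(30 * R ^ 2)) / L := by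
        rw [le_div_iff₀ hL0]
        have h20 : (1 + d / 8) ^ 2 * L * Real.exp (-(30 * R ^ 2)) ≤
            ((1 + d) * (L + Real.log (R / 2))) * Real.exp (-(30 * R ^ 2)) :=
          mul_le_mul_of_nonneg_right h14 (Real.exp_nonneg _)
        have h21 : (1 + d / 8) * L * 1 ≤
            (1 + d / 8) * L * (Real.exp (-(30 * R ^ 2)) * (1 + d / 8)) :=
          mul_le_mul_of_nonneg_left hexp (by positivity)
        linarith
      have h20 := mul_le_mul_of_nonneg_left h19 hc₀.le
      rw [h18]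
      linarith
    linarith

end Pool.Agent.H87.LE
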