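import Pool.Agent.H87.LE.A06_LS
import Pool.Agent.H87.LE.A08_W0
import Pool.Agent.H87.LE.A12_Ineq
import Pool.Agent.H87.LE.A14_Int
import Pool.Agent.H87.LE.B06_Base

open MeasureTheory Complex Set Filter Topology
open scoped ContDiff Laplacian

namespace Pool.Agent.H87.LE

/-! # B09a: energy and gradient along a resonance -/

noncomputable def Theta (q : ℝ) (u v : HH) (s : ℝ) : ℝ :=
  ∫ z in DD, Mq q (fn u z) (s * fn v z)

theorem b09a_add (u v : HH) (s : ℝ) :
    ∀ᵐ z ∂b04b_mu, fn (u + s • v) z = fn u z + s * fn v z := by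
  have h : fn (u + s • v) = fn u + s • fn v := by rw [map_add, map_smul]
  rw [h]
  have h1 := Lp.coeFn_add (fn u) (s • fn v)
  have h2 := Lp.coeFn_smul s (fn v)
  refine ae_restrict_of_ae ?_
  filter_upwards [h1, h2] with z a b
  rw [a, Pi.add_apply, b]
  simp

theorem b09a_rpow_int {q : ℝ} (h2 : 2 < q) (h3 : q ≤ 21 / 10) (v : HH) :
    Integrable (fun z => |fn v z| ^ q) b04b_mu := by
  refine (b04b_int h2 h3 v v).congr (Eventually.of_forall fun z => ?_)
  simp only
  have hq0 : q ≠ 0 := by linarith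
  rcases eq_or_ne (fn v z) 0 with h0 | h0
  · rw [h0, abs_zero, Real.zero_rpow hq0, mul_zero]
  · have hp : 0 < |fn v z| := abs_pos.mpr h0
    have e : |fn v z| ^ q = |fn v z| ^ (q - 2) * |fn v z| ^ 2 := by
      rw [← Real.rpow_natCast, ← Real.rpow_add hp]
      norm_num
    rw [e, sq_abs]
    ring

theorem b09a_meas_ae {u : HH} (q lam : ℝ) :
    AEStronglyMeasurable (fun z => (q - 1) * lam * |fn u z| ^ (q - 2)) b04b_mu :=
  (((b04b_meas u).norm.aemeasurable.pow_const (q - 2)).const_mul _).aestronglyMeasurable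

theorem b09a_W_int {q lam δ : ℝ} {u : HH} {T : HH →L[ℝ] HH} (hB : BaseD q lam δ u T) (x y : HH) :
    Integrable (fun z => (q - 1) * lam * |fn u z| ^ (q - 2) * fn x z * fn y z) b04b_mu := by
  refine b04_int (b09a_meas_ae q lam) (C := 60) ?_ x y
  filter_upwards [hB.hW] with z hz h
  obtain ⟨h1, h2⟩ := hz h
  rw [abs_of_nonneg h1]
  exact h2

/-- the reflection symmetry -/
theorem b09a_symm {q : ℝ} {u v : HH} (hu : ev u = 0) (hv : ev v = v) (s : ℝ) :
    ∫ z in DD, |fn u z - s * fn v z| ^ q = ∫ z in DD, |fn u z + s * fn v z| ^ q := by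
  rw [← b04_conj_integral (fun z => |fn u z + s * fn v z| ^ q)]
  refine integral_congr_ae (ae_restrict_of_ae ?_)
  filter_upwards [(ev_zero_iff u).1 hu, (ev_self_iff v).1 hv] with z h1 h2
  rw [h1, h2, ← abs_neg]
  congr 2
  ring

/-- energy along a resonance -/
theorem J_identity {q lam δ : ℝ} {u : HH} {T : HH →L[ℝ] HH} (hB : BaseD q lam δ u T) {E : Set ℂ}
    (hE : E ⊆ Mir) {v : HH} (hv : v ∈ V (DD \ E)) (hev : ev v = v)
    (hres : P (DD \ E) (T v) = v) (s : ℝ) :
    JJ (Nq lam q) (P (DD \ E)) (u + s • v) =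
      JJ (Nq lam q) (P (DD \ E)) u - lam / q * Theta q u v s := by
  have h2 := hB.hq
  have h3 := hB.hq'
  have hq0 : q ≠ 0 := by linarith
  have hu : u ∈ V (DD \ E) := odd_mem' hB.odd hE
  have hPu : P (DD \ E) u = u := (P_self_iff _ _).2 hu
  have hPw : P (DD \ E) (u + s • v) = u + s • v :=
    (P_self_iff _ _).2 (add_mem hu (Submodule.smul_mem _ s hv))
  have huv : inner ℝ u v = 0 := by
    rw [← hev, ← ev_symm, hB.odd, inner_zero_left]
  have hvv : ‖v‖ ^ 2 = ∫ z, (q - 1) * lam * |fn u z| ^ (q - 2) * fn v z * fn v z ∂b04b_mu := by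
    rw [← real_inner_self_eq_norm_sq]
    have h := hB.hT v v
    rw [← h]
    calc inner ℝ v v = inner ℝ (P (DD \ E) (T v)) v := by rw [hres]
      _ = inner ℝ (T v) (P (DD \ E) v) := P_symm _ _ _
      _ = inner ℝ (T v) v := by rw [(P_self_iff _ _).2 hv]
  have hnorm : ‖u + s • v‖ ^ 2 = ‖u‖ ^ 2 + s ^ 2 * ‖v‖ ^ 2 := by
    rw [norm_add_sq_real, inner_smul_right, huv, norm_smul, mul_pow, Real.norm_eq_abs, sq_abs]
    ring
  -- the nonlinear terms
  have hIp : Integrable (fun z => |fn u z + s * fn v z| ^ q) b04b_mu := by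
    refine (b09a_rpow_int h2 h3 (u + s • v)).congr ?_
    filter_upwards [b09a_add u v s] with z hz
    rw [hz]
  have hIm : Integrable (fun z => |fn u z - s * fn v z| ^ q) b04b_mu := by
    refine (b09a_rpow_int h2 h3 (u + (-s) • v)).congr ?_
    filter_upwards [b09a_add u v (-s)] with z hz
    rw [hz]
    congr 2
    ring
  have hIu := b09a_rpow_int h2 h3 u
  have hIW := b09a_W_int hB v v
  have hNw : Nq lam q (u + s • v) = lam / q * ∫ z, |fn u z + s * fn v z| ^ q ∂b04b_mu := by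
    unfold Nq
    congr 1
    refine integral_congr_ae ?_
    filter_upwards [b09a_add u v s] with z hz
    rw [hz]
  have hTh : lam / q * Theta q u v s = lam / q * (∫ z, |fn u z + s * fn v z| ^ q ∂b04b_mu) -
      lam / q * (∫ z, |fn u z| ^ q ∂b04b_mu) - s ^ 2 / 2 * ‖v‖ ^ 2 := by
    unfold Theta
    rw [hvv, ← integral_const_mul, ← integral_const_mul, ← integral_const_mul]
    have e0 : ∫ z in DD, lam / q * Mq q (fn u z) (s * fn v z) =
        ∫ z, (lam / q * 2⁻¹ * |fn u z + s * fn v z| ^ q +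
          lam / q * 2⁻¹ * |fn u z - s * fn v z| ^ q - lam / q * |fn u z| ^ q -
          s ^ 2 / 2 * ((q - 1) * lam * |fn u z| ^ (q - 2) * fn v z * fn v z)) ∂b04b_mu := by
      refine integral_congr_ae (Eventually.of_forall fun z => ?_)
      simp only [Mq]
      field_simp
    have i1 := hIp.const_mul (lam / q * 2⁻¹)
    have i2 := hIm.const_mul (lam / q * 2⁻¹)
    have i3 := hIu.const_mul (lam / q)
    have i4 := hIW.const_mul (s ^ 2 / 2)
    have i12 : Integrable (fun z => lam / q * 2⁻¹ * |fn u z + s * fn v z| ^ q +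
          lam / q * 2⁻¹ * |fn u z - s * fn v z| ^ q) b04b_mu := i1.add i2
    have i123 : Integrable (fun z => lam / q * 2⁻¹ * |fn u z + s * fn v z| ^ q +
          lam / q * 2⁻¹ * |fn u z - s * fn v z| ^ q - lam / q * |fn u z| ^ q) b04b_mu :=
      i12.sub i3
    rw [e0, integral_sub i123 i4, integral_sub i12 i3, integral_add i1 i2, integral_const_mul,
      integral_const_mul, integral_const_mul, integral_const_mul, integral_const_mul,
      b09a_symm hB.odd hev]
    ring
  unfold JJ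
  rw [hPw, hPu, hNw, hTh, hnorm]
  unfold Nq
  ring

theorem b09a_line (a b : ℝ) (h : ¬ (a = 0 ∧ b = 0)) :
    volume {z : ℂ | a * z.re + b * z.im = 0} = 0 := by
  have hs : {z : ℂ | a * z.re + b * z.im = 0} =
      (LinearMap.ker (a • Complex.reLm + b • Complex.imLm) : Set ℂ) := by
    ext z; simp
  rw [hs]
  refine Measure.addHaar_submodule _ _ ?_
  intro ht
  apply h
  rw [LinearMap.ker_eq_top] at ht
  constructor
  · have := LinearMap.congr_fun ht 1
    simpa using this
  · have := LinearMap.congr_fun ht I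
    simpa using this

theorem b09a_mir_null : volume Mir = 0 := by
  have hs : Mir ⊆ ({z : ℂ | 1 * z.re + 0 * z.im = 0} ∪ {z : ℂ | 0 * z.re + 1 * z.im = 0}) ∪
      ({z : ℂ | 1 * z.re + 1 * z.im = 0} ∪ {z : ℂ | 1 * z.re + (-1) * z.im = 0}) := by
    intro z hz
    have hz' : z.re * z.im * ((z.re + z.im) * (z.re - z.im)) = 0 := by
      have : z.re * z.im * (z.re ^ 2 - z.im ^ 2) = 0 := hz
      rw [← this]; ring
    rcases mul_eq_zero.1 hz' with h | h
    · rcases mul_eq_zero.1 h with h | h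
      · exact Or.inl (Or.inl (by simp [h]))
      · exact Or.inl (Or.inr (by simp [h]))
    · rcases mul_eq_zero.1 h with h | h
      · exact Or.inr (Or.inl (by simp only [mem_ofPred_eq]; linarith))
      · exact Or.inr (Or.inr (by simp only [mem_ofPred_eq]; linarith))
  refine measure_mono_null hs ?_
  rw [measure_union_null_iff, measure_union_null_iff, measure_union_null_iff]
  exact ⟨⟨b09a_line 1 0 (by simp), b09a_line 0 1 (by simp)⟩,
    b09a_line 1 1 (by simp), b09a_line 1 (-1) (by simp)⟩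

theorem b09a_nu {q lam δ : ℝ} {u : HH} {T : HH →L[ℝ] HH} (hB : BaseD q lam δ u T) :
    nq lam q u = u := by
  refine ext_inner_right ℝ fun y => ?_
  rw [nq_inner hB.hq hB.hq', hB.eqn y]

/-- gradient along a resonance -/
theorem grad_bound {q lam δ : ℝ} {u : HH} {T : HH →L[ℝ] HH} (hB : BaseD q lam δ u T)
    (hδ : δ ≤ 1 / 2) (C₁ : ℝ) : ∃ C : ℝ, 0 < C ∧ ∀ (E : Set ℂ) (v : HH) (s : ℝ), E ⊆ Mir →
      v ∈ V (DD \ E) → ev v = v → P (DD \ E) (T v) = v →
      (∀ᵐ z, z ∈ DD → |fn v z| ≤ C₁) → 0 < s → s ≤ 1 →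
        ‖gJ (nq lam q) (P (DD \ E)) (u + s • v)‖ ^ 2 ≤ C * s ^ (2 * (q - 1) + 18 / 25) := by
  have h2 := hB.hq
  have h3 := hB.hq'
  obtain ⟨CR, hCR, hR⟩ := Rq_bound
  obtain ⟨C4, hC4, h4⟩ := fn_l4
  set I0 : ℝ := ∫ z in DD, |w0 z| ^ (-(12 / 25) : ℝ) with hI0
  have hI0n : 0 ≤ I0 := integral_nonneg fun z => Real.rpow_nonneg (abs_nonneg _) _
  set D : ℝ := |C₁| + 1 with hD
  have hD0 : 0 < D := by positivity
  set K : ℝ := CR * ((1 / 2 : ℝ) ^ (-(9 / 25) : ℝ) * D ^ (q - 1 + 9 / 25)) with hK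
  have hK0 : 0 < K := by positivity
  set M : ℝ := |lam| * (K * (I0 ^ (3 / 4 : ℝ) * C4 ^ (1 / 4 : ℝ))) + 1 with hM
  have hM0 : 0 < M := by positivity
  refine ⟨M ^ 2, by positivity, fun E v s hE hv hev hres hvb hs hs1 => ?_⟩
  have hu : u ∈ V (DD \ E) := odd_mem' hB.odd hE
  have hPu : P (DD \ E) u = u := (P_self_iff _ _).2 hu
  have hPw : P (DD \ E) (u + s • v) = u + s • v :=
    (P_self_iff _ _).2 (add_mem hu (Submodule.smul_mem _ s hv))
  have hg : gJ (nq lam q) (P (DD \ E)) (u + s • v) =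
      - P (DD \ E) (nq lam q (u + s • v) - nq lam q u - T (s • v)) := by
    unfold gJ
    rw [hPw, b09a_nu hB, map_sub, map_sub, hPu, map_smul T, map_smul (P (DD \ E)), hres]
    abel
  have hPr : IsPr (P (DD \ E)) := ⟨P_idem _, P_symm _⟩
  have hnorm : ‖gJ (nq lam q) (P (DD \ E)) (u + s • v)‖ ≤ M * s ^ (q - 1 + 9 / 25) := by
    rw [hg, norm_neg]
    refine (b04_pr_norm hPr _).trans ?_
    refine b04b_norm (by positivity) fun y => ?_
    have hsv := b09a_add u v s
    have hIw := b04b_int h2 h3 (u + s • v) y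
    have hIu := b04b_int h2 h3 u y
    have hIW := b09a_W_int hB (s • v) y
    have hsm : ∀ᵐ z ∂b04b_mu, fn (s • v) z = s * fn v z := by
      have h : fn (s • v) = s • fn v := map_smul _ _ _
      rw [h]
      refine ae_restrict_of_ae ?_
      filter_upwards [Lp.coeFn_smul s (fn v)] with z b
      rw [b]; simp
    have hex : inner ℝ (nq lam q (u + s • v) - nq lam q u - T (s • v)) y =
        ∫ z, lam * (Rq q (fn u z) (s * fn v z) * fn y z) ∂b04b_mu := by
      have hTT : inner ℝ (T (s • v)) y =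
          ∫ z, (q - 1) * lam * |fn u z| ^ (q - 2) * fn (s • v) z * fn y z ∂b04b_mu :=
        hB.hT (s • v) y
      have hI2 : Integrable (fun z => lam * (|fn (u + s • v) z| ^ (q - 2) *
          fn (u + s • v) z * fn y z) - lam * (|fn u z| ^ (q - 2) * fn u z * fn y z)) b04b_mu :=
        (hIw.const_mul lam).sub (hIu.const_mul lam)
      rw [inner_sub_left, inner_sub_left, nq_inner h2 h3, nq_inner h2 h3, hTT,
        ← integral_const_mul, ← integral_const_mul, ← integral_sub (hIw.const_mul lam)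
          (hIu.const_mul lam), ← integral_sub hI2 hIW]
      refine integral_congr_ae ?_
      filter_upwards [hsv, hsm] with z a b
      rw [a, b]
      unfold Rq
      ring
    -- the pointwise bound
    have hpt : ∀ᵐ z ∂b04b_mu, |Rq q (fn u z) (s * fn v z)| ≤
        K * s ^ (q - 1 + 9 / 25) * |w0 z| ^ (-(9 / 25) : ℝ) := by
      have hmir : ∀ᵐ z ∂b04b_mu, z ∉ Mir := by
        refine ae_restrict_of_ae ?_
        rw [ae_iff]
        simpa using b09a_mir_null
      have hDD : ∀ᵐ z ∂b04b_mu, z ∈ DD := ae_restrict_mem measurableSet_DD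
      filter_upwards [hmir, hDD, ae_restrict_of_ae hB.close, ae_restrict_of_ae hvb]
        with z z1 z2 z3 z4
      have hw : w0 z ≠ 0 := a08_ne ⟨z2, z1⟩
      have hw' : 0 < |w0 z| := abs_pos.2 hw
      have e1 := z3 z2
      have e2 := z4 z2
      have hlow : 1 / 2 * |w0 z| ≤ |fn u z| := by
        have t1 : |w0 z| - |fn u z| ≤ |fn u z - w0 z| := by
          rw [abs_sub_comm]
          exact abs_sub_abs_le_abs_sub _ _
        have t2 : δ * |w0 z| ≤ 1 / 2 * |w0 z| := mul_le_mul_of_nonneg_right hδ hw'.le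
        linarith
      have hu0 : fn u z ≠ 0 := by
        intro h0
        rw [h0, abs_zero] at hlow
        linarith
      refine (hR q (fn u z) (s * fn v z) h2 h3 hu0).trans ?_
      have a1 : |fn u z| ^ (-(9 / 25) : ℝ) ≤ (1 / 2 : ℝ) ^ (-(9 / 25) : ℝ) *
          |w0 z| ^ (-(9 / 25) : ℝ) := by
        rw [← Real.mul_rpow (by norm_num) hw'.le]
        exact Real.rpow_le_rpow_of_nonpos (by positivity) hlow (by norm_num)
      have a2 : |s * fn v z| ^ (q - 1 + 9 / 25) ≤ D ^ (q - 1 + 9 / 25) * s ^ (q - 1 + 9 / 25) := by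
        rw [← Real.mul_rpow hD0.le hs.le]
        refine Real.rpow_le_rpow (abs_nonneg _) ?_ (by linarith)
        rw [abs_mul, abs_of_pos hs, mul_comm]
        refine mul_le_mul_of_nonneg_right ?_ hs.le
        have := le_abs_self C₁
        linarith
      calc CR * (|fn u z| ^ (-(9 / 25) : ℝ) * |s * fn v z| ^ (q - 1 + 9 / 25))
          ≤ CR * (((1 / 2 : ℝ) ^ (-(9 / 25) : ℝ) * |w0 z| ^ (-(9 / 25) : ℝ)) *
            (D ^ (q - 1 + 9 / 25) * s ^ (q - 1 + 9 / 25))) := by
            refine mul_le_mul_of_nonneg_left ?_ hCR.le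
            exact mul_le_mul a1 a2 (Real.rpow_nonneg (abs_nonneg _) _) (by positivity)
        _ = K * s ^ (q - 1 + 9 / 25) * |w0 z| ^ (-(9 / 25) : ℝ) := by rw [hK]; ring
    -- Hoelder
    have hpow : ∀ z, (|w0 z| ^ (-(9 / 25) : ℝ)) ^ (4 / 3 : ℝ) = |w0 z| ^ (-(12 / 25) : ℝ) := by
      intro z
      rw [← Real.rpow_mul (abs_nonneg _)]
      norm_num
    have hGm : MemLp (fun z => |w0 z| ^ (-(9 / 25) : ℝ)) (ENNReal.ofReal (4 / 3)) b04b_mu := by
      have hm : AEStronglyMeasurable (fun z => |w0 z| ^ (-(9 / 25) : ℝ)) b04b_mu :=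
        (measurable_w0.abs.pow_const _).aestronglyMeasurable
      rw [← integrable_norm_rpow_iff hm (by simp) (by simp)]
      refine w0_int1.integrable.congr (Eventually.of_forall fun z => ?_)
      simp only
      rw [ENNReal.toReal_ofReal (by norm_num), Real.norm_of_nonneg
        (Real.rpow_nonneg (abs_nonneg _) _), hpow]
    have hym : MemLp (fun z => |fn y z|) (ENNReal.ofReal 4) b04b_mu := by
      have h := (h4 y).1.restrict DD
      have e : ENNReal.ofReal 4 = (4 : ENNReal) := by norm_num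
      rw [e]
      exact h.norm
    have hconj : (4 / 3 : ℝ).HolderConjugate 4 := by
      rw [Real.holderConjugate_iff]
      norm_num
    have hH := integral_mul_le_Lp_mul_Lq_of_nonneg (μ := b04b_mu) hconj
      (Eventually.of_forall fun z => Real.rpow_nonneg (abs_nonneg (w0 z)) (-(9 / 25) : ℝ))
      (Eventually.of_forall fun z => abs_nonneg (fn y z)) hGm hym
    have hint : Integrable (fun z => |w0 z| ^ (-(9 / 25) : ℝ) * |fn y z|) b04b_mu := by
      have : ENNReal.HolderTriple (ENNReal.ofReal (4 / 3)) (ENNReal.ofReal 4) 1 :=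
        hconj.ennrealOfReal
      exact hGm.integrable_mul hym
    have hy4 : (∫ z, |fn y z| ^ (4 : ℝ) ∂b04b_mu) ^ (1 / 4 : ℝ) ≤ C4 ^ (1 / 4 : ℝ) * ‖y‖ := by
      have t1 : ∫ z, |fn y z| ^ (4 : ℝ) ∂b04b_mu ≤ C4 * ‖y‖ ^ 4 := by
        have h1 : Integrable (fun z => fn y z ^ 4) volume := by
          have := (h4 y).1.integrable_norm_pow (p := 4) (by norm_num)
          refine this.congr (Eventually.of_forall fun z => ?_)
          simp only [Real.norm_eq_abs]
          rw [show (4 : ℕ) = 2 * 2 by norm_num, pow_mul, pow_mul, sq_abs]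
        have e : ∫ z, |fn y z| ^ (4 : ℝ) ∂b04b_mu = ∫ z, fn y z ^ 4 ∂b04b_mu := by
          congr 1; funext z
          rw [show (4 : ℝ) = ((4 : ℕ) : ℝ) by norm_num, Real.rpow_natCast,
            show (4 : ℕ) = 2 * 2 by norm_num, pow_mul, pow_mul, sq_abs]
        rw [e]
        exact (setIntegral_le_integral h1 (Eventually.of_forall fun z => by positivity)).trans
          (h4 y).2
      refine (Real.rpow_le_rpow (integral_nonneg fun z => Real.rpow_nonneg (abs_nonneg _) _) t1
        (by norm_num)).trans (le_of_eq ?_)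
      rw [Real.mul_rpow hC4.le (by positivity)]
      congr 1
      rw [← Real.rpow_natCast, ← Real.rpow_mul (norm_nonneg _)]
      norm_num
    have hH' : ∫ z, |w0 z| ^ (-(9 / 25) : ℝ) * |fn y z| ∂b04b_mu ≤
        I0 ^ (3 / 4 : ℝ) * (C4 ^ (1 / 4 : ℝ) * ‖y‖) := by
      refine hH.trans ?_
      have e : ∫ z, (|w0 z| ^ (-(9 / 25) : ℝ)) ^ (4 / 3 : ℝ) ∂b04b_mu = I0 := by
        rw [hI0]; congr 1; funext z; exact hpow z
      rw [e, show (1 / (4 / 3) : ℝ) = 3 / 4 by norm_num]
      exact mul_le_mul_of_nonneg_left hy4 (by positivity)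
    rw [hex]
    refine (le_abs_self _).trans ?_
    have hdom := b04b_dom (G := fun z => lam * (Rq q (fn u z) (s * fn v z) * fn y z))
      (B := fun z => |lam| * (K * s ^ (q - 1 + 9 / 25)) * (|w0 z| ^ (-(9 / 25) : ℝ) * |fn y z|))
      (hint.const_mul _) (by
        filter_upwards [hpt] with z hz
        rw [abs_mul, abs_mul]
        calc |lam| * (|Rq q (fn u z) (s * fn v z)| * |fn y z|)
            ≤ |lam| * ((K * s ^ (q - 1 + 9 / 25) * |w0 z| ^ (-(9 / 25) : ℝ)) * |fn y z|) := by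
              refine mul_le_mul_of_nonneg_left ?_ (abs_nonneg _)
              exact mul_le_mul_of_nonneg_right hz (abs_nonneg _)
          _ = _ := by ring)
    refine hdom.trans ?_
    rw [integral_const_mul]
    refine (mul_le_mul_of_nonneg_left hH' (by positivity)).trans ?_
    have t : 0 ≤ s ^ (q - 1 + 9 / 25) * ‖y‖ := by positivity
    calc |lam| * (K * s ^ (q - 1 + 9 / 25)) * (I0 ^ (3 / 4 : ℝ) * (C4 ^ (1 / 4 : ℝ) * ‖y‖))
        = (M - 1) * (s ^ (q - 1 + 9 / 25) * ‖y‖) := by rw [hM]; ring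
      _ ≤ M * (s ^ (q - 1 + 9 / 25) * ‖y‖) := mul_le_mul_of_nonneg_right (by linarith) t
      _ = M * s ^ (q - 1 + 9 / 25) * ‖y‖ := by ring
  have hsq := pow_le_pow_left₀ (norm_nonneg _) hnorm 2
  refine hsq.trans (le_of_eq ?_)
  rw [mul_pow]
  congr 1
  rw [← Real.rpow_natCast, ← Real.rpow_mul hs.le]
  congr 1
  push_cast
  ring

end Pool.Agent.H87.LE
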