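import Pool.Agent.H87.LE.A08_W0
import Pool.Agent.H87.LE.A10_Xi
import Pool.Agent.H87.LE.A11c_Lim
import Pool.Agent.H87.LE.A14_Int
import Pool.Agent.H87.LE.B09a_Energy
import Pool.Agent.H49.LE.Theta3

open MeasureTheory Complex Set Filter Topology
open scoped ContDiff Laplacian

namespace Pool.Agent.H87.LE

/-! # B09b: asymptotics of `Theta` -/

/-- asymptotics of `Theta`; `c₄ = π⁴/4` -/
theorem theta_lim {x : ℝ} (hx : 0 < x) {μ : ℝ} (hμ : 0 < μ) : ∃ δ₁ : ℝ, 0 < δ₁ ∧ δ₁ ≤ 1 / 4 ∧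
    ∀ {q lam : ℝ} {u : HH} {T : HH →L[ℝ] HH}, BaseD q lam δ₁ u T →
      Integrable (fun z : ℂ => Mq q (hh z) (x * xi z)) →
      ∀ (a' c C C₁ : ℝ) (b A : ℕ → ℝ) (v : ℕ → HH), 0 < a' → a' ≤ δ₁ → 0 < c →
      (∀ n, 0 < b n) → Tendsto b atTop (𝓝 0) →
      (∀ n, c / Real.log (1 / b n) ≤ A n ∧ A n ≤ C ∧ 0 < A n) →
      (∀ n, ∀ᵐ z, z ∈ DD → |fn (v n) z| ≤ C₁ * bet z ^ (3 / 4 : ℝ)) →
      (∀ n, ∀ᵐ z : ℂ, ‖z‖ ≤ a' →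
        |fn (v n) z - A n * xib (b n) z| ≤ δ₁ * (A n * xib (b n) z)) →
      ∀ᶠ n in atTop,
        |Theta q u (v n) (x * (Real.pi ^ 4 / 4) * b n ^ 4 / A n) -
          (Real.pi ^ 4 / 4 * b n ^ 4) ^ q * b n ^ 2 * Th q x| ≤
            (Real.pi ^ 4 / 4 * b n ^ 4) ^ q * b n ^ 2 * (μ * (q - 2)) := by
  obtain ⟨δ₁, h1, h2, h3⟩ := Pool.Agent.H49.LE.theta_core hx hμ
  refine ⟨δ₁, h1, h2, ?_⟩
  intro q lam u T hB hF a' c C C₁ b A v ha ha' hc hb hb0 hA hv hv'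
  exact h3 hB.hq hB.hq' (Lp.aestronglyMeasurable (fn u)) hB.close hF a' c C C₁ b A
    (fun n => fn (v n)) (fun n => Lp.aestronglyMeasurable (fn (v n))) ha ha' hc hb hb0 hA hv hv'

end Pool.Agent.H87.LE
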