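import Pool.Agent.H87.LE.Base

open MeasureTheory Complex Set Filter Topology
open scoped ContDiff Laplacian

namespace Pool.Agent.H87.LE

/-! # B09c: the Lyapunov-Schmidt error is negligible -/

theorem B09c_le {x c a b : ℝ} (hx : 0 < x) (hc : 0 < c) (hb : 0 < b) (hb1 : b < 1) (ha : 0 < a)
    (hA : c / Real.log (1 / b) ≤ a) :
    x * (Real.pi ^ 4 / 4) * b ^ 4 / a ≤ x * (Real.pi ^ 4 / 4) * (10 / c) * b ^ (39 / 10 : ℝ) := by
  have hL : 0 < Real.log (1 / b) := Real.log_pos (one_lt_one_div hb hb1)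
  have hL2 : Real.log (1 / b) ≤ 10 * b ^ (-(1 / 10) : ℝ) := by
    have h := Real.log_le_rpow_div (x := 1 / b) (by positivity) (show (0 : ℝ) < 1 / 10 by norm_num)
    rw [one_div b, Real.inv_rpow hb.le, ← Real.rpow_neg hb.le] at h
    rw [one_div b]
    linarith
  have h1 : c ≤ a * Real.log (1 / b) := by
    rwa [div_le_iff₀ hL] at hA
  have h2 : 1 / a ≤ 10 / c * b ^ (-(1 / 10) : ℝ) := by
    rw [div_mul_eq_mul_div, div_le_div_iff₀ ha hc]
    have : a * Real.log (1 / b) ≤ a * (10 * b ^ (-(1 / 10) : ℝ)) :=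
      mul_le_mul_of_nonneg_left hL2 ha.le
    linarith
  have h3 : b ^ (39 / 10 : ℝ) = b ^ 4 * b ^ (-(1 / 10) : ℝ) := by
    rw [← Real.rpow_natCast, ← Real.rpow_add hb]
    norm_num
  have h4 : 0 ≤ x * (Real.pi ^ 4 / 4) * b ^ 4 := by positivity
  calc x * (Real.pi ^ 4 / 4) * b ^ 4 / a = x * (Real.pi ^ 4 / 4) * b ^ 4 * (1 / a) := by ring
    _ ≤ x * (Real.pi ^ 4 / 4) * b ^ 4 * (10 / c * b ^ (-(1 / 10) : ℝ)) :=
        mul_le_mul_of_nonneg_left h2 h4
    _ = _ := by rw [h3]; ring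

/-- the Lyapunov-Schmidt error is negligible -/
theorem small_error {q : ℝ} (h2 : 2 < q) (h3 : q ≤ 21 / 10) {x c C K ε : ℝ} (hx : 0 < x)
    (hc : 0 < c) (hε : 0 < ε) {b A : ℕ → ℝ} (hb : ∀ n, 0 < b n) (hb0 : Tendsto b atTop (𝓝 0))
    (hA : ∀ n, c / Real.log (1 / b n) ≤ A n ∧ A n ≤ C ∧ 0 < A n) :
    Tendsto (fun n => x * (Real.pi ^ 4 / 4) * b n ^ 4 / A n) atTop (𝓝 0) ∧
    ∀ᶠ n in atTop, K * (x * (Real.pi ^ 4 / 4) * b n ^ 4 / A n) ^ (2 * (q - 1) + 18 / 25) ≤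
      ε * ((Real.pi ^ 4 / 4 * b n ^ 4) ^ q * b n ^ 2) := by
  have hb1 : ∀ᶠ n in atTop, b n < 1 := hb0.eventually_lt_const one_pos
  set D := x * (Real.pi ^ 4 / 4) * (10 / c) with hD
  have hD0 : 0 < D := by positivity
  have hle : ∀ᶠ n in atTop, x * (Real.pi ^ 4 / 4) * b n ^ 4 / A n ≤ D * b n ^ (39 / 10 : ℝ) := by
    filter_upwards [hb1] with n hn
    exact B09c_le hx hc (hb n) hn (hA n).2.2 (hA n).1
  have hpow : ∀ s : ℝ, 0 < s → Tendsto (fun n => b n ^ s) atTop (𝓝 0) := by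
    intro s hs
    have := hb0.rpow_const (p := s) (Or.inr hs.le)
    rwa [Real.zero_rpow hs.ne'] at this
  constructor
  · refine tendsto_of_tendsto_of_tendsto_of_le_of_le' tendsto_const_nhds
      ((hpow (39 / 10) (by norm_num)).const_mul D |>.trans (by simp)) ?_ hle
    exact Eventually.of_forall fun n => by
      have := (hA n).2.2
      have := hb n
      positivity
  · have h7 : ∀ᶠ n in atTop, |K| * D ^ (2 * (q - 1) + 18 / 25) *
        b n ^ (39 / 10 * (2 * (q - 1) + 18 / 25) - 4 * q - 2) ≤ ε * (Real.pi ^ 4 / 4) ^ q := by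
      have h8 := (hpow (39 / 10 * (2 * (q - 1) + 18 / 25) - 4 * q - 2) (by linarith)).const_mul
        (|K| * D ^ (2 * (q - 1) + 18 / 25))
      rw [mul_zero] at h8
      exact h8.eventually_le_const (by positivity)
    filter_upwards [hle, h7] with n h8 h9
    have hbn := hb n
    have hAn := (hA n).2.2
    have hp : 0 < 2 * (q - 1) + 18 / 25 := by linarith
    have ht : 0 ≤ x * (Real.pi ^ 4 / 4) * b n ^ 4 / A n := by positivity
    have e1 : (x * (Real.pi ^ 4 / 4) * b n ^ 4 / A n) ^ (2 * (q - 1) + 18 / 25)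
        ≤ D ^ (2 * (q - 1) + 18 / 25) * b n ^ (39 / 10 * (2 * (q - 1) + 18 / 25)) := by
      rw [Real.rpow_mul hbn.le, ← Real.mul_rpow hD0.le (by positivity)]
      exact Real.rpow_le_rpow ht h8 hp.le
    have e2 : b n ^ (39 / 10 * (2 * (q - 1) + 18 / 25))
        = b n ^ (39 / 10 * (2 * (q - 1) + 18 / 25) - 4 * q - 2) * (b n ^ (4 * q) * b n ^ 2) := by
      rw [← Real.rpow_natCast (b n) 2, ← Real.rpow_add hbn, ← Real.rpow_add hbn]
      congr 1
      push_cast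
      ring
    have e3 : (Real.pi ^ 4 / 4 * b n ^ 4) ^ q = (Real.pi ^ 4 / 4) ^ q * b n ^ (4 * q) := by
      rw [Real.mul_rpow (by positivity) (by positivity), ← Real.rpow_natCast (b n) 4,
        ← Real.rpow_mul hbn.le]
      norm_num
    rw [e3]
    calc K * (x * (Real.pi ^ 4 / 4) * b n ^ 4 / A n) ^ (2 * (q - 1) + 18 / 25)
        ≤ |K| * (x * (Real.pi ^ 4 / 4) * b n ^ 4 / A n) ^ (2 * (q - 1) + 18 / 25) :=
          mul_le_mul_of_nonneg_right (le_abs_self K) (Real.rpow_nonneg ht _)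
      _ ≤ |K| * (D ^ (2 * (q - 1) + 18 / 25) * b n ^ (39 / 10 * (2 * (q - 1) + 18 / 25))) :=
          mul_le_mul_of_nonneg_left e1 (abs_nonneg K)
      _ = |K| * D ^ (2 * (q - 1) + 18 / 25) *
          b n ^ (39 / 10 * (2 * (q - 1) + 18 / 25) - 4 * q - 2) * (b n ^ (4 * q) * b n ^ 2) := by
          rw [e2]; ring
      _ ≤ ε * (Real.pi ^ 4 / 4) ^ q * (b n ^ (4 * q) * b n ^ 2) :=
          mul_le_mul_of_nonneg_right h9 (by positivity)
      _ = _ := by ring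

end Pool.Agent.H87.LE
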