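import Pool.Agent.H87.LE.B03_Cap
import Pool.Agent.H87.LE.B05_Expl

open MeasureTheory Complex Set Filter Topology
open scoped ContDiff Laplacian

namespace Pool.Agent.H87.LE

/-! # B10: the walls `wall Z t` and the compressed operators -/

/-- admissible sets of radii -/
def adm (r₀ : ℝ) (Z : Set ℝ) : Prop := IsClosed Z ∧ (0 : ℝ) ∈ Z ∧ Z ⊆ Icc 0 r₀

theorem b10_axs_closed : IsClosed Axs := by
  refine isClosed_eq ?_ continuous_const
  fun_prop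

theorem wall_closed {Z : Set ℝ} (hZ : IsClosed Z) (t : ℝ) : IsClosed (wall Z t) := by
  have h1 : IsClosed (Axs ∩ {z : ℂ | t ≤ ‖z‖}) :=
    b10_axs_closed.inter (isClosed_le continuous_const continuous_norm)
  have h2 : IsClosed (Mir ∩ (fun z : ℂ => ‖z‖) ⁻¹' Z) :=
    b02_mir_closed.inter (hZ.preimage continuous_norm)
  exact h1.union h2

theorem b10_axs_mir {z : ℂ} (h : z ∈ Axs) : z ∈ Mir := by
  have h' : z.re * z.im = 0 := h
  show z.re * z.im * (z.re ^ 2 - z.im ^ 2) = 0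
  rw [h', zero_mul]

theorem wall_sub (Z : Set ℝ) (t : ℝ) : wall Z t ⊆ Mir := by
  rintro z (h | h)
  · exact b10_axs_mir h.1
  · exact h.1

theorem b10_axs_I (z : ℂ) : I * z ∈ Axs ↔ z ∈ Axs := by
  show (I * z).re * (I * z).im = 0 ↔ z.re * z.im = 0
  rw [mul_re, mul_im, I_re, I_im]
  rw [show (0 * z.re - 1 * z.im) * (0 * z.im + 1 * z.re) = -(z.re * z.im) by ring, neg_eq_zero]

theorem b10_mir_I (z : ℂ) : I * z ∈ Mir ↔ z ∈ Mir := by
  show (I * z).re * (I * z).im * ((I * z).re ^ 2 - (I * z).im ^ 2) = 0 ↔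
    z.re * z.im * (z.re ^ 2 - z.im ^ 2) = 0
  rw [mul_re, mul_im, I_re, I_im]
  rw [show (0 * z.re - 1 * z.im) * (0 * z.im + 1 * z.re) *
    ((0 * z.re - 1 * z.im) ^ 2 - (0 * z.im + 1 * z.re) ^ 2) =
    z.re * z.im * (z.re ^ 2 - z.im ^ 2) by ring]

theorem b10_axs_conj (z : ℂ) : starRingEnd ℂ z ∈ Axs ↔ z ∈ Axs := by
  show (starRingEnd ℂ z).re * (starRingEnd ℂ z).im = 0 ↔ z.re * z.im = 0
  rw [conj_re, conj_im, mul_neg, neg_eq_zero]

theorem b10_mir_conj (z : ℂ) : starRingEnd ℂ z ∈ Mir ↔ z ∈ Mir := by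
  show (starRingEnd ℂ z).re * (starRingEnd ℂ z).im *
    ((starRingEnd ℂ z).re ^ 2 - (starRingEnd ℂ z).im ^ 2) = 0 ↔
    z.re * z.im * (z.re ^ 2 - z.im ^ 2) = 0
  rw [conj_re, conj_im]
  rw [show z.re * -z.im * (z.re ^ 2 - (-z.im) ^ 2) = -(z.re * z.im * (z.re ^ 2 - z.im ^ 2)) by
    ring, neg_eq_zero]

theorem wall_I (Z : Set ℝ) (t : ℝ) (z : ℂ) : I * z ∈ wall Z t ↔ z ∈ wall Z t := by
  show (I * z ∈ Axs ∧ t ≤ ‖I * z‖) ∨ (I * z ∈ Mir ∧ ‖I * z‖ ∈ Z) ↔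
    (z ∈ Axs ∧ t ≤ ‖z‖) ∨ (z ∈ Mir ∧ ‖z‖ ∈ Z)
  rw [b10_axs_I, b10_mir_I, norm_mul, norm_I, one_mul]

theorem wall_conj (Z : Set ℝ) (t : ℝ) (z : ℂ) : starRingEnd ℂ z ∈ wall Z t ↔ z ∈ wall Z t := by
  show (starRingEnd ℂ z ∈ Axs ∧ t ≤ ‖starRingEnd ℂ z‖) ∨
    (starRingEnd ℂ z ∈ Mir ∧ ‖starRingEnd ℂ z‖ ∈ Z) ↔
    (z ∈ Axs ∧ t ≤ ‖z‖) ∨ (z ∈ Mir ∧ ‖z‖ ∈ Z)
  rw [b10_axs_conj, b10_mir_conj, RCLike.norm_conj]

theorem wall_mono {Z Z' : Set ℝ} {t t' : ℝ} (h : Z' ⊆ Z) (ht : t ≤ t') : wall Z' t' ⊆ wall Z t := by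
  rintro z (h1 | h1)
  · exact Or.inl ⟨h1.1, ht.trans h1.2⟩
  · exact Or.inr ⟨h1.1, h h1.2⟩

/-- the centre and the four tips -/
def b10_F (t : ℝ) : Set ℂ := {0, (t : ℂ), -(t : ℂ), I * (t : ℂ), -(I * (t : ℂ))}

theorem b10_F_fin (t : ℝ) : (b10_F t).Finite := by
  unfold b10_F
  exact Set.toFinite _

theorem b10_F_I (t : ℝ) (z : ℂ) : I * z ∈ b10_F t ↔ z ∈ b10_F t := by
  have key : ∀ w : ℂ, w ∈ b10_F t → I * w ∈ b10_F t := by
    intro w hw
    simp only [b10_F, mem_insert_iff, mem_singleton_iff] at hw ⊢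
    rcases hw with h | h | h | h | h
    · left; rw [h, mul_zero]
    · right; right; right; left; rw [h]
    · right; right; right; right; rw [h, mul_neg]
    · right; right; left; rw [h, ← mul_assoc, I_mul_I, neg_one_mul]
    · right; left; rw [h, mul_neg, ← mul_assoc, I_mul_I, neg_one_mul, neg_neg]
  constructor
  · intro h
    have h2 := key _ (key _ (key _ h))
    have e : I * (I * (I * (I * z))) = z := by
      have : I * (I * (I * (I * z))) = (I * I) * (I * I) * z := by ring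
      rw [this, I_mul_I]; ring
    rwa [e] at h2
  · exact key z

/-- points on the axes are close to a tip when their radius is close to `t` -/
theorem b10_tip {z : ℂ} (hz : z ∈ Axs) (t : ℝ) : ∃ w ∈ b10_F t, dist z w = |‖z‖ - t| := by
  have hz' : z.re * z.im = 0 := hz
  rcases mul_eq_zero.1 hz' with h | h
  · have e : z = I * (z.im : ℂ) := by
      apply Complex.ext <;> simp [h]
    have en : ‖z‖ = |z.im| := by
      rw [e, norm_mul, norm_I, one_mul, Complex.norm_real, Real.norm_eq_abs]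
      simp
    rcases le_total 0 z.im with h0 | h0
    · refine ⟨I * (t : ℂ), by simp [b10_F], ?_⟩
      rw [dist_eq_norm, en, abs_of_nonneg h0]
      have : z - I * (t : ℂ) = I * ((z.im - t : ℝ) : ℂ) := by
        conv_lhs => rw [e]
        push_cast; ring
      rw [this, norm_mul, norm_I, one_mul, Complex.norm_real, Real.norm_eq_abs]
    · refine ⟨-(I * (t : ℂ)), by simp [b10_F], ?_⟩
      rw [dist_eq_norm, en, abs_of_nonpos h0]
      have : z - -(I * (t : ℂ)) = I * ((z.im + t : ℝ) : ℂ) := by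
        conv_lhs => rw [e]
        push_cast; ring
      rw [this, norm_mul, norm_I, one_mul, Complex.norm_real, Real.norm_eq_abs, ← abs_neg]
      congr 1; ring
  · have e : z = (z.re : ℂ) := by
      apply Complex.ext <;> simp [h]
    have en : ‖z‖ = |z.re| := by
      rw [e, Complex.norm_real, Real.norm_eq_abs]
      simp
    rcases le_total 0 z.re with h0 | h0
    · refine ⟨(t : ℂ), by simp [b10_F], ?_⟩
      rw [dist_eq_norm, en, abs_of_nonneg h0]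
      have : z - (t : ℂ) = ((z.re - t : ℝ) : ℂ) := by
        conv_lhs => rw [e]
        push_cast; ring
      rw [this, Complex.norm_real, Real.norm_eq_abs]
    · refine ⟨-(t : ℂ), by simp [b10_F], ?_⟩
      rw [dist_eq_norm, en, abs_of_nonpos h0]
      have : z - -(t : ℂ) = ((z.re + t : ℝ) : ℂ) := by
        conv_lhs => rw [e]
        push_cast; ring
      rw [this, Complex.norm_real, Real.norm_eq_abs, ← abs_neg]
      congr 1; ring

/-- comparison of two walls -/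
theorem b10_cmp {Z Z' : Set ℝ} {t t' s ρ η : ℝ} (hρ : ρ ≤ η) (hs : s = t ∨ s = t')
    (hZ : Z' \ Ico 0 ρ = Z \ Ico 0 ρ) (ht : |t' - t| < ρ) :
    wall Z' t' ⊆ wall Z t ∪ Metric.thickening η (b10_F s) := by
  intro z hz
  by_cases hth : z ∈ Metric.thickening η (b10_F s)
  · exact Or.inr hth
  left
  rw [Metric.mem_thickening_iff] at hth
  push Not at hth
  rcases hz with h | h
  · by_cases h1 : t ≤ ‖z‖
    · exact Or.inl ⟨h.1, h1⟩
    · exfalso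
      push Not at h1
      obtain ⟨w, hw, hd⟩ := b10_tip h.1 s
      have h2 := hth w hw
      rw [hd] at h2
      have h3 := h.2
      have h4 : |‖z‖ - s| ≤ |t' - t| := by
        rw [abs_sub_comm t' t, abs_of_nonneg (by linarith : 0 ≤ t - t')]
        rcases hs with rfl | rfl
        · rw [abs_of_nonpos (by linarith)]; linarith
        · rw [abs_of_nonneg (by linarith)]; linarith
      linarith
  · right
    refine ⟨h.1, ?_⟩
    have h1 := hth 0 (by simp [b10_F])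
    rw [dist_zero_right] at h1
    have h2 : ‖z‖ ∈ Z' \ Ico 0 ρ := ⟨h.2, fun h3 => by have := h3.2; linarith⟩
    rw [hZ] at h2
    exact h2.1

/-- strong convergence (uniform form) of the projections when the walls change near `0` and near
the four tips `±t, ±it` -/
theorem wall_P_close {r₀ tp : ℝ} (h0 : 0 < r₀) (h1 : r₀ < tp) {Z : Set ℝ} (hZ : adm r₀ Z) {t : ℝ}
    (ht : t ∈ Icc r₀ tp) (x : HH) {κ : ℝ} (hκ : 0 < κ) :
    ∃ ρ > 0, ∀ Z' t', adm r₀ Z' → t' ∈ Icc r₀ tp → Z' \ Ico 0 ρ = Z \ Ico 0 ρ → |t' - t| < ρ →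
      ‖P (DD \ wall Z' t') x - P (DD \ wall Z t) x‖ ≤ κ := by
  obtain ⟨η, hη, h⟩ := P_close (wall_closed hZ.1 t) (b10_F_fin t) (wall_I Z t) (b10_F_I t) x hκ
  refine ⟨η, hη, fun Z' t' _ _ hZZ htt => h _ ?_ ?_⟩
  · intro z hz
    have h2 := b10_cmp (s := t) le_rfl (Or.inr rfl) hZZ.symm (by rwa [abs_sub_comm]) hz.1
    rcases h2 with h2 | h2
    · exact h2
    · exact absurd h2 hz.2
  · refine (b10_cmp (s := t) le_rfl (Or.inl rfl) hZZ htt).trans ?_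
    exact union_subset_union_right _ (Metric.thickening_subset_cthickening _ _)

/-- the compressed operator -/
noncomputable def AE (T : HH →L[ℝ] HH) (Z : Set ℝ) (t : ℝ) : HH →L[ℝ] HH :=
  Pe (wall Z t) ∘L T ∘L Pe (wall Z t)

theorem b10_isPr (Z : Set ℝ) (t : ℝ) : IsPr (Pe (wall Z t)) :=
  ⟨(Pe_isPr (wall_conj Z t)).1, (Pe_isPr (wall_conj Z t)).2.1⟩

/-- norm continuity of the compressed operators -/
theorem AE_close {W : ℂ → ℝ} {T : HH →L[ℝ] HH} (hT : IsT W T) {C : ℝ}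
    (hW : AEStronglyMeasurable W (volume.restrict DD)) (hC : ∀ᵐ z, z ∈ DD → |W z| ≤ C)
    {r₀ tp : ℝ} (h0 : 0 < r₀) (h1 : r₀ < tp) {Z : Set ℝ} (hZ : adm r₀ Z) {t : ℝ}
    (ht : t ∈ Icc r₀ tp) {κ : ℝ} (hκ : 0 < κ) :
    ∃ ρ > 0, ∀ Z' t', adm r₀ Z' → t' ∈ Icc r₀ tp → Z' \ Ico 0 ρ = Z \ Ico 0 ρ → |t' - t| < ρ →
      ‖AE T Z' t' - AE T Z t‖ ≤ κ := by
  obtain ⟨N, h, δ, hδ, hP⟩ := PTP_close hT hW hC hκ
  have hev : ∀ i : Fin N, ∀ᶠ ρ in 𝓝[>] (0 : ℝ), ∀ Z' t', adm r₀ Z' → t' ∈ Icc r₀ tp →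
      Z' \ Ico 0 ρ = Z \ Ico 0 ρ → |t' - t| < ρ →
      ‖P (DD \ wall Z' t') (ev (h i)) - P (DD \ wall Z t) (ev (h i))‖ ≤ δ := by
    intro i
    obtain ⟨ρ₀, hρ₀, hc⟩ := wall_P_close h0 h1 hZ ht (ev (h i)) hδ
    filter_upwards [Ioo_mem_nhdsGT hρ₀] with ρ hρ Z' t' a1 a2 a3 a4
    refine hc Z' t' a1 a2 ?_ (a4.trans hρ.2)
    have e : ∀ Y : Set ℝ, Y \ Ico 0 ρ₀ = (Y \ Ico 0 ρ) \ Ico 0 ρ₀ := by
      intro Y
      ext y
      constructor
      · rintro ⟨b1, b2⟩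
        exact ⟨⟨b1, fun b3 => b2 ⟨b3.1, b3.2.trans hρ.2⟩⟩, b2⟩
      · rintro ⟨⟨b1, _⟩, b2⟩
        exact ⟨b1, b2⟩
    rw [e Z', e Z, a3]
  obtain ⟨ρ, hρ1, hρ2⟩ := ((eventually_all.2 hev).and
    (self_mem_nhdsWithin : Ioi (0 : ℝ) ∈ 𝓝[>] (0 : ℝ))).exists
  refine ⟨ρ, hρ2, fun Z' t' a1 a2 a3 a4 => ?_⟩
  exact hP _ _ (b10_isPr Z' t') (b10_isPr Z t) fun i => hρ1 i Z' t' a1 a2 a3 a4

/-- monotonicity -/
theorem mm_mono {T : HH →L[ℝ] HH} (hT : ∀ x y, inner ℝ (T x) y = inner ℝ x (T y)) {Z Z' : Set ℝ}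
    {t t' : ℝ} (h : Z' ⊆ Z) (ht : t ≤ t') (h1 : AE T Z t ∈ Near A0) (h2 : AE T Z' t' ∈ Near A0)
    (hm : mm (AE T Z t) ≤ 0) : mm (AE T Z' t') ≤ 0 := by
  obtain ⟨C, -, -, -, -, -, hmono, -⟩ := Classical.choose_spec (exists_m model)
  exact hmono T hT (Pe (wall Z t)) (Pe (wall Z' t')) (b10_isPr Z t) (b10_isPr Z' t')
    (Pe_le (wall_conj Z' t') (wall_conj Z t) (wall_mono h ht)) h1 h2 hm

end Pool.Agent.H87.LE
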