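import Pool.Agent.H87.LE.B10_Tuning

open MeasureTheory Complex Set Filter Topology
open scoped ContDiff Laplacian

namespace Pool.Agent.H87.LE

/-! # B10b: choice of the radii -/

theorem b10b_Axs_closed : IsClosed Axs := by
  have h : Axs = (fun z : ℂ => z.re * z.im) ⁻¹' {0} := rfl
  rw [h]
  exact IsClosed.preimage (Complex.continuous_re.mul Complex.continuous_im) isClosed_singleton

theorem b10b_Axs_I (z : ℂ) : I * z ∈ Axs ↔ z ∈ Axs := by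
  simp only [Axs, mem_ofPred_eq, Complex.mul_re, Complex.mul_im, Complex.I_re, Complex.I_im]
  constructor <;> intro h <;> linarith [mul_comm z.re z.im]

theorem b10b_Axs_conj (z : ℂ) : starRingEnd ℂ z ∈ Axs ↔ z ∈ Axs := by
  simp only [Axs, mem_ofPred_eq, Complex.conj_re, Complex.conj_im]
  constructor <;> intro h <;> linarith

theorem b10b_Axs_Mir : Axs ⊆ Mir := by
  intro z hz
  simp only [Axs, mem_ofPred_eq] at hz
  simp only [Mir, mem_ofPred_eq, hz, zero_mul]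

theorem b10b_norm_I (z : ℂ) : ‖I * z‖ = ‖z‖ := by simp

theorem b10b_cut_closed (r : ℝ) : IsClosed (Axs \ Metric.ball 0 r) := by
  rw [sdiff_eq]
  exact b10b_Axs_closed.inter Metric.isOpen_ball.isClosed_compl

theorem b10b_cut_I (r : ℝ) (z : ℂ) : I * z ∈ Axs \ Metric.ball 0 r ↔ z ∈ Axs \ Metric.ball 0 r := by
  simp only [Set.mem_sdiff, b10b_Axs_I, mem_ball_zero_iff, b10b_norm_I]

theorem b10b_cut_conj (r : ℝ) (z : ℂ) :
    starRingEnd ℂ z ∈ Axs \ Metric.ball 0 r ↔ z ∈ Axs \ Metric.ball 0 r := by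
  simp only [Set.mem_sdiff, b10b_Axs_conj, mem_ball_zero_iff, RCLike.norm_conj]

theorem b10b_T0_symm (x y : HH) : inner ℝ (T0 x) y = inner ℝ x (T0 y) := by
  rw [real_inner_comm (T0 y) x, T0_spec x y, T0_spec y x]
  congr 1
  ext z
  ring

theorem b10b_isPr {E : Set ℂ} (hE : ∀ z, starRingEnd ℂ z ∈ E ↔ z ∈ E) : IsPr (Pe E) :=
  ⟨(Pe_isPr hE).1, (Pe_isPr hE).2.1⟩

theorem b10b_norm_le {Q : HH →L[ℝ] HH} (hQ : IsPr Q) (x : HH) : ‖Q x‖ ≤ ‖x‖ := by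
  have h1 : Q (Q x) = Q x := by
    have := congrArg (fun f : HH →L[ℝ] HH => f x) hQ.1
    simpa using this
  have h2 : ‖Q x‖ ^ 2 = inner ℝ x (Q x) := by
    rw [← real_inner_self_eq_norm_sq, hQ.2, h1]
  have h3 : inner ℝ x (Q x) ≤ ‖x‖ * ‖Q x‖ := real_inner_le_norm _ _
  by_contra h
  push Not at h
  have h4 : 0 < ‖Q x‖ := lt_of_le_of_lt (norm_nonneg _) h
  nlinarith

/-- closeness of the compressed operators -/
theorem b10b_close {E : Set ℂ} (hE : IsClosed E) (hEI : ∀ z, I * z ∈ E ↔ z ∈ E)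
    (hEc : ∀ z, starRingEnd ℂ z ∈ E ↔ z ∈ E) {κ : ℝ} (hκ : 0 < κ) :
    ∃ η > 0, ∀ E' : Set ℂ, E \ Metric.ball 0 η ⊆ E' → E' ⊆ E ∪ Metric.closedBall 0 η →
      (∀ z, starRingEnd ℂ z ∈ E' ↔ z ∈ E') →
      ‖Pe E' ∘L T0 ∘L Pe E' - Pe E ∘L T0 ∘L Pe E‖ ≤ κ := by
  obtain ⟨N, h, δ, hδ, H⟩ := PTP_close (W := fun _ => 5 * Real.pi ^ 2) T0_spec
    aestronglyMeasurable_const (C := |5 * Real.pi ^ 2|)
    (Filter.Eventually.of_forall fun z _ => le_refl _) hκ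
  have hF : ({0} : Set ℂ).Finite := finite_singleton 0
  have hFI : ∀ z : ℂ, I * z ∈ ({0} : Set ℂ) ↔ z ∈ ({0} : Set ℂ) := by
    intro z
    simp [Complex.I_ne_zero]
  have key : ∀ i : Fin N, ∀ᶠ η in 𝓝[>] (0 : ℝ), ∀ E' : Set ℂ, E \ Metric.ball 0 η ⊆ E' →
      E' ⊆ E ∪ Metric.closedBall 0 η →
      ‖P (DD \ E') (ev (h i)) - P (DD \ E) (ev (h i))‖ ≤ δ := by
    intro i
    obtain ⟨η, hη, hP⟩ := P_close hE hF hEI hFI (ev (h i)) hδ
    have h1 : Ioo (0 : ℝ) η ∈ 𝓝[>] (0 : ℝ) := Ioo_mem_nhdsGT hη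
    filter_upwards [h1] with η' hη' E' hE1 hE2
    apply hP E'
    · intro z hz
      apply hE1
      refine ⟨hz.1, fun hz' => hz.2 ?_⟩
      rw [Metric.thickening_singleton]
      exact Metric.ball_subset_ball hη'.2.le hz'
    · intro z hz
      rcases hE2 hz with h | h
      · exact Or.inl h
      · right
        rw [Metric.cthickening_singleton _ hη.le]
        exact Metric.closedBall_subset_closedBall hη'.2.le h
  have key2 := (Filter.eventually_all.2 key).and (self_mem_nhdsWithin)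
  obtain ⟨η, h1, h2⟩ := key2.exists
  refine ⟨η, h2, fun E' hE1 hE2 hE3 => ?_⟩
  apply H _ _ (b10b_isPr hE3) (b10b_isPr hEc)
  intro i
  exact h1 i E' hE1 hE2

theorem b10b_symm {T Q : HH →L[ℝ] HH} (hT : ∀ x y, inner ℝ (T x) y = inner ℝ x (T y))
    (hQ : IsPr Q) (x y : HH) :
    inner ℝ ((Q ∘L T ∘L Q) x) y = inner ℝ x ((Q ∘L T ∘L Q) y) := by
  simp only [ContinuousLinearMap.comp_apply]
  rw [hQ.2, hT, hQ.2]

theorem b10b_diff {T T' Q : HH →L[ℝ] HH} (hQ : IsPr Q) :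
    ‖Q ∘L T ∘L Q - Q ∘L T' ∘L Q‖ ≤ ‖T - T'‖ := by
  refine ContinuousLinearMap.opNorm_le_bound _ (norm_nonneg (T - T')) fun x => ?_
  have h1 : (Q ∘L T ∘L Q - Q ∘L T' ∘L Q) x = Q ((T - T') (Q x)) := by
    simp [map_sub]
  rw [h1]
  calc ‖Q ((T - T') (Q x))‖ ≤ ‖(T - T') (Q x)‖ := b10b_norm_le hQ _
    _ ≤ ‖T - T'‖ * ‖Q x‖ := ContinuousLinearMap.le_opNorm _ _
    _ ≤ ‖T - T'‖ * ‖x‖ := by gcongr; exact b10b_norm_le hQ _

/-- the choice of the two radii and of the closeness of the weight -/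
theorem tuning {ε ts : ℝ} (hε : 0 < ε) (hts : 0 < ts) :
    ∃ tp r₀ κ : ℝ, 0 < r₀ ∧ r₀ < tp ∧ tp ≤ ts ∧ tp < 1 / 2 ∧ 0 < κ ∧
      ∀ (T : HH →L[ℝ] HH), (∀ x y, inner ℝ (T x) y = inner ℝ x (T y)) → ‖T - T0‖ ≤ κ →
        (∀ Z t, adm r₀ Z → t ∈ Icc r₀ tp → ‖AE T Z t - A0‖ ≤ ε ∧ AE T Z t ∈ Near A0) ∧
        mm (AE T (Icc 0 r₀) tp) < 0 ∧ 0 < mm (AE T (Icc 0 r₀) r₀) := by
  obtain ⟨C, hC, hLip, -, -, -, -, hs1, hs2⟩ := Classical.choose_spec (exists_m model)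
  change ∀ A ∈ Near A0, ∀ B ∈ Near A0, |mm A - mm B| ≤ C * ‖A - B‖ at hLip
  set ε₁ : ℝ := min ε (1 / 16) / 2 with hε₁
  have hm0 : 0 < min ε (1 / 16) := lt_min hε (by norm_num)
  have hε₁0 : 0 < ε₁ := by positivity
  have hε₁a : 2 * ε₁ ≤ ε := by
    have := min_le_left ε (1 / 16)
    linarith
  have hε₁b : 2 * ε₁ ≤ 1 / 16 := by
    have := min_le_right ε (1 / 16)
    linarith
  have hPr0 : IsPr (Pe Axs) := b10b_isPr b10b_Axs_conj
  obtain ⟨η₀, hη₀, H0⟩ := b10b_close b10b_Axs_closed b10b_Axs_I b10b_Axs_conj hε₁0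
  -- the outer radius
  set tp : ℝ := min (min ts (1 / 4)) η₀ with htp
  have htp0 : 0 < tp := lt_min (lt_min hts (by norm_num)) hη₀
  have htp1 : tp ≤ ts := (min_le_left _ _).trans (min_le_left _ _)
  have htp2 : tp < 1 / 2 := by
    have : tp ≤ 1 / 4 := (min_le_left _ _).trans (min_le_right _ _)
    linarith
  have htp3 : tp ≤ η₀ := min_le_right _ _
  -- the cut axes
  have hPr1 : IsPr (Pe (Axs \ Metric.ball 0 tp)) := b10b_isPr (b10b_cut_conj tp)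
  have hcut : ‖Pe (Axs \ Metric.ball 0 tp) ∘L T0 ∘L Pe (Axs \ Metric.ball 0 tp) - A0‖ ≤ ε₁ := by
    apply H0
    · intro z hz
      exact ⟨hz.1, fun h => hz.2 (Metric.ball_subset_ball htp3 h)⟩
    · intro z hz
      exact Or.inl hz.1
    · exact b10b_cut_conj tp
  have hcutN : Pe (Axs \ Metric.ball 0 tp) ∘L T0 ∘L Pe (Axs \ Metric.ball 0 tp) ∈ Near A0 :=
    ⟨b10b_symm b10b_T0_symm hPr1, hcut.trans (by linarith)⟩
  obtain ⟨c1, -, -, -, -, he1V, he1e, -⟩ := e1_spec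
  obtain ⟨c2, -, -, -, -, he2V, he2e, -⟩ := e2_spec
  have hPe1 : Pe Axs e1 = e1 := ((Pe_isPr b10b_Axs_conj).2.2 e1).2 ⟨he1V, he1e⟩
  have hPe2 : Pe Axs e2 = e2 := ((Pe_isPr b10b_Axs_conj).2.2 e2).2 ⟨he2V, he2e⟩
  have hm1 : mm (Pe (Axs \ Metric.ball 0 tp) ∘L T0 ∘L Pe (Axs \ Metric.ball 0 tp)) < 0 := by
    apply hs1 T0 b10b_T0_symm (Pe Axs) (Pe (Axs \ Metric.ball 0 tp)) hPr0 hPr1 rfl
      (Pe_le (b10b_cut_conj tp) b10b_Axs_conj sdiff_subset) hPe1 hPe2 hcutN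
    exact kink htp0
  set m1 : ℝ := mm (Pe (Axs \ Metric.ball 0 tp) ∘L T0 ∘L Pe (Axs \ Metric.ball 0 tp)) with hm1def
  -- the inner radius
  obtain ⟨η₁, hη₁, H1⟩ := b10b_close (b10b_cut_closed tp) (b10b_cut_I tp) (b10b_cut_conj tp)
    (κ := -m1 / (2 * C)) (by apply div_pos <;> linarith)
  set r₀ : ℝ := min (tp / 2) η₁ with hr₀
  have hr0 : 0 < r₀ := lt_min (by linarith) hη₁
  have hr1 : r₀ < tp := by
    have : r₀ ≤ tp / 2 := min_le_left _ _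
    linarith
  have hr2 : r₀ ≤ η₁ := min_le_right _ _
  have hadm : adm r₀ (Icc 0 r₀) := ⟨isClosed_Icc, ⟨le_refl _, hr0.le⟩, subset_refl _⟩
  have hAE0 : ∀ Z t, adm r₀ Z → t ∈ Icc r₀ tp → ‖AE T0 Z t - A0‖ ≤ ε₁ := by
    intro Z t hZ ht
    apply H0
    · intro z hz
      left
      refine ⟨hz.1, ?_⟩
      have h := hz.2
      rw [mem_ball_zero_iff, not_lt] at h
      exact (ht.2.trans htp3).trans h
    · intro z hz
      rcases hz with hz | hz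
      · exact Or.inl hz.1
      · right
        rw [mem_closedBall_zero_iff]
        exact ((hZ.2.2 hz.2).2.trans hr1.le).trans htp3
    · exact wall_conj Z t
  have hAE0N : ∀ Z t, adm r₀ Z → t ∈ Icc r₀ tp → AE T0 Z t ∈ Near A0 := by
    intro Z t hZ ht
    exact ⟨b10b_symm b10b_T0_symm (b10b_isPr (wall_conj Z t)), (hAE0 Z t hZ ht).trans (by linarith)⟩
  have htp4 : tp ∈ Icc r₀ tp := ⟨hr1.le, le_refl _⟩
  have hr4 : r₀ ∈ Icc r₀ tp := ⟨le_refl _, hr1.le⟩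
  -- negative at the outer radius
  have hneg : mm (AE T0 (Icc 0 r₀) tp) ≤ m1 / 2 := by
    have h1 : ‖AE T0 (Icc 0 r₀) tp -
        Pe (Axs \ Metric.ball 0 tp) ∘L T0 ∘L Pe (Axs \ Metric.ball 0 tp)‖ ≤ -m1 / (2 * C) := by
      apply H1
      · intro z hz
        left
        refine ⟨hz.1.1, ?_⟩
        have h := hz.1.2
        rwa [mem_ball_zero_iff, not_lt] at h
      · intro z hz
        rcases hz with hz | hz
        · left
          refine ⟨hz.1, ?_⟩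
          rw [mem_ball_zero_iff, not_lt]
          exact hz.2
        · right
          rw [mem_closedBall_zero_iff]
          exact hz.2.2.trans hr2
      · exact wall_conj _ _
    have h2 := hLip _ (hAE0N _ _ hadm htp4) _ hcutN
    have h3 : C * ‖AE T0 (Icc 0 r₀) tp -
        Pe (Axs \ Metric.ball 0 tp) ∘L T0 ∘L Pe (Axs \ Metric.ball 0 tp)‖ ≤ -m1 / 2 := by
      calc _ ≤ C * (-m1 / (2 * C)) := by gcongr
        _ = -m1 / 2 := by field_simp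
    have h4 := (abs_le.1 (h2.trans h3)).2
    rw [← hm1def] at h4
    linarith
  -- positive at the inner radius
  have hwall : wall (Icc 0 r₀) r₀ = Axs ∪ star r₀ := by
    ext z
    simp only [wall, star, mem_ofPred_eq, mem_union, mem_Icc, norm_nonneg, true_and]
    constructor
    · rintro (h | h)
      · exact Or.inl h.1
      · exact Or.inr h
    · rintro (h | h)
      · by_cases h' : r₀ ≤ ‖z‖
        · exact Or.inl ⟨h, h'⟩
        · exact Or.inr ⟨b10b_Axs_Mir h, (not_le.1 h').le⟩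
      · exact Or.inr h
  have hpos : 0 < mm (AE T0 (Icc 0 r₀) r₀) := by
    apply hs2 T0 b10b_T0_symm (Pe Axs) (Pe (wall (Icc 0 r₀) r₀)) hPr0
      (b10b_isPr (wall_conj _ _)) rfl
      (Pe_le b10b_Axs_conj (wall_conj _ _) (by rw [hwall]; exact subset_union_left))
      (hAE0N _ _ hadm hr4)
    rw [hwall]
    exact not_limit hr0
  set m2 : ℝ := mm (AE T0 (Icc 0 r₀) r₀) with hm2def
  -- the closeness
  refine ⟨tp, r₀, min ε₁ (min (-m1 / (4 * C)) (m2 / (2 * C))), hr0, hr1, htp1, htp2, ?_, ?_⟩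
  · refine lt_min hε₁0 (lt_min ?_ ?_)
    · apply div_pos <;> linarith
    · apply div_pos <;> linarith
  intro T hT hTT
  have hT1 : ‖T - T0‖ ≤ ε₁ := hTT.trans (min_le_left _ _)
  have hT2 : C * ‖T - T0‖ ≤ -m1 / 4 := by
    have h1 : ‖T - T0‖ ≤ -m1 / (4 * C) := hTT.trans ((min_le_right _ _).trans (min_le_left _ _))
    calc C * ‖T - T0‖ ≤ C * (-m1 / (4 * C)) := by gcongr
      _ = -m1 / 4 := by field_simp
  have hT3 : C * ‖T - T0‖ ≤ m2 / 2 := by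
    have h1 : ‖T - T0‖ ≤ m2 / (2 * C) := hTT.trans ((min_le_right _ _).trans (min_le_right _ _))
    calc C * ‖T - T0‖ ≤ C * (m2 / (2 * C)) := by gcongr
      _ = m2 / 2 := by field_simp
  have hd : ∀ Z t, ‖AE T Z t - AE T0 Z t‖ ≤ ‖T - T0‖ := fun Z t => by
    exact b10b_diff (b10b_isPr (wall_conj Z t))
  have hAE : ∀ Z t, adm r₀ Z → t ∈ Icc r₀ tp → ‖AE T Z t - A0‖ ≤ 2 * ε₁ := by
    intro Z t hZ ht
    calc ‖AE T Z t - A0‖ = ‖(AE T Z t - AE T0 Z t) + (AE T0 Z t - A0)‖ := by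
          congr 1; abel
      _ ≤ ‖AE T Z t - AE T0 Z t‖ + ‖AE T0 Z t - A0‖ :=
          norm_add_le (AE T Z t - AE T0 Z t) (AE T0 Z t - A0)
      _ ≤ ε₁ + ε₁ := add_le_add ((hd Z t).trans hT1) (hAE0 Z t hZ ht)
      _ = 2 * ε₁ := by ring
  have hN : ∀ Z t, adm r₀ Z → t ∈ Icc r₀ tp → AE T Z t ∈ Near A0 := fun Z t hZ ht =>
    ⟨b10b_symm hT (b10b_isPr (wall_conj Z t)), (hAE Z t hZ ht).trans hε₁b⟩
  refine ⟨fun Z t hZ ht => ⟨(hAE Z t hZ ht).trans hε₁a, hN Z t hZ ht⟩, ?_, ?_⟩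
  · have h1 := hLip _ (hN _ _ hadm htp4) _ (hAE0N _ _ hadm htp4)
    have h2 : |mm (AE T (Icc 0 r₀) tp) - mm (AE T0 (Icc 0 r₀) tp)| ≤ C * ‖T - T0‖ :=
      h1.trans (by gcongr; exact hd _ _)
    have h3 := (abs_le.1 h2).2
    linarith
  · have h1 := hLip _ (hN _ _ hadm hr4) _ (hAE0N _ _ hadm hr4)
    have h2 : |mm (AE T (Icc 0 r₀) r₀) - m2| ≤ C * ‖T - T0‖ :=
      h1.trans (by gcongr; exact hd _ _)
    have h3 := (abs_le.1 h2).1
    linarith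

end Pool.Agent.H87.LE
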