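import Mathlib

open Set Filter Topology

namespace Pool.Agent.H87.LE

/-! # B11: the abstract infinite scheme
`Z k` decreasing closed sets, each containing `[0, r k]`, `t k = sSup {t ∈ [r₀, tp] | 0 < μ (Z k) t}`;
stage: remove `(b, a)`; `a` small keeps `t` within a prescribed distance and keeps the earlier
certificates; then `b` small (compactness in `t`) gives the new certificate. -/

theorem scheme (μ : Set ℝ → ℝ → ℝ) (Cert : ℕ → Set ℝ → ℝ → Prop) (r₀ tp : ℝ) (h0 : 0 < r₀)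
    (h1 : r₀ < tp) (adm : Set ℝ → Prop)
    (hadm : ∀ Z, adm Z ↔ IsClosed Z ∧ (0 : ℝ) ∈ Z ∧ Z ⊆ Icc 0 r₀)
    (mono : ∀ Z Z' t t', adm Z → adm Z' → Z' ⊆ Z → r₀ ≤ t → t ≤ t' → t' ≤ tp → μ Z t ≤ 0 →
      μ Z' t' ≤ 0)
    (cont : ∀ Z t, adm Z → t ∈ Icc r₀ tp → ∀ ε > 0, ∃ ρ > 0, ∀ Z' t', adm Z' → t' ∈ Icc r₀ tp →
      Z' \ Ico 0 ρ = Z \ Ico 0 ρ → |t' - t| < ρ → |μ Z' t' - μ Z t| < ε)
    (neg : μ (Icc 0 r₀) tp < 0) (pos : 0 < μ (Icc 0 r₀) r₀)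
    (opn : ∀ k Z t, adm Z → t ∈ Icc r₀ tp → Cert k Z t → ∃ ρ > 0, ∀ Z' t', adm Z' →
      t' ∈ Icc r₀ tp → Z' \ Ico 0 ρ = Z \ Ico 0 ρ → |t' - t| < ρ → Cert k Z' t')
    (stage : ∀ Z r a, adm Z → Icc 0 r ⊆ Z → 0 < a → a < r → ∀ (b t : ℕ → ℝ) (t0 : ℝ),
      (∀ n, 0 < b n ∧ b n < a) → Tendsto b atTop (𝓝 0) → (∀ n, t n ∈ Icc r₀ tp) →
      Tendsto t atTop (𝓝 t0) → (∀ n, μ (Z \ Ioo (b n) a) (t n) = 0) →
      ∀ k, ∃ n, Cert k (Z \ Ioo (b n) a) (t n)) :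
    ∃ Z t, adm Z ∧ t ∈ Icc r₀ tp ∧ ∀ k, Cert k Z t := by
  -- the last positive time
  set S : Set ℝ → Set ℝ := fun Z => {t | t ∈ Icc r₀ tp ∧ 0 < μ Z t} with hS
  set T : Set ℝ → ℝ := fun Z => sSup (S Z) with hT
  have hbdd : ∀ Z, BddAbove (S Z) := fun Z => ⟨tp, fun t ht => ht.1.2⟩
  have hTmem : ∀ Z, (S Z).Nonempty → T Z ∈ Icc r₀ tp := by
    rintro Z ⟨s, hs⟩
    exact ⟨hs.1.1.trans (le_csSup (hbdd Z) hs), csSup_le ⟨s, hs⟩ fun t ht => ht.1.2⟩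
  have hadm0 : adm (Icc 0 r₀) := (hadm _).2 ⟨isClosed_Icc, ⟨le_rfl, h0.le⟩, Subset.rfl⟩
  have htp : ∀ Z, adm Z → μ Z tp ≤ 0 := fun Z hZ =>
    mono _ Z tp tp hadm0 hZ ((hadm Z).1 hZ).2.2 h1.le le_rfl le_rfl neg.le
  have hTzero : ∀ Z, adm Z → (S Z).Nonempty → μ Z (T Z) = 0 := by
    intro Z hZ hne
    have hm := hTmem Z hne
    rcases lt_trichotomy (μ Z (T Z)) 0 with h | h | h
    · exfalso
      obtain ⟨ρ, hρ, hc⟩ := cont Z (T Z) hZ hm (-μ Z (T Z)) (by linarith)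
      obtain ⟨s, hs, hlt⟩ := exists_lt_of_lt_csSup hne (show T Z - ρ < sSup (S Z) by
        simp only [hT]; linarith)
      have hle : s ≤ T Z := le_csSup (hbdd Z) hs
      have h2 := hc Z s hZ hs.1 rfl (by rw [abs_lt]; constructor <;> linarith)
      rw [abs_lt] at h2
      have h3 := hs.2
      linarith [h2.2]
    · exact h
    · exfalso
      obtain ⟨ρ, hρ, hc⟩ := cont Z (T Z) hZ hm (μ Z (T Z)) h
      have hlt : T Z < tp := by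
        rcases hm.2.lt_or_eq with h2 | h2
        · exact h2
        · rw [h2] at h; exact absurd (htp Z hZ) (not_le.2 h)
      set s := min (T Z + ρ / 2) tp with hs
      have hs1 : T Z < s := lt_min (by linarith) hlt
      have hs2 : s ∈ Icc r₀ tp := ⟨hm.1.trans hs1.le, min_le_right _ _⟩
      have hs3 : s ≤ T Z + ρ / 2 := min_le_left _ _
      have h2 := hc Z s hZ hs2 rfl (by rw [abs_lt]; constructor <;> linarith)
      rw [abs_lt] at h2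
      have h3 : s ∈ S Z := ⟨hs2, by linarith [h2.1]⟩
      exact absurd (le_csSup (hbdd Z) h3) (not_le.2 hs1)
  have hTmono : ∀ Z Z', adm Z → adm Z' → Z' ⊆ Z → (S Z').Nonempty → T Z' ≤ T Z := by
    intro Z Z' hZ hZ' hsub hne
    refine csSup_le_csSup (hbdd Z) hne fun t ht => ⟨ht.1, ?_⟩
    by_contra hcon
    exact absurd (mono Z Z' t t hZ hZ' hsub ht.1.1 le_rfl ht.1.2 (not_lt.1 hcon)) (not_le.2 ht.2)
  -- states
  let P : Set ℝ × ℝ × ℝ × ℝ → Prop := fun X =>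
    adm X.1 ∧ 0 < X.2.1 ∧ Icc 0 X.2.1 ⊆ X.1 ∧ (∃ s ∈ S X.1, X.2.2.1 < s) ∧ 0 < X.2.2.2
  have hstep : ∀ (k : ℕ) (X : {X // P X}), ∃ Y : {X // P X}, Y.1.1 ⊆ X.1.1 ∧
      Y.1.1 \ Ico 0 X.1.2.2.2 = X.1.1 \ Ico 0 X.1.2.2.2 ∧ X.1.2.2.1 ≤ Y.1.2.2.1 ∧
      Y.1.2.2.2 ≤ X.1.2.2.2 ∧
      ∀ Z' t', adm Z' → t' ∈ Icc r₀ tp → Z' \ Ico 0 Y.1.2.2.2 = Y.1.1 \ Ico 0 Y.1.2.2.2 →
        Y.1.2.2.1 ≤ t' → t' ≤ T Y.1.1 → Cert k Z' t' := by
    rintro k ⟨⟨Z, r, L, R⟩, hZ, hr, hrZ, ⟨s, hsS, hLs⟩, hR⟩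
    simp only at hZ hr hrZ hsS hLs hR ⊢
    obtain ⟨ρ₁, hρ₁, hc⟩ := cont Z s hZ hsS.1 (μ Z s) hsS.2
    set a := min (r / 2) (min R ρ₁) with ha
    have ha0 : 0 < a := lt_min (by linarith) (lt_min hR hρ₁)
    have har : a < r := lt_of_le_of_lt (min_le_left _ _) (by linarith)
    have haR : a ≤ R := (min_le_right _ _).trans (min_le_left _ _)
    have haρ : a ≤ ρ₁ := (min_le_right _ _).trans (min_le_right _ _)
    have hZc := (hadm Z).1 hZ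
    have hZb : ∀ b, 0 < b → adm (Z \ Ioo b a) := fun b hb => (hadm _).2
      ⟨hZc.1.sdiff isOpen_Ioo, ⟨hZc.2.1, fun h => absurd h.1 (not_lt.2 hb.le)⟩,
        sdiff_subset.trans hZc.2.2⟩
    have hdiff : ∀ b ρ, 0 < b → a ≤ ρ → (Z \ Ioo b a) \ Ico 0 ρ = Z \ Ico 0 ρ := by
      intro b ρ hb haρ
      ext x
      constructor
      · rintro ⟨⟨h2, _⟩, h3⟩; exact ⟨h2, h3⟩
      · rintro ⟨h2, h3⟩
        exact ⟨⟨h2, fun h4 => h3 ⟨(hb.trans h4.1).le, h4.2.trans_le haρ⟩⟩, h3⟩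
    have hSb : ∀ b, 0 < b → s ∈ S (Z \ Ioo b a) := by
      intro b hb
      have h2 := hc (Z \ Ioo b a) s (hZb b hb) hsS.1 (hdiff b ρ₁ hb haρ) (by simpa using hρ₁)
      rw [abs_lt] at h2
      exact ⟨hsS.1, by linarith [h2.1]⟩
    set b : ℕ → ℝ := fun n => a / (n + 2) with hb
    have hb0 : ∀ n, 0 < b n ∧ b n < a := by
      intro n
      have hn : (0 : ℝ) ≤ n := Nat.cast_nonneg n
      refine ⟨by simp only [hb]; positivity, ?_⟩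
      simp only [hb]
      rw [div_lt_iff₀ (by linarith)]
      nlinarith
    have hblim : Tendsto b atTop (𝓝 0) := by
      refine Tendsto.div_atTop tendsto_const_nhds ?_
      exact tendsto_atTop_add_const_right _ _ tendsto_natCast_atTop_atTop
    obtain ⟨t0, -, φ, hφ, hφt⟩ := isCompact_Icc.tendsto_subseq
      (fun n => hTmem (Z \ Ioo (b n) a) ⟨s, hSb _ (hb0 n).1⟩)
    obtain ⟨n, hn⟩ := stage Z r a hZ hrZ ha0 har (b ∘ φ) (fun n => T (Z \ Ioo (b (φ n)) a)) t0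
      (fun n => hb0 _) (hblim.comp hφ.tendsto_atTop)
      (fun n => hTmem _ ⟨s, hSb _ (hb0 _).1⟩) hφt
      (fun n => hTzero _ (hZb _ (hb0 _).1) ⟨s, hSb _ (hb0 _).1⟩) k
    simp only [Function.comp_apply] at hn
    set β := b (φ n) with hβ
    have hβ0 := hb0 (φ n)
    have hne : (S (Z \ Ioo β a)).Nonempty := ⟨s, hSb β hβ0.1⟩
    obtain ⟨ρ, hρ, ho⟩ := opn k _ _ (hZb β hβ0.1) (hTmem _ hne) hn
    have hLT : max L (T (Z \ Ioo β a) - ρ / 2) < T (Z \ Ioo β a) := by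
      refine max_lt (hLs.trans_le (le_csSup (hbdd _) (hSb β hβ0.1))) (by linarith)
    obtain ⟨s', hs', hLs'⟩ := exists_lt_of_lt_csSup hne hLT
    refine ⟨⟨⟨Z \ Ioo β a, β, max L (T (Z \ Ioo β a) - ρ / 2), min R ρ⟩, hZb β hβ0.1, hβ0.1, ?_,
      ⟨s', hs', hLs'⟩, lt_min hR hρ⟩, sdiff_subset, hdiff β R hβ0.1 haR, le_max_left _ _,
      min_le_left _ _, ?_⟩
    · intro x hx
      exact ⟨hrZ ⟨hx.1, hx.2.trans (hβ0.2.le.trans har.le)⟩, fun h => absurd h.1 (not_lt.2 hx.2)⟩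
    · intro Z' t' hZ' ht' hEq hLt' ht'T
      simp only at hEq hLt' ht'T
      refine ho Z' t' hZ' ht' ?_ ?_
      · ext x
        have h2 := Set.ext_iff.1 hEq x
        constructor
        · rintro ⟨h3, h4⟩
          refine ⟨(h2.1 ⟨h3, fun h5 => h4 ⟨h5.1, h5.2.trans_le (min_le_right _ _)⟩⟩).1, h4⟩
        · rintro ⟨h3, h4⟩
          refine ⟨(h2.2 ⟨h3, fun h5 => h4 ⟨h5.1, h5.2.trans_le (min_le_right _ _)⟩⟩).1, h4⟩
      · rw [abs_lt]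
        have h2 : T (Z \ Ioo β a) - ρ / 2 ≤ t' := (le_max_right _ _).trans hLt'
        constructor <;> linarith
  choose next hsub hdiff hL hR hcert using hstep
  have hX0 : P ⟨Icc 0 r₀, r₀, r₀ - 1, 1⟩ :=
    ⟨hadm0, h0, Subset.rfl, ⟨r₀, ⟨⟨le_rfl, h1.le⟩, pos⟩, by simp⟩, one_pos⟩
  let X : ℕ → {X // P X} := fun n => Nat.rec ⟨_, hX0⟩ (fun k Y => next k Y) n
  have hXs : ∀ n, X (n + 1) = next n (X n) := fun n => rfl
  have hZanti : Antitone fun n => (X n).1.1 := antitone_nat_of_succ_le fun n => by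
    rw [hXs]; exact hsub n (X n)
  have hLmono : Monotone fun n => (X n).1.2.2.1 := monotone_nat_of_le_succ fun n => by
    rw [hXs]; exact hL n (X n)
  have hRanti : Antitone fun n => (X n).1.2.2.2 := antitone_nat_of_succ_le fun n => by
    rw [hXs]; exact hR n (X n)
  have hne : ∀ n, (S (X n).1.1).Nonempty := fun n => by
    obtain ⟨s, hs, _⟩ := (X n).2.2.2.2.1
    exact ⟨s, hs⟩
  have hLT : ∀ n, (X n).1.2.2.1 < T (X n).1.1 := fun n => by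
    obtain ⟨s, hs, hlt⟩ := (X n).2.2.2.2.1
    exact hlt.trans_le (le_csSup (hbdd _) hs)
  have hTanti : ∀ m n, m ≤ n → T (X n).1.1 ≤ T (X m).1.1 := fun m n hmn =>
    hTmono _ _ (X m).2.1 (X n).2.1 (hZanti hmn) (hne n)
  have hLTall : ∀ m n, (X m).1.2.2.1 ≤ T (X n).1.1 := fun m n =>
    (hLmono (le_max_left m n)).trans ((hLT (max m n)).le.trans (hTanti n _ (le_max_right m n)))
  have hbelow : BddBelow (Set.range fun n => T (X n).1.1) :=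
    ⟨r₀, by rintro _ ⟨n, rfl⟩; exact (hTmem _ (hne n)).1⟩
  set t : ℝ := ⨅ n, T (X n).1.1 with ht
  have ht1 : ∀ n, t ≤ T (X n).1.1 := fun n => ciInf_le hbelow n
  have ht2 : ∀ n, (X n).1.2.2.1 ≤ t := fun n => le_ciInf fun m => hLTall n m
  have ht3 : t ∈ Icc r₀ tp := ⟨le_ciInf fun n => (hTmem _ (hne n)).1,
    (ht1 0).trans (hTmem _ (hne 0)).2⟩
  set Z : Set ℝ := ⋂ n, (X n).1.1 with hZ
  have hZadm : adm Z := (hadm Z).2 ⟨isClosed_iInter fun n => ((hadm _).1 (X n).2.1).1,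
    mem_iInter.2 fun n => ((hadm _).1 (X n).2.1).2.1,
    (iInter_subset _ 0).trans ((hadm _).1 (X 0).2.1).2.2⟩
  have hkeep : ∀ n m, n ≤ m → ∀ x ∈ (X n).1.1, x ∉ Ico 0 (X n).1.2.2.2 → x ∈ (X m).1.1 := by
    intro n m hnm x hx hxR
    induction m, hnm using Nat.le_induction with
    | base => exact hx
    | succ m hm ih =>
      have h2 : x ∈ (X m).1.1 \ Ico 0 (X m).1.2.2.2 :=
        ⟨ih, fun h3 => hxR ⟨h3.1, h3.2.trans_le (hRanti hm)⟩⟩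
      rw [← hdiff m (X m), ← hXs] at h2
      exact h2.1
  refine ⟨Z, t, hZadm, ht3, fun k => ?_⟩
  refine hcert k (X k) Z t hZadm ht3 ?_ ?_ ?_
  · rw [← hXs]
    ext x
    constructor
    · rintro ⟨h2, h3⟩; exact ⟨mem_iInter.1 h2 (k + 1), h3⟩
    · rintro ⟨h2, h3⟩
      refine ⟨mem_iInter.2 fun m => ?_, h3⟩
      rcases le_total (k + 1) m with h4 | h4
      · exact hkeep (k + 1) m h4 x h2 h3
      · exact hZanti h4 h2
  · rw [← hXs]; exact ht2 (k + 1)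
  · rw [← hXs]; exact ht1 (k + 1)

end Pool.Agent.H87.LE
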