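import Pool.Agent.H87.LE.A06_LS
import Pool.Agent.H87.LE.B06_Base
import Pool.Agent.H87.LE.B10_Tuning

open MeasureTheory Complex Set Filter Topology
open scoped ContDiff Laplacian

namespace Pool.Agent.H87.LE

/-! # B12a: resonances and admissibility of the projections -/

/-- the resonant function exists when `mm = 0` -/
theorem resonance {T : HH →L[ℝ] HH} {Z : Set ℝ} {t : ℝ} (hN : AE T Z t ∈ Near A0)
    (hm : mm (AE T Z t) = 0) : ∃ v : HH, v ∈ V (DD \ wall Z t) ∧ ev v = v ∧ inner ℝ v e2 = 1 ∧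
      AE T Z t v = v ∧ (T ∘L ev = ev ∘L T → P (DD \ wall Z t) (T v) = v) := by
  obtain ⟨C, -, -, h2, -⟩ := Classical.choose_spec (exists_m model)
  obtain ⟨v, hv1, hv2⟩ := (h2 _ hN).1 hm
  have hPe := Pe_isPr (wall_conj Z t)
  have h4 : Pe (wall Z t) (T (Pe (wall Z t) v)) = v := hv1
  have hPv : Pe (wall Z t) v = v := by
    have h5 : Pe (wall Z t) (Pe (wall Z t) (T (Pe (wall Z t) v))) =
        Pe (wall Z t) (T (Pe (wall Z t) v)) :=
      congrArg (fun A : HH →L[ℝ] HH => A (T (Pe (wall Z t) v))) hPe.1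
    rw [h4] at h5
    exact h5
  obtain ⟨hvV, hve⟩ := (hPe.2.2 v).1 hPv
  refine ⟨v, hvV, hve, hv2, hv1, ?_⟩
  intro hT
  rw [hPv] at h4
  have h6 : ev (T v) = T (ev v) :=
    (congrArg (fun A : HH →L[ℝ] HH => A v) hT).symm
  have h7 : P (DD \ wall Z t) (ev (T v)) = v := h4
  rw [h6, hve] at h7
  exact h7

/-- the base operator commutes with the even projection -/
theorem base_comm {q lam δ : ℝ} {u : HH} {T : HH →L[ℝ] HH} (hB : BaseD q lam δ u T) :
    T ∘L ev = ev ∘L T := by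
  apply ev_T hB.hT
  filter_upwards [(ev_zero_iff u).1 hB.odd] with z hz _
  rw [hz, abs_neg]

/-- the projections onto `V (DD \ wall Z t)` are admissible for `lyapunov_schmidt` -/
theorem wall_PP {q lam δ : ℝ} {u : HH} {T : HH →L[ℝ] HH} (hB : BaseD q lam δ u T) {Z : Set ℝ}
    {t : ℝ} (hN : AE T Z t ∈ Near A0) :
    P (DD \ wall Z t) ∈ PP T u e2 (min (1 / 4) ((q - 2) / 2)) := by
  refine ⟨P_idem _, P_symm _, (P_self_iff _ _).2 (odd_mem' hB.odd (wall_sub Z t)), ?_⟩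
  intro x hx
  have hTe : ∀ y, T (ev y) = ev (T y) := fun y =>
    congrArg (fun A : HH →L[ℝ] HH => A y) (base_comm hB)
  have hee : ∀ y, ev (ev y) = ev y := fun y =>
    congrArg (fun A : HH →L[ℝ] HH => A y) ev_idem
  have hPe : ∀ y, P (DD \ wall Z t) (ev y) = ev (P (DD \ wall Z t) y) := fun y =>
    congrArg (fun A : HH →L[ℝ] HH => A y) (ev_P (wall_conj Z t))
  obtain ⟨-, -, hn2, -, -, -, he2, -⟩ := e2_spec
  have hodd : ∀ y, ev y = 0 → P (DD \ wall Z t) y = y := fun y hy =>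
    (P_self_iff _ _).2 (odd_mem' hy (wall_sub Z t))
  -- even and odd parts
  obtain ⟨e, he⟩ : ∃ e, e = ev x := ⟨_, rfl⟩
  obtain ⟨o, ho⟩ : ∃ o, o = x - ev x := ⟨_, rfl⟩
  have hxeo : x = e + o := by rw [he, ho]; abel
  have hev_e : ev e = e := by rw [he, hee]
  have hev_o : ev o = 0 := by rw [ho, map_sub, hee, sub_self]
  have hev_To : ev (T o) = 0 := by rw [← hTe, hev_o, map_zero]
  obtain ⟨y, hy⟩ : ∃ y, y = x - P (DD \ wall Z t) (T (P (DD \ wall Z t) x)) := ⟨_, rfl⟩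
  have hy2 : y = (e - P (DD \ wall Z t) (T (P (DD \ wall Z t) e))) + (o - T o) := by
    rw [hy, hxeo, map_add, map_add, map_add, hodd o hev_o, hodd _ hev_To]
    abel
  have hAE : P (DD \ wall Z t) (T (P (DD \ wall Z t) e)) = AE T Z t e := by
    change P (DD \ wall Z t) (T (P (DD \ wall Z t) e)) =
      P (DD \ wall Z t) (ev (T (P (DD \ wall Z t) (ev e))))
    rw [hev_e, ← hTe, ← hPe, hev_e]
  rw [hAE] at hy2
  have hAe : ev (AE T Z t e) = AE T Z t e := by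
    rw [← hAE, ← hPe, ← hTe, ← hPe, hev_e]
  -- orthogonality of even and odd
  have horth : ∀ a b : HH, ev a = a → ev b = 0 → inner ℝ a b = 0 := by
    intro a b ha hb
    rw [← ha, ev_symm, hb, inner_zero_right]
  have hodd' : ev (o - T o) = 0 := by rw [map_sub, hev_o, hev_To, sub_self]
  have hin : inner ℝ y e2 = inner ℝ (e - AE T Z t e) e2 := by
    rw [hy2, inner_add_left, real_inner_comm, real_inner_comm e2 (o - T o),
      horth e2 (o - T o) he2 hodd', add_zero, real_inner_comm]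
  have hxe : inner ℝ e e2 = 0 := by
    rw [he, ev_symm, he2, hx]
  have hb := near_bound model hN e hxe
  have ho' := hB.nondeg o hev_o
  obtain ⟨c, hc⟩ : ∃ c : ℝ, c = inner ℝ (e - AE T Z t e) e2 := ⟨_, rfl⟩
  rw [← hc] at hb hin
  rw [← hy, hin]
  have hdec : y - c • e2 = ((e - AE T Z t e) - c • e2) + (o - T o) := by
    rw [hy2]; abel
  have hevd : ev ((e - AE T Z t e) - c • e2) = (e - AE T Z t e) - c • e2 := by
    rw [map_sub, map_sub, map_smul, hev_e, hAe, he2]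
  have hpy : ‖y - c • e2‖ ^ 2 = ‖(e - AE T Z t e) - c • e2‖ ^ 2 + ‖o - T o‖ ^ 2 := by
    rw [hdec, norm_add_sq_real, horth _ _ hevd hodd']
    ring
  have hpx : ‖x‖ ^ 2 = ‖e‖ ^ 2 + ‖o‖ ^ 2 := by
    rw [hxeo, norm_add_sq_real, horth _ _ hev_e hev_o]
    ring
  have hq := hB.hq
  have hm0 : 0 ≤ min (1 / 4 : ℝ) ((q - 2) / 2) := le_min (by norm_num) (by linarith)
  have h1 : min (1 / 4 : ℝ) ((q - 2) / 2) * ‖e‖ ≤ ‖(e - AE T Z t e) - c • e2‖ :=
    (mul_le_mul_of_nonneg_right (min_le_left _ _) (norm_nonneg _)).trans hb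
  have h2 : min (1 / 4 : ℝ) ((q - 2) / 2) * ‖o‖ ≤ ‖o - T o‖ :=
    (mul_le_mul_of_nonneg_right (min_le_right _ _) (norm_nonneg _)).trans ho'
  have h1' := pow_le_pow_left₀ (mul_nonneg hm0 (norm_nonneg e)) h1 2
  have h2' := pow_le_pow_left₀ (mul_nonneg hm0 (norm_nonneg o)) h2 2
  have h3 : (min (1 / 4 : ℝ) ((q - 2) / 2) * ‖x‖) ^ 2 ≤ ‖y - c • e2‖ ^ 2 := by
    rw [hpy, mul_pow, hpx]
    nlinarith
  exact (sq_le_sq₀ (mul_nonneg hm0 (norm_nonneg _)) (norm_nonneg _)).1 h3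

end Pool.Agent.H87.LE
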