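import Pool.Agent.H87.LE.A06_LS
import Pool.Agent.H87.LE.B04b_Nonlin
import Pool.Agent.H87.LE.B06_Base
import Pool.Agent.H87.LE.B10_Tuning
import Pool.Agent.H87.LE.B12a_Res

open MeasureTheory Complex Set Filter Topology
open scoped ContDiff Laplacian

namespace Pool.Agent.H87.LE

/-! # B12b: the reduction data and openness of the certificate -/

/-- conclusions of `lyapunov_schmidt` -/
structure LSD (q lam : ℝ) (u : HH) (T : HH →L[ℝ] HH) (c s₀ δ C' : ℝ)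
    (F : (HH →L[ℝ] HH) → ℝ → ℝ) (Wf : (HH →L[ℝ] HH) → ℝ → HH)
    (ρ : (HH →L[ℝ] HH) → ℝ → ℝ) : Prop where
  hs : 0 < s₀
  hδ : 0 < δ
  hC : 0 < C'
  sol : ∀ P ∈ PP T u e2 c, ∀ s, |s| ≤ s₀ →
    inner ℝ (Wf P s - u) e2 = s ∧ ‖Wf P s - u‖ ≤ δ ∧ gJ (nq lam q) P (Wf P s) = ρ P s • e2 ∧
      F P s = JJ (Nq lam q) P (Wf P s)
  zero : ∀ P ∈ PP T u e2 c, F P 0 = JJ (Nq lam q) P u
  der : ∀ P ∈ PP T u e2 c, ContinuousOn (F P) (Icc (-s₀) s₀) ∧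
    ∀ s ∈ Ioo (-s₀) s₀, HasDerivAt (F P) (ρ P s) s
  cmp : ∀ P ∈ PP T u e2 c, ∀ s, |s| ≤ s₀ → ∀ v, inner ℝ (v - u) e2 = s → ‖v - u‖ ≤ δ →
    |F P s - JJ (Nq lam q) P v| ≤ C' * ‖gJ (nq lam q) P v‖ ^ 2
  lim : ∀ P ∈ PP T u e2 c, ∀ Pk : ℕ → (HH →L[ℝ] HH), (∀ k, Pk k ∈ PP T u e2 c) →
    (∀ x, Tendsto (fun k => Pk k x) atTop (𝓝 (P x))) → ∀ s, |s| ≤ s₀ →
      Tendsto (fun k => F (Pk k) s) atTop (𝓝 (F P s))

theorem exists_LSD {q lam δ : ℝ} {u : HH} {T : HH →L[ℝ] HH} (hB : BaseD q lam δ u T) {c : ℝ}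
    (hc : 0 < c) : ∃ (s₀ δ' C' : ℝ) (F : (HH →L[ℝ] HH) → ℝ → ℝ) (Wf : (HH →L[ℝ] HH) → ℝ → HH)
      (ρ : (HH →L[ℝ] HH) → ℝ → ℝ), LSD q lam u T c s₀ δ' C' F Wf ρ := by
  have hTs : ∀ x y, inner ℝ (T x) y = inner ℝ x (T y) := by
    intro x y
    rw [hB.hT x y, real_inner_comm, hB.hT y x]
    congr 1
    funext z
    ring
  have hu : nq lam q u = u := by
    apply ext_inner_right ℝ
    intro y
    rw [nq_inner hB.hq hB.hq', ← hB.eqn y]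
  have hN : ∃ C R : ℝ, ‖u‖ < R ∧ ∀ v w, ‖v‖ ≤ R → ‖w‖ ≤ R →
      |Nq lam q w - Nq lam q v - inner ℝ (nq lam q v) (w - v)| ≤ C * ‖w - v‖ ^ 2 ∧
        ‖nq lam q v - nq lam q w‖ ≤ C * ‖v - w‖ := by
    obtain ⟨C, hC⟩ := nq_taylor (lam := lam) hB.hq hB.hq' (‖u‖ + 1)
    exact ⟨C, ‖u‖ + 1, by linarith, hC⟩
  obtain ⟨s₀, hs₀, δ', hδ', C', hC', F, Wf, ρ, h1, h2, h3, h4, h5⟩ :=
    lyapunov_schmidt (Nq lam q) (nq lam q) T u e2 c hc model.n2 hTs hu hN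
      (fun κ hκ => nq_T hB.hq hB.hq' hB.hT hκ)
  exact ⟨s₀, δ', C', F, Wf, ρ, hs₀, hδ', hC', h1, h2, h3, h4, h5⟩

/-- the certificate of stage `k` -/
def Cert (F : (HH →L[ℝ] HH) → ℝ → ℝ) (s₀ : ℝ) (k : ℕ) (Z : Set ℝ) (t : ℝ) : Prop :=
  ∃ p v : ℝ, 0 < p ∧ p < 1 / (k + 1) ∧ p ≤ s₀ ∧ 0 < v ∧ v < 1 / (k + 1) ∧ v ≤ s₀ ∧
    F (P (DD \ wall Z t)) 0 < F (P (DD \ wall Z t)) p ∧
    F (P (DD \ wall Z t)) v < F (P (DD \ wall Z t)) 0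

theorem cert_open {q lam : ℝ} {u : HH} {T : HH →L[ℝ] HH} {c s₀ δ C' : ℝ}
    {F : (HH →L[ℝ] HH) → ℝ → ℝ} {Wf : (HH →L[ℝ] HH) → ℝ → HH}
    {ρ : (HH →L[ℝ] HH) → ℝ → ℝ} (hL : LSD q lam u T c s₀ δ C' F Wf ρ) {r₀ tp : ℝ} (h0 : 0 < r₀)
    (h1 : r₀ < tp)
    (hPP : ∀ Z t, adm r₀ Z → t ∈ Icc r₀ tp → P (DD \ wall Z t) ∈ PP T u e2 c)
    (k : ℕ) {Z : Set ℝ} {t : ℝ} (hZ : adm r₀ Z) (ht : t ∈ Icc r₀ tp) (hc : Cert F s₀ k Z t) :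
    ∃ η > 0, ∀ Z' t', adm r₀ Z' → t' ∈ Icc r₀ tp → Z' \ Ico 0 η = Z \ Ico 0 η → |t' - t| < η →
      Cert F s₀ k Z' t' := by
  by_contra hcon
  push Not at hcon
  obtain ⟨p, v, hp0, hpk, hps, hv0, hvk, hvs, hFp, hFv⟩ := hc
  have hcon' : ∀ n : ℕ, ∃ Z' t', adm r₀ Z' ∧ t' ∈ Icc r₀ tp ∧
      Z' \ Ico 0 (1 / ((n : ℝ) + 1)) = Z \ Ico 0 (1 / ((n : ℝ) + 1)) ∧
      |t' - t| < 1 / ((n : ℝ) + 1) ∧ ¬ Cert F s₀ k Z' t' := by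
    intro n
    exact hcon (1 / ((n : ℝ) + 1)) (by positivity)
  choose Zn tn hadm htn hZn htt hnc using hcon'
  have hlim : ∀ x, Tendsto (fun n => P (DD \ wall (Zn n) (tn n)) x) atTop
      (𝓝 (P (DD \ wall Z t) x)) := by
    intro x
    rw [Metric.tendsto_atTop]
    intro ε hε
    obtain ⟨η, hη, h⟩ := wall_P_close h0 h1 hZ ht x (κ := ε / 2) (by positivity)
    obtain ⟨N, hN⟩ := exists_nat_one_div_lt hη
    refine ⟨N, fun n hn => ?_⟩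
    have h2 : 1 / ((n : ℝ) + 1) < η := by
      refine lt_of_le_of_lt ?_ hN
      apply one_div_le_one_div_of_le (by positivity)
      have : (N : ℝ) ≤ n := by exact_mod_cast hn
      linarith
    have hsub : Ico (0 : ℝ) (1 / ((n : ℝ) + 1)) ⊆ Ico 0 η := Ico_subset_Ico_right h2.le
    have h3 : Zn n \ Ico 0 η = Z \ Ico 0 η := by
      have e1 : Zn n \ Ico 0 η = (Zn n \ Ico 0 (1 / ((n : ℝ) + 1))) \ Ico 0 η := by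
        ext y
        constructor
        · intro hy
          exact ⟨⟨hy.1, fun h => hy.2 (hsub h)⟩, hy.2⟩
        · intro hy
          exact ⟨hy.1.1, hy.2⟩
      have e2 : Z \ Ico 0 η = (Z \ Ico 0 (1 / ((n : ℝ) + 1))) \ Ico 0 η := by
        ext y
        constructor
        · intro hy
          exact ⟨⟨hy.1, fun h => hy.2 (hsub h)⟩, hy.2⟩
        · intro hy
          exact ⟨hy.1.1, hy.2⟩
      rw [e1, e2, hZn n]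
    have h4 := h (Zn n) (tn n) (hadm n) (htn n) h3 ((htt n).trans h2)
    rw [dist_eq_norm]
    linarith
  have hPn : ∀ n, P (DD \ wall (Zn n) (tn n)) ∈ PP T u e2 c := fun n => hPP _ _ (hadm n) (htn n)
  have hs := hL.hs
  have l0 := hL.lim _ (hPP Z t hZ ht) _ hPn hlim 0 (by rw [abs_zero]; exact hs.le)
  have lp := hL.lim _ (hPP Z t hZ ht) _ hPn hlim p (by rw [abs_of_pos hp0]; exact hps)
  have lv := hL.lim _ (hPP Z t hZ ht) _ hPn hlim v (by rw [abs_of_pos hv0]; exact hvs)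
  have e1 := l0.eventually_lt lp hFp
  have e2 := lv.eventually_lt l0 hFv
  obtain ⟨n, hn1, hn2⟩ := (e1.and e2).exists
  exact hnc n ⟨p, v, hp0, hpk, hps, hv0, hvk, hvs, hn1, hn2⟩

end Pool.Agent.H87.LE
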