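import Pool.Agent.H87.LE.B07a_F1
import Pool.Agent.H87.LE.B07d_F2
import Pool.Agent.H87.LE.B08_Local
import Pool.Agent.H87.LE.B12b_LSD

open MeasureTheory Complex Set Filter Topology
open scoped ContDiff Laplacian

namespace Pool.Agent.H87.LE

/-! # B12d: the resonances of a stage and their local profile -/

/-- measurability of the weight -/
theorem b12d_meas {q : ℝ} (lam : ℝ) (hq : 2 < q) (u : HH) :
    AEStronglyMeasurable (fun z => (q - 1) * lam * |fn u z| ^ (q - 2)) (volume.restrict DD) := by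
  have h1 : AEStronglyMeasurable (fn u) (volume.restrict DD) :=
    (Lp.aestronglyMeasurable (fn u)).restrict
  have h3 : Continuous (fun x : ℝ => |x| ^ (q - 2)) :=
    continuous_abs.rpow_const (fun x => Or.inr (by linarith))
  have h2 : AEStronglyMeasurable (fun z => |fn u z| ^ (q - 2)) (volume.restrict DD) :=
    h3.comp_aestronglyMeasurable h1
  exact h2.const_mul _

/-- the weak equation of a resonance -/
theorem b12d_eqn {W : ℂ → ℝ} {T : HH →L[ℝ] HH} (hT : IsT W T) {C : ℝ}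
    (hW : AEStronglyMeasurable W (volume.restrict DD)) (hC : ∀ᵐ z, z ∈ DD → |W z| ≤ C)
    {Ω Ω' : Set ℂ} (hΩ : IsOpen Ω) (hD : Ω ⊆ DD) {x : HH} (hV : V Ω ≤ V Ω')
    (hx : P Ω' (T x) = x) : EqnS Ω (gr x) (fun z => W z * fn x z) := by
  have h1 : MemLp (fn x) 2 (volume.restrict DD) := (Lp.memLp (fn x)).restrict DD
  have hf : MemLp (fun z => W z * fn x z) 2 (volume.restrict DD) := by
    refine MemLp.of_le_mul (c := C) h1 (hW.mul h1.1) ?_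
    rw [ae_restrict_iff' b1_DD_open.measurableSet]
    filter_upwards [hC] with z hz hzD
    rw [norm_mul, Real.norm_eq_abs (W z)]
    exact mul_le_mul_of_nonneg_right (hz hzD) (norm_nonneg _)
  rw [eqn_iff hΩ hD x hf]
  intro y hy
  have h2 : inner ℝ x y = inner ℝ (T x) y := by
    have h3 : P Ω' y = y := (P_self_iff Ω' y).2 (hV hy)
    calc inner ℝ x y = inner ℝ (P Ω' (T x)) y := by rw [hx]
      _ = inner ℝ (T x) (P Ω' y) := P_symm _ _ _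
      _ = inner ℝ (T x) y := by rw [h3]
  rw [h2, hT x y, ← integral_indicator b1_DD_open.measurableSet]
  apply integral_congr_ae
  filter_upwards [fn_off y] with z hz
  by_cases h : z ∈ DD
  · simp [h]
  · simp [h, hz h]

theorem b12d_adm {r₀ : ℝ} {Z : Set ℝ} (hZ : adm r₀ Z) {b : ℝ} (a : ℝ) (hb : 0 ≤ b) :
    adm r₀ (Z \ Ioo b a) :=
  ⟨hZ.1.sdiff isOpen_Ioo, ⟨hZ.2.1, fun h => absurd h.1 (not_lt.2 hb)⟩, fun _ hx => hZ.2.2 hx.1⟩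

theorem b12d_out {r₀ ts t : ℝ} {Z : Set ℝ} (hZ : adm r₀ Z) (h : r₀ < ts) (ht : t ≤ ts) :
    wall Z t \ Metric.ball 0 ts = Axs \ Metric.ball 0 ts := by
  ext z
  simp only [Set.mem_sdiff, Metric.mem_ball, dist_zero_right, not_lt]
  constructor
  · rintro ⟨h1 | h1, h2⟩
    · exact ⟨h1.1, h2⟩
    · have h3 := (hZ.2.2 h1.2).2
      exact absurd h3 (by linarith)
  · rintro ⟨h1, h2⟩
    exact ⟨Or.inl ⟨h1, ht.trans h2⟩, h2⟩

theorem b12d_in {Z : Set ℝ} {r a b t : ℝ} (hr : Icc 0 r ⊆ Z) (har : a < r) (hb : b < a)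
    (ht : a ≤ t) : wall (Z \ Ioo b a) t ∩ Metric.ball 0 a = star b := by
  ext z
  simp only [mem_inter_iff, Metric.mem_ball, dist_zero_right]
  constructor
  · rintro ⟨h1 | h1, h2⟩
    · exact absurd h1.2 (by linarith)
    · refine ⟨h1.1, ?_⟩
      by_contra h3
      exact h1.2.2 ⟨not_le.1 h3, h2⟩
  · rintro ⟨h1, h2⟩
    exact ⟨Or.inr ⟨h1, hr ⟨norm_nonneg _, by linarith⟩, fun h3 => absurd h3.1 (not_lt.2 h2)⟩,
      by linarith⟩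

theorem b12d_zero {Z : Set ℝ} {a t : ℝ} (ha : 0 < a) (hZ : (0 : ℝ) ∈ Z) :
    wall (Z \ Ioo 0 a) t = wall (Z ∩ Ici a) t ∪ {0} := by
  ext z
  constructor
  · rintro (h1 | h1)
    · exact Or.inl (Or.inl h1)
    · by_cases h2 : ‖z‖ < a
      · right
        have h3 : ¬ 0 < ‖z‖ := fun h3 => h1.2.2 ⟨h3, h2⟩
        simpa using h3
      · left
        exact Or.inr ⟨h1.1, h1.2.1, not_lt.1 h2⟩
  · rintro (h1 | h1)
    · rcases h1 with h1 | h1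
      · exact Or.inl h1
      · exact Or.inr ⟨h1.1, h1.2.1, fun h => absurd h.2 (not_lt.2 h1.2.2)⟩
    · have h2 : z = 0 := h1
      subst h2
      right
      refine ⟨by simp [Mir], ?_⟩
      rw [norm_zero]
      exact ⟨hZ, fun h => lt_irrefl _ h.1⟩

theorem b12d_sdiff {Z : Set ℝ} {a b ρ : ℝ} (hb : 0 < b) (hρ : b < ρ) :
    (Z \ Ioo b a) \ Ico 0 ρ = (Z \ Ioo 0 a) \ Ico 0 ρ := by
  ext x
  constructor
  · rintro ⟨⟨h1, h2⟩, h3⟩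
    refine ⟨⟨h1, fun h4 => h2 ⟨?_, h4.2⟩⟩, h3⟩
    by_contra h5
    exact h3 ⟨h4.1.le, by linarith⟩
  · rintro ⟨⟨h1, h2⟩, h3⟩
    exact ⟨⟨h1, fun h4 => h2 ⟨hb.trans h4.1, h4.2⟩⟩, h3⟩

theorem b12d_ball {Z : Set ℝ} {a t : ℝ} (ha : a ≤ 1) (ht : a ≤ t) :
    Metric.ball (0 : ℂ) a ⊆ DD \ wall (Z ∩ Ici a) t := by
  intro z hz
  have h1 : ‖z‖ < a := by simpa using hz
  refine ⟨⟨?_, ?_⟩, ?_⟩
  · exact (abs_re_le_norm z).trans_lt (h1.trans_le ha)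
  · exact (abs_im_le_norm z).trans_lt (h1.trans_le ha)
  · rintro (h2 | h2)
    · exact absurd h2.2 (by linarith)
    · exact absurd h2.2.2 (not_le.2 h1)

theorem b12d_mono {Ω Ω' : Set ℂ} (h : Ω ⊆ Ω') {G : ℂ → ℂ} {f : ℂ → ℝ} (he : EqnS Ω' G f) :
    EqnS Ω G f :=
  fun ζ hζ hR => he ζ ⟨hζ.1, hζ.2.1, hζ.2.2.trans h⟩ hR

theorem b12d_gr_sub (x y : HH) : ∀ᵐ z, gr (x - y) z = gr x z - gr y z := by
  have h : toLC (x - y) = toLC x - toLC y := map_sub _ _ _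
  unfold gr
  rw [h]
  exact Lp.coeFn_sub (toLC x) (toLC y)

theorem b12d_norm (x y : HH) : ∫ z, ‖gr x z - gr y z‖ ^ 2 = ‖x - y‖ ^ 2 := by
  rw [norm_HH]
  apply integral_congr_ae
  filter_upwards [b12d_gr_sub x y] with z hz
  rw [hz]

/-- `C₁` from `F1`, `m₁, κ, ts` from `F2` (as hypotheses, so that constants can be fixed first) -/
theorem stage_data {C₁ m₁ κ ts : ℝ} (hm₁ : 0 < m₁) (hts : 0 < ts) (hts' : ts ≤ 1 / 32)
    (hF1 : ∀ (Ω : Set ℂ), IsOpen Ω → Ω ⊆ DD → (∀ z ∈ Ω, I * z ∈ Ω) →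
      ∀ (v W : ℂ → ℝ) (G : ℂ → ℂ), W1 Ω v G → AEStronglyMeasurable W (volume.restrict DD) →
      (∀ᵐ z, z ∈ DD → 0 ≤ W z ∧ W z ≤ 60) → EqnS Ω G (fun z => W z * v z) →
      ∫ z, ‖G z‖ ^ 2 ≤ 4 → ∀ᵐ z, z ∈ DD → |v z| ≤ C₁ * bet z ^ (3 / 4 : ℝ))
    (hF2 : ∀ (E : Set ℂ) (v W : ℂ → ℝ) (G : ℂ → ℂ), IsClosed E → E ⊆ Mir →
      (∀ z, I * z ∈ E ↔ z ∈ E) →
      E \ Metric.ball 0 ts = Axs \ Metric.ball 0 ts → AEStronglyMeasurable W (volume.restrict DD) →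
      (∀ᵐ z, z ∈ DD → 0 ≤ W z ∧ W z ≤ 60) → ∫ z in DD, |W z - 5 * Real.pi ^ 2| ^ 3 ≤ κ →
      W1 (DD \ E) v G → EqnS (DD \ E) G (fun z => W z * v z) → ∫ z, ‖G z - gr e2 z‖ ^ 2 ≤ κ →
      ∀ᵐ z : ℂ, ‖z‖ ≤ 1 / 8 → m₁ * hh z ≤ v z)
    {q lam δ : ℝ} {u : HH} {T : HH →L[ℝ] HH} (hB : BaseD q lam δ u T) (hδκ : δ ≤ κ)
    {r₀ tp : ℝ} (h0 : 0 < r₀) (h1 : r₀ < tp) (h2 : tp ≤ ts)
    (hnear : ∀ Z t, adm r₀ Z → t ∈ Icc r₀ tp → AE T Z t ∈ Near A0 ∧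
      ∀ x, AE T Z t x = x → inner ℝ x e2 = 1 → ‖x - e2‖ ^ 2 ≤ κ ∧ ‖x‖ ≤ 2)
    {Z : Set ℝ} {r a : ℝ} (hZ : adm r₀ Z) (hr : Icc 0 r ⊆ Z) (ha : 0 < a) (har : a < r)
    {b t : ℕ → ℝ} {t0 : ℝ} (hb : ∀ n, 0 < b n ∧ b n < a) (hb0 : Tendsto b atTop (𝓝 0))
    (ht : ∀ n, t n ∈ Icc r₀ tp) (ht0 : Tendsto t atTop (𝓝 t0))
    (hμ : ∀ n, mm (AE T (Z \ Ioo (b n) a) (t n)) = 0) :
    ∃ v : ℕ → HH, (∀ n, v n ∈ V (DD \ wall (Z \ Ioo (b n) a) (t n)) ∧ ev (v n) = v n ∧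
        inner ℝ (v n) e2 = 1 ∧ P (DD \ wall (Z \ Ioo (b n) a) (t n)) (T (v n)) = v n ∧
        ‖v n‖ ≤ 2 ∧ ∀ᵐ z, z ∈ DD → |fn (v n) z| ≤ C₁ * bet z ^ (3 / 4 : ℝ)) ∧
      ∀ δ' > 0, ∃ a' c C : ℝ, 0 < a' ∧ a' ≤ δ' ∧ 0 < c ∧ ∀ᶠ n in atTop, ∃ A : ℝ,
        c / Real.log (1 / b n) ≤ A ∧ A ≤ C ∧ 0 < A ∧
          ∀ᵐ z : ℂ, ‖z‖ ≤ a' → |fn (v n) z - A * xib (b n) z| ≤ δ' * (A * xib (b n) z) := by
  -- the weight
  obtain ⟨W, hWdef⟩ : ∃ W : ℂ → ℝ, W = fun z => (q - 1) * lam * |fn u z| ^ (q - 2) := ⟨_, rfl⟩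
  have hT : IsT W T := hWdef ▸ hB.hT
  have hWm : AEStronglyMeasurable W (volume.restrict DD) := hWdef ▸ b12d_meas lam hB.hq u
  have hWb : ∀ᵐ z, z ∈ DD → 0 ≤ W z ∧ W z ≤ 60 := hWdef ▸ hB.hW
  have hWa : ∀ᵐ z, z ∈ DD → |W z| ≤ 60 := by
    filter_upwards [hWb] with z hz hzD
    rw [abs_of_nonneg (hz hzD).1]
    exact (hz hzD).2
  have hWR : ∀ᵐ z, z ∈ DD → W (I * z) = W z := by
    filter_upwards [fn_rot u] with z hz _
    rw [hWdef]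
    simp only [hz]
  have hW3 : ∫ z in DD, |W z - 5 * Real.pi ^ 2| ^ 3 ≤ κ := by
    rw [hWdef]
    exact hB.hW3.trans hδκ
  -- radii
  have hrr : r ≤ r₀ := by
    have h3 := hZ.2.2 (hr ⟨ha.le.trans har.le, le_refl r⟩)
    exact h3.2
  have hats : a < 1 / 32 := by linarith
  have hbadm : ∀ n, adm r₀ (Z \ Ioo (b n) a) := fun n => b12d_adm hZ a (hb n).1.le
  have h0adm : adm r₀ (Z \ Ioo 0 a) := b12d_adm hZ a le_rfl
  have ht0' : t0 ∈ Icc r₀ tp := isClosed_Icc.mem_of_tendsto ht0 (Eventually.of_forall ht)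
  have hN : ∀ n, AE T (Z \ Ioo (b n) a) (t n) ∈ Near A0 := fun n => (hnear _ _ (hbadm n) (ht n)).1
  have hN0 : AE T (Z \ Ioo 0 a) t0 ∈ Near A0 := (hnear _ _ h0adm ht0').1
  -- the resonances
  have hres := fun n => resonance (hN n) (hμ n)
  choose v hvV hve hv1 hvA hvP using hres
  have hvP' : ∀ n, P (DD \ wall (Z \ Ioo (b n) a) (t n)) (T (v n)) = v n :=
    fun n => hvP n (base_comm hB)
  have hvk : ∀ n, ‖v n - e2‖ ^ 2 ≤ κ ∧ ‖v n‖ ≤ 2 := fun n =>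
    (hnear _ _ (hbadm n) (ht n)).2 (v n) (hvA n) (hv1 n)
  have hEcl : ∀ n, IsClosed (wall (Z \ Ioo (b n) a) (t n)) := fun n => wall_closed (hbadm n).1 _
  have hΩo : ∀ n, IsOpen (DD \ wall (Z \ Ioo (b n) a) (t n)) := fun n =>
    b1_DD_open.sdiff (hEcl n)
  have hΩI : ∀ n, ∀ z ∈ DD \ wall (Z \ Ioo (b n) a) (t n),
      I * z ∈ DD \ wall (Z \ Ioo (b n) a) (t n) := fun n z hz =>
    ⟨b1_DD_I hz.1, fun h => hz.2 ((wall_I _ _ z).1 h)⟩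
  have hvW : ∀ n, W1 (DD \ wall (Z \ Ioo (b n) a) (t n)) (fn (v n)) (gr (v n)) := fun n =>
    V_approx sdiff_subset (hvV n)
  have hvE : ∀ n, EqnS (DD \ wall (Z \ Ioo (b n) a) (t n)) (gr (v n))
      (fun z => W z * fn (v n) z) := fun n =>
    b12d_eqn hT hWm hWa (hΩo n) sdiff_subset le_rfl (hvP' n)
  have hG4 : ∀ n, ∫ z, ‖gr (v n) z‖ ^ 2 ≤ 4 := fun n => by
    rw [← norm_HH]
    nlinarith [(hvk n).2, norm_nonneg (v n)]
  have hlow : ∀ n, ∀ᵐ z : ℂ, ‖z‖ ≤ 1 / 8 → m₁ * hh z ≤ fn (v n) z := fun n =>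
    hF2 (wall (Z \ Ioo (b n) a) (t n)) (fn (v n)) W (gr (v n)) (hEcl n) (wall_sub _ _)
      (wall_I _ _) (b12d_out (hbadm n) (by linarith) ((ht n).2.trans h2)) hWm hWb hW3 (hvW n)
      (hvE n) (by rw [b12d_norm]; exact (hvk n).1)
  refine ⟨v, fun n => ⟨hvV n, hve n, hv1 n, hvP' n, (hvk n).2,
    hF1 _ (hΩo n) sdiff_subset (hΩI n) (fn (v n)) W (gr (v n)) (hvW n) hWm hWb (hvE n) (hG4 n)⟩, ?_⟩
  -- norm convergence of the operators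
  have hconv : Tendsto (fun n => ‖AE T (Z \ Ioo (b n) a) (t n) - AE T (Z \ Ioo 0 a) t0‖) atTop
      (𝓝 0) := by
    rw [Metric.tendsto_nhds]
    intro ε hε
    obtain ⟨ρ, hρ, hcl⟩ := AE_close hT hWm hWa h0 h1 h0adm ht0' (half_pos hε)
    have e1 : ∀ᶠ n in atTop, b n < ρ := hb0.eventually (gt_mem_nhds hρ)
    have e2' : ∀ᶠ n in atTop, |t n - t0| < ρ := by
      have := (Metric.tendsto_nhds.1 ht0) ρ hρ
      filter_upwards [this] with n hn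
      simpa [Real.dist_eq] using hn
    filter_upwards [e1, e2'] with n h3 h4
    have h5 := hcl (Z \ Ioo (b n) a) (t n) (hbadm n) (ht n) (b12d_sdiff (hb n).1 h3) h4
    rw [Real.dist_eq, sub_zero, abs_of_nonneg (norm_nonneg _)]
    linarith
  obtain ⟨C, hC, hm1, -, -, hm4, -⟩ := Classical.choose_spec (exists_m model)
  have hmm0 : mm (AE T (Z \ Ioo 0 a) t0) = 0 := by
    have h3 : ∀ n, |mm (AE T (Z \ Ioo 0 a) t0)| ≤
        C * ‖AE T (Z \ Ioo (b n) a) (t n) - AE T (Z \ Ioo 0 a) t0‖ := by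
      intro n
      have h4 := hm1 _ (hN n) _ hN0
      have h5 : Classical.choose (exists_m model) (AE T (Z \ Ioo (b n) a) (t n)) = 0 := hμ n
      rw [h5, zero_sub, abs_neg] at h4
      exact h4
    have h6 : Tendsto (fun n => C * ‖AE T (Z \ Ioo (b n) a) (t n) - AE T (Z \ Ioo 0 a) t0‖) atTop
        (𝓝 0) := by
      simpa using hconv.const_mul C
    have h7 : |mm (AE T (Z \ Ioo 0 a) t0)| ≤ 0 := ge_of_tendsto' h6 h3
    exact abs_nonpos_iff.1 h7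
  obtain ⟨v', hvV', -, hv1', hvA', hvP0⟩ := resonance hN0 hmm0
  have hvP0' := hvP0 (base_comm hB)
  have hdiff : Tendsto (fun n => ∫ z, ‖gr (v n) z - gr v' z‖ ^ 2) atTop (𝓝 0) := by
    have h3 : ∀ n, ‖v n - v'‖ ≤ C * ‖AE T (Z \ Ioo (b n) a) (t n) - AE T (Z \ Ioo 0 a) t0‖ :=
      fun n => hm4 _ (hN n) _ hN0 (v n) v' (hvA n) hvA' (hv1 n) hv1'
    have h4 : Tendsto (fun n => ‖v n - v'‖) atTop (𝓝 0) := by
      refine squeeze_zero (fun n => norm_nonneg _) h3 ?_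
      simpa using hconv.const_mul C
    have h5 : Tendsto (fun n => ‖v n - v'‖ ^ 2) atTop (𝓝 0) := by
      simpa using h4.pow 2
    refine h5.congr (fun n => ?_)
    rw [b12d_norm]
  have hv'W : W1 DD (fn v') (gr v') := fn_W1 v'
  have hat0 : a ≤ t0 := by linarith [ht0'.1]
  have hVeq : V (DD \ wall (Z \ Ioo 0 a) t0) = V (DD \ wall (Z ∩ Ici a) t0) := by
    rw [b12d_zero ha hZ.2.1]
    refine V_point (wall_closed (hZ.1.inter isClosed_Ici) t0) (finite_singleton 0)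
      (wall_I _ _) (fun z => ?_)
    simp [I_ne_zero]
  have hv'E : EqnS (Metric.ball 0 a) (gr v') (fun z => W z * fn v' z) := by
    refine b12d_mono (b12d_ball (Z := Z) (by linarith) hat0) ?_
    exact b12d_eqn hT hWm hWa (b1_DD_open.sdiff (wall_closed (hZ.1.inter isClosed_Ici) t0))
      sdiff_subset hVeq.symm.le hvP0'
  intro δ' hδ'
  obtain ⟨a', c, C', ha'0, -, ha'δ, hc, -, hev⟩ := local_close hm₁ ha (by linarith) hWm hWb hWR hb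
    hb0 (E := fun n => wall (Z \ Ioo (b n) a) (t n))
    (fun n => ⟨hEcl n, wall_sub _ _, wall_I _ _, b12d_in hr har (hb n).2
      (by linarith [(ht n).1])⟩)
    (v := fun n => fn (v n)) (G := fun n => gr (v n)) hvW hvE hG4 hlow hv'W hv'E hdiff hδ'
  refine ⟨a', c, C', ha'0, ha'δ, hc, ?_⟩
  filter_upwards [hev] with n hn
  obtain ⟨A, hA1, hA2, hA3⟩ := hn
  refine ⟨A, hA1, hA2, ?_, hA3⟩
  have hlog : 0 < Real.log (1 / b n) := by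
    apply Real.log_pos
    rw [lt_div_iff₀ (hb n).1]
    linarith [(hb n).2]
  exact lt_of_lt_of_le (div_pos hc hlog) hA1

end Pool.Agent.H87.LE
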