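import Pool.Agent.H87.LE.A09_Bet
import Pool.Agent.H87.LE.B09a_Energy
import Pool.Agent.H87.LE.B09b_Theta
import Pool.Agent.H87.LE.B09c_Small
import Pool.Agent.H87.LE.B12b_LSD

open MeasureTheory Complex Set Filter Topology
open scoped ContDiff Laplacian

namespace Pool.Agent.H87.LE

/-! # B12e: peaks and valleys at a stage -/

/-- abbreviation: the conclusion of `theta_lim` for `x` with margin `μ` and closeness `δ₁` -/
def ThetaLim (x μ δ₁ : ℝ) : Prop :=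
    ∀ {q lam : ℝ} {u : HH} {T : HH →L[ℝ] HH}, BaseD q lam δ₁ u T →
      Integrable (fun z : ℂ => Mq q (hh z) (x * xi z)) →
      ∀ (a' c C C₁ : ℝ) (b A : ℕ → ℝ) (v : ℕ → HH), 0 < a' → a' ≤ δ₁ → 0 < c →
      (∀ n, 0 < b n) → Tendsto b atTop (𝓝 0) →
      (∀ n, c / Real.log (1 / b n) ≤ A n ∧ A n ≤ C ∧ 0 < A n) →
      (∀ n, ∀ᵐ z, z ∈ DD → |fn (v n) z| ≤ C₁ * bet z ^ (3 / 4 : ℝ)) →
      (∀ n, ∀ᵐ z : ℂ, ‖z‖ ≤ a' →
        |fn (v n) z - A n * xib (b n) z| ≤ δ₁ * (A n * xib (b n) z)) →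
      ∀ᶠ n in atTop,
        |Theta q u (v n) (x * (Real.pi ^ 4 / 4) * b n ^ 4 / A n) -
          (Real.pi ^ 4 / 4 * b n ^ 4) ^ q * b n ^ 2 * Th q x| ≤
            (Real.pi ^ 4 / 4 * b n ^ 4) ^ q * b n ^ 2 * (μ * (q - 2))

/-- at one parameter `x`: sign of `F s - F 0` for `s = x (π⁴/4) b⁴ / A`; `σ = 1`: `Th q x ≤ -μ (q-2)`
gives `F 0 < F s`; `σ = -1`: `μ (q-2) ≤ Th q x` gives `F s < F 0` -/
theorem stage_sign_one {x μ δ₁ : ℝ} (hx : 0 < x) (hμ : 0 < μ) (hδ₁ : 0 < δ₁) (hδ₁' : δ₁ ≤ 1 / 4)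
    (hθ : ThetaLim x (μ / 4) δ₁) {q lam : ℝ} {u : HH} {T : HH →L[ℝ] HH} (hB : BaseD q lam δ₁ u T)
    (hint : Integrable (fun z : ℂ => Mq q (hh z) (x * xi z))) {c s₀ δ C' : ℝ}
    {F : (HH →L[ℝ] HH) → ℝ → ℝ} {Wf : (HH →L[ℝ] HH) → ℝ → HH}
    {ρ : (HH →L[ℝ] HH) → ℝ → ℝ} (hL : LSD q lam u T c s₀ δ C' F Wf ρ)
    {E : ℕ → Set ℂ} (hE : ∀ n, E n ⊆ Mir ∧ P (DD \ E n) ∈ PP T u e2 c)
    {b A : ℕ → ℝ} {v : ℕ → HH} {a' c' C C₁ : ℝ} (ha' : 0 < a') (ha'' : a' ≤ δ₁) (hc' : 0 < c')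
    (hb : ∀ n, 0 < b n) (hb0 : Tendsto b atTop (𝓝 0))
    (hv : ∀ n, v n ∈ V (DD \ E n) ∧ ev (v n) = v n ∧ inner ℝ (v n) e2 = 1 ∧
        P (DD \ E n) (T (v n)) = v n ∧
        ‖v n‖ ≤ 2 ∧ ∀ᵐ z, z ∈ DD → |fn (v n) z| ≤ C₁ * bet z ^ (3 / 4 : ℝ))
    (hA : ∀ n, c' / Real.log (1 / b n) ≤ A n ∧ A n ≤ C ∧ 0 < A n)
    (hloc : ∀ n, ∀ᵐ z : ℂ, ‖z‖ ≤ a' →
        |fn (v n) z - A n * xib (b n) z| ≤ δ₁ * (A n * xib (b n) z)) :
    (Th q x ≤ - μ * (q - 2) → ∀ᶠ n in atTop,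
      0 < x * (Real.pi ^ 4 / 4) * b n ^ 4 / A n ∧
      F (P (DD \ E n)) 0 < F (P (DD \ E n)) (x * (Real.pi ^ 4 / 4) * b n ^ 4 / A n)) ∧
    (μ * (q - 2) ≤ Th q x → ∀ᶠ n in atTop,
      0 < x * (Real.pi ^ 4 / 4) * b n ^ 4 / A n ∧
      F (P (DD \ E n)) (x * (Real.pi ^ 4 / 4) * b n ^ 4 / A n) < F (P (DD \ E n)) 0) := by
  have hq2 : 2 < q := hB.hq
  have hq3 : q ≤ 21 / 10 := hB.hq'
  have hq0 : 0 < q - 2 := by linarith
  have hlam : 0 < lam := by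
    have h1 := abs_le.1 hB.lam_close
    have h2 : (9 : ℝ) < Real.pi ^ 2 := by nlinarith [Real.pi_gt_three]
    linarith [h1.1]
  have hlq : 0 < lam / q := div_pos hlam (by linarith)
  obtain ⟨Cg, hCg, hg⟩ := grad_bound hB (by linarith) |C₁|
  set ε : ℝ := lam / q * (μ / 4 * (q - 2)) with hε
  have hε0 : 0 < ε := by positivity
  obtain ⟨hs0, herr⟩ := small_error (K := C' * Cg) (ε := ε) hq2 hq3 hx hc' hε0 hb hb0 hA
  have hT := hθ hB hint a' c' C C₁ b A v ha' ha'' hc' hb hb0 hA (fun n => (hv n).2.2.2.2.2) hloc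
  set s : ℕ → ℝ := fun n => x * (Real.pi ^ 4 / 4) * b n ^ 4 / A n with hs
  set M : ℕ → ℝ := fun n => (Real.pi ^ 4 / 4 * b n ^ 4) ^ q * b n ^ 2 with hM
  have hspos : ∀ n, 0 < s n := by
    intro n
    have h1 := hb n
    have h2 := (hA n).2.2
    have h3 := Real.pi_pos
    simp only [hs]
    positivity
  have hMpos : ∀ n, 0 < M n := by
    intro n
    have h1 := hb n
    have h3 := Real.pi_pos
    simp only [hM]
    positivity
  have hbound : ∀ n, ∀ᵐ z, z ∈ DD → |fn (v n) z| ≤ |C₁| := by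
    intro n
    filter_upwards [(hv n).2.2.2.2.2] with z hz hzD
    have h1 := bet_pos hzD
    have h2 : bet z ^ (3 / 4 : ℝ) ≤ 1 := Real.rpow_le_one h1.1.le h1.2 (by norm_num)
    have h3 : 0 ≤ bet z ^ (3 / 4 : ℝ) := Real.rpow_nonneg h1.1.le _
    calc |fn (v n) z| ≤ C₁ * bet z ^ (3 / 4 : ℝ) := hz hzD
      _ ≤ |C₁| * bet z ^ (3 / 4 : ℝ) := mul_le_mul_of_nonneg_right (le_abs_self _) h3
      _ ≤ |C₁| * 1 := mul_le_mul_of_nonneg_left h2 (abs_nonneg _)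
      _ = |C₁| := mul_one _
  have hev1 : ∀ᶠ n in atTop, s n < min 1 (min s₀ (δ / 2)) := by
    have : 0 < min 1 (min s₀ (δ / 2)) := by
      have := hL.hs
      have := hL.hδ
      positivity
    exact hs0.eventually (gt_mem_nhds this)
  have key : ∀ᶠ n in atTop,
      |F (P (DD \ E n)) (s n) - (F (P (DD \ E n)) 0 - lam / q * Theta q u (v n) (s n))| ≤
        ε * M n := by
    filter_upwards [hev1, herr] with n h1 h2
    have hs1 : s n < 1 := lt_of_lt_of_le h1 (min_le_left _ _)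
    have hs2 : s n < s₀ := lt_of_lt_of_le h1 ((min_le_right _ _).trans (min_le_left _ _))
    have hs3 : s n < δ / 2 := lt_of_lt_of_le h1 ((min_le_right _ _).trans (min_le_right _ _))
    obtain ⟨hv1, hv2, hv3, hv4, hv5, hv6⟩ := hv n
    have hc1 := hL.cmp (P (DD \ E n)) (hE n).2 (s n)
      (by rw [abs_of_pos (hspos n)]; exact hs2.le) (u + s n • v n)
      (by rw [add_sub_cancel_left, real_inner_smul_left, hv3, mul_one])
      (by
        rw [add_sub_cancel_left, norm_smul, Real.norm_eq_abs, abs_of_pos (hspos n)]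
        nlinarith [hspos n, norm_nonneg (v n)])
    have hg1 := hg (E n) (v n) (s n) (hE n).1 hv1 hv2 hv4 (hbound n) (hspos n) hs1.le
    rw [J_identity hB (hE n).1 hv1 hv2 hv4, ← hL.zero _ (hE n).2] at hc1
    calc _ ≤ C' * ‖gJ (nq lam q) (P (DD \ E n)) (u + s n • v n)‖ ^ 2 := hc1
      _ ≤ C' * (Cg * s n ^ (2 * (q - 1) + 18 / 25)) :=
        mul_le_mul_of_nonneg_left hg1 hL.hC.le
      _ = C' * Cg * s n ^ (2 * (q - 1) + 18 / 25) := by ring
      _ ≤ ε * M n := h2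
  refine ⟨fun hTh => ?_, fun hTh => ?_⟩
  · filter_upwards [key, hT] with n h1 h2
    refine ⟨hspos n, ?_⟩
    have h3 := (abs_le.1 h1).1
    have h4 := (abs_le.1 h2).2
    have h5 : Theta q u (v n) (s n) ≤ - (3 / 4 * μ * (q - 2)) * M n := by
      have h6 : M n * Th q x ≤ M n * (-μ * (q - 2)) := mul_le_mul_of_nonneg_left hTh (hMpos n).le
      have h7 : Theta q u (v n) (s n) ≤ M n * Th q x + M n * (μ / 4 * (q - 2)) := by linarith
      linarith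
    have h8 : lam / q * Theta q u (v n) (s n) ≤ lam / q * (- (3 / 4 * μ * (q - 2)) * M n) :=
      mul_le_mul_of_nonneg_left h5 hlq.le
    have h9 : 0 < lam / q * (μ * (q - 2)) * M n := by
      have := hMpos n
      positivity
    have h10 : ε * M n = 1 / 4 * (lam / q * (μ * (q - 2)) * M n) := by rw [hε]; ring
    have h11 : lam / q * (- (3 / 4 * μ * (q - 2)) * M n) =
        - (3 / 4) * (lam / q * (μ * (q - 2)) * M n) := by ring
    show F (P (DD \ E n)) 0 < F (P (DD \ E n)) (s n)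
    linarith
  · filter_upwards [key, hT] with n h1 h2
    refine ⟨hspos n, ?_⟩
    have h3 := (abs_le.1 h1).2
    have h4 := (abs_le.1 h2).1
    have h5 : 3 / 4 * μ * (q - 2) * M n ≤ Theta q u (v n) (s n) := by
      have h6 : M n * (μ * (q - 2)) ≤ M n * Th q x := mul_le_mul_of_nonneg_left hTh (hMpos n).le
      have h7 : M n * Th q x - M n * (μ / 4 * (q - 2)) ≤ Theta q u (v n) (s n) := by linarith
      linarith
    have h8 : lam / q * (3 / 4 * μ * (q - 2) * M n) ≤ lam / q * Theta q u (v n) (s n) :=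
      mul_le_mul_of_nonneg_left h5 hlq.le
    have h9 : 0 < lam / q * (μ * (q - 2)) * M n := by
      have := hMpos n
      positivity
    have h10 : ε * M n = 1 / 4 * (lam / q * (μ * (q - 2)) * M n) := by rw [hε]; ring
    have h11 : lam / q * (3 / 4 * μ * (q - 2) * M n) =
        3 / 4 * (lam / q * (μ * (q - 2)) * M n) := by ring
    show F (P (DD \ E n)) (s n) < F (P (DD \ E n)) 0
    linarith

end Pool.Agent.H87.LE
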