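import Pool.Agent.H87.LE.B07a_F1
import Pool.Agent.H87.LE.B07d_F2
import Pool.Agent.H87.LE.B08_Local
import Pool.Agent.H87.LE.B09a_Energy
import Pool.Agent.H87.LE.B09b_Theta
import Pool.Agent.H87.LE.B09c_Small
import Pool.Agent.H87.LE.B10b_Choice
import Pool.Agent.H87.LE.B11_Scheme
import Pool.Agent.H87.LE.B12a_Res
import Pool.Agent.H87.LE.B12b_LSD
import Pool.Agent.H87.LE.B12d_Data
import Pool.Agent.H87.LE.B12e_Sign

open MeasureTheory Complex Set Filter Topology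
open scoped ContDiff Laplacian

namespace Pool.Agent.H87.LE

/-! # B12: the stage and the infinite construction -/

theorem BaseD.mono {q lam δ δ' : ℝ} {u : HH} {T : HH →L[ℝ] HH} (h : BaseD q lam δ u T)
    (hd : δ ≤ δ') : BaseD q lam δ' u T where
  hq := h.hq
  hq' := h.hq'
  lam_close := h.lam_close.trans hd
  odd := h.odd
  close := by
    filter_upwards [h.close] with z hz hD
    exact (hz hD).trans (mul_le_mul_of_nonneg_right hd (abs_nonneg _))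
  eqn := h.eqn
  hT := h.hT
  hT0 := h.hT0.trans hd
  hW3 := h.hW3.trans hd
  hW := h.hW
  nondeg := h.nondeg

theorem ThetaLim.mono {x μ d δ : ℝ} (h : ThetaLim x μ d) (hd : δ ≤ d) : ThetaLim x μ δ := by
  intro q lam u T hB hint a' c C C₁ b A v h1 h2 h3 h4 h5 h6 h7 h8
  refine h (hB.mono hd) hint a' c C C₁ b A v h1 (h2.trans hd) h3 h4 h5 h6 h7 ?_
  intro n
  filter_upwards [h8 n] with z hz hza
  refine (hz hza).trans (mul_le_mul_of_nonneg_right hd ?_)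
  exact mul_nonneg (h6 n).2.2.le (xib_nonneg _ _)

/-- existence of a domain with peaks and valleys at all scales -/
theorem exists_wall : ∃ (q lam δ : ℝ) (u : HH) (T : HH →L[ℝ] HH) (Z : Set ℝ) (t : ℝ),
    BaseD q lam δ u T ∧ IsClosed Z ∧ (0 : ℝ) ∈ Z ∧ Z ⊆ Icc 0 (1 / 2) ∧ 0 < t ∧ t < 1 / 2 ∧
      ∃ (s₀ : ℝ) (Wf : ℝ → HH) (F ρ : ℝ → ℝ), 0 < s₀ ∧ ContinuousOn F (Icc (-s₀) s₀) ∧
        (∀ s ∈ Ioo (-s₀) s₀, HasDerivAt F (ρ s) s) ∧
        (∀ s, |s| ≤ s₀ → gJ (nq lam q) (P (DD \ wall Z t)) (Wf s) = ρ s • e2 ∧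
          F s = JJ (Nq lam q) (P (DD \ wall Z t)) (Wf s)) ∧
        F 0 = JJ (Nq lam q) (P (DD \ wall Z t)) u ∧
        ∀ ε > 0, ∃ p v, 0 < p ∧ p < ε ∧ 0 < v ∧ v < ε ∧ F 0 < F p ∧ F v < F 0 := by
  obtain ⟨x₂, μ, q₀, hx₂, hμ, hq₀, hq₀', hsign⟩ := univ_sign
  have hx₂0 : 0 < x₂ := by linarith
  obtain ⟨d1, hd1, hd1', hθ1⟩ := theta_lim (x := 1) one_pos (μ := μ / 4) (by positivity)
  obtain ⟨d2, hd2, hd2', hθ2⟩ := theta_lim (x := x₂) hx₂0 (μ := μ / 4) (by positivity)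
  obtain ⟨C₁, hC₁, hF1⟩ := F1
  obtain ⟨m₁, κ, ts, hm₁, hκ, hts, hts', hF2⟩ := F2
  obtain ⟨Cm, hCm, hlip, hzero, hclose, hdiff, hmono⟩ := Classical.choose_spec (exists_m model)
  -- the closeness of the compressed operators
  obtain ⟨ε, hε, hε1, hε2⟩ : ∃ ε : ℝ, 0 < ε ∧ (Cm * ε) ^ 2 ≤ κ ∧ Cm * ε ≤ 1 := by
    refine ⟨min (Real.sqrt κ / Cm) (1 / Cm), ?_, ?_, ?_⟩
    · have := Real.sqrt_pos.2 hκ
      positivity
    · have h1 : Cm * min (Real.sqrt κ / Cm) (1 / Cm) ≤ Real.sqrt κ := by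
        calc Cm * min (Real.sqrt κ / Cm) (1 / Cm) ≤ Cm * (Real.sqrt κ / Cm) :=
              mul_le_mul_of_nonneg_left (min_le_left _ _) hCm.le
          _ = Real.sqrt κ := by field_simp
      have h2 : 0 ≤ Cm * min (Real.sqrt κ / Cm) (1 / Cm) := by
        have := Real.sqrt_pos.2 hκ
        positivity
      calc (Cm * min (Real.sqrt κ / Cm) (1 / Cm)) ^ 2 ≤ (Real.sqrt κ) ^ 2 :=
            pow_le_pow_left₀ h2 h1 2
        _ = κ := Real.sq_sqrt hκ.le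
    · calc Cm * min (Real.sqrt κ / Cm) (1 / Cm) ≤ Cm * (1 / Cm) :=
            mul_le_mul_of_nonneg_left (min_le_right _ _) hCm.le
        _ = 1 := by field_simp
  obtain ⟨tp, r₀, κ', hr₀, hr₀tp, htpts, htp2, hκ', htun⟩ := tuning hε hts
  obtain ⟨δ₁, hδ₁, hδ1, hδ2, hδκ, hδκ', hδ4⟩ : ∃ δ₁ : ℝ, 0 < δ₁ ∧ δ₁ ≤ d1 ∧ δ₁ ≤ d2 ∧ δ₁ ≤ κ ∧
      δ₁ ≤ κ' ∧ δ₁ ≤ 1 / 4 := by
    refine ⟨min (min d1 d2) (min κ (min κ' (1 / 4))), by positivity, ?_, ?_, ?_, ?_, ?_⟩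
    · exact (min_le_left _ _).trans (min_le_left _ _)
    · exact (min_le_left _ _).trans (min_le_right _ _)
    · exact (min_le_right _ _).trans (min_le_left _ _)
    · exact (min_le_right _ _).trans ((min_le_right _ _).trans (min_le_left _ _))
    · exact (min_le_right _ _).trans ((min_le_right _ _).trans (min_le_right _ _))
  obtain ⟨q₁, hq₁, hq₁', hbase⟩ := exists_base hδ₁
  obtain ⟨q, hq2, hqq₀, hqq₁⟩ : ∃ q : ℝ, 2 < q ∧ q < q₀ ∧ q < q₁ := by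
    refine ⟨(2 + min q₀ q₁) / 2, ?_, ?_, ?_⟩
    · have : 2 < min q₀ q₁ := lt_min hq₀ hq₁
      linarith
    · have h1 : min q₀ q₁ ≤ q₀ := min_le_left _ _
      linarith
    · have h1 : min q₀ q₁ ≤ q₁ := min_le_right _ _
      linarith
  obtain ⟨lam, u, T, hB⟩ := hbase q hq2 hqq₁
  obtain ⟨hi1, hi2, hTh1, hTh2⟩ := hsign q hq2 hqq₀
  have hθ1' : ThetaLim 1 (μ / 4) δ₁ := ThetaLim.mono (d := d1) hθ1 hδ1
  have hθ2' : ThetaLim x₂ (μ / 4) δ₁ := ThetaLim.mono (d := d2) hθ2 hδ2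
  have hTs : ∀ x y, inner ℝ (T x) y = inner ℝ x (T y) := by
    intro x y
    rw [hB.hT x y, real_inner_comm, hB.hT y x]
    congr 1
    funext z
    ring
  have htunT := htun T hTs (hB.hT0.trans hδκ')
  set W : ℂ → ℝ := fun z => (q - 1) * lam * |fn u z| ^ (q - 2) with hW
  have hWm : AEStronglyMeasurable W (volume.restrict DD) := by
    have h1 : AEStronglyMeasurable (fun z => fn u z) (volume.restrict DD) :=
      (Lp.aestronglyMeasurable (fn u)).restrict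
    have h2 : AEMeasurable (fun z => |fn u z| ^ (q - 2)) (volume.restrict DD) :=
      (continuous_abs.measurable.comp_aemeasurable h1.aemeasurable).pow_const _
    exact (h2.const_mul ((q - 1) * lam)).aestronglyMeasurable
  have hWb : ∀ᵐ z, z ∈ DD → |W z| ≤ 60 := by
    filter_upwards [hB.hW] with z hz hD
    have h1 := hz hD
    rw [abs_of_nonneg h1.1]
    exact h1.2
  have hnear : ∀ Z t, adm r₀ Z → t ∈ Icc r₀ tp → AE T Z t ∈ Near A0 ∧
      ∀ x, AE T Z t x = x → inner ℝ x e2 = 1 → ‖x - e2‖ ^ 2 ≤ κ ∧ ‖x‖ ≤ 2 := by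
    intro Z t hZ ht
    obtain ⟨h1, h2⟩ := htunT.1 Z t hZ ht
    refine ⟨h2, fun x hx hx2 => ?_⟩
    have h3 := hclose _ h2 x hx hx2
    have h4 : ‖x - e2‖ ≤ Cm * ε := h3.trans (mul_le_mul_of_nonneg_left h1 hCm.le)
    have h5 : ‖e2‖ = 1 := model.n2
    refine ⟨(pow_le_pow_left₀ (norm_nonneg _) h4 2).trans hε1, ?_⟩
    calc ‖x‖ = ‖(x - e2) + e2‖ := by rw [sub_add_cancel]
      _ ≤ ‖x - e2‖ + ‖e2‖ := norm_add_le _ _
      _ ≤ 2 := by linarith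
  set c : ℝ := min (1 / 4) ((q - 2) / 2) with hc
  have hc0 : 0 < c := by
    have : 0 < (q - 2) / 2 := by linarith
    positivity
  have hPP : ∀ Z t, adm r₀ Z → t ∈ Icc r₀ tp → P (DD \ wall Z t) ∈ PP T u e2 c :=
    fun Z t hZ ht => wall_PP hB (hnear Z t hZ ht).1
  obtain ⟨s₀, δL, C', F, Wf, ρ, hL⟩ := exists_LSD hB hc0
  have hscheme := scheme (fun Z t => mm (AE T Z t)) (Cert F s₀) r₀ tp hr₀ hr₀tp (adm r₀)
    (fun Z => Iff.rfl)
    (fun Z Z' t t' hZ hZ' hsub h1 h2 h3 hm =>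
      mm_mono hTs hsub h2 (hnear Z t hZ ⟨h1, h2.trans h3⟩).1
        (hnear Z' t' hZ' ⟨h1.trans h2, h3⟩).1 hm)
    (by
      intro Z t hZ ht ε' hε'
      obtain ⟨η, hη, h⟩ := AE_close hB.hT hWm hWb hr₀ hr₀tp hZ ht
        (κ := ε' / (2 * Cm)) (by positivity)
      refine ⟨η, hη, fun Z' t' hZ' ht' h1 h2 => ?_⟩
      have h3 := hlip _ (hnear Z' t' hZ' ht').1 _ (hnear Z t hZ ht).1
      have h4 := h Z' t' hZ' ht' h1 h2
      calc |mm (AE T Z' t') - mm (AE T Z t)| ≤ Cm * ‖AE T Z' t' - AE T Z t‖ := h3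
        _ ≤ Cm * (ε' / (2 * Cm)) := mul_le_mul_of_nonneg_left h4 hCm.le
        _ = ε' / 2 := by field_simp
        _ < ε' := by linarith)
    htunT.2.1 htunT.2.2
    (fun k Z t hZ ht hcert => cert_open hL hr₀ hr₀tp hPP k hZ ht hcert)
    (by
      intro Z r a hZ hr ha har b t t0 hb hb0 ht ht0 hμ0 k
      obtain ⟨v, hv, hloc⟩ := stage_data hm₁ hts hts' hF1 hF2 hB hδκ hr₀ hr₀tp htpts hnear hZ hr ha
        har hb hb0 ht ht0 hμ0
      obtain ⟨a', c', C, ha', ha'', hc', hev⟩ := hloc δ₁ hδ₁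
      obtain ⟨N, hN⟩ := eventually_atTop.1 hev
      choose A hA1 hA2 hA3 hA4 using fun n => hN (n + N) (Nat.le_add_left N n)
      have hbt : Tendsto (fun n => b (n + N)) atTop (𝓝 0) := (tendsto_add_atTop_iff_nat N).2 hb0
      have hadm' : ∀ n, adm r₀ (Z \ Ioo (b n) a) := by
        intro n
        refine ⟨hZ.1.sdiff isOpen_Ioo, ⟨hZ.2.1, fun h => ?_⟩, diff_subset.trans hZ.2.2⟩
        exact absurd h.1 (not_lt.2 (hb n).1.le)
      have hE : ∀ n, wall (Z \ Ioo (b (n + N)) a) (t (n + N)) ⊆ Mir ∧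
          P (DD \ wall (Z \ Ioo (b (n + N)) a) (t (n + N))) ∈ PP T u e2 c := fun n =>
        ⟨wall_sub _ _, hPP _ _ (hadm' _) (ht _)⟩
      have hA : ∀ n, c' / Real.log (1 / b (n + N)) ≤ A n ∧ A n ≤ C ∧ 0 < A n := fun n =>
        ⟨hA1 n, hA2 n, hA3 n⟩
      have hs1 := (stage_sign_one one_pos hμ hδ₁ hδ4 hθ1' hB hi1 hL hE ha' ha'' hc'
        (fun n => (hb _).1) hbt (fun n => hv (n + N)) hA hA4).1 hTh1
      have hs2 := (stage_sign_one hx₂0 hμ hδ₁ hδ4 hθ2' hB hi2 hL hE ha' ha'' hc'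
        (fun n => (hb _).1) hbt (fun n => hv (n + N)) hA hA4).2 hTh2
      have ht1 := (small_error (K := 0) (ε := 1) hq2 hB.hq' one_pos hc' one_pos
        (fun n => (hb (n + N)).1) hbt hA).1
      have ht2 := (small_error (K := 0) (ε := 1) hq2 hB.hq' hx₂0 hc' one_pos
        (fun n => (hb (n + N)).1) hbt hA).1
      have hpos : (0 : ℝ) < min (1 / ((k : ℝ) + 1)) s₀ := by
        have := hL.hs
        positivity
      obtain ⟨n, h1, h2, h3, h4⟩ := ((hs1.and (hs2.and ((ht1.eventually (gt_mem_nhds hpos)).and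
        (ht2.eventually (gt_mem_nhds hpos))))).exists)
      refine ⟨n + N, _, _, h1.1, h3.trans_le (min_le_left _ _), (h3.trans_le (min_le_right _ _)).le,
        h2.1, h4.trans_le (min_le_left _ _), (h4.trans_le (min_le_right _ _)).le, h1.2, h2.2⟩)
  obtain ⟨Z, t, hZ, ht, hcert⟩ := hscheme
  have hP := hPP Z t hZ ht
  refine ⟨q, lam, δ₁, u, T, Z, t, hB, hZ.1, hZ.2.1, ?_, hr₀.trans_le ht.1, ht.2.trans_lt htp2,
    s₀, Wf (P (DD \ wall Z t)), F (P (DD \ wall Z t)), ρ (P (DD \ wall Z t)), hL.hs,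
    (hL.der _ hP).1, (hL.der _ hP).2, ?_, hL.zero _ hP, ?_⟩
  · intro x hx
    have h1 := hZ.2.2 hx
    exact ⟨h1.1, by linarith [h1.2]⟩
  · intro s hs
    have h1 := hL.sol _ hP s hs
    exact ⟨h1.2.2.1, h1.2.2.2⟩
  · intro ε' hε'
    obtain ⟨k, hk⟩ := exists_nat_one_div_lt hε'
    obtain ⟨p, v, h1, h2, -, h4, h5, -, h7, h8⟩ := hcert k
    exact ⟨p, v, h1, h2.trans hk, h4, h5.trans hk, h7, h8⟩

end Pool.Agent.H87.LE
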