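import Pool.Agent.H87.LE.B12_Stage

open MeasureTheory Complex Set Filter Topology
open scoped ContDiff Laplacian

namespace Pool.Agent.H87.LE

/-! # B12c: infinitely many critical values -/

/-- infinitely many critical values of `JJ` below `JJ u` -/
theorem infinite_values : ∃ (q lam : ℝ) (Z : Set ℝ) (t M : ℝ), 2 < q ∧ q ≤ 21 / 10 ∧ 0 < lam ∧
    IsClosed Z ∧ (0 : ℝ) ∈ Z ∧ Z ⊆ Icc 0 (1 / 2) ∧ 0 < t ∧ t < 1 / 2 ∧
      {y : ℝ | y ≤ M ∧ ∃ v ∈ V (DD \ wall Z t), (∀ x ∈ V (DD \ wall Z t), inner ℝ v x =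
        lam * ∫ z in DD, |fn v z| ^ (q - 2) * fn v z * fn x z) ∧
        y = ‖v‖ ^ 2 / 2 - lam / q * ∫ z in DD, |fn v z| ^ q}.Infinite := by
  obtain ⟨q, lam, δ, u, T, Z, t, hB, hZ, h0, hZ2, ht, ht2, s₀, Wf, F, ρ, hs, hF, hρ, hW, hF0, hpv⟩ :=
    exists_wall
  have hlam : 0 < lam := by
    by_contra hneg
    push Not at hneg
    have hq : 0 < q := by linarith [hB.hq]
    have hI : ∀ v : HH, 0 ≤ ∫ z in DD, |fn v z| ^ q := fun v =>
      integral_nonneg fun z => Real.rpow_nonneg (abs_nonneg _) _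
    have hu : u = 0 := by
      have h1 := hB.eqn u
      have h2 : (∫ z in DD, |fn u z| ^ (q - 2) * fn u z * fn u z) =
          ∫ z in DD, |fn u z| ^ q := by
        refine integral_congr_ae (Filter.Eventually.of_forall fun z => ?_)
        show |fn u z| ^ (q - 2) * fn u z * fn u z = |fn u z| ^ q
        rw [mul_assoc, ← abs_mul_abs_self, ← sq, ← Real.rpow_natCast |fn u z| 2]
        rcases eq_or_ne (fn u z) 0 with h0 | h0
        · rw [h0, abs_zero, Real.zero_rpow hq.ne', Real.zero_rpow (by linarith [hB.hq]), zero_mul]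
        · rw [← Real.rpow_add (abs_pos.2 h0)]
          congr 1
          push_cast
          ring
      rw [h2, real_inner_self_eq_norm_sq] at h1
      have h3 : ‖u‖ ^ 2 ≤ 0 := by
        rw [h1]
        exact mul_nonpos_of_nonpos_of_nonneg hneg (hI u)
      exact norm_eq_zero.1 (pow_eq_zero_iff (two_ne_zero) |>.1 (le_antisymm h3 (sq_nonneg _)))
    have hN0 : ∀ v : HH, Nq lam q v ≤ 0 := fun v => by
      rw [Nq]
      exact mul_nonpos_of_nonpos_of_nonneg (div_nonpos_of_nonpos_of_nonneg hneg hq.le) (hI v)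
    have hF00 : F 0 ≤ 0 := by
      rw [hF0, hu, JJ, norm_zero, map_zero]
      have h4 : Nq lam q 0 = 0 := by
        rw [Nq]
        have h5 : (∫ z in DD, |fn (0 : HH) z| ^ q) = 0 := by
          rw [map_zero]
          have h6 : (fun z => |((0 : LR) : ℂ → ℝ) z| ^ q) =ᵐ[volume.restrict DD] 0 := by
            refine (ae_restrict_of_ae (Lp.coeFn_zero ℝ 2 volume)).mono fun z hz => ?_
            show |((0 : LR) : ℂ → ℝ) z| ^ q = 0
            rw [hz]
            simp [Real.zero_rpow hq.ne']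
          rw [integral_congr_ae h6]
          simp
        rw [h5, mul_zero]
      rw [h4]
      norm_num
    obtain ⟨p, v, -, -, hv0, hv1, -, hvv⟩ := hpv s₀ hs
    have h7 := (hW v (by rw [abs_of_pos hv0]; exact hv1.le)).2
    rw [JJ] at h7
    have h8 := hN0 (P (DD \ wall Z t) (Wf v))
    have h9 : 0 ≤ ‖Wf v‖ ^ 2 / 2 := by positivity
    linarith
  refine ⟨q, lam, Z, t, F 0, hB.hq, hB.hq', hlam, hZ, h0, hZ2, ht, ht2, ?_⟩
  refine (infinite_crit hs hF hρ hpv).mono ?_
  rintro y ⟨s, hs1, hρ0, hFy, hy⟩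
  refine ⟨hy.le, Wf s, ?_, ?_, ?_⟩
  all_goals
    have habs : |s| ≤ s₀ := by
      rw [abs_of_pos hs1.1]; exact hs1.2.le
    have hg := (hW s habs).1
    rw [hρ0, zero_smul] at hg
    have hv : Wf s = P (DD \ wall Z t) (nq lam q (P (DD \ wall Z t) (Wf s))) := by
      have := hg
      rw [gJ, sub_eq_zero] at this
      exact this
    have hmem : Wf s ∈ V (DD \ wall Z t) := by
      rw [hv]; exact P_mem _ _
    have hP : P (DD \ wall Z t) (Wf s) = Wf s := (P_self_iff _ _).2 hmem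
  · exact hmem
  · intro x hx
    rw [hP] at hv
    have h1 : inner ℝ (Wf s) x = inner ℝ (nq lam q (Wf s)) x := by
      conv_lhs => rw [hv]
      rw [P_symm, (P_self_iff _ _).2 hx]
    rw [h1, nq_inner hB.hq hB.hq']
  · have h2 := (hW s habs).2
    rw [← hFy, h2, JJ, hP, Nq]

end Pool.Agent.H87.LE
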