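import Pool.Agent.H87.LE.Base

open MeasureTheory Complex Set Filter Topology
open scoped ContDiff Laplacian

namespace Pool.Agent.H87.LE

/-! # B13a: the spectrum in the plane, transfer to `EuclideanSpace` -/

/-- the spectrum for a plane domain -/
def SpecC (Ω : Set ℂ) (q : ℝ) : Set ℝ := {lam : ℝ | ∃ (u : ℂ → ℝ) (G : ℂ → ℂ),
      MemLp u 2 (volume.restrict Ω) ∧ MemLp u (ENNReal.ofReal q) (volume.restrict Ω) ∧
      MemLp G 2 (volume.restrict Ω) ∧
      ¬ (u =ᵐ[volume.restrict Ω] 0) ∧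
      (∃ φ : ℕ → ℂ → ℝ,
        (∀ n, ContDiff ℝ ((⊤ : ℕ∞) : WithTop ℕ∞) (φ n) ∧ HasCompactSupport (φ n) ∧
          tsupport (φ n) ⊆ Ω) ∧
        Tendsto (fun n => eLpNorm (fun x => φ n x - u x) 2 (volume.restrict Ω)) atTop (nhds 0) ∧
        Tendsto (fun n => eLpNorm (fun x => gradient (φ n) x - G x) 2 (volume.restrict Ω)) atTop
          (nhds 0)) ∧
      ∀ ψ : ℂ → ℝ, ContDiff ℝ ((⊤ : ℕ∞) : WithTop ℕ∞) ψ → HasCompactSupport ψ →
        tsupport ψ ⊆ Ω →
        ∫ x in Ω, inner ℝ (G x) (gradient ψ x) =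
          lam * ((eLpNorm u (ENNReal.ofReal q) (volume.restrict Ω)).toReal) ^ (2 - q) *
            ∫ x in Ω, |u x| ^ (q - 2) * u x * ψ x}

section generic

variable {X Y : Type*} [NormedAddCommGroup X] [InnerProductSpace ℝ X] [FiniteDimensional ℝ X]
  [MeasurableSpace X] [BorelSpace X] [CompleteSpace X]
  [NormedAddCommGroup Y] [InnerProductSpace ℝ Y] [FiniteDimensional ℝ Y]
  [MeasurableSpace Y] [BorelSpace Y] [CompleteSpace Y]

theorem b13_grad_comp (L : X ≃ₗᵢ[ℝ] Y) (φ : Y → ℝ) (z : X) :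
    gradient (fun z => φ (L z)) z = L.symm (gradient φ (L z)) := by
  have h1 : fderiv ℝ (fun z => φ (L z)) z =
      (fderiv ℝ φ (L z)).comp (L.toContinuousLinearEquiv : X →L[ℝ] Y) :=
    L.toContinuousLinearEquiv.comp_right_fderiv
  apply ext_inner_right ℝ
  intro w
  rw [inner_gradient_left, h1]
  have h2 : inner ℝ (L.symm (gradient φ (L z))) w = inner ℝ (gradient φ (L z)) (L w) := by
    rw [← L.inner_map_map, L.apply_symm_apply]
  rw [h2, inner_gradient_left]
  rfl

/-- generic spectrum -/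
def b13Spec (Ω : Set X) (q : ℝ) : Set ℝ := {lam : ℝ | ∃ (u : X → ℝ) (G : X → X),
      MemLp u 2 (volume.restrict Ω) ∧ MemLp u (ENNReal.ofReal q) (volume.restrict Ω) ∧
      MemLp G 2 (volume.restrict Ω) ∧
      ¬ (u =ᵐ[volume.restrict Ω] 0) ∧
      (∃ φ : ℕ → X → ℝ,
        (∀ n, ContDiff ℝ ((⊤ : ℕ∞) : WithTop ℕ∞) (φ n) ∧ HasCompactSupport (φ n) ∧
          tsupport (φ n) ⊆ Ω) ∧
        Tendsto (fun n => eLpNorm (fun x => φ n x - u x) 2 (volume.restrict Ω)) atTop (nhds 0) ∧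
        Tendsto (fun n => eLpNorm (fun x => gradient (φ n) x - G x) 2 (volume.restrict Ω)) atTop
          (nhds 0)) ∧
      ∀ ψ : X → ℝ, ContDiff ℝ ((⊤ : ℕ∞) : WithTop ℕ∞) ψ → HasCompactSupport ψ →
        tsupport ψ ⊆ Ω →
        ∫ x in Ω, inner ℝ (G x) (gradient ψ x) =
          lam * ((eLpNorm u (ENNReal.ofReal q) (volume.restrict Ω)).toReal) ^ (2 - q) *
            ∫ x in Ω, |u x| ^ (q - 2) * u x * ψ x}

theorem b13_tsupport {Ω : Set X} (e : X ≃ₗᵢ[ℝ] Y) {φ : X → ℝ} (h : tsupport φ ⊆ Ω) :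
    tsupport (fun y => φ (e.symm y)) ⊆ e '' Ω := by
  have h1 : tsupport (fun y => φ (e.symm y)) ⊆ e.symm ⁻¹' (tsupport φ) := by
    refine closure_minimal ?_ ((isClosed_tsupport φ).preimage e.symm.continuous)
    intro w hw
    exact subset_tsupport _ hw
  intro y hy
  exact ⟨e.symm y, h (h1 hy), e.apply_symm_apply y⟩

theorem b13_mp (e : X ≃ₗᵢ[ℝ] Y) (Ω : Set X) :
    MeasurePreserving e.symm (volume.restrict (e '' Ω)) (volume.restrict Ω) := by
  have h := e.symm.measurePreserving.restrict_preimage_emb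
    e.symm.toHomeomorph.measurableEmbedding Ω
  have e1 : e.symm ⁻¹' Ω = e '' Ω := by
    ext y
    constructor
    · intro hy
      exact ⟨e.symm y, hy, e.apply_symm_apply y⟩
    · rintro ⟨x, hx, rfl⟩
      simpa using hx
  rwa [e1] at h

theorem b13_sub (e : X ≃ₗᵢ[ℝ] Y) (Ω : Set X) (q : ℝ) : b13Spec Ω q ⊆ b13Spec (e '' Ω) q := by
  rintro lam ⟨u, G, hu2, huq, hG, hne, ⟨φ, hφ, hL1, hL2⟩, heq⟩
  have hm := b13_mp e Ω
  have hsymm : e.symm '' (e '' Ω) = Ω := by
    rw [image_image]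
    simp
  have hm' : MeasurePreserving e (volume.restrict Ω) (volume.restrict (e '' Ω)) := by
    have := b13_mp e.symm (e '' Ω)
    rwa [hsymm] at this
  refine ⟨fun y => u (e.symm y), fun y => e (G (e.symm y)), hu2.comp_measurePreserving hm,
    huq.comp_measurePreserving hm, ?_, ?_, ?_, ?_⟩
  · have h1 : MemLp (fun y => G (e.symm y)) 2 (volume.restrict (e '' Ω)) :=
      hG.comp_measurePreserving hm
    exact e.toContinuousLinearEquiv.toContinuousLinearMap.comp_memLp' h1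
  · intro h
    apply hne
    have h1 := hm'.quasiMeasurePreserving.ae h
    filter_upwards [h1] with z hz
    simpa using hz
  · refine ⟨fun n y => φ n (e.symm y), fun n => ⟨(hφ n).1.comp e.symm.contDiff,
      (hφ n).2.1.comp_homeomorph e.symm.toHomeomorph, b13_tsupport e (hφ n).2.2⟩, ?_, ?_⟩
    · refine hL1.congr fun n => ?_
      exact (eLpNorm_comp_measurePreserving (p := 2)
        ((hφ n).1.continuous.aestronglyMeasurable.sub hu2.1) hm).symm
    · refine hL2.congr fun n => ?_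
      have hgc : Continuous (gradient (φ n)) := by
        have h1 : Continuous (fderiv ℝ (φ n)) := (hφ n).1.continuous_fderiv (by simp)
        exact (InnerProductSpace.toDual ℝ X).symm.continuous.comp h1
      have e1 := eLpNorm_comp_measurePreserving (p := 2)
        (hgc.aestronglyMeasurable.sub hG.1) hm
      refine (e1.symm.trans ?_ : eLpNorm (gradient (φ n) - G) 2 (volume.restrict Ω) = _)
      apply eLpNorm_congr_norm_ae
      refine Eventually.of_forall fun z => ?_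
      have e2 := b13_grad_comp e.symm (φ n) z
      rw [LinearIsometryEquiv.symm_symm] at e2
      rw [e2, ← map_sub, e.norm_map]
      rfl
  · intro ψ h1 h2 h3
    have h4 : tsupport (fun x => ψ (e x)) ⊆ Ω := by
      have := b13_tsupport e.symm h3
      rwa [hsymm, LinearIsometryEquiv.symm_symm] at this
    have h5 := heq (fun x => ψ (e x)) (h1.comp e.contDiff) (h2.comp_homeomorph e.toHomeomorph) h4
    have e1 : ∫ y in e '' Ω, inner ℝ (e (G (e.symm y))) (gradient ψ y) =
        ∫ x in Ω, inner ℝ (G x) (gradient (fun x => ψ (e x)) x) := by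
      rw [← hm.integral_comp e.symm.toHomeomorph.measurableEmbedding]
      apply integral_congr_ae
      refine Eventually.of_forall fun y => ?_
      simp only
      rw [b13_grad_comp, e.apply_symm_apply, ← e.inner_map_map (G (e.symm y)),
        e.apply_symm_apply]
    have e2 : ∫ y in e '' Ω, |u (e.symm y)| ^ (q - 2) * u (e.symm y) * ψ y =
        ∫ x in Ω, |u x| ^ (q - 2) * u x * ψ (e x) := by
      rw [← hm.integral_comp e.symm.toHomeomorph.measurableEmbedding]
      apply integral_congr_ae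
      refine Eventually.of_forall fun y => ?_
      simp only
      rw [e.apply_symm_apply]
    have e3 : eLpNorm (fun y => u (e.symm y)) (ENNReal.ofReal q) (volume.restrict (e '' Ω)) =
        eLpNorm u (ENNReal.ofReal q) (volume.restrict Ω) :=
      eLpNorm_comp_measurePreserving huq.1 hm
    rw [e1, e2, e3]
    exact h5

theorem b13_eq (e : X ≃ₗᵢ[ℝ] Y) (Ω : Set X) (q : ℝ) : b13Spec Ω q = b13Spec (e '' Ω) q := by
  refine Subset.antisymm (b13_sub e Ω q) ?_
  have h := b13_sub e.symm (e '' Ω) q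
  have hsymm : e.symm '' (e '' Ω) = Ω := by
    rw [image_image]
    simp
  rwa [hsymm] at h

end generic

/-- transfer to the Euclidean plane -/
theorem transfer (e : ℂ ≃ₗᵢ[ℝ] EuclideanSpace ℝ (Fin 2)) (Ω : Set ℂ) (q : ℝ) :
    SpecC Ω q = {lam : ℝ | ∃ (u : EuclideanSpace ℝ (Fin 2) → ℝ)
      (G : EuclideanSpace ℝ (Fin 2) → EuclideanSpace ℝ (Fin 2)),
      MemLp u 2 (volume.restrict (e '' Ω)) ∧
      MemLp u (ENNReal.ofReal q) (volume.restrict (e '' Ω)) ∧
      MemLp G 2 (volume.restrict (e '' Ω)) ∧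
      ¬ (u =ᵐ[volume.restrict (e '' Ω)] 0) ∧
      (∃ φ : ℕ → EuclideanSpace ℝ (Fin 2) → ℝ,
        (∀ n, ContDiff ℝ ((⊤ : ℕ∞) : WithTop ℕ∞) (φ n) ∧ HasCompactSupport (φ n) ∧
          tsupport (φ n) ⊆ (e '' Ω)) ∧
        Tendsto (fun n => eLpNorm (fun x => φ n x - u x) 2 (volume.restrict (e '' Ω))) atTop
          (nhds 0) ∧
        Tendsto (fun n => eLpNorm (fun x => gradient (φ n) x - G x) 2
          (volume.restrict (e '' Ω))) atTop (nhds 0)) ∧
      ∀ ψ : EuclideanSpace ℝ (Fin 2) → ℝ, ContDiff ℝ ((⊤ : ℕ∞) : WithTop ℕ∞) ψ →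
        HasCompactSupport ψ → tsupport ψ ⊆ (e '' Ω) →
        ∫ x in (e '' Ω), inner ℝ (G x) (gradient ψ x) =
          lam * ((eLpNorm u (ENNReal.ofReal q) (volume.restrict (e '' Ω))).toReal) ^ (2 - q) *
            ∫ x in (e '' Ω), |u x| ^ (q - 2) * u x * ψ x} := by
  exact b13_eq e Ω q

end Pool.Agent.H87.LE
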