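import Pool.Agent.H87.LE.A18_Sym
import Pool.Agent.H87.LE.B12c_Inf
import Pool.Agent.H87.LE.B13a_Transfer

open MeasureTheory Complex Set Filter Topology
open scoped ContDiff Laplacian

namespace Pool.Agent.H87.LE

/-! # B13: the spectrum accumulates -/

theorem isOpen_DD' : IsOpen DD := by
  have h : DD = {z : ℂ | |z.re| < 1} ∩ {z : ℂ | |z.im| < 1} := rfl
  rw [h]
  exact (isOpen_lt (by fun_prop) continuous_const).inter (isOpen_lt (by fun_prop) continuous_const)

theorem isClosed_wall' {Z : Set ℝ} (hZ : IsClosed Z) (t : ℝ) : IsClosed (wall Z t) := by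
  have h : wall Z t = ({z : ℂ | z.re * z.im = 0} ∩ {z : ℂ | t ≤ ‖z‖}) ∪
      ({z : ℂ | z.re * z.im * (z.re ^ 2 - z.im ^ 2) = 0} ∩ (fun z : ℂ => ‖z‖) ⁻¹' Z) := rfl
  rw [h]
  refine ((isClosed_eq (by fun_prop) continuous_const).inter
    (isClosed_le continuous_const (by fun_prop))).union
    ((isClosed_eq (by fun_prop) continuous_const).inter (hZ.preimage (by fun_prop)))

theorem rot_DD' (z : ℂ) : I * z ∈ DD ↔ z ∈ DD := by
  simp only [DD, mem_ofPred_eq, mul_re, mul_im, I_re, I_im]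
  simp only [zero_mul, one_mul, zero_sub, zero_add, abs_neg]
  exact and_comm

theorem rot_wall' (Z : Set ℝ) (t : ℝ) (z : ℂ) : I * z ∈ wall Z t ↔ z ∈ wall Z t := by
  have h1 : I * z ∈ Axs ↔ z ∈ Axs := by
    simp only [Axs, mem_ofPred_eq, mul_re, mul_im, I_re, I_im]
    simp only [zero_mul, one_mul, zero_sub, zero_add]
    constructor <;> intro h <;> nlinarith
  have h2 : I * z ∈ Mir ↔ z ∈ Mir := by
    simp only [Mir, mem_ofPred_eq, mul_re, mul_im, I_re, I_im]
    simp only [zero_mul, one_mul, zero_sub, zero_add]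
    constructor <;> intro h <;> nlinarith
  have h3 : ‖I * z‖ = ‖z‖ := by simp
  simp only [wall, mem_ofPred_eq, h1, h2, h3]

theorem rot_Om' (Z : Set ℝ) (t : ℝ) (z : ℂ) : I * z ∈ DD \ wall Z t ↔ z ∈ DD \ wall Z t := by
  rw [Set.mem_sdiff, Set.mem_sdiff, rot_DD', rot_wall']

theorem Om_nonempty' (Z : Set ℝ) (t : ℝ) : (DD \ wall Z t).Nonempty := by
  refine ⟨⟨1/2, 1/4⟩, ?_, ?_⟩
  · constructor <;> norm_num [abs_lt]
  · rintro (⟨h, -⟩ | ⟨h, -⟩)
    · simp only [Axs, mem_ofPred_eq] at h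
      norm_num at h
    · simp only [Mir, mem_ofPred_eq] at h
      norm_num at h

theorem vol_DD_lt' : volume DD < ⊤ := by
  have h : DD ⊆ Metric.ball (0:ℂ) 2 := by
    intro z hz
    rw [mem_ball_zero_iff]
    have h1 := Complex.norm_le_abs_re_add_abs_im z
    have h2 : |z.re| < 1 := hz.1
    have h3 : |z.im| < 1 := hz.2
    linarith
  exact (measure_mono h).trans_lt measure_ball_lt_top

theorem memLp_fn_of_le4 (v : HH) {p : ENNReal} (hp : p ≤ 4) : MemLp (fn v) p (volume.restrict DD) := by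
  obtain ⟨C, hC0, hC⟩ := fn_l4
  have : IsFiniteMeasure (volume.restrict DD) := ⟨by simpa using vol_DD_lt'⟩
  exact ((hC v).1.restrict DD).mono_exponent hp

theorem memLp_aux {μ : Measure ℂ} [IsFiniteMeasure μ] {w : ℂ → ℝ} (h4 : MemLp w 4 μ) {q : ℝ}
    (hq2 : 2 < q) (hq : q ≤ 21 / 10) (lam : ℝ) :
    MemLp (fun z => lam * (|w z| ^ (q - 2) * w z)) 2 μ := by
  have hm : AEStronglyMeasurable w μ := h4.1
  have h7 : MemLp (fun z => (w z)^2) 2 μ := by
    have h5 := MemLp.norm_rpow_div h4 2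
    have h6 : (4 : ENNReal) / 2 = 2 := by
      rw [eq_comm, ENNReal.eq_div_iff (by norm_num) (by norm_num)]; norm_num
    rw [h6] at h5
    refine h5.congr_norm (hm.pow 2) (Eventually.of_forall fun z => ?_)
    simp
  have h2 : MemLp (fun z => 1 + (w z)^2) 2 μ := MemLp.add (memLp_const (1:ℝ)) h7
  refine MemLp.const_mul (h2.mono' ?_ (Eventually.of_forall fun z => ?_)) lam
  · have hm' := hm.aemeasurable
    exact ((hm'.abs.pow_const _).mul hm').aestronglyMeasurable
  · rw [Real.norm_eq_abs, abs_mul, abs_of_nonneg (Real.rpow_nonneg (abs_nonneg _) _)]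
    rcases le_total (|w z|) 1 with h | h
    · have h1 : |w z| ^ (q - 2) ≤ 1 := Real.rpow_le_one (abs_nonneg _) h (by linarith)
      have h3 : |w z| ^ (q - 2) * |w z| ≤ 1 * 1 :=
        mul_le_mul h1 h (abs_nonneg _) zero_le_one
      nlinarith [sq_nonneg (w z)]
    · have h1 : |w z| ^ (q - 2) ≤ |w z| ^ (1:ℝ) :=
        Real.rpow_le_rpow_of_exponent_le h (by linarith)
      rw [Real.rpow_one] at h1
      have h3 : |w z| ^ (q - 2) * |w z| ≤ |w z| * |w z| :=
        mul_le_mul_of_nonneg_right h1 (abs_nonneg _)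
      rw [abs_mul_abs_self] at h3
      nlinarith

theorem memLp_rhs {q lam : ℝ} (hq2 : 2 < q) (hq : q ≤ 21 / 10) (v : HH) :
    MemLp (fun z => lam * (|fn v z| ^ (q - 2) * fn v z)) 2 (volume.restrict DD) := by
  have : IsFiniteMeasure (volume.restrict DD) := ⟨by simpa using vol_DD_lt'⟩
  exact memLp_aux (memLp_fn_of_le4 v le_rfl) hq2 hq lam

/-- a critical point gives an element of the spectrum -/
theorem spec_mem {q lam : ℝ} {Z : Set ℝ} {t : ℝ} (hq2 : 2 < q) (hq : q ≤ 21 / 10)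
    (hZ : IsClosed Z) {v : HH} (hv : v ∈ V (DD \ wall Z t))
    (he : ∀ x ∈ V (DD \ wall Z t), inner ℝ v x =
        lam * ∫ z in DD, |fn v z| ^ (q - 2) * fn v z * fn x z)
    (hne : 0 < ∫ z in DD, |fn v z| ^ q) :
    lam * (∫ z in DD, |fn v z| ^ q) ^ ((q - 2) / q) ∈ SpecC (DD \ wall Z t) q := by
  set Ω := DD \ wall Z t with hΩdef
  have hΩ : IsOpen Ω := isOpen_DD'.sdiff (isClosed_wall' hZ t)
  have hD : Ω ⊆ DD := sdiff_subset
  have hI : ∀ z, I * z ∈ Ω ↔ z ∈ Ω := rot_Om' Z t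
  have hW : W1 Ω (fn v) (gr v) := V_approx hD hv
  have hWD : W1 DD (fn v) (gr v) := V_approx subset_rfl (by rw [V_top]; trivial)
  obtain ⟨hv2, hG2, hoff⟩ := W1_off hΩ.measurableSet hW
  have hint : ∫ z in DD, |fn v z| ^ q = ∫ z in Ω, |fn v z| ^ q := by
    refine setIntegral_eq_of_subset_of_ae_sdiff_eq_zero (f := fun z => |fn v z| ^ q)
      isOpen_DD'.measurableSet.nullMeasurableSet hD ?_
    filter_upwards [hoff] with z hz hz2
    rw [(hz hz2.2).1, abs_zero, Real.zero_rpow (by linarith)]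
  have hq4 : ENNReal.ofReal q ≤ 4 := by
    have : (4:ENNReal) = ENNReal.ofReal 4 := by norm_num
    rw [this]
    exact ENNReal.ofReal_le_ofReal (by linarith)
  have hmq : MemLp (fn v) (ENNReal.ofReal q) (volume.restrict Ω) :=
    (memLp_fn_of_le4 v hq4).mono_measure (Measure.restrict_mono hD le_rfl)
  have hrhs := memLp_rhs (lam := lam) hq2 hq v
  set f : ℂ → ℝ := fun z => lam * (|fn v z| ^ (q - 2) * fn v z) with hf
  have hE : EqnS Ω (gr v) f := by
    rw [eqn_iff hΩ hD v hrhs]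
    intro y hy
    rw [he y hy, ← integral_const_mul]
    rw [← integral_indicator isOpen_DD'.measurableSet]
    refine integral_congr_ae ?_
    filter_upwards [fn_off y] with z hz
    by_cases hzD : z ∈ DD
    · rw [indicator_of_mem hzD]
      simp only [hf]
      ring
    · rw [indicator_of_notMem hzD, hz hzD, mul_zero]
  have : IsFiniteMeasure (volume.restrict DD) := ⟨by simpa using vol_DD_lt'⟩
  have hfint : IntegrableOn f Ω := (hrhs.integrable (by norm_num)).mono_measure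
    (Measure.restrict_mono hD le_rfl)
  have hfR : ∀ᵐ z, z ∈ Ω → f (I * z) = f z := by
    filter_upwards [(W1_rot hWD).1] with z hz _
    simp only [hf, hz]
  have hnorm : (eLpNorm (fn v) (ENNReal.ofReal q) (volume.restrict Ω)).toReal =
      (∫ z in DD, |fn v z| ^ q) ^ q⁻¹ := by
    rw [MemLp.eLpNorm_eq_integral_rpow_norm (by
      simp only [ne_eq, ENNReal.ofReal_eq_zero, not_le]; linarith) ENNReal.ofReal_ne_top hmq,
      ENNReal.toReal_ofReal (by positivity), ENNReal.toReal_ofReal (by linarith), hint]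
    rfl
  refine ⟨fn v, gr v, hv2.restrict Ω, hmq, hG2.restrict Ω, ?_, ?_, ?_⟩
  · intro h0
    rw [hint] at hne
    have : ∫ z in Ω, |fn v z| ^ q = 0 := by
      rw [← integral_zero ℂ ℝ (μ := volume.restrict Ω)]
      refine integral_congr_ae ?_
      filter_upwards [h0] with z hz
      rw [hz, Pi.zero_apply, abs_zero, Real.zero_rpow (by linarith)]
    linarith
  · obtain ⟨φ, hφ, hlim⟩ := hW
    refine ⟨φ, fun n => (hφ n).1, ?_, ?_⟩
    · exact tendsto_of_tendsto_of_tendsto_of_le_of_le tendsto_const_nhds hlim.2.2.1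
        (fun _ => bot_le) (fun n => eLpNorm_mono_measure _ Measure.restrict_le_self)
    · exact tendsto_of_tendsto_of_tendsto_of_le_of_le tendsto_const_nhds hlim.2.2.2
        (fun _ => bot_le) (fun n => eLpNorm_mono_measure _ Measure.restrict_le_self)
  · intro ψ hψ1 hψ2 hψ3
    have hψ : Tst Ω ψ := ⟨hψ1, hψ2, hψ3⟩
    have h := sym_crit hΩ hD hI hWD hfint hfR hE hψ
    have hL : ∫ x in Ω, inner ℝ (gr v x) (gradient ψ x) = ∫ x, inner ℝ (gr v x) (gradient ψ x) := by
      refine setIntegral_eq_integral_of_forall_compl_eq_zero fun z hz => ?_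
      have h1 : z ∉ tsupport ψ := fun h => hz (hψ3 h)
      have h2 : gradient ψ z = 0 := by
        have h3 : ψ =ᶠ[𝓝 z] 0 := notMem_tsupport_iff_eventuallyEq.1 h1
        have h4 : fderiv ℝ ψ z = 0 := by
          rw [h3.fderiv_eq]
          simp
        unfold gradient
        rw [h4, map_zero]
      rw [h2, inner_zero_right]
    have hR : ∫ x in Ω, |fn v x| ^ (q - 2) * fn v x * ψ x =
        ∫ x, |fn v x| ^ (q - 2) * fn v x * ψ x := by
      refine setIntegral_eq_integral_of_forall_compl_eq_zero fun z hz => ?_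
      have h1 : ψ z = 0 := image_eq_zero_of_notMem_tsupport fun h => hz (hψ3 h)
      rw [h1, mul_zero]
    rw [hL, hR, h, hnorm]
    have hc : lam * (∫ z in DD, |fn v z| ^ q) ^ ((q - 2) / q) *
        ((∫ z in DD, |fn v z| ^ q) ^ q⁻¹) ^ (2 - q) = lam := by
      rw [← Real.rpow_mul hne.le, mul_assoc, ← Real.rpow_add hne]
      have : (q - 2) / q + q⁻¹ * (2 - q) = 0 := by
        field_simp
        ring
      rw [this, Real.rpow_zero, mul_one]
    rw [hc, ← integral_const_mul]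
    refine integral_congr_ae (Eventually.of_forall fun z => ?_)
    simp only [hf]
    ring

theorem spec_infinite : ∃ (Ω : Set ℂ) (q M : ℝ), IsOpen Ω ∧ Ω ⊆ DD ∧ Ω.Nonempty ∧ 2 < q ∧
    (SpecC Ω q ∩ Iic M).Infinite := by
  obtain ⟨q, lam, Z, t, M, hq2, hq, hlam, hZc, hZ0, hZs, ht0, ht12, hinf⟩ := infinite_values
  have hc : 0 < lam * (1 / 2 - 1 / q) := by
    have : 1 / q < 1 / 2 := one_div_lt_one_div_of_lt (by norm_num) hq2
    exact mul_pos hlam (by linarith)
  set g : ℝ → ℝ := fun y => lam * (y / (lam * (1 / 2 - 1 / q))) ^ ((q - 2) / q) with hg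
  have he0 : 0 < (q - 2) / q := div_pos (by linarith) (by linarith)
  have hmono : StrictMonoOn g (Ici 0) := by
    intro a ha b hb hab
    simp only [hg]
    refine mul_lt_mul_of_pos_left ?_ hlam
    have ha' : (0:ℝ) ≤ a := ha
    exact Real.rpow_lt_rpow (by positivity) (by gcongr) he0
  set Y := {y : ℝ | y ≤ M ∧ ∃ v ∈ V (DD \ wall Z t), (∀ x ∈ V (DD \ wall Z t), inner ℝ v x =
        lam * ∫ z in DD, |fn v z| ^ (q - 2) * fn v z * fn x z) ∧
        y = ‖v‖ ^ 2 / 2 - lam / q * ∫ z in DD, |fn v z| ^ q} with hY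
  have hkey : ∀ y ∈ Y \ {0}, 0 ≤ y ∧ y ≤ M ∧ g y ∈ SpecC (DD \ wall Z t) q := by
    rintro y ⟨⟨hyM, v, hv, he, hy⟩, hy0⟩
    have hvv := he v hv
    rw [real_inner_self_eq_norm_sq] at hvv
    have hI : ∫ z in DD, |fn v z| ^ (q - 2) * fn v z * fn v z = ∫ z in DD, |fn v z| ^ q := by
      refine integral_congr_ae (Eventually.of_forall fun z => ?_)
      simp only
      rcases eq_or_ne (fn v z) 0 with h | h
      · rw [h, abs_zero, Real.zero_rpow (by linarith : q ≠ 0)]; simp
      · have h1 : 0 < |fn v z| := abs_pos.2 h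
        rw [mul_assoc, ← abs_mul_abs_self (fn v z), ← sq, ← Real.rpow_natCast (|fn v z|) 2,
          ← Real.rpow_add h1]
        norm_num
    rw [hI] at hvv
    have hnn : 0 ≤ ∫ z in DD, |fn v z| ^ q := integral_nonneg fun z => by positivity
    have hyI : y = (lam * (1 / 2 - 1 / q)) * ∫ z in DD, |fn v z| ^ q := by
      rw [hy, hvv]; ring
    have hpos : 0 < ∫ z in DD, |fn v z| ^ q := by
      refine lt_of_le_of_ne hnn fun h => hy0 ?_
      rw [mem_singleton_iff, hyI, ← h, mul_zero]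
    refine ⟨by rw [hyI]; positivity, hyM, ?_⟩
    have := spec_mem hq2 hq hZc hv he hpos
    convert this using 3
    rw [hyI]
    exact mul_div_cancel_left₀ _ hc.ne'
  refine ⟨DD \ wall Z t, q, g (max M 0), isOpen_DD'.sdiff (isClosed_wall' hZc t), sdiff_subset,
    Om_nonempty' Z t, hq2, ?_⟩
  have hinj : InjOn g (Y \ {0}) := fun a ha b hb hab =>
    hmono.injOn (hkey a ha).1 (hkey b hb).1 hab
  have h2 : (g '' (Y \ {0})).Infinite := (hinf.sdiff (finite_singleton 0)).image hinj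
  refine h2.mono ?_
  rintro _ ⟨y, hy, rfl⟩
  obtain ⟨h0, hM, hS⟩ := hkey y hy
  exact ⟨hS, hmono.monotoneOn h0 (le_max_right M 0) (hM.trans (le_max_left M 0))⟩

end Pool.Agent.H87.LE
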