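import Mathlib

/-!
# Basic definitions for the negation of MP_7eb226_an (accumulation in the Dirichlet q-spectrum)

The plane is `ℂ` with Lebesgue measure and the real inner product `re (conj z * w)`.
-/

open MeasureTheory Complex Set Filter Topology
open scoped ContDiff Laplacian

namespace Pool.Agent.H87.LE

/-- the square `(-1,1)²` -/
def DD : Set ℂ := {z | |z.re| < 1 ∧ |z.im| < 1}

/-- the unit square `(0,1)²` -/
def QQ : Set ℂ := {z | 0 < z.re ∧ z.re < 1 ∧ 0 < z.im ∧ z.im < 1}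

/-- the four mirrors `x = 0, y = 0, x = y, x = -y` -/
def Mir : Set ℂ := {z | z.re * z.im * (z.re ^ 2 - z.im ^ 2) = 0}

/-- the two axes -/
def Axs : Set ℂ := {z | z.re * z.im = 0}

/-- the closed star of radius `b` -/
def star (b : ℝ) : Set ℂ := {z | z ∈ Mir ∧ ‖z‖ ≤ b}

/-- the wall set: axes outside radius `t`, mirrors at the radii in `Z` -/
def wall (Z : Set ℝ) (t : ℝ) : Set ℂ := {z | (z ∈ Axs ∧ t ≤ ‖z‖) ∨ (z ∈ Mir ∧ ‖z‖ ∈ Z)}

/-- `w0 = sin πx sin 2πy - sin 2πx sin πy` -/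
noncomputable def w0 (z : ℂ) : ℝ :=
  Real.sin (Real.pi * z.re) * Real.sin (2 * Real.pi * z.im) -
    Real.sin (2 * Real.pi * z.re) * Real.sin (Real.pi * z.im)

/-- `phi0 = 2 |sin πx sin πy| (cos πx + cos πy)` -/
noncomputable def phi0 (z : ℂ) : ℝ :=
  2 * |Real.sin (Real.pi * z.re) * Real.sin (Real.pi * z.im)| *
    (Real.cos (Real.pi * z.re) + Real.cos (Real.pi * z.im))

/-- `psi11 = |sin πx sin πy|` -/
noncomputable def psi11 (z : ℂ) : ℝ := |Real.sin (Real.pi * z.re) * Real.sin (Real.pi * z.im)|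

/-- `bet = cos (πx/2) cos (πy/2)` -/
noncomputable def bet (z : ℂ) : ℝ :=
  Real.cos (Real.pi / 2 * z.re) * Real.cos (Real.pi / 2 * z.im)

/-- `hh z = |Im z⁴|` -/
noncomputable def hh (z : ℂ) : ℝ := |(z ^ 4).im|

/-- elliptic coordinate of `z⁴`: `cosh (xi z) = (|z⁴-1|+|z⁴+1|)/2` -/
noncomputable def xi (z : ℂ) : ℝ := Real.arcosh ((‖z ^ 4 - 1‖ + ‖z ^ 4 + 1‖) / 2)

/-- scaled elliptic coordinate -/
noncomputable def xib (b : ℝ) (z : ℂ) : ℝ := xi (z / b)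

/-- second symmetric remainder of `|·|^q` -/
noncomputable def Mq (q α β : ℝ) : ℝ :=
  (|α + β| ^ q + |α - β| ^ q) / 2 - |α| ^ q - q * (q - 1) / 2 * |α| ^ (q - 2) * β ^ 2

/-- first remainder of `|·|^(q-2) ·` -/
noncomputable def Rq (q α β : ℝ) : ℝ :=
  |α + β| ^ (q - 2) * (α + β) - |α| ^ (q - 2) * α - (q - 1) * |α| ^ (q - 2) * β

/-- test functions in `Ω` -/
def Tst (Ω : Set ℂ) (φ : ℂ → ℝ) : Prop :=
  ContDiff ℝ ∞ φ ∧ HasCompactSupport φ ∧ tsupport φ ⊆ Ω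

/-- `-Δ ψ ≥ g` weakly in `Ω` (tested with nonnegative test functions) -/
def WSup (Ω : Set ℂ) (ψ g : ℂ → ℝ) : Prop :=
  ∀ φ, Tst Ω φ → (∀ z, 0 ≤ φ z) →
    ∫ z, g z * φ z ≤ ∫ z, inner ℝ (gradient ψ z) (gradient φ z)

/-- rotation invariance by `90` degrees -/
def Rot (φ : ℂ → ℝ) : Prop := ∀ z, φ (I * z) = φ z

/-- invariance under reflection -/
def Cnj (φ : ℂ → ℝ) : Prop := ∀ z, φ (starRingEnd ℂ z) = φ z

end Pool.Agent.H87.LE
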